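import Pool.Agent.Lib.MP_a17b09_nt.AN.Stmts3
import Pool.Agent.Lib.MP_a17b09_nt.PQ.X3_11

/-!
Project AN (MP_a17b09_nt), (A3): the weights are multiplicative up to small sets (helper11, after
PQ/X3_11).
-/

set_option autoImplicit false

open Filter Topology Finset

namespace Pool.Agent.Lib.MP_a17b09_nt.AN.A3x11

open CH CH.PE MRSG MRS
open PQ (B1 Wy Apx)
open PQ.X3x11 (scale)

/-- the primes counted by `cntN` -/
def Cs (x u v : ℝ) (n : ℕ) : Set ℕ := {p : ℕ | p.Prime ∧ p ∣ n ∧ x ^ u < p ∧ (p : ℝ) ≤ x ^ v}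

theorem cntN_eq (x u v : ℝ) (n : ℕ) : cntN x u v n = (Cs x u v n).ncard := rfl

theorem cs_mul {c0 N u v : ℝ} (hc : c0 ≤ u) (hN : 1 ≤ N) {p n : ℕ} (hp : p.Prime)
    (hpy : (p : ℝ) ≤ N ^ c0) : Cs N u v (p * n) = Cs N u v n := by
  ext r
  constructor
  · rintro ⟨hr, hrd, h1, h2⟩
    refine ⟨hr, ?_, h1, h2⟩
    rcases hr.dvd_mul.1 hrd with h | h
    · exfalso
      have h3 : r = p := (Nat.prime_dvd_prime_iff_eq hr hp).1 h
      subst h3
      have h4 : N ^ c0 ≤ N ^ u := Real.rpow_le_rpow_of_exponent_le hN hc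
      linarith
    · exact h
  · rintro ⟨hr, hrd, h1, h2⟩
    exact ⟨hr, hrd.mul_left p, h1, h2⟩

theorem at_mul {E : Ev} {c0 N : ℝ} (hc : ∀ i, c0 ≤ E.u i) (hN : 1 ≤ N) {p n : ℕ} (hp : p.Prime)
    (hpy : (p : ℝ) ≤ N ^ c0) : E.At N (p * n) ↔ E.At N n := by
  unfold Ev.At
  refine forall_congr' fun i => ?_
  rw [cntN_eq, cntN_eq, cs_mul (hc i) hN hp hpy]

theorem ind_congr {b b' : ℕ → Prop} {m n : ℕ} (h : b m ↔ b' n) : ind b m = ind b' n := by
  unfold ind
  by_cases hb : b m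
  · rw [if_pos hb, if_pos (h.1 hb)]
  · rw [if_neg hb, if_neg fun k => hb (h.2 k)]

theorem norm_ind (b : ℕ → Prop) (n : ℕ) : ‖ind b n‖ ≤ 1 := by
  unfold ind
  split_ifs <;> simp

/-- the weight `z ^ Ω b` with the fixed windows -/
theorem wy_z {z : ℂ} (hz : ‖z‖ = 1) {E : Ev} {c0 N : ℝ} (hc : ∀ i, c0 ≤ E.u i) (hN : 1 ≤ N) :
    Wy z (N ^ c0) (wz z (E.At N)) where
  le n := by
    unfold wz
    rw [norm_mul, norm_pow, hz, one_pow, one_mul]
    exact norm_ind _ n
  mul p n hp hpy hn := by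
    unfold wz
    rw [ind_congr (at_mul hc hN hp hpy)]
    unfold Omn
    rw [ArithmeticFunction.cardFactors_mul hp.ne_zero hn.ne',
      ArithmeticFunction.cardFactors_apply_prime hp, pow_add, pow_one]
    ring

/-- the weight `b - δ` with the fixed windows -/
theorem wy_d {δ : ℝ} (h0 : 0 ≤ δ) (h1 : δ ≤ 1) {E : Ev} {c0 N : ℝ} (hc : ∀ i, c0 ≤ E.u i)
    (hN : 1 ≤ N) : Wy 1 (N ^ c0) (wd δ (E.At N)) where
  le n := by
    unfold wd ind
    split_ifs
    · rw [← Complex.ofReal_one, ← Complex.ofReal_sub, Complex.norm_real, Real.norm_eq_abs, abs_le]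
      constructor <;> linarith
    · rw [zero_sub, norm_neg, Complex.norm_real, Real.norm_eq_abs, abs_le]
      constructor <;> linarith
  mul p n hp hpy hn := by
    unfold wd
    rw [ind_congr (at_mul hc hN hp hpy)]
    ring

/-- the exponents of the windows below `1` -/
noncomputable def expo (E : Ev) : Finset ℝ :=
  univ.image E.u ∪ (univ.image E.v).filter (fun η => η < 1)

theorem u_mem (E : Ev) (i : Fin E.m) : E.u i ∈ expo E :=
  mem_union_left _ (mem_image_of_mem _ (mem_univ i))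

theorem v_mem (E : Ev) {i : Fin E.m} (h : E.v i < 1) : E.v i ∈ expo E :=
  mem_union_right _ (mem_filter.2 ⟨mem_image_of_mem _ (mem_univ i), h⟩)

theorem expo_mem {E : Ev} (hE : E.Ok) {η : ℝ} (h : η ∈ expo E) : 0 < η ∧ η < 1 := by
  unfold expo at h
  rw [mem_union, mem_filter, mem_image, mem_image] at h
  rcases h with ⟨i, -, rfl⟩ | ⟨⟨i, -, rfl⟩, h1⟩
  · exact ⟨(hE i).1, (hE i).2.1⟩
  · refine ⟨?_, h1⟩
    rcases (hE i).2.2 with h | h
    · exact h.1
    · rw [h]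
      norm_num

/-- `n` has a prime factor near one of the powers `N ^ η`, `η ∈ S` -/
def Near (S : Finset ℝ) (C N : ℝ) (n : ℕ) : Prop := ∃ η ∈ S, ∃ p : ℕ, p.Prime ∧
  p ∣ n ∧ N ^ η / C < p ∧ (p : ℝ) ≤ C * N ^ η

/-- the event with the windows of `n` and with the windows of `N` differ only near the ends -/
theorem at_ne {E : Ev} (hE : E.Ok) {r1 r2 N : ℝ} (hr1 : 0 < r1) (hr2 : 0 < r2) (hN : 1 ≤ N)
    (hN2 : r2 ≤ N) {n : ℕ} (h1 : r1 * N < n) (h2 : (n : ℝ) ≤ r2 * N)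
    (h : ¬ (E.Is n ↔ E.At N n)) : Near (expo E) (r2 + 1 / r1 + 1) N n := by
  by_contra hno
  apply h
  have hN0 : 0 < N := by linarith
  have hr1' : 0 < 1 / r1 := by positivity
  have hcmp : ∀ η ∈ expo E, N ^ η / (r2 + 1 / r1 + 1) ≤ (n : ℝ) ^ η ∧
      (n : ℝ) ^ η ≤ (r2 + 1 / r1 + 1) * N ^ η := fun η hη =>
    PQ.N2x12.pow_cmp hr1 hr2 hN h1 h2 (expo_mem hE hη).1 (expo_mem hE hη).2
  have hn0 : 0 < n := by
    have : (0 : ℝ) < n := lt_trans (by positivity) h1
    exact_mod_cast this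
  set C : ℝ := r2 + 1 / r1 + 1 with hC
  have hC1 : 1 ≤ C := by linarith
  have hself : ∀ η : ℝ, N ^ η / C ≤ N ^ η ∧ N ^ η ≤ C * N ^ η := by
    intro η
    have hA : 0 < N ^ η := Real.rpow_pos_of_pos hN0 _
    exact ⟨div_le_self hA.le hC1, by nlinarith⟩
  have key : ∀ η ∈ expo E, ∀ p : ℕ, p.Prime → p ∣ n → ((n : ℝ) ^ η < p ↔ N ^ η < p) := by
    intro η hη p hp hpn
    constructor
    · intro h3
      by_contra h4
      rw [not_lt] at h4
      exact hno ⟨η, hη, p, hp, hpn, (hcmp η hη).1.trans_lt h3, h4.trans (hself η).2⟩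
    · intro h3
      by_contra h4
      rw [not_lt] at h4
      exact hno ⟨η, hη, p, hp, hpn, (hself η).1.trans_lt h3, h4.trans (hcmp η hη).2⟩
  unfold Ev.Is Ev.At
  refine forall_congr' fun i => ?_
  rw [cntN_eq, cntN_eq]
  have hs : Cs n (E.u i) (E.v i) n = Cs N (E.u i) (E.v i) n := by
    ext p
    unfold Cs
    simp only [Set.mem_ofPred_eq]
    refine and_congr_right fun hp => and_congr_right fun hpn => ?_
    rw [key _ (u_mem E i) p hp hpn]
    refine and_congr_right fun _ => ?_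
    rcases (hE i).2.2 with hv | hv
    · have := key _ (v_mem E hv.2) p hp hpn
      rw [← not_lt, this, not_lt]
    · rw [hv]
      have hpn' : (p : ℝ) ≤ n := by exact_mod_cast Nat.le_of_dvd hn0 hpn
      have hn1 : (1 : ℝ) ≤ n := by exact_mod_cast hn0
      rw [show (2 : ℝ) = ((2 : ℕ) : ℝ) by norm_num, Real.rpow_natCast, Real.rpow_natCast]
      constructor
      · intro _
        nlinarith
      · intro _
        nlinarith
  rw [hs]

/-- a positive number below the windows -/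
theorem exists_c0 {E : Ev} (hE : E.Ok) : ∃ c0 : ℝ, 0 < c0 ∧ ∀ i, c0 ≤ E.u i := by
  rcases isEmpty_or_nonempty (Fin E.m) with h | h
  · exact ⟨1, one_pos, fun i => (h.false i).elim⟩
  · obtain ⟨j, hj⟩ := Finite.exists_min E.u
    exact ⟨E.u j, (hE j).1, hj⟩

open Classical in
/-- the exceptional vectors of a shell -/
theorem excA (d : ℕ) (hN : StNullA d) (E : Finset ℝ) (hE : ∀ η ∈ E, 0 < η ∧ η < 1) (r1 r2 : ℝ)
    (hr1 : 0 < r1) (hr12 : r1 < r2) (ε : ℝ) (hε : 0 < ε) : ∃ N0 : ℝ, 1 ≤ N0 ∧ ∀ N : ℝ, N0 ≤ N →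
    ∀ i : Cl d, ((((Shg i (r1 * N) (r2 * N)).filter Prim).filter
      (fun v => Near E (r2 + 1 / r1 + 1) N ((rep i).q v).natAbs)).card : ℝ) ≤ ε * N := by
  have hr2 : 0 < r2 := hr1.trans hr12
  have hr1' : 0 < 1 / r1 := by positivity
  have hr2' : 0 < 1 / r2 := by positivity
  set C : ℝ := r2 + 1 / r1 + 1 with hC
  have hC1 : 1 ≤ C := by linarith
  set C' : ℝ := C * (r2 + 1) * (1 + 1 / r2) with hC'
  have hC'1 : 1 < C' := by
    have k1 : 1 < C := by linarith
    have k2 : 1 < r2 + 1 := by linarith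
    have k3 : 1 < 1 + 1 / r2 := by linarith
    have k4 : 1 < C * (r2 + 1) := by nlinarith
    rw [hC']
    nlinarith
  set e : ℝ := ε / ((E.card + 1) * (r2 + 1)) with he
  have he0 : 0 < e := by positivity
  choose n0 hn0 using fun (i : Cl d) (η : E) => hN (rep i) (rep_pos i) (by rw [rep_D]) η.1 C'
    (hE _ η.2).1 (hE _ η.2).2 hC'1 e he0
  set m : ℕ := ∑ i, ∑ η, n0 i η with hm
  refine ⟨max 1 (m / r2), le_max_left _ _, fun N hNN i => ?_⟩
  have hN1 : 1 ≤ N := (le_max_left _ _).trans hNN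
  have hN0 : 0 < N := by linarith
  have hmN : (m : ℝ) ≤ r2 * N := by
    have := (le_max_right _ _).trans hNN
    rw [div_le_iff₀ hr2] at this
    linarith
  set M : ℕ := ⌈r2 * N⌉₊ with hM
  have hM1 : r2 * N ≤ M := Nat.le_ceil _
  have hM2 : (M : ℝ) ≤ (r2 + 1) * N := by
    have := (Nat.ceil_lt_add_one (show 0 ≤ r2 * N by positivity)).le
    linarith
  have hmM : m ≤ M := by exact_mod_cast hmN.trans hM1
  have hle : ∀ η : E, n0 i η ≤ M := by
    intro η
    have h1 : n0 i η ≤ ∑ η, n0 i η :=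
      single_le_sum (f := fun η => n0 i η) (fun _ _ => Nat.zero_le _) (mem_univ η)
    have h2 : ∑ η, n0 i η ≤ m :=
      single_le_sum (f := fun i => ∑ η, n0 i η) (fun _ _ => Nat.zero_le _) (mem_univ i)
    omega
  set S : E → Finset V := fun η => ((rep i).ball M).filter (fun v => v ≠ 0 ∧ ∃ p : ℕ, p.Prime ∧
    p ∣ ((rep i).q v).natAbs ∧ (M : ℝ) ^ η.1 / C' < p ∧
    (p : ℝ) ≤ C' * (M : ℝ) ^ η.1) with hS
  have hScard : ∀ η : E, ((S η).card : ℝ) ≤ e * M := fun η => hn0 i η M (hle η)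
  have hsub : ((Shg i (r1 * N) (r2 * N)).filter Prim).filter
      (fun v => Near E C N ((rep i).q v).natAbs) ⊆ univ.biUnion S := by
    intro v hv
    rw [mem_filter, mem_filter, mem_Shg] at hv
    obtain ⟨⟨⟨hv0, hv1, hv2⟩, -⟩, η, hη, p, hp, hpd, k1, k2⟩ := hv
    have hball : v ∈ (rep i).ball M := by
      rw [Form.mem_ball (rep_pos i)]
      have : (((rep i).q v : ℤ) : ℝ) ≤ ((M : ℤ) : ℝ) := by
        push_cast
        exact hv2.trans hM1
      exact_mod_cast this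
    obtain ⟨c1, c2⟩ := scale hr1 hr2 hN1 hM1 hM2 (hE η hη).1 (hE η hη).2
    rw [mem_biUnion]
    refine ⟨⟨η, hη⟩, mem_univ _, ?_⟩
    rw [hS, mem_filter]
    exact ⟨hball, hv0, p, hp, hpd, c1.trans_lt k1, k2.trans c2⟩
  have h3 : (((((Shg i (r1 * N) (r2 * N)).filter Prim).filter
      (fun v => Near E C N ((rep i).q v).natAbs)).card : ℕ) : ℝ) ≤
      ∑ η : E, ((S η).card : ℝ) := by
    have := (card_le_card hsub).trans card_biUnion_le
    exact_mod_cast this
  calc _ ≤ ∑ η : E, ((S η).card : ℝ) := h3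
    _ ≤ ∑ _η : E, e * M := sum_le_sum fun η _ => hScard η
    _ = E.card * (e * M) := by
        rw [sum_const, nsmul_eq_mul, card_univ, Fintype.card_coe]
    _ ≤ (E.card + 1) * (e * ((r2 + 1) * N)) := by
        refine mul_le_mul (by linarith) (mul_le_mul_of_nonneg_left hM2 he0.le) (by positivity)
          (by positivity)
    _ = ε * N := by
        rw [he]
        field_simp

end Pool.Agent.Lib.MP_a17b09_nt.AN.A3x11

namespace Pool.Agent.Lib.MP_a17b09_nt.AN

open CH CH.PE MRSG A3x11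
open PQ (B1 Wy Apx)

/-- row A3 -/
theorem stApxA_11 (d : ℕ) (hN : StNullA d) : StApxA d := by
  classical
  intro E hE
  obtain ⟨c0, hc0, hc⟩ := exists_c0 hE
  refine ⟨c0, hc0, fun z hz r1 r2 hr1 hr12 ε hε => ?_, fun δ hδ0 hδ1 r1 r2 hr1 hr12 ε hε => ?_⟩
  · obtain ⟨N0, hN0, H⟩ := excA d hN (expo E) (fun η h => expo_mem hE h) r1 r2 hr1 hr12 ε hε
    refine ⟨max N0 r2, fun N hNN => ?_⟩
    have hNa : N0 ≤ N := (le_max_left _ _).trans hNN
    have hNb : r2 ≤ N := (le_max_right _ _).trans hNN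
    refine ⟨_, wy_z hz hc (hN0.trans hNa), fun i => ?_⟩
    refine le_trans ?_ (H N hNa i)
    have hsub : ((Shg i (r1 * N) (r2 * N)).filter Prim).filter
        (fun v => wz z E.Is ((rep i).q v).natAbs ≠ wz z (E.At N) ((rep i).q v).natAbs) ⊆
        ((Shg i (r1 * N) (r2 * N)).filter Prim).filter
        (fun v => Near (expo E) (r2 + 1 / r1 + 1) N ((rep i).q v).natAbs) := by
      intro v hv
      rw [mem_filter] at hv ⊢
      obtain ⟨hv1, hv2⟩ := hv
      refine ⟨hv1, ?_⟩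
      rw [mem_filter, mem_Shg] at hv1
      obtain ⟨⟨hv0, ha, hb⟩, -⟩ := hv1
      have hq := (rep_pos i).q_pos hv0
      have hcast : ((((rep i).q v).natAbs : ℕ) : ℝ) = (((rep i).q v : ℤ) : ℝ) := by
        rw [Nat.cast_natAbs, abs_of_pos hq]
      refine at_ne hE hr1 (hr1.trans hr12) (hN0.trans hNa) hNb (by rw [hcast]; exact ha)
        (by rw [hcast]; exact hb) (fun h => hv2 ?_)
      unfold wz
      rw [ind_congr h]
    exact_mod_cast card_le_card hsub
  · obtain ⟨N0, hN0, H⟩ := excA d hN (expo E) (fun η h => expo_mem hE h) r1 r2 hr1 hr12 ε hε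
    refine ⟨max N0 r2, fun N hNN => ?_⟩
    have hNa : N0 ≤ N := (le_max_left _ _).trans hNN
    have hNb : r2 ≤ N := (le_max_right _ _).trans hNN
    refine ⟨_, wy_d hδ0 hδ1 hc (hN0.trans hNa), fun i => ?_⟩
    refine le_trans ?_ (H N hNa i)
    have hsub : ((Shg i (r1 * N) (r2 * N)).filter Prim).filter
        (fun v => wd δ E.Is ((rep i).q v).natAbs ≠ wd δ (E.At N) ((rep i).q v).natAbs) ⊆
        ((Shg i (r1 * N) (r2 * N)).filter Prim).filter
        (fun v => Near (expo E) (r2 + 1 / r1 + 1) N ((rep i).q v).natAbs) := by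
      intro v hv
      rw [mem_filter] at hv ⊢
      obtain ⟨hv1, hv2⟩ := hv
      refine ⟨hv1, ?_⟩
      rw [mem_filter, mem_Shg] at hv1
      obtain ⟨⟨hv0, ha, hb⟩, -⟩ := hv1
      have hq := (rep_pos i).q_pos hv0
      have hcast : ((((rep i).q v).natAbs : ℕ) : ℝ) = (((rep i).q v : ℤ) : ℝ) := by
        rw [Nat.cast_natAbs, abs_of_pos hq]
      refine at_ne hE hr1 (hr1.trans hr12) (hN0.trans hNa) hNb (by rw [hcast]; exact ha)
        (by rw [hcast]; exact hb) (fun h => hv2 ?_)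
      unfold wd
      rw [ind_congr h]
    exact_mod_cast card_le_card hsub

end Pool.Agent.Lib.MP_a17b09_nt.AN
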