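import Pool.Agent.Lib.MP_a17b09_nt.AN.StmtsH3
import Pool.Agent.Lib.MP_a17b09_nt.AN.ApxA_11
import Pool.Agent.Lib.MP_a17b09_nt.PQH.X3_11

/-!
Project AN (MP_a17b09_nt), (AH3): the weights are multiplicative up to small sets, positive
nonsquare discriminant (helper11, fork of AN/ApxA_11 and PQH/X3_11).
-/

set_option autoImplicit false

open Filter Topology Finset

namespace Pool.Agent.Lib.MP_a17b09_nt.ANH.AH3x11

open CH CH.PE HY HY.S68 MRH
open PQ (B1 Wy)
open PQH (Mph ApxH)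
open AN (Ev ind wz wd)
open PQ.X3x11 (scale)
open AN.A3x11 (Near expo expo_mem at_ne exists_c0 wy_z wy_d ind_congr)

open Classical in
/-- the exceptional vectors of a shell -/
theorem excAH (d : ℕ) (hN : StNullAH d) (D : Dat) (hD : D.d = d) (E : Finset ℝ)
    (hE : ∀ η ∈ E, 0 < η ∧ η < 1) (r1 r2 : ℝ)
    (hr1 : 0 < r1) (hr12 : r1 < r2) (ε : ℝ) (hε : 0 < ε) : ∃ N0 : ℝ, 1 ≤ N0 ∧ ∀ N : ℝ, N0 ≤ N →
    ∀ i : Cx D, ((((Shg i (r1 * N) (r2 * N)).filter Prim).filter
      (fun v => Near E (r2 + 1 / r1 + 1) N ((rp i).q v).natAbs)).card : ℝ) ≤ ε * N := by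
  have hr2 : 0 < r2 := hr1.trans hr12
  have hr1' : 0 < 1 / r1 := by positivity
  have hr2' : 0 < 1 / r2 := by positivity
  set C : ℝ := r2 + 1 / r1 + 1 with hC
  have hC1 : 1 ≤ C := by linarith
  set C' : ℝ := C * (r2 + 1) * (1 + 1 / r2) with hC'
  have hC'1 : 1 < C' := by
    have k1 : 1 < C := by linarith
    have k2 : 1 < r2 + 1 := by linarith
    have k3 : 1 < 1 + 1 / r2 := by linarith
    have k4 : 1 < C * (r2 + 1) := by nlinarith
    rw [hC']
    nlinarith
  set e : ℝ := ε / ((E.card + 1) * (r2 + 1)) with he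
  have he0 : 0 < e := by positivity
  choose n0 hn0 using fun (i : Cx D) (η : E) => hN (rp i) (hD ▸ rp_hyp i) D.T D.T_pos η.1 C'
    (hE _ η.2).1 (hE _ η.2).2 hC'1 e he0
  set m : ℕ := ∑ i, ∑ η, n0 i η with hm
  refine ⟨max 1 (m / r2), le_max_left _ _, fun N hNN i => ?_⟩
  have hN1 : 1 ≤ N := (le_max_left _ _).trans hNN
  have hN0 : 0 < N := by linarith
  have hmN : (m : ℝ) ≤ r2 * N := by
    have := (le_max_right _ _).trans hNN
    rw [div_le_iff₀ hr2] at this
    linarith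
  set M : ℕ := ⌈r2 * N⌉₊ with hM
  have hM1 : r2 * N ≤ M := Nat.le_ceil _
  have hM2 : (M : ℝ) ≤ (r2 + 1) * N := by
    have := (Nat.ceil_lt_add_one (show 0 ≤ r2 * N by positivity)).le
    linarith
  have hmM : m ≤ M := by exact_mod_cast hmN.trans hM1
  have hle : ∀ η : E, n0 i η ≤ M := by
    intro η
    have h1 : n0 i η ≤ ∑ η, n0 i η :=
      single_le_sum (f := fun η => n0 i η) (fun _ _ => Nat.zero_le _) (mem_univ η)
    have h2 : ∑ η, n0 i η ≤ m :=
      single_le_sum (f := fun i => ∑ η, n0 i η) (fun _ _ => Nat.zero_le _) (mem_univ i)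
    omega
  set S : E → Set V := fun η => {v : V | Sec (rp i) D.T v ∧ ((rp i).q v : ℝ) ≤ M ∧ ∃ p : ℕ,
    p.Prime ∧ p ∣ ((rp i).q v).natAbs ∧ (M : ℝ) ^ η.1 / C' < p ∧
    (p : ℝ) ≤ C' * (M : ℝ) ^ η.1} with hS
  have hSf : ∀ η : E, (S η).Finite := fun η => (hn0 i η M (hle η)).1
  have hScard : ∀ η : E, ((S η).ncard : ℝ) ≤ e * M := fun η => (hn0 i η M (hle η)).2
  have hsub : ((Shg i (r1 * N) (r2 * N)).filter Prim).filter
      (fun v => Near E C N ((rp i).q v).natAbs) ⊆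
      univ.biUnion fun η => (hSf η).toFinset := by
    intro v hv
    rw [mem_filter, mem_filter, mem_Shg] at hv
    obtain ⟨⟨⟨hv0, hv1, hv2⟩, -⟩, η, hη, p, hp, hpd, k1, k2⟩ := hv
    obtain ⟨c1, c2⟩ := scale hr1 hr2 hN1 hM1 hM2 (hE η hη).1 (hE η hη).2
    rw [mem_biUnion]
    refine ⟨⟨η, hη⟩, mem_univ _, ?_⟩
    rw [Set.Finite.mem_toFinset]
    exact ⟨hv0, hv2.trans hM1, p, hp, hpd, c1.trans_lt k1, k2.trans c2⟩
  have h3 : (((((Shg i (r1 * N) (r2 * N)).filter Prim).filter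
      (fun v => Near E C N ((rp i).q v).natAbs)).card : ℕ) : ℝ) ≤
      ∑ η : E, ((S η).ncard : ℝ) := by
    have := (card_le_card hsub).trans card_biUnion_le
    simp only [← Set.ncard_eq_toFinset_card _ (hSf _)] at this
    exact_mod_cast this
  calc _ ≤ ∑ η : E, ((S η).ncard : ℝ) := h3
    _ ≤ ∑ _η : E, e * M := sum_le_sum fun η _ => hScard η
    _ = E.card * (e * M) := by
        rw [sum_const, nsmul_eq_mul, card_univ, Fintype.card_coe]
    _ ≤ (E.card + 1) * (e * ((r2 + 1) * N)) := by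
        refine mul_le_mul (by linarith) (mul_le_mul_of_nonneg_left hM2 he0.le) (by positivity)
          (by positivity)
    _ = ε * N := by
        rw [he]
        field_simp

end Pool.Agent.Lib.MP_a17b09_nt.ANH.AH3x11

namespace Pool.Agent.Lib.MP_a17b09_nt.ANH

open CH CH.PE HY HY.S68 MRH AH3x11
open PQ (B1 Wy)
open PQH (Mph ApxH)
open AN (Ev ind wz wd)
open AN.A3x11 (Near expo expo_mem at_ne exists_c0 wy_z wy_d ind_congr)

/-- row AH3 -/
theorem stApxAH_11 (d : ℕ) (hN : StNullAH d) : StApxAH d := by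
  classical
  intro E hE
  obtain ⟨c0, hc0, hc⟩ := exists_c0 hE
  refine ⟨c0, hc0, fun z hz D hD r1 r2 hr1 hr12 ε hε => ?_,
    fun δ hδ0 hδ1 D hD r1 r2 hr1 hr12 ε hε => ?_⟩
  · obtain ⟨N0, hN0, H⟩ := excAH d hN D hD (expo E) (fun η h => expo_mem hE h) r1 r2 hr1
      hr12 ε hε
    refine ⟨max N0 r2, fun N hNN => ?_⟩
    have hNa : N0 ≤ N := (le_max_left _ _).trans hNN
    have hNb : r2 ≤ N := (le_max_right _ _).trans hNN
    refine ⟨_, wy_z hz hc (hN0.trans hNa), fun i => ?_⟩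
    refine le_trans ?_ (H N hNa i)
    have hsub : ((Shg i (r1 * N) (r2 * N)).filter Prim).filter
        (fun v => wz z E.Is ((rp i).q v).natAbs ≠ wz z (E.At N) ((rp i).q v).natAbs) ⊆
        ((Shg i (r1 * N) (r2 * N)).filter Prim).filter
        (fun v => Near (expo E) (r2 + 1 / r1 + 1) N ((rp i).q v).natAbs) := by
      intro v hv
      rw [mem_filter] at hv ⊢
      obtain ⟨hv1, hv2⟩ := hv
      refine ⟨hv1, ?_⟩
      rw [mem_filter, mem_Shg] at hv1
      obtain ⟨⟨hv0, ha, hb⟩, -⟩ := hv1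
      have hq : 0 < (rp i).q v := by
        have : (0 : ℝ) < ((rp i).q v : ℝ) :=
          lt_trans (mul_pos hr1 (by linarith [hN0.trans hNa])) ha
        exact_mod_cast this
      have hcast : ((((rp i).q v).natAbs : ℕ) : ℝ) = (((rp i).q v : ℤ) : ℝ) := by
        rw [Nat.cast_natAbs, abs_of_pos hq]
      refine at_ne hE hr1 (hr1.trans hr12) (hN0.trans hNa) hNb (by rw [hcast]; exact ha)
        (by rw [hcast]; exact hb) (fun h => hv2 ?_)
      unfold AN.wz
      rw [ind_congr h]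
    exact_mod_cast card_le_card hsub
  · obtain ⟨N0, hN0, H⟩ := excAH d hN D hD (expo E) (fun η h => expo_mem hE h) r1 r2 hr1
      hr12 ε hε
    refine ⟨max N0 r2, fun N hNN => ?_⟩
    have hNa : N0 ≤ N := (le_max_left _ _).trans hNN
    have hNb : r2 ≤ N := (le_max_right _ _).trans hNN
    refine ⟨_, wy_d hδ0 hδ1 hc (hN0.trans hNa), fun i => ?_⟩
    refine le_trans ?_ (H N hNa i)
    have hsub : ((Shg i (r1 * N) (r2 * N)).filter Prim).filter
        (fun v => wd δ E.Is ((rp i).q v).natAbs ≠ wd δ (E.At N) ((rp i).q v).natAbs) ⊆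
        ((Shg i (r1 * N) (r2 * N)).filter Prim).filter
        (fun v => Near (expo E) (r2 + 1 / r1 + 1) N ((rp i).q v).natAbs) := by
      intro v hv
      rw [mem_filter] at hv ⊢
      obtain ⟨hv1, hv2⟩ := hv
      refine ⟨hv1, ?_⟩
      rw [mem_filter, mem_Shg] at hv1
      obtain ⟨⟨hv0, ha, hb⟩, -⟩ := hv1
      have hq : 0 < (rp i).q v := by
        have : (0 : ℝ) < ((rp i).q v : ℝ) :=
          lt_trans (mul_pos hr1 (by linarith [hN0.trans hNa])) ha
        exact_mod_cast this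
      have hcast : ((((rp i).q v).natAbs : ℕ) : ℝ) = (((rp i).q v : ℤ) : ℝ) := by
        rw [Nat.cast_natAbs, abs_of_pos hq]
      refine at_ne hE hr1 (hr1.trans hr12) (hN0.trans hNa) hNb (by rw [hcast]; exact ha)
        (by rw [hcast]; exact hb) (fun h => hv2 ?_)
      unfold AN.wd
      rw [ind_congr h]
    exact_mod_cast card_le_card hsub

end Pool.Agent.Lib.MP_a17b09_nt.ANH
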