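import Pool.Agent.Lib.MP_a17b09_nt.AN.Stmts3

/-!
AN (MP_a17b09_nt), row A7c: the densities of the events.
-/

set_option autoImplicit false

open Filter Topology Finset

namespace Pool.Agent.Lib.MP_a17b09_nt.AN

namespace Den19

open Classical

/-- the mean of a finite linear combination of moment weights -/
theorem val_mean (hInt : StInt) : ∀ F : Cmb, F.Good →
    Tendsto (fun N : ℕ => (∑ n ∈ Icc 1 N, F.val N n) / (N : ℝ)) atTop (𝓝 F.lam) := by
  intro F
  induction F with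
  | nil =>
    intro _
    have h1 : (fun N : ℕ => (∑ n ∈ Icc 1 N, Cmb.val [] N n) / (N : ℝ)) = fun _ => 0 := by
      funext N
      simp [Cmb.val]
    have h2 : Cmb.lam [] = 0 := by simp [Cmb.lam]
    rw [h1, h2]
    exact tendsto_const_nhds
  | cons t F ih =>
    intro hF
    have h1 := ih (fun s hs => hF s (List.mem_cons_of_mem _ hs))
    have h2 := (hInt t.2 (hF t List.mem_cons_self) 1 one_pos).comp
      (tendsto_natCast_atTop_atTop (R := ℝ))
    have h3 : Tendsto (fun N : ℕ => (∑ n ∈ Icc 1 N, (tW t.2 N n : ℝ)) / (N : ℝ)) atTop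
        (𝓝 (lam t.2)) := by
      rw [one_mul] at h2
      refine h2.congr fun N => ?_
      simp only [Function.comp, one_mul, Nat.floor_natCast]
    have h4 := (h3.const_mul t.1).add h1
    have h5 : Cmb.lam (t :: F) = t.1 * lam t.2 + Cmb.lam F := by simp [Cmb.lam]
    rw [h5]
    refine h4.congr fun N => ?_
    have h6 : ∀ n, Cmb.val (t :: F) N n = t.1 * (tW t.2 N n : ℝ) + Cmb.val F N n := by
      intro n; simp [Cmb.val]
    simp only [h6]
    rw [Finset.sum_add_distrib, ← Finset.mul_sum, add_div, mul_div_assoc]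

/-- the bad integers near the exponent `w` -/
noncomputable def bd (w C : ℝ) (N : ℕ) : Finset ℕ :=
  (Icc 1 N).filter (fun n => ∃ p : ℕ, p.Prime ∧ p ∣ n ∧
    (N : ℝ) ^ w / C < p ∧ (p : ℝ) ≤ C * (N : ℝ) ^ w)

theorem card_bd (hNull : StNullI) {w C : ℝ} (hw : 0 < w) (hw1 : w < 1) (hC : 1 < C) {ε : ℝ}
    (hε : 0 < ε) : ∀ᶠ N : ℕ in atTop, ((bd w C N).card : ℝ) ≤ ε * N := by
  obtain ⟨N0, h0⟩ := hNull w C hw hw1 hC ε hε
  filter_upwards [eventually_ge_atTop N0] with N hN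
  refine le_trans (le_of_eq ?_) (h0 N hN)
  congr 1
  rw [← Set.ncard_coe_finset]
  congr 1
  ext n
  simp only [bd, Finset.coe_filter, Finset.mem_Icc, Set.mem_ofPred_eq, and_assoc]

/-- the counting function of the primes of one window does not change -/
theorem cnt_eq {N n : ℕ} {τ u v : ℝ} (hτ : 0 < τ) (hτ1 : τ < 1) (hu : 0 < u) (hu1 : u < 1)
    (hv : 0 < v ∧ v < 1 ∨ v = 2) (hn1 : 1 ≤ n) (hnN : n ≤ N) (hτn : τ * N < n)
    (h1 : n ∉ bd u (2 / τ) N) (h2 : v < 1 → n ∉ bd v (2 / τ) N) :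
    cntN n u v n = cntN N u v n := by
  have hN1 : 1 ≤ N := hn1.trans hnN
  have hNpos : (0 : ℝ) < N := by exact_mod_cast hN1
  have hnpos : (0 : ℝ) < n := by exact_mod_cast hn1
  have hnN' : (n : ℝ) ≤ N := by exact_mod_cast hnN
  -- the comparison for one exponent
  have key : ∀ w : ℝ, 0 < w → w < 1 → n ∉ bd w (2 / τ) N → ∀ p : ℕ, p.Prime → p ∣ n →
      ((n : ℝ) ^ w < p ↔ (N : ℝ) ^ w < p) := by
    intro w hw hw1 hb p hp hpn
    have hNw : (0 : ℝ) < (N : ℝ) ^ w := Real.rpow_pos_of_pos hNpos w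
    have hle : (n : ℝ) ^ w ≤ (N : ℝ) ^ w := Real.rpow_le_rpow hnpos.le hnN' hw.le
    constructor
    · intro h3
      by_contra h4
      apply hb
      rw [bd, Finset.mem_filter, Finset.mem_Icc]
      refine ⟨⟨hn1, hnN⟩, p, hp, hpn, ?_, ?_⟩
      · have h5 : (τ * N : ℝ) ^ w ≤ (n : ℝ) ^ w :=
          Real.rpow_le_rpow (by positivity) hτn.le hw.le
        rw [Real.mul_rpow hτ.le hNpos.le] at h5
        have h6 : τ ≤ τ ^ w := by
          have := Real.rpow_le_rpow_of_exponent_ge hτ hτ1.le hw1.le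
          rwa [Real.rpow_one] at this
        have h7 : (N : ℝ) ^ w / (2 / τ) = τ * (N : ℝ) ^ w / 2 := by
          field_simp
        rw [h7]
        have h8 : τ * (N : ℝ) ^ w ≤ τ ^ w * (N : ℝ) ^ w := mul_le_mul_of_nonneg_right h6 hNw.le
        have h9 : 0 < τ * (N : ℝ) ^ w := mul_pos hτ hNw
        linarith
      · have h5 : (p : ℝ) ≤ (N : ℝ) ^ w := not_lt.1 h4
        have h6 : (1 : ℝ) ≤ 2 / τ := by
          rw [le_div_iff₀ hτ]; linarith
        calc (p : ℝ) ≤ 1 * (N : ℝ) ^ w := by rw [one_mul]; exact h5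
          _ ≤ 2 / τ * (N : ℝ) ^ w := mul_le_mul_of_nonneg_right h6 hNw.le
    · intro h3
      exact lt_of_le_of_lt hle h3
  unfold cntN
  congr 1
  ext p
  simp only [Set.mem_ofPred_eq]
  constructor
  · rintro ⟨hp, hpn, ha, hb⟩
    refine ⟨hp, hpn, (key u hu hu1 h1 p hp hpn).1 ha, ?_⟩
    rcases hv with ⟨hv0, hv1⟩ | hv2
    · by_contra h3
      exact absurd ((key v hv0 hv1 (h2 hv1) p hp hpn).2 (not_le.1 h3)) (not_lt.2 hb)
    · have h4 : (p : ℝ) ≤ n := by exact_mod_cast Nat.le_of_dvd hn1 hpn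
      have h5 : (N : ℝ) ≤ (N : ℝ) ^ v := by
        rw [hv2]
        have hN1' : (1 : ℝ) ≤ N := by exact_mod_cast hN1
        have := Real.rpow_le_rpow_of_exponent_le hN1' (by norm_num : (1 : ℝ) ≤ 2)
        rwa [Real.rpow_one] at this
      linarith
  · rintro ⟨hp, hpn, ha, hb⟩
    refine ⟨hp, hpn, (key u hu hu1 h1 p hp hpn).2 ha, ?_⟩
    rcases hv with ⟨hv0, hv1⟩ | hv2
    · by_contra h3
      exact absurd ((key v hv0 hv1 (h2 hv1) p hp hpn).1 (not_le.1 h3)) (not_lt.2 hb)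
    · have h4 : (p : ℝ) ≤ n := by exact_mod_cast Nat.le_of_dvd hn1 hpn
      have h5 : (n : ℝ) ≤ (n : ℝ) ^ v := by
        rw [hv2]
        have hn1' : (1 : ℝ) ≤ n := by exact_mod_cast hn1
        have := Real.rpow_le_rpow_of_exponent_le hn1' (by norm_num : (1 : ℝ) ≤ 2)
        rwa [Real.rpow_one] at this
      linarith

/-- the two forms of the event differ on few integers -/
theorem diff (hNull : StNullI) (E : Ev) (hE : E.Ok) {ε : ℝ} (hε : 0 < ε) :
    ∀ᶠ N : ℕ in atTop,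
      (((Icc 1 N).filter (fun n => ¬ (E.Is n ↔ E.At N n))).card : ℝ) ≤ ε * N := by
  set τ : ℝ := min (ε / 2) (1 / 2) with hτdef
  have hτ : 0 < τ := by rw [hτdef]; positivity
  have hτ1 : τ < 1 := lt_of_le_of_lt (min_le_right _ _) (by norm_num)
  have hτε : τ ≤ ε / 2 := min_le_left _ _
  have hC : 1 < 2 / τ := by rw [lt_div_iff₀ hτ]; linarith
  set κ : ℝ := ε / (4 * (E.m + 1)) with hκdef
  have hκ : 0 < κ := by rw [hκdef]; positivity
  have hU : ∀ᶠ N : ℕ in atTop, ∀ i : Fin E.m, ((bd (E.u i) (2 / τ) N).card : ℝ) ≤ κ * N := by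
    rw [eventually_all]
    intro i
    exact card_bd hNull (hE i).1 (hE i).2.1 hC hκ
  have hV : ∀ᶠ N : ℕ in atTop, ∀ i : Fin E.m,
      (((if E.v i < 1 then bd (E.v i) (2 / τ) N else ∅ : Finset ℕ)).card : ℝ) ≤ κ * N := by
    rw [eventually_all]
    intro i
    by_cases h : E.v i < 1
    · simp only [if_pos h]
      rcases (hE i).2.2 with h3 | h3
      · exact card_bd hNull h3.1 h hC hκ
      · rw [h3] at h; norm_num at h
    · simp only [if_neg h, Finset.card_empty, Nat.cast_zero]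
      exact Eventually.of_forall fun N => by positivity
  filter_upwards [hU, hV] with N hUN hVN
  have hsub : (Icc 1 N).filter (fun n => ¬ (E.Is n ↔ E.At N n)) ⊆
      (Icc 1 ⌊τ * N⌋₊ ∪ Finset.univ.biUnion (fun i : Fin E.m => bd (E.u i) (2 / τ) N)) ∪
      Finset.univ.biUnion
        (fun i : Fin E.m => (if E.v i < 1 then bd (E.v i) (2 / τ) N else ∅ : Finset ℕ)) := by
    intro n hn
    rw [Finset.mem_filter, Finset.mem_Icc] at hn
    obtain ⟨⟨hn1, hnN⟩, hne⟩ := hn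
    by_contra hcon
    rw [Finset.mem_union, Finset.mem_union, not_or, not_or] at hcon
    obtain ⟨⟨hc1, hc2⟩, hc3⟩ := hcon
    apply hne
    have hτn : τ * N < n := by
      by_contra h4
      apply hc1
      rw [Finset.mem_Icc]
      exact ⟨hn1, Nat.le_floor (not_lt.1 h4)⟩
    have hcnt : ∀ i, cntN n (E.u i) (E.v i) n = cntN N (E.u i) (E.v i) n := by
      intro i
      apply cnt_eq hτ hτ1 (hE i).1 (hE i).2.1 (hE i).2.2 hn1 hnN hτn
      · intro h5
        apply hc2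
        rw [Finset.mem_biUnion]
        exact ⟨i, Finset.mem_univ _, h5⟩
      · intro h5 h6
        apply hc3
        rw [Finset.mem_biUnion]
        refine ⟨i, Finset.mem_univ _, ?_⟩
        rw [if_pos h5]
        exact h6
    unfold Ev.Is Ev.At
    constructor
    · intro h i; rw [← hcnt i]; exact h i
    · intro h i; rw [hcnt i]; exact h i
  have hc1 : ((Icc 1 ⌊τ * N⌋₊).card : ℝ) ≤ τ * N := by
    rw [Nat.card_Icc, Nat.add_sub_cancel]
    exact Nat.floor_le (by positivity)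
  have hc2 : ((Finset.univ.biUnion (fun i : Fin E.m => bd (E.u i) (2 / τ) N)).card : ℝ) ≤
      E.m * (κ * N) := by
    refine le_trans (Nat.cast_le.2 Finset.card_biUnion_le) ?_
    push_cast
    refine (Finset.sum_le_sum fun i _ => hUN i).trans ?_
    rw [Finset.sum_const, Finset.card_univ, Fintype.card_fin, nsmul_eq_mul]
  have hc3 : ((Finset.univ.biUnion (fun i : Fin E.m =>
      (if E.v i < 1 then bd (E.v i) (2 / τ) N else ∅ : Finset ℕ))).card : ℝ) ≤
      E.m * (κ * N) := by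
    refine le_trans (Nat.cast_le.2 Finset.card_biUnion_le) ?_
    push_cast
    refine (Finset.sum_le_sum fun i _ => hVN i).trans ?_
    rw [Finset.sum_const, Finset.card_univ, Fintype.card_fin, nsmul_eq_mul]
  have hc0 : (((Icc 1 N).filter (fun n => ¬ (E.Is n ↔ E.At N n))).card : ℝ) ≤
      τ * N + E.m * (κ * N) + E.m * (κ * N) := by
    have h1 := Finset.card_le_card hsub
    have h2 := h1.trans ((Finset.card_union_le _ _).trans
      (Nat.add_le_add_right (Finset.card_union_le _ _) _))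
    have h3 : (((Icc 1 N).filter (fun n => ¬ (E.Is n ↔ E.At N n))).card : ℝ) ≤
        ((Icc 1 ⌊τ * N⌋₊).card : ℝ) +
        ((Finset.univ.biUnion (fun i : Fin E.m => bd (E.u i) (2 / τ) N)).card : ℝ) +
        ((Finset.univ.biUnion (fun i : Fin E.m =>
          (if E.v i < 1 then bd (E.v i) (2 / τ) N else ∅ : Finset ℕ))).card : ℝ) := by
      exact_mod_cast h2
    linarith
  have hmκ : (E.m : ℝ) * κ ≤ ε / 4 := by
    rw [hκdef, mul_div_assoc', div_le_div_iff₀ (by positivity) (by norm_num)]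
    have : (0 : ℝ) ≤ E.m := Nat.cast_nonneg _
    nlinarith
  have hN0 : (0 : ℝ) ≤ N := Nat.cast_nonneg N
  calc (((Icc 1 N).filter (fun n => ¬ (E.Is n ↔ E.At N n))).card : ℝ)
      ≤ τ * N + E.m * (κ * N) + E.m * (κ * N) := hc0
    _ = (τ + (E.m * κ) + (E.m * κ)) * N := by ring
    _ ≤ ε * N := mul_le_mul_of_nonneg_right (by linarith) hN0

/-- the counting function of the event as a sum -/
theorem ncard_eq (E : Ev) (N : ℕ) : (Set.ncard {n : ℕ | 1 ≤ n ∧ n ≤ N ∧ E.Is n} : ℝ) =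
    ∑ n ∈ Icc 1 N, (if E.Is n then (1 : ℝ) else 0) := by
  rw [Finset.sum_boole]
  congr 1
  rw [← Set.ncard_coe_finset]
  congr 1
  ext n
  simp only [Finset.coe_filter, Finset.mem_Icc, Set.mem_ofPred_eq, and_assoc]

/-- the approximations give the counts up to `4 ε` -/
theorem near (hInt : StInt) (hNull : StNullI) (E : Ev) (hE : E.Ok) {ε : ℝ} (hε : 0 < ε)
    (F B : Cmb) (hF : F.Good) (hB : B.Good) (hBl : B.lam ≤ ε)
    (happ : ∃ x0 : ℝ, ∀ x : ℝ, x0 ≤ x → ∀ n : ℕ, 1 ≤ n → (n : ℝ) ≤ 1 * x →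
      |(if E.At x n then (1 : ℝ) else 0) - F.val x n| ≤ B.val x n) :
    ∀ᶠ N : ℕ in atTop,
      |(Set.ncard {n : ℕ | 1 ≤ n ∧ n ≤ N ∧ E.Is n} : ℝ) / N - F.lam| ≤ 4 * ε := by
  obtain ⟨x0, hx0⟩ := happ
  have h1 := (Metric.tendsto_nhds.1 (val_mean hInt F hF)) ε hε
  have h2 := (Metric.tendsto_nhds.1 (val_mean hInt B hB)) ε hε
  have h3 : ∀ᶠ N : ℕ in atTop, x0 ≤ (N : ℝ) :=
    (tendsto_natCast_atTop_atTop (R := ℝ)).eventually_ge_atTop x0
  filter_upwards [h1, h2, h3, diff hNull E hE hε, eventually_gt_atTop 0] with N h1 h2 h3 h4 hN0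
  have hN : (0 : ℝ) < N := by exact_mod_cast hN0
  rw [Real.dist_eq] at h1 h2
  rw [ncard_eq]
  set a : ℝ := ∑ n ∈ Icc 1 N, (if E.Is n then (1 : ℝ) else 0) with ha
  set b : ℝ := ∑ n ∈ Icc 1 N, (if E.At N n then (1 : ℝ) else 0) with hb
  set f : ℝ := ∑ n ∈ Icc 1 N, F.val N n with hf
  set g : ℝ := ∑ n ∈ Icc 1 N, B.val N n with hg
  have hab : |a - b| ≤ ε * N := by
    rw [ha, hb, ← Finset.sum_sub_distrib]
    refine (Finset.abs_sum_le_sum_abs _ _).trans (le_trans (le_of_eq ?_) h4)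
    rw [Finset.card_filter]
    push_cast
    refine Finset.sum_congr rfl fun n _ => ?_
    by_cases hi : E.Is n <;> by_cases hj : E.At N n <;> simp [hi, hj]
  have hbf : |b - f| ≤ g := by
    rw [hb, hf, hg, ← Finset.sum_sub_distrib]
    refine (Finset.abs_sum_le_sum_abs _ _).trans (Finset.sum_le_sum fun n hn => ?_)
    rw [Finset.mem_Icc] at hn
    apply hx0 N h3 n hn.1
    rw [one_mul]
    exact_mod_cast hn.2
  have e1 : |a / N - b / N| ≤ ε := by
    rw [← sub_div, abs_div, abs_of_pos hN, div_le_iff₀ hN]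
    exact hab
  have e2 : |b / N - f / N| ≤ g / N := by
    rw [← sub_div, abs_div, abs_of_pos hN]
    exact div_le_div_of_nonneg_right hbf hN.le
  rw [abs_le] at e1 e2 ⊢
  rw [abs_lt] at h1 h2
  constructor <;> linarith [e1.1, e1.2, e2.1, e2.2, h1.1, h1.2, h2.1, h2.2]

end Den19

open Classical Den19 in
/-- (A7c) -/
theorem stDen_19 (hPt : StPt) (hInt : StInt) (hNull : StNullI) : StDen := by
  intro E hE
  set a : ℕ → ℝ := fun N => (Set.ncard {n : ℕ | 1 ≤ n ∧ n ≤ N ∧ E.Is n} : ℝ) / N with ha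
  have hnear : ∀ ε : ℝ, 0 < ε → ∃ F B : Cmb, F.Good ∧ B.Good ∧ B.lam ≤ ε ∧
      (∀ C : ℝ, 1 ≤ C → ∃ x0 : ℝ, ∀ x : ℝ, x0 ≤ x → ∀ n : ℕ, 1 ≤ n → (n : ℝ) ≤ C * x →
        |(if E.At x n then (1 : ℝ) else 0) - F.val x n| ≤ B.val x n) ∧
      ∀ᶠ N : ℕ in atTop, |a N - F.lam| ≤ 4 * ε := by
    intro ε hε
    obtain ⟨F, B, hF, hB, hBl, happ⟩ := hPt E hE ε hε
    exact ⟨F, B, hF, hB, hBl, happ,
      near hInt hNull E hE hε F B hF hB hBl (happ 1 le_rfl)⟩
  have hcau : CauchySeq a := by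
    rw [Metric.cauchySeq_iff']
    intro ε hε
    obtain ⟨F, B, -, -, -, -, h1⟩ := hnear (ε / 16) (by positivity)
    obtain ⟨N0, hN0⟩ := eventually_atTop.1 h1
    refine ⟨N0, fun n hn => ?_⟩
    have h2 := hN0 n hn
    have h3 := hN0 N0 le_rfl
    rw [Real.dist_eq]
    rw [abs_le] at h2 h3
    rw [abs_lt]
    constructor <;> linarith [h2.1, h2.2, h3.1, h3.2]
  obtain ⟨δ, hδ⟩ := cauchySeq_tendsto_of_complete hcau
  refine ⟨δ, ?_, ?_, hδ, ?_⟩
  · refine ge_of_tendsto hδ (Eventually.of_forall fun N => ?_)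
    exact div_nonneg (Nat.cast_nonneg _) (Nat.cast_nonneg _)
  · refine le_of_tendsto hδ (Eventually.of_forall fun N => ?_)
    show (Set.ncard {n : ℕ | 1 ≤ n ∧ n ≤ N ∧ E.Is n} : ℝ) / N ≤ 1
    rcases Nat.eq_zero_or_pos N with h0 | h0
    · rw [h0, Nat.cast_zero, div_zero]
      exact zero_le_one
    · rw [div_le_one (by exact_mod_cast h0)]
      rw [ncard_eq]
      refine (Finset.sum_le_sum (g := fun _ => (1 : ℝ)) fun n _ => ?_).trans ?_
      · split_ifs <;> norm_num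
      · rw [Finset.sum_const, Nat.card_Icc, Nat.add_sub_cancel, nsmul_eq_mul, mul_one]
  · intro ε hε
    obtain ⟨F, B, hF, hB, hBl, happ, h1⟩ := hnear (ε / 4) (by positivity)
    refine ⟨F, B, hF, hB, by linarith, ?_, happ⟩
    have h2 : Tendsto (fun N => |a N - F.lam|) atTop (𝓝 |δ - F.lam|) :=
      (hδ.sub tendsto_const_nhds).abs
    have h3 := le_of_tendsto h2 h1
    rw [abs_sub_comm]
    linarith

end Pool.Agent.Lib.MP_a17b09_nt.AN
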