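import Pool.Agent.Lib.MP_a17b09_nt.AN.Stmts3
import Pool.Agent.Lib.MP_a17b09_nt.PQ.X4_7

/-!
Project AN, (A4): the weights of the events are multiplicative outside sets of density zero
(helper21, fork of PQ/X4_7 of helper7).
-/

set_option autoImplicit false

open Filter Topology Finset

namespace Pool.Agent.Lib.MP_a17b09_nt.AN

open CH CH.PE MRSG MRS
open PQ (B1 Wy gw gcw Mpw Apx Fr0 DilW TwW)

namespace A4x21

/-- the ends of the windows of an event which are smaller than one -/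
noncomputable def ends (E : Ev) : Finset ℝ := by
  classical
  exact Finset.univ.image E.u ∪ (Finset.univ.image E.v).filter (fun x => x < 1)

theorem u_mem (E : Ev) (i : Fin E.m) : E.u i ∈ ends E := by
  classical
  unfold ends
  exact Finset.mem_union_left _ (Finset.mem_image_of_mem _ (Finset.mem_univ i))

theorem v_mem (E : Ev) (i : Fin E.m) (h : E.v i < 1) : E.v i ∈ ends E := by
  classical
  unfold ends
  exact Finset.mem_union_right _ (Finset.mem_filter.2
    ⟨Finset.mem_image_of_mem _ (Finset.mem_univ i), h⟩)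

theorem ends_pos {E : Ev} (hE : E.Ok) {θ : ℝ} (h : θ ∈ ends E) : 0 < θ ∧ θ < 1 := by
  classical
  unfold ends at h
  rcases Finset.mem_union.1 h with h | h
  · obtain ⟨i, -, rfl⟩ := Finset.mem_image.1 h
    exact ⟨(hE i).1, (hE i).2.1⟩
  · obtain ⟨h1, h2⟩ := Finset.mem_filter.1 h
    obtain ⟨i, -, rfl⟩ := Finset.mem_image.1 h1
    refine ⟨?_, h2⟩
    rcases (hE i).2.2 with h3 | h3
    · exact h3.1
    · rw [h3]; norm_num

/-- the numbers of primes of `m` and `p m` in the windows are the same if no prime of `m` is near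
an end -/
theorem cnt_eq {E : Ev} (hE : E.Ok) {p m : ℕ} (hp : p.Prime) (hm : 0 < m)
    (hpm : ∀ i, (p : ℝ) ≤ (m : ℝ) ^ E.u i)
    (hc : ∀ θ ∈ ends E, ∀ r : ℕ, r.Prime → r ∣ m → (m : ℝ) ^ θ < r →
      ¬ (r : ℝ) ≤ ((p : ℝ) * m) ^ θ) (i : Fin E.m) :
    cntN ((p * m : ℕ) : ℝ) (E.u i) (E.v i) (p * m) = cntN (m : ℝ) (E.u i) (E.v i) m := by
  have hp1 : (1 : ℝ) ≤ p := by exact_mod_cast hp.one_lt.le
  have hm0 : (0 : ℝ) ≤ m := by positivity
  have hm1 : (1 : ℝ) ≤ m := by exact_mod_cast hm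
  have hle : (m : ℝ) ≤ (p : ℝ) * m := by nlinarith
  have hu0 : 0 < E.u i := (hE i).1
  have hv0 : 0 < E.v i := by
    rcases (hE i).2.2 with h3 | h3
    · exact h3.1
    · rw [h3]; norm_num
  have hmu : (m : ℝ) ^ E.u i ≤ ((p : ℝ) * m) ^ E.u i := Real.rpow_le_rpow hm0 hle hu0.le
  have hmv : (m : ℝ) ^ E.v i ≤ ((p : ℝ) * m) ^ E.v i := Real.rpow_le_rpow hm0 hle hv0.le
  unfold cntN
  congr 1
  ext r
  simp only [Set.mem_setOf_eq]
  push_cast
  constructor
  · rintro ⟨hr, hrm, ha, hb⟩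
    have hrm' : r ∣ m := by
      rcases (Nat.Prime.dvd_mul hr).1 hrm with h2 | h2
      · exfalso
        have h3 : r = p := (Nat.prime_dvd_prime_iff_eq hr hp).1 h2
        rw [h3] at ha
        have h4 := (hpm i).trans hmu
        linarith
      · exact h2
    refine ⟨hr, hrm', lt_of_le_of_lt hmu ha, ?_⟩
    by_contra h2
    push Not at h2
    rcases (hE i).2.2 with h3 | h3
    · exact hc _ (v_mem E i h3.2) r hr hrm' h2 hb
    · rw [h3] at h2
      have h4 : (r : ℝ) ≤ m := by exact_mod_cast Nat.le_of_dvd hm hrm'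
      have h5 : (m : ℝ) ≤ (m : ℝ) ^ (2 : ℝ) := by
        have h6 : (m : ℝ) ^ (1 : ℝ) ≤ (m : ℝ) ^ (2 : ℝ) :=
          Real.rpow_le_rpow_of_exponent_le hm1 (by norm_num)
        rwa [Real.rpow_one] at h6
      exact absurd (h4.trans h5) (not_le.2 h2)
  · rintro ⟨hr, hrm, ha, hb⟩
    refine ⟨hr, Dvd.dvd.mul_left hrm p, ?_, hb.trans hmv⟩
    by_contra h2
    push Not at h2
    exact hc _ (u_mem E i) r hr hrm ha h2

/-- the event for `m` and `p m` differs only if `m` has a prime near an end -/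
theorem is_diff {E : Ev} (hE : E.Ok) {p m : ℕ} (hp : p.Prime) (hm : 0 < m)
    (hpm : ∀ i, (p : ℝ) ≤ (m : ℝ) ^ E.u i) (h : ¬ (E.Is (p * m) ↔ E.Is m)) :
    ∃ θ ∈ ends E, ∃ r : ℕ, r.Prime ∧ r ∣ m ∧ (m : ℝ) ^ θ < r ∧ (r : ℝ) ≤ ((p : ℝ) * m) ^ θ := by
  by_contra hc
  push Not at hc
  apply h
  have h1 := cnt_eq hE hp hm hpm (fun θ hθ r hr hrm ha hb => absurd hb (not_le.2
    (hc θ hθ r hr hrm ha)))
  unfold Ev.Is Ev.At
  constructor
  · intro h2 i
    rw [← h1 i]
    exact h2 i
  · intro h2 i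
    rw [h1 i]
    exact h2 i

theorem main (hN : ∀ d, StNullA d) {ι : Type} [Fintype ι] (S : System ι) {E : Ev}
    (hE : E.Ok) (z : ℂ) (w : ℕ → ℂ)
    (hw : ∀ p m : ℕ, p.Prime → 0 < m → (E.Is (p * m) ↔ E.Is m) →
      w (p * m) = z * w m) : DilW S z w := by
  classical
  intro p hp _ ε hε
  have key : ∀ i : ι, ∀ᶠ n : ℕ in atTop,
      ((((S.Q i).pball n).filter (fun v => w (p * ((S.Q i).q v).natAbs) ≠
        z * w ((S.Q i).q v).natAbs)).card : ℝ) ≤ ε * n := by
    intro i
    have hQ := S.pos i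
    obtain ⟨C0, hC0, hC⟩ := pballCard90 (S.Q i) hQ
    have hp1 : (1 : ℝ) ≤ p := by exact_mod_cast hp.one_lt.le
    set η : ℝ := min 1 (ε / (2 * (C0 + 1))) with hη
    have hη0 : 0 < η := lt_min one_pos (by positivity)
    have hη1 : η ≤ 1 := min_le_left _ _
    have hη2 : C0 * η ≤ ε / 2 := by
      have h2 : η ≤ ε / (2 * (C0 + 1)) := min_le_right _ _
      have h3 : C0 * η ≤ (C0 + 1) * (ε / (2 * (C0 + 1))) := by
        refine mul_le_mul (by linarith) h2 hη0.le (by linarith)
      have h4 : (C0 + 1) * (ε / (2 * (C0 + 1))) = ε / 2 := by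
        field_simp
      linarith
    set C : ℝ := 1 / η + p + 1 with hCdef
    have hηi : 0 < 1 / η := by positivity
    have hC1 : 1 < C := by rw [hCdef]; linarith
    set X : Finset ℝ := ends E with hXd
    set e : ℝ := ε / (2 * (X.card + 1)) with he
    have he0 : 0 < e := by positivity
    set A : ℝ → ℕ → Finset V := fun θ n => ((S.Q i).ball n).filter (fun v => v ≠ 0 ∧ ∃ p : ℕ,
      p.Prime ∧ p ∣ ((S.Q i).q v).natAbs ∧ (n : ℝ) ^ θ / C < p ∧
      (p : ℝ) ≤ C * (n : ℝ) ^ θ) with hA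
    have hAn : ∀ θ : ℝ, 0 < θ → θ < 1 → ∀ᶠ n : ℕ in atTop, ((A θ n).card : ℝ) ≤ e * n := by
      intro θ h1 h2
      obtain ⟨N1, hN1⟩ := hN S.d (S.Q i) hQ (S.disc i) θ C h1 h2 hC1 e he0
      filter_upwards [eventually_ge_atTop N1] with n hn
      convert hN1 n hn
    have hA1 : ∀ᶠ n : ℕ in atTop, ∀ θ ∈ X, ((A θ n).card : ℝ) ≤ e * n := by
      rw [Filter.eventually_all_finset]
      exact fun θ hθ => hAn _ (ends_pos hE hθ).1 (ends_pos hE hθ).2
    have hA3 : ∀ᶠ n : ℕ in atTop, ∀ θ ∈ X, (p : ℝ) ≤ (η * (n : ℝ)) ^ θ := by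
      rw [Filter.eventually_all_finset]
      intro θ hθ
      have h1 : Tendsto (fun n : ℕ => (η * (n : ℝ)) ^ θ) atTop atTop :=
        (tendsto_rpow_atTop (ends_pos hE hθ).1).comp
          (tendsto_natCast_atTop_atTop.const_mul_atTop hη0)
      exact h1.eventually_ge_atTop _
    filter_upwards [hA1, hA3, eventually_ge_atTop 1] with n hA1 hA3 hn1
    have hn0 : (0 : ℝ) < n := by
      have : 0 < n := by omega
      exact_mod_cast this
    have hsub : ((S.Q i).pball n).filter (fun v => w (p * ((S.Q i).q v).natAbs) ≠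
        z * w ((S.Q i).q v).natAbs) ⊆ (S.Q i).pball ⌊η * n⌋₊ ∪
          X.biUnion (fun θ => A θ n) := by
      intro v hv
      rw [Finset.mem_filter] at hv
      obtain ⟨hvb, hvw⟩ := hv
      have hvb' := hvb
      unfold Form.pball at hvb'
      rw [Finset.mem_filter] at hvb'
      obtain ⟨hball, hprim⟩ := hvb'
      have hqn := (Form.mem_ball hQ).1 hball
      have hne : v ≠ 0 := by
        rintro rfl
        unfold Prim at hprim
        simp at hprim
      have hqpos := hQ.q_pos hne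
      set m : ℕ := ((S.Q i).q v).natAbs with hm
      have hmq : (m : ℤ) = (S.Q i).q v := by
        rw [hm]; exact Int.natAbs_of_nonneg hqpos.le
      have hm0 : 0 < m := by omega
      have hmn : m ≤ n := by omega
      rw [Finset.mem_union]
      by_cases hsm : (m : ℝ) ≤ η * n
      · left
        unfold Form.pball
        rw [Finset.mem_filter, Form.mem_ball hQ]
        refine ⟨?_, hprim⟩
        have : m ≤ ⌊η * (n : ℝ)⌋₊ := Nat.le_floor hsm
        rw [← hmq]
        exact_mod_cast this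
      · right
        push Not at hsm
        have hiff : ¬ (E.Is (p * m) ↔ E.Is m) := fun h2 => hvw (hw p m hp hm0 h2)
        have hpm : ∀ i, (p : ℝ) ≤ (m : ℝ) ^ E.u i := fun j =>
          (hA3 _ (u_mem E j)).trans (Real.rpow_le_rpow (by positivity) hsm.le (hE j).1.le)
        obtain ⟨θ, hθX, r, hr, hrm, ha, hb⟩ := is_diff hE hp hm0 hpm hiff
        have hθ0 : 0 < θ := (ends_pos hE hθX).1
        have hθ1 : θ ≤ 1 := (ends_pos hE hθX).2.le
        have hnθ : 0 < (n : ℝ) ^ θ := Real.rpow_pos_of_pos hn0 θ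
        have hlow : (n : ℝ) ^ θ / C < r := by
          have h2 : (η * n) ^ θ ≤ (m : ℝ) ^ θ :=
            Real.rpow_le_rpow (by positivity) hsm.le hθ0.le
          rw [Real.mul_rpow hη0.le hn0.le] at h2
          have h3 : η ≤ η ^ θ := by
            calc η = η ^ (1 : ℝ) := (Real.rpow_one η).symm
              _ ≤ η ^ θ := Real.rpow_le_rpow_of_exponent_ge hη0 hη1 hθ1
          have h4 : 1 / C ≤ η := by
            rw [div_le_iff₀ (by linarith)]
            have h5 : η * (1 / η) = 1 := by field_simp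
            have h6 : 0 ≤ η * (p + 1) := by positivity
            rw [hCdef]
            nlinarith
          calc (n : ℝ) ^ θ / C = (1 / C) * (n : ℝ) ^ θ := by ring
            _ ≤ η ^ θ * (n : ℝ) ^ θ := mul_le_mul_of_nonneg_right (h4.trans h3) hnθ.le
            _ ≤ (m : ℝ) ^ θ := h2
            _ < r := ha
        have hup : (r : ℝ) ≤ C * (n : ℝ) ^ θ := by
          have hmr : (m : ℝ) ≤ n := by exact_mod_cast hmn
          calc (r : ℝ) ≤ ((p : ℝ) * m) ^ θ := hb
            _ ≤ ((p : ℝ) * n) ^ θ := by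
                refine Real.rpow_le_rpow (by positivity) ?_ hθ0.le
                exact mul_le_mul_of_nonneg_left hmr (by positivity)
            _ = (p : ℝ) ^ θ * (n : ℝ) ^ θ := Real.mul_rpow (by positivity) hn0.le
            _ ≤ C * (n : ℝ) ^ θ := by
                refine mul_le_mul_of_nonneg_right ?_ hnθ.le
                have h2 : (p : ℝ) ^ θ ≤ p := by
                  calc (p : ℝ) ^ θ ≤ (p : ℝ) ^ (1 : ℝ) :=
                        Real.rpow_le_rpow_of_exponent_le hp1 hθ1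
                    _ = p := Real.rpow_one _
                rw [hCdef]
                linarith
        rw [Finset.mem_biUnion]
        refine ⟨θ, hθX, ?_⟩
        rw [hA, Finset.mem_filter]
        exact ⟨hball, hne, r, hr, hrm, hlow, hup⟩
    have hB : (((S.Q i).pball ⌊η * (n : ℝ)⌋₊).card : ℝ) ≤ ε / 2 * n := by
      refine (hC _).trans ?_
      have h2 : ((⌊η * (n : ℝ)⌋₊ : ℕ) : ℝ) ≤ η * n := Nat.floor_le (by positivity)
      calc C0 * ((⌊η * (n : ℝ)⌋₊ : ℕ) : ℝ) ≤ C0 * (η * n) := mul_le_mul_of_nonneg_left h2 hC0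
        _ = C0 * η * n := by ring
        _ ≤ ε / 2 * n := mul_le_mul_of_nonneg_right hη2 hn0.le
    have hU : ((X.biUnion (fun θ => A θ n)).card : ℝ) ≤ ε / 2 * n := by
      have h1 : ((X.biUnion (fun θ => A θ n)).card : ℝ) ≤ ∑ θ ∈ X, ((A θ n).card : ℝ) := by
        exact_mod_cast Finset.card_biUnion_le
      have h3 := Finset.sum_le_card_nsmul X _ _ hA1
      rw [nsmul_eq_mul] at h3
      have h4 : (X.card : ℝ) * (e * n) ≤ ε / 2 * n := by
        have h5 : (X.card : ℝ) * e ≤ ε / 2 := by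
          have h6 : ((X.card : ℝ) + 1) * e = ε / 2 := by
            rw [he]; field_simp
          nlinarith
        calc (X.card : ℝ) * (e * n) = (X.card : ℝ) * e * n := by ring
          _ ≤ ε / 2 * n := mul_le_mul_of_nonneg_right h5 hn0.le
      linarith
    have hcard := Finset.card_le_card hsub
    have hu1 := Finset.card_union_le ((S.Q i).pball ⌊η * (n : ℝ)⌋₊)
      (X.biUnion (fun θ => A θ n))
    have hfin : ((((S.Q i).pball n).filter (fun v => w (p * ((S.Q i).q v).natAbs) ≠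
        z * w ((S.Q i).q v).natAbs)).card : ℝ) ≤
        (((S.Q i).pball ⌊η * (n : ℝ)⌋₊).card : ℝ) +
          (X.biUnion (fun θ => A θ n)).card := by
      exact_mod_cast hcard.trans hu1
    linarith
  obtain ⟨n0, hn0⟩ := Filter.eventually_atTop.1 (Filter.eventually_all.2 key)
  refine ⟨n0, fun n hn i => ?_⟩
  convert hn0 n hn i

theorem ind_eq {b : ℕ → Prop} {m n : ℕ} (h : b m ↔ b n) : ind b m = ind b n := by
  unfold ind
  by_cases h1 : b n
  · rw [if_pos h1, if_pos (h.2 h1)]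
  · rw [if_neg h1, if_neg (fun h2 => h1 (h.1 h2))]

end A4x21

/-- row A4 -/
theorem stDilA_21 (hN : ∀ d, StNullA d) : StDilA := by
  intro ι _ S E hE
  refine ⟨fun z _ => ?_, fun δ _ _ => ?_⟩
  · refine A4x21.main hN S hE z _ fun p m hp hm h => ?_
    unfold wz Omn
    rw [A4x21.ind_eq h, ArithmeticFunction.cardFactors_mul hp.ne_zero hm.ne',
      ArithmeticFunction.cardFactors_apply_prime hp]
    ring
  · refine A4x21.main hN S hE 1 _ fun p m hp hm h => ?_
    unfold wd
    rw [A4x21.ind_eq h, one_mul]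

end Pool.Agent.Lib.MP_a17b09_nt.AN
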