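import Pool.Agent.Lib.MP_a17b09_nt.AN.StmtsH3
import Pool.Agent.Lib.MP_a17b09_nt.AN.DilA_21
import Pool.Agent.Lib.MP_a17b09_nt.HY.Cnt84

/-!
Project AN, (AH4): the weights of the events are multiplicative outside sets of density zero,
positive discriminant (helper21, fork of PQH/X4_7 of helper7).
-/

set_option autoImplicit false

open Filter Topology Finset

namespace Pool.Agent.Lib.MP_a17b09_nt.ANH

open CH CH.PE HY HY.S68 MRH
open PQ (B1 Wy gw gcw TwW)
open PQH (Mph ApxH Fr0H DilHW)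
open AN (Ev ind wz wd Dens GoodL lam tW TwCon PairsG PairsA)

namespace AH4x21

theorem main (hN : ∀ d, StNullAH d) {ι : Type} [Fintype ι] (S : HSystem ι) {E : Ev}
    (hE : E.Ok) (z : ℂ) (w : ℕ → ℂ)
    (hw : ∀ p m : ℕ, p.Prime → 0 < m → (E.Is (p * m) ↔ E.Is m) →
      w (p * m) = z * w m) : DilHW S z w := by
  classical
  intro p hp _ T hT ε hε
  have key : ∀ i : ι, ∀ᶠ n : ℕ in atTop,
      {v : V | Sec (S.Q i) T v ∧ ((S.Q i).q v : ℝ) ≤ n ∧ w (p * ((S.Q i).q v).natAbs) ≠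
        z * w ((S.Q i).q v).natAbs}.Finite ∧
      ({v : V | Sec (S.Q i) T v ∧ ((S.Q i).q v : ℝ) ≤ n ∧ w (p * ((S.Q i).q v).natAbs) ≠
        z * w ((S.Q i).q v).natAbs}.ncard : ℝ) ≤ ε * n := by
    intro i
    have hQ := S.hyp i
    obtain ⟨C0, hC0, hC, -, -⟩ := stHcnt_84 S.d (S.Q i) hQ T hT 1 one_pos
    have hp1 : (1 : ℝ) ≤ p := by exact_mod_cast hp.one_lt.le
    have hC0' : 0 ≤ C0 := hC0.le
    set η : ℝ := min 1 (ε / (2 * (C0 + 1))) with hη
    have hη0 : 0 < η := lt_min one_pos (by positivity)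
    have hη1 : η ≤ 1 := min_le_left _ _
    have hη2 : C0 * η ≤ ε / 2 := by
      have h2 : η ≤ ε / (2 * (C0 + 1)) := min_le_right _ _
      have h3 : C0 * η ≤ (C0 + 1) * (ε / (2 * (C0 + 1))) := by
        refine mul_le_mul (by linarith) h2 hη0.le (by linarith)
      have h4 : (C0 + 1) * (ε / (2 * (C0 + 1))) = ε / 2 := by
        field_simp
      linarith
    set C : ℝ := 1 / η + p + 1 with hCdef
    have hηi : 0 < 1 / η := by positivity
    have hC1 : 1 < C := by rw [hCdef]; linarith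
    set X : Finset ℝ := AN.A4x21.ends E with hXd
    set e : ℝ := ε / (2 * (X.card + 1)) with he
    have he0 : 0 < e := by positivity
    set A : ℝ → ℕ → Set V := fun θ n => {v : V | Sec (S.Q i) T v ∧ ((S.Q i).q v : ℝ) ≤ n ∧
      ∃ p : ℕ, p.Prime ∧ p ∣ ((S.Q i).q v).natAbs ∧ (n : ℝ) ^ θ / C < p ∧
      (p : ℝ) ≤ C * (n : ℝ) ^ θ} with hA
    have hAn : ∀ θ : ℝ, 0 < θ → θ < 1 → ∀ᶠ n : ℕ in atTop, (A θ n).Finite ∧
        ((A θ n).ncard : ℝ) ≤ e * n := by
      intro θ h1 h2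
      obtain ⟨N1, hN1⟩ := hN S.d (S.Q i) hQ T hT θ C h1 h2 hC1 e he0
      filter_upwards [eventually_ge_atTop N1, eventually_ge_atTop 1] with n hn hn1
      have := hN1 n hn
      exact ⟨this.1, this.2⟩
    have hA1 : ∀ᶠ n : ℕ in atTop, ∀ θ ∈ X, (A θ n).Finite ∧ ((A θ n).ncard : ℝ) ≤ e * n := by
      rw [Filter.eventually_all_finset]
      exact fun θ hθ => hAn _ (AN.A4x21.ends_pos hE hθ).1 (AN.A4x21.ends_pos hE hθ).2
    have hA3 : ∀ᶠ n : ℕ in atTop, ∀ θ ∈ X, (p : ℝ) ≤ (η * (n : ℝ)) ^ θ := by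
      rw [Filter.eventually_all_finset]
      intro θ hθ
      have h1 : Tendsto (fun n : ℕ => (η * (n : ℝ)) ^ θ) atTop atTop :=
        (tendsto_rpow_atTop (AN.A4x21.ends_pos hE hθ).1).comp
          (tendsto_natCast_atTop_atTop.const_mul_atTop hη0)
      exact h1.eventually_ge_atTop _
    have hA4 : ∀ᶠ n : ℕ in atTop, (1 : ℝ) ≤ η * (n : ℝ) :=
      (tendsto_natCast_atTop_atTop.const_mul_atTop hη0).eventually_ge_atTop _
    filter_upwards [hA1, hA3, hA4, eventually_ge_atTop 1] with n hA1 hA3 hA4 hn0'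
    have hn0 : (0 : ℝ) < n := by exact_mod_cast hn0'
    have hn1' : (1 : ℝ) ≤ n := by exact_mod_cast hn0'
    set A0 := {v : V | Sec (S.Q i) T v ∧ ((S.Q i).q v : ℝ) ≤ η * n} with hA0d
    have hA0 := hC (η * n) hA4
    set U : Set V := ⋃ θ ∈ X, A θ n with hU
    have hUf : U.Finite := by
      rw [hU]
      exact Set.Finite.biUnion X.finite_toSet fun θ hθ => (hA1 θ hθ).1
    have hUc : (U.ncard : ℝ) ≤ ε / 2 * n := by
      have h1 : (U.ncard : ℝ) ≤ ∑ θ ∈ X, ((A θ n).ncard : ℝ) := by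
        rw [hU]
        exact_mod_cast Finset.set_ncard_biUnion_le X (fun θ => A θ n)
      have h3 := Finset.sum_le_card_nsmul X _ _ (fun θ hθ => (hA1 θ hθ).2)
      rw [nsmul_eq_mul] at h3
      have h4 : (X.card : ℝ) * (e * n) ≤ ε / 2 * n := by
        have h5 : (X.card : ℝ) * e ≤ ε / 2 := by
          have h6 : ((X.card : ℝ) + 1) * e = ε / 2 := by
            rw [he]; field_simp
          nlinarith
        calc (X.card : ℝ) * (e * n) = (X.card : ℝ) * e * n := by ring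
          _ ≤ ε / 2 * n := mul_le_mul_of_nonneg_right h5 hn0.le
      linarith
    have hsub : {v : V | Sec (S.Q i) T v ∧ ((S.Q i).q v : ℝ) ≤ n ∧
        w (p * ((S.Q i).q v).natAbs) ≠ z * w ((S.Q i).q v).natAbs} ⊆ A0 ∪ U := by
      rintro v ⟨hsec, hqn, hvw⟩
      have hqpos := hsec.1.q_pos hQ
      set m : ℕ := ((S.Q i).q v).natAbs with hm
      have hmq : (m : ℤ) = (S.Q i).q v := by
        rw [hm]; exact Int.natAbs_of_nonneg hqpos.le
      have hmqr : (m : ℝ) = ((S.Q i).q v : ℝ) := by exact_mod_cast hmq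
      have hm0 : 0 < m := by omega
      rw [Set.mem_union]
      by_cases hsm : (m : ℝ) ≤ η * n
      · left
        exact ⟨hsec, by rw [← hmqr]; exact hsm⟩
      · right
        push Not at hsm
        have hiff : ¬ (E.Is (p * m) ↔ E.Is m) := fun h2 => hvw (hw p m hp hm0 h2)
        have hpm : ∀ i, (p : ℝ) ≤ (m : ℝ) ^ E.u i := fun j =>
          (hA3 _ (AN.A4x21.u_mem E j)).trans (Real.rpow_le_rpow (by positivity) hsm.le (hE j).1.le)
        obtain ⟨θ, hθX, r, hr, hrm, ha, hb⟩ := AN.A4x21.is_diff hE hp hm0 hpm hiff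
        have hθ0 : 0 < θ := (AN.A4x21.ends_pos hE hθX).1
        have hθ1 : θ ≤ 1 := (AN.A4x21.ends_pos hE hθX).2.le
        have hnθ : 0 < (n : ℝ) ^ θ := Real.rpow_pos_of_pos hn0 θ
        have hlow : (n : ℝ) ^ θ / C < r := by
          have h2 : (η * n) ^ θ ≤ (m : ℝ) ^ θ :=
            Real.rpow_le_rpow (by positivity) hsm.le hθ0.le
          rw [Real.mul_rpow hη0.le hn0.le] at h2
          have h3 : η ≤ η ^ θ := by
            calc η = η ^ (1 : ℝ) := (Real.rpow_one η).symm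
              _ ≤ η ^ θ := Real.rpow_le_rpow_of_exponent_ge hη0 hη1 hθ1
          have h4 : 1 / C ≤ η := by
            rw [div_le_iff₀ (by linarith)]
            have h5 : η * (1 / η) = 1 := by field_simp
            have h6 : 0 ≤ η * (p + 1) := by positivity
            rw [hCdef]
            nlinarith
          calc (n : ℝ) ^ θ / C = (1 / C) * (n : ℝ) ^ θ := by ring
            _ ≤ η ^ θ * (n : ℝ) ^ θ := mul_le_mul_of_nonneg_right (h4.trans h3) hnθ.le
            _ ≤ (m : ℝ) ^ θ := h2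
            _ < r := ha
        have hup : (r : ℝ) ≤ C * (n : ℝ) ^ θ := by
          have hmr : (m : ℝ) ≤ n := by rw [hmqr]; exact hqn
          calc (r : ℝ) ≤ ((p : ℝ) * m) ^ θ := hb
            _ ≤ ((p : ℝ) * n) ^ θ := by
                refine Real.rpow_le_rpow (by positivity) ?_ hθ0.le
                exact mul_le_mul_of_nonneg_left hmr (by positivity)
            _ = (p : ℝ) ^ θ * (n : ℝ) ^ θ := Real.mul_rpow (by positivity) hn0.le
            _ ≤ C * (n : ℝ) ^ θ := by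
                refine mul_le_mul_of_nonneg_right ?_ hnθ.le
                have h2 : (p : ℝ) ^ θ ≤ p := by
                  calc (p : ℝ) ^ θ ≤ (p : ℝ) ^ (1 : ℝ) :=
                        Real.rpow_le_rpow_of_exponent_le hp1 hθ1
                    _ = p := Real.rpow_one _
                rw [hCdef]
                linarith
        rw [hU, Set.mem_iUnion₂]
        exact ⟨θ, hθX, hsec, hqn, r, hr, hrm, hlow, hup⟩
    have hfinU : (A0 ∪ U).Finite := hA0.1.union hUf
    refine ⟨hfinU.subset hsub, ?_⟩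
    have hcard := Set.ncard_le_ncard hsub hfinU
    have hu1 := Set.ncard_union_le A0 U
    have hfin : ({v : V | Sec (S.Q i) T v ∧ ((S.Q i).q v : ℝ) ≤ n ∧
        w (p * ((S.Q i).q v).natAbs) ≠ z * w ((S.Q i).q v).natAbs}.ncard : ℝ) ≤
        (A0.ncard : ℝ) + U.ncard := by
      exact_mod_cast hcard.trans hu1
    have hB : (A0.ncard : ℝ) ≤ ε / 2 * n := by
      calc (A0.ncard : ℝ) ≤ C0 * (η * n) := hA0.2
        _ = C0 * η * n := by ring
        _ ≤ ε / 2 * n := mul_le_mul_of_nonneg_right hη2 hn0.le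
    linarith
  obtain ⟨n0, hn0⟩ := Filter.eventually_atTop.1 (Filter.eventually_all.2 key)
  exact ⟨n0, fun n hn i => hn0 n hn i⟩

end AH4x21

/-- row AH4 -/
theorem stDilAH_21 (hN : ∀ d, StNullAH d) : StDilAH := by
  intro ι _ S E hE
  refine ⟨fun z _ => ?_, fun δ _ _ => ?_⟩
  · refine AH4x21.main hN S hE z _ fun p m hp hm h => ?_
    unfold AN.wz Omn
    rw [AN.A4x21.ind_eq h, ArithmeticFunction.cardFactors_mul hp.ne_zero hm.ne',
      ArithmeticFunction.cardFactors_apply_prime hp]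
    ring
  · refine AH4x21.main hN S hE 1 _ fun p m hp hm h => ?_
    unfold AN.wd
    rw [AN.A4x21.ind_eq h, one_mul]

end Pool.Agent.Lib.MP_a17b09_nt.ANH
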