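import Pool.Agent.Lib.MP_a17b09_nt.AN.StmtsH3
import Pool.Agent.Lib.MP_a17b09_nt.PQH.T4_64
import Pool.Agent.Lib.MP_a17b09_nt.HY.EndH20

/-!
Project AN (MP_a17b09_nt), A9, AH9 (helper98): the structures `GWt`, `GWtH` and the pairs.
-/

set_option autoImplicit false

open Filter Topology Finset

namespace Pool.Agent.Lib.MP_a17b09_nt.AN

open CH CH.PE HY

theorem stGA_98 (d : ℕ) (h1 : StApxA d) (h2 : StDilA) (h3 : StFrA d) : StGA d := by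
  intro E δ hE hD
  obtain ⟨c0, hc0, hz, hw⟩ := h1 E hE
  obtain ⟨hf, hfz⟩ := h3 E δ hE hD
  exact ⟨hD.1, hD.2.1, ⟨c0, hc0, hz, hw δ hD.1 hD.2.1⟩,
    fun ι _ S _ => ⟨(h2 ι S E hE).1, (h2 ι S E hE).2 δ hD.1 hD.2.1⟩, hf, hfz⟩

/-- from the twisted sums to the pairs, one polynomial of any sign of the discriminant -/
theorem pairsA_core {a b c : ℤ} (ha : 0 < a) (hf : ∀ t : ℕ, fv a b c t ≠ 0) {h t₀ : ℕ}
    (hh : 0 < h) {α β : ℝ} (hα : 0 < α) (hαβ : α < β) {κ : ℝ} (hκ : 0 < κ)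
    (hlim : Tendsto (fun N : ℕ => (CST a b c α β h t₀ 1 0 0 N : ℝ) / N) atTop (𝓝 κ))
    (hT : ∀ (E E' : Ev) (δ δ' : ℝ), E.Ok → E'.Ok → Dens E δ → Dens E' δ' →
      TwCon a b c α β h t₀ E.Is E'.Is (δ * δ')) (hF : StFinG) (hPr : StPrG) :
    PairsA a b c h t₀ α β := by
  classical
  have e0 : ∀ N : ℕ, pairCount a b c h t₀ α β (fun _ _ => True) N =
      CST a b c α β h t₀ 1 0 0 N := by
    intro N
    unfold pairCount CST
    apply Finset.sum_congr rfl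
    intro t _
    rw [EndH20.ncard_eq (hf t) α β (fun _ => True)]
    congr 1
    apply Finset.filter_congr
    intro d _
    exact ⟨fun _ => ⟨Nat.modEq_one, Nat.modEq_one⟩, fun _ => trivial⟩
  refine ⟨κ, hκ, by simpa only [e0] using hlim, fun E E' δ δ' hE hE' hD hD' => ?_⟩
  exact hPr a b c ha hf h hh t₀ α β hα hαβ κ hκ hlim E.Is E'.Is (δ * δ')
    (mul_nonneg hD.1 hD'.1) fun k hk r s M =>
      hF a b c ha hf h hh t₀ α β hα hαβ κ hκ hlim E.Is E'.Is (δ * δ')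
        (hT E E' δ δ' hE hE' hD hD') k hk r s M

theorem stEndA_98 (hG : ∀ d : ℕ, StGA d) (hT : StTwG) (hF : StFinG) (hPr : StPrG)
    (hMain : StMainS) : StEndA := by
  intro a b c ha hD h t₀ hh α β hα hαβ
  obtain ⟨κ, hκ, hlim⟩ := hMain a b c ha hD h hh t₀ α β hα hαβ
  obtain ⟨d, hd⟩ : ∃ d : ℕ, 4 * a * c - b ^ 2 = (d : ℤ) :=
    ⟨_, (Int.toNat_of_nonneg (by linarith)).symm⟩
  refine pairsA_core ha (fun t => (EndF64.fv_pos ha hD t).ne') hh hα hαβ hκ hlim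
    (fun E E' δ δ' hE hE' hDe hDe' M => ?_) hF hPr
  exact hT a b c ha hD d hd.symm E.Is E'.Is δ δ' (hG d E δ hE hDe) (hG d E' δ' hE' hDe')
    h hh t₀ α β hα hαβ M

end Pool.Agent.Lib.MP_a17b09_nt.AN

namespace Pool.Agent.Lib.MP_a17b09_nt.ANH

open CH CH.PE HY HY.S68 MRH
open AN (Ev ind wz wd Dens GoodL lam tW TwCon PairsG PairsA)

theorem stGAH_98 (d : ℕ) (h1 : StApxAH d) (h2 : StDilAH) (h3 : StFrAH d) : StGAH d := by
  intro E δ hE hD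
  obtain ⟨c0, hc0, hz, hw⟩ := h1 E hE
  obtain ⟨hf, hfz⟩ := h3 E δ hE hD
  exact ⟨hD.1, hD.2.1, ⟨c0, hc0, hz, hw δ hD.1 hD.2.1⟩,
    fun ι _ S _ => ⟨(h2 ι S E hE).1, (h2 ι S E hE).2 δ hD.1 hD.2.1⟩, hf, hfz⟩

theorem stEndAH_98 (hG : ∀ d : ℕ, ¬ IsSquare d → StGAH d) (hT : StTwGH) (hF : AN.StFinG)
    (hPr : AN.StPrG) (hMain : StHMainS) : StEndAH := by
  intro a b c ha d hd hns h t₀ hh α β hα hαβ
  obtain ⟨κ, hκ, hlim⟩ := hMain a b c ha d hd hns h hh t₀ α β hα hαβ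
  exact AN.pairsA_core ha (PQH.T64.fv_ne hd hns) hh hα hαβ hκ hlim
    (fun E E' δ δ' hE hE' hDe hDe' => hT a b c ha d hd hns E.Is E'.Is δ δ'
      (hG d hns E δ hE hDe) (hG d hns E' δ' hE' hDe') h hh t₀ α β hα hαβ) hF hPr

end Pool.Agent.Lib.MP_a17b09_nt.ANH
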