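import Pool.Agent.Lib.MP_a17b09_nt.AN.Da98
import Pool.Agent.Lib.MP_a17b09_nt.PQ.FinX64

/-!
Project AN (MP_a17b09_nt): the text of the hand-in NearDivisors (helper98), from the conclusions
`PairsA` and `PQ.ArgsX` for one polynomial (any sign of the discriminant).
-/

set_option autoImplicit false

open Filter Topology

namespace Pool.Agent.Lib.MP_a17b09_nt.AN

open Pool.Agent.Lib.MP_a17b09_nt.CH (LogNull pairCount fv Omn)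

/-- the condition of the pairs -/
def SelT (a b c : ℤ) {m m' : ℕ} (u v : Fin m → ℝ) (S : Set (Fin m → ℕ)) (u' v' : Fin m' → ℝ)
    (S' : Set (Fin m' → ℕ)) (k r s t d : ℕ) : Prop :=
  Ty u v S d ∧ Ty u' v' S' ((a * (t : ℤ) ^ 2 + b * t + c).natAbs / d) ∧
  ArithmeticFunction.cardFactors d ≡ r [MOD k] ∧
  ArithmeticFunction.cardFactors ((a * (t : ℤ) ^ 2 + b * t + c).natAbs / d) ≡ s [MOD k]

namespace Fin98

theorem dens_nonneg {A : ℕ → Prop} {δ : ℝ} (h : Nd A δ) : 0 ≤ δ :=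
  ge_of_tendsto' h fun N => by positivity

/-- the pairs in plain terms -/
theorem pairs (a b c : ℤ) (ha : 0 < a) (hD : ¬ IsSquare (b ^ 2 - 4 * a * c)) (h t₀ : ℕ)
    (α β : ℝ) (hα : 0 < α) (hαβ : α < β) (hA : PairsU a b c h t₀ α β) :
    ∃ κ : ℝ, 0 < κ ∧
      Tendsto (fun N : ℕ => (pairCount a b c h t₀ α β (fun _ _ => True) N : ℝ) / N) atTop
        (𝓝 κ) ∧
      ∀ (m m' : ℕ) (u v : Fin m → ℝ) (u' v' : Fin m' → ℝ) (S : Set (Fin m → ℕ))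
        (S' : Set (Fin m' → ℕ)) (δ δ' : ℝ), (∀ i, 0 < u i) → (∀ i, 0 < u' i) →
        Nd (Ty u v S) δ → Nd (Ty u' v' S') δ' → ∀ k : ℕ, 0 < k → ∀ r s : ℕ,
        (∀ ε : ℝ, 0 < ε → LogNull {N : ℕ | ε * N <
          |(pairCount a b c h t₀ α β (SelT a b c u v S u' v' S' k r s) N : ℝ) -
            δ * δ' * κ / k ^ 2 * N|}) ∧
        (0 < δ → 0 < δ' →
          (∃ c' : ℝ, 0 < c' ∧ ∀ᶠ N : ℕ in atTop, c' * N ≤
            (pairCount a b c h t₀ α β (SelT a b c u v S u' v' S' k r s) N : ℝ)) ∧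
          ∀ ε : ℝ, 0 < ε → ∀ᶠ N : ℕ in atTop, (N : ℝ) / Real.log N ^ (Real.log 2 + ε) ≤
            (Set.ncard {t : ℕ | 1 ≤ t ∧ t ≤ N ∧ t ≡ t₀ [MOD h] ∧ ∃ d : ℕ,
              (d : ℤ) ∣ a * (t : ℤ) ^ 2 + b * t + c ∧ α * t ≤ d ∧ d ≤ β * t ∧
              SelT a b c u v S u' v' S' k r s t d} : ℝ)) := by
  classical
  obtain ⟨κ, hκ, h1, hJ⟩ := hA
  have key : ∀ (F : ℕ → ℕ) (x ε : ℝ), F 0 = 0 →
      LogNull {N : ℕ | ε < |(F N : ℝ) / N - x|} →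
      LogNull {N : ℕ | ε * N < |(F N : ℝ) - x * N|} := by
    intro F x ε h0 hF
    refine Lib.MP_a17b09_nt.CH.EndS.LogNull.mono hF fun N hN => ?_
    simp only [Set.mem_ofPred_eq] at hN ⊢
    rcases Nat.eq_zero_or_pos N with hN0 | hN0
    · subst hN0
      simp [h0] at hN
    · have hNp : (0 : ℝ) < N := by exact_mod_cast hN0
      have e3 : (F N : ℝ) / N - x = ((F N : ℝ) - x * N) / N := by
        field_simp
      rw [e3, abs_div, Nat.abs_cast, lt_div_iff₀ hNp]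
      exact hN
  have z0 : ∀ P : ℕ → ℕ → Prop, pairCount a b c h t₀ α β P 0 = 0 := by
    intro P
    unfold pairCount
    simp
  refine ⟨κ, hκ, h1, fun m m' u v u' v' S S' δ δ' hu hu' hδ hδ' k hk r s => ?_⟩
  obtain ⟨hr1, hr2⟩ := hJ m m' u v u' v' S S' δ δ' hu hu' hδ hδ' k hk r s
  refine ⟨fun ε hε => key (fun N => pairCount a b c h t₀ α β
    (SelT a b c u v S u' v' S' k r s) N) _ ε (z0 _) (hr1 ε hε), fun hδ0 hδ0' => ?_⟩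
  obtain ⟨η, hη, hr3⟩ := hr2 (mul_pos hδ0 hδ0')
  refine ⟨⟨η, hη, hr3⟩, fun ε hε => ?_⟩
  filter_upwards [UW.U64.unwD a b c ha hD h t₀ α β hα hαβ _ hη hr3 hε] with N hN
  refine hN.trans (le_of_eq ?_)
  rw [← Set.ncard_coe_finset]
  congr 2
  ext t
  simp only [Finset.coe_filter, Finset.mem_Icc, Set.mem_ofPred_eq, and_assoc]
  rfl

end Fin98

open Fin98 Ty98 in
/-- The text of the hand-in NearDivisors. -/
theorem finAN (hOk : StOk) (hDen : StDen) (a b c : ℤ) (ha : 0 < a)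
    (hD : ¬ IsSquare (b ^ 2 - 4 * a * c)) (h t₀ : ℕ)
    (hA : ∀ α β : ℝ, 0 < α → α < β → PairsA a b c h t₀ α β) (hB : PQ.ArgsX a b c h t₀) :
    (∀ (m : ℕ) (u v : Fin m → ℝ) (S : Set (Fin m → ℕ)), (∀ i, 0 < u i) →
      ∃ δ : ℝ, Nd (Ty u v S) δ) ∧
    (∀ α β : ℝ, 0 < α → α < β → ∃ κ : ℝ, 0 < κ ∧
      Tendsto (fun N : ℕ => (pairCount a b c h t₀ α β (fun _ _ => True) N : ℝ) / N) atTop
        (𝓝 κ) ∧
      ∀ (m m' : ℕ) (u v : Fin m → ℝ) (u' v' : Fin m' → ℝ) (S : Set (Fin m → ℕ))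
        (S' : Set (Fin m' → ℕ)) (δ δ' : ℝ), (∀ i, 0 < u i) → (∀ i, 0 < u' i) →
        Nd (Ty u v S) δ → Nd (Ty u' v' S') δ' → ∀ k : ℕ, 0 < k → ∀ r s : ℕ,
        (∀ ε : ℝ, 0 < ε → LogNull {N : ℕ | ε * N <
          |(pairCount a b c h t₀ α β (SelT a b c u v S u' v' S' k r s) N : ℝ) -
            δ * δ' * κ / k ^ 2 * N|}) ∧
        (0 < δ → 0 < δ' →
          (∃ c' : ℝ, 0 < c' ∧ ∀ᶠ N : ℕ in atTop, c' * N ≤
            (pairCount a b c h t₀ α β (SelT a b c u v S u' v' S' k r s) N : ℝ)) ∧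
          ∀ ε : ℝ, 0 < ε → ∀ᶠ N : ℕ in atTop, (N : ℝ) / Real.log N ^ (Real.log 2 + ε) ≤
            (Set.ncard {t : ℕ | 1 ≤ t ∧ t ≤ N ∧ t ≡ t₀ [MOD h] ∧ ∃ d : ℕ,
              (d : ℤ) ∣ a * (t : ℤ) ^ 2 + b * t + c ∧ α * t ≤ d ∧ d ≤ β * t ∧
              SelT a b c u v S u' v' S' k r s t d} : ℝ))) ∧
    ∀ (m l : ℕ) (x : Fin m → ℝ) (y : Fin l → ℝ), (∀ i, 0 < x i) → (∀ j, 0 < y j) →
      ∑ i, x i = 1 → ∑ j, y j = 1 → ∀ δ : ℝ, 0 < δ → ∀ k : ℕ, 0 < k → ∀ r : ℕ, ∀ ε : ℝ, 0 < ε →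
      ∀ᶠ N : ℕ in atTop, (N : ℝ) / Real.log N ^ (Real.log 2 + ε) ≤
        (Set.ncard {t : ℕ | 1 ≤ t ∧ t ≤ N ∧ t ≡ t₀ [MOD h] ∧
          ∃ (e : ℕ) (p : Fin m → ℕ) (p' : Fin l → ℕ), (∀ i, (p i).Prime) ∧
          (∀ j, (p' j).Prime) ∧
          (∀ i, (t : ℝ) ^ (x i - δ) < p i ∧ (p i : ℝ) < (t : ℝ) ^ (x i + δ)) ∧
          (∀ j, (t : ℝ) ^ (y j - δ) < p' j ∧ (p' j : ℝ) < (t : ℝ) ^ (y j + δ)) ∧
          (e : ℝ) ≤ (t : ℝ) ^ δ ∧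
          a * (t : ℤ) ^ 2 + b * t + c = e * (∏ i, p i) * (∏ j, p' j) ∧
          ArithmeticFunction.cardFactors (e * (∏ i, p i) * (∏ j, p' j)) ≡ r [MOD k]} : ℝ) := by
  have hf : ∀ t : ℕ, fv a b c t ≠ 0 := by
    intro t h0
    apply hD
    refine ⟨2 * a * t + b, ?_⟩
    unfold fv at h0
    linear_combination (-4 * a) * h0
  refine ⟨fun m u v S hu => exists_nd hOk hDen u v hu S, fun α β hα hαβ => ?_,
    PQ.FX64.args a b c h t₀ hB⟩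
  exact pairs a b c ha hD h t₀ α β hα hαβ (pairsU_98 hOk hDen ha hf hα hαβ
    (pairsT_98 hOk hDen ha hf (hA α β hα hαβ)))

end Pool.Agent.Lib.MP_a17b09_nt.AN
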