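import Pool.Agent.Lib.MP_a17b09_nt.AN.Tup12

/-!
AN (MP_a17b09_nt), row A5: frequency `0` of the moment weights.  helper12.
-/

set_option autoImplicit false

open Filter Topology Finset

namespace Pool.Agent.Lib.MP_a17b09_nt.AN

namespace FqA12

open CH CH.PE MRSG MRS PQ.Freq12 Tup12
open PQ (Mpw gw)

/-! ### Arithmetic -/

/-- a prime divisor of a value of a primitive vector is split -/
theorem spl_of_dvd {d K : ℕ} (i : Cl d) {v : V} (hv : Prim v) {p : ℕ} (hp : p.Prime)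
    (hpK : ¬ p ∣ 2 * d * K) (h : (p : ℤ) ∣ (rep i).q v) : Spl d K p := by
  refine ⟨hp, hpK, ?_⟩
  have hD := rep_D i
  set Q := rep i with hQ
  have hinv : ∀ y : ℤ, ¬ (p : ℤ) ∣ y → ∃ s : ℤ, (p : ℤ) ∣ 1 - y * s := by
    intro y hy
    have h1 : IsCoprime (p : ℤ) y := (Nat.prime_iff_prime_int.1 hp).coprime_iff_not_dvd.2 hy
    obtain ⟨u, s, hus⟩ := h1
    exact ⟨s, ⟨u, by linear_combination -hus⟩⟩
  by_cases hy : (p : ℤ) ∣ v.2
  · have hx : ¬ (p : ℤ) ∣ v.1 := by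
      intro hx
      have h4 : (p : ℤ) ∣ (Int.gcd v.1 v.2 : ℤ) := Int.dvd_coe_gcd hx hy
      rw [show Int.gcd v.1 v.2 = 1 from hv] at h4
      have h5 : p ∣ 1 := by exact_mod_cast h4
      exact hp.one_lt.ne' (Nat.dvd_one.1 h5)
    obtain ⟨s, t, ht⟩ := hinv v.1 hx
    obtain ⟨m, hm⟩ := h
    refine ⟨(2 * Q.c * v.2 + Q.b * v.1) * s, 4 * Q.c * m * s ^ 2 + Q.D * t * (1 + v.1 * s), ?_⟩
    rw [← hD]
    unfold Form.q at hm
    unfold Form.D
    linear_combination (4 * Q.c * s ^ 2) * hm + ((4 * Q.a * Q.c - Q.b ^ 2) * (1 + v.1 * s)) * ht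
  · obtain ⟨s, t, ht⟩ := hinv v.2 hy
    obtain ⟨m, hm⟩ := h
    refine ⟨(2 * Q.a * v.1 + Q.b * v.2) * s, 4 * Q.a * m * s ^ 2 + Q.D * t * (1 + v.2 * s), ?_⟩
    rw [← hD]
    unfold Form.q at hm
    unfold Form.D
    linear_combination (4 * Q.a * s ^ 2) * hm + ((4 * Q.a * Q.c - Q.b ^ 2) * (1 + v.2 * s)) * ht

open Classical in
/-- only the prime divisors matter -/
theorem tup_congr {P : ℕ → Prop} {n0 : ℕ} : ∀ (L : List (Finset ℕ)),
    (∀ W ∈ L, ∀ p ∈ W, p ∣ n0 → P p) → ∀ n, n ∣ n0 →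
    tup L n = tup (L.map (fun W => W.filter P)) n
  | [], _, n, _ => by simp [tup]
  | W :: L, h, n, hn => by
    rw [List.map_cons, tup, tup]
    have h1 : (W.filter P).filter (fun p => p ∣ n) = W.filter (fun p => p ∣ n) := by
      ext p
      simp only [mem_filter]
      constructor
      · rintro ⟨⟨h1, -⟩, h2⟩
        exact ⟨h1, h2⟩
      · rintro ⟨h1, h2⟩
        exact ⟨⟨h1, h W List.mem_cons_self p h1 (h2.trans hn)⟩, h2⟩
    rw [h1]
    refine sum_congr rfl fun p hp => ?_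
    exact tup_congr L (fun W' hW' => h W' (List.mem_cons_of_mem _ hW')) (n / p)
      ((Nat.div_dvd_of_dvd (mem_filter.1 hp).2).trans hn)

theorem mem_PW {x : ℝ} (hx : 0 ≤ x) {I : ℝ × ℝ} {p : ℕ} :
    p ∈ PW x I ↔ p.Prime ∧ x ^ I.1 < p ∧ (p : ℝ) ≤ x ^ I.2 := by
  unfold PW
  rw [Finset.mem_filter, Finset.mem_range, Nat.lt_succ_iff,
    Nat.le_floor_iff (Real.rpow_nonneg hx _)]
  tauto

/-! ### The conditions -/

open Classical in
/-- the split primes of the windows -/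
noncomputable def LL (d K : ℕ) (x : ℝ) (X : List (ℝ × ℝ)) : List (Finset ℕ × ℝ) :=
  X.map (fun I => ((PW x I).filter (Spl d K), x ^ I.2))

theorem LL_fst (d K : ℕ) (x : ℝ) (X : List (ℝ × ℝ)) : (LL d K x X).map Prod.fst =
    (X.map (PW x)).map (fun W => by classical exact W.filter (Spl d K)) := by
  unfold LL
  rw [List.map_map, List.map_map]
  rfl

theorem LL_snd (d K : ℕ) (x : ℝ) (hx : 0 < x) (X : List (ℝ × ℝ)) :
    ((LL d K x X).map Prod.snd).prod = x ^ (X.map Prod.snd).sum := by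
  unfold LL
  induction X with
  | nil => simp
  | cons I X ih =>
    simp only [List.map_cons, List.prod_cons, List.sum_cons] at ih ⊢
    rw [ih, Real.rpow_add hx]

/-- few primes of a window divide a number -/
theorem card_win {x a0 R : ℝ} (hx : 1 < x) (ha0 : 0 < a0) (hR : R ≤ x ^ (2 : ℝ)) {W : Finset ℕ}
    (hW : ∀ p ∈ W, p.Prime ∧ x ^ a0 < p) {n : ℕ} (hn : 0 < n) (hnR : (n : ℝ) ≤ R) :
    (W.filter (fun p => p ∣ n)).card ≤ ⌈2 / a0⌉₊ := by
  set s := W.filter (fun p => p ∣ n) with hs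
  have hx0 : 0 < x := by linarith
  have h1 : ∏ p ∈ s, p ∣ n := Finset.prod_primes_dvd n
    (fun p hp => (hW p (mem_filter.1 hp).1).1.prime) fun p hp => (mem_filter.1 hp).2
  have h2 : (x ^ a0) ^ s.card ≤ ∏ p ∈ s, (p : ℝ) := by
    rw [← Finset.prod_const]
    exact Finset.prod_le_prod (fun p _ => by positivity) fun p hp =>
      (hW p (mem_filter.1 hp).1).2.le
  have h3 : ∏ p ∈ s, (p : ℝ) ≤ n := by
    have h4 : ((∏ p ∈ s, p : ℕ) : ℝ) ≤ n := by exact_mod_cast Nat.le_of_dvd hn h1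
    rwa [Nat.cast_prod] at h4
  have h4 : x ^ (a0 * s.card) ≤ x ^ (2 : ℝ) := by
    rw [Real.rpow_mul hx0.le, Real.rpow_natCast]
    exact (h2.trans h3).trans (hnR.trans hR)
  have h5 : a0 * s.card ≤ 2 := (Real.rpow_le_rpow_left_iff hx).1 h4
  have h6 : (s.card : ℝ) ≤ 2 / a0 := by
    rw [le_div_iff₀ ha0]
    linarith
  have h7 := h6.trans (Nat.le_ceil (2 / a0))
  exact_mod_cast h7

/-- a positive lower bound of the lower ends -/
theorem exists_low : ∀ X : List (ℝ × ℝ), (∀ I ∈ X, 0 < I.1 ∧ I.1 < I.2) →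
    ∃ a0 : ℝ, 0 < a0 ∧ ∀ I ∈ X, a0 ≤ I.1
  | [], _ => ⟨1, one_pos, by simp⟩
  | I :: X, h => by
    obtain ⟨a0, h0, h1⟩ := exists_low X fun J hJ => h J (List.mem_cons_of_mem _ hJ)
    refine ⟨min a0 I.1, lt_min h0 (h I List.mem_cons_self).1, ?_⟩
    intro J hJ
    rcases List.mem_cons.1 hJ with rfl | hJ
    · exact min_le_right _ _
    · exact (min_le_left _ _).trans (h1 J hJ)

theorem sum_log : ∀ X : List (ℝ × ℝ), (∀ I ∈ X, 0 < I.1 ∧ I.1 < I.2) →
    0 ≤ (X.map (fun I => Real.log (I.2 / I.1))).sum ∧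
    ∀ I ∈ X, Real.log (I.2 / I.1) ≤ (X.map (fun I => Real.log (I.2 / I.1))).sum
  | [], _ => by simp
  | J :: X, h => by
    obtain ⟨h1, h2⟩ := sum_log X fun J hJ => h J (List.mem_cons_of_mem _ hJ)
    have h3 : 0 ≤ Real.log (J.2 / J.1) := by
      obtain ⟨h4, h5⟩ := h J List.mem_cons_self
      apply Real.log_nonneg
      rw [le_div_iff₀ h4]
      linarith
    simp only [List.map_cons, List.sum_cons]
    refine ⟨by linarith, ?_⟩
    intro I hI
    rcases List.mem_cons.1 hI with rfl | hI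
    · linarith
    · linarith [h2 I hI]

theorem sp_iff (d K p : ℕ) : Sp (-(d : ℤ)) K p ↔ Spl d K p := by
  unfold Sp Spl
  rw [Int.natAbs_neg, Int.natAbs_natCast]
  simp only [sub_neg_eq_add]

/-- the sums over the split primes of the windows -/
theorem lim_one (hS : StSplit) {d K : ℕ} (hd : 0 < d) (hK : 0 < K) {I : ℝ × ℝ} (h1 : 0 < I.1)
    (h2 : I.1 < I.2) : Tendsto (fun N : ℝ => sw2 (by classical exact (PW N I).filter (Spl d K),
      N ^ I.2)) atTop (𝓝 (Real.log (I.2 / I.1))) := by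
  classical
  have hsq : ¬ IsSquare (-(d : ℤ)) := by
    rintro ⟨r, hr⟩
    have h3 : (0 : ℤ) < d := by exact_mod_cast hd
    nlinarith [mul_self_nonneg r]
  have h3 := hS (-(d : ℤ)) hsq K hK I.1 I.2 h1 h2
  refine h3.congr fun N => ?_
  unfold sw2
  simp only
  refine Finset.sum_congr ?_ fun _ _ => rfl
  ext p
  simp only [mem_filter, sp_iff]

/-- **the conditions hold for large `N`** -/
theorem cond (hS : StSplit) {d K : ℕ} (hd : 0 < d) (hK : 0 < K) {X : List (ℝ × ℝ)}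
    (hX : GoodL X) {r2 : ℝ} (hr2 : 0 < r2) : ∃ (S a0 : ℝ) (M : ℕ), 1 ≤ S ∧ 0 < a0 ∧ 1 ≤ M ∧
    ∀ X0 : ℝ, ∀ᶠ N : ℝ in atTop, 1 < N ∧ (∀ I ∈ X, ∀ p ∈ PW N I, p.Prime ∧ 2 * d * K < p) ∧
      (∀ W ∈ LL d K N X, Cnd d K (⌈r2 * N⌉₊ : ℝ) M S (S * N ^ (-a0)) W) ∧
      X0 * ((LL d K N X).map Prod.snd).prod ≤ N ∧ X0 ≤ N := by
  classical
  obtain ⟨a0, ha0, hlow⟩ := exists_low X hX.1
  obtain ⟨hl0, hl1⟩ := sum_log X hX.1
  refine ⟨1 + (X.map (fun I => Real.log (I.2 / I.1))).sum, a0, ⌈2 / a0⌉₊ + 1, by linarith, ha0,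
    by omega, fun X0 => ?_⟩
  set S : ℝ := 1 + (X.map (fun I => Real.log (I.2 / I.1))).sum with hSd
  have e1 : ∀ᶠ N : ℝ in atTop, ∀ I ∈ X.toFinset,
      sw2 ((PW N I).filter (Spl d K), N ^ I.2) ≤ S := by
    refine (Filter.eventually_all_finset X.toFinset).2 fun I hI => ?_
    rw [List.mem_toFinset] at hI
    obtain ⟨h1, h2⟩ := hX.1 I hI
    have h3 := (lim_one hS hd hK h1 h2).eventually (gt_mem_nhds (lt_add_one _))
    filter_upwards [h3] with N h4
    have h5 := hl1 I hI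
    refine h4.le.trans ?_
    rw [hSd]
    linarith
  have e2 : ∀ᶠ N : ℝ in atTop, ((2 * d * K : ℕ) : ℝ) ≤ N ^ a0 :=
    (tendsto_rpow_atTop ha0).eventually (eventually_ge_atTop _)
  have e3 : ∀ᶠ N : ℝ in atTop, |X0| ≤ N ^ (1 - (X.map Prod.snd).sum) :=
    (tendsto_rpow_atTop (by linarith [hX.2])).eventually (eventually_ge_atTop _)
  filter_upwards [e1, e2, e3, eventually_gt_atTop 1, eventually_ge_atTop (r2 + 1),
    eventually_ge_atTop X0] with N k1 k2 k3 k4 k5 k6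
  have hN0 : 0 < N := by linarith
  have hmem : ∀ I ∈ X, ∀ p ∈ PW N I, p.Prime ∧ N ^ a0 < p ∧ (p : ℝ) ≤ N ^ I.2 := by
    intro I hI p hp
    obtain ⟨h1, h2, h3⟩ := (mem_PW hN0.le).1 hp
    exact ⟨h1, lt_of_le_of_lt (Real.rpow_le_rpow_of_exponent_le k4.le (hlow I hI)) h2, h3⟩
  refine ⟨k4, fun I hI p hp => ?_, fun W hW => ?_, ?_, k6⟩
  · obtain ⟨h1, h2, -⟩ := hmem I hI p hp
    refine ⟨h1, ?_⟩
    have := k2.trans_lt h2
    exact_mod_cast this
  · unfold LL at hW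
    obtain ⟨I, hI, rfl⟩ := List.mem_map.1 hW
    have hsum := k1 I (List.mem_toFinset.2 hI)
    have hNa : 0 < N ^ a0 := Real.rpow_pos_of_pos hN0 _
    refine ⟨fun p hp => (mem_filter.1 hp).2, fun p hp => (hmem I hI p (mem_filter.1 hp).1).2.2,
      Real.rpow_pos_of_pos hN0 _, hsum, ?_, ?_⟩
    · have h1 : ∀ p ∈ (PW N I).filter (Spl d K), 1 / (p : ℝ) ^ 2 ≤ 2 / (p : ℝ) * N ^ (-a0) := by
        intro p hp
        obtain ⟨h1, h2, -⟩ := hmem I hI p (mem_filter.1 hp).1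
        have hp0 : (0 : ℝ) < p := by exact_mod_cast h1.pos
        rw [Real.rpow_neg hN0.le, ← div_eq_mul_inv, div_div, div_le_div_iff₀ (by positivity)
          (by positivity)]
        nlinarith [mul_pos hp0 hNa]
      refine (sum_le_sum h1).trans ?_
      rw [← sum_mul]
      exact mul_le_mul_of_nonneg_right hsum (Real.rpow_nonneg hN0.le _)
    · intro n hn hnR
      have hR : (⌈r2 * N⌉₊ : ℝ) ≤ N ^ (2 : ℝ) := by
        have h1 : (⌈r2 * N⌉₊ : ℝ) ≤ r2 * N + 1 := (Nat.ceil_lt_add_one (by positivity)).le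
        have h2 : N ^ (2 : ℝ) = N * N := by
          rw [show (2 : ℝ) = ((2 : ℕ) : ℝ) by norm_num, Real.rpow_natCast]
          ring
        rw [h2]
        nlinarith
      refine (card_win k4 ha0 hR (fun p hp => ?_) hn hnR).trans (Nat.le_succ _)
      obtain ⟨h1, h2, -⟩ := hmem I hI p (mem_filter.1 hp).1
      exact ⟨h1, h2⟩
  · rw [LL_snd d K N hN0]
    have h2 : 0 < N ^ (X.map Prod.snd).sum := Real.rpow_pos_of_pos hN0 _
    calc X0 * N ^ (X.map Prod.snd).sum ≤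
          N ^ (1 - (X.map Prod.snd).sum) * N ^ (X.map Prod.snd).sum :=
          mul_le_mul_of_nonneg_right ((le_abs_self _).trans k3) h2.le
      _ = N := by
          rw [← Real.rpow_add hN0]
          ring_nf
          exact Real.rpow_one N

theorem LL_length (d K : ℕ) (x : ℝ) (X : List (ℝ × ℝ)) : (LL d K x X).length = X.length := by
  unfold LL
  rw [List.length_map]

/-- the moment weight in terms of the split primes -/
theorem mpw_eq {d K : ℕ} [NeZero K] (hd : 0 < d) (z : ℂ) {X : List (ℝ × ℝ)} {r1 r2 N : ℝ}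
    (h : ∀ I ∈ X, ∀ p ∈ PW N I, p.Prime ∧ 2 * d * K < p) (f : Fq d K) :
    Mpw (fun n => z ^ Omn n * (tW X N n : ℂ)) r1 r2 N f =
      Mpa (fun i v => gz z (rep i) v *
        (tup ((LL d K N X).map Prod.fst) ((rep i).q v).natAbs : ℂ)) r1 r2 N f := by
  classical
  have hK : 0 < K := Nat.pos_of_ne_zero (NeZero.ne K)
  unfold Mpw Mpa
  congr 1
  refine sum_congr rfl fun i _ => sum_congr rfl fun v hv => ?_
  have hv2 := (mem_filter.1 hv).2
  have h1 : tW X N ((rep i).q v).natAbs = tup ((LL d K N X).map Prod.fst)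
      ((rep i).q v).natAbs := by
    unfold tW
    rw [LL_fst]
    convert tup_congr (P := Spl d K) (n0 := ((rep i).q v).natAbs) (X.map (PW N)) ?_ _ dvd_rfl
    intro W hW p hp hpn
    obtain ⟨I, hI, rfl⟩ := List.mem_map.1 hW
    obtain ⟨h2, h3⟩ := h I hI p hp
    refine spl_of_dvd i hv2 h2 (fun h4 => ?_) (Int.natCast_dvd.2 hpn)
    have := Nat.le_of_dvd (by positivity) h4
    omega
  unfold gw gz
  simp only
  rw [h1]
  rfl

theorem d_pos {d K : ℕ} [NeZero K] (e : Fin (MRSG.mm d K 0)) : 0 < d := by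
  have h1 : MRSG.mm d K 0 ≠ 0 := fun h => (h ▸ e).elim0
  have h2 := MRSG.mm_le (d := d) (K := K) 0
  have h3 : 0 < Fintype.card (Cl d) := by
    by_contra h4
    have h5 : Fintype.card (Cl d) = 0 := by omega
    rw [h5] at h2
    omega
  obtain ⟨i⟩ := Fintype.card_pos_iff.1 h3
  have h4 := (rep_pos i).2
  rw [rep_D] at h4
  exact_mod_cast h4

/-- the errors tend to zero -/
theorem err (C S a0 : ℝ) (ha0 : 0 < a0) {ε : ℝ} (hε : 0 < ε) :
    ∀ᶠ N : ℝ in atTop, C * (S * N ^ (-a0)) < ε := by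
  have h1 : Tendsto (fun N : ℝ => C * (S * N ^ (-a0))) atTop (𝓝 (C * (S * 0))) :=
    ((tendsto_rpow_neg_atTop ha0).const_mul S).const_mul C
  rw [mul_zero, mul_zero] at h1
  exact h1.eventually (gt_mem_nhds hε)

end FqA12

open CH CH.PE MRSG MRS PQ.Freq12 Tup12 FqA12
open PQ (Mpw gw)

/-- row A5, `z ≠ 1` -/
theorem stFqZ_12 (d : ℕ) (hP : ∀ (K : ℕ) [NeZero K], StPw0G d K) (hS : StSplit) : StFqZ d := by
  classical
  intro K hKn X hX z k hk hzk hz1 r1 r2 hr1 hr12 e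
  have hz : ‖z‖ = 1 := Complex.norm_eq_one_of_pow_eq_one hzk hk.ne'
  have hK : 0 < K := Nat.pos_of_ne_zero (NeZero.ne K)
  have hd := d_pos e
  have hr2 : 0 < r2 := hr1.trans hr12
  obtain ⟨S, a0, M, hS1, ha0, hM1, H⟩ := cond hS hd hK hX hr2
  rw [Metric.tendsto_nhds]
  intro ε hε
  have hSm : 0 < S ^ X.length := by positivity
  set ε1 : ℝ := ε / (2 * S ^ X.length) with he1
  have he10 : 0 < ε1 := by positivity
  obtain ⟨X0, hX0⟩ := eventually_atTop.1
    ((tendsto_zero_iff_norm_tendsto_zero.1 (hP K z k hk hzk hz1 r1 r2 hr1.le hr12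
      (⟨0, e⟩ : Fq d K) rfl)).eventually (gt_mem_nhds he10))
  filter_upwards [H (max X0 1), err (S ^ X.length * (X.length * (Fintype.card (Cl d) *
    (176 * r2) * M ^ X.length))) S a0 ha0 (half_pos hε)] with N h1 h2
  obtain ⟨k1, k2, k3, k4, k5⟩ := h1
  rw [dist_zero_right, mpw_eq hd z k2]
  have hN0 : 0 < N := by linarith
  have h3 := main_ind hr1.le hr12 (⟨0, e⟩ : Fq d K) hz (G := 0) (fun _ _ => by ring)
    (ε := ε1) (X0 := max X0 1) (R := (⌈r2 * N⌉₊ : ℝ)) (le_max_right _ _) he10.le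
    (fun N' hN' _ => by
      rw [sub_zero]
      exact (hX0 N' ((le_max_left _ _).trans hN')).le) hM1 hS1
    (δ := S * N ^ (-a0)) (by positivity) (LL d K N X) k3 N k4 (Nat.le_ceil _)
  rw [mul_zero, sub_zero, LL_length] at h3
  refine lt_of_le_of_lt h3 ?_
  have h4 : S ^ X.length * ε1 = ε / 2 := by
    rw [he1]; field_simp
  calc S ^ X.length * (ε1 + X.length * (Fintype.card (Cl d) * (176 * r2) * M ^ X.length *
      (S * N ^ (-a0)))) = S ^ X.length * ε1 + S ^ X.length * (X.length * (Fintype.card (Cl d) *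
      (176 * r2) * M ^ X.length)) * (S * N ^ (-a0)) := by ring
    _ < ε / 2 + ε / 2 := by linarith
    _ = ε := by ring

namespace FqA12

/-- the sums over all primitive vectors are bounded -/
theorem mpa_le {d K : ℕ} [NeZero K] {r1 r2 N : ℝ} (hr1 : 0 ≤ r1) (hr2 : 0 < r2) (hN : 0 < N)
    (f : Fq d K) : ‖Mpa (fun (_ : Cl d) (_ : V) => (1 : ℂ)) r1 r2 N f‖ ≤
      Fintype.card (Cl d) * (88 * r2) := by
  unfold Mpa
  rw [norm_mul, norm_div, norm_one, Complex.norm_real, Real.norm_of_nonneg hN.le]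
  have h1 : ∀ i : Cl d, ‖∑ v ∈ (Shg i (r1 * N) (r2 * N)).filter Prim, 1 * ch f i v‖ ≤
      88 * (r2 * N) := by
    intro i
    refine (norm_sum_le _ _).trans ?_
    have h2 : ∀ v ∈ (Shg i (r1 * N) (r2 * N)).filter Prim, ‖1 * ch f i v‖ ≤ 1 := by
      intro v hv
      rw [one_mul]
      exact norm_ch_le f i (mem_Shg.1 (mem_filter.1 hv).1).1
    refine (sum_le_sum h2).trans ?_
    rw [sum_const, nsmul_eq_mul, mul_one]
    have h3 := card_le i (a := r1 * N) (b := r2 * N) (by positivity) (by positivity)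
    refine le_trans ?_ h3
    exact_mod_cast card_filter_le _ _
  calc 1 / N * ‖∑ i : Cl d, ∑ v ∈ (Shg i (r1 * N) (r2 * N)).filter Prim, 1 * ch f i v‖
      ≤ 1 / N * ∑ _i : Cl d, 88 * (r2 * N) := by
        refine mul_le_mul_of_nonneg_left ?_ (by positivity)
        exact (norm_sum_le _ _).trans (sum_le_sum fun i _ => h1 i)
    _ = Fintype.card (Cl d) * (88 * r2) := by
        rw [sum_const, card_univ, nsmul_eq_mul]
        field_simp

/-- the product of the sums tends to the mean -/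
theorem lim_prod (hS : StSplit) {d K : ℕ} (hd : 0 < d) (hK : 0 < K) : ∀ X : List (ℝ × ℝ),
    (∀ I ∈ X, 0 < I.1 ∧ I.1 < I.2) →
    Tendsto (fun N : ℝ => ((LL d K N X).map sw2).prod) atTop (𝓝 (lam X))
  | [], _ => by
    unfold LL lam
    simp only [List.map_nil, List.prod_nil]
    exact tendsto_const_nhds
  | I :: X, h => by
    have h1 := lim_prod hS hd hK X fun J hJ => h J (List.mem_cons_of_mem _ hJ)
    have h2 := lim_one hS hd hK (h I List.mem_cons_self).1 (h I List.mem_cons_self).2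
    have h3 := h2.mul h1
    unfold lam at h3 ⊢
    rw [List.map_cons, List.prod_cons]
    exact h3

end FqA12

/-- row A5, `z = 1` -/
theorem stFqR_12 (d : ℕ) (hS : StSplit) : StFqR d := by
  classical
  intro K hKn X hX r1 r2 hr1 hr12 e
  have hK : 0 < K := Nat.pos_of_ne_zero (NeZero.ne K)
  have hd := d_pos e
  have hr2 : 0 < r2 := hr1.trans hr12
  obtain ⟨S, a0, M, hS1, ha0, hM1, H⟩ := cond hS hd hK hX hr2
  have hlim := lim_prod hS hd hK X hX.1
  rw [Metric.tendsto_nhds]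
  intro ε hε
  have hSm : 0 < S ^ X.length := by positivity
  set C1 : ℝ := Fintype.card (Cl d) * (88 * r2) with hC1
  have hC10 : 0 ≤ C1 := by positivity
  set ε1 : ℝ := ε / (4 * (S ^ X.length + |lam X| + 1)) with he1
  have he10 : 0 < ε1 := by positivity
  obtain ⟨N0, hN0, H0⟩ := prim_approx (d := d) (K := K) r1 r2 hr1.le hr12 e ε1 he10
  have e2 : ∀ᶠ N : ℝ in atTop, |((LL d K N X).map sw2).prod - lam X| < min 1 (ε / (4 * (C1 + 1))) := by
    have h1 := (Metric.tendsto_nhds.1 hlim) (min 1 (ε / (4 * (C1 + 1))))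
      (lt_min one_pos (by positivity))
    filter_upwards [h1] with N h2
    rwa [Real.dist_eq] at h2
  filter_upwards [H (max N0 1), err (S ^ X.length * (X.length * (Fintype.card (Cl d) *
    (176 * r2) * M ^ X.length))) S a0 ha0 (show 0 < ε / 4 by positivity), e2] with N h1 h2 h5
  obtain ⟨k1, k2, k3, k4, k5⟩ := h1
  rw [dist_zero_right]
  have hNp : 0 < N := by linarith
  set E : ℕ := ⌈r2 * N⌉₊ with hE
  set G : ℂ := LE e r1 r2 E with hG
  set c : ℝ := ((LL d K N X).map sw2).prod with hc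
  have h3 := main_ind hr1.le hr12 (⟨0, e⟩ : Fq d K) (z := 1) norm_one (G := G) (fun P hPA => by
      rw [one_mul, hG]
      exact LE_inv e r1 r2 E hPA)
    (ε := ε1) (X0 := max N0 1) (R := (E : ℝ)) (le_max_right _ _) he10.le
    (fun N' hN' hE' => by
      have h4 := H0 N' ((le_max_left _ _).trans hN') E hE'
      have h6 : Mpa (fun i v => gz 1 (rep i) v) r1 r2 N' (⟨0, e⟩ : Fq d K) =
          Mpa (fun _ _ => 1) r1 r2 N' (⟨0, e⟩ : Fq d K) := by
        unfold Mpa gz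
        simp only [one_pow]
      rw [h6]
      exact h4) hM1 hS1
    (δ := S * N ^ (-a0)) (by positivity) (LL d K N X) k3 N k4 (Nat.le_ceil _)
  rw [LL_length, ← hc] at h3
  have h4 := H0 N ((le_max_left _ _).trans k5) E (Nat.le_ceil _)
  have h6 := mpa_le hr1.le hr2 hNp (⟨0, e⟩ : Fq d K)
  rw [← hC1] at h6
  have e3 : Mpw (fun n => (tW X N n : ℂ) - (lam X : ℂ)) r1 r2 N (⟨0, e⟩ : Fq d K) =
      (Mpa (fun i v => gz 1 (rep i) v *
        (tup ((LL d K N X).map Prod.fst) ((rep i).q v).natAbs : ℂ)) r1 r2 N (⟨0, e⟩ : Fq d K) -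
        (c : ℂ) * G) - (c : ℂ) * (Mpa (fun _ _ => 1) r1 r2 N (⟨0, e⟩ : Fq d K) - G) +
        ((c : ℂ) - (lam X : ℂ)) * Mpa (fun _ _ => 1) r1 r2 N (⟨0, e⟩ : Fq d K) := by
    have e4 : Mpw (fun n => (tW X N n : ℂ) - (lam X : ℂ)) r1 r2 N (⟨0, e⟩ : Fq d K) =
        Mpw (fun n => 1 ^ Omn n * (tW X N n : ℂ)) r1 r2 N (⟨0, e⟩ : Fq d K) -
        (lam X : ℂ) * Mpa (fun _ _ => 1) r1 r2 N (⟨0, e⟩ : Fq d K) := by
      unfold Mpw Mpa gw
      rw [← mul_assoc, mul_comm (lam X : ℂ) (1 / (N : ℂ)), mul_assoc, ← mul_sub]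
      congr 1
      rw [mul_sum, ← sum_sub_distrib]
      refine sum_congr rfl fun i _ => ?_
      rw [mul_sum, ← sum_sub_distrib]
      refine sum_congr rfl fun v _ => ?_
      simp only [one_pow]
      ring
    rw [e4, mpw_eq hd 1 k2]
    ring
  rw [e3]
  have h7 : ‖(c : ℂ)‖ ≤ |lam X| + 1 := by
    rw [Complex.norm_real, Real.norm_eq_abs]
    have h8 : |c - lam X| < 1 := h5.trans_le (min_le_left _ _)
    calc |c| = |(c - lam X) + lam X| := by ring_nf
      _ ≤ |c - lam X| + |lam X| := abs_add_le _ _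
      _ ≤ |lam X| + 1 := by linarith
  have h8 : ‖(c : ℂ) - (lam X : ℂ)‖ ≤ ε / (4 * (C1 + 1)) := by
    rw [← Complex.ofReal_sub, Complex.norm_real, Real.norm_eq_abs]
    exact (h5.trans_le (min_le_right _ _)).le
  have t1 : ‖(c : ℂ) * (Mpa (fun _ _ => 1) r1 r2 N (⟨0, e⟩ : Fq d K) - G)‖ ≤
      (|lam X| + 1) * ε1 := by
    rw [norm_mul]
    exact mul_le_mul h7 h4 (norm_nonneg _) (by positivity)
  have t2 : ‖((c : ℂ) - (lam X : ℂ)) * Mpa (fun _ _ => 1) r1 r2 N (⟨0, e⟩ : Fq d K)‖ ≤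
      ε / (4 * (C1 + 1)) * C1 := by
    rw [norm_mul]
    exact mul_le_mul h8 h6 (norm_nonneg _) (by positivity)
  have t3 : ε / (4 * (C1 + 1)) * C1 ≤ ε / 4 := by
    rw [div_mul_eq_mul_div, div_le_div_iff₀ (by positivity) (by positivity)]
    nlinarith
  have t4 : (S ^ X.length + (|lam X| + 1)) * ε1 = ε / 4 := by
    rw [he1]
    field_simp
    ring
  refine lt_of_le_of_lt ((norm_add_le _ _).trans (add_le_add ((norm_sub_le _ _).trans
    (add_le_add h3 t1)) t2)) ?_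
  calc S ^ X.length * (ε1 + X.length * (Fintype.card (Cl d) * (176 * r2) * M ^ X.length *
      (S * N ^ (-a0)))) + (|lam X| + 1) * ε1 + ε / (4 * (C1 + 1)) * C1 =
      (S ^ X.length + (|lam X| + 1)) * ε1 + S ^ X.length * (X.length * (Fintype.card (Cl d) *
      (176 * r2) * M ^ X.length)) * (S * N ^ (-a0)) + ε / (4 * (C1 + 1)) * C1 := by ring
    _ < ε / 4 + ε / 4 + ε / 4 := by linarith
    _ < ε := by linarith

end Pool.Agent.Lib.MP_a17b09_nt.AN
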