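import Pool.Agent.Lib.MP_a17b09_nt.AN.TupH12
import Pool.Agent.Lib.MP_a17b09_nt.AN.FqA_12

/-!
AN (MP_a17b09_nt), row AH5 (positive discriminant): frequency `0` of the moment weights.  helper12.
-/

set_option autoImplicit false

open Filter Topology Finset

namespace Pool.Agent.Lib.MP_a17b09_nt.ANH

namespace FqAH12

open CH CH.PE HY MRH PQH.FreqH12 TupH12
open PQ (gw)
open PQH (Mph)
open AN (tup tW GoodL lam PW StSplit Sp)
open AN.Tup12 (sw2)
open AN.FqA12 (tup_congr mem_PW card_win exists_low sum_log err)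
open UpH70 (CT CT_nonneg)

variable {D : Dat}

/-! ### Arithmetic -/

/-- a prime divisor of a value of a primitive vector is split -/
theorem spl_of_dvd (i : Cx D) {v : V} (hv : Prim v) {p : ℕ} (hp : p.Prime)
    (hpK : ¬ p ∣ 2 * D.d * D.K) (h : (p : ℤ) ∣ (rp i).q v) : Spw D p := by
  refine ⟨hp, hpK, ?_⟩
  change ∃ r : ℤ, (p : ℤ) ∣ r ^ 2 - D.d
  have hD : (D.d : ℤ) = -(rp i).D := by rw [rp_D]; ring
  set Q := rp i with hQ
  have hinv : ∀ y : ℤ, ¬ (p : ℤ) ∣ y → ∃ s : ℤ, (p : ℤ) ∣ 1 - y * s := by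
    intro y hy
    have h1 : IsCoprime (p : ℤ) y := (Nat.prime_iff_prime_int.1 hp).coprime_iff_not_dvd.2 hy
    obtain ⟨u, s, hus⟩ := h1
    exact ⟨s, ⟨u, by linear_combination -hus⟩⟩
  by_cases hy : (p : ℤ) ∣ v.2
  · have hx : ¬ (p : ℤ) ∣ v.1 := by
      intro hx
      have h4 : (p : ℤ) ∣ (Int.gcd v.1 v.2 : ℤ) := Int.dvd_coe_gcd hx hy
      rw [show Int.gcd v.1 v.2 = 1 from hv] at h4
      have h5 : p ∣ 1 := by exact_mod_cast h4
      exact hp.one_lt.ne' (Nat.dvd_one.1 h5)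
    obtain ⟨s, t, ht⟩ := hinv v.1 hx
    obtain ⟨m, hm⟩ := h
    refine ⟨(2 * Q.c * v.2 + Q.b * v.1) * s, 4 * Q.c * m * s ^ 2 + Q.D * t * (1 + v.1 * s), ?_⟩
    rw [hD]
    unfold Form.q at hm
    unfold Form.D
    linear_combination (4 * Q.c * s ^ 2) * hm + ((4 * Q.a * Q.c - Q.b ^ 2) * (1 + v.1 * s)) * ht
  · obtain ⟨s, t, ht⟩ := hinv v.2 hy
    obtain ⟨m, hm⟩ := h
    refine ⟨(2 * Q.a * v.1 + Q.b * v.2) * s, 4 * Q.a * m * s ^ 2 + Q.D * t * (1 + v.2 * s), ?_⟩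
    rw [hD]
    unfold Form.q at hm
    unfold Form.D
    linear_combination (4 * Q.a * s ^ 2) * hm + ((4 * Q.a * Q.c - Q.b ^ 2) * (1 + v.2 * s)) * ht

/-! ### The conditions -/

open Classical in
/-- the split primes of the windows -/
noncomputable def LL (D : Dat) (x : ℝ) (X : List (ℝ × ℝ)) : List (Finset ℕ × ℝ) :=
  X.map (fun I => ((PW x I).filter (Spw D), x ^ I.2))

theorem LL_fst (D : Dat) (x : ℝ) (X : List (ℝ × ℝ)) : (LL D x X).map Prod.fst =
    (X.map (PW x)).map (fun W => by classical exact W.filter (Spw D)) := by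
  unfold LL
  rw [List.map_map, List.map_map]
  rfl

theorem LL_snd (D : Dat) (x : ℝ) (hx : 0 < x) (X : List (ℝ × ℝ)) :
    ((LL D x X).map Prod.snd).prod = x ^ (X.map Prod.snd).sum := by
  unfold LL
  induction X with
  | nil => simp
  | cons I X ih =>
    simp only [List.map_cons, List.prod_cons, List.sum_cons] at ih ⊢
    rw [ih, Real.rpow_add hx]

theorem sp_iff (D : Dat) (p : ℕ) : Sp (D.d : ℤ) D.K p ↔ Spw D p := by
  unfold Sp Spw Adm
  rw [Int.natAbs_natCast]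

/-- the sums over the split primes of the windows -/
theorem lim_one (hS : StSplit) (D : Dat) {I : ℝ × ℝ} (h1 : 0 < I.1)
    (h2 : I.1 < I.2) : Tendsto (fun N : ℝ => sw2 (by classical exact (PW N I).filter (Spw D),
      N ^ I.2)) atTop (𝓝 (Real.log (I.2 / I.1))) := by
  classical
  have hsq : ¬ IsSquare (D.d : ℤ) := by
    rw [Int.isSquare_natCast_iff]
    exact D.ns
  have h3 := hS (D.d : ℤ) hsq D.K D.Kpos I.1 I.2 h1 h2
  refine h3.congr fun N => ?_
  unfold sw2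
  simp only
  refine Finset.sum_congr ?_ fun _ _ => rfl
  ext p
  simp only [mem_filter, sp_iff]

/-- **the conditions hold for large `N`** -/
theorem cond (hS : StSplit) (D : Dat) {X : List (ℝ × ℝ)}
    (hX : GoodL X) {r2 : ℝ} (hr2 : 0 < r2) : ∃ (S a0 : ℝ) (M : ℕ), 1 ≤ S ∧ 0 < a0 ∧ 1 ≤ M ∧
    ∀ X0 : ℝ, ∀ᶠ N : ℝ in atTop, 1 < N ∧ (∀ I ∈ X, ∀ p ∈ PW N I, p.Prime ∧ 2 * D.d * D.K < p) ∧
      (∀ W ∈ LL D N X, Cnd D (⌈r2 * N⌉₊ : ℝ) M S (S * N ^ (-a0)) W) ∧
      X0 * ((LL D N X).map Prod.snd).prod ≤ N ∧ X0 ≤ N := by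
  classical
  obtain ⟨a0, ha0, hlow⟩ := exists_low X hX.1
  obtain ⟨hl0, hl1⟩ := sum_log X hX.1
  refine ⟨1 + (X.map (fun I => Real.log (I.2 / I.1))).sum, a0, ⌈2 / a0⌉₊ + 1, by linarith, ha0,
    by omega, fun X0 => ?_⟩
  set S : ℝ := 1 + (X.map (fun I => Real.log (I.2 / I.1))).sum with hSd
  have e1 : ∀ᶠ N : ℝ in atTop, ∀ I ∈ X.toFinset,
      sw2 ((PW N I).filter (Spw D), N ^ I.2) ≤ S := by
    refine (Filter.eventually_all_finset X.toFinset).2 fun I hI => ?_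
    rw [List.mem_toFinset] at hI
    obtain ⟨h1, h2⟩ := hX.1 I hI
    have h3 := (lim_one hS D h1 h2).eventually (gt_mem_nhds (lt_add_one _))
    filter_upwards [h3] with N h4
    have h5 := hl1 I hI
    refine h4.le.trans ?_
    rw [hSd]
    linarith
  have e2 : ∀ᶠ N : ℝ in atTop, ((2 * D.d * D.K : ℕ) : ℝ) ≤ N ^ a0 :=
    (tendsto_rpow_atTop ha0).eventually (eventually_ge_atTop _)
  have e3 : ∀ᶠ N : ℝ in atTop, |X0| ≤ N ^ (1 - (X.map Prod.snd).sum) :=
    (tendsto_rpow_atTop (by linarith [hX.2])).eventually (eventually_ge_atTop _)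
  filter_upwards [e1, e2, e3, eventually_gt_atTop 1, eventually_ge_atTop (r2 + 1),
    eventually_ge_atTop X0] with N k1 k2 k3 k4 k5 k6
  have hN0 : 0 < N := by linarith
  have hmem : ∀ I ∈ X, ∀ p ∈ PW N I, p.Prime ∧ N ^ a0 < p ∧ (p : ℝ) ≤ N ^ I.2 := by
    intro I hI p hp
    obtain ⟨h1, h2, h3⟩ := (mem_PW hN0.le).1 hp
    exact ⟨h1, lt_of_le_of_lt (Real.rpow_le_rpow_of_exponent_le k4.le (hlow I hI)) h2, h3⟩
  refine ⟨k4, fun I hI p hp => ?_, fun W hW => ?_, ?_, k6⟩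
  · obtain ⟨h1, h2, -⟩ := hmem I hI p hp
    refine ⟨h1, ?_⟩
    have := k2.trans_lt h2
    exact_mod_cast this
  · unfold LL at hW
    obtain ⟨I, hI, rfl⟩ := List.mem_map.1 hW
    have hsum := k1 I (List.mem_toFinset.2 hI)
    have hNa : 0 < N ^ a0 := Real.rpow_pos_of_pos hN0 _
    refine ⟨fun p hp => (mem_filter.1 hp).2, fun p hp => (hmem I hI p (mem_filter.1 hp).1).2.2,
      Real.rpow_pos_of_pos hN0 _, hsum, ?_, ?_⟩
    · have h1 : ∀ p ∈ (PW N I).filter (Spw D), 1 / (p : ℝ) ^ 2 ≤ 2 / (p : ℝ) * N ^ (-a0) := by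
        intro p hp
        obtain ⟨h1, h2, -⟩ := hmem I hI p (mem_filter.1 hp).1
        have hp0 : (0 : ℝ) < p := by exact_mod_cast h1.pos
        rw [Real.rpow_neg hN0.le, ← div_eq_mul_inv, div_div, div_le_div_iff₀ (by positivity)
          (by positivity)]
        nlinarith [mul_pos hp0 hNa]
      refine (sum_le_sum h1).trans ?_
      rw [← sum_mul]
      exact mul_le_mul_of_nonneg_right hsum (Real.rpow_nonneg hN0.le _)
    · intro n hn hnR
      have hR : (⌈r2 * N⌉₊ : ℝ) ≤ N ^ (2 : ℝ) := by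
        have h1 : (⌈r2 * N⌉₊ : ℝ) ≤ r2 * N + 1 := (Nat.ceil_lt_add_one (by positivity)).le
        have h2 : N ^ (2 : ℝ) = N * N := by
          rw [show (2 : ℝ) = ((2 : ℕ) : ℝ) by norm_num, Real.rpow_natCast]
          ring
        rw [h2]
        nlinarith
      refine (card_win k4 ha0 hR (fun p hp => ?_) hn hnR).trans (Nat.le_succ _)
      obtain ⟨h1, h2, -⟩ := hmem I hI p (mem_filter.1 hp).1
      exact ⟨h1, h2⟩
  · rw [LL_snd D N hN0]
    have h2 : 0 < N ^ (X.map Prod.snd).sum := Real.rpow_pos_of_pos hN0 _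
    calc X0 * N ^ (X.map Prod.snd).sum ≤
          N ^ (1 - (X.map Prod.snd).sum) * N ^ (X.map Prod.snd).sum :=
          mul_le_mul_of_nonneg_right ((le_abs_self _).trans k3) h2.le
      _ = N := by
          rw [← Real.rpow_add hN0]
          ring_nf
          exact Real.rpow_one N

theorem LL_length (D : Dat) (x : ℝ) (X : List (ℝ × ℝ)) : (LL D x X).length = X.length := by
  unfold LL
  rw [List.length_map]

/-- the moment weight in terms of the split primes -/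
theorem mpw_eq (z : ℂ) {X : List (ℝ × ℝ)} {r1 r2 N : ℝ}
    (h : ∀ I ∈ X, ∀ p ∈ PW N I, p.Prime ∧ 2 * D.d * D.K < p) (f : Fq D) :
    Mph (fun n => z ^ Omn n * (tW X N n : ℂ)) r1 r2 N f =
      Mpa (fun i v => gz z (rp i) v *
        (tup ((LL D N X).map Prod.fst) ((rp i).q v).natAbs : ℂ)) r1 r2 N f := by
  classical
  have hK := D.Kpos
  have hd := D.d_pos
  unfold Mph Mpa
  congr 1
  refine sum_congr rfl fun i _ => sum_congr rfl fun v hv => ?_
  have hv2 := (mem_filter.1 hv).2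
  have h1 : tW X N ((rp i).q v).natAbs = tup ((LL D N X).map Prod.fst)
      ((rp i).q v).natAbs := by
    unfold tW
    rw [LL_fst]
    convert tup_congr (P := Spw D) (n0 := ((rp i).q v).natAbs) (X.map (PW N)) ?_ _ dvd_rfl
    intro W hW p hp hpn
    obtain ⟨I, hI, rfl⟩ := List.mem_map.1 hW
    obtain ⟨h2, h3⟩ := h I hI p hp
    refine spl_of_dvd i hv2 h2 (fun h4 => ?_) (Int.natCast_dvd.2 hpn)
    have := Nat.le_of_dvd (by positivity) h4
    omega
  unfold gw gz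
  simp only
  rw [h1]
  rfl

end FqAH12

open CH CH.PE HY MRH PQH.FreqH12 TupH12 FqAH12
open PQ (gw)
open PQH (Mph)
open AN (tup tW GoodL lam PW StSplit Sp)
open AN.Tup12 (sw2)
open AN.FqA12 (tup_congr mem_PW card_win exists_low sum_log err)
open UpH70 (CT CT_nonneg)

/-- row AH5, `z ≠ 1` -/
theorem stFqZH_12 (d : ℕ) (hP : ∀ D : Dat, D.d = d → MRH.StPw0G D) (hS : StSplit) :
    StFqZH d := by
  classical
  intro D hDd X hX z k hk hzk hz1 r1 r2 hr1 hr12 e
  have hz : ‖z‖ = 1 := Complex.norm_eq_one_of_pow_eq_one hzk hk.ne'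
  have hCT := CT_nonneg D
  have hr2 : 0 < r2 := hr1.trans hr12
  obtain ⟨S, a0, M, hS1, ha0, hM1, H⟩ := cond hS D hX hr2
  rw [Metric.tendsto_nhds]
  intro ε hε
  have hSm : 0 < S ^ X.length := by positivity
  set ε1 : ℝ := ε / (2 * S ^ X.length) with he1
  have he10 : 0 < ε1 := by positivity
  obtain ⟨X0, hX0⟩ := eventually_atTop.1
    ((tendsto_zero_iff_norm_tendsto_zero.1 (hP D hDd z k hk hzk hz1 r1 r2 hr1.le hr12
      (⟨0, e⟩ : Fq D) rfl)).eventually (gt_mem_nhds he10))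
  filter_upwards [H (max X0 1), err (S ^ X.length * (X.length * (Fintype.card (Cx D) *
    (2 * CT D * r2) * M ^ X.length))) S a0 ha0 (half_pos hε)] with N h1 h2
  obtain ⟨k1, k2, k3, k4, k5⟩ := h1
  rw [dist_zero_right, mpw_eq z k2]
  have hN0 : 0 < N := by linarith
  have h3 := main_ind hr1.le hr12 (⟨0, e⟩ : Fq D) hz (G := 0) (fun _ _ => by ring)
    (ε := ε1) (X0 := max X0 1) (R := (⌈r2 * N⌉₊ : ℝ)) (le_max_right _ _) he10.le
    (fun N' hN' _ => by
      rw [sub_zero]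
      exact (hX0 N' ((le_max_left _ _).trans hN')).le) hM1 hS1
    (δ := S * N ^ (-a0)) (by positivity) (LL D N X) k3 N k4 (Nat.le_ceil _)
  rw [mul_zero, sub_zero, LL_length] at h3
  refine lt_of_le_of_lt h3 ?_
  have h4 : S ^ X.length * ε1 = ε / 2 := by
    rw [he1]; field_simp
  calc S ^ X.length * (ε1 + X.length * (Fintype.card (Cx D) * (2 * CT D * r2) * M ^ X.length *
      (S * N ^ (-a0)))) = S ^ X.length * ε1 + S ^ X.length * (X.length * (Fintype.card (Cx D) *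
      (2 * CT D * r2) * M ^ X.length)) * (S * N ^ (-a0)) := by ring
    _ < ε / 2 + ε / 2 := by linarith
    _ = ε := by ring

namespace FqAH12

/-- the sums over all primitive vectors are bounded -/
theorem mpa_le {D : Dat} {r1 r2 N : ℝ} (hr2 : 0 < r2) (hN : 0 < N)
    (f : Fq D) : ‖Mpa (fun (_ : Cx D) (_ : V) => (1 : ℂ)) r1 r2 N f‖ ≤
      Fintype.card (Cx D) * (CT D * r2) := by
  unfold Mpa
  rw [norm_mul, norm_div, norm_one, Complex.norm_real, Real.norm_of_nonneg hN.le]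
  have h1 : ∀ i : Cx D, ‖∑ v ∈ (Shg i (r1 * N) (r2 * N)).filter Prim, 1 * ch f i v‖ ≤
      CT D * (r2 * N) := by
    intro i
    refine (norm_sum_le _ _).trans ?_
    have h2 : ∀ v ∈ (Shg i (r1 * N) (r2 * N)).filter Prim, ‖1 * ch f i v‖ ≤ 1 := by
      intro v hv
      rw [one_mul]
      exact norm_ch_le f i v
    refine (sum_le_sum h2).trans ?_
    rw [sum_const, nsmul_eq_mul, mul_one]
    have h3 := card_le i (a := r1 * N) (b := r2 * N) (by positivity)
    refine le_trans ?_ h3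
    exact_mod_cast card_filter_le _ _
  calc 1 / N * ‖∑ i : Cx D, ∑ v ∈ (Shg i (r1 * N) (r2 * N)).filter Prim, 1 * ch f i v‖
      ≤ 1 / N * ∑ _i : Cx D, CT D * (r2 * N) := by
        refine mul_le_mul_of_nonneg_left ?_ (by positivity)
        exact (norm_sum_le _ _).trans (sum_le_sum fun i _ => h1 i)
    _ = Fintype.card (Cx D) * (CT D * r2) := by
        rw [sum_const, card_univ, nsmul_eq_mul]
        field_simp

/-- the product of the sums tends to the mean -/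
theorem lim_prod (hS : StSplit) (D : Dat) : ∀ X : List (ℝ × ℝ),
    (∀ I ∈ X, 0 < I.1 ∧ I.1 < I.2) →
    Tendsto (fun N : ℝ => ((LL D N X).map sw2).prod) atTop (𝓝 (lam X))
  | [], _ => by
    unfold LL lam
    simp only [List.map_nil, List.prod_nil]
    exact tendsto_const_nhds
  | I :: X, h => by
    have h1 := lim_prod hS D X fun J hJ => h J (List.mem_cons_of_mem _ hJ)
    have h2 := lim_one hS D (h I List.mem_cons_self).1 (h I List.mem_cons_self).2
    have h3 := h2.mul h1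
    unfold lam at h3 ⊢
    rw [List.map_cons, List.prod_cons]
    exact h3

end FqAH12

/-- row AH5, `z = 1` -/
theorem stFqRH_12 (d : ℕ) (hS : StSplit) : StFqRH d := by
  classical
  intro D hDd X hX r1 r2 hr1 hr12 e
  have hCT := CT_nonneg D
  have hr2 : 0 < r2 := hr1.trans hr12
  obtain ⟨S, a0, M, hS1, ha0, hM1, H⟩ := cond hS D hX hr2
  have hlim := lim_prod hS D X hX.1
  rw [Metric.tendsto_nhds]
  intro ε hε
  have hSm : 0 < S ^ X.length := by positivity
  set C1 : ℝ := Fintype.card (Cx D) * (CT D * r2) with hC1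
  have hC10 : 0 ≤ C1 := by positivity
  set ε1 : ℝ := ε / (4 * (S ^ X.length + |lam X| + 1)) with he1
  have he10 : 0 < ε1 := by positivity
  obtain ⟨N0, hN0, H0⟩ := prim_approx (D := D) r1 r2 hr1.le hr12 e ε1 he10
  have e2 : ∀ᶠ N : ℝ in atTop, |((LL D N X).map sw2).prod - lam X| < min 1 (ε / (4 * (C1 + 1))) := by
    have h1 := (Metric.tendsto_nhds.1 hlim) (min 1 (ε / (4 * (C1 + 1))))
      (lt_min one_pos (by positivity))
    filter_upwards [h1] with N h2
    rwa [Real.dist_eq] at h2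
  filter_upwards [H (max N0 1), err (S ^ X.length * (X.length * (Fintype.card (Cx D) *
    (2 * CT D * r2) * M ^ X.length))) S a0 ha0 (show 0 < ε / 4 by positivity), e2] with N h1 h2 h5
  obtain ⟨k1, k2, k3, k4, k5⟩ := h1
  rw [dist_zero_right]
  have hNp : 0 < N := by linarith
  set E : ℕ := ⌈r2 * N⌉₊ with hE
  set G : ℂ := LE e r1 r2 E with hG
  set c : ℝ := ((LL D N X).map sw2).prod with hc
  have h3 := main_ind hr1.le hr12 (⟨0, e⟩ : Fq D) (z := 1) norm_one (G := G) (fun P hPA => by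
      rw [one_mul, hG]
      exact LE_inv e r1 r2 E hPA)
    (ε := ε1) (X0 := max N0 1) (R := (E : ℝ)) (le_max_right _ _) he10.le
    (fun N' hN' hE' => by
      have h4 := H0 N' ((le_max_left _ _).trans hN') E hE'
      have h6 : Mpa (fun i v => gz 1 (rp i) v) r1 r2 N' (⟨0, e⟩ : Fq D) =
          Mpa (fun _ _ => 1) r1 r2 N' (⟨0, e⟩ : Fq D) := by
        unfold Mpa gz
        simp only [one_pow]
      rw [h6]
      exact h4) hM1 hS1
    (δ := S * N ^ (-a0)) (by positivity) (LL D N X) k3 N k4 (Nat.le_ceil _)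
  rw [LL_length, ← hc] at h3
  have h4 := H0 N ((le_max_left _ _).trans k5) E (Nat.le_ceil _)
  have h6 := mpa_le (r1 := r1) hr2 hNp (⟨0, e⟩ : Fq D)
  rw [← hC1] at h6
  have e3 : Mph (fun n => (tW X N n : ℂ) - (lam X : ℂ)) r1 r2 N (⟨0, e⟩ : Fq D) =
      (Mpa (fun i v => gz 1 (rp i) v *
        (tup ((LL D N X).map Prod.fst) ((rp i).q v).natAbs : ℂ)) r1 r2 N (⟨0, e⟩ : Fq D) -
        (c : ℂ) * G) - (c : ℂ) * (Mpa (fun _ _ => 1) r1 r2 N (⟨0, e⟩ : Fq D) - G) +
        ((c : ℂ) - (lam X : ℂ)) * Mpa (fun _ _ => 1) r1 r2 N (⟨0, e⟩ : Fq D) := by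
    have e4 : Mph (fun n => (tW X N n : ℂ) - (lam X : ℂ)) r1 r2 N (⟨0, e⟩ : Fq D) =
        Mph (fun n => 1 ^ Omn n * (tW X N n : ℂ)) r1 r2 N (⟨0, e⟩ : Fq D) -
        (lam X : ℂ) * Mpa (fun _ _ => 1) r1 r2 N (⟨0, e⟩ : Fq D) := by
      unfold Mph Mpa gw
      rw [← mul_assoc, mul_comm (lam X : ℂ) (1 / (N : ℂ)), mul_assoc, ← mul_sub]
      congr 1
      rw [mul_sum, ← sum_sub_distrib]
      refine sum_congr rfl fun i _ => ?_
      rw [mul_sum, ← sum_sub_distrib]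
      refine sum_congr rfl fun v _ => ?_
      simp only [one_pow]
      ring
    rw [e4, mpw_eq 1 k2]
    ring
  rw [e3]
  have h7 : ‖(c : ℂ)‖ ≤ |lam X| + 1 := by
    rw [Complex.norm_real, Real.norm_eq_abs]
    have h8 : |c - lam X| < 1 := h5.trans_le (min_le_left _ _)
    calc |c| = |(c - lam X) + lam X| := by ring_nf
      _ ≤ |c - lam X| + |lam X| := abs_add_le _ _
      _ ≤ |lam X| + 1 := by linarith
  have h8 : ‖(c : ℂ) - (lam X : ℂ)‖ ≤ ε / (4 * (C1 + 1)) := by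
    rw [← Complex.ofReal_sub, Complex.norm_real, Real.norm_eq_abs]
    exact (h5.trans_le (min_le_right _ _)).le
  have t1 : ‖(c : ℂ) * (Mpa (fun _ _ => 1) r1 r2 N (⟨0, e⟩ : Fq D) - G)‖ ≤
      (|lam X| + 1) * ε1 := by
    rw [norm_mul]
    exact mul_le_mul h7 h4 (norm_nonneg _) (by positivity)
  have t2 : ‖((c : ℂ) - (lam X : ℂ)) * Mpa (fun _ _ => 1) r1 r2 N (⟨0, e⟩ : Fq D)‖ ≤
      ε / (4 * (C1 + 1)) * C1 := by
    rw [norm_mul]
    exact mul_le_mul h8 h6 (norm_nonneg _) (by positivity)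
  have t3 : ε / (4 * (C1 + 1)) * C1 ≤ ε / 4 := by
    rw [div_mul_eq_mul_div, div_le_div_iff₀ (by positivity) (by positivity)]
    nlinarith
  have t4 : (S ^ X.length + (|lam X| + 1)) * ε1 = ε / 4 := by
    rw [he1]
    field_simp
    ring
  refine lt_of_le_of_lt ((norm_add_le _ _).trans (add_le_add ((norm_sub_le _ _).trans
    (add_le_add h3 t1)) t2)) ?_
  calc S ^ X.length * (ε1 + X.length * (Fintype.card (Cx D) * (2 * CT D * r2) * M ^ X.length *
      (S * N ^ (-a0)))) + (|lam X| + 1) * ε1 + ε / (4 * (C1 + 1)) * C1 =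
      (S ^ X.length + (|lam X| + 1)) * ε1 + S ^ X.length * (X.length * (Fintype.card (Cx D) *
      (2 * CT D * r2) * M ^ X.length)) * (S * N ^ (-a0)) + ε / (4 * (C1 + 1)) * C1 := by ring
    _ < ε / 4 + ε / 4 + ε / 4 := by linarith
    _ < ε := by linarith

end Pool.Agent.Lib.MP_a17b09_nt.ANH
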