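import Pool.Agent.Lib.MP_a17b09_nt.AN.Stmts3

/-!
Project AN, row A5c (helper9): the moment weights without a character, from Parseval at the
frequency `0`.
-/

set_option autoImplicit false

open Filter Topology Finset

namespace Pool.Agent.Lib.MP_a17b09_nt.AN

open CH CH.PE MRSG MRS
open PQ (B1 Wy gw gcw Mpw Apx Fr0 DilW TwW)

namespace FC9

/-- a family whose squares are summands of a null function is null -/
theorem null_of_sq {f : ℝ → ℂ} {S : ℝ → ℝ} (hS : Tendsto S atTop (𝓝 0))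
    (h : ∀ N, ‖f N‖ ^ 2 ≤ S N) : Tendsto f atTop (𝓝 0) := by
  rw [tendsto_zero_iff_norm_tendsto_zero]
  have h1 : Tendsto (fun N => Real.sqrt (S N)) atTop (𝓝 0) := by
    have := (Real.continuous_sqrt.tendsto 0).comp hS
    rw [Real.sqrt_zero] at this; exact this
  refine squeeze_zero (fun N => norm_nonneg _) (fun N => ?_) h1
  exact Real.le_sqrt_of_sq_le (h N)

end FC9

/-- (A5c) -/
theorem stFqC_9 {d : ℕ} (hR : StFqR d) (hPar : PQ.StParW d 1) : StFqC d := by
  classical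
  intro X hX r1 r2 h1 h12
  set w : ℝ → ℕ → ℂ := fun N n => (tW X N n : ℂ) - (lam X : ℂ) with hw
  have hT : Tendsto (fun N : ℝ => ∑ k : Fin (mm d 1 0),
      ‖Mpw (w N) r1 r2 N (⟨0, k⟩ : Fq d 1)‖ ^ 2) atTop (𝓝 0) := by
    have h2 : ∀ k ∈ (Finset.univ : Finset (Fin (mm d 1 0))), Tendsto (fun N : ℝ =>
        ‖Mpw (w N) r1 r2 N (⟨0, k⟩ : Fq d 1)‖ ^ 2) atTop (𝓝 0) := fun k _ => by
      have h3 := (hR 1 X hX r1 r2 h1 h12 k).norm.pow 2
      simpa using h3
    simpa using tendsto_finsetSum _ h2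
  have hV : ∀ ia : Cl d × (ZMod 1 × ZMod 1), Tendsto (fun N : ℝ =>
      PQ.VPw d 1 (w N) r1 r2 N 0 ia) atTop (𝓝 0) := fun ia =>
    FC9.null_of_sq hT fun N => by
      obtain ⟨-, -, -, h5⟩ := hPar (w N) r1 r2 N 0
      rw [h5]
      exact Finset.single_le_sum (f := fun ia => ‖PQ.VPw d 1 (w N) r1 r2 N 0 ia‖ ^ 2)
        (fun ia _ => by positivity) (Finset.mem_univ ia)
  have hsum : Tendsto (fun N : ℝ => ∑ ia : Cl d × (ZMod 1 × ZMod 1),
      PQ.VPw d 1 (w N) r1 r2 N 0 ia) atTop (𝓝 0) := by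
    simpa using tendsto_finsetSum (Finset.univ : Finset (Cl d × (ZMod 1 × ZMod 1)))
      (fun ia _ => hV ia)
  have hre := (Complex.continuous_re.tendsto 0).comp hsum
  rw [Complex.zero_re] at hre
  refine hre.congr fun N => ?_
  have e1 : ∑ ia : Cl d × (ZMod 1 × ZMod 1), PQ.VPw d 1 (w N) r1 r2 N 0 ia =
      (((1 / N) * ∑ i : Cl d, ∑ v ∈ (Shg i (r1 * N) (r2 * N)).filter Prim,
        ((tW X N ((rep i).q v).natAbs : ℝ) - lam X) : ℝ) : ℂ) := by
    rw [Fintype.sum_prod_type]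
    push_cast
    rw [Finset.mul_sum]
    refine Finset.sum_congr rfl fun i _ => ?_
    rw [Finset.mul_sum]
    unfold PQ.VPw
    simp only [vec_apply, zpow_zero, mul_one]
    rw [Finset.sum_fiberwise]
    rfl
  simp only [Function.comp]
  rw [e1, Complex.ofReal_re]

end Pool.Agent.Lib.MP_a17b09_nt.AN
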