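import Pool.Agent.Lib.MP_a17b09_nt.AN.StmtsH3
import Pool.Agent.Lib.MP_a17b09_nt.AN.FqC_9

/-!
Project AN, row AH5c (helper9): the moment weights without a character for positive nonsquare
discriminant, from Parseval at the frequency `0`.
-/

set_option autoImplicit false

open Filter Topology Finset

namespace Pool.Agent.Lib.MP_a17b09_nt.ANH

open CH CH.PE HY HY.S68 MRH
open PQ (B1 Wy gw gcw TwW)
open PQH (Mph ApxH Fr0H DilHW)
open AN (Ev ind wz wd Dens GoodL lam tW TwCon PairsG PairsA)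

/-- (AH5c) -/
theorem stFqCH_9 {d : ℕ} (hR : StFqRH d) (hPar : ∀ D : Dat, PQH.StParH D) : StFqCH d := by
  classical
  intro D hD X hX r1 r2 h1 h12
  set w : ℝ → ℕ → ℂ := fun N n => (tW X N n : ℂ) - (lam X : ℂ) with hw
  have hT : Tendsto (fun N : ℝ => ∑ k : Fin (mm D 0),
      ‖Mph (w N) r1 r2 N (⟨0, k⟩ : Fq D)‖ ^ 2) atTop (𝓝 0) := by
    have h2 : ∀ k ∈ (Finset.univ : Finset (Fin (mm D 0))), Tendsto (fun N : ℝ =>
        ‖Mph (w N) r1 r2 N (⟨0, k⟩ : Fq D)‖ ^ 2) atTop (𝓝 0) := fun k _ => by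
      have h3 := (hR D hD X hX r1 r2 h1 h12 k).norm.pow 2
      simpa using h3
    simpa using tendsto_finsetSum _ h2
  have hV : ∀ ia : Cx D × (ZMod D.K × ZMod D.K), Tendsto (fun N : ℝ =>
      PQH.VPh D (w N) r1 r2 N 0 ia) atTop (𝓝 0) := fun ia =>
    AN.FC9.null_of_sq hT fun N => by
      obtain ⟨-, -, -, h5⟩ := hPar D (w N) r1 r2 N 0
      rw [h5]
      exact Finset.single_le_sum (f := fun ia => ‖PQH.VPh D (w N) r1 r2 N 0 ia‖ ^ 2)
        (fun ia _ => by positivity) (Finset.mem_univ ia)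
  have hsum : Tendsto (fun N : ℝ => ∑ ia : Cx D × (ZMod D.K × ZMod D.K),
      PQH.VPh D (w N) r1 r2 N 0 ia) atTop (𝓝 0) := by
    simpa using tendsto_finsetSum (Finset.univ : Finset (Cx D × (ZMod D.K × ZMod D.K)))
      (fun ia _ => hV ia)
  have hre := (Complex.continuous_re.tendsto 0).comp hsum
  rw [Complex.zero_re] at hre
  refine hre.congr fun N => ?_
  have e1 : ∑ ia : Cx D × (ZMod D.K × ZMod D.K), PQH.VPh D (w N) r1 r2 N 0 ia =
      (((1 / N) * ∑ i : Cx D, ∑ v ∈ (Shg i (r1 * N) (r2 * N)).filter Prim,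
        ((tW X N ((rp i).q v).natAbs : ℝ) - lam X) : ℝ) : ℂ) := by
    rw [Fintype.sum_prod_type]
    push_cast
    rw [Finset.mul_sum]
    refine Finset.sum_congr rfl fun i _ => ?_
    rw [Finset.mul_sum]
    unfold PQH.VPh
    simp only [vec_apply, zpow_zero, mul_one]
    rw [Finset.sum_fiberwise]
    rfl
  simp only [Function.comp]
  rw [e1, Complex.ofReal_re]

end Pool.Agent.Lib.MP_a17b09_nt.ANH
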