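import Pool.Agent.Lib.MP_a17b09_nt.AN.Stmts3
import Pool.Agent.Lib.MP_a17b09_nt.PQH.Stmts99

/-!
Project AN = PD (MP_a17b09_nt): statements for positive nonsquare discriminant.  `AN/Stmts3` word by
word with `ApxH`, `Fr0H`, `DilHW`, `HSystem` of `PQH/Stmts99`; the events, the weights `ind`, `wz`,
`wd`, the moment weights `tup`, `tW`, `lam`, `Dens`, `TwCon`, `CWG`, `PairsG`, `PairsA` and the rows
`StPt`, `StInt`, `StNullI`, `StDen`, `StSplit`, `StFinG`, `StPrG`, `StOk` are those of `AN/Stmts3`.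
-/

set_option autoImplicit false

open Filter Topology Finset

namespace Pool.Agent.Lib.MP_a17b09_nt.ANH

open CH CH.PE HY HY.S68 MRH
open PQ (B1 Wy gw gcw TwW)
open PQH (Mph ApxH Fr0H DilHW)
open AN (Ev ind wz wd Dens GoodL lam tW TwCon PairsG PairsA)

/-- a set `b` of integers of density `δ` to which the machine of PQH applies, discriminant `d` -/
structure GWtH (d : ℕ) (b : ℕ → Prop) (δ : ℝ) : Prop where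
  nonneg : 0 ≤ δ
  le_one : δ ≤ 1
  apx : ∃ c0 : ℝ, 0 < c0 ∧ (∀ z : ℂ, ‖z‖ = 1 → ApxH d z c0 (wz z b)) ∧ ApxH d 1 c0 (wd δ b)
  dil : ∀ (ι : Type) [Fintype ι] (S : HSystem ι), S.d = d →
    (∀ z : ℂ, ‖z‖ = 1 → DilHW S z (wz z b)) ∧ DilHW S 1 (wd δ b)
  fr : Fr0H d (wd δ b)
  frz : ∀ (z : ℂ) (k : ℕ), 0 < k → z ^ k = 1 → z ≠ 1 → Fr0H d (wz z b)

/-- (GH7) the twisted sums (fork of XH7) -/
def StTwGH : Prop := ∀ a b c : ℤ, 0 < a → ∀ d : ℕ, b ^ 2 - 4 * a * c = d → ¬ IsSquare d →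
  ∀ (A B : ℕ → Prop) (δ δ' : ℝ), GWtH d A δ → GWtH d B δ' →
  ∀ (h : ℕ), 0 < h → ∀ (t0 : ℕ) (α β : ℝ), 0 < α → α < β →
  TwCon a b c α β h t0 A B (δ * δ')

/-- (AH2) few vectors of a sector have a prime factor in a window of bounded ratio -/
def StNullAH (d : ℕ) : Prop := ∀ Q : Form, Hyp d Q → ∀ T : ℝ, 0 < T → ∀ η C : ℝ, 0 < η → η < 1 →
  1 < C → ∀ ε : ℝ, 0 < ε → ∃ N0 : ℕ, ∀ N : ℕ, N0 ≤ N →
  {v : V | Sec Q T v ∧ (Q.q v : ℝ) ≤ N ∧ ∃ p : ℕ, p.Prime ∧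
    p ∣ (Q.q v).natAbs ∧ (N : ℝ) ^ η / C < p ∧ (p : ℝ) ≤ C * (N : ℝ) ^ η}.Finite ∧
  ({v : V | Sec Q T v ∧ (Q.q v : ℝ) ≤ N ∧ ∃ p : ℕ, p.Prime ∧
    p ∣ (Q.q v).natAbs ∧ (N : ℝ) ^ η / C < p ∧ (p : ℝ) ≤ C * (N : ℝ) ^ η}.ncard : ℝ) ≤ ε * N

/-- (AH3) the weights are multiplicative up to small sets (from `StNullAH`) -/
def StApxAH (d : ℕ) : Prop := ∀ E : Ev, E.Ok → ∃ c0 : ℝ, 0 < c0 ∧
  (∀ z : ℂ, ‖z‖ = 1 → ApxH d z c0 (wz z E.Is)) ∧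
  ∀ δ : ℝ, 0 ≤ δ → δ ≤ 1 → ApxH d 1 c0 (wd δ E.Is)

/-- (AH4) the weights satisfy `DilHW` (from `StNullAH`) -/
def StDilAH : Prop := ∀ (ι : Type) [Fintype ι] (S : HSystem ι) (E : Ev), E.Ok →
  (∀ z : ℂ, ‖z‖ = 1 → DilHW S z (wz z E.Is)) ∧
  ∀ δ : ℝ, 0 ≤ δ → δ ≤ 1 → DilHW S 1 (wd δ E.Is)

/-- (AH5z) frequency `0` of the moment weights, `z ≠ 1` (from `StSplit`) -/
def StFqZH (d : ℕ) : Prop := ∀ D : Dat, D.d = d → ∀ X : List (ℝ × ℝ), GoodL X →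
  ∀ (z : ℂ) (k : ℕ), 0 < k → z ^ k = 1 → z ≠ 1 → ∀ r1 r2 : ℝ, 0 < r1 → r1 < r2 →
  ∀ e : Fin (mm D 0), Tendsto (fun N : ℝ =>
    Mph (fun n => z ^ Omn n * (tW X N n : ℂ)) r1 r2 N (⟨0, e⟩ : Fq D)) atTop (𝓝 0)

/-- (AH5r) frequency `0` of the moment weights, `z = 1` (from `StSplit`) -/
def StFqRH (d : ℕ) : Prop := ∀ D : Dat, D.d = d → ∀ X : List (ℝ × ℝ), GoodL X →
  ∀ r1 r2 : ℝ, 0 < r1 → r1 < r2 → ∀ e : Fin (mm D 0), Tendsto (fun N : ℝ =>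
    Mph (fun n => (tW X N n : ℂ) - (lam X : ℂ)) r1 r2 N (⟨0, e⟩ : Fq D)) atTop (𝓝 0)

/-- (AH5c) the same without a character (from `StFqRH`, `StParH`) -/
def StFqCH (d : ℕ) : Prop := ∀ D : Dat, D.d = d → ∀ X : List (ℝ × ℝ), GoodL X →
  ∀ r1 r2 : ℝ, 0 < r1 → r1 < r2 →
  Tendsto (fun N : ℝ => (1 / N) * ∑ i : Cx D, ∑ v ∈ (Shg i (r1 * N) (r2 * N)).filter Prim,
    ((tW X N ((rp i).q v).natAbs : ℝ) - lam X)) atTop (𝓝 0)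

/-- (AH8) frequency `0` of the events (from `StNullAH`, `StFqZH`, `StFqRH`, `StFqCH`) -/
def StFrAH (d : ℕ) : Prop := ∀ (E : Ev) (δ : ℝ), E.Ok → Dens E δ → Fr0H d (wd δ E.Is) ∧
  ∀ (z : ℂ) (k : ℕ), 0 < k → z ^ k = 1 → z ≠ 1 → Fr0H d (wz z E.Is)

/-- (AH9) the events have the structure `GWtH` (from `StApxAH`, `StDilAH`, `StFrAH`) -/
def StGAH (d : ℕ) : Prop := ∀ (E : Ev) (δ : ℝ), E.Ok → Dens E δ → GWtH d E.Is δ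

/-- (AH10) positive nonsquare discriminant (from `StGAH`, `StTwGH`, `StFinG`, `StPrG`,
`HY.StHMainS`) -/
def StEndAH : Prop := ∀ a b c : ℤ, 0 < a → ∀ d : ℕ, b ^ 2 - 4 * a * c = d → ¬ IsSquare d →
  ∀ (h t₀ : ℕ), 0 < h → ∀ (α β : ℝ), 0 < α → α < β → PairsA a b c h t₀ α β

end Pool.Agent.Lib.MP_a17b09_nt.ANH
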