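import Pool.Agent.Lib.MP_a17b09_nt.AN.FrCore_42
import Pool.Agent.Lib.MP_a17b09_nt.AN.StmtsH3
import Pool.Agent.Lib.MP_a17b09_nt.MRH.Up70
import Pool.Agent.Lib.MP_a17b09_nt.PQH.F4_42

/-!
AN (MP_a17b09_nt), row AH8 (positive nonsquare discriminant): the frequencies `0` of the weights of
an event tend to zero.  helper42.  Fork of `AN/FrA_42`.
-/

set_option autoImplicit false

open Filter Topology Finset

namespace Pool.Agent.Lib.MP_a17b09_nt.ANH

open CH CH.PE HY HY.S68 MRH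
open PQ (gw)
open PQH (Mph Fr0H)
open AN (Ev ind wz wd Dens GoodL lam tW)
open AN.Fr42 (Dta core)

namespace Fr42H

/-- the primitive vectors of the sectors of all classes -/
noncomputable def SS (D : Dat) (r1 r2 N : ℝ) : Finset (Σ _ : Cx D, V) :=
  (Finset.univ : Finset (Cx D)).sigma fun i => (Shg i (r1 * N) (r2 * N)).filter Prim

/-- the value of the form -/
noncomputable def nv {D : Dat} (s : Σ _ : Cx D, V) : ℕ := ((rp s.1).q s.2).natAbs

theorem mph_eq {D : Dat} (w : ℕ → ℂ) (r1 r2 N : ℝ) (f : Fq D) :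
    Mph w r1 r2 N f = (1 / (N : ℂ)) * ∑ s ∈ SS D r1 r2 N, w (nv s) * ch f s.1 s.2 := by
  unfold Mph SS
  rw [sum_sigma]
  rfl

/-- few vectors have a prime near `N ^ θ` -/
theorem fewθ {D : Dat} (hNull : StNullAH D.d) (i : Cx D) {θ : ℝ} (h0 : 0 < θ) (h1 : θ < 1)
    {r1 r2 : ℝ} (hr1 : 0 < r1) (hr12 : r1 < r2) (ε : ℝ) (hε : 0 < ε) : ∀ᶠ N : ℝ in atTop,
    ∀ B : Finset V, (∀ v ∈ B, v ∈ Shg i (r1 * N) (r2 * N) ∧ ∃ r : ℕ, r.Prime ∧
      r ∣ ((rp i).q v).natAbs ∧ N ^ θ / (1 + r2 + 1 / r1) < r ∧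
      (r : ℝ) ≤ (1 + r2 + 1 / r1) * N ^ θ) → (B.card : ℝ) ≤ ε * N := by
  classical
  have hr2 : 0 < r2 := hr1.trans hr12
  have hi : 0 < 1 / r1 := by positivity
  set C : ℝ := (1 + r2) * (1 + r2 + 1 / r1) with hC
  have hC1 : 1 < C := by
    rw [hC]
    nlinarith [mul_pos hr2 hi, mul_pos hr2 hr2]
  have hε' : 0 < ε / (1 + r2) := by positivity
  obtain ⟨M1, hM1⟩ := hNull (rp i) (rp_hyp i) D.T D.T_pos θ C h0 h1 hC1 (ε / (1 + r2)) hε'
  filter_upwards [eventually_ge_atTop (M1 : ℝ), eventually_ge_atTop (1 / r2),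
    eventually_ge_atTop 1] with N hN1 hN3 hN4 B hB
  have hNp : 0 < N := by linarith
  have hN5 : 1 ≤ r2 * N := by
    rw [div_le_iff₀ hr2] at hN3
    linarith
  set n : ℕ := ⌊(1 + r2) * N⌋₊ with hn
  have hnu : (n : ℝ) ≤ (1 + r2) * N := Nat.floor_le (by positivity)
  have hnr : r2 * N ≤ n := by
    have h2 : (1 + r2) * N < n + 1 := Nat.lt_floor_add_one _
    have h3 : (1 + r2) * N = N + r2 * N := by ring
    linarith
  have hnl : N ≤ n := by
    have h2 : (1 + r2) * N < n + 1 := Nat.lt_floor_add_one _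
    have h3 : (1 + r2) * N = N + r2 * N := by ring
    linarith
  have hnp : (0 : ℝ) < n := lt_of_lt_of_le hNp hnl
  obtain ⟨hF1, hA1⟩ := hM1 n (by exact_mod_cast hN1.trans hnl)
  set A1 : Set V := {v : V | Sec (rp i) D.T v ∧ ((rp i).q v : ℝ) ≤ n ∧ ∃ p : ℕ, p.Prime ∧
    p ∣ ((rp i).q v).natAbs ∧ (n : ℝ) ^ θ / C < p ∧
    (p : ℝ) ≤ C * (n : ℝ) ^ θ} with hA1d
  have hsub : (B : Set V) ⊆ A1 := by
    intro v hv
    obtain ⟨hv0, r, hr, hrm, ha, hb⟩ := hB v hv
    rw [mem_Shg] at hv0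
    obtain ⟨hsec, hv1, hv2⟩ := hv0
    have hNθ : 0 < N ^ θ := Real.rpow_pos_of_pos hNp θ
    have e1 : N ^ θ ≤ (n : ℝ) ^ θ := Real.rpow_le_rpow hNp.le hnl h0.le
    have e2 : (n : ℝ) ^ θ ≤ (1 + r2) * N ^ θ := by
      calc (n : ℝ) ^ θ ≤ ((1 + r2) * N) ^ θ := Real.rpow_le_rpow hnp.le hnu h0.le
        _ = (1 + r2) ^ θ * N ^ θ := Real.mul_rpow (by linarith) hNp.le
        _ ≤ (1 + r2) * N ^ θ := by
            refine mul_le_mul_of_nonneg_right ?_ hNθ.le
            have h4 : (1 + r2) ^ θ ≤ (1 + r2) ^ (1 : ℝ) :=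
              Real.rpow_le_rpow_of_exponent_le (by linarith) h1.le
            rwa [Real.rpow_one] at h4
    have h3 : 0 ≤ 1 + r2 + 1 / r1 := by positivity
    have hlow : (n : ℝ) ^ θ / C < r := by
      refine lt_of_le_of_lt ?_ ha
      rw [hC, div_le_div_iff₀ (by positivity) (by positivity)]
      calc (n : ℝ) ^ θ * (1 + r2 + 1 / r1) ≤ (1 + r2) * N ^ θ * (1 + r2 + 1 / r1) :=
            mul_le_mul_of_nonneg_right e2 h3
        _ = N ^ θ * ((1 + r2) * (1 + r2 + 1 / r1)) := by ring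
    have hup : (r : ℝ) ≤ C * (n : ℝ) ^ θ := by
      refine hb.trans ?_
      have h4 : 1 + r2 + 1 / r1 ≤ C := by
        rw [hC]
        nlinarith [mul_nonneg hr2.le h3]
      calc (1 + r2 + 1 / r1) * N ^ θ ≤ C * N ^ θ := mul_le_mul_of_nonneg_right h4 hNθ.le
        _ ≤ C * (n : ℝ) ^ θ := mul_le_mul_of_nonneg_left e1 (by linarith)
    exact ⟨hsec, hv2.trans hnr, r, hr, hrm, hlow, hup⟩
  have hcard : (B.card : ℝ) ≤ A1.ncard := by
    have h2 := Set.ncard_le_ncard hsub hF1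
    rw [Set.ncard_coe_finset] at h2
    exact_mod_cast h2
  calc (B.card : ℝ) ≤ A1.ncard := hcard
    _ ≤ ε / (1 + r2) * n := hA1
    _ ≤ ε / (1 + r2) * ((1 + r2) * N) := mul_le_mul_of_nonneg_left hnu (by positivity)
    _ = ε * N := by field_simp

theorem dta {D : Dat} (hNull : StNullAH D.d) (hC : StFqCH D.d) {r1 r2 : ℝ} (hr1 : 0 < r1)
    (hr12 : r1 < r2) : Dta (SS D r1 r2) nv r1 r2 (UpH70.CT D * r2) := by
  classical
  have hr2 : 0 < r2 := hr1.trans hr12
  refine ⟨hr1, hr12, ?_, ?_, ?_, ?_⟩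
  · rintro N ⟨i, v⟩ hs
    unfold SS at hs
    rw [mem_sigma, mem_filter, mem_Shg] at hs
    obtain ⟨-, ⟨hsec, hv1, hv2⟩, -⟩ := hs
    have hqpos := hsec.1.q_pos (rp_hyp i)
    have hmq : (((rp i).q v).natAbs : ℤ) = (rp i).q v := Int.natAbs_of_nonneg hqpos.le
    have hmr : ((nv (⟨i, v⟩ : Σ _ : Cx D, V) : ℕ) : ℝ) = ((rp i).q v : ℝ) := by
      unfold nv
      dsimp only
      rw [← Int.cast_natCast (R := ℝ) (((rp i).q v).natAbs), hmq]
    refine ⟨by rw [hmr]; exact hv1, by rw [hmr]; exact hv2, ?_⟩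
    have h3 : (1 : ℝ) ≤ (nv (⟨i, v⟩ : Σ _ : Cx D, V) : ℕ) := by
      rw [hmr]
      exact_mod_cast hqpos
    exact_mod_cast h3
  · intro N hN
    unfold SS
    rw [card_sigma]
    push_cast
    have h1 : ∀ i ∈ (Finset.univ : Finset (Cx D)),
        (((Shg i (r1 * N) (r2 * N)).filter Prim).card : ℝ) ≤
        (UpH70.card_Shg i).choose * (r2 * N) := by
      intro i _
      refine le_trans ?_ ((UpH70.card_Shg i).choose_spec.2 (r1 * N) (r2 * N) (by positivity))
      exact_mod_cast card_le_card (filter_subset _ _)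
    refine (sum_le_sum h1).trans (le_of_eq ?_)
    rw [← sum_mul]
    unfold UpH70.CT
    ring
  · intro θ h0 h1 ε hε
    have h5 : ∀ᶠ N : ℝ in atTop, ∀ i : Cx D, ∀ B : Finset V,
        (∀ v ∈ B, v ∈ Shg i (r1 * N) (r2 * N) ∧ ∃ r : ℕ, r.Prime ∧
        r ∣ ((rp i).q v).natAbs ∧ N ^ θ / (1 + r2 + 1 / r1) < r ∧
        (r : ℝ) ≤ (1 + r2 + 1 / r1) * N ^ θ) →
        (B.card : ℝ) ≤ ε / (Fintype.card (Cx D) + 1) * N :=
      Filter.eventually_all.2 fun i => fewθ hNull i h0 h1 hr1 hr12 _ (by positivity)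
    filter_upwards [h5, eventually_gt_atTop 0] with N k1 hN B hB
    have h6 : B ⊆ (Finset.univ : Finset (Cx D)).sigma
        fun i => (B.filter (fun s => s.1 = i)).image (fun s => s.2) := by
      rintro ⟨i, v⟩ hs
      rw [mem_sigma]
      refine ⟨mem_univ _, ?_⟩
      rw [mem_image]
      exact ⟨⟨i, v⟩, mem_filter.2 ⟨hs, rfl⟩, rfl⟩
    have h7 : (B.card : ℝ) ≤ ∑ i : Cx D,
        (((B.filter (fun s => s.1 = i)).image (fun s => s.2)).card : ℝ) := by
      have h8 := card_le_card h6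
      rw [card_sigma] at h8
      exact_mod_cast h8
    have h9 : ∑ i : Cx D, (((B.filter (fun s => s.1 = i)).image (fun s => s.2)).card : ℝ) ≤
        ∑ _i : Cx D, ε / (Fintype.card (Cx D) + 1) * N := by
      refine sum_le_sum fun i _ => k1 i _ fun v hv => ?_
      rw [mem_image] at hv
      obtain ⟨s, hs, rfl⟩ := hv
      rw [mem_filter] at hs
      obtain ⟨hs, rfl⟩ := hs
      obtain ⟨hsS, hp⟩ := hB s hs
      unfold SS at hsS
      rw [mem_sigma, mem_filter] at hsS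
      exact ⟨hsS.2.1, hp⟩
    refine h7.trans (h9.trans ?_)
    rw [sum_const, card_univ, nsmul_eq_mul]
    have h10 : (0 : ℝ) ≤ Fintype.card (Cx D) := Nat.cast_nonneg _
    have h11 : (Fintype.card (Cx D) : ℝ) * (ε / (Fintype.card (Cx D) + 1) * N) =
        (Fintype.card (Cx D) : ℝ) / (Fintype.card (Cx D) + 1) * (ε * N) := by ring
    rw [h11]
    have h12 : (Fintype.card (Cx D) : ℝ) / (Fintype.card (Cx D) + 1) ≤ 1 := by
      rw [div_le_one (by positivity)]
      linarith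
    have h13 : 0 ≤ ε * N := by positivity
    nlinarith
  · intro X hX
    refine (hC D rfl X hX r1 r2 hr1 hr12).congr fun N => ?_
    unfold SS
    rw [sum_sigma]
    rfl

end Fr42H

open Fr42H in
/-- **(AH8)** -/
theorem stFrAH_42 (d : ℕ) (hNull : StNullAH d) (hZ : StFqZH d) (hR : StFqRH d)
    (hC : StFqCH d) : StFrAH d := by
  intro E δ hE hD
  constructor
  · intro D hDd r1 r2 hr1 hr12 e
    subst hDd
    set f : Fq D := ⟨0, e⟩ with hf
    have h1 := core (dta hNull hC hr1 hr12) hE hD (fun s => ch f s.1 s.2)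
      (fun N s _ => norm_ch_le f s.1 s.2) 1 (by simp)
      (fun X hX => by
        refine (hR D rfl X hX r1 r2 hr1 hr12 e).congr fun N => ?_
        rw [mph_eq]
        simp only [one_mul]
        rfl)
    refine h1.congr fun N => ?_
    rw [mph_eq]
    simp only [one_mul]
    rfl
  · intro z k hk hzk hz1 D hDd r1 r2 hr1 hr12 e
    subst hDd
    have hz : ‖z‖ = 1 := Complex.norm_eq_one_of_pow_eq_one hzk hk.ne'
    set f : Fq D := ⟨0, e⟩ with hf
    have h1 := core (dta hNull hC hr1 hr12) hE hD (fun s => z ^ Omn (nv s) * ch f s.1 s.2)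
      (fun N s _ => by
        rw [norm_mul, norm_pow, hz, one_pow, one_mul]
        exact norm_ch_le f s.1 s.2) 0 (by simp)
      (fun X hX => by
        refine (hZ D rfl X hX z k hk hzk hz1 r1 r2 hr1 hr12 e).congr fun N => ?_
        rw [mph_eq]
        congr 1
        refine sum_congr rfl fun s _ => ?_
        ring)
    refine h1.congr fun N => ?_
    rw [mph_eq]
    congr 1
    refine sum_congr rfl fun s _ => ?_
    unfold AN.wz
    ring

end Pool.Agent.Lib.MP_a17b09_nt.ANH
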