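import Pool.Agent.Lib.MP_a17b09_nt.AN.FrCore_42
import Pool.Agent.Lib.MP_a17b09_nt.MRSG.Up70

/-!
AN (MP_a17b09_nt), row A8 (negative discriminant): the frequencies `0` of the weights of an event
tend to zero.  helper42.
-/

set_option autoImplicit false

open Filter Topology Finset

namespace Pool.Agent.Lib.MP_a17b09_nt.AN

open CH CH.PE MRSG
open PQ (gw Mpw Fr0)

namespace Fr42

/-- the primitive vectors of the shells of all classes -/
noncomputable def SS (d : ℕ) (r1 r2 N : ℝ) : Finset (Σ _ : Cl d, V) :=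
  (Finset.univ : Finset (Cl d)).sigma fun i => (Shg i (r1 * N) (r2 * N)).filter Prim

/-- the value of the form -/
noncomputable def nv {d : ℕ} (s : Σ _ : Cl d, V) : ℕ := ((rep s.1).q s.2).natAbs

theorem mpw_eq {d K : ℕ} [NeZero K] (w : ℕ → ℂ) (r1 r2 N : ℝ) (f : Fq d K) :
    Mpw w r1 r2 N f = (1 / (N : ℂ)) * ∑ s ∈ SS d r1 r2 N, w (nv s) * ch f s.1 s.2 := by
  unfold Mpw SS
  rw [sum_sigma]
  rfl

/-- few vectors have a prime near `N ^ θ` -/
theorem fewθ {d : ℕ} (hNull : StNullA d) (i : Cl d) {θ : ℝ} (h0 : 0 < θ) (h1 : θ < 1)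
    {r1 r2 : ℝ} (hr1 : 0 < r1) (hr12 : r1 < r2) (ε : ℝ) (hε : 0 < ε) : ∀ᶠ N : ℝ in atTop,
    ∀ B : Finset V, (∀ v ∈ B, v ∈ Shg i (r1 * N) (r2 * N) ∧ ∃ r : ℕ, r.Prime ∧
      r ∣ ((rep i).q v).natAbs ∧ N ^ θ / (1 + r2 + 1 / r1) < r ∧
      (r : ℝ) ≤ (1 + r2 + 1 / r1) * N ^ θ) → (B.card : ℝ) ≤ ε * N := by
  classical
  have hr2 : 0 < r2 := hr1.trans hr12
  have hi : 0 < 1 / r1 := by positivity
  set C : ℝ := (1 + r2) * (1 + r2 + 1 / r1) with hC
  have hC1 : 1 < C := by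
    rw [hC]
    nlinarith [mul_pos hr2 hi, mul_pos hr2 hr2]
  have hε' : 0 < ε / (1 + r2) := by positivity
  obtain ⟨M1, hM1⟩ := hNull (rep i) (rep_pos i) (rep_D i) θ C h0 h1 hC1 (ε / (1 + r2)) hε'
  filter_upwards [eventually_ge_atTop (M1 : ℝ), eventually_ge_atTop (1 / r2),
    eventually_ge_atTop 1] with N hN1 hN3 hN4 B hB
  have hNp : 0 < N := by linarith
  have hN5 : 1 ≤ r2 * N := by
    rw [div_le_iff₀ hr2] at hN3
    linarith
  set n : ℕ := ⌊(1 + r2) * N⌋₊ with hn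
  have hnu : (n : ℝ) ≤ (1 + r2) * N := Nat.floor_le (by positivity)
  have hnr : r2 * N ≤ n := by
    have h2 : (1 + r2) * N < n + 1 := Nat.lt_floor_add_one _
    have h3 : (1 + r2) * N = N + r2 * N := by ring
    linarith
  have hnl : N ≤ n := by
    have h2 : (1 + r2) * N < n + 1 := Nat.lt_floor_add_one _
    have h3 : (1 + r2) * N = N + r2 * N := by ring
    linarith
  have hnp : (0 : ℝ) < n := lt_of_lt_of_le hNp hnl
  have hA1 := hM1 n (by exact_mod_cast hN1.trans hnl)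
  set A1 := ((rep i).ball n).filter (fun v => v ≠ 0 ∧ ∃ p : ℕ, p.Prime ∧
    p ∣ ((rep i).q v).natAbs ∧ (n : ℝ) ^ θ / C < p ∧
    (p : ℝ) ≤ C * (n : ℝ) ^ θ) with hA1d
  have hsub : B ⊆ A1 := by
    intro v hv
    obtain ⟨hv0, r, hr, hrm, ha, hb⟩ := hB v hv
    rw [mem_Shg] at hv0
    obtain ⟨hne, hv1, hv2⟩ := hv0
    have hNθ : 0 < N ^ θ := Real.rpow_pos_of_pos hNp θ
    have e1 : N ^ θ ≤ (n : ℝ) ^ θ := Real.rpow_le_rpow hNp.le hnl h0.le
    have e2 : (n : ℝ) ^ θ ≤ (1 + r2) * N ^ θ := by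
      calc (n : ℝ) ^ θ ≤ ((1 + r2) * N) ^ θ := Real.rpow_le_rpow hnp.le hnu h0.le
        _ = (1 + r2) ^ θ * N ^ θ := Real.mul_rpow (by linarith) hNp.le
        _ ≤ (1 + r2) * N ^ θ := by
            refine mul_le_mul_of_nonneg_right ?_ hNθ.le
            have h4 : (1 + r2) ^ θ ≤ (1 + r2) ^ (1 : ℝ) :=
              Real.rpow_le_rpow_of_exponent_le (by linarith) h1.le
            rwa [Real.rpow_one] at h4
    have h3 : 0 ≤ 1 + r2 + 1 / r1 := by positivity
    have hlow : (n : ℝ) ^ θ / C < r := by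
      refine lt_of_le_of_lt ?_ ha
      rw [hC, div_le_div_iff₀ (by positivity) (by positivity)]
      calc (n : ℝ) ^ θ * (1 + r2 + 1 / r1) ≤ (1 + r2) * N ^ θ * (1 + r2 + 1 / r1) :=
            mul_le_mul_of_nonneg_right e2 h3
        _ = N ^ θ * ((1 + r2) * (1 + r2 + 1 / r1)) := by ring
    have hup : (r : ℝ) ≤ C * (n : ℝ) ^ θ := by
      refine hb.trans ?_
      have h4 : 1 + r2 + 1 / r1 ≤ C := by
        rw [hC]
        nlinarith [mul_nonneg hr2.le h3]
      calc (1 + r2 + 1 / r1) * N ^ θ ≤ C * N ^ θ := mul_le_mul_of_nonneg_right h4 hNθ.le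
        _ ≤ C * (n : ℝ) ^ θ := mul_le_mul_of_nonneg_left e1 (by linarith)
    have hball : v ∈ (rep i).ball n := by
      rw [Form.mem_ball (rep_pos i)]
      exact_mod_cast hv2.trans hnr
    rw [hA1d, Finset.mem_filter]
    exact ⟨hball, hne, r, hr, hrm, hlow, hup⟩
  have hA1' : (A1.card : ℝ) ≤ ε / (1 + r2) * n := by convert hA1
  have hcard : (B.card : ℝ) ≤ A1.card := by exact_mod_cast Finset.card_le_card hsub
  calc (B.card : ℝ) ≤ A1.card := hcard
    _ ≤ ε / (1 + r2) * n := hA1'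
    _ ≤ ε / (1 + r2) * ((1 + r2) * N) := mul_le_mul_of_nonneg_left hnu (by positivity)
    _ = ε * N := by field_simp

theorem dta {d : ℕ} (hNull : StNullA d) (hC : StFqC d) {r1 r2 : ℝ} (hr1 : 0 < r1)
    (hr12 : r1 < r2) : Dta (SS d r1 r2) nv r1 r2 (UpG70.CT d * r2) := by
  classical
  have hr2 : 0 < r2 := hr1.trans hr12
  refine ⟨hr1, hr12, ?_, ?_, ?_, ?_⟩
  · rintro N ⟨i, v⟩ hs
    unfold SS at hs
    rw [mem_sigma, mem_filter, mem_Shg] at hs
    obtain ⟨-, ⟨hne, hv1, hv2⟩, -⟩ := hs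
    have hqpos := (rep_pos i).q_pos hne
    have hmq : (((rep i).q v).natAbs : ℤ) = (rep i).q v := Int.natAbs_of_nonneg hqpos.le
    have hmr : ((nv (⟨i, v⟩ : Σ _ : Cl d, V) : ℕ) : ℝ) = ((rep i).q v : ℝ) := by
      unfold nv
      dsimp only
      rw [← Int.cast_natCast (R := ℝ) (((rep i).q v).natAbs), hmq]
    refine ⟨by rw [hmr]; exact hv1, by rw [hmr]; exact hv2, ?_⟩
    have h3 : (1 : ℝ) ≤ (nv (⟨i, v⟩ : Σ _ : Cl d, V) : ℕ) := by
      rw [hmr]
      exact_mod_cast hqpos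
    exact_mod_cast h3
  · intro N hN
    unfold SS
    rw [card_sigma]
    push_cast
    have h1 : ∀ i ∈ (Finset.univ : Finset (Cl d)),
        (((Shg i (r1 * N) (r2 * N)).filter Prim).card : ℝ) ≤
        36 * ((rep i).a + (rep i).c) * (r2 * N) := by
      intro i _
      refine le_trans ?_ (UpG70.card_Shg i (a := r1 * N) (b := r2 * N) (by positivity))
      exact_mod_cast card_le_card (filter_subset _ _)
    refine (sum_le_sum h1).trans (le_of_eq ?_)
    rw [← sum_mul]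
    unfold UpG70.CT
    ring
  · intro θ h0 h1 ε hε
    have h5 : ∀ᶠ N : ℝ in atTop, ∀ i : Cl d, ∀ B : Finset V,
        (∀ v ∈ B, v ∈ Shg i (r1 * N) (r2 * N) ∧ ∃ r : ℕ, r.Prime ∧
        r ∣ ((rep i).q v).natAbs ∧ N ^ θ / (1 + r2 + 1 / r1) < r ∧
        (r : ℝ) ≤ (1 + r2 + 1 / r1) * N ^ θ) →
        (B.card : ℝ) ≤ ε / (Fintype.card (Cl d) + 1) * N :=
      Filter.eventually_all.2 fun i => fewθ hNull i h0 h1 hr1 hr12 _ (by positivity)
    filter_upwards [h5, eventually_gt_atTop 0] with N k1 hN B hB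
    have h6 : B ⊆ (Finset.univ : Finset (Cl d)).sigma
        fun i => (B.filter (fun s => s.1 = i)).image (fun s => s.2) := by
      rintro ⟨i, v⟩ hs
      rw [mem_sigma]
      refine ⟨mem_univ _, ?_⟩
      rw [mem_image]
      exact ⟨⟨i, v⟩, mem_filter.2 ⟨hs, rfl⟩, rfl⟩
    have h7 : (B.card : ℝ) ≤ ∑ i : Cl d,
        (((B.filter (fun s => s.1 = i)).image (fun s => s.2)).card : ℝ) := by
      have h8 := card_le_card h6
      rw [card_sigma] at h8
      exact_mod_cast h8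
    have h9 : ∑ i : Cl d, (((B.filter (fun s => s.1 = i)).image (fun s => s.2)).card : ℝ) ≤
        ∑ _i : Cl d, ε / (Fintype.card (Cl d) + 1) * N := by
      refine sum_le_sum fun i _ => k1 i _ fun v hv => ?_
      rw [mem_image] at hv
      obtain ⟨s, hs, rfl⟩ := hv
      rw [mem_filter] at hs
      obtain ⟨hs, rfl⟩ := hs
      obtain ⟨hsS, hp⟩ := hB s hs
      unfold SS at hsS
      rw [mem_sigma, mem_filter] at hsS
      exact ⟨hsS.2.1, hp⟩
    refine h7.trans (h9.trans ?_)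
    rw [sum_const, card_univ, nsmul_eq_mul]
    have h10 : (0 : ℝ) ≤ Fintype.card (Cl d) := Nat.cast_nonneg _
    have h11 : (Fintype.card (Cl d) : ℝ) * (ε / (Fintype.card (Cl d) + 1) * N) =
        (Fintype.card (Cl d) : ℝ) / (Fintype.card (Cl d) + 1) * (ε * N) := by ring
    rw [h11]
    have h12 : (Fintype.card (Cl d) : ℝ) / (Fintype.card (Cl d) + 1) ≤ 1 := by
      rw [div_le_one (by positivity)]
      linarith
    have h13 : 0 ≤ ε * N := by positivity
    nlinarith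
  · intro X hX
    refine (hC X hX r1 r2 hr1 hr12).congr fun N => ?_
    unfold SS
    rw [sum_sigma]
    rfl

end Fr42

open Fr42 in
/-- **(A8)** -/
theorem stFrA_42 (d : ℕ) (hNull : StNullA d) (hZ : StFqZ d) (hR : StFqR d) (hC : StFqC d) :
    StFrA d := by
  intro E δ hE hD
  constructor
  · intro K _ r1 r2 hr1 hr12 e
    set f : Fq d K := ⟨0, e⟩ with hf
    have h1 := core (dta hNull hC hr1 hr12) hE hD (fun s => ch f s.1 s.2)
      (fun N s hs => by
        unfold SS at hs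
        rw [mem_sigma, mem_filter, mem_Shg] at hs
        exact norm_ch_le f s.1 hs.2.1.1) 1 (by simp)
      (fun X hX => by
        refine (hR K X hX r1 r2 hr1 hr12 e).congr fun N => ?_
        rw [mpw_eq]
        simp only [one_mul]
        rfl)
    refine h1.congr fun N => ?_
    rw [mpw_eq]
    simp only [one_mul]
    rfl
  · intro z k hk hzk hz1 K _ r1 r2 hr1 hr12 e
    have hz : ‖z‖ = 1 := Complex.norm_eq_one_of_pow_eq_one hzk hk.ne'
    set f : Fq d K := ⟨0, e⟩ with hf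
    have h1 := core (dta hNull hC hr1 hr12) hE hD (fun s => z ^ Omn (nv s) * ch f s.1 s.2)
      (fun N s hs => by
        unfold SS at hs
        rw [mem_sigma, mem_filter, mem_Shg] at hs
        rw [norm_mul, norm_pow, hz, one_pow, one_mul]
        exact norm_ch_le f s.1 hs.2.1.1) 0 (by simp)
      (fun X hX => by
        refine (hZ K X hX z k hk hzk hz1 r1 r2 hr1 hr12 e).congr fun N => ?_
        rw [mpw_eq]
        congr 1
        refine sum_congr rfl fun s _ => ?_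
        ring)
    refine h1.congr fun N => ?_
    rw [mpw_eq]
    congr 1
    refine sum_congr rfl fun s _ => ?_
    unfold wz
    ring

end Pool.Agent.Lib.MP_a17b09_nt.AN
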