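import Pool.Agent.Lib.MP_a17b09_nt.AN.Stmts3
import Pool.Agent.Lib.MP_a17b09_nt.PQ.X1_7

/-!
Project AN (MP_a17b09_nt), row A7a: the means of the moment weights over the integers.
-/

set_option autoImplicit false

open Filter Topology Finset

namespace Pool.Agent.Lib.MP_a17b09_nt.AN

namespace Int29

/-- the product of the sums of the reciprocals -/
noncomputable def PS (L : List (Finset ℕ)) : ℝ :=
  (L.map (fun W : Finset ℕ => ∑ p ∈ W, 1 / (p : ℝ))).prod

/-- the number of tuples -/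
noncomputable def KC (L : List (Finset ℕ)) : ℝ := (L.map (fun W : Finset ℕ => (W.card : ℝ))).prod

theorem sum_div (f : ℕ → ℕ) (p M : ℕ) (hp : 0 < p) :
    ∑ n ∈ (Finset.Icc 1 M).filter (fun n => p ∣ n), f (n / p) =
      ∑ m ∈ Finset.Icc 1 (M / p), f m := by
  symm
  refine Finset.sum_bij (fun m _ => p * m) ?_ ?_ ?_ ?_
  · intro m hm
    rw [Finset.mem_Icc] at hm
    rw [Finset.mem_filter, Finset.mem_Icc]
    refine ⟨⟨Nat.mul_pos hp hm.1, ?_⟩, Dvd.intro m rfl⟩
    calc p * m ≤ p * (M / p) := Nat.mul_le_mul_left p hm.2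
      _ ≤ M := Nat.mul_div_le M p
  · intro m _ m' _ h
    exact Nat.eq_of_mul_eq_mul_left hp h
  · intro n hn
    rw [Finset.mem_filter, Finset.mem_Icc] at hn
    obtain ⟨⟨h1, h2⟩, m, rfl⟩ := hn
    refine ⟨m, ?_, rfl⟩
    rw [Finset.mem_Icc]
    constructor
    · rcases Nat.eq_zero_or_pos m with h | h
      · subst h; simp at h1
      · exact h
    · rw [Nat.le_div_iff_mul_le hp, Nat.mul_comm]
      exact h2
  · intro m _
    rw [Nat.mul_div_cancel_left m hp]

theorem sum_cons (W : Finset ℕ) (L : List (Finset ℕ)) (hW : ∀ p ∈ W, 0 < p) (M : ℕ) :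
    ∑ n ∈ Finset.Icc 1 M, tup (W :: L) n = ∑ p ∈ W, ∑ m ∈ Finset.Icc 1 (M / p), tup L m := by
  have h1 : ∀ n, tup (W :: L) n = ∑ p ∈ W, if p ∣ n then tup L (n / p) else 0 := by
    intro n
    rw [tup, Finset.sum_filter]
  simp only [h1]
  rw [Finset.sum_comm]
  refine Finset.sum_congr rfl fun p hp => ?_
  rw [← Finset.sum_filter, sum_div _ p M (hW p hp)]

/-- the mean with an error -/
theorem mean (L : List (Finset ℕ)) (hL : ∀ W ∈ L, ∀ p ∈ W, 0 < p) : ∀ y : ℝ, 0 ≤ y →
    |(∑ n ∈ Finset.Icc 1 ⌊y⌋₊, (tup L n : ℝ)) - y * PS L| ≤ KC L := by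
  induction L with
  | nil =>
    intro y hy
    simp only [tup, PS, KC, List.map_nil, List.prod_nil, Nat.cast_one, Finset.sum_const,
      Nat.card_Icc, nsmul_eq_mul, mul_one, Nat.add_sub_cancel]
    rw [abs_le]
    constructor
    · linarith [Nat.lt_floor_add_one y]
    · linarith [Nat.floor_le hy]
  | cons W L ih =>
    intro y hy
    have hW : ∀ p ∈ W, 0 < p := hL W (List.mem_cons_self ..)
    have ih' := ih fun V hV => hL V (List.mem_cons_of_mem _ hV)
    have h1 : (∑ n ∈ Finset.Icc 1 ⌊y⌋₊, (tup (W :: L) n : ℝ)) =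
        ∑ p ∈ W, ∑ m ∈ Finset.Icc 1 ⌊y / p⌋₊, (tup L m : ℝ) := by
      have := sum_cons W L hW ⌊y⌋₊
      have h2 : ((∑ n ∈ Finset.Icc 1 ⌊y⌋₊, tup (W :: L) n : ℕ) : ℝ) =
          ((∑ p ∈ W, ∑ m ∈ Finset.Icc 1 (⌊y⌋₊ / p), tup L m : ℕ) : ℝ) := by rw [this]
      push_cast at h2
      rw [h2]
      refine Finset.sum_congr rfl fun p hp => ?_
      rw [Nat.floor_div_natCast]
    have h3 : y * PS (W :: L) = ∑ p ∈ W, y / p * PS L := by
      simp only [PS, List.map_cons, List.prod_cons]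
      rw [Finset.sum_mul, Finset.mul_sum]
      refine Finset.sum_congr rfl fun p _ => ?_
      ring
    have h4 : KC (W :: L) = ∑ p ∈ W, KC L := by
      simp only [KC, List.map_cons, List.prod_cons, Finset.sum_const, nsmul_eq_mul]
    rw [h1, h3, h4, ← Finset.sum_sub_distrib]
    refine (Finset.abs_sum_le_sum_abs _ _).trans (Finset.sum_le_sum fun p _ => ?_)
    exact ih' (y / p) (by positivity)

theorem card_PW {x : ℝ} (hx : 0 < x) (I : ℝ × ℝ) : ((PW x I).card : ℝ) ≤ x ^ I.2 := by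
  have h1 : PW x I ⊆ Finset.Icc 1 ⌊x ^ I.2⌋₊ := by
    intro p hp
    rw [PW, Finset.mem_filter, Finset.mem_range] at hp
    rw [Finset.mem_Icc]
    exact ⟨hp.2.1.one_lt.le, by omega⟩
  have h2 := Finset.card_le_card h1
  rw [Nat.card_Icc, Nat.add_sub_cancel] at h2
  calc ((PW x I).card : ℝ) ≤ (⌊x ^ I.2⌋₊ : ℝ) := by exact_mod_cast h2
    _ ≤ x ^ I.2 := Nat.floor_le (Real.rpow_nonneg hx.le _)

theorem KC_le {x : ℝ} (hx : 0 < x) (X : List (ℝ × ℝ)) :
    KC (X.map (PW x)) ≤ x ^ (X.map Prod.snd).sum := by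
  induction X with
  | nil => simp [KC]
  | cons I X ih =>
    have h1 : KC ((I :: X).map (PW x)) = ((PW x I).card : ℝ) * KC (X.map (PW x)) := by
      simp [KC]
    have h2 : 0 ≤ KC (X.map (PW x)) := by
      unfold KC
      refine List.prod_nonneg fun a ha => ?_
      simp only [List.mem_map] at ha
      obtain ⟨W, _, rfl⟩ := ha
      exact Nat.cast_nonneg _
    rw [h1, List.map_cons, List.sum_cons, Real.rpow_add hx]
    exact mul_le_mul (card_PW hx I) ih h2 (Real.rpow_nonneg hx.le _)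

theorem sum_lim {I : ℝ × ℝ} (h0 : 0 < I.1) (h1 : I.1 < I.2) :
    Tendsto (fun x : ℝ => ∑ p ∈ PW x I, 1 / (p : ℝ)) atTop (𝓝 (Real.log (I.2 / I.1))) := by
  have h2 := PQ.stWinI_7 1 one_pos I.1 I.2 h0 h1
  rw [Nat.totient_one] at h2
  simp only [Nat.cast_one, div_one, one_mul] at h2
  refine h2.congr fun x => ?_
  refine Finset.sum_congr ?_ fun _ _ => rfl
  unfold PW
  ext p
  simp only [Finset.mem_filter, Finset.mem_range]
  constructor
  · rintro ⟨a, b, _, c⟩
    exact ⟨a, b, c⟩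
  · rintro ⟨a, b, c⟩
    exact ⟨a, b, Nat.modEq_one, c⟩

theorem PS_lim (X : List (ℝ × ℝ)) (hX : ∀ I ∈ X, 0 < I.1 ∧ I.1 < I.2) :
    Tendsto (fun x : ℝ => PS (X.map (PW x))) atTop (𝓝 (lam X)) := by
  induction X with
  | nil =>
    simp only [PS, lam, List.map_nil, List.prod_nil]
    exact tendsto_const_nhds
  | cons I X ih =>
    have h1 := (sum_lim (hX I (List.mem_cons_self ..)).1 (hX I (List.mem_cons_self ..)).2).mul
      (ih fun J hJ => hX J (List.mem_cons_of_mem _ hJ))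
    have h2 : lam (I :: X) = Real.log (I.2 / I.1) * lam X := by simp [lam]
    rw [h2]
    refine h1.congr fun x => ?_
    simp [PS]

end Int29

open Int29 in
/-- (A7a) the means over the integers -/
theorem stInt_29 : StInt := by
  intro X hX r hr
  have h1 := PS_lim X hX.1
  have h2 := h1.const_mul r
  set s : ℝ := (X.map Prod.snd).sum with hs
  have hs1 : s < 1 := hX.2
  have h3 : Tendsto (fun x : ℝ => x ^ (s - 1)) atTop (𝓝 0) := by
    have := tendsto_rpow_neg_atTop (y := 1 - s) (by linarith)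
    refine this.congr fun x => ?_
    congr 1
    ring
  have h4 : Tendsto (fun x : ℝ => (∑ n ∈ Finset.Icc 1 ⌊r * x⌋₊, (tW X x n : ℝ)) / x -
      r * PS (X.map (PW x))) atTop (𝓝 0) := by
    refine squeeze_zero_norm' ?_ h3
    filter_upwards [eventually_gt_atTop 0] with x hx
    have h5 := mean (X.map (PW x)) (by
      intro W hW p hp
      simp only [List.mem_map] at hW
      obtain ⟨I, _, rfl⟩ := hW
      rw [PW, Finset.mem_filter] at hp
      exact hp.2.1.pos) (r * x) (by positivity)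
    have h6 := KC_le hx X
    have h7 : (∑ n ∈ Finset.Icc 1 ⌊r * x⌋₊, (tW X x n : ℝ)) / x - r * PS (X.map (PW x)) =
        ((∑ n ∈ Finset.Icc 1 ⌊r * x⌋₊, (tup (X.map (PW x)) n : ℝ)) -
          r * x * PS (X.map (PW x))) / x := by
      unfold tW
      field_simp
    rw [h7, Real.norm_eq_abs, abs_div, abs_of_pos hx, div_le_iff₀ hx]
    calc _ ≤ KC (X.map (PW x)) := h5
      _ ≤ x ^ s := h6
      _ = x ^ (s - 1) * x := by
          rw [← Real.rpow_add_one hx.ne']
          congr 1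
          ring
  have h8 := h4.add h2
  rw [zero_add] at h8
  refine h8.congr fun x => ?_
  ring

end Pool.Agent.Lib.MP_a17b09_nt.AN
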