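import Pool.Agent.Lib.MP_a17b09_nt.AN.Stmts3
import Pool.Agent.Lib.MP_a17b09_nt.PQ.Win22

/-!
AN, row A2 (helper73): few vectors have a prime factor in a window of bounded ratio.  For every prime
`p`, `p ∤ 2 a`, the vectors with `p ∣ Q v` lie in the union of two sets (`p ∣ X - r Y`, `p ∣ X + r Y`
for a root `r`; `p ∣ v` if there is none) on which `p` divides the value of every difference; two
vectors of one of them in a square of side `< √(p / K)` are equal.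
-/

set_option autoImplicit false

open Filter Topology Finset

namespace Pool.Agent.Lib.MP_a17b09_nt.AN

open CH CH.PE

namespace N73

/-- the size of the coefficients -/
noncomputable def KQ (Q : Form) : ℝ := |(Q.a : ℝ)| + |(Q.b : ℝ)| + |(Q.c : ℝ)|

theorem q_small {Q : Form} {u : V} {s : ℝ} (h1 : |(u.1 : ℝ)| ≤ s) (h2 : |(u.2 : ℝ)| ≤ s) :
    |(Q.q u : ℝ)| ≤ KQ Q * s ^ 2 := by
  have hs : 0 ≤ s := (abs_nonneg _).trans h1
  have e : (Q.q u : ℝ) = Q.a * (u.1 * u.1) + Q.b * (u.1 * u.2) + Q.c * (u.2 * u.2) := by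
    unfold Form.q
    push_cast
    ring
  have k1 : |(u.1 : ℝ) * u.1| ≤ s ^ 2 := by
    rw [abs_mul, pow_two]
    exact mul_le_mul h1 h1 (abs_nonneg _) hs
  have k2 : |(u.1 : ℝ) * u.2| ≤ s ^ 2 := by
    rw [abs_mul, pow_two]
    exact mul_le_mul h1 h2 (abs_nonneg _) hs
  have k3 : |(u.2 : ℝ) * u.2| ≤ s ^ 2 := by
    rw [abs_mul, pow_two]
    exact mul_le_mul h2 h2 (abs_nonneg _) hs
  rw [e]
  calc |(Q.a : ℝ) * (u.1 * u.1) + Q.b * (u.1 * u.2) + Q.c * (u.2 * u.2)|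
      ≤ |(Q.a : ℝ) * (u.1 * u.1)| + |(Q.b : ℝ) * (u.1 * u.2)| + |(Q.c : ℝ) * (u.2 * u.2)| :=
        abs_add_three _ _ _
    _ = |(Q.a : ℝ)| * |(u.1 : ℝ) * u.1| + |(Q.b : ℝ)| * |(u.1 : ℝ) * u.2| +
        |(Q.c : ℝ)| * |(u.2 : ℝ) * u.2| := by
        rw [abs_mul (Q.a : ℝ), abs_mul (Q.b : ℝ), abs_mul (Q.c : ℝ)]
    _ ≤ |(Q.a : ℝ)| * s ^ 2 + |(Q.b : ℝ)| * s ^ 2 + |(Q.c : ℝ)| * s ^ 2 := by
        have := mul_le_mul_of_nonneg_left k1 (abs_nonneg (Q.a : ℝ))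
        have := mul_le_mul_of_nonneg_left k2 (abs_nonneg (Q.b : ℝ))
        have := mul_le_mul_of_nonneg_left k3 (abs_nonneg (Q.c : ℝ))
        linarith
    _ = _ := by
        unfold KQ
        ring

/-- the vectors of one set in a box -/
theorem box_count {Q : Form} (hz : ∀ v : V, Q.q v = 0 → v = 0) {p : ℕ} {R s : ℝ} (hs : 0 < s)
    (hR : 0 ≤ R) (hsp : KQ Q * s ^ 2 < p) (S : Finset V)
    (hS : ∀ v ∈ S, |(v.1 : ℝ)| ≤ R ∧ |(v.2 : ℝ)| ≤ R)
    (hd : ∀ v ∈ S, ∀ w ∈ S, (p : ℤ) ∣ Q.q (v - w)) :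
    (S.card : ℝ) ≤ (2 * (R / s) + 5) ^ 2 := by
  classical
  set M : ℕ := ⌈R / s⌉₊ + 1 with hM
  set f : V → ℤ × ℤ := fun v => (⌊(v.1 : ℝ) / s⌋, ⌊(v.2 : ℝ) / s⌋) with hf
  set T : Finset (ℤ × ℤ) := Finset.Icc (-(M : ℤ)) M ×ˢ Finset.Icc (-(M : ℤ)) M with hT
  have hMR : R / s ≤ (M : ℝ) - 1 := by
    rw [hM]
    push_cast
    have := Nat.le_ceil (R / s)
    linarith
  have hfl : ∀ x : ℝ, |x| ≤ R → ⌊x / s⌋ ∈ Finset.Icc (-(M : ℤ)) M := by
    intro x hx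
    have h1 : |x / s| ≤ R / s := by
      rw [abs_div, abs_of_pos hs]
      exact div_le_div_of_nonneg_right hx hs.le
    obtain ⟨h2, h3⟩ := abs_le.1 h1
    rw [Finset.mem_Icc]
    constructor
    · rw [Int.le_floor]
      push_cast
      linarith
    · have h4 : (⌊x / s⌋ : ℝ) ≤ M := (Int.floor_le _).trans (by linarith)
      exact_mod_cast h4
  have hmaps : ∀ v ∈ S, f v ∈ T := by
    intro v hv
    obtain ⟨h1, h2⟩ := hS v hv
    rw [hT, Finset.mem_product]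
    exact ⟨hfl _ h1, hfl _ h2⟩
  have hinj : Set.InjOn f S := by
    intro v hv w hw hvw
    have hdv := hd v hv w hw
    have hcell : ∀ x y : ℝ, ⌊x / s⌋ = ⌊y / s⌋ → |x - y| ≤ s := by
      intro x y hxy
      have h1 := Int.abs_sub_lt_one_of_floor_eq_floor hxy
      have h2 : |x - y| = s * |x / s - y / s| := by
        rw [← sub_div, abs_div, abs_of_pos hs]
        field_simp
      rw [h2]
      nlinarith
    rw [hf] at hvw
    simp only [Prod.mk.injEq] at hvw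
    have k1 : |((v - w).1 : ℝ)| ≤ s := by
      have := hcell _ _ hvw.1
      rw [Prod.fst_sub]
      push_cast
      exact this
    have k2 : |((v - w).2 : ℝ)| ≤ s := by
      have := hcell _ _ hvw.2
      rw [Prod.snd_sub]
      push_cast
      exact this
    have k3 := (q_small (Q := Q) k1 k2).trans_lt hsp
    have k4 : |Q.q (v - w)| < p := by exact_mod_cast k3
    have k5 : Q.q (v - w) = 0 := Int.eq_zero_of_abs_lt_dvd hdv k4
    exact sub_eq_zero.1 (hz _ k5)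
  have hcard := Finset.card_le_card_of_injOn f hmaps hinj
  have hTc : (T.card : ℝ) = (2 * (M : ℝ) + 1) ^ 2 := by
    rw [hT, Finset.card_product, Int.card_Icc]
    have : ((M : ℤ) + 1 - -(M : ℤ)).toNat = 2 * M + 1 := by omega
    rw [this]
    push_cast
    ring
  have hM2 : (M : ℝ) ≤ R / s + 2 := by
    rw [hM]
    push_cast
    have := (Nat.ceil_lt_add_one (show 0 ≤ R / s by positivity)).le
    linarith
  calc (S.card : ℝ) ≤ (T.card : ℝ) := by exact_mod_cast hcard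
    _ = (2 * (M : ℝ) + 1) ^ 2 := hTc
    _ ≤ (2 * (R / s) + 5) ^ 2 := by
        apply pow_le_pow_left₀ (by positivity)
        linarith

theorem four_q (Q : Form) (u : V) :
    4 * Q.a * Q.q u = (2 * Q.a * u.1 + Q.b * u.2) ^ 2 + Q.D * u.2 ^ 2 := by
  unfold Form.q Form.D
  ring

/-- **the two sets** -/
theorem two_sets (Q : Form) {p : ℕ} (hp : p.Prime) (h2a : ¬ (p : ℤ) ∣ 2 * Q.a) (S : Finset V)
    (hS : ∀ v ∈ S, (p : ℤ) ∣ Q.q v) : ∃ S1 S2 : Finset V, S ⊆ S1 ∪ S2 ∧ S1 ⊆ S ∧ S2 ⊆ S ∧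
    (∀ v ∈ S1, ∀ w ∈ S1, (p : ℤ) ∣ Q.q (v - w)) ∧ (∀ v ∈ S2, ∀ w ∈ S2, (p : ℤ) ∣ Q.q (v - w)) := by
  classical
  have hpI : Prime (p : ℤ) := Nat.prime_iff_prime_int.1 hp
  have hcan : ∀ x : ℤ, (p : ℤ) ∣ 4 * Q.a * x → (p : ℤ) ∣ x := by
    intro x hx
    have h2 : ¬ (p : ℤ) ∣ 2 := fun h => h2a (h.mul_right _)
    rw [show 4 * Q.a * x = 2 * ((2 * Q.a) * x) by ring] at hx
    exact (hpI.dvd_or_dvd ((hpI.dvd_or_dvd hx).resolve_left h2)).resolve_left h2a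
  by_cases hr : ∃ r : ℤ, (p : ℤ) ∣ r ^ 2 + Q.D
  · obtain ⟨r, hr⟩ := hr
    have hL : ∀ ρ : ℤ, (p : ℤ) ∣ ρ ^ 2 + Q.D → ∀ u : V,
        (p : ℤ) ∣ 2 * Q.a * u.1 + Q.b * u.2 - ρ * u.2 → (p : ℤ) ∣ Q.q u := by
      intro ρ hρ u hu
      apply hcan
      rw [four_q]
      have e : (2 * Q.a * u.1 + Q.b * u.2) ^ 2 + Q.D * u.2 ^ 2 =
          (2 * Q.a * u.1 + Q.b * u.2 - ρ * u.2) * (2 * Q.a * u.1 + Q.b * u.2 + ρ * u.2) +
          (ρ ^ 2 + Q.D) * u.2 ^ 2 := by ring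
      rw [e]
      exact dvd_add (hu.mul_right _) (hρ.mul_right _)
    have hdiff : ∀ ρ : ℤ, (p : ℤ) ∣ ρ ^ 2 + Q.D → ∀ v w : V,
        (p : ℤ) ∣ 2 * Q.a * v.1 + Q.b * v.2 - ρ * v.2 →
        (p : ℤ) ∣ 2 * Q.a * w.1 + Q.b * w.2 - ρ * w.2 → (p : ℤ) ∣ Q.q (v - w) := by
      intro ρ hρ v w hv hw
      apply hL ρ hρ
      have h := dvd_sub hv hw
      rw [Prod.fst_sub, Prod.snd_sub]
      have e : 2 * Q.a * (v.1 - w.1) + Q.b * (v.2 - w.2) - ρ * (v.2 - w.2) =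
          2 * Q.a * v.1 + Q.b * v.2 - ρ * v.2 - (2 * Q.a * w.1 + Q.b * w.2 - ρ * w.2) := by ring
      rw [e]
      exact h
    have hr' : (p : ℤ) ∣ (-r) ^ 2 + Q.D := by rw [neg_sq]; exact hr
    refine ⟨S.filter (fun v => (p : ℤ) ∣ 2 * Q.a * v.1 + Q.b * v.2 - r * v.2),
      S.filter (fun v => (p : ℤ) ∣ 2 * Q.a * v.1 + Q.b * v.2 - -r * v.2), ?_,
      Finset.filter_subset _ _, Finset.filter_subset _ _, ?_, ?_⟩
    · intro v hv
      have h1 : (p : ℤ) ∣ (2 * Q.a * v.1 + Q.b * v.2 - r * v.2) *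
          (2 * Q.a * v.1 + Q.b * v.2 - -r * v.2) := by
        have h2 : (p : ℤ) ∣ 4 * Q.a * Q.q v := (hS v hv).mul_left _
        rw [four_q] at h2
        have h3 := dvd_sub h2 (hr.mul_right (v.2 ^ 2))
        have e : (2 * Q.a * v.1 + Q.b * v.2) ^ 2 + Q.D * v.2 ^ 2 - (r ^ 2 + Q.D) * v.2 ^ 2 =
            (2 * Q.a * v.1 + Q.b * v.2 - r * v.2) * (2 * Q.a * v.1 + Q.b * v.2 - -r * v.2) := by
          ring
        rwa [e] at h3
      rw [Finset.mem_union, Finset.mem_filter, Finset.mem_filter]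
      rcases hpI.dvd_or_dvd h1 with h | h
      · exact Or.inl ⟨hv, h⟩
      · exact Or.inr ⟨hv, h⟩
    · intro v hv w hw
      rw [Finset.mem_filter] at hv hw
      exact hdiff r hr v w hv.2 hw.2
    · intro v hv w hw
      rw [Finset.mem_filter] at hv hw
      exact hdiff (-r) hr' v w hv.2 hw.2
  · -- no root: `p ∣ v`
    have hv2 : ∀ v ∈ S, (p : ℤ) ∣ v.2 := by
      intro v hv
      by_contra hn
      have h2 : (p : ℤ) ∣ 4 * Q.a * Q.q v := (hS v hv).mul_left _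
      rw [four_q] at h2
      have hcop : IsCoprime (v.2) (p : ℤ) := ((hpI.irreducible.coprime_iff_not_dvd).2 hn).symm
      obtain ⟨i, j, hij⟩ := hcop
      apply hr
      refine ⟨(2 * Q.a * v.1 + Q.b * v.2) * i, ?_⟩
      have h3 := h2.mul_right (i ^ 2)
      have h4 : (p : ℤ) ∣ Q.D * ((i * v.2) ^ 2 - 1) := by
        have e : i * v.2 = 1 - j * p := by linarith
        rw [e]
        exact ⟨Q.D * (j * (j * p) - 2 * j), by ring⟩
      have h5 := dvd_sub h3 h4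
      have e : ((2 * Q.a * v.1 + Q.b * v.2) ^ 2 + Q.D * v.2 ^ 2) * i ^ 2 -
          Q.D * ((i * v.2) ^ 2 - 1) = ((2 * Q.a * v.1 + Q.b * v.2) * i) ^ 2 + Q.D := by ring
      rwa [e] at h5
    have hv1 : ∀ v ∈ S, (p : ℤ) ∣ v.1 := by
      intro v hv
      have h2 : (p : ℤ) ∣ 4 * Q.a * Q.q v := (hS v hv).mul_left _
      rw [four_q] at h2
      have h3 := hv2 v hv
      have h4 : (p : ℤ) ∣ (2 * Q.a * v.1 + Q.b * v.2) ^ 2 := by
        have h5 : (p : ℤ) ∣ Q.D * v.2 ^ 2 := (h3.trans (dvd_pow_self _ two_ne_zero)).mul_left _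
        have h6 := dvd_sub h2 h5
        rwa [add_sub_cancel_right] at h6
      have h7 := hpI.dvd_of_dvd_pow h4
      have h8 := dvd_sub h7 (h3.mul_left Q.b)
      rw [add_sub_cancel_right] at h8
      exact (hpI.dvd_or_dvd h8).resolve_left h2a
    refine ⟨S, ∅, Finset.subset_union_left, le_refl _, Finset.empty_subset _, ?_, ?_⟩
    · intro v hv w hw
      have h1 : (p : ℤ) ∣ (v - w).1 := dvd_sub (hv1 v hv) (hv1 w hw)
      have h2 : (p : ℤ) ∣ (v - w).2 := dvd_sub (hv2 v hv) (hv2 w hw)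
      unfold Form.q
      refine dvd_add (dvd_add ?_ ?_) ?_
      · exact (h1.trans (dvd_pow_self _ two_ne_zero)).mul_left _
      · exact h2.mul_left _
      · exact (h2.trans (dvd_pow_self _ two_ne_zero)).mul_left _
    · intro v hv
      simp at hv

/-- vectors of a region of size `c √N` whose value is divisible by the prime `p` -/
theorem one_prime {Q : Form} (hz : ∀ v : V, Q.q v = 0 → v = 0) {c : ℝ} (hc : 0 < c) :
    ∃ C : ℝ, 0 < C ∧ ∀ p : ℕ, p.Prime → ¬ (p : ℤ) ∣ 2 * Q.a → ∀ N : ℕ, p ≤ N → ∀ S : Finset V,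
    (∀ v ∈ S, |(v.1 : ℝ)| ≤ c * √(N : ℝ) ∧ |(v.2 : ℝ)| ≤ c * √(N : ℝ) ∧ (p : ℤ) ∣ Q.q v) →
    (S.card : ℝ) ≤ C * (N * (1 / (p : ℝ))) := by
  classical
  set K : ℝ := KQ Q + 1 with hK
  have hKQ : 0 ≤ KQ Q := by unfold KQ; positivity
  have hK0 : 0 < K := by linarith
  set C0 : ℝ := 2 * (c * √K) + 5 with hC0
  have hC00 : 0 < C0 := by positivity
  refine ⟨2 * C0 ^ 2, by positivity, fun p hp h2a N hpN S hS => ?_⟩
  have hp0 : (0 : ℝ) < p := by exact_mod_cast hp.pos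
  have hN0 : (0 : ℝ) ≤ N := Nat.cast_nonneg N
  have hNp : (1 : ℝ) ≤ (N : ℝ) / p := by
    rw [le_div_iff₀ hp0, one_mul]
    exact_mod_cast hpN
  set s : ℝ := √((p : ℝ) / K) with hs
  have hs0 : 0 < s := Real.sqrt_pos.2 (by positivity)
  have hsp : KQ Q * s ^ 2 < (p : ℝ) := by
    rw [hs, Real.sq_sqrt (by positivity), mul_div_assoc', div_lt_iff₀ hK0, hK]
    nlinarith
  set R : ℝ := c * √(N : ℝ) with hR
  have hR0 : 0 ≤ R := by positivity
  have hRs : 2 * (R / s) + 5 ≤ C0 * √((N : ℝ) / p) := by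
    have h1 : R / s = c * √K * √((N : ℝ) / p) := by
      rw [hR, hs, Real.sqrt_div (by positivity), Real.sqrt_div (by positivity)]
      have := Real.sqrt_pos.2 hK0
      have := Real.sqrt_pos.2 hp0
      field_simp
    have h2 : (1 : ℝ) ≤ √((N : ℝ) / p) := by
      rw [Real.one_le_sqrt]
      exact hNp
    rw [h1, hC0]
    nlinarith
  obtain ⟨S1, S2, h0, h1, h2, h3, h4⟩ := two_sets Q hp h2a S (fun v hv => (hS v hv).2.2)
  have hone : ∀ S' : Finset V, S' ⊆ S → (∀ v ∈ S', ∀ w ∈ S', (p : ℤ) ∣ Q.q (v - w)) →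
      (S'.card : ℝ) ≤ C0 ^ 2 * (N * (1 / (p : ℝ))) := by
    intro S' h5 h6
    have h7 := box_count hz hs0 hR0 hsp S' (fun v hv => by
      obtain ⟨k1, k2, -⟩ := hS v (h5 hv)
      exact ⟨k1, k2⟩) h6
    refine h7.trans ((pow_le_pow_left₀ (by positivity) hRs 2).trans (le_of_eq ?_))
    rw [mul_pow, Real.sq_sqrt (by positivity)]
    ring
  calc (S.card : ℝ) ≤ ((S1 ∪ S2).card : ℝ) := by exact_mod_cast Finset.card_le_card h0
    _ ≤ (S1.card : ℝ) + (S2.card : ℝ) := by exact_mod_cast Finset.card_union_le _ _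
    _ ≤ C0 ^ 2 * (N * (1 / (p : ℝ))) + C0 ^ 2 * (N * (1 / (p : ℝ))) :=
        add_le_add (hone S1 h1 h3) (hone S2 h2 h4)
    _ = _ := by ring

/-- **the window** -/
theorem null_fin {Q : Form} (ha : 0 < Q.a) (hz : ∀ v : V, Q.q v = 0 → v = 0) {c : ℝ} (hc : 0 < c)
    (η C : ℝ) (hη : 0 < η) (hη1 : η < 1) (hC : 1 < C) (ε : ℝ) (hε : 0 < ε) :
    ∃ N0 : ℕ, ∀ N : ℕ, N0 ≤ N → ∀ S : Finset V,
    (∀ v ∈ S, |(v.1 : ℝ)| ≤ c * √(N : ℝ) ∧ |(v.2 : ℝ)| ≤ c * √(N : ℝ) ∧ ∃ p : ℕ, p.Prime ∧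
      p ∣ (Q.q v).natAbs ∧ (N : ℝ) ^ η / C < p ∧ (p : ℝ) ≤ C * (N : ℝ) ^ η) →
    (S.card : ℝ) ≤ ε * N := by
  classical
  obtain ⟨B, hB0, hB⟩ := one_prime hz hc
  set ε' : ℝ := min 1 (ε / (3 * B)) with hε'
  have he0 : 0 < ε' := lt_min one_pos (by positivity)
  have he1 : ε' ≤ 1 := min_le_left _ _
  have he2 : 3 * B * ε' ≤ ε := by
    have := min_le_right (1 : ℝ) (ε / (3 * B))
    rw [← hε', le_div_iff₀ (by positivity)] at this
    linarith
  obtain ⟨X, hX2, hX⟩ := PQ.Win22.mer_small 1 one_pos 1 (Nat.coprime_one_left _) ε' he0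
  set A : ℝ := Real.log (2 * C) + Real.log C with hA
  have hlC : 0 < Real.log C := Real.log_pos hC
  have hl2C : 0 < Real.log (2 * C) := Real.log_pos (by linarith)
  have hA0 : 0 < A := by positivity
  have ht1 : Tendsto (fun N : ℕ => (N : ℝ) ^ η / C) atTop atTop :=
    ((tendsto_rpow_atTop hη).comp tendsto_natCast_atTop_atTop).atTop_div_const (by linarith)
  have ht2 : Tendsto (fun N : ℕ => (N : ℝ) ^ (1 - η)) atTop atTop :=
    (tendsto_rpow_atTop (by linarith)).comp tendsto_natCast_atTop_atTop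
  have hev := (((ht1.eventually_ge_atTop (max X (Real.exp (A / ε')))).and
    (ht2.eventually_ge_atTop C)).and (eventually_ge_atTop 1)).and
    (ht1.eventually_ge_atTop (2 * (Q.a : ℝ)))
  obtain ⟨N0, hN0⟩ := eventually_atTop.1 hev
  refine ⟨N0, fun N hN S hS => ?_⟩
  obtain ⟨⟨⟨e1, e2⟩, e3⟩, e4⟩ := hN0 N hN
  have hN1 : (1 : ℝ) ≤ N := by exact_mod_cast e3
  set x : ℝ := (N : ℝ) ^ η / C with hx
  set y : ℝ := 2 * C * (N : ℝ) ^ η with hy
  have hxX : X ≤ x := (le_max_left _ _).trans e1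
  have hxE : Real.exp (A / ε') ≤ x := (le_max_right _ _).trans e1
  have hNη : 0 < (N : ℝ) ^ η := by positivity
  have hx0 : 0 < x := by positivity
  have hxy : x ≤ y := by
    rw [hx, hy]
    have h1 : (N : ℝ) ^ η / C ≤ (N : ℝ) ^ η := div_le_self hNη.le hC.le
    nlinarith
  have hlx : A / ε' ≤ Real.log x := by
    rw [Real.le_log_iff_exp_le hx0]
    exact hxE
  have hlx0 : 0 < Real.log x := lt_of_lt_of_le (by positivity) hlx
  have hly : Real.log y = Real.log x + A := by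
    have h1 : y = 2 * C * (x * C) := by
      rw [hx, hy]
      field_simp
    rw [h1, Real.log_mul (by positivity) (by positivity), Real.log_mul hx0.ne' (by positivity), hA]
    ring
  set L : ℝ := Real.log (Real.log y / Real.log x) with hL
  have hL1 : L ≤ ε' := by
    have h1 : 0 < Real.log y / Real.log x := by
      rw [hly]
      positivity
    have h2 := Real.log_le_sub_one_of_pos h1
    refine h2.trans ?_
    rw [hly, add_div, div_self hlx0.ne', add_sub_cancel_left, div_le_iff₀ hlx0]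
    rw [div_le_iff₀ he0] at hlx
    linarith
  have hmer := (abs_le.1 (hX x y hxX hxy)).2
  have hsum : ∑ p ∈ MRSG.PA7 1 1 x y, (1 : ℝ) / p ≤ 3 * ε' := by
    rw [Nat.totient_one, Nat.cast_one, div_one, one_mul, ← hL] at hmer
    have h2 : ε' * (1 + L) ≤ ε' * 2 := mul_le_mul_of_nonneg_left (by linarith) he0.le
    linarith
  -- only the primes `p ≤ C N ^ η ≤ N` are needed
  set W : Finset ℕ := (MRSG.PA7 1 1 x y).filter
    (fun p : ℕ => x < p ∧ (p : ℝ) ≤ C * (N : ℝ) ^ η) with hW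
  have hsub : S ⊆ W.biUnion (fun p => S.filter (fun v => p ∣ (Q.q v).natAbs)) := by
    intro v hv
    obtain ⟨-, -, p, hp, hpd, hp1, hp2⟩ := hS v hv
    rw [Finset.mem_biUnion]
    refine ⟨p, ?_, ?_⟩
    · rw [hW, Finset.mem_filter, MRSG.mem_PA7]
      refine ⟨⟨hp, Nat.modEq_one, hp1.le, ?_⟩, hp1, hp2⟩
      rw [hy]
      nlinarith [mul_pos (show (0 : ℝ) < C by linarith) hNη]
    · rw [Finset.mem_filter]
      exact ⟨hv, hpd⟩
  have hCN : C * (N : ℝ) ^ η ≤ N := by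
    calc C * (N : ℝ) ^ η ≤ (N : ℝ) ^ (1 - η) * (N : ℝ) ^ η :=
          mul_le_mul_of_nonneg_right e2 hNη.le
      _ = N := by
          rw [← Real.rpow_add (by linarith), sub_add_cancel, Real.rpow_one]
  have hterm : ∀ p ∈ W, ((S.filter (fun v => p ∣ (Q.q v).natAbs)).card : ℝ) ≤
      B * (N * (1 / (p : ℝ))) := by
    intro p hp
    rw [hW, Finset.mem_filter, MRSG.mem_PA7] at hp
    refine hB p hp.1.1 ?_ N ?_ _ ?_
    · intro h
      have h1 : (p : ℤ) ≤ 2 * Q.a := Int.le_of_dvd (by linarith) h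
      have h2 : (p : ℝ) ≤ 2 * (Q.a : ℝ) := by exact_mod_cast h1
      linarith [hp.2.1]
    · exact_mod_cast hp.2.2.trans hCN
    · intro v hv
      rw [Finset.mem_filter] at hv
      obtain ⟨h1, h2, -⟩ := hS v hv.1
      exact ⟨h1, h2, Int.natCast_dvd.2 hv.2⟩
  have hWle : ∑ p ∈ W, (1 : ℝ) / p ≤ ∑ p ∈ MRSG.PA7 1 1 x y, (1 : ℝ) / p :=
    Finset.sum_le_sum_of_subset_of_nonneg (Finset.filter_subset _ _) fun p _ _ => by positivity
  calc (S.card : ℝ) ≤ ((W.biUnion (fun p => S.filter (fun v => p ∣ (Q.q v).natAbs))).card : ℝ) := by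
        exact_mod_cast Finset.card_le_card hsub
    _ ≤ ∑ p ∈ W, ((S.filter (fun v => p ∣ (Q.q v).natAbs)).card : ℝ) := by
        exact_mod_cast Finset.card_biUnion_le
    _ ≤ ∑ p ∈ W, B * (N * (1 / (p : ℝ))) := Finset.sum_le_sum hterm
    _ = B * N * ∑ p ∈ W, (1 : ℝ) / p := by
        rw [Finset.mul_sum]
        exact Finset.sum_congr rfl fun p _ => by ring
    _ ≤ B * N * (3 * ε') := mul_le_mul_of_nonneg_left (hWle.trans hsum) (by positivity)
    _ = 3 * B * ε' * N := by ring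
    _ ≤ ε * N := mul_le_mul_of_nonneg_right he2 (by linarith)

end N73

open N73 in
/-- **row A2** -/
theorem stNullA_73 (d : ℕ) : StNullA d := by
  classical
  intro Q hQ hD η C hη hη1 hC ε hε
  have hz : ∀ v : V, Q.q v = 0 → v = 0 := by
    intro v hv
    by_contra hn
    have := hQ.q_pos hn
    omega
  have hc0 : (0 : ℝ) < Q.c := by exact_mod_cast hQ.c_pos
  have ha0 : (0 : ℝ) < Q.a := by exact_mod_cast hQ.1
  set c : ℝ := √(4 * Q.c) + √(4 * Q.a) with hc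
  have hc1 : 0 < c := by positivity
  obtain ⟨N0, hN0⟩ := null_fin hQ.1 hz hc1 η C hη hη1 hC ε hε
  refine ⟨N0, fun N hN => hN0 N hN _ fun v hv => ?_⟩
  rw [Finset.mem_filter, Form.mem_ball hQ] at hv
  obtain ⟨h1, -, p, hp⟩ := hv
  have h1' : (Q.q v : ℝ) ≤ N := by exact_mod_cast h1
  have hx : (v.1 : ℝ) ^ 2 ≤ 4 * Q.c * Q.q v := by exact_mod_cast hQ.le_x v
  have hy : (v.2 : ℝ) ^ 2 ≤ 4 * Q.a * Q.q v := by exact_mod_cast hQ.le_y v
  refine ⟨?_, ?_, p, hp⟩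
  · have h2 : |(v.1 : ℝ)| ≤ √(4 * Q.c) * √(N : ℝ) := by
      rw [← Real.sqrt_mul (by positivity)]
      apply Real.le_sqrt_of_sq_le
      rw [sq_abs]
      exact hx.trans (mul_le_mul_of_nonneg_left h1' (by positivity))
    refine h2.trans (mul_le_mul_of_nonneg_right ?_ (Real.sqrt_nonneg _))
    rw [hc]
    linarith [Real.sqrt_nonneg (4 * (Q.a : ℝ))]
  · have h2 : |(v.2 : ℝ)| ≤ √(4 * Q.a) * √(N : ℝ) := by
      rw [← Real.sqrt_mul (by positivity)]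
      apply Real.le_sqrt_of_sq_le
      rw [sq_abs]
      exact hy.trans (mul_le_mul_of_nonneg_left h1' (by positivity))
    refine h2.trans (mul_le_mul_of_nonneg_right ?_ (Real.sqrt_nonneg _))
    rw [hc]
    linarith [Real.sqrt_nonneg (4 * (Q.c : ℝ))]

end Pool.Agent.Lib.MP_a17b09_nt.AN
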