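import Pool.Agent.Lib.MP_a17b09_nt.AN.StmtsH3
import Pool.Agent.Lib.MP_a17b09_nt.AN.NullA_73
import Pool.Agent.Lib.MP_a17b09_nt.PQH.N1_22

/-!
AN, row AH2 (helper73): few vectors of a sector have a prime factor in a window of bounded ratio.
-/

set_option autoImplicit false

open Filter Topology Finset

namespace Pool.Agent.Lib.MP_a17b09_nt.ANH

open CH CH.PE HY HY.S68 MRH

/-- **row AH2** -/
theorem stNullAH_73 (d : ℕ) : StNullAH d := by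
  classical
  intro Q hQ T hT η C hη hη1 hC ε hε
  obtain ⟨c, hc, hbox⟩ := PQH.NH22.box hQ hT
  obtain ⟨N0, hN0⟩ := AN.N73.null_fin hQ.apos (fun v hv => PQH.NH22.q_zero hQ hv) hc η C hη hη1
    hC ε hε
  obtain ⟨_, _, hcnt⟩ := CntH84.cnt hQ hT
  refine ⟨N0, fun N hN => ?_⟩
  have hfin := ((hcnt N (Nat.cast_nonneg N)).1).subset
    (show {v : V | Sec Q T v ∧ (Q.q v : ℝ) ≤ N ∧ ∃ p : ℕ, p.Prime ∧
      p ∣ (Q.q v).natAbs ∧ (N : ℝ) ^ η / C < p ∧ (p : ℝ) ≤ C * (N : ℝ) ^ η} ⊆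
      CntH84.SS Q T N from fun v hv => ⟨hv.1, hv.2.1⟩)
  refine ⟨hfin, ?_⟩
  rw [Set.ncard_eq_toFinset_card _ hfin]
  refine hN0 N hN _ fun v hv => ?_
  rw [Set.Finite.mem_toFinset] at hv
  obtain ⟨h1, h2, h3⟩ := hv
  obtain ⟨k1, k2⟩ := hbox N (Nat.cast_nonneg N) v h1 h2
  exact ⟨k1, k2, h3⟩

end Pool.Agent.Lib.MP_a17b09_nt.ANH
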