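import Pool.Agent.Lib.MP_a17b09_nt.AN.Stmts3
import Pool.Agent.Lib.MP_a17b09_nt.PQ.Win22

/-!
AN, row A7b (helper52): few integers have a prime factor in a window of bounded ratio.
-/

set_option autoImplicit false

open Filter Topology Finset

namespace Pool.Agent.Lib.MP_a17b09_nt.AN

open MRSG (PA7 mem_PA7)

namespace NI52

/-- the sum of `1 / p` over the primes of a window of bounded ratio -/
theorem sum_small (η C : ℝ) (hη : 0 < η) (hC : 1 < C) (ε : ℝ) (hε : 0 < ε) : ∃ N0 : ℕ,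
    ∀ N : ℕ, N0 ≤ N → ∑ p ∈ PA7 1 1 ((N : ℝ) ^ η / C) (2 * C * (N : ℝ) ^ η), (1 : ℝ) / p ≤ ε := by
  set ε' : ℝ := min 1 (ε / 3) with hε'
  have he0 : 0 < ε' := lt_min one_pos (by positivity)
  have he1 : ε' ≤ 1 := min_le_left _ _
  have he2 : 3 * ε' ≤ ε := by
    have := min_le_right (1 : ℝ) (ε / 3)
    rw [← hε'] at this
    linarith
  obtain ⟨X, hX2, hX⟩ := PQ.Win22.mer_small 1 one_pos 1 (Nat.coprime_one_left _) ε' he0
  set A : ℝ := Real.log (2 * C) + Real.log C with hA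
  have hlC : 0 < Real.log C := Real.log_pos hC
  have hl2C : 0 < Real.log (2 * C) := Real.log_pos (by linarith)
  have hA0 : 0 < A := by positivity
  have ht1 : Tendsto (fun N : ℕ => (N : ℝ) ^ η / C) atTop atTop :=
    ((tendsto_rpow_atTop hη).comp tendsto_natCast_atTop_atTop).atTop_div_const (by linarith)
  have hev := (ht1.eventually_ge_atTop (max X (Real.exp (A / ε')))).and (eventually_ge_atTop 1)
  obtain ⟨N0, hN0⟩ := eventually_atTop.1 hev
  refine ⟨N0, fun N hN => ?_⟩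
  obtain ⟨e1, e3⟩ := hN0 N hN
  have hN1 : (1 : ℝ) ≤ N := by exact_mod_cast e3
  set x : ℝ := (N : ℝ) ^ η / C with hx
  set y : ℝ := 2 * C * (N : ℝ) ^ η with hy
  have hxX : X ≤ x := (le_max_left _ _).trans e1
  have hxE : Real.exp (A / ε') ≤ x := (le_max_right _ _).trans e1
  have hNη : 0 < (N : ℝ) ^ η := by positivity
  have hx0 : 0 < x := by positivity
  have hxy : x ≤ y := by
    rw [hx, hy]
    have h1 : (N : ℝ) ^ η / C ≤ (N : ℝ) ^ η := div_le_self hNη.le hC.le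
    nlinarith
  have hlx : A / ε' ≤ Real.log x := by
    rw [Real.le_log_iff_exp_le hx0]
    exact hxE
  have hlx0 : 0 < Real.log x := lt_of_lt_of_le (by positivity) hlx
  have hly : Real.log y = Real.log x + A := by
    have h1 : y = 2 * C * (x * C) := by
      rw [hx, hy]
      field_simp
    rw [h1, Real.log_mul (by positivity) (by positivity), Real.log_mul hx0.ne' (by positivity), hA]
    ring
  set L : ℝ := Real.log (Real.log y / Real.log x) with hL
  have hL1 : L ≤ ε' := by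
    have h1 : 0 < Real.log y / Real.log x := by
      rw [hly]
      positivity
    have h2 := Real.log_le_sub_one_of_pos h1
    refine h2.trans ?_
    rw [hly, add_div, div_self hlx0.ne', add_sub_cancel_left, div_le_iff₀ hlx0]
    rw [div_le_iff₀ he0] at hlx
    linarith
  have hL0 : 0 ≤ L := Real.log_nonneg (by rw [hly, le_div_iff₀ hlx0]; linarith)
  have hmer := (abs_le.1 (hX x y hxX hxy)).2
  have h1 : 1 / (Nat.totient 1 : ℝ) * L = L := by simp
  rw [← hL, h1] at hmer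
  have h2 : ε' * (1 + L) ≤ ε' * 2 := mul_le_mul_of_nonneg_left (by linarith) he0.le
  linarith

end NI52

open NI52 in
/-- **row A7b** -/
theorem stNullI_52 : StNullI := by
  classical
  intro η C hη hη1 hC ε hε
  obtain ⟨N1, hN1⟩ := sum_small η C hη hC ε hε
  refine ⟨max 1 N1, fun N hN => ?_⟩
  have hN0 : 1 ≤ N := (le_max_left _ _).trans hN
  have hsum := hN1 N ((le_max_right _ _).trans hN)
  set x : ℝ := (N : ℝ) ^ η / C with hx
  set y : ℝ := 2 * C * (N : ℝ) ^ η with hy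
  have hNη : 0 < (N : ℝ) ^ η := by
    have : (0 : ℝ) < N := by exact_mod_cast hN0
    positivity
  have hsub : {n : ℕ | 1 ≤ n ∧ n ≤ N ∧ ∃ p : ℕ, p.Prime ∧ p ∣ n ∧
      x < p ∧ (p : ℝ) ≤ C * (N : ℝ) ^ η} ⊆
      (((PA7 1 1 x y).biUnion (fun p => (Finset.Ioc 0 N).filter (fun n => p ∣ n)) :
        Finset ℕ) : Set ℕ) := by
    rintro n ⟨h1, h2, p, hp, hpn, hp1, hp2⟩
    rw [Finset.mem_coe, Finset.mem_biUnion]
    refine ⟨p, ?_, ?_⟩
    · rw [mem_PA7]
      refine ⟨hp, Nat.modEq_one, hp1.le, ?_⟩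
      rw [hy]
      nlinarith [mul_pos (show (0 : ℝ) < C by linarith) hNη]
    · rw [Finset.mem_filter, Finset.mem_Ioc]
      exact ⟨⟨h1, h2⟩, hpn⟩
  calc (Set.ncard {n : ℕ | 1 ≤ n ∧ n ≤ N ∧ ∃ p : ℕ, p.Prime ∧ p ∣ n ∧
        x < p ∧ (p : ℝ) ≤ C * (N : ℝ) ^ η} : ℝ)
      ≤ (Set.ncard (((PA7 1 1 x y).biUnion (fun p => (Finset.Ioc 0 N).filter (fun n => p ∣ n)) :
        Finset ℕ) : Set ℕ) : ℝ) := by
        exact_mod_cast Set.ncard_le_ncard hsub (Finset.finite_toSet _)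
    _ = (((PA7 1 1 x y).biUnion (fun p => (Finset.Ioc 0 N).filter (fun n => p ∣ n))).card : ℝ) := by
        rw [Set.ncard_coe_finset]
    _ ≤ ∑ p ∈ PA7 1 1 x y, (((Finset.Ioc 0 N).filter (fun n => p ∣ n)).card : ℝ) := by
        exact_mod_cast Finset.card_biUnion_le
    _ ≤ ∑ p ∈ PA7 1 1 x y, N * ((1 : ℝ) / p) := by
        refine Finset.sum_le_sum fun p hp => ?_
        rw [Nat.Ioc_filter_dvd_card_eq_div, mul_one_div]
        exact Nat.cast_div_le
    _ = N * ∑ p ∈ PA7 1 1 x y, (1 : ℝ) / p := by rw [Finset.mul_sum]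
    _ ≤ N * ε := mul_le_mul_of_nonneg_left hsum (by positivity)
    _ = ε * N := by ring

end Pool.Agent.Lib.MP_a17b09_nt.AN
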