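import Pool.Agent.Lib.MP_a17b09_nt.AN.Stmts3

/-!
Project AN (MP_a17b09_nt), row A0: every event with positive lower ends is an event with `Ok`.
-/

set_option autoImplicit false

open Filter Topology Finset

namespace Pool.Agent.Lib.MP_a17b09_nt.AN

namespace Ok18

/-- the window is empty -/
def Emp (u v : ℝ) : Prop := 1 ≤ u ∨ v ≤ 0

open Classical in
noncomputable def nu (u v : ℝ) : ℝ := if Emp u v then 1 / 2 else u

open Classical in
noncomputable def nv (u v : ℝ) : ℝ := if Emp u v then 1 / 4 else if 1 ≤ v then 2 else v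

lemma set_eq (u v : ℝ) (n : ℕ) (hn : 1 ≤ n) :
    {p : ℕ | p.Prime ∧ p ∣ n ∧ ((n : ℝ)) ^ u < p ∧ (p : ℝ) ≤ (n : ℝ) ^ v} =
    {p : ℕ | p.Prime ∧ p ∣ n ∧ ((n : ℝ)) ^ nu u v < p ∧ (p : ℝ) ≤ (n : ℝ) ^ nv u v} := by
  have hn1 : (1 : ℝ) ≤ n := by exact_mod_cast hn
  have hle : ∀ {p : ℕ}, p ∣ n → (p : ℝ) ≤ n := fun {p} h => by
    exact_mod_cast Nat.le_of_dvd (by omega) h
  ext p
  simp only [Set.mem_ofPred_eq]
  by_cases hE : Emp u v
  · simp only [nu, nv, if_pos hE]
    constructor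
    · rintro ⟨hp, hd, h1, h2⟩
      exfalso
      rcases hE with h | h
      · have : (n : ℝ) ≤ (n : ℝ) ^ u := by
          simpa using Real.rpow_le_rpow_of_exponent_le hn1 h
        linarith [hle hd]
      · have : (n : ℝ) ^ v ≤ 1 := Real.rpow_le_one_of_one_le_of_nonpos hn1 h
        have h3 : (2 : ℝ) ≤ p := by exact_mod_cast hp.two_le
        linarith
    · rintro ⟨hp, hd, h1, h2⟩
      exfalso
      have : (n : ℝ) ^ (1 / 4 : ℝ) ≤ (n : ℝ) ^ (1 / 2 : ℝ) :=
        Real.rpow_le_rpow_of_exponent_le hn1 (by norm_num)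
      linarith
  · simp only [nu, nv, if_neg hE]
    by_cases hv : 1 ≤ v
    · simp only [if_pos hv]
      constructor
      · rintro ⟨hp, hd, h1, -⟩
        refine ⟨hp, hd, h1, (hle hd).trans ?_⟩
        simpa using Real.rpow_le_rpow_of_exponent_le hn1 (by norm_num : (1 : ℝ) ≤ 2)
      · rintro ⟨hp, hd, h1, -⟩
        refine ⟨hp, hd, h1, (hle hd).trans ?_⟩
        simpa using Real.rpow_le_rpow_of_exponent_le hn1 hv
    · simp only [if_neg hv]

end Ok18

open Ok18 in
/-- (A0) -/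
theorem stOk_18 : StOk := by
  intro E hu
  refine ⟨⟨E.m, fun i => nu (E.u i) (E.v i), fun i => nv (E.u i) (E.v i), E.c⟩, ?_, ?_⟩
  · intro i
    by_cases hE : Emp (E.u i) (E.v i)
    · simp only [nu, nv, if_pos hE]
      norm_num
    · have h1 : E.u i < 1 := not_le.1 fun h => hE (Or.inl h)
      have h2 : 0 < E.v i := not_le.1 fun h => hE (Or.inr h)
      simp only [nu, nv, if_neg hE]
      refine ⟨hu i, h1, ?_⟩
      by_cases hv : 1 ≤ E.v i
      · simp only [if_pos hv]
        right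
        trivial
      · simp only [if_neg hv]
        exact Or.inl ⟨h2, not_le.1 hv⟩
  · intro n hn
    refine forall_congr' fun i => ?_
    have h : cntN (n : ℝ) (E.u i) (E.v i) n =
        cntN (n : ℝ) (nu (E.u i) (E.v i)) (nv (E.u i) (E.v i)) n := by
      unfold cntN
      rw [set_eq (E.u i) (E.v i) n hn]
    rw [h]

end Pool.Agent.Lib.MP_a17b09_nt.AN
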