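import Pool.Agent.Lib.MP_a17b09_nt.AN.FinG_98
import Pool.Agent.Lib.MP_a17b09_nt.HY.EndH20

/-!
Project AN (MP_a17b09_nt), G9 (helper98, fork of helper64's `PQ/X9_64`): the pairs from the counts,
for one polynomial of any sign of the discriminant; the density may be zero.
-/

set_option autoImplicit false

open Filter Topology Finset

namespace Pool.Agent.Lib.MP_a17b09_nt.AN

open CH CH.PE HY
open PQ (TwW)

/-- (G9) -/
theorem stPrG_98 (hU : StMeanU) (_hMean : StMean) : StPrG := by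
  classical
  intro a b c _ hf h _ t₀ α β _ _ κ hκ hlim A B ρ _ hF k hk r s
  obtain ⟨C, hC0, hC⟩ := PQ.T64.lin_of_lim hlim
  have hk' : (0 : ℝ) < k := by exact_mod_cast hk
  have hCW : ∀ N : ℕ, pairCount a b c h t₀ α β (fun t d => A d ∧
      B (a.natAbs * ((fv a b c t).natAbs / d)) ∧ Omn d ≡ r [MOD k] ∧
      Omn ((fv a b c t).natAbs / d) ≡ s [MOD k]) N = CWG a b c α β h t₀ A B k r s N := by
    intro N
    unfold pairCount CWG
    refine Finset.sum_congr rfl fun t _ => ?_
    exact EndH20.ncard_eq (hf t) α β _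
  have hbd : Bdd (fun N : ℕ => (CWG a b c α β h t₀ A B k r s N : ℝ) / N) := by
    refine PQ.T64.bdd_of_le hC0 (fun N => Nat.cast_nonneg _) fun N => ?_
    refine le_trans ?_ (hC N)
    have h1 : CWG a b c α β h t₀ A B k r s N ≤ CST a b c α β h t₀ 1 0 0 N := by
      refine le_trans ?_ (G98.NG_le a b c α β h t₀ A B N)
      rw [G98.CWG_eq]
      exact Finset.sum_le_sum fun t _ => Finset.card_filter_le _ _
    exact_mod_cast h1
  have h1 : ∀ ε : ℝ, 0 < ε → LogNull {N | ε < |(pairCount a b c h t₀ α β (fun t d => A d ∧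
      B (a.natAbs * ((fv a b c t).natAbs / d)) ∧ Omn d ≡ r [MOD k] ∧
      Omn ((fv a b c t).natAbs / d) ≡ s [MOD k]) N : ℝ) / N - ρ * κ / k ^ 2|} := by
    intro ε hε
    have h2 := EndS.logNull_of hU
      (F := fun N : ℕ => |(CWG a b c α β h t₀ A B k r s N : ℝ) / N - ρ * κ / k ^ 2|)
      (Bdd.abs (Bdd.sub hbd (Bdd.const _))) (fun N => abs_nonneg _)
      (fun M => hF k hk r s M) hε
    simpa only [hCW] using h2
  refine ⟨h1, fun hρ => ?_⟩
  have hpos : 0 < ρ * κ / (k : ℝ) ^ 2 := by positivity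
  have hmono : Monotone (fun N : ℕ => (pairCount a b c h t₀ α β (fun t d => A d ∧
      B (a.natAbs * ((fv a b c t).natAbs / d)) ∧ Omn d ≡ r [MOD k] ∧
      Omn ((fv a b c t).natAbs / d) ≡ s [MOD k]) N : ℝ)) := by
    intro N N' hN
    beta_reduce
    have h2 : pairCount a b c h t₀ α β (fun t d => A d ∧
      B (a.natAbs * ((fv a b c t).natAbs / d)) ∧ Omn d ≡ r [MOD k] ∧
      Omn ((fv a b c t).natAbs / d) ≡ s [MOD k]) N ≤ pairCount a b c h t₀ α β (fun t d => A d ∧
      B (a.natAbs * ((fv a b c t).natAbs / d)) ∧ Omn d ≡ r [MOD k] ∧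
      Omn ((fv a b c t).natAbs / d) ≡ s [MOD k]) N' := by
      unfold pairCount
      apply Finset.sum_le_sum_of_subset
      apply Finset.filter_subset_filter
      exact Finset.Icc_subset_Icc le_rfl hN
    exact_mod_cast h2
  exact EndS.lower_all hmono hpos (h1 _ (half_pos hpos))

end Pool.Agent.Lib.MP_a17b09_nt.AN
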