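import Mathlib

set_option autoImplicit false

open Finset

namespace Pool.Agent.Lib.MP_a17b09_nt.AN.Det79

/-- the primes of `n` in the window -/
noncomputable def pw (x : ℝ) (W : ℝ × ℝ) (n : ℕ) : Finset ℕ :=
  n.primeFactors.filter (fun p => x ^ W.1 < (p : ℝ) ∧ (p : ℝ) ≤ x ^ W.2)

noncomputable def cnt (x : ℝ) (W : ℝ × ℝ) (n : ℕ) : ℕ := (pw x W n).card

noncomputable def tup (x : ℝ) : List (ℝ × ℝ) → ℕ → ℝ
  | [], _ => 1
  | W :: L, n => ∑ p ∈ pw x W n, tup x L (n / p)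

theorem tup_nonneg (x : ℝ) (L : List (ℝ × ℝ)) (n : ℕ) : 0 ≤ tup x L n := by
  induction L generalizing n with
  | nil => simp [tup]
  | cons W L ih => exact Finset.sum_nonneg fun p _ => ih _

theorem mem_pw {x : ℝ} {W : ℝ × ℝ} {n p : ℕ} (h : p ∈ pw x W n) :
    p.Prime ∧ p ∣ n ∧ x ^ W.1 < (p : ℝ) ∧ (p : ℝ) ≤ x ^ W.2 := by
  obtain ⟨h1, h2⟩ := Finset.mem_filter.1 h
  exact ⟨Nat.prime_of_mem_primeFactors h1, Nat.dvd_of_mem_primeFactors h1, h2.1, h2.2⟩

/-- removing a prime outside the window -/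
theorem pw_div {x : ℝ} {W : ℝ × ℝ} {n p : ℕ} (hn : n ≠ 0) (hp : p ∈ n.primeFactors)
    (hW : ¬ (x ^ W.1 < (p : ℝ) ∧ (p : ℝ) ≤ x ^ W.2)) : pw x W (n / p) = pw x W n := by
  have hpp := Nat.prime_of_mem_primeFactors hp
  have hpd := Nat.dvd_of_mem_primeFactors hp
  have hq0 : n / p ≠ 0 := (Nat.div_pos (Nat.le_of_dvd (Nat.pos_of_ne_zero hn) hpd) hpp.pos).ne'
  ext q
  unfold pw
  simp only [Finset.mem_filter, Nat.mem_primeFactors]
  constructor
  · rintro ⟨⟨h1, h2, -⟩, h3⟩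
    exact ⟨⟨h1, h2.trans (Nat.div_dvd_of_dvd hpd), hn⟩, h3⟩
  · rintro ⟨⟨h1, h2, -⟩, h3⟩
    refine ⟨⟨h1, ?_, hq0⟩, h3⟩
    have h4 : q ∣ p * (n / p) := by rwa [Nat.mul_div_cancel' hpd]
    rcases h1.dvd_mul.1 h4 with h5 | h5
    · exfalso
      rw [Nat.prime_dvd_prime_iff_eq h1 hpp] at h5
      rw [h5] at h3
      exact hW h3
    · exact h5

/-- removing any prime: at most one prime less -/
theorem cnt_div {x : ℝ} {W : ℝ × ℝ} {n p : ℕ} (hn : n ≠ 0) (hp : p ∈ n.primeFactors) :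
    cnt x W n ≤ cnt x W (n / p) + 1 := by
  have hpp := Nat.prime_of_mem_primeFactors hp
  have hpd := Nat.dvd_of_mem_primeFactors hp
  have hq0 : n / p ≠ 0 := (Nat.div_pos (Nat.le_of_dvd (Nat.pos_of_ne_zero hn) hpd) hpp.pos).ne'
  unfold cnt
  have : pw x W n ⊆ insert p (pw x W (n / p)) := by
    intro q hq
    rw [Finset.mem_insert]
    by_cases h0 : q = p
    · exact Or.inl h0
    · right
      obtain ⟨h1, h2, h3⟩ := mem_pw hq
      have h4 : q ∣ p * (n / p) := by rwa [Nat.mul_div_cancel' hpd]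
      rcases h1.dvd_mul.1 h4 with h5 | h5
      · rw [Nat.prime_dvd_prime_iff_eq h1 hpp] at h5
        exact absurd h5 h0
      · exact Finset.mem_filter.2 ⟨Nat.mem_primeFactors.2 ⟨h1, h5, hq0⟩, h3⟩
  exact (Finset.card_le_card this).trans (Finset.card_insert_le _ _)

/-- disjoint windows -/
def Dj (V W : ℝ × ℝ) : Prop := V.2 ≤ W.1 ∨ W.2 ≤ V.1

theorem not_mem_of_dj {x : ℝ} (hx : 1 ≤ x) {V W : ℝ × ℝ} (h : Dj V W) {p : ℕ}
    (hp : x ^ V.1 < (p : ℝ) ∧ (p : ℝ) ≤ x ^ V.2) : ¬ (x ^ W.1 < (p : ℝ) ∧ (p : ℝ) ≤ x ^ W.2) := by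
  rintro ⟨h1, h2⟩
  rcases h with h | h
  · have := Real.rpow_le_rpow_of_exponent_le hx h
    linarith [hp.2]
  · have := Real.rpow_le_rpow_of_exponent_le hx h
    linarith [hp.1]

theorem tup_prod {x : ℝ} (hx : 1 ≤ x) (L : List (ℝ × ℝ)) (hL : L.Pairwise Dj) {n : ℕ}
    (hn : n ≠ 0) : tup x L n = (L.map (fun W => (cnt x W n : ℝ))).prod := by
  induction L generalizing n with
  | nil => simp [tup]
  | cons W L ih =>
    rw [List.pairwise_cons] at hL
    unfold tup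
    have h1 : ∀ p ∈ pw x W n, tup x L (n / p) = (L.map (fun V => (cnt x V n : ℝ))).prod := by
      intro p hp
      obtain ⟨h2, h3, h4⟩ := mem_pw hp
      have hq0 : n / p ≠ 0 :=
        (Nat.div_pos (Nat.le_of_dvd (Nat.pos_of_ne_zero hn) h3) h2.pos).ne'
      rw [ih hL.2 hq0]
      congr 1
      apply List.map_congr_left
      intro V hV
      unfold cnt
      rw [pw_div hn (Nat.mem_primeFactors.2 ⟨h2, h3, hn⟩) (not_mem_of_dj hx (hL.1 V hV) h4)]
    rw [Finset.sum_congr rfl h1, Finset.sum_const, nsmul_eq_mul, List.map_cons, List.prod_cons]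
    rfl

/-- a tuple forces `n` to be large -/
theorem size_of_tup {x : ℝ} (hx : 1 ≤ x) (L : List (ℝ × ℝ)) {n : ℕ} (hn : n ≠ 0)
    (h : tup x L n ≠ 0) : x ^ (L.map Prod.fst).sum ≤ (n : ℝ) := by
  induction L generalizing n with
  | nil =>
    simp only [List.map_nil, List.sum_nil, Real.rpow_zero]
    exact_mod_cast Nat.pos_of_ne_zero hn
  | cons W L ih =>
    unfold tup at h
    obtain ⟨p, hp, hne⟩ := Finset.exists_ne_zero_of_sum_ne_zero h
    obtain ⟨h2, h3, h4⟩ := mem_pw hp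
    have hq0 : n / p ≠ 0 :=
      (Nat.div_pos (Nat.le_of_dvd (Nat.pos_of_ne_zero hn) h3) h2.pos).ne'
    have h5 := ih hq0 hne
    have hx0 : (0 : ℝ) < x := by linarith
    rw [List.map_cons, List.sum_cons, Real.rpow_add hx0]
    have h6 : (n : ℝ) = (p : ℝ) * ((n / p : ℕ) : ℝ) := by
      rw [← Nat.cast_mul, Nat.mul_div_cancel' h3]
    rw [h6]
    exact mul_le_mul h4.1.le h5 (Real.rpow_nonneg hx0.le _) (by positivity)

theorem tup_pair {x : ℝ} (W : ℝ × ℝ) {n : ℕ} (hn : n ≠ 0) :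
    (cnt x W n : ℝ) * ((cnt x W n : ℝ) - 1) ≤ tup x [W, W] n := by
  have h1 : tup x [W, W] n = ∑ p ∈ pw x W n, (cnt x W (n / p) : ℝ) := by
    unfold tup
    apply Finset.sum_congr rfl
    intro p _
    unfold tup
    simp [tup, cnt]
  rw [h1]
  have h2 : ∀ p ∈ pw x W n, (cnt x W n : ℝ) - 1 ≤ (cnt x W (n / p) : ℝ) := by
    intro p hp
    have h3 := cnt_div (x := x) (W := W) hn (Finset.mem_filter.1 hp).1
    have h4 : (cnt x W n : ℝ) ≤ (cnt x W (n / p) : ℝ) + 1 := by exact_mod_cast h3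
    linarith
  calc (cnt x W n : ℝ) * ((cnt x W n : ℝ) - 1) = ∑ p ∈ pw x W n, ((cnt x W n : ℝ) - 1) := by
        rw [Finset.sum_const, nsmul_eq_mul]
        rfl
    _ ≤ _ := Finset.sum_le_sum h2

theorem tup_single (x : ℝ) (W : ℝ × ℝ) (n : ℕ) : tup x [W] n = cnt x W n := by
  simp [tup, cnt]


section cells

variable {x : ℝ} {I : Finset ℝ} {W : ℝ → ℝ × ℝ}

/-- the occupied cells -/
noncomputable def supp (x : ℝ) (I : Finset ℝ) (W : ℝ → ℝ × ℝ) (n : ℕ) : Finset ℝ :=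
  I.filter (fun i => cnt x (W i) n ≠ 0)

/-- the primes above `x ^ c` -/
theorem card_big {c C : ℝ} {R : ℕ} (hx : 1 ≤ x) (hR : C * x < x ^ (c * (R + 1))) (hc : 0 ≤ c)
    {n : ℕ} (hn : n ≠ 0) (hnx : (n : ℝ) ≤ C * x) :
    (n.primeFactors.filter (fun p : ℕ => x ^ c < (p : ℝ))).card ≤ R := by
  by_contra hcon
  push Not at hcon
  set Z := n.primeFactors.filter (fun p : ℕ => x ^ c < (p : ℝ)) with hZ
  have h1 : (∏ p ∈ Z, p) ∣ n :=
    (Finset.prod_dvd_prod_of_subset _ _ _ (Finset.filter_subset _ _)).trans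
      (Nat.prod_primeFactors_dvd n)
  have h2 : ((∏ p ∈ Z, p : ℕ) : ℝ) ≤ n := by
    exact_mod_cast Nat.le_of_dvd (Nat.pos_of_ne_zero hn) h1
  have hx0 : (0 : ℝ) < x := by linarith
  have h3 : (x ^ c) ^ Z.card ≤ ((∏ p ∈ Z, p : ℕ) : ℝ) := by
    rw [Nat.cast_prod, ← Finset.prod_const]
    exact Finset.prod_le_prod (fun i _ => Real.rpow_nonneg hx0.le _)
      fun i hi => (Finset.mem_filter.1 hi).2.le
  have h4 : x ^ (c * (R + 1)) ≤ (x ^ c) ^ Z.card := by
    rw [← Real.rpow_natCast (x ^ c), ← Real.rpow_mul hx0.le]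
    apply Real.rpow_le_rpow_of_exponent_le hx
    apply mul_le_mul_of_nonneg_left _ hc
    exact_mod_cast hcon
  linarith

theorem sum_cnt {c C : ℝ} {R : ℕ} (hx : 1 ≤ x) (hR : C * x < x ^ (c * (R + 1))) (hc : 0 ≤ c)
    (hI : ∀ i ∈ I, c ≤ (W i).1) (hdj : ∀ i ∈ I, ∀ j ∈ I, i ≠ j → Dj (W i) (W j))
    {n : ℕ} (hn : n ≠ 0) (hnx : (n : ℝ) ≤ C * x) : ∑ i ∈ I, cnt x (W i) n ≤ R := by
  unfold cnt
  rw [← Finset.card_biUnion]
  · refine le_trans (Finset.card_le_card ?_) (card_big hx hR hc hn hnx)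
    intro p hp
    obtain ⟨i, hi, hpi⟩ := Finset.mem_biUnion.1 hp
    obtain ⟨h1, h2, h3, h4⟩ := mem_pw hpi
    refine Finset.mem_filter.2 ⟨(Finset.mem_filter.1 hpi).1, ?_⟩
    exact lt_of_le_of_lt (Real.rpow_le_rpow_of_exponent_le hx (hI i hi)) h3
  · intro i hi j hj hij
    refine Finset.disjoint_left.2 fun p h1 h2 => ?_
    exact not_mem_of_dj hx (hdj i hi j hj hij) (mem_pw h1).2.2 (mem_pw h2).2.2

/-- tuples over a set of cells -/
theorem tup_set (hx : 1 ≤ x) (hdj : ∀ i ∈ I, ∀ j ∈ I, i ≠ j → Dj (W i) (W j)) {T : Finset ℝ}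
    (hT : T ⊆ I) {n : ℕ} (hn : n ≠ 0) :
    tup x (T.toList.map W) n = ∏ i ∈ T, (cnt x (W i) n : ℝ) := by
  rw [tup_prod hx _ _ hn, List.map_map]
  · rw [← Finset.prod_map_toList]
    rfl
  · rw [List.pairwise_map]
    exact (Finset.nodup_toList T).imp_of_mem fun {i j} hi hj hij =>
      hdj i (hT (Finset.mem_toList.1 hi)) j (hT (Finset.mem_toList.1 hj)) hij

/-- the identity of the occupied cells -/
theorem cell_identity (g : Finset ℝ → ℝ) (a : ℝ → ℝ) (ha : ∀ i ∈ I, a i = 0 ∨ a i = 1) :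
    ∑ p ∈ (I.powerset ×ˢ I.powerset).filter (fun p => Disjoint p.1 p.2),
      g p.1 * (-1) ^ p.2.card * ∏ i ∈ p.1 ∪ p.2, a i = g (I.filter (fun i => a i ≠ 0)) := by
  classical
  have h1 : ∑ p ∈ (I.powerset ×ˢ I.powerset).filter (fun p => Disjoint p.1 p.2),
      g p.1 * (-1) ^ p.2.card * ∏ i ∈ p.1 ∪ p.2, a i =
      ∑ S ∈ I.powerset, ∑ U ∈ (I \ S).powerset,
        g S * (-1) ^ U.card * ∏ i ∈ S ∪ U, a i := by
    rw [Finset.sum_filter, Finset.sum_product]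
    apply Finset.sum_congr rfl
    intro S hS
    rw [← Finset.sum_filter]
    apply Finset.sum_congr
    · ext U
      rw [Finset.mem_filter, Finset.mem_powerset, Finset.mem_powerset, Finset.subset_sdiff]
      exact ⟨fun h => ⟨h.1, h.2.symm⟩, fun h => ⟨h.1, h.2.symm⟩⟩
    · intros; rfl
  rw [h1]
  have h2 : ∀ S ∈ I.powerset, ∑ U ∈ (I \ S).powerset, g S * (-1) ^ U.card * ∏ i ∈ S ∪ U, a i =
      g S * ((∏ i ∈ S, a i) * ∏ i ∈ I \ S, (1 - a i)) := by
    intro S _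
    have h3 : ∏ i ∈ I \ S, (1 - a i) = ∑ U ∈ (I \ S).powerset, (-1) ^ U.card * ∏ i ∈ U, a i := by
      have h4 : ∀ i ∈ I \ S, (1 - a i) = (-a i) + 1 := fun i _ => by ring
      rw [Finset.prod_congr rfl h4, Finset.prod_add]
      apply Finset.sum_congr rfl
      intro U _
      rw [Finset.prod_neg, Finset.prod_const_one, mul_one]
    rw [h3, Finset.mul_sum, Finset.mul_sum]
    apply Finset.sum_congr rfl
    intro U hU
    rw [Finset.mem_powerset, Finset.subset_sdiff] at hU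
    rw [Finset.prod_union hU.2.symm]
    ring
  rw [Finset.sum_congr rfl h2]
  rw [Finset.sum_eq_single (I.filter (fun i => a i ≠ 0))]
  · have h5 : ∏ i ∈ I.filter (fun i => a i ≠ 0), a i = 1 := by
      apply Finset.prod_eq_one
      intro i hi
      obtain ⟨h6, h7⟩ := Finset.mem_filter.1 hi
      exact (ha i h6).resolve_left h7
    have h6 : ∏ i ∈ I \ I.filter (fun i => a i ≠ 0), (1 - a i) = 1 := by
      apply Finset.prod_eq_one
      intro i hi
      obtain ⟨h7, h8⟩ := Finset.mem_sdiff.1 hi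
      have h9 : a i = 0 := by
        by_contra h10
        exact h8 (Finset.mem_filter.2 ⟨h7, h10⟩)
      rw [h9, sub_zero]
    rw [h5, h6]
    ring
  · intro S hS hne
    rw [Finset.mem_powerset] at hS
    have h7 : (∏ i ∈ S, a i) * ∏ i ∈ I \ S, (1 - a i) = 0 := by
      by_contra h8
      apply hne
      ext i
      rw [Finset.mem_filter]
      constructor
      · intro hi
        refine ⟨hS hi, fun h9 => h8 ?_⟩
        rw [Finset.prod_eq_zero hi h9, zero_mul]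
      · rintro ⟨hi, h9⟩
        by_contra h10
        apply h8
        rw [Finset.prod_eq_zero (i := i) (s := I \ S) (Finset.mem_sdiff.2 ⟨hi, h10⟩), mul_zero]
        rw [(ha i hi).resolve_left h9, sub_self]
    rw [h7, mul_zero]
  · intro h
    exact absurd (Finset.mem_powerset.2 (Finset.filter_subset _ _)) h


variable {c C e0 η : ℝ} {R : ℕ}

theorem bad_set (hx : 1 ≤ x) (hR : C * x < x ^ (c * (R + 1))) (hC : C < x ^ (e0 / 2))
    (hc : 0 < c) (hη : 0 ≤ η) (hηR : (R + 2) * η ≤ e0 / 2)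
    (hI : ∀ i ∈ I, c ≤ (W i).1 ∧ (W i).2 ≤ (W i).1 + η)
    (hdj : ∀ i ∈ I, ∀ j ∈ I, i ≠ j → Dj (W i) (W j)) {n : ℕ} (hn : n ≠ 0)
    (hnx : (n : ℝ) ≤ C * x) {T : Finset ℝ} (hT : T ⊆ I) (hT0 : ∀ i ∈ T, cnt x (W i) n ≠ 0)
    (hT1 : 1 ≤ ∑ i ∈ T, (W i).2) : cnt x (e0, c) n = 0 := by
  by_contra hJ
  have hx0 : (0 : ℝ) < x := by linarith
  have hcard : (T.card : ℝ) ≤ R := by
    have h1 := sum_cnt hx hR hc.le (fun i hi => (hI i hi).1) hdj hn hnx
    have h2 : T.card ≤ ∑ i ∈ T, cnt x (W i) n := by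
      rw [Finset.card_eq_sum_ones]
      exact Finset.sum_le_sum fun i hi => Nat.one_le_iff_ne_zero.2 (hT0 i hi)
    have h3 : ∑ i ∈ T, cnt x (W i) n ≤ ∑ i ∈ I, cnt x (W i) n :=
      Finset.sum_le_sum_of_subset hT
    exact_mod_cast h2.trans (h3.trans h1)
  have hne : tup x ((e0, c) :: T.toList.map W) n ≠ 0 := by
    rw [tup_prod hx _ _ hn, List.map_cons, List.prod_cons, List.map_map]
    · have h1 : (List.map ((fun V => (cnt x V n : ℝ)) ∘ W) T.toList).prod =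
          ∏ i ∈ T, (cnt x (W i) n : ℝ) := by
        rw [← Finset.prod_map_toList]
        rfl
      rw [h1]
      refine mul_ne_zero (by exact_mod_cast hJ) (Finset.prod_ne_zero_iff.2 fun i hi => ?_)
      exact_mod_cast hT0 i hi
    · rw [List.pairwise_cons]
      constructor
      · intro V hV
        obtain ⟨i, hi, rfl⟩ := List.mem_map.1 hV
        exact Or.inl (hI i (hT (Finset.mem_toList.1 hi))).1
      · rw [List.pairwise_map]
        exact (Finset.nodup_toList T).imp_of_mem fun {i j} hi hj hij =>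
          hdj i (hT (Finset.mem_toList.1 hi)) j (hT (Finset.mem_toList.1 hj)) hij
  have h1 := size_of_tup hx _ hn hne
  have h2 : (((e0, c) :: T.toList.map W).map Prod.fst).sum = e0 + ∑ i ∈ T, (W i).1 := by
    rw [List.map_cons, List.sum_cons, List.map_map, ← Finset.sum_map_toList]
    rfl
  rw [h2] at h1
  have h3 : 1 - R * η ≤ ∑ i ∈ T, (W i).1 := by
    have h4 : ∑ i ∈ T, (W i).2 ≤ ∑ i ∈ T, ((W i).1 + η) :=
      Finset.sum_le_sum fun i hi => (hI i (hT hi)).2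
    rw [Finset.sum_add_distrib, Finset.sum_const, nsmul_eq_mul] at h4
    have h5 : (T.card : ℝ) * η ≤ R * η := mul_le_mul_of_nonneg_right hcard hη
    linarith
  have h4 : x ^ (e0 / 2 + 1) ≤ x ^ (e0 + ∑ i ∈ T, (W i).1) := by
    apply Real.rpow_le_rpow_of_exponent_le hx
    nlinarith
  rw [Real.rpow_add hx0, Real.rpow_one] at h4
  have h5 : C * x < x ^ (e0 / 2) * x := mul_lt_mul_of_pos_right hC hx0
  linarith

theorem bad_two (hx : 1 ≤ x) (hC : C < x ^ (e0 / 2)) (hη : 0 ≤ η)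
    (hηR : (R + 2) * η ≤ e0 / 2) (hI : ∀ i ∈ I, c ≤ (W i).1 ∧ (W i).2 ≤ (W i).1 + η)
    {n : ℕ} (hn : n ≠ 0) (hnx : (n : ℝ) ≤ C * x) {i : ℝ} (hi : i ∈ I)
    (h2 : 2 ≤ cnt x (W i) n) (hT1 : 1 ≤ 2 * (W i).2) : cnt x (e0, c) n = 0 := by
  by_contra hJ
  have hx0 : (0 : ℝ) < x := by linarith
  obtain ⟨p, hp⟩ : (pw x (e0, c) n).Nonempty := by
    rw [Finset.nonempty_iff_ne_empty]
    rintro h0
    apply hJ
    unfold cnt
    rw [h0, Finset.card_empty]
  obtain ⟨h3, h4, h5⟩ := mem_pw hp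
  have hq0 : n / p ≠ 0 :=
    (Nat.div_pos (Nat.le_of_dvd (Nat.pos_of_ne_zero hn) h4) h3.pos).ne'
  have h6 : cnt x (W i) (n / p) = cnt x (W i) n := by
    unfold cnt
    rw [pw_div hn (Nat.mem_primeFactors.2 ⟨h3, h4, hn⟩)
      (not_mem_of_dj hx (Or.inl (hI i hi).1) h5)]
  have h7 : 0 < tup x [W i, W i] (n / p) := by
    refine lt_of_lt_of_le ?_ (tup_pair (W i) hq0)
    rw [h6]
    have h8 : (2 : ℝ) ≤ cnt x (W i) n := by exact_mod_cast h2
    apply mul_pos <;> linarith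
  have hne : tup x [(e0, c), W i, W i] n ≠ 0 := by
    apply ne_of_gt
    refine lt_of_lt_of_le h7 ?_
    exact Finset.single_le_sum (f := fun p => tup x [W i, W i] (n / p))
      (fun q _ => tup_nonneg x _ _) hp
  have h1 := size_of_tup hx _ hn hne
  have h8 : ([(e0, c), W i, W i].map Prod.fst).sum = e0 + 2 * (W i).1 := by
    simp only [List.map_cons, List.map_nil, List.sum_cons, List.sum_nil]
    ring
  rw [h8] at h1
  have h9 := (hI i hi).2
  have h10 : x ^ (e0 / 2 + 1) ≤ x ^ (e0 + 2 * (W i).1) := by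
    apply Real.rpow_le_rpow_of_exponent_le hx
    have : (0 : ℝ) ≤ R * η := by positivity
    nlinarith
  rw [Real.rpow_add hx0, Real.rpow_one] at h10
  have h5 : C * x < x ^ (e0 / 2) * x := mul_lt_mul_of_pos_right hC hx0
  linarith

/-- the disjoint pairs of sets of cells -/
noncomputable def Prs (I : Finset ℝ) : Finset (Finset ℝ × Finset ℝ) :=
  (I.powerset ×ˢ I.powerset).filter (fun p => Disjoint p.1 p.2)

theorem mem_Prs {p : Finset ℝ × Finset ℝ} (hp : p ∈ Prs I) : p.1 ⊆ I ∧ p.2 ⊆ I := by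
  obtain ⟨h1, -⟩ := Finset.mem_filter.1 hp
  obtain ⟨h2, h3⟩ := Finset.mem_product.1 h1
  exact ⟨Finset.mem_powerset.1 h2, Finset.mem_powerset.1 h3⟩

/-- the terms -/
noncomputable def term (x : ℝ) (W : ℝ → ℝ × ℝ) (g : Finset ℝ → ℝ) (p : Finset ℝ × Finset ℝ)
    (n : ℕ) : ℝ := g p.1 * (-1) ^ p.2.card * ∏ i ∈ p.1 ∪ p.2, (cnt x (W i) n : ℝ)

theorem term_zero {g : Finset ℝ → ℝ} {p : Finset ℝ × Finset ℝ} {n : ℕ} (hp : p ∈ Prs I)
    (h : ¬ (p.1 ⊆ supp x I W n ∧ p.2 ⊆ supp x I W n)) : term x W g p n = 0 := by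
  unfold term
  have h1 : ∃ i ∈ p.1 ∪ p.2, (cnt x (W i) n : ℝ) = 0 := by
    by_contra hcon
    push Not at hcon
    apply h
    constructor
    · intro i hi
      exact Finset.mem_filter.2 ⟨(mem_Prs hp).1 hi, by
        exact_mod_cast hcon i (Finset.mem_union_left _ hi)⟩
    · intro i hi
      exact Finset.mem_filter.2 ⟨(mem_Prs hp).2 hi, by
        exact_mod_cast hcon i (Finset.mem_union_right _ hi)⟩
  obtain ⟨i, hi, h2⟩ := h1
  rw [Finset.prod_eq_zero hi h2, mul_zero]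

theorem term_le {g : Finset ℝ → ℝ} (hg : ∀ S, |g S| ≤ 1) {p : Finset ℝ × Finset ℝ} {n : ℕ}
    (hp : p ∈ Prs I) (hs : ∑ i ∈ I, cnt x (W i) n ≤ R) :
    |term x W g p n| ≤ if p.1 ⊆ supp x I W n ∧ p.2 ⊆ supp x I W n then ((R : ℝ) + 1) ^ R
      else 0 := by
  split_ifs with h
  · unfold term
    have h0 : 0 ≤ ∏ i ∈ p.1 ∪ p.2, (cnt x (W i) n : ℝ) :=
      Finset.prod_nonneg fun i _ => Nat.cast_nonneg _
    rw [abs_mul, abs_mul, abs_pow, abs_neg, abs_one, one_pow, mul_one, abs_of_nonneg h0]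
    have hU : p.1 ∪ p.2 ⊆ I := Finset.union_subset (mem_Prs hp).1 (mem_Prs hp).2
    have hs' : ∀ i ∈ p.1 ∪ p.2, i ∈ supp x I W n := fun i hi =>
      (Finset.union_subset h.1 h.2) hi
    have h1 : ∀ i ∈ p.1 ∪ p.2, (cnt x (W i) n : ℝ) ≤ (R : ℝ) + 1 := by
      intro i hi
      have h2 : cnt x (W i) n ≤ R :=
        (Finset.single_le_sum (f := fun i => cnt x (W i) n) (fun _ _ => Nat.zero_le _)
          (hU hi)).trans hs
      have h3 : (cnt x (W i) n : ℝ) ≤ R := by exact_mod_cast h2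
      linarith
    have h2 : ∏ i ∈ p.1 ∪ p.2, (cnt x (W i) n : ℝ) ≤ ((R : ℝ) + 1) ^ (p.1 ∪ p.2).card := by
      rw [← Finset.prod_const]
      exact Finset.prod_le_prod (fun i _ => Nat.cast_nonneg _) h1
    have h3 : (p.1 ∪ p.2).card ≤ R := by
      refine le_trans ?_ hs
      calc (p.1 ∪ p.2).card = ∑ i ∈ p.1 ∪ p.2, 1 := by rw [Finset.card_eq_sum_ones]
        _ ≤ ∑ i ∈ p.1 ∪ p.2, cnt x (W i) n := Finset.sum_le_sum fun i hi =>
            Nat.one_le_iff_ne_zero.2 (Finset.mem_filter.1 (hs' i hi)).2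
        _ ≤ ∑ i ∈ I, cnt x (W i) n := Finset.sum_le_sum_of_subset hU
    have h4 : ((R : ℝ) + 1) ^ (p.1 ∪ p.2).card ≤ ((R : ℝ) + 1) ^ R :=
      pow_le_pow_right₀ (by linarith [(Nat.cast_nonneg R : (0 : ℝ) ≤ R)]) h3
    calc |g p.1| * ∏ i ∈ p.1 ∪ p.2, (cnt x (W i) n : ℝ) ≤ 1 * ((R : ℝ) + 1) ^ R :=
          mul_le_mul (hg _) (h2.trans h4) (Finset.prod_nonneg fun i _ => Nat.cast_nonneg _)
            zero_le_one
      _ = _ := one_mul _
  · rw [term_zero hp h, abs_zero]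

theorem sum_term_le {g : Finset ℝ → ℝ} (hg : ∀ S, |g S| ≤ 1) {n : ℕ}
    (hs : ∑ i ∈ I, cnt x (W i) n ≤ R) {Q : Finset (Finset ℝ × Finset ℝ)} (hQ : Q ⊆ Prs I) :
    |∑ p ∈ Q, term x W g p n| ≤ 4 ^ R * ((R : ℝ) + 1) ^ R := by
  have hcs : (supp x I W n).card ≤ R := by
    refine le_trans ?_ hs
    calc (supp x I W n).card = ∑ i ∈ supp x I W n, 1 := by rw [Finset.card_eq_sum_ones]
      _ ≤ ∑ i ∈ supp x I W n, cnt x (W i) n := Finset.sum_le_sum fun i hi =>
          Nat.one_le_iff_ne_zero.2 (Finset.mem_filter.1 hi).2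
      _ ≤ ∑ i ∈ I, cnt x (W i) n := Finset.sum_le_sum_of_subset (Finset.filter_subset _ _)
  refine (Finset.abs_sum_le_sum_abs _ _).trans ?_
  refine (Finset.sum_le_sum fun p hp => term_le hg (hQ hp) hs).trans ?_
  rw [← Finset.sum_filter, Finset.sum_const, nsmul_eq_mul]
  apply mul_le_mul_of_nonneg_right _ (by positivity)
  have h1 : (Q.filter (fun p => p.1 ⊆ supp x I W n ∧ p.2 ⊆ supp x I W n)).card ≤
      ((supp x I W n).powerset ×ˢ (supp x I W n).powerset).card := by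
    apply Finset.card_le_card
    intro p hp
    obtain ⟨-, h2, h3⟩ := Finset.mem_filter.1 hp
    exact Finset.mem_product.2 ⟨Finset.mem_powerset.2 h2, Finset.mem_powerset.2 h3⟩
  rw [Finset.card_product, Finset.card_powerset] at h1
  have h2 : 2 ^ (supp x I W n).card * 2 ^ (supp x I W n).card ≤ 4 ^ R := by
    calc 2 ^ (supp x I W n).card * 2 ^ (supp x I W n).card ≤ 2 ^ R * 2 ^ R :=
          Nat.mul_le_mul (Nat.pow_le_pow_right (by norm_num) hcs)
            (Nat.pow_le_pow_right (by norm_num) hcs)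
      _ = 4 ^ R := by rw [← mul_pow]; norm_num
  exact_mod_cast h1.trans h2

/-- **the deterministic inequality**, counts form -/
theorem det_core (hx : 1 ≤ x) (hR : C * x < x ^ (c * (R + 1))) (hC : C < x ^ (e0 / 2))
    (hc : 0 < c) (hη : 0 ≤ η) (hηR : (R + 2) * η ≤ e0 / 2)
    (hI : ∀ i ∈ I, c ≤ (W i).1 ∧ (W i).2 ≤ (W i).1 + η)
    (hdj : ∀ i ∈ I, ∀ j ∈ I, i ≠ j → Dj (W i) (W j)) {n : ℕ} (hn : n ≠ 0)
    (hnx : (n : ℝ) ≤ C * x) {g : Finset ℝ → ℝ} (hg : ∀ S, |g S| ≤ 1) {b : ℝ} (hb : |b| ≤ 1)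
    (hE : (∀ i ∈ I, cnt x (W i) n ≤ 1) → b = g (supp x I W n)) :
    |b - ∑ p ∈ (Prs I).filter (fun p => ∑ i ∈ p.1 ∪ p.2, (W i).2 < 1), term x W g p n| ≤
      (1 + 4 ^ R * ((R : ℝ) + 1) ^ R) * (∑ i ∈ I.filter (fun i => 2 * (W i).2 < 1),
        tup x [W i, W i] n + if cnt x (e0, c) n = 0 then 1 else 0) := by
  classical
  have hs := sum_cnt hx hR hc.le (fun i hi => (hI i hi).1) hdj hn hnx
  have hK : (0 : ℝ) ≤ 4 ^ R * ((R : ℝ) + 1) ^ R := by positivity
  have hT0 : 0 ≤ ∑ i ∈ I.filter (fun i => 2 * (W i).2 < 1), tup x [W i, W i] n :=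
    Finset.sum_nonneg fun i _ => tup_nonneg x _ _
  by_cases h1 : ∀ i ∈ I, cnt x (W i) n ≤ 1
  · -- all cells have at most one prime
    have h2 : ∑ p ∈ Prs I, term x W g p n = b := by
      rw [hE h1]
      unfold Prs term
      rw [cell_identity g (fun i => (cnt x (W i) n : ℝ)) fun i hi => by
        have := h1 i hi
        interval_cases h3 : cnt x (W i) n
        · left; simp
        · right; simp]
      congr 1
      unfold supp
      apply Finset.filter_congr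
      intro i _
      exact Nat.cast_ne_zero
    have h3 := Finset.sum_filter_add_sum_filter_not (Prs I)
      (fun p => ∑ i ∈ p.1 ∪ p.2, (W i).2 < 1) (fun p => term x W g p n)
    rw [h2] at h3
    have h4 : b - ∑ p ∈ (Prs I).filter (fun p => ∑ i ∈ p.1 ∪ p.2, (W i).2 < 1),
        term x W g p n = ∑ p ∈ (Prs I).filter (fun p => ¬ ∑ i ∈ p.1 ∪ p.2, (W i).2 < 1),
        term x W g p n := by linarith
    rw [h4]
    split_ifs with h5
    · refine (sum_term_le hg hs (Finset.filter_subset _ _)).trans ?_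
      nlinarith
    · rw [Finset.sum_eq_zero, abs_zero]
      · positivity
      · intro p hp
        obtain ⟨h6, h7⟩ := Finset.mem_filter.1 hp
        apply term_zero h6
        rintro ⟨h8, h9⟩
        apply h5
        refine bad_set hx hR hC hc hη hηR hI hdj hn hnx
          (Finset.union_subset (mem_Prs h6).1 (mem_Prs h6).2) (fun i hi => ?_) (not_lt.1 h7)
        exact (Finset.mem_filter.1 ((Finset.union_subset h8 h9) hi)).2
  · -- a cell with two primes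
    push Not at h1
    obtain ⟨i, hi, h2⟩ := h1
    have h3 : |b - ∑ p ∈ (Prs I).filter (fun p => ∑ i ∈ p.1 ∪ p.2, (W i).2 < 1),
        term x W g p n| ≤ 1 + 4 ^ R * ((R : ℝ) + 1) ^ R := by
      refine (abs_sub _ _).trans ?_
      exact add_le_add hb (sum_term_le hg hs (Finset.filter_subset _ _))
    have h4 : 1 ≤ ∑ i ∈ I.filter (fun i => 2 * (W i).2 < 1), tup x [W i, W i] n +
        if cnt x (e0, c) n = 0 then (1 : ℝ) else 0 := by
      by_cases h5 : 2 * (W i).2 < 1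
      · have h6 : 1 ≤ tup x [W i, W i] n := by
          refine le_trans ?_ (tup_pair (W i) hn)
          have h8 : (2 : ℝ) ≤ cnt x (W i) n := by exact_mod_cast h2
          nlinarith
        have h7 : tup x [W i, W i] n ≤
            ∑ i ∈ I.filter (fun i => 2 * (W i).2 < 1), tup x [W i, W i] n :=
          Finset.single_le_sum (f := fun i => tup x [W i, W i] n)
            (fun i _ => tup_nonneg x _ _) (Finset.mem_filter.2 ⟨hi, h5⟩)
        have h8 : (0 : ℝ) ≤ if cnt x (e0, c) n = 0 then (1 : ℝ) else 0 := by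
          split_ifs <;> norm_num
        linarith
      · rw [if_pos (bad_two hx hC hη hηR hI hn hnx hi h2 (not_lt.1 h5))]
        linarith
    nlinarith

end cells

end Pool.Agent.Lib.MP_a17b09_nt.AN.Det79
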