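import Pool.Agent.Lib.MP_a17b09_nt.AN.Stmts3
import Pool.Agent.Lib.MP_a17b09_nt.AN.Det79

/-!
Project AN, row A6 (helper79): the deterministic inequality `StPt`.
-/

set_option autoImplicit false

open Filter Topology Finset

namespace Pool.Agent.Lib.MP_a17b09_nt.AN

namespace Pt79

open Det79

/-- the window of `PW` -/
theorem pw_eq {x : ℝ} (hx : 0 < x) (W : ℝ × ℝ) {n : ℕ} (hn : n ≠ 0) :
    (PW x W).filter (fun p => p ∣ n) = pw x W n := by
  ext p
  unfold PW pw
  simp only [Finset.mem_filter, Finset.mem_range, Nat.mem_primeFactors]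
  have h0 : 0 ≤ x ^ W.2 := Real.rpow_nonneg hx.le _
  constructor
  · rintro ⟨⟨h1, h2, h3⟩, h4⟩
    exact ⟨⟨h2, h4, hn⟩, h3, (Nat.le_floor_iff h0).1 (by omega)⟩
  · rintro ⟨⟨h1, h2, -⟩, h3, h4⟩
    exact ⟨⟨Nat.lt_succ_of_le ((Nat.le_floor_iff h0).2 h4), h1, h3⟩, h2⟩

theorem tup_eq {x : ℝ} (hx : 0 < x) (X : List (ℝ × ℝ)) {n : ℕ} (hn : n ≠ 0) :
    ((tW X x n : ℕ) : ℝ) = Det79.tup x X n := by
  unfold tW
  induction X generalizing n with
  | nil => simp [AN.tup, Det79.tup]
  | cons W X ih =>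
    rw [List.map_cons]
    unfold AN.tup Det79.tup
    rw [pw_eq hx W hn, Nat.cast_sum]
    apply Finset.sum_congr rfl
    intro p hp
    obtain ⟨h2, h3, -⟩ := mem_pw hp
    exact ih (Nat.div_pos (Nat.le_of_dvd (Nat.pos_of_ne_zero hn) h3) h2.pos).ne'

theorem cntN_eq {x : ℝ} (u v : ℝ) {n : ℕ} (hn : n ≠ 0) : cntN x u v n = cnt x (u, v) n := by
  unfold cntN cnt
  have h1 : {p : ℕ | p.Prime ∧ p ∣ n ∧ x ^ u < p ∧ (p : ℝ) ≤ x ^ v} =
      ((pw x (u, v) n : Finset ℕ) : Set ℕ) := by
    ext p
    unfold pw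
    simp only [Set.mem_ofPred_eq, Finset.coe_filter, Nat.mem_primeFactors]
    constructor
    · rintro ⟨h1, h2, h3⟩
      exact ⟨⟨h1, h2, hn⟩, h3⟩
    · rintro ⟨⟨h1, h2, -⟩, h3⟩
      exact ⟨h1, h2, h3⟩
  rw [h1, Set.ncard_coe_finset]

/-! ### The grid -/

section grid

variable {P : Finset ℝ}

/-- the next point -/
noncomputable def nx (P : Finset ℝ) (p : ℝ) : ℝ :=
  if h : (P.filter (fun q => p < q)).Nonempty then (P.filter (fun q => p < q)).min' h else p + 1

theorem nx_mem {p q : ℝ} (hq : q ∈ P) (hpq : p < q) : nx P p ∈ P ∧ p < nx P p ∧ nx P p ≤ q := by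
  have h : (P.filter (fun q => p < q)).Nonempty := ⟨q, Finset.mem_filter.2 ⟨hq, hpq⟩⟩
  unfold nx
  rw [dif_pos h]
  obtain ⟨h1, h2⟩ := Finset.mem_filter.1 (Finset.min'_mem _ h)
  exact ⟨h1, h2, Finset.min'_le _ _ (Finset.mem_filter.2 ⟨hq, hpq⟩)⟩

theorem cell_exists {u v y : ℝ} (hu : u ∈ P) (hv : v ∈ P) (h1 : u < y) (h2 : y ≤ v) :
    ∃ p ∈ P, u ≤ p ∧ p < v ∧ p < y ∧ y ≤ nx P p := by
  have h : (P.filter (fun q => q < y)).Nonempty := ⟨u, Finset.mem_filter.2 ⟨hu, h1⟩⟩
  obtain ⟨h3, h4⟩ := Finset.mem_filter.1 (Finset.max'_mem _ h)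
  set p := (P.filter (fun q => q < y)).max' h with hp
  have hup : u ≤ p := Finset.le_max' _ _ (Finset.mem_filter.2 ⟨hu, h1⟩)
  have hpv : p < v := lt_of_lt_of_le h4 h2
  refine ⟨p, h3, hup, hpv, h4, ?_⟩
  by_contra hcon
  push Not at hcon
  obtain ⟨h5, h6, -⟩ := nx_mem hv hpv
  have h7 : nx P p ≤ p := Finset.le_max' _ _ (Finset.mem_filter.2 ⟨h5, hcon⟩)
  linarith

/-- the cells -/
noncomputable def cell (P : Finset ℝ) (p : ℝ) : ℝ × ℝ := (p, nx P p)

theorem cell_dj {p q : ℝ} (hp : p ∈ P) (hq : q ∈ P) (hpq : p ≠ q) : Dj (cell P p) (cell P q) := by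
  rcases lt_or_gt_of_ne hpq with h | h
  · exact Or.inl (nx_mem hq h).2.2
  · exact Or.inr (nx_mem hp h).2.2

/-- the count of a window is the sum over its cells -/
theorem cnt_window {x : ℝ} (hx : 1 < x) {u v : ℝ} (hu : u ∈ P) (hv : v ≤ u ∨ v ∈ P) {n : ℕ} :
    cnt x (u, v) n = ∑ p ∈ P.filter (fun p => u ≤ p ∧ p < v), cnt x (cell P p) n := by
  have hx0 : (0 : ℝ) < x := by linarith
  by_cases hvu : v ≤ u
  · have h1 : P.filter (fun p => u ≤ p ∧ p < v) = ∅ := by
      apply Finset.filter_false_of_mem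
      rintro p - ⟨h1, h2⟩
      linarith
    rw [h1, Finset.sum_empty]
    unfold cnt
    rw [Finset.card_eq_zero]
    apply Finset.filter_false_of_mem
    rintro p - ⟨h2, h3⟩
    have := Real.rpow_le_rpow_of_exponent_le hx.le hvu
    simp only at h2 h3
    linarith
  have hvP := hv.resolve_left hvu
  unfold cnt
  rw [← Finset.card_biUnion]
  · congr 1
    ext q
    rw [Finset.mem_biUnion]
    constructor
    · intro hq
      obtain ⟨h1, h2, h3, h4⟩ := mem_pw hq
      have hq0 : (0 : ℝ) < q := by exact_mod_cast h1.pos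
      obtain ⟨p, hp, h5, h6, h7, h8⟩ := cell_exists hu hvP
        ((Real.lt_logb_iff_rpow_lt hx hq0).2 h3) ((Real.logb_le_iff_le_rpow hx hq0).2 h4)
      refine ⟨p, Finset.mem_filter.2 ⟨hp, h5, h6⟩, Finset.mem_filter.2
        ⟨(Finset.mem_filter.1 hq).1, (Real.lt_logb_iff_rpow_lt hx hq0).1 h7,
          (Real.logb_le_iff_le_rpow hx hq0).1 h8⟩⟩
    · rintro ⟨p, hp, hq⟩
      obtain ⟨h1, h2, h3⟩ := Finset.mem_filter.1 hp
      obtain ⟨h4, h5, h6, h7⟩ := mem_pw hq
      refine Finset.mem_filter.2 ⟨(Finset.mem_filter.1 hq).1, ?_, ?_⟩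
      · exact lt_of_le_of_lt (Real.rpow_le_rpow_of_exponent_le hx.le h2) h6
      · exact h7.trans (Real.rpow_le_rpow_of_exponent_le hx.le (nx_mem hvP h3).2.2)
  · intro p hp q hq hpq
    refine Finset.disjoint_left.2 fun r h1 h2 => ?_
    have hp' := (Finset.mem_filter.1 hp).1
    have hq' := (Finset.mem_filter.1 hq).1
    exact not_mem_of_dj hx.le (cell_dj hp' hq' hpq) (mem_pw h1).2.2 (mem_pw h2).2.2

end grid

/-- a finite set of points containing given points, with small mesh up to `2` -/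
theorem exists_grid {c η : ℝ} (hc : 0 < c) (hc2 : c < 2) (hη : 0 < η) (E : Finset ℝ)
    (hE : ∀ e ∈ E, e ≤ 2) : ∃ P : Finset ℝ, (∀ p ∈ P, c ≤ p ∧ p ≤ 2) ∧ 2 ∈ P ∧
    (∀ e ∈ E, c ≤ e → e ∈ P) ∧ (∀ p ∈ P, p < 2 → nx P p ≤ p + η) ∧
    (P.card : ℝ) ≤ E.card + 2 / η + 2 := by
  classical
  set K : ℕ := ⌈(2 - c) / η⌉₊ with hK
  set P : Finset ℝ := E.filter (fun e => c ≤ e) ∪
    ((Finset.range K).image (fun k : ℕ => c + k * η) ∪ {2}) with hP
  have h2P : (2 : ℝ) ∈ P := by
    rw [hP]
    exact Finset.mem_union_right _ (Finset.mem_union_right _ (Finset.mem_singleton_self _))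
  have hKlt : ∀ k : ℕ, k < K → (k : ℝ) * η < 2 - c := by
    intro k hk
    have := Nat.lt_ceil.1 hk
    rwa [lt_div_iff₀ hη] at this
  refine ⟨P, ?_, h2P, ?_, ?_, ?_⟩
  · intro p hp
    rw [hP, Finset.mem_union, Finset.mem_union] at hp
    rcases hp with hp | hp | hp
    · obtain ⟨h1, h2⟩ := Finset.mem_filter.1 hp
      exact ⟨h2, hE p h1⟩
    · obtain ⟨k, hk, rfl⟩ := Finset.mem_image.1 hp
      have h1 := hKlt k (Finset.mem_range.1 hk)
      have h2 : 0 ≤ (k : ℝ) * η := by positivity
      exact ⟨by linarith, by linarith⟩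
    · rw [Finset.mem_singleton] at hp
      rw [hp]
      exact ⟨hc2.le, le_rfl⟩
  · intro e he hce
    rw [hP]
    exact Finset.mem_union_left _ (Finset.mem_filter.2 ⟨he, hce⟩)
  · intro p hp hp2
    have hcp : c ≤ p := by
      rw [hP, Finset.mem_union, Finset.mem_union] at hp
      rcases hp with hp | hp | hp
      · exact (Finset.mem_filter.1 hp).2
      · obtain ⟨k, hk, rfl⟩ := Finset.mem_image.1 hp
        have h2 : 0 ≤ (k : ℝ) * η := by positivity
        linarith
      · rw [Finset.mem_singleton] at hp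
        rw [hp]
        exact hc2.le
    set k : ℕ := ⌊(p - c) / η⌋₊ + 1 with hk
    have h0 : 0 ≤ (p - c) / η := div_nonneg (by linarith) hη.le
    have h1 : (p - c) / η < k := by
      rw [hk]
      push_cast
      exact Nat.lt_floor_add_one _
    have h2 : (k : ℝ) ≤ (p - c) / η + 1 := by
      rw [hk]
      push_cast
      linarith [Nat.floor_le h0]
    have h3 : p < c + k * η := by
      rw [div_lt_iff₀ hη] at h1
      linarith
    have h4 : c + k * η ≤ p + η := by
      have h5 : (k : ℝ) * η ≤ ((p - c) / η + 1) * η := mul_le_mul_of_nonneg_right h2 hη.le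
      rw [add_mul, div_mul_cancel₀ _ hη.ne', one_mul] at h5
      linarith
    by_cases hkK : k < K
    · have h5 : c + k * η ∈ P := by
        rw [hP]
        exact Finset.mem_union_right _ (Finset.mem_union_left _
          (Finset.mem_image.2 ⟨k, Finset.mem_range.2 hkK, rfl⟩))
      exact (nx_mem h5 h3).2.2.trans h4
    · have h5 : (2 - c) / η ≤ k := (Nat.le_ceil _).trans (by exact_mod_cast not_lt.1 hkK)
      rw [div_le_iff₀ hη] at h5
      exact (nx_mem h2P hp2).2.2.trans (by linarith)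
  · have h1 : P.card ≤ E.card + (K + 1) := by
      rw [hP]
      refine (Finset.card_union_le _ _).trans ?_
      refine Nat.add_le_add (Finset.card_filter_le _ _) ?_
      refine (Finset.card_union_le _ _).trans ?_
      rw [Finset.card_singleton]
      exact Nat.add_le_add_right (Finset.card_image_le.trans (Finset.card_range K).le) 1
    have h2 : (K : ℝ) < (2 - c) / η + 1 :=
      Nat.ceil_lt_add_one (div_nonneg (by linarith) hη.le)
    have h3 : (2 - c) / η ≤ 2 / η := div_le_div_of_nonneg_right (by linarith) hη.le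
    have h4 : (P.card : ℝ) ≤ E.card + (K + 1) := by exact_mod_cast h1
    linarith


theorem exists_low {m : ℕ} (u : Fin m → ℝ) (hu : ∀ i, 0 < u i) :
    ∃ c : ℝ, 0 < c ∧ c ≤ 1 / 3 ∧ ∀ i, c ≤ u i := by
  have h : ∀ s : Finset (Fin m), ∃ c : ℝ, 0 < c ∧ c ≤ 1 / 3 ∧ ∀ i ∈ s, c ≤ u i := by
    intro s
    induction s using Finset.induction_on with
    | empty => exact ⟨1 / 3, by norm_num, le_rfl, by simp⟩
    | insert a s _ ih =>
      obtain ⟨c, h1, h2, h3⟩ := ih
      refine ⟨min c (u a), lt_min h1 (hu a), (min_le_left _ _).trans h2, fun i hi => ?_⟩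
      rcases Finset.mem_insert.1 hi with rfl | hi
      · exact min_le_right _ _
      · exact (min_le_left _ _).trans (h3 i hi)
  obtain ⟨c, h1, h2, h3⟩ := h Finset.univ
  exact ⟨c, h1, h2, fun i => h3 i (Finset.mem_univ i)⟩

/-- the function of the set of occupied cells -/
noncomputable def gE (E : Ev) (S : Finset ℝ) : ℝ := by
  classical
  exact if ∀ i, (S.filter (fun p => E.u i ≤ p ∧ p < E.v i)).card = E.c i then 1 else 0

theorem gE_abs (E : Ev) (S : Finset ℝ) : |gE E S| ≤ 1 := by
  unfold gE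
  split_ifs <;> norm_num

/-- the main combination -/
noncomputable def FC (E : Ev) (I : Finset ℝ) (W : ℝ → ℝ × ℝ) : Cmb := by
  classical
  exact ((Prs I).filter (fun p => ∑ i ∈ p.1 ∪ p.2, (W i).2 < 1)).toList.map
    (fun p => (gE E p.1 * (-1) ^ p.2.card, (p.1 ∪ p.2).toList.map W))

/-- the majorant -/
noncomputable def BC (I : Finset ℝ) (W : ℝ → ℝ × ℝ) (K l : ℝ) (J : ℝ × ℝ) : Cmb :=
  (I.filter (fun i => 2 * (W i).2 < 1)).toList.map (fun i => (K, [W i, W i])) ++
    [(K / l ^ 2, [J, J]), (K * (1 - 2 * l) / l ^ 2, [J]), (K, [])]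

theorem FC_val {E : Ev} {P I : Finset ℝ} (hI : I ⊆ P) {x : ℝ} (hx : 1 ≤ x) {n : ℕ} (hn : n ≠ 0) :
    (FC E I (cell P)).val x n =
      ∑ p ∈ (Prs I).filter (fun p => ∑ i ∈ p.1 ∪ p.2, (cell P i).2 < 1),
        term x (cell P) (gE E) p n := by
  have hx0 : (0 : ℝ) < x := by linarith
  unfold FC Cmb.val
  rw [List.map_map, Finset.sum_map_toList]
  apply Finset.sum_congr rfl
  intro p hp
  have h1 := mem_Prs (Finset.mem_filter.1 hp).1
  simp only [Function.comp_apply]
  rw [tup_eq hx0 _ hn, tup_set hx (fun i hi j hj hij => cell_dj hi hj hij)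
    ((Finset.union_subset h1.1 h1.2).trans hI) hn]
  rfl

theorem BC_val {I : Finset ℝ} {W : ℝ → ℝ × ℝ} {K l : ℝ} {J : ℝ × ℝ} {x : ℝ} (hx : 0 < x)
    {n : ℕ} (hn : n ≠ 0) : (BC I W K l J).val x n =
      K * ∑ i ∈ I.filter (fun i => 2 * (W i).2 < 1), Det79.tup x [W i, W i] n +
      K / l ^ 2 * (Det79.tup x [J, J] n + (1 - 2 * l) * cnt x J n + l ^ 2 * 1) -
      K / l ^ 2 * l ^ 2 + K := by
  unfold BC Cmb.val
  rw [List.map_append, List.sum_append, List.map_map, Finset.sum_map_toList, Finset.mul_sum]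
  have h1 : ∑ i ∈ I.filter (fun i => 2 * (W i).2 < 1), ((fun t : ℝ × List (ℝ × ℝ) =>
      t.1 * (tW t.2 x n : ℝ)) ∘ fun i => (K, [W i, W i])) i =
      ∑ i ∈ I.filter (fun i => 2 * (W i).2 < 1), K * Det79.tup x [W i, W i] n := by
    apply Finset.sum_congr rfl
    intro i _
    simp only [Function.comp_apply]
    rw [tup_eq hx _ hn]
  rw [h1]
  simp only [List.map_cons, List.map_nil, List.sum_cons, List.sum_nil]
  rw [tup_eq hx _ hn, tup_eq hx _ hn, tup_eq hx _ hn, tup_single]
  have h2 : Det79.tup x [] n = 1 := by simp [Det79.tup]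
  rw [h2]
  ring

theorem BC_lam {I : Finset ℝ} {W : ℝ → ℝ × ℝ} {K l : ℝ} {J : ℝ × ℝ} (hl : 0 < l)
    (hJ : Real.log (J.2 / J.1) = l) : (BC I W K l J).lam =
      K * ∑ i ∈ I.filter (fun i => 2 * (W i).2 < 1), Real.log ((W i).2 / (W i).1) ^ 2 +
      K / l := by
  unfold BC Cmb.lam
  rw [List.map_append, List.sum_append, List.map_map, Finset.sum_map_toList, Finset.mul_sum]
  have h1 : ∑ i ∈ I.filter (fun i => 2 * (W i).2 < 1), ((fun t : ℝ × List (ℝ × ℝ) =>
      t.1 * AN.lam t.2) ∘ fun i => (K, [W i, W i])) i =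
      ∑ i ∈ I.filter (fun i => 2 * (W i).2 < 1), K * Real.log ((W i).2 / (W i).1) ^ 2 := by
    apply Finset.sum_congr rfl
    intro i _
    simp only [Function.comp_apply, AN.lam, List.map_cons, List.map_nil, List.prod_cons,
      List.prod_nil, mul_one]
    ring
  rw [h1]
  simp only [List.map_cons, List.map_nil, List.sum_cons, List.sum_nil, AN.lam, List.prod_cons,
    List.prod_nil, hJ]
  field_simp
  ring

end Pt79

open Pt79 Det79 in
/-- **(A6)** the deterministic inequality -/
theorem stPt_79 : StPt := by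
  classical
  intro E hE ε hε
  obtain ⟨c, hc, hc3, hcu⟩ := exists_low E.u fun i => (hE i).1
  set R : ℕ := ⌈1 / c⌉₊ with hR
  have hRc : 1 < c * (R + 1) := by
    have h1 : 1 / c ≤ R := Nat.le_ceil _
    rw [div_le_iff₀ hc] at h1
    nlinarith
  set K : ℝ := 1 + 4 ^ R * ((R : ℝ) + 1) ^ R with hK
  have hK0 : 0 < K := by positivity
  set l : ℝ := 2 * K / ε + 1 with hl
  have hl0 : 0 < l := by positivity
  set e0 : ℝ := c * Real.exp (-l) with he0
  have he0p : 0 < e0 := by positivity
  have he0c : e0 < c := by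
    rw [he0]
    have : Real.exp (-l) < 1 := by
      rw [← Real.exp_zero]
      exact Real.exp_lt_exp.2 (by linarith)
    nlinarith
  have hlog : Real.log (c / e0) = l := by
    have : c / e0 = Real.exp l := by
      rw [he0, Real.exp_neg]
      field_simp
    rw [this, Real.log_exp]
  set m : ℕ := E.m with hm
  set η : ℝ := min 1 (min (e0 / (2 * (R + 2))) (ε * c ^ 2 / (2 * K * (2 * m + 4)))) with hη
  have hη0 : 0 < η := by positivity
  have hη1 : η ≤ 1 := min_le_left _ _
  have hη2 : (R + 2) * η ≤ e0 / 2 := by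
    have h1 : η ≤ e0 / (2 * (R + 2)) := (min_le_right _ _).trans (min_le_left _ _)
    calc ((R : ℝ) + 2) * η ≤ (R + 2) * (e0 / (2 * (R + 2))) :=
          mul_le_mul_of_nonneg_left h1 (by positivity)
      _ = e0 / 2 := by field_simp
  have hη3 : K * ((2 * m + 4) * η / c ^ 2) ≤ ε / 2 := by
    have h1 : η ≤ ε * c ^ 2 / (2 * K * (2 * m + 4)) := (min_le_right _ _).trans (min_le_right _ _)
    calc K * ((2 * m + 4) * η / c ^ 2) ≤
          K * ((2 * m + 4) * (ε * c ^ 2 / (2 * K * (2 * m + 4))) / c ^ 2) := by gcongr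
      _ = ε / 2 := by field_simp
  obtain ⟨P, hP1, hP2, hP3, hP4, hP5⟩ := exists_grid (c := c) (η := η) hc (by linarith) hη0
    (Finset.univ.image E.u ∪ Finset.univ.image E.v) (by
      intro e he
      rcases Finset.mem_union.1 he with he | he
      · obtain ⟨i, -, rfl⟩ := Finset.mem_image.1 he
        linarith [(hE i).2.1]
      · obtain ⟨i, -, rfl⟩ := Finset.mem_image.1 he
        rcases (hE i).2.2 with h | h
        · linarith
        · exact h.le)
  set I : Finset ℝ := P.filter (fun p => p < 2) with hI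
  have hIP : I ⊆ P := Finset.filter_subset _ _
  have hIc : ∀ i ∈ I, c ≤ (cell P i).1 ∧ (cell P i).2 ≤ (cell P i).1 + η := fun i hi =>
    ⟨(hP1 i (hIP hi)).1, hP4 i (hIP hi) (Finset.mem_filter.1 hi).2⟩
  have hIlt : ∀ i ∈ I, (cell P i).1 < (cell P i).2 := fun i hi =>
    (nx_mem hP2 (Finset.mem_filter.1 hi).2).2.1
  have hdj : ∀ i ∈ I, ∀ j ∈ I, i ≠ j → Dj (cell P i) (cell P j) := fun i hi j hj hij =>
    cell_dj (hIP hi) (hIP hj) hij
  have huP : ∀ i, E.u i ∈ P := fun i => hP3 _ (Finset.mem_union_left _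
    (Finset.mem_image_of_mem _ (Finset.mem_univ i))) (hcu i)
  have hvP : ∀ i, E.v i ≤ E.u i ∨ E.v i ∈ P := by
    intro i
    by_cases h1 : E.v i ≤ E.u i
    · exact Or.inl h1
    · exact Or.inr (hP3 _ (Finset.mem_union_right _
        (Finset.mem_image_of_mem _ (Finset.mem_univ i))) (by linarith [hcu i]))
  have hv2 : ∀ i, E.v i ≤ 2 := by
    intro i
    rcases (hE i).2.2 with h | h
    · linarith
    · exact h.le
  refine ⟨FC E I (cell P), BC I (cell P) K l (e0, c), ?_, ?_, ?_, ?_⟩
  · -- good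
    intro t ht
    unfold FC at ht
    obtain ⟨p, hp, rfl⟩ := List.mem_map.1 ht
    obtain ⟨h1, h2⟩ := Finset.mem_filter.1 (Finset.mem_toList.1 hp)
    have h3 := mem_Prs h1
    constructor
    · intro V hV
      obtain ⟨i, hi, rfl⟩ := List.mem_map.1 hV
      have hi' : i ∈ I := (Finset.union_subset h3.1 h3.2) (Finset.mem_toList.1 hi)
      exact ⟨lt_of_lt_of_le hc (hIc i hi').1, hIlt i hi'⟩
    · rw [List.map_map, Finset.sum_map_toList]
      exact h2
  · intro t ht
    unfold BC at ht
    rw [List.mem_append] at ht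
    rcases ht with ht | ht
    · obtain ⟨i, hi, rfl⟩ := List.mem_map.1 ht
      obtain ⟨h1, h2⟩ := Finset.mem_filter.1 (Finset.mem_toList.1 hi)
      have h3 : 0 < (cell P i).1 ∧ (cell P i).1 < (cell P i).2 :=
        ⟨lt_of_lt_of_le hc (hIc i h1).1, hIlt i h1⟩
      constructor
      · intro V hV
        simp only [List.mem_cons, List.not_mem_nil, or_false, or_self] at hV
        rw [hV]
        exact h3
      · simp only [List.map_cons, List.map_nil, List.sum_cons, List.sum_nil]
        linarith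
    · simp only [List.mem_cons, List.not_mem_nil, or_false] at ht
      rcases ht with rfl | rfl | rfl
      · constructor
        · intro V hV
          simp only [List.mem_cons, List.not_mem_nil, or_false, or_self] at hV
          rw [hV]
          exact ⟨he0p, he0c⟩
        · simp only [List.map_cons, List.map_nil, List.sum_cons, List.sum_nil]
          linarith
      · constructor
        · intro V hV
          simp only [List.mem_cons, List.not_mem_nil, or_false] at hV
          rw [hV]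
          exact ⟨he0p, he0c⟩
        · simp only [List.map_cons, List.map_nil, List.sum_cons, List.sum_nil]
          linarith
      · constructor
        · intro V hV
          exact absurd hV List.not_mem_nil
        · simp
  · -- lam
    rw [BC_lam hl0 hlog]
    have h1 : ∀ i ∈ I.filter (fun i => 2 * (cell P i).2 < 1),
        Real.log ((cell P i).2 / (cell P i).1) ^ 2 ≤ (η / c) ^ 2 := by
      intro i hi
      have hi' := (Finset.mem_filter.1 hi).1
      obtain ⟨h2, h3⟩ := hIc i hi'
      have h4 := hIlt i hi'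
      have h5 : 0 < (cell P i).1 := lt_of_lt_of_le hc h2
      have h6 : 1 ≤ (cell P i).2 / (cell P i).1 := by
        rw [one_le_div h5]
        exact h4.le
      have h7 : Real.log ((cell P i).2 / (cell P i).1) ≤ η / c := by
        have h8 : (cell P i).2 / (cell P i).1 - 1 ≤ η / c := by
          have h9 : (cell P i).2 / (cell P i).1 - 1 = ((cell P i).2 - (cell P i).1) /
              (cell P i).1 := by field_simp
          rw [h9]
          exact div_le_div₀ hη0.le (by linarith) hc h2
        linarith [Real.log_le_sub_one_of_pos (lt_of_lt_of_le one_pos h6)]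
      exact pow_le_pow_left₀ (Real.log_nonneg h6) h7 2
    have h2 : ∑ i ∈ I.filter (fun i => 2 * (cell P i).2 < 1),
        Real.log ((cell P i).2 / (cell P i).1) ^ 2 ≤ P.card * (η / c) ^ 2 := by
      refine (Finset.sum_le_sum h1).trans ?_
      rw [Finset.sum_const, nsmul_eq_mul]
      apply mul_le_mul_of_nonneg_right _ (by positivity)
      exact_mod_cast Finset.card_le_card ((Finset.filter_subset _ _).trans hIP)
    have h3 : ((Finset.univ.image E.u ∪ Finset.univ.image E.v).card : ℝ) ≤ 2 * m := by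
      have h4 : (Finset.univ.image E.u ∪ Finset.univ.image E.v).card ≤ m + m := by
        refine (Finset.card_union_le _ _).trans (Nat.add_le_add ?_ ?_)
        · refine Finset.card_image_le.trans ?_
          rw [Finset.card_univ, Fintype.card_fin]
        · refine Finset.card_image_le.trans ?_
          rw [Finset.card_univ, Fintype.card_fin]
      have h5 : ((Finset.univ.image E.u ∪ Finset.univ.image E.v).card : ℝ) ≤ (m : ℝ) + m := by
        exact_mod_cast h4
      linarith
    have h4 : (P.card : ℝ) * (η / c) ^ 2 ≤ (2 * m + 4) * η / c ^ 2 := by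
      have h5 : (P.card : ℝ) ≤ 2 * m + 2 / η + 2 := by linarith
      have h6 : (P.card : ℝ) * η ≤ 2 * m + 4 := by
        calc (P.card : ℝ) * η ≤ (2 * m + 2 / η + 2) * η :=
              mul_le_mul_of_nonneg_right h5 hη0.le
          _ = (2 * m + 2) * η + 2 := by
              field_simp
              ring
          _ ≤ (2 * m + 2) * 1 + 2 := by gcongr
          _ = 2 * m + 4 := by ring
      calc (P.card : ℝ) * (η / c) ^ 2 = (P.card * η) * η / c ^ 2 := by
            rw [div_pow]
            ring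
        _ ≤ (2 * m + 4) * η / c ^ 2 := by gcongr
    have h5 : K / l ≤ ε / 2 := by
      rw [div_le_iff₀ hl0, hl]
      have : ε / 2 * (2 * K / ε + 1) = K + ε / 2 := by field_simp
      rw [this]
      linarith
    have h6 : K * ∑ i ∈ I.filter (fun i => 2 * (cell P i).2 < 1),
        Real.log ((cell P i).2 / (cell P i).1) ^ 2 ≤ ε / 2 :=
      (mul_le_mul_of_nonneg_left (h2.trans h4) hK0.le).trans hη3
    linarith
  · -- the inequality
    intro C hC1
    have t1 : Tendsto (fun x : ℝ => x ^ (c * (R + 1) - 1)) atTop atTop :=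
      tendsto_rpow_atTop (by linarith)
    have t2 : Tendsto (fun x : ℝ => x ^ (e0 / 2)) atTop atTop :=
      tendsto_rpow_atTop (by linarith)
    obtain ⟨x0, hx0⟩ := Filter.eventually_atTop.1 ((t1.eventually_gt_atTop C).and
      ((t2.eventually_gt_atTop C).and (eventually_gt_atTop (1 : ℝ))))
    refine ⟨x0, fun x hx n hn hnx => ?_⟩
    obtain ⟨h1, h2, h3⟩ := hx0 x hx
    have hn0 : n ≠ 0 := by omega
    have hxp : (0 : ℝ) < x := by linarith
    have h4 : C * x < x ^ (c * (R + 1)) := by
      have h5 : x ^ (c * (R + 1)) = x ^ (c * (R + 1) - 1) * x := by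
        rw [← Real.rpow_add_one hxp.ne']
        congr 1
        ring
      rw [h5]
      exact mul_lt_mul_of_pos_right h1 hxp
    have hcore := det_core (W := cell P) (I := I) (b := if E.At x n then (1 : ℝ) else 0)
      (g := gE E) h3.le h4 h2 hc hη0.le hη2 hIc hdj hn0 hnx (gE_abs E)
      (by split_ifs <;> norm_num) (by
        intro h1
        have h5 : ∀ i, cntN x (E.u i) (E.v i) n =
            ((supp x I (cell P) n).filter (fun p => E.u i ≤ p ∧ p < E.v i)).card := by
          intro i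
          rw [cntN_eq _ _ hn0, cnt_window h3 (huP i) (hvP i), Finset.card_eq_sum_ones]
          have h6 : (supp x I (cell P) n).filter (fun p => E.u i ≤ p ∧ p < E.v i) ⊆
              P.filter (fun p => E.u i ≤ p ∧ p < E.v i) := by
            apply Finset.filter_subset_filter
            exact (Finset.filter_subset _ _).trans hIP
          rw [← Finset.sum_subset h6]
          · apply Finset.sum_congr rfl
            intro p hp
            obtain ⟨h7, -⟩ := Finset.mem_filter.1 hp
            obtain ⟨h8, h9⟩ := Finset.mem_filter.1 h7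
            have := h1 p h8
            omega
          · intro p hp hnp
            obtain ⟨h7, h8⟩ := Finset.mem_filter.1 hp
            by_contra h9
            apply hnp
            refine Finset.mem_filter.2 ⟨Finset.mem_filter.2 ⟨Finset.mem_filter.2 ⟨h7, ?_⟩, h9⟩,
              h8⟩
            linarith [hv2 i, h8.2]
        have h6 : E.At x n ↔ ∀ i, ((supp x I (cell P) n).filter
            (fun p => E.u i ≤ p ∧ p < E.v i)).card = E.c i := by
          unfold Ev.At
          exact forall_congr' fun i => by rw [h5 i]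
        unfold gE
        by_cases h7 : E.At x n
        · rw [if_pos h7, if_pos (h6.1 h7)]
        · rw [if_neg h7, if_neg fun h8 => h7 (h6.2 h8)])
    rw [FC_val hIP h3.le hn0, BC_val hxp hn0]
    refine hcore.trans ?_
    rw [mul_add]
    have h7 : K * (if cnt x (e0, c) n = 0 then (1 : ℝ) else 0) ≤
        K / l ^ 2 * (Det79.tup x [(e0, c), (e0, c)] n + (1 - 2 * l) * cnt x (e0, c) n +
          l ^ 2 * 1) := by
      have h8 := tup_pair (x := x) (e0, c) hn0
      have h9 : K / l ^ 2 * ((cnt x (e0, c) n - l) ^ 2) ≤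
          K / l ^ 2 * (Det79.tup x [(e0, c), (e0, c)] n + (1 - 2 * l) * cnt x (e0, c) n +
          l ^ 2 * 1) := by
        apply mul_le_mul_of_nonneg_left _ (by positivity)
        nlinarith
      refine le_trans ?_ h9
      split_ifs with h10
      · rw [h10]
        push_cast
        rw [zero_sub, neg_sq, mul_one, div_mul_cancel₀ _ (by positivity)]
      · rw [mul_zero]
        positivity
    have h8 : K / l ^ 2 * l ^ 2 = K := div_mul_cancel₀ _ (by positivity)
    linarith

end Pool.Agent.Lib.MP_a17b09_nt.AN
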