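import Pool.Agent.Lib.MP_a17b09_nt.AN.W98
import Pool.Agent.Lib.MP_a17b09_nt.AN.StmtsH3
import Pool.Agent.Lib.MP_a17b09_nt.PQH.XH7_98

/-!
Project AN (MP_a17b09_nt), GH7 (helper98, fork of `PQH/XH7_98`): the twisted sums of two sets of
integers with densities, positive nonsquare discriminant.
-/

set_option autoImplicit false

open Filter Topology Finset

namespace Pool.Agent.Lib.MP_a17b09_nt.ANH

open CH CH.PE HY HY.S68 MRH
open PQ (B1 Wy gw gcw TwW)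
open PQH (Mph ApxH Fr0H DilHW StMrsHw StEsHW StAmHW StTwHW HMrsQw)
open AN (Ev ind wz wd Dens GoodL lam tW TwCon PairsG PairsA)
open PQ.T20 (b1_one fin_one)

open AN.W98 PQH.T2H64 in
/-- (GH7) -/
theorem stTwGH_98 (hMrs : ∀ d : ℕ, ¬ IsSquare d → StMrsHw d) (hEs : StEsHW) (hAm : StAmHW)
    (hTw : StTwHW) (hMain : StHMainS) : StTwGH := by
  intro a b c ha d hd hns A B δ δ' hA hB h hh t0 α β hα hαβ M
  -- mean squares
  have hMz : ∀ (R : ℕ → Prop) (σ : ℝ), GWtH d R σ → ∀ (z : ℂ) (k : ℕ), 0 < k → z ^ k = 1 →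
      z ≠ 1 → ∀ Q : Form, Hyp d Q → ∀ K : ℕ, 0 < K → ∀ e : Pell.Solution₁ (d : ℤ), PP e →
        PK K e → HMrsQw Q (per e) (wz z R) K := by
    intro R σ hR z k hk hz hz1 Q hQ K hK e he hke
    have hzn : ‖z‖ = 1 := Complex.norm_eq_one_of_pow_eq_one hz hk.ne'
    obtain ⟨c0, hc0, hA1, -⟩ := hR.apx
    exact hMrs d hns z hzn c0 hc0 (wz z R) (b1_wz hzn R) (hA1 z hzn)
      (hR.frz z k hk hz hz1) Q hQ K hK e he hke
  have hMr : ∀ (R : ℕ → Prop) (σ : ℝ), GWtH d R σ →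
      ∀ Q : Form, Hyp d Q → ∀ K : ℕ, 0 < K → ∀ e : Pell.Solution₁ (d : ℤ), PP e →
      PK K e → HMrsQw Q (per e) (wd σ R) K := by
    intro R σ hR Q hQ K hK e he hke
    obtain ⟨c0, hc0, -, hA2⟩ := hR.apx
    exact hMrs d hns 1 norm_one c0 hc0 (wd σ R) (b1_wd hR.nonneg hR.le_one) hA2 hR.fr Q hQ
      K hK e he hke
  -- dilations
  have hDz : ∀ (R : ℕ → Prop) (σ : ℝ), GWtH d R σ → ∀ z : ℂ, ‖z‖ = 1 →
      ∀ (ι : Type) [Fintype ι] (S : HSystem ι), S.d = d → DilHW S z (wz z R) :=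
    fun R σ hR z hz ι _ S hS => (hR.dil ι S hS).1 z hz
  have hDr : ∀ (R : ℕ → Prop) (σ : ℝ), GWtH d R σ →
      ∀ (ι : Type) [Fintype ι] (S : HSystem ι), S.d = d → DilHW S 1 (wd σ R) :=
    fun R σ hR ι _ S hS => (hR.dil ι S hS).2
  have hDb : ∀ (R : ℕ → Prop) (σ : ℝ), GWtH d R σ →
      ∀ (ι : Type) [Fintype ι] (S : HSystem ι), S.d = d → DilHW S 1 (ind R) := by
    intro R σ hR ι _ S hS
    have h1 := hDz R σ hR 1 norm_one ι S hS
    rwa [wz_one] at h1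
  refine ⟨?_, ?_⟩
  · intro z1 z2 k hk h1 h2 h12
    have hn1 : ‖z1‖ = 1 := Complex.norm_eq_one_of_pow_eq_one h1 hk.ne'
    have hn2 : ‖z2‖ = 1 := Complex.norm_eq_one_of_pow_eq_one h2 hk.ne'
    refine tw hEs hAm hTw ha hd hns hn1 hn2 (b1_wz hn1 A) (b1_wz hn2 B) (fin_wz hk h1 A)
      (fin_wz hk h2 B) (hDz A δ hA z1 hn1) (hDz B δ' hB z2 hn2) ?_ hh t0 hα hαβ M
    rcases h12 with h12 | h12
    · exact Or.inl (hMz A δ hA z1 k hk h1 h12)
    · exact Or.inr (hMz B δ' hB z2 k hk h2 h12)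
  · obtain ⟨κ, -, hlim⟩ := hMain a b c ha d hd hns h hh t0 α β hα hαβ
    refine comb hlim hA.nonneg hA.le_one hB.nonneg hB.le_one M ?_ ?_
    · exact tw hEs hAm hTw ha hd hns norm_one norm_one (b1_wd hA.nonneg hA.le_one) (b1_ind B)
        (fin_wd δ A) (by rw [← wz_one]; exact fin_wz one_pos (one_pow 1) B) (hDr A δ hA)
        (hDb B δ' hB) (Or.inl (hMr A δ hA)) hh t0 hα hαβ M
    · exact tw hEs hAm hTw ha hd hns norm_one norm_one b1_one (b1_wd hB.nonneg hB.le_one) fin_one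
        (fin_wd δ' B) (fun ι _ S _ => PQH.XH98.dil_one S) (hDr B δ' hB)
        (Or.inr (hMr B δ' hB)) hh t0 hα hαβ M

end Pool.Agent.Lib.MP_a17b09_nt.ANH
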