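import Pool.Agent.Lib.MP_a17b09_nt.AN.TwG_98
import Pool.Agent.Lib.MP_a17b09_nt.AN.TwGH_98
import Pool.Agent.Lib.MP_a17b09_nt.AN.PrG_98
import Pool.Agent.Lib.MP_a17b09_nt.AN.ApxA_11
import Pool.Agent.Lib.MP_a17b09_nt.AN.ApxAH_11
import Pool.Agent.Lib.MP_a17b09_nt.AN.DilA_21
import Pool.Agent.Lib.MP_a17b09_nt.AN.DilAH_21
import Pool.Agent.Lib.MP_a17b09_nt.AN.FrA_42
import Pool.Agent.Lib.MP_a17b09_nt.AN.FrAH_42
import Pool.Agent.Lib.MP_a17b09_nt.AN.FqA_12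
import Pool.Agent.Lib.MP_a17b09_nt.AN.FqAH_12
import Pool.Agent.Lib.MP_a17b09_nt.AN.FqC_9
import Pool.Agent.Lib.MP_a17b09_nt.AN.FqCH_9
import Pool.Agent.Lib.MP_a17b09_nt.AN.NullA_73
import Pool.Agent.Lib.MP_a17b09_nt.AN.NullAH_73
import Pool.Agent.Lib.MP_a17b09_nt.AN.NullI_52
import Pool.Agent.Lib.MP_a17b09_nt.AN.Int_29
import Pool.Agent.Lib.MP_a17b09_nt.AN.Ok18
import Pool.Agent.Lib.MP_a17b09_nt.AN.Pt79
import Pool.Agent.Lib.MP_a17b09_nt.AN.Split_19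
import Pool.Agent.Lib.MP_a17b09_nt.AN.Den_19
import Pool.Agent.Lib.MP_a17b09_nt.AN.End_98
import Pool.Agent.Lib.MP_a17b09_nt.AN.Fin98
import Pool.Agent.Lib.MP_a17b09_nt.PQ.AllX79
import Pool.Agent.Lib.MP_a17b09_nt.PQH.AllX99

/-!
Project AN (MP_a17b09_nt): the anatomy of the pairs, every nonsquare discriminant, without
hypotheses (helper98).
-/

set_option autoImplicit false

namespace Pool.Agent.Lib.MP_a17b09_nt.AN

open CH CH.PE

theorem stDen_all98 : StDen := stDen_19 stPt_79 stInt_29 stNullI_52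

theorem stFqR_all98 (d : ℕ) : StFqR d := stFqR_12 d stSplit_19

theorem stFrA_all98 (d : ℕ) : StFrA d :=
  stFrA_42 d (stNullA_73 d) (stFqZ_12 d (fun K _ => MRSG.stPw0G_all90 d K) stSplit_19)
    (stFqR_all98 d) (stFqC_9 (stFqR_all98 d) (PQ.stParW_22))

theorem stGA_all98 (d : ℕ) : StGA d :=
  stGA_98 d (stApxA_11 d (stNullA_73 d)) (stDilA_21 stNullA_73) (stFrA_all98 d)

/-- the pairs, negative discriminant -/
theorem stEndA_all98 : StEndA :=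
  stEndA_98 stGA_all98
    (stTwG_98 (fun _ hd => PQ.stMrsW_all79 hd) PQ.stEsW_all20 (PQ.stAmW_98 PQ.stDilsW_all28)
      PQ.stTwW_98 F64.stMainS_all) stFinG_98 (stPrG_98 stMeanU_70 stMean_70) F64.stMainS_all

theorem stFqRH_all98 (d : ℕ) : ANH.StFqRH d := ANH.stFqRH_12 d stSplit_19

theorem stFrAH_all98 (d : ℕ) : ANH.StFrAH d :=
  ANH.stFrAH_42 d (ANH.stNullAH_73 d)
    (ANH.stFqZH_12 d (fun D _ => MRH.stPw0G_all90 D) stSplit_19)
    (stFqRH_all98 d) (ANH.stFqCH_9 (stFqRH_all98 d) (fun D => PQH.stParH_22 D))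

theorem stGAH_all98 (d : ℕ) : ANH.StGAH d :=
  ANH.stGAH_98 d (ANH.stApxAH_11 d (ANH.stNullAH_73 d)) (ANH.stDilAH_21 ANH.stNullAH_73)
    (stFrAH_all98 d)

/-- the pairs, positive nonsquare discriminant -/
theorem stEndAH_all98 : ANH.StEndAH :=
  ANH.stEndAH_98 (fun d _ => stGAH_all98 d)
    (ANH.stTwGH_98 (fun d _ => PQH.stMrsHw_99 d) PQH.stEsHW_99 PQH.stAmHW_all99 PQH.stTwHW_99
      HY.TopH20.hMainS) stFinG_98 (stPrG_98 stMeanU_70 stMean_70) HY.TopH20.hMainS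

/-- the pairs, every nonsquare discriminant -/
theorem pairsA_all98 (a b c : ℤ) (ha : 0 < a) (hns : ¬ IsSquare (b ^ 2 - 4 * a * c))
    (h t₀ : ℕ) (hh : 0 < h) (α β : ℝ) (hα : 0 < α) (hαβ : α < β) : PairsA a b c h t₀ α β := by
  rcases lt_or_ge (b ^ 2 - 4 * a * c) 0 with hD | hD
  · exact stEndA_all98 a b c ha hD h t₀ hh α β hα hαβ
  · obtain ⟨d, hd⟩ : ∃ d : ℕ, b ^ 2 - 4 * a * c = d := ⟨_, (Int.toNat_of_nonneg hD).symm⟩
    refine stEndAH_all98 a b c ha d hd ?_ h t₀ hh α β hα hαβ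
    rintro ⟨s, hs⟩
    apply hns
    refine ⟨s, ?_⟩
    rw [hd, hs]
    push_cast
    ring

/-- the arguments, every nonsquare discriminant -/
theorem argsX_all98 (a b c : ℤ) (ha : 0 < a) (hns : ¬ IsSquare (b ^ 2 - 4 * a * c))
    (h t₀ : ℕ) (hh : 0 < h) : PQ.ArgsX a b c h t₀ := by
  obtain ⟨q, hq⟩ : ∃ q : ℕ, (q : ℤ) = 4 * |b ^ 2 - 4 * a * c| :=
    ⟨_, Int.toNat_of_nonneg (by positivity)⟩
  exact PQ.stArgX_96 a b c ha hns q h t₀ hh (PQH.pairsX_all64 PQ.stEndX_all79 PQH.stEndXH_99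
    a b c ha hns q hq h t₀ hh 1 2 one_pos (by norm_num))

end Pool.Agent.Lib.MP_a17b09_nt.AN
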