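import Pool.Agent.Lib.MP_a17b09_nt.AN.Ty98
import Pool.Agent.Lib.MP_a17b09_nt.AN.Int_29

/-!
Project AN (MP_a17b09_nt): the factor `a` disappears (helper98): the conditions for `d` and for
`|f t| / d` instead of `a |f t| / d`.
-/

set_option autoImplicit false

open Filter Topology Finset

namespace Pool.Agent.Lib.MP_a17b09_nt.AN

open CH CH.PE HY

/-- the pairs with conditions for `d` and `|f t| / d` -/
def PairsU (a b c : ℤ) (h t₀ : ℕ) (α β : ℝ) : Prop :=
  ∃ κ : ℝ, 0 < κ ∧ Tendsto (fun N : ℕ => (pairCount a b c h t₀ α β (fun _ _ => True) N : ℝ) / N)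
    atTop (𝓝 κ) ∧ ∀ (m m' : ℕ) (u v : Fin m → ℝ) (u' v' : Fin m' → ℝ) (S : Set (Fin m → ℕ))
    (S' : Set (Fin m' → ℕ)) (δ δ' : ℝ), (∀ i, 0 < u i) → (∀ i, 0 < u' i) → Nd (Ty u v S) δ →
    Nd (Ty u' v' S') δ' → ∀ k : ℕ, 0 < k → ∀ r s : ℕ,
    (∀ ε : ℝ, 0 < ε → LogNull {N | ε < |(pairCount a b c h t₀ α β (fun t d => Ty u v S d ∧
      Ty u' v' S' ((fv a b c t).natAbs / d) ∧ Omn d ≡ r [MOD k] ∧
      Omn ((fv a b c t).natAbs / d) ≡ s [MOD k]) N : ℝ) / N - δ * δ' * κ / k ^ 2|}) ∧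
    (0 < δ * δ' → ∃ η : ℝ, 0 < η ∧ ∀ᶠ N : ℕ in atTop, η * N ≤ pairCount a b c h t₀ α β
      (fun t d => Ty u v S d ∧ Ty u' v' S' ((fv a b c t).natAbs / d) ∧ Omn d ≡ r [MOD k] ∧
      Omn ((fv a b c t).natAbs / d) ≡ s [MOD k]) N)

namespace Da98

/-- the primes of a window as a finite set -/
theorem win_fin {x u v : ℝ} {n : ℕ} (hn : 1 ≤ n) :
    {p : ℕ | p.Prime ∧ p ∣ n ∧ x ^ u < p ∧ (p : ℝ) ≤ x ^ v}.Finite :=
  (Finset.finite_toSet n.divisors).subset fun p hp => by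
    rw [Finset.mem_coe, Nat.mem_divisors]
    exact ⟨hp.2.1, by omega⟩

/-- the counts for `n` and for `a n` differ only at primes near the ends of the window -/
theorem cnt_ne {A : ℕ} (hA : 1 ≤ A) {u v η : ℝ} (hu : 0 < u) (hη : 0 < η) :
    ∃ n0 : ℕ, ∀ n : ℕ, n0 ≤ n → cntN n u v n ≠ cntN ((A * n : ℕ) : ℝ) u v (A * n) →
      ∃ w : ℝ, (w = u ∨ w = v) ∧ 0 < w ∧ w < 1 ∧ ∃ p : ℕ, p.Prime ∧ p ∣ A * n ∧
        ((A * n : ℕ) : ℝ) ^ (w - η) < p ∧ (p : ℝ) ≤ ((A * n : ℕ) : ℝ) ^ (w + η) := by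
  have hA0 : (0 : ℝ) < A := by exact_mod_cast hA
  have hA1 : (1 : ℝ) ≤ A := by exact_mod_cast hA
  -- large `n`
  have l1 : ∀ w : ℝ, ∀ᶠ n : ℕ in atTop, ((A : ℝ) * n) ^ (w - η) < (n : ℝ) ^ w := by
    intro w
    have h1 : Tendsto (fun n : ℕ => ((n : ℝ)) ^ η) atTop atTop :=
      (tendsto_rpow_atTop hη).comp tendsto_natCast_atTop_atTop
    filter_upwards [h1.eventually_gt_atTop ((A : ℝ) ^ (w - η)), eventually_ge_atTop 1]
      with n hn hn1
    have hn0 : (0 : ℝ) < n := by exact_mod_cast hn1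
    rw [Real.mul_rpow hA0.le hn0.le]
    calc (A : ℝ) ^ (w - η) * (n : ℝ) ^ (w - η) < (n : ℝ) ^ η * (n : ℝ) ^ (w - η) :=
          mul_lt_mul_of_pos_right hn (Real.rpow_pos_of_pos hn0 _)
      _ = (n : ℝ) ^ w := by
          rw [← Real.rpow_add hn0]
          congr 1
          ring
  have l2 : ∀ᶠ n : ℕ in atTop, (A : ℝ) < (n : ℝ) ^ u :=
    ((tendsto_rpow_atTop hu).comp tendsto_natCast_atTop_atTop).eventually_gt_atTop (A : ℝ)
  obtain ⟨n0, hn0⟩ := eventually_atTop.1 (((l1 u).and (l1 v)).and (l2.and (eventually_gt_atTop A)))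
  refine ⟨n0, fun n hn hne => ?_⟩
  obtain ⟨⟨k1, k2⟩, k3, k4⟩ := hn0 n hn
  have hn1 : 1 ≤ n := by omega
  have hnR : (1 : ℝ) ≤ n := by exact_mod_cast hn1
  have hnp : (0 : ℝ) < n := by linarith
  have hAn1 : 1 ≤ A * n := Nat.mul_pos hA hn1
  have hAnR : (1 : ℝ) ≤ ((A * n : ℕ) : ℝ) := by exact_mod_cast hAn1
  have hle : (n : ℝ) ≤ ((A * n : ℕ) : ℝ) := by
    push_cast
    nlinarith
  have hcast : ((A * n : ℕ) : ℝ) = (A : ℝ) * n := by push_cast; ring
  -- the two sets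
  by_contra hno
  apply hne
  unfold cntN
  congr 1
  ext p
  constructor
  · rintro ⟨h1, h2, h3, h4⟩
    have hpn : (p : ℝ) ≤ n := by exact_mod_cast Nat.le_of_dvd hn1 h2
    have hv0 : 0 < v := by
      by_contra hv
      push Not at hv
      have h5 : (n : ℝ) ^ v ≤ 1 := Real.rpow_le_one_of_one_le_of_nonpos hnR hv
      have h6 : (2 : ℝ) ≤ p := by exact_mod_cast h1.two_le
      linarith
    have h7 : (p : ℝ) ≤ ((A * n : ℕ) : ℝ) ^ v :=
      h4.trans (Real.rpow_le_rpow hnp.le hle hv0.le)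
    refine ⟨h1, h2.mul_left A, ?_, h7⟩
    by_contra h8
    push Not at h8
    apply hno
    refine ⟨u, Or.inl rfl, hu, ?_, p, h1, h2.mul_left A, ?_, ?_⟩
    · by_contra hu1
      push Not at hu1
      have h9 : (n : ℝ) ≤ (n : ℝ) ^ u := by
        calc (n : ℝ) = (n : ℝ) ^ (1 : ℝ) := (Real.rpow_one _).symm
          _ ≤ (n : ℝ) ^ u := Real.rpow_le_rpow_of_exponent_le hnR hu1
      linarith
    · rw [hcast]
      exact k1.trans h3
    · exact h8.trans (Real.rpow_le_rpow_of_exponent_le hAnR (by linarith))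
  · rintro ⟨h1, h2, h3, h4⟩
    have h5 : (n : ℝ) ^ u ≤ ((A * n : ℕ) : ℝ) ^ u := Real.rpow_le_rpow hnp.le hle hu.le
    have h6 : (n : ℝ) ^ u < p := lt_of_le_of_lt h5 h3
    have hpd : p ∣ n := by
      rcases (Nat.Prime.dvd_mul h1).1 h2 with h | h
      · exfalso
        have h7 : (p : ℝ) ≤ A := by exact_mod_cast Nat.le_of_dvd hA h
        linarith
      · exact h
    have hpn : (p : ℝ) ≤ n := by exact_mod_cast Nat.le_of_dvd hn1 hpd
    refine ⟨h1, hpd, h6, ?_⟩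
    by_contra h8
    push Not at h8
    have hv0 : 0 < v := by
      by_contra hv
      push Not at hv
      have h9 : ((A * n : ℕ) : ℝ) ^ v ≤ 1 := Real.rpow_le_one_of_one_le_of_nonpos hAnR hv
      have h10 : (2 : ℝ) ≤ p := by exact_mod_cast h1.two_le
      linarith
    apply hno
    refine ⟨v, Or.inr rfl, hv0, ?_, p, h1, h2, ?_, ?_⟩
    · by_contra hv1
      push Not at hv1
      have h9 : (n : ℝ) ≤ (n : ℝ) ^ v := by
        calc (n : ℝ) = (n : ℝ) ^ (1 : ℝ) := (Real.rpow_one _).symm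
          _ ≤ (n : ℝ) ^ v := Real.rpow_le_rpow_of_exponent_le hnR hv1
      linarith
    · rw [hcast]
      exact k2.trans h8
    · exact h4.trans (Real.rpow_le_rpow_of_exponent_le hAnR (by linarith))

/-- integers with a prime factor in a window -/
theorem dens_up {α' α β τ : ℝ} (h0 : 0 < α') (h1 : α' < α) (h2 : α < β) (hτ : 0 < τ) : ∀ᶠ N : ℕ in atTop, (Set.ncard {n : ℕ | 1 ≤ n ∧ n ≤ N ∧
      ∃ p : ℕ, p.Prime ∧ p ∣ n ∧ (n : ℝ) ^ α < p ∧ (p : ℝ) ≤ (n : ℝ) ^ β} : ℝ) ≤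
      (Real.log (β / α') + 2 * τ) * N := by
  classical
  have hs := (Int29.sum_lim (I := (α', β)) h0 (h1.trans h2)).comp tendsto_natCast_atTop_atTop
  have e1 : ∀ᶠ N : ℕ in atTop, ∑ p ∈ PW (N : ℝ) (α', β), 1 / (p : ℝ) ≤ Real.log (β / α') + τ := by
    have := hs.eventually (eventually_le_nhds (show Real.log (β / α') < Real.log (β / α') + τ by
      linarith))
    simpa using this
  have e2 : ∀ᶠ N : ℕ in atTop, τ ^ (-α) ≤ (N : ℝ) ^ (α - α') :=
    ((tendsto_rpow_atTop (by linarith : 0 < α - α')).comp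
      tendsto_natCast_atTop_atTop).eventually_ge_atTop _
  filter_upwards [e1, e2, eventually_ge_atTop 1] with N hN1 hN2 hN3
  have hNp : (0 : ℝ) < N := by exact_mod_cast hN3
  have hNR : (1 : ℝ) ≤ N := by exact_mod_cast hN3
  have hsub : {n : ℕ | 1 ≤ n ∧ n ≤ N ∧
      ∃ p : ℕ, p.Prime ∧ p ∣ n ∧ (n : ℝ) ^ α < p ∧ (p : ℝ) ≤ (n : ℝ) ^ β} ⊆
      ((Finset.Icc 1 ⌊τ * N⌋₊ ∪ (PW (N : ℝ) (α', β)).biUnion
        (fun p => (Finset.Icc 1 N).filter (fun n => p ∣ n)) : Finset ℕ) : Set ℕ) := by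
    rintro n ⟨hn1, hnN, p, hp, hpn, h3, h4⟩
    rw [Finset.mem_coe, Finset.mem_union]
    by_cases hlt : (n : ℝ) ≤ τ * N
    · exact Or.inl (Finset.mem_Icc.2 ⟨hn1, Nat.le_floor hlt⟩)
    · right
      push Not at hlt
      rw [Finset.mem_biUnion]
      refine ⟨p, ?_, Finset.mem_filter.2 ⟨Finset.mem_Icc.2 ⟨hn1, hnN⟩, hpn⟩⟩
      have hn0 : (0 : ℝ) < n := by exact_mod_cast hn1
      have hnN' : (n : ℝ) ≤ N := by exact_mod_cast hnN
      have h5 : (p : ℝ) ≤ (N : ℝ) ^ β := h4.trans (Real.rpow_le_rpow hn0.le hnN' (by linarith))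
      unfold PW
      rw [Finset.mem_filter, Finset.mem_range]
      refine ⟨Nat.lt_succ_of_le (Nat.le_floor h5), hp, ?_⟩
      show (N : ℝ) ^ α' < p
      refine lt_of_le_of_lt ?_ h3
      calc (N : ℝ) ^ α' = (τ ^ α * τ ^ (-α)) * (N : ℝ) ^ α' := by
            rw [← Real.rpow_add hτ]
            simp
        _ ≤ (τ ^ α * (N : ℝ) ^ (α - α')) * (N : ℝ) ^ α' := by
            refine mul_le_mul_of_nonneg_right ?_ (Real.rpow_nonneg hNp.le _)
            exact mul_le_mul_of_nonneg_left hN2 (Real.rpow_nonneg hτ.le _)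
        _ = (τ * N) ^ α := by
            rw [Real.mul_rpow hτ.le hNp.le, mul_assoc, ← Real.rpow_add hNp]
            congr 2
            ring
        _ ≤ (n : ℝ) ^ α := Real.rpow_le_rpow (by positivity) hlt.le (by linarith)
  have hcard := (Set.ncard_le_ncard hsub (Finset.finite_toSet _))
  rw [Set.ncard_coe_finset] at hcard
  have h6 : ((Finset.Icc 1 ⌊τ * N⌋₊ ∪ (PW (N : ℝ) (α', β)).biUnion
        (fun p => (Finset.Icc 1 N).filter (fun n => p ∣ n)) : Finset ℕ).card : ℝ) ≤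
      τ * N + ∑ p ∈ PW (N : ℝ) (α', β), (N : ℝ) / p := by
    have h7 : ((Finset.Icc 1 ⌊τ * N⌋₊ ∪ (PW (N : ℝ) (α', β)).biUnion
        (fun p => (Finset.Icc 1 N).filter (fun n => p ∣ n)) : Finset ℕ).card : ℝ) ≤
        ((Finset.Icc 1 ⌊τ * N⌋₊).card : ℝ) + ∑ p ∈ PW (N : ℝ) (α', β),
          (((Finset.Icc 1 N).filter (fun n => p ∣ n)).card : ℝ) := by
      exact_mod_cast (Finset.card_union_le _ _).trans (Nat.add_le_add_left
        Finset.card_biUnion_le _)
    refine h7.trans (add_le_add ?_ (Finset.sum_le_sum fun p hp => ?_))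
    · rw [Nat.card_Icc, Nat.add_sub_cancel]
      exact Nat.floor_le (by positivity)
    · have h8 : ((Finset.Icc 1 N).filter (fun n => p ∣ n)).card = N / p := by
        rw [← Nat.Ioc_filter_dvd_card_eq_div N p]
        congr 1
      rw [h8]
      exact Nat.cast_div_le
  have h9 : ∑ p ∈ PW (N : ℝ) (α', β), (N : ℝ) / p =
      N * ∑ p ∈ PW (N : ℝ) (α', β), 1 / (p : ℝ) := by
    rw [Finset.mul_sum]
    exact Finset.sum_congr rfl fun p _ => by ring
  calc _ ≤ ((Finset.Icc 1 ⌊τ * N⌋₊ ∪ (PW (N : ℝ) (α', β)).biUnion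
        (fun p => (Finset.Icc 1 N).filter (fun n => p ∣ n)) : Finset ℕ).card : ℝ) := by
        exact_mod_cast hcard
    _ ≤ τ * N + N * (Real.log (β / α') + τ) := by
        rw [h9] at h6
        exact h6.trans (add_le_add le_rfl (mul_le_mul_of_nonneg_left hN1 hNp.le))
    _ = (Real.log (β / α') + 2 * τ) * N := by ring

/-- the type: some prime factor in the window -/
theorem ty_win {u v : ℝ} {n : ℕ} (hn : 1 ≤ n) :
    Ty (fun _ : Fin 1 => u) (fun _ => v) {c | c 0 ≠ 0} n ↔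
      ∃ p : ℕ, p.Prime ∧ p ∣ n ∧ (n : ℝ) ^ u < p ∧ (p : ℝ) ≤ (n : ℝ) ^ v := by
  unfold Ty
  show cntN n u v n ≠ 0 ↔ _
  unfold cntN
  rw [Ne, Set.ncard_eq_zero (win_fin hn), ← Ne, ← Set.nonempty_iff_ne_empty]
  rfl

/-- a small window has a small density -/
theorem dens_w {w ε : ℝ} (hw : 0 < w) (hε : 0 < ε) : ∃ η : ℝ, 0 < η ∧ 0 < w - η ∧
    ∀ δ : ℝ, Nd (Ty (fun _ : Fin 1 => w - η) (fun _ => w + η) {c | c 0 ≠ 0}) δ → δ ≤ ε := by
  have hc : ContinuousAt (fun η : ℝ => Real.log ((w + η) / (w - 2 * η))) 0 := by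
    refine ContinuousAt.log (ContinuousAt.div (by fun_prop) (by fun_prop) ?_) ?_
    · simp [hw.ne']
    · simp [hw.ne']
  have h0 : Real.log ((w + 0) / (w - 2 * 0)) = 0 := by
    rw [add_zero, mul_zero, sub_zero, div_self hw.ne', Real.log_one]
  have e1 : ∀ᶠ η : ℝ in 𝓝 0, Real.log ((w + η) / (w - 2 * η)) < ε / 2 := by
    refine hc.eventually_lt_const ?_
    show Real.log ((w + 0) / (w - 2 * 0)) < ε / 2
    rw [h0]
    linarith
  have e2 : ∀ᶠ η : ℝ in 𝓝 0, η < w / 4 := eventually_lt_nhds (by linarith)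
  obtain ⟨η, ⟨hη1, hη2⟩, hη0⟩ := (((e1.and e2).filter_mono (nhdsWithin_le_nhds
    (s := Set.Ioi (0 : ℝ)))).and self_mem_nhdsWithin).exists
  have hη0' : 0 < η := hη0
  refine ⟨η, hη0', by linarith, fun δ hδ => ?_⟩
  have hτ : 0 < min 1 (ε / 4) := lt_min one_pos (by linarith)
  have h1 := dens_up (α' := w - 2 * η) (α := w - η) (β := w + η) (by linarith) (by linarith)
    (by linarith) hτ
  refine le_of_tendsto hδ ?_
  filter_upwards [h1, eventually_ge_atTop 1] with N hN hN1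
  have hNp : (0 : ℝ) < N := by exact_mod_cast hN1
  have e3 : {n : ℕ | 1 ≤ n ∧ n ≤ N ∧ Ty (fun _ : Fin 1 => w - η) (fun _ => w + η)
      {c | c 0 ≠ 0} n} = {n : ℕ | 1 ≤ n ∧ n ≤ N ∧
      ∃ p : ℕ, p.Prime ∧ p ∣ n ∧ (n : ℝ) ^ (w - η) < p ∧ (p : ℝ) ≤ (n : ℝ) ^ (w + η)} := by
    ext n
    exact ⟨fun h => ⟨h.1, h.2.1, (ty_win h.1).1 h.2.2⟩, fun h => ⟨h.1, h.2.1, (ty_win h.1).2 h.2.2⟩⟩
  rw [e3, div_le_iff₀ hNp]
  refine hN.trans (mul_le_mul_of_nonneg_right ?_ hNp.le)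
  have h2 : min 1 (ε / 4) ≤ ε / 4 := min_le_right _ _
  linarith

theorem lognull_lt (N1 : ℕ) : LogNull {N : ℕ | N < N1} := by
  intro ε hε
  refine ⟨0, fun H _ => ⟨N1, fun N hN => ?_⟩⟩
  rw [Finset.sum_eq_zero]
  · positivity
  · intro n hn
    rw [Set.indicator_of_notMem]
    intro h
    have h1 := (Finset.mem_Ioc.1 hn).1
    have h2 : n < N1 := h
    omega

/-- comparison of the counts of pairs -/
theorem pc_le {a b c : ℤ} (hf : ∀ t : ℕ, fv a b c t ≠ 0) (h t₀ : ℕ) (α β : ℝ) {ι : Type*}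
    (G : Finset ι) (B : ι → ℕ → ℕ → Prop) (P Q R : ℕ → ℕ → Prop)
    (hP : ∀ t d : ℕ, d ∈ nearG a b c α β t → P t d → Q t d ∨ R t d ∨ ∃ i ∈ G, B i t d) (N : ℕ) :
    pairCount a b c h t₀ α β P N ≤ pairCount a b c h t₀ α β Q N + pairCount a b c h t₀ α β R N +
      ∑ i ∈ G, pairCount a b c h t₀ α β (B i) N := by
  classical
  unfold pairCount
  rw [Finset.sum_comm, ← Finset.sum_add_distrib, ← Finset.sum_add_distrib]
  refine Finset.sum_le_sum fun t _ => ?_
  rw [EndH20.ncard_eq (hf t) α β (P t), EndH20.ncard_eq (hf t) α β (Q t),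
    EndH20.ncard_eq (hf t) α β (R t), Finset.sum_congr rfl fun i _ =>
      EndH20.ncard_eq (hf t) α β (B i t)]
  have hsub : (nearG a b c α β t).filter (P t) ⊆ ((nearG a b c α β t).filter (Q t) ∪
      (nearG a b c α β t).filter (R t)) ∪ G.biUnion fun i => (nearG a b c α β t).filter (B i t) := by
    intro d hd
    rw [Finset.mem_filter] at hd
    rw [Finset.mem_union, Finset.mem_union, Finset.mem_filter, Finset.mem_filter,
      Finset.mem_biUnion]
    rcases hP t d hd.1 hd.2 with h1 | h1 | ⟨i, hi, h1⟩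
    · exact Or.inl (Or.inl ⟨hd.1, h1⟩)
    · exact Or.inl (Or.inr ⟨hd.1, h1⟩)
    · exact Or.inr ⟨i, hi, Finset.mem_filter.2 ⟨hd.1, h1⟩⟩
  refine (Finset.card_le_card hsub).trans ((Finset.card_union_le _ _).trans ?_)
  exact Nat.add_le_add (Finset.card_union_le _ _) Finset.card_biUnion_le

/-- the pairs with `t` bounded -/
theorem pc_bdd {a b c : ℤ} (hf : ∀ t : ℕ, fv a b c t ≠ 0) (h t₀ : ℕ) (α β : ℝ) (t1 : ℕ) :
    ∃ C : ℕ, ∀ N : ℕ, pairCount a b c h t₀ α β (fun t _ => t < t1) N ≤ C := by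
  classical
  refine ⟨∑ t ∈ Finset.range t1, (nearG a b c α β t).card, fun N => ?_⟩
  unfold pairCount
  calc ∑ t ∈ (Finset.Icc 1 N).filter (fun t => t ≡ t₀ [MOD h]),
        Set.ncard {d : ℕ | (d : ℤ) ∣ a * (t : ℤ) ^ 2 + b * t + c ∧ α * t ≤ d ∧ d ≤ β * t ∧
          t < t1}
      ≤ ∑ t ∈ (Finset.Icc 1 N).filter (fun t => t ≡ t₀ [MOD h]),
        if t < t1 then (nearG a b c α β t).card else 0 := by
        refine Finset.sum_le_sum fun t _ => ?_
        rw [EndH20.ncard_eq (hf t) α β (fun _ => t < t1)]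
        by_cases ht : t < t1
        · rw [if_pos ht]
          exact Finset.card_filter_le _ _
        · rw [if_neg ht]
          simp [ht]
    _ = ∑ t ∈ ((Finset.Icc 1 N).filter (fun t => t ≡ t₀ [MOD h])).filter (fun t => t < t1),
        (nearG a b c α β t).card := (Finset.sum_filter _ _).symm
    _ ≤ ∑ t ∈ Finset.range t1, (nearG a b c α β t).card := by
        refine Finset.sum_le_sum_of_subset fun t ht => ?_
        exact Finset.mem_range.2 (Finset.mem_filter.1 ht).2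

/-- the second factor is large -/
theorem quo_large {a b c : ℤ} (ha : 0 < a) {α β : ℝ} (hβ : 0 < β) (n0 : ℕ) :
    ∃ t1 : ℕ, ∀ t : ℕ, t1 ≤ t → ∀ d ∈ nearG a b c α β t, n0 ≤ (fv a b c t).natAbs / d := by
  obtain ⟨t1, ht1⟩ := exists_nat_ge (2 * ((|b| : ℤ) + (|c| : ℤ) : ℝ) + 2 * β * n0 + 1)
  refine ⟨t1, fun t ht d hd => ?_⟩
  obtain ⟨hd1, hd2, hd3⟩ := Finset.mem_filter.1 hd
  obtain ⟨hd4, hd5⟩ := Nat.mem_divisors.1 hd1
  have hd0 : 0 < d := Nat.pos_of_dvd_of_pos hd4 (Nat.pos_of_ne_zero hd5)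
  have hb0 : (0 : ℝ) ≤ (|b| : ℤ) := by exact_mod_cast abs_nonneg b
  have hc0 : (0 : ℝ) ≤ (|c| : ℤ) := by exact_mod_cast abs_nonneg c
  have htR : 2 * ((|b| : ℤ) + (|c| : ℤ) : ℝ) + 2 * β * n0 + 1 ≤ t :=
    ht1.trans (by exact_mod_cast ht)
  have hn00 : (0 : ℝ) ≤ 2 * β * n0 := by positivity
  have ht1' : (1 : ℝ) ≤ t := by linarith
  have haR : (1 : ℝ) ≤ a := by exact_mod_cast ha
  have hbR : -((|b| : ℤ) : ℝ) ≤ b := by exact_mod_cast neg_abs_le b
  have hcR : -((|c| : ℤ) : ℝ) ≤ c := by exact_mod_cast neg_abs_le c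
  have h1 : (t : ℝ) ^ 2 / 2 ≤ (fv a b c t : ℝ) := by
    unfold fv
    push_cast
    have h2 : -((|b| : ℤ) : ℝ) * t ≤ b * t := mul_le_mul_of_nonneg_right hbR (by linarith)
    have h3 : (1 : ℝ) * (t : ℝ) ^ 2 ≤ a * (t : ℝ) ^ 2 :=
      mul_le_mul_of_nonneg_right haR (by positivity)
    have h4 : ((|c| : ℤ) : ℝ) ≤ (|c| : ℤ) * t := le_mul_of_one_le_right hc0 ht1'
    have h5 : (2 * ((|b| : ℤ) + (|c| : ℤ) : ℝ)) * t ≤ t * t :=
      mul_le_mul_of_nonneg_right (by linarith) (by linarith)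
    nlinarith
  have h6 : (fv a b c t : ℝ) ≤ ((fv a b c t).natAbs : ℝ) := by
    rw [Nat.cast_natAbs, Int.cast_abs]
    exact le_abs_self _
  rw [Nat.le_div_iff_mul_le hd0]
  have h7 : (n0 : ℝ) * d ≤ ((fv a b c t).natAbs : ℝ) := by
    calc (n0 : ℝ) * d ≤ n0 * (β * t) := mul_le_mul_of_nonneg_left hd3 (Nat.cast_nonneg _)
      _ = (β * n0) * t := by ring
      _ ≤ (t / 2) * t := mul_le_mul_of_nonneg_right (by linarith) (by linarith)
      _ = (t : ℝ) ^ 2 / 2 := by ring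
      _ ≤ _ := h1.trans h6
  exact_mod_cast h7

end Da98

open Da98 Ty98 in
/-- from the conditions for `a |f t| / d` to the conditions for `|f t| / d` -/
theorem pairsU_98 (hOk : StOk) (hDen : StDen) {a b c : ℤ} (ha : 0 < a)
    (hf : ∀ t : ℕ, fv a b c t ≠ 0) {h t₀ : ℕ} {α β : ℝ} (hα : 0 < α) (hαβ : α < β)
    (hP : PairsT a b c h t₀ α β) : PairsU a b c h t₀ α β := by
  classical
  have hβ : 0 < β := hα.trans hαβ
  obtain ⟨κ, hκ, hlim, hA⟩ := hP
  refine ⟨κ, hκ, hlim, fun m m' u v u' v' S S' δ δ' hu hu' hδ hδ' k hk r s => ?_⟩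
  have hmain := hA m m' u v u' v' S S' δ δ' hu hu' hδ hδ' k hk r s
  have hA1 : 1 ≤ a.natAbs := Int.natAbs_pos.2 ha.ne'
  -- the ends of the windows
  set W : Finset ℝ := (Finset.univ.image u' ∪ Finset.univ.image v').filter
    (fun w => 0 < w ∧ w < 1) with hW
  have hWc : (0 : ℝ) < (W.card : ℝ) + 1 := by positivity
  set P1 : ℕ → ℕ → Prop := fun t d => Ty u v S d ∧ Ty u' v' S' ((fv a b c t).natAbs / d) ∧
    Omn d ≡ r [MOD k] ∧ Omn ((fv a b c t).natAbs / d) ≡ s [MOD k] with hP1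
  set P0 : ℕ → ℕ → Prop := fun t d => Ty u v S d ∧
    Ty u' v' S' (a.natAbs * ((fv a b c t).natAbs / d)) ∧ Omn d ≡ r [MOD k] ∧
    Omn ((fv a b c t).natAbs / d) ≡ s [MOD k] with hP0
  have key : ∀ ε : ℝ, 0 < ε →
      LogNull {N | ε < |(pairCount a b c h t₀ α β P1 N : ℝ) / N - δ * δ' * κ / k ^ 2|} := by
    intro ε hε
    have hw : ∀ w ∈ W, ∃ η : ℝ, 0 < η ∧ 0 < w - η ∧ ∃ σ : ℝ, σ ≤ ε / (4 * κ * (W.card + 1)) ∧
        Nd (Ty (fun _ : Fin 1 => w - η) (fun _ => w + η) {c | c 0 ≠ 0}) σ := by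
      intro w hw
      obtain ⟨η, hη, hη2, hη3⟩ := dens_w (Finset.mem_filter.1 hw).2.1
        (show 0 < ε / (4 * κ * (W.card + 1)) by positivity)
      obtain ⟨σ, hσ⟩ := exists_nd hOk hDen (fun _ : Fin 1 => w - η) (fun _ => w + η)
        (fun _ => hη2) {c | c 0 ≠ 0}
      exact ⟨η, hη, hη2, σ, hη3 σ hσ, hσ⟩
    choose! η hη hη2 σ hσ hNd using hw
    -- the trivial type
    have htriv : Nd (Ty (fun i : Fin 0 => i.elim0) (fun i : Fin 0 => i.elim0) Set.univ) 1 := by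
      have e1 : ∀ᶠ N : ℕ in atTop, (1 : ℝ) = (Set.ncard {n : ℕ | 1 ≤ n ∧ n ≤ N ∧
          Ty (fun i : Fin 0 => i.elim0) (fun i : Fin 0 => i.elim0) Set.univ n} : ℝ) / N := by
        filter_upwards [eventually_ge_atTop 1] with N hN
        have e2 : {n : ℕ | 1 ≤ n ∧ n ≤ N ∧
            Ty (fun i : Fin 0 => i.elim0) (fun i : Fin 0 => i.elim0) Set.univ n} =
            ((Finset.Icc 1 N : Finset ℕ) : Set ℕ) := by
          ext n
          simp [Ty]
        rw [e2, Set.ncard_coe_finset, Nat.card_Icc, Nat.add_sub_cancel]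
        have : (N : ℝ) ≠ 0 := by
          have : (0 : ℝ) < N := by exact_mod_cast hN
          exact this.ne'
        field_simp
      exact Tendsto.congr' e1 tendsto_const_nhds
    set Bw : ℝ → ℕ → ℕ → Prop := fun w t d =>
      Ty (fun i : Fin 0 => i.elim0) (fun i : Fin 0 => i.elim0) Set.univ d ∧
      Ty (fun _ : Fin 1 => w - η w) (fun _ => w + η w) {c | c 0 ≠ 0}
        (a.natAbs * ((fv a b c t).natAbs / d)) ∧ Omn d ≡ 0 [MOD 1] ∧
      Omn ((fv a b c t).natAbs / d) ≡ 0 [MOD 1] with hBw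
    have hBn : ∀ w ∈ W, LogNull {N | ε / (4 * (W.card + 1)) <
        |(pairCount a b c h t₀ α β (Bw w) N : ℝ) / N - σ w * κ|} := by
      intro w hw
      have h1 := (hA 0 1 (fun i : Fin 0 => i.elim0) (fun i : Fin 0 => i.elim0)
        (fun _ : Fin 1 => w - η w) (fun _ => w + η w) Set.univ {c | c 0 ≠ 0} 1 (σ w)
        (fun i => i.elim0) (fun _ => hη2 w hw) htriv (hNd w hw) 1 one_pos 0 0).1
        (ε / (4 * (W.card + 1))) (by positivity)
      refine EndS.LogNull.mono h1 fun N hN => ?_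
      have e1 : 1 * σ w * κ / ((1 : ℕ) : ℝ) ^ 2 = σ w * κ := by
        simp
      simp only [Set.mem_ofPred_eq] at hN ⊢
      rw [e1]
      exact hN
    -- the counts differ only near the ends
    have hn0 : ∀ i : Fin m', ∃ n0 : ℕ, ∀ n : ℕ, n0 ≤ n →
        cntN n (u' i) (v' i) n ≠ cntN ((a.natAbs * n : ℕ) : ℝ) (u' i) (v' i) (a.natAbs * n) →
        ∃ w ∈ W, ∃ p : ℕ, p.Prime ∧ p ∣ a.natAbs * n ∧
        ((a.natAbs * n : ℕ) : ℝ) ^ (w - η w) < p ∧ (p : ℝ) ≤ ((a.natAbs * n : ℕ) : ℝ) ^ (w + η w) := by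
      intro i
      have hpos : ∀ w ∈ W, 0 < η w := hη
      -- one common small number for the two ends
      set η0 : ℝ := min (if u' i ∈ W then η (u' i) else 1) (if v' i ∈ W then η (v' i) else 1)
        with hη0
      have h1 : 0 < η0 := by
        rw [hη0]
        refine lt_min ?_ ?_
        · split_ifs with hh
          · exact hpos _ hh
          · exact one_pos
        · split_ifs with hh
          · exact hpos _ hh
          · exact one_pos
      obtain ⟨n0, hn0⟩ := cnt_ne hA1 (v := v' i) (hu' i) h1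
      refine ⟨max n0 1, fun n hn hne => ?_⟩
      obtain ⟨w, hw1, hw2, hw3, p, hp1, hp2, hp3, hp4⟩ := hn0 n ((le_max_left _ _).trans hn) hne
      have hwW : w ∈ W := by
        rw [hW, Finset.mem_filter, Finset.mem_union]
        refine ⟨?_, hw2, hw3⟩
        rcases hw1 with h | h
        · exact Or.inl (Finset.mem_image.2 ⟨i, Finset.mem_univ _, h.symm⟩)
        · exact Or.inr (Finset.mem_image.2 ⟨i, Finset.mem_univ _, h.symm⟩)
      have hle : η0 ≤ η w := by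
        rcases hw1 with h | h
        · subst h
          rw [hη0, if_pos hwW]
          exact min_le_left _ _
        · subst h
          rw [hη0, if_pos hwW]
          exact min_le_right _ _
      have hb : (1 : ℝ) ≤ ((a.natAbs * n : ℕ) : ℝ) := by
        exact_mod_cast Nat.mul_pos hA1 ((le_max_right _ _).trans hn)
      exact ⟨w, hwW, p, hp1, hp2,
        lt_of_le_of_lt (Real.rpow_le_rpow_of_exponent_le hb (by linarith)) hp3,
        hp4.trans (Real.rpow_le_rpow_of_exponent_le hb (by linarith))⟩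
    choose n0 hn0' using hn0
    obtain ⟨t1, ht1⟩ := quo_large (b := b) (c := c) ha hβ (α := α)
      (max (Finset.univ.sup n0) 1)
    obtain ⟨C1, hC1⟩ := pc_bdd hf h t₀ α β t1
    have hdiff : ∀ t d : ℕ, d ∈ nearG a b c α β t → ¬ t < t1 →
        ¬ (Ty u' v' S' ((fv a b c t).natAbs / d) ↔
          Ty u' v' S' (a.natAbs * ((fv a b c t).natAbs / d))) → ∃ w ∈ W, Bw w t d := by
      intro t d hd ht hne
      have hn := ht1 t (not_lt.1 ht) d hd
      set n := (fv a b c t).natAbs / d with hndef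
      have hn1 : 1 ≤ n := (le_max_right _ _).trans hn
      have hex : ∃ i : Fin m', cntN n (u' i) (v' i) n ≠
          cntN ((a.natAbs * n : ℕ) : ℝ) (u' i) (v' i) (a.natAbs * n) := by
        by_contra hno
        push Not at hno
        apply hne
        unfold Ty
        rw [funext hno]
      obtain ⟨i, hi⟩ := hex
      have h1 : n0 i ≤ n := (Finset.le_sup (f := n0) (Finset.mem_univ i)).trans
        ((le_max_left _ _).trans hn)
      obtain ⟨w, hwW, hp⟩ := hn0' i n h1 hi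
      refine ⟨w, hwW, ?_, ?_, Nat.modEq_one, Nat.modEq_one⟩
      · simp [Ty]
      · exact (ty_win (Nat.mul_pos hA1 hn1)).2 hp
    have hle1 := pc_le hf h t₀ α β W Bw P1 P0 (fun t _ => t < t1) (fun t d hd h1 => by
      by_cases ht : t < t1
      · exact Or.inr (Or.inl ht)
      · by_cases h2 : Ty u' v' S' ((fv a b c t).natAbs / d) ↔
            Ty u' v' S' (a.natAbs * ((fv a b c t).natAbs / d))
        · exact Or.inl ⟨h1.1, h2.1 h1.2.1, h1.2.2⟩
        · exact Or.inr (Or.inr (hdiff t d hd ht h2)))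
    have hle0 := pc_le hf h t₀ α β W Bw P0 P1 (fun t _ => t < t1) (fun t d hd h1 => by
      by_cases ht : t < t1
      · exact Or.inr (Or.inl ht)
      · by_cases h2 : Ty u' v' S' ((fv a b c t).natAbs / d) ↔
            Ty u' v' S' (a.natAbs * ((fv a b c t).natAbs / d))
        · exact Or.inl ⟨h1.1, h2.2 h1.2.1, h1.2.2⟩
        · exact Or.inr (Or.inr (hdiff t d hd ht h2)))
    obtain ⟨N1, hN1⟩ := exists_nat_ge (4 * C1 / ε + 1)
    -- the exceptional set
    have hU : LogNull ({N : ℕ | N < N1} ∪ ({N | ε / 4 <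
        |(pairCount a b c h t₀ α β P0 N : ℝ) / N - δ * δ' * κ / k ^ 2|} ∪
        {N | ∃ w ∈ W, N ∈ {N : ℕ | ε / (4 * (W.card + 1)) <
        |(pairCount a b c h t₀ α β (Bw w) N : ℝ) / N - σ w * κ|}})) := by
      have g : ∀ E1 E2 : Set ℕ, LogNull E1 → LogNull E2 → LogNull (E1 ∪ E2) := by
        intro E1 E2 h1 h2
        refine EndS.LogNull.mono (lognull_union (Finset.univ : Finset Bool)
          (fun i => if i then E1 else E2) fun i _ => by cases i <;> simpa) fun n hn => ?_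
        rcases hn with hn | hn
        · exact ⟨true, Finset.mem_univ _, by simpa using hn⟩
        · exact ⟨false, Finset.mem_univ _, by simpa using hn⟩
      exact g _ _ (lognull_lt N1) (g _ _ (hmain.1 (ε / 4) (by positivity))
        (lognull_union W _ hBn))
    refine EndS.LogNull.mono hU fun N hN => ?_
    by_contra hno
    rw [Set.mem_union, Set.mem_union, not_or, not_or] at hno
    obtain ⟨g1, g2, g3⟩ := hno
    simp only [Set.mem_ofPred_eq, not_lt, not_exists, not_and] at g1 g2 g3 hN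
    have hNp : (0 : ℝ) < N := by
      have h1 : (4 * C1 / ε + 1 : ℝ) ≤ N := hN1.trans (by exact_mod_cast g1)
      have h2 : (0 : ℝ) ≤ 4 * C1 / ε := by positivity
      linarith
    have hC1N : (C1 : ℝ) ≤ ε / 4 * N := by
      have h1 : (4 * C1 / ε + 1 : ℝ) ≤ N := hN1.trans (by exact_mod_cast g1)
      have h2 : (4 * C1 / ε : ℝ) ≤ N := by linarith
      rw [div_le_iff₀ hε] at h2
      linarith
    have hB : ∑ w ∈ W, (pairCount a b c h t₀ α β (Bw w) N : ℝ) ≤ ε / 2 * N := by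
      have h1 : ∀ w ∈ W, (pairCount a b c h t₀ α β (Bw w) N : ℝ) ≤
          ε / (2 * (W.card + 1)) * N := by
        intro w hw
        have h2 := (abs_le.1 (g3 w hw)).2
        have h3 : σ w * κ ≤ ε / (4 * (W.card + 1)) := by
          calc σ w * κ ≤ ε / (4 * κ * (W.card + 1)) * κ :=
                mul_le_mul_of_nonneg_right (hσ w hw) hκ.le
            _ = ε / (4 * (W.card + 1)) := by
                field_simp
        have h4 : (pairCount a b c h t₀ α β (Bw w) N : ℝ) / N ≤ ε / (2 * (W.card + 1)) := by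
          have h5 : ε / (2 * (W.card + 1)) = ε / (4 * (W.card + 1)) + ε / (4 * (W.card + 1)) := by
            field_simp
            ring
          linarith
        rwa [div_le_iff₀ hNp] at h4
      refine (Finset.sum_le_sum h1).trans ?_
      rw [Finset.sum_const, nsmul_eq_mul]
      have h6 : (W.card : ℝ) * (ε / (2 * (W.card + 1)) * N) ≤
          ((W.card : ℝ) + 1) * (ε / (2 * (W.card + 1)) * N) :=
        mul_le_mul_of_nonneg_right (by linarith) (by positivity)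
      refine h6.trans (le_of_eq ?_)
      field_simp
    have q1 : (pairCount a b c h t₀ α β P1 N : ℝ) ≤ pairCount a b c h t₀ α β P0 N +
        pairCount a b c h t₀ α β (fun t _ => t < t1) N +
        ∑ w ∈ W, (pairCount a b c h t₀ α β (Bw w) N : ℝ) := by exact_mod_cast hle1 N
    have q0 : (pairCount a b c h t₀ α β P0 N : ℝ) ≤ pairCount a b c h t₀ α β P1 N +
        pairCount a b c h t₀ α β (fun t _ => t < t1) N +
        ∑ w ∈ W, (pairCount a b c h t₀ α β (Bw w) N : ℝ) := by exact_mod_cast hle0 N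
    have q2 : (pairCount a b c h t₀ α β (fun t _ => t < t1) N : ℝ) ≤ C1 := by
      exact_mod_cast hC1 N
    have q3 : |(pairCount a b c h t₀ α β P1 N : ℝ) / N -
        (pairCount a b c h t₀ α β P0 N : ℝ) / N| ≤ 3 * ε / 4 := by
      rw [← sub_div, abs_div, Nat.abs_cast, div_le_iff₀ hNp, abs_le]
      constructor <;> linarith
    have q4 : |(pairCount a b c h t₀ α β P1 N : ℝ) / N - δ * δ' * κ / k ^ 2| ≤
        |(pairCount a b c h t₀ α β P1 N : ℝ) / N - (pairCount a b c h t₀ α β P0 N : ℝ) / N| +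
        |(pairCount a b c h t₀ α β P0 N : ℝ) / N - δ * δ' * κ / k ^ 2| := abs_sub_le _ _ _
    linarith
  refine ⟨key, fun hpos => ?_⟩
  have hk' : (0 : ℝ) < k := by exact_mod_cast hk
  have hpos' : 0 < δ * δ' * κ / (k : ℝ) ^ 2 := by positivity
  have hmono : Monotone (fun N : ℕ => (pairCount a b c h t₀ α β P1 N : ℝ)) := by
    intro N N' hN
    beta_reduce
    have h2 : pairCount a b c h t₀ α β P1 N ≤ pairCount a b c h t₀ α β P1 N' := by
      unfold pairCount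
      apply Finset.sum_le_sum_of_subset
      apply Finset.filter_subset_filter
      exact Finset.Icc_subset_Icc le_rfl hN
    exact_mod_cast h2
  exact EndS.lower_all hmono hpos' (key _ (half_pos hpos'))

end Pool.Agent.Lib.MP_a17b09_nt.AN
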