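import Pool.Agent.Lib.MP_a17b09_nt.AN.Stmts3
import Pool.Agent.Lib.MP_a17b09_nt.HY.EndH20

/-!
Project AN (MP_a17b09_nt), rows A9 and A10 (helper59): the events have the structure `GWt`; the pairs,
negative discriminant.  `pairsA_core` is for one polynomial of any sign of the discriminant.
-/

set_option autoImplicit false

open Filter Topology Finset

namespace Pool.Agent.Lib.MP_a17b09_nt.AN

open CH CH.PE HY

/-- (A9) -/
theorem stGA_59 {d : ℕ} (h3 : StApxA d) (h4 : StDilA) (h8 : StFrA d) : StGA d := by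
  intro E δ hE hD
  obtain ⟨c0, hc0, hz, hd⟩ := h3 E hE
  obtain ⟨hf, hfz⟩ := h8 E δ hE hD
  refine ⟨hD.1, hD.2.1, ⟨c0, hc0, hz, hd δ hD.1 hD.2.1⟩, ?_, hf, hfz⟩
  intro ι _ S _
  obtain ⟨h1, h2⟩ := h4 ι S E hE
  exact ⟨h1, h2 δ hD.1 hD.2.1⟩

namespace E59

/-- all pairs -/
theorem count_all {a b c : ℤ} (hf : ∀ t : ℕ, fv a b c t ≠ 0) (h t₀ : ℕ) (α β : ℝ) (N : ℕ) :
    pairCount a b c h t₀ α β (fun _ _ => True) N = CST a b c α β h t₀ 1 0 0 N := by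
  classical
  unfold pairCount CST
  apply Finset.sum_congr rfl
  intro t _
  rw [EndH20.ncard_eq (hf t) α β (fun _ => True)]
  congr 1
  apply Finset.filter_congr
  intro d _
  exact ⟨fun _ => ⟨Nat.modEq_one, Nat.modEq_one⟩, fun _ => trivial⟩

end E59

/-- the pairs for one polynomial -/
theorem pairsA_core {a b c : ℤ} (ha : 0 < a) (hf : ∀ t : ℕ, fv a b c t ≠ 0) (h t₀ : ℕ)
    (hh : 0 < h) (α β : ℝ) (hα : 0 < α) (hαβ : α < β) {κ : ℝ} (hκ : 0 < κ)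
    (hlim : Tendsto (fun N : ℕ => (CST a b c α β h t₀ 1 0 0 N : ℝ) / N) atTop (𝓝 κ))
    (hFin : StFinG) (hPr : StPrG)
    (hTw : ∀ (E E' : Ev) (δ δ' : ℝ), E.Ok → E'.Ok → Dens E δ → Dens E' δ' →
      TwCon a b c α β h t₀ E.Is E'.Is (δ * δ')) : PairsA a b c h t₀ α β := by
  refine ⟨κ, hκ, by simpa only [E59.count_all hf] using hlim,
    fun E E' δ δ' hE hE' hd hd' => ?_⟩
  exact hPr a b c ha hf h hh t₀ α β hα hαβ κ hκ hlim E.Is E'.Is (δ * δ')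
    (mul_nonneg hd.1 hd'.1) (fun k hk r s M =>
      hFin a b c ha hf h hh t₀ α β hα hαβ κ hκ hlim E.Is E'.Is (δ * δ')
        (hTw E E' δ δ' hE hE' hd hd') k hk r s M)

/-- (A10) -/
theorem stEndA_59 (hGA : ∀ d : ℕ, 0 < d → StGA d) (hTw : StTwG) (hFin : StFinG) (hPr : StPrG)
    (hMain : StMainS) : StEndA := by
  intro a b c ha hD h t₀ hh α β hα hαβ
  obtain ⟨κ, hκ, hlim⟩ := hMain a b c ha hD h hh t₀ α β hα hαβ
  obtain ⟨d, hd⟩ : ∃ d : ℕ, (d : ℤ) = 4 * a * c - b ^ 2 :=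
    ⟨(4 * a * c - b ^ 2).toNat, Int.toNat_of_nonneg (by omega)⟩
  have hd0 : 0 < d := by
    have : (0 : ℤ) < d := by rw [hd]; omega
    exact_mod_cast this
  have hf : ∀ t : ℕ, fv a b c t ≠ 0 := by
    intro t h0
    have h1 : 4 * a * fv a b c t = (2 * a * t + b) ^ 2 + (4 * a * c - b ^ 2) := by
      unfold fv
      ring
    rw [h0] at h1
    nlinarith [sq_nonneg (2 * a * (t : ℤ) + b)]
  exact pairsA_core ha hf h t₀ hh α β hα hαβ hκ hlim hFin hPr fun E E' δ δ' hE hE' hd1 hd2 =>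
    hTw a b c ha hD d hd E.Is E'.Is δ δ' (hGA d hd0 E δ hE hd1) (hGA d hd0 E' δ' hE' hd2) h hh t₀
      α β hα hαβ

end Pool.Agent.Lib.MP_a17b09_nt.AN
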