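import Pool.Agent.Lib.MP_a17b09_nt.AN.StmtsH3
import Pool.Agent.Lib.MP_a17b09_nt.AN.End_59

/-!
Project AN (MP_a17b09_nt), rows AH9 and AH10 (helper59): the events have the structure `GWtH`; the
pairs, positive nonsquare discriminant; the pairs for every nonsquare discriminant.
-/

set_option autoImplicit false

open Filter Topology Finset

namespace Pool.Agent.Lib.MP_a17b09_nt.ANH

open CH CH.PE HY HY.S68 MRH
open AN (Ev ind wz wd Dens TwCon PairsG PairsA)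

/-- (AH9) -/
theorem stGAH_59 {d : ℕ} (h3 : StApxAH d) (h4 : StDilAH) (h8 : StFrAH d) : StGAH d := by
  intro E δ hE hD
  obtain ⟨c0, hc0, hz, hd⟩ := h3 E hE
  obtain ⟨hf, hfz⟩ := h8 E δ hE hD
  refine ⟨hD.1, hD.2.1, ⟨c0, hc0, hz, hd δ hD.1 hD.2.1⟩, ?_, hf, hfz⟩
  intro ι _ S _
  obtain ⟨h1, h2⟩ := h4 ι S E hE
  exact ⟨h1, h2 δ hD.1 hD.2.1⟩

/-- (AH10) -/
theorem stEndAH_59 (hGA : ∀ d : ℕ, ¬ IsSquare d → StGAH d) (hTw : StTwGH) (hFin : AN.StFinG)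
    (hPr : AN.StPrG) (hMain : StHMainS) : StEndAH := by
  intro a b c ha d hd hns h t₀ hh α β hα hαβ
  obtain ⟨κ, hκ, hlim⟩ := hMain a b c ha d hd hns h hh t₀ α β hα hαβ
  have hf : ∀ t : ℕ, fv a b c t ≠ 0 := by
    intro t h0
    have h1 : 4 * a * fv a b c t = (2 * a * t + b) ^ 2 - (b ^ 2 - 4 * a * c) := by
      unfold fv
      ring
    rw [h0, hd] at h1
    have h2 : (d : ℤ) = (2 * a * t + b) * (2 * a * t + b) := by linarith [sq (2 * a * (t : ℤ) + b)]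
    apply hns
    exact Int.isSquare_natCast_iff.1 ⟨_, h2⟩
  exact AN.pairsA_core ha hf h t₀ hh α β hα hαβ hκ hlim hFin hPr fun E E' δ δ' hE hE' hd1 hd2 =>
    hTw a b c ha d hd hns E.Is E'.Is δ δ' (hGA d hns E δ hE hd1) (hGA d hns E' δ' hE' hd2) h hh t₀
      α β hα hαβ

/-- the pairs, every nonsquare discriminant -/
theorem pairsA_all59 (hN : AN.StEndA) (hP : StEndAH) (a b c : ℤ) (ha : 0 < a)
    (hns : ¬ IsSquare (b ^ 2 - 4 * a * c)) (h t₀ : ℕ) (hh : 0 < h) (α β : ℝ) (hα : 0 < α)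
    (hαβ : α < β) : PairsA a b c h t₀ α β := by
  rcases lt_or_ge (b ^ 2 - 4 * a * c) 0 with hD | hD
  · exact hN a b c ha hD h t₀ hh α β hα hαβ
  · obtain ⟨d, hd⟩ : ∃ d : ℕ, b ^ 2 - 4 * a * c = d := ⟨_, (Int.toNat_of_nonneg hD).symm⟩
    refine hP a b c ha d hd ?_ h t₀ hh α β hα hαβ
    rintro ⟨s, hs⟩
    apply hns
    refine ⟨s, ?_⟩
    rw [hd, hs]
    push_cast
    ring

end Pool.Agent.Lib.MP_a17b09_nt.ANH
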