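import Pool.Agent.Lib.MP_a17b09_nt.AN.Stmts3
import Pool.Agent.Lib.MP_a17b09_nt.PQ.T3_64

/-!
Project AN (MP_a17b09_nt), G8 (helper98, fork of helper64's `PQ/X8_64`): the count of the pairs with
`A d`, `B (a |f t| / d)` and prescribed classes, from the twisted sums (Fourier inversion), for one
polynomial of any sign of the discriminant.
-/

set_option autoImplicit false

open Filter Topology Finset

namespace Pool.Agent.Lib.MP_a17b09_nt.AN

open CH CH.PE
open PQ (TwW)

namespace G98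

open Classical in
/-- the near divisors with both windows -/
noncomputable def NG (a b c : ℤ) (α β : ℝ) (A B : ℕ → Prop) (t : ℕ) : Finset ℕ :=
  (nearG a b c α β t).filter (fun d => A d ∧
    B (a.natAbs * ((fv a b c t).natAbs / d)))

theorem CWG_eq (a b c : ℤ) (α β : ℝ) (h t0 : ℕ) (A B : ℕ → Prop) (k r s N : ℕ) :
    CWG a b c α β h t0 A B k r s N = ∑ t ∈ (Finset.Icc 1 N).filter (fun t => t ≡ t0 [MOD h]),
      ((NG a b c α β A B t).filter (fun d => Omn d ≡ r [MOD k] ∧
        Omn ((fv a b c t).natAbs / d) ≡ s [MOD k])).card := by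
  classical
  unfold CWG NG
  refine Finset.sum_congr rfl fun t _ => ?_
  rw [Finset.filter_filter]
  congr 1
  ext d
  simp only [Finset.mem_filter]
  tauto

/-- the classes together are all pairs -/
theorem NG_sum (a b c : ℤ) (α β : ℝ) (h t0 : ℕ) (A B : ℕ → Prop) {k : ℕ} (hk : 0 < k) (N : ℕ) :
    ∑ p ∈ range k ×ˢ range k, CWG a b c α β h t0 A B k p.1 p.2 N =
      ∑ t ∈ (Finset.Icc 1 N).filter (fun t => t ≡ t0 [MOD h]), (NG a b c α β A B t).card := by
  rw [Finset.sum_congr rfl fun p _ => CWG_eq a b c α β h t0 A B k p.1 p.2 N, Finset.sum_comm]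
  apply Finset.sum_congr rfl
  intro t _
  have h2 := Finset.card_eq_sum_card_fiberwise (s := NG a b c α β A B t)
    (t := range k ×ˢ range k)
    (f := fun d => (Omn d % k, Omn ((fv a b c t).natAbs / d) % k)) (by
      intro d _
      simp only [Finset.coe_product, Set.mem_prod, Finset.mem_coe, Finset.mem_range]
      exact ⟨Nat.mod_lt _ hk, Nat.mod_lt _ hk⟩)
  rw [h2]
  apply Finset.sum_congr rfl
  rintro ⟨r, s⟩ hp
  rw [Finset.mem_product, Finset.mem_range, Finset.mem_range] at hp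
  congr 1
  apply Finset.filter_congr
  intro d _
  simp only [Prod.mk.injEq]
  unfold Nat.ModEq
  rw [Nat.mod_eq_of_lt hp.1, Nat.mod_eq_of_lt hp.2]

/-- the twisted sum with the two windows -/
theorem TwG_eq {a b c : ℤ} (ha : 0 < a) (α β : ℝ) (h t0 : ℕ) (A B : ℕ → Prop) (z1 z2 : ℂ)
    (N : ℕ) : TwW a b c α β h t0 (wz z1 A) (wz z2 B) N = z2 ^ Omn a.natAbs *
      ∑ t ∈ (Finset.Icc 1 N).filter (fun t => t ≡ t0 [MOD h]),
        ∑ d ∈ NG a b c α β A B t, z1 ^ Omn d * z2 ^ Omn ((fv a b c t).natAbs / d) := by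
  classical
  unfold TwW NG
  rw [Finset.mul_sum]
  refine Finset.sum_congr rfl fun t _ => ?_
  rw [Finset.sum_filter, Finset.mul_sum]
  refine Finset.sum_congr rfl fun d hd => ?_
  unfold nearG at hd
  obtain ⟨hd1, -⟩ := Finset.mem_filter.1 hd
  rw [Nat.mem_divisors] at hd1
  obtain ⟨hd2, hd3⟩ := hd1
  have hq0 : (fv a b c t).natAbs / d ≠ 0 := by
    intro h0
    have := Nat.mul_div_cancel' hd2
    rw [h0, mul_zero] at this
    exact hd3 this.symm
  have ha0 : a.natAbs ≠ 0 := Int.natAbs_ne_zero.2 ha.ne'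
  have hO : Omn (a.natAbs * ((fv a b c t).natAbs / d)) =
      Omn a.natAbs + Omn ((fv a b c t).natAbs / d) :=
    ArithmeticFunction.cardFactors_mul ha0 hq0
  unfold wz ind
  rw [hO]
  by_cases h1 : A d
  · by_cases h2 : B (a.natAbs * ((fv a b c t).natAbs / d))
    · rw [if_pos h1, if_pos h2, if_pos ⟨h1, h2⟩, pow_add]
      ring
    · simp [h2]
  · simp [h1]

theorem TwG_bb (a b c : ℤ) (α β : ℝ) (h t0 : ℕ) (A B : ℕ → Prop) (N : ℕ) :
    TwW a b c α β h t0 (ind A) (ind B) N =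
      (((∑ t ∈ (Finset.Icc 1 N).filter (fun t => t ≡ t0 [MOD h]),
        (NG a b c α β A B t).card : ℕ) : ℝ) : ℂ) := by
  classical
  unfold TwW NG
  push_cast
  refine Finset.sum_congr rfl fun t _ => ?_
  rw [Finset.card_filter]
  push_cast
  refine Finset.sum_congr rfl fun d _ => ?_
  unfold ind
  by_cases h1 : A d
  · by_cases h2 : B (a.natAbs * ((fv a b c t).natAbs / d))
    · rw [if_pos h1, if_pos h2, if_pos ⟨h1, h2⟩, mul_one]
    · simp [h2]
  · simp [h1]

theorem NG_le (a b c : ℤ) (α β : ℝ) (h t0 : ℕ) (A B : ℕ → Prop) (N : ℕ) :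
    ∑ t ∈ (Finset.Icc 1 N).filter (fun t => t ≡ t0 [MOD h]), (NG a b c α β A B t).card ≤
      CST a b c α β h t0 1 0 0 N := by
  classical
  unfold CST
  refine Finset.sum_le_sum fun t _ => Finset.card_le_card fun d hd => ?_
  unfold NG at hd
  rw [Finset.mem_filter] at hd ⊢
  exact ⟨hd.1, Nat.modEq_one, Nat.modEq_one⟩

end G98

open PQ.T64 G98 in
/-- the count for one polynomial -/
theorem fin_core {a b c : ℤ} (ha : 0 < a) {A B : ℕ → Prop} {ρ : ℝ} {h t0 : ℕ} {α β κ : ℝ}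
    (hlim : Tendsto (fun N : ℕ => (CST a b c α β h t0 1 0 0 N : ℝ) / N) atTop (𝓝 κ)) {k : ℕ}
    (hk : 0 < k) (r s : ℕ) (M : LMean)
    (hZ : ∀ z1 z2 : ℂ, z1 ^ k = 1 → z2 ^ k = 1 → (z1 ≠ 1 ∨ z2 ≠ 1) →
      M.E (fun N : ℕ => ‖TwW a b c α β h t0 (wz z1 A) (wz z2 B) N‖ / N) = 0)
    (hB : M.E (fun N : ℕ => ‖TwW a b c α β h t0 (ind A) (ind B) N -
      (ρ : ℂ) * TwW a b c α β h t0 (fun _ => 1) (fun _ => 1) N‖ / N) = 0) :
    M.E (fun N : ℕ => |(CWG a b c α β h t0 A B k r s N : ℝ) / N -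
      ρ * κ / k ^ 2|) = 0 := by
  obtain ⟨C, hC0, hC⟩ := lin_of_lim hlim
  set T : ℕ → Finset ℕ := fun N => (Finset.Icc 1 N).filter (fun t => t ≡ t0 [MOD h]) with hT
  set tot : ℕ → ℕ := fun N => ∑ t ∈ T N, (NG a b c α β A B t).card with htot
  have htotC : ∀ N : ℕ, (tot N : ℝ) ≤ C * N := fun N =>
    le_trans (by exact_mod_cast NG_le a b c α β h t0 A B N) (hC N)
  have hle : ∀ r s N : ℕ, CWG a b c α β h t0 A B k r s N ≤ tot N := by
    intro r s N
    rw [CWG_eq]
    exact Finset.sum_le_sum fun t _ => Finset.card_filter_le _ _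
  have hbC : ∀ r s : ℕ, Bdd (fun N : ℕ => (CWG a b c α β h t0 A B k r s N : ℝ) / N) := by
    intro r s
    refine bdd_of_le hC0 (fun N => Nat.cast_nonneg _) fun N => ?_
    exact le_trans (by exact_mod_cast hle r s N) (htotC N)
  have hbT : Bdd (fun N : ℕ => (tot N : ℝ) / N) :=
    bdd_of_le hC0 (fun N => Nat.cast_nonneg _) htotC
  have hbS : Bdd (fun N : ℕ => (CST a b c α β h t0 1 0 0 N : ℝ) / N) :=
    bdd_of_le hC0 (fun N => Nat.cast_nonneg _) hC
  -- the total
  have hT0 : M.E (fun N : ℕ => |(tot N : ℝ) / N - ρ * κ|) = 0 := by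
    have b1 : Bdd (fun N : ℕ => |(tot N : ℝ) / N - ρ *
        ((CST a b c α β h t0 1 0 0 N : ℝ) / N)|) := (hbT.sub (hbS.smul _)).abs
    have b2 : Bdd (fun N : ℕ => |(CST a b c α β h t0 1 0 0 N : ℝ) / N - κ|) :=
      (hbS.sub (Bdd.const κ)).abs
    have e1 : M.E (fun N : ℕ => |(tot N : ℝ) / N - ρ *
        ((CST a b c α β h t0 1 0 0 N : ℝ) / N)|) = 0 := by
      refine Eq.trans ?_ hB
      congr 1
      funext N
      rw [TwG_bb, TwW_one]
      have e2 : ((((∑ t ∈ (Finset.Icc 1 N).filter (fun t => t ≡ t0 [MOD h]),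
          (NG a b c α β A B t).card : ℕ) : ℝ) : ℂ) - (ρ : ℂ) *
          ((CST a b c α β h t0 1 0 0 N : ℝ) : ℂ)) =
          (((tot N : ℝ) - ρ * (CST a b c α β h t0 1 0 0 N : ℝ) : ℝ) : ℂ) := by
        simp only [htot, hT]
        push_cast
        ring
      rw [e2, Complex.norm_real, Real.norm_eq_abs, mul_div_assoc', ← sub_div, abs_div,
        Nat.abs_cast]
    have e3 : M.E (fun N : ℕ => |(CST a b c α β h t0 1 0 0 N : ℝ) / N - κ|) = 0 := by
      apply M.null _ b2
      have h1 := (hlim.sub_const κ).abs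
      simpa using h1
    refine le_antisymm ?_ (M.nonneg _ (hbT.sub (Bdd.const _)).abs fun N => abs_nonneg _)
    calc M.E (fun N : ℕ => |(tot N : ℝ) / N - ρ * κ|) ≤
        M.E (fun N : ℕ => |(tot N : ℝ) / N - ρ *
          ((CST a b c α β h t0 1 0 0 N : ℝ) / N)| + |ρ| *
          |(CST a b c α β h t0 1 0 0 N : ℝ) / N - κ|) := by
          refine M.mono (hbT.sub (Bdd.const _)).abs (b1.add (b2.smul _)) fun N => ?_
          have e4 : (tot N : ℝ) / N - ρ * κ = ((tot N : ℝ) / N - ρ *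
              ((CST a b c α β h t0 1 0 0 N : ℝ) / N)) + ρ *
              ((CST a b c α β h t0 1 0 0 N : ℝ) / N - κ) := by ring
          rw [e4]
          refine (abs_add_le _ _).trans (add_le_add le_rfl ?_)
          rw [abs_mul]
      _ = 0 := by
          rw [M.add _ _ b1 (b2.smul _), M.smul _ _ b2, e1, e3, mul_zero, add_zero]
  -- the shares
  have hsh := shareM M (range k ×ˢ range k)
    (fun p N => (CWG a b c α β h t0 A B k p.1 p.2 N : ℝ)) (fun p _ => hbC p.1 p.2)
    (fun p _ p' _ => by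
      have h1 := TopJ90.inv2 M k hk T (NG a b c α β A B) (fun _ d => Omn d)
        (fun t d => Omn ((fv a b c t).natAbs / d)) ⟨C, htotC⟩ (fun z1 z2 h1 h2 h3 => by
          have hn2 : ‖z2‖ = 1 := Complex.norm_eq_one_of_pow_eq_one h2 hk.ne'
          refine Eq.trans ?_ (hZ z1 z2 h1 h2 h3)
          congr 1
          funext N
          rw [TwG_eq ha, norm_mul, norm_pow, hn2, one_pow, one_mul]) p.1 p.2 p'.1 p'.2
      refine Eq.trans ?_ h1
      congr 1
      funext N
      rw [CWG_eq, CWG_eq])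
    (κ := ρ * κ) (by
      refine Eq.trans ?_ hT0
      congr 1
      funext N
      have h1 := NG_sum a b c α β h t0 A B hk N
      have h2 : (∑ p ∈ range k ×ˢ range k, (CWG a b c α β h t0 A B k p.1 p.2 N : ℝ)) =
          (tot N : ℝ) := by
        rw [htot]
        beta_reduce
        rw [← h1]
        push_cast
        rfl
      rw [h2]) (r % k, s % k) (by
      rw [Finset.mem_product, Finset.mem_range, Finset.mem_range]
      exact ⟨Nat.mod_lt _ hk, Nat.mod_lt _ hk⟩)
  have hcard : ((range k ×ˢ range k).card : ℝ) = (k : ℝ) ^ 2 := by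
    rw [Finset.card_product, Finset.card_range]
    push_cast
    ring
  rw [hcard] at hsh
  refine Eq.trans ?_ hsh
  congr 1
  funext N
  have h3 : CWG a b c α β h t0 A B k r s N = CWG a b c α β h t0 A B k (r % k) (s % k) N := by
    rw [CWG_eq, CWG_eq]
    refine Finset.sum_congr rfl fun t _ => ?_
    congr 1
    apply Finset.filter_congr
    intro d _
    unfold Nat.ModEq
    rw [Nat.mod_mod, Nat.mod_mod]
  rw [h3]

/-- (G8) the count -/
theorem stFinG_98 : StFinG := by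
  intro a b c ha _ h _ t0 α β _ _ κ _ hlim A B ρ hT k hk r s M
  obtain ⟨hZ, hB⟩ := hT M
  exact fin_core ha hlim hk r s M (fun z1 z2 h1 h2 h3 => hZ z1 z2 k hk h1 h2 h3) hB

end Pool.Agent.Lib.MP_a17b09_nt.AN
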