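import Pool.Agent.Lib.MP_a17b09_nt.AN.Stmts3
import Pool.Agent.Lib.MP_a17b09_nt.PQ.F4_42

/-!
AN (MP_a17b09_nt), rows A8 and AH8, the common part: sums over finite sets of vectors with the
weight of an event.  helper42.

The windows of the event are those of the value `n = Q v`; they are replaced by the windows of `N`
(few vectors have a prime near one of the ends), then the event by the linear combination of
moment weights of `Dens`.
-/

set_option autoImplicit false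

open Filter Topology Finset

namespace Pool.Agent.Lib.MP_a17b09_nt.AN

namespace Fr42

open PQ.F42 (pow_cmp)

/-! ### The windows -/

/-- two comparable ends give the same condition for a number far from the end -/
theorem end_iff {A A' C p : ℝ} (h1 : A / C ≤ A') (h2 : A' ≤ C * A) (hC : 1 ≤ C) (hA : 0 < A)
    (hp : ¬ (A / C < p ∧ p ≤ C * A)) : A' < p ↔ A < p := by
  have h3 : A / C ≤ A := div_le_self hA.le hC
  have h4 : A ≤ C * A := by nlinarith
  constructor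
  · intro h
    by_contra h5
    exact hp ⟨lt_of_le_of_lt h1 h, by linarith⟩
  · intro h
    by_contra h5
    exact hp ⟨lt_of_le_of_lt h3 h, by linarith⟩

theorem cntN_eq {x y u v : ℝ} {n : ℕ} (hu : ∀ p : ℕ, p.Prime → p ∣ n → (x ^ u < p ↔ y ^ u < p))
    (hv : ∀ p : ℕ, p.Prime → p ∣ n → ((p : ℝ) ≤ x ^ v ↔ (p : ℝ) ≤ y ^ v)) :
    cntN x u v n = cntN y u v n := by
  unfold cntN
  congr 1
  ext p
  simp only [Set.mem_ofPred_eq]
  constructor
  · rintro ⟨a, b, c, d⟩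
    exact ⟨a, b, (hu p a b).1 c, (hv p a b).1 d⟩
  · rintro ⟨a, b, c, d⟩
    exact ⟨a, b, (hu p a b).2 c, (hv p a b).2 d⟩

/-- the event of `n` and the event with the windows of `N` agree if `n` has no prime factor near
one of the ends -/
theorem is_iff {E : Ev} (hE : E.Ok) {r1 r2 N : ℝ} (hr1 : 0 < r1) (hr12 : r1 < r2) (hN : 0 < N)
    (hN2 : r2 ≤ N) {n : ℕ} (hn : 1 ≤ n) (h1 : r1 * N < n) (h2 : (n : ℝ) ≤ r2 * N)
    (hb : ∀ i, ∀ θ : ℝ, (θ = E.u i ∨ θ = E.v i) → θ < 1 → ¬ ∃ p : ℕ, p.Prime ∧ p ∣ n ∧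
      N ^ θ / (1 + r2 + 1 / r1) < p ∧ (p : ℝ) ≤ (1 + r2 + 1 / r1) * N ^ θ) :
    E.Is n ↔ E.At N n := by
  have hr2 : 0 < r2 := hr1.trans hr12
  have hi : 0 < 1 / r1 := by positivity
  have hC : 1 ≤ 1 + r2 + 1 / r1 := by linarith
  unfold Ev.Is Ev.At
  refine forall_congr' fun i => ?_
  obtain ⟨hu0, hu1, hv⟩ := hE i
  have hend : ∀ θ : ℝ, (θ = E.u i ∨ θ = E.v i) → 0 < θ → θ < 1 → ∀ p : ℕ, p.Prime → p ∣ n →
      ((n : ℝ) ^ θ < p ↔ N ^ θ < p) := by
    intro θ hθ h0 hθ1 p hp hpn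
    obtain ⟨a1, a2⟩ := pow_cmp hr1 hr12 hN h1 h2 h0 hθ1.le
    exact end_iff a1 a2 hC (Real.rpow_pos_of_pos hN _)
      fun h => hb i θ hθ hθ1 ⟨p, hp, hpn, h.1, h.2⟩
  rw [cntN_eq (hend (E.u i) (Or.inl rfl) hu0 hu1)]
  intro p hp hpn
  rcases hv with ⟨hv0, hv1⟩ | hv2
  · rw [← not_lt, ← not_lt, not_iff_not]
    exact hend (E.v i) (Or.inr rfl) hv0 hv1 p hp hpn
  · rw [hv2]
    have hpn' : (p : ℝ) ≤ n := by exact_mod_cast Nat.le_of_dvd hn hpn
    have hn1 : (1 : ℝ) ≤ n := by exact_mod_cast hn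
    rw [Real.rpow_two, Real.rpow_two]
    exact ⟨fun _ => by nlinarith, fun _ => by nlinarith⟩

/-! ### Sums over vectors -/

/-- the sets `S N` of vectors of a shell, `nn` the value of the form -/
structure Dta {ι : Type} (S : ℝ → Finset ι) (nn : ι → ℕ) (r1 r2 T : ℝ) : Prop where
  h1 : 0 < r1
  h12 : r1 < r2
  rng : ∀ N : ℝ, ∀ s ∈ S N, r1 * N < nn s ∧ (nn s : ℝ) ≤ r2 * N ∧ 1 ≤ nn s
  card : ∀ N : ℝ, 0 < N → ((S N).card : ℝ) ≤ T * N
  null : ∀ θ : ℝ, 0 < θ → θ < 1 → ∀ ε : ℝ, 0 < ε → ∀ᶠ N : ℝ in atTop, ∀ B : Finset ι,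
    (∀ s ∈ B, s ∈ S N ∧ ∃ p : ℕ, p.Prime ∧ p ∣ nn s ∧ N ^ θ / (1 + r2 + 1 / r1) < p ∧
      (p : ℝ) ≤ (1 + r2 + 1 / r1) * N ^ θ) → (B.card : ℝ) ≤ ε * N
  mean : ∀ X : List (ℝ × ℝ), GoodL X → Tendsto (fun N : ℝ => (1 / N) *
    ∑ s ∈ S N, ((tW X N (nn s) : ℝ) - lam X)) atTop (𝓝 0)

variable {ι : Type} {S : ℝ → Finset ι} {nn : ι → ℕ} {r1 r2 T : ℝ}

theorem few (h : Dta S nn r1 r2 T) {E : Ev} (hE : E.Ok) (ε : ℝ) (hε : 0 < ε) :
    ∀ᶠ N : ℝ in atTop, ∀ B : Finset ι, (∀ s ∈ B, s ∈ S N ∧ ¬ (E.Is (nn s) ↔ E.At N (nn s))) →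
    (B.card : ℝ) ≤ ε * N := by
  classical
  set m : ℝ := (E.m : ℝ) with hm
  have hm0 : 0 ≤ m := Nat.cast_nonneg _
  set w : Fin E.m → ℝ := fun i => if E.v i < 1 then E.v i else E.u i with hw
  have hw01 : ∀ i, 0 < w i ∧ w i < 1 := by
    intro i
    obtain ⟨hu0, hu1, hv⟩ := hE i
    simp only [hw]
    split_ifs with h3
    · rcases hv with hv | hv
      · exact hv
      · rw [hv] at h3
        norm_num at h3
    · exact ⟨hu0, hu1⟩
  have e1 : ∀ᶠ N : ℝ in atTop, ∀ i : Fin E.m, ∀ B : Finset ι, (∀ s ∈ B, s ∈ S N ∧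
      ∃ p : ℕ, p.Prime ∧ p ∣ nn s ∧ N ^ E.u i / (1 + r2 + 1 / r1) < p ∧
      (p : ℝ) ≤ (1 + r2 + 1 / r1) * N ^ E.u i) → (B.card : ℝ) ≤ ε / (2 * (m + 1)) * N :=
    Filter.eventually_all.2 fun i =>
      h.null (E.u i) (hE i).1 (hE i).2.1 _ (by positivity)
  have e2 : ∀ᶠ N : ℝ in atTop, ∀ i : Fin E.m, ∀ B : Finset ι, (∀ s ∈ B, s ∈ S N ∧
      ∃ p : ℕ, p.Prime ∧ p ∣ nn s ∧ N ^ w i / (1 + r2 + 1 / r1) < p ∧
      (p : ℝ) ≤ (1 + r2 + 1 / r1) * N ^ w i) → (B.card : ℝ) ≤ ε / (2 * (m + 1)) * N :=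
    Filter.eventually_all.2 fun i =>
      h.null (w i) (hw01 i).1 (hw01 i).2 _ (by positivity)
  filter_upwards [e1, e2, eventually_gt_atTop 0, eventually_ge_atTop r2] with N k1 k2 hN hN2 B hB
  set P : ℝ → ι → Prop := fun θ s => ∃ p : ℕ, p.Prime ∧ p ∣ nn s ∧
    N ^ θ / (1 + r2 + 1 / r1) < p ∧ (p : ℝ) ≤ (1 + r2 + 1 / r1) * N ^ θ with hP
  have hsub : B ⊆ (Finset.univ : Finset (Fin E.m)).biUnion
      fun i => B.filter (P (E.u i)) ∪ B.filter (P (w i)) := by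
    intro s hs
    obtain ⟨hsS, hsw⟩ := hB s hs
    obtain ⟨q1, q2, q3⟩ := h.rng N s hsS
    rw [Finset.mem_biUnion]
    by_contra hc
    push Not at hc
    refine hsw (is_iff hE h.h1 h.h12 hN hN2 q3 q1 q2 fun i θ hθ hθ1 hp => ?_)
    have h3 := hc i (Finset.mem_univ i)
    rw [Finset.mem_union, Finset.mem_filter, Finset.mem_filter] at h3
    rcases hθ with h4 | h4
    · rw [h4] at hp
      exact h3 (Or.inl ⟨hs, hp⟩)
    · rw [h4] at hp hθ1
      have h5 : w i = E.v i := by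
        simp only [hw]
        rw [if_pos hθ1]
      rw [← h5] at hp
      exact h3 (Or.inr ⟨hs, hp⟩)
  have h1 : (B.card : ℝ) ≤ ∑ i : Fin E.m,
      (((B.filter (P (E.u i))).card : ℝ) + (B.filter (P (w i))).card) := by
    have h2 := (Finset.card_le_card hsub).trans Finset.card_biUnion_le
    have h3 : ∑ i : Fin E.m, (B.filter (P (E.u i)) ∪ B.filter (P (w i))).card ≤
        ∑ i : Fin E.m, ((B.filter (P (E.u i))).card + (B.filter (P (w i))).card) :=
      Finset.sum_le_sum fun i _ => Finset.card_union_le _ _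
    exact_mod_cast h2.trans h3
  have h2 : ∑ i : Fin E.m, (((B.filter (P (E.u i))).card : ℝ) + (B.filter (P (w i))).card) ≤
      ∑ _i : Fin E.m, (ε / (2 * (m + 1)) * N + ε / (2 * (m + 1)) * N) := by
    refine Finset.sum_le_sum fun i _ => add_le_add ?_ ?_
    · refine k1 i _ fun v hv => ?_
      rw [Finset.mem_filter] at hv
      exact ⟨(hB v hv.1).1, hv.2⟩
    · refine k2 i _ fun v hv => ?_
      rw [Finset.mem_filter] at hv
      exact ⟨(hB v hv.1).1, hv.2⟩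
  rw [Finset.sum_const, nsmul_eq_mul, Finset.card_univ, Fintype.card_fin, ← hm] at h2
  refine (h1.trans h2).trans ?_
  have h3 : m * (ε / (2 * (m + 1)) * N + ε / (2 * (m + 1)) * N) = m / (m + 1) * (ε * N) := by
    field_simp
    ring
  rw [h3]
  have h4 : m / (m + 1) ≤ 1 := by
    rw [div_le_one (by positivity)]
    linarith
  have h5 : 0 ≤ ε * N := by positivity
  nlinarith

/-- linear combinations of moment weights -/
theorem comb (cc : ι → ℂ) (g : ℂ)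
    (hF : ∀ X : List (ℝ × ℝ), GoodL X → Tendsto (fun N : ℝ => (1 / (N : ℂ)) *
      ∑ s ∈ S N, ((tW X N (nn s) : ℂ) - g * (lam X : ℂ)) * cc s) atTop (𝓝 0)) :
    ∀ F : Cmb, F.Good → Tendsto (fun N : ℝ => (1 / (N : ℂ)) *
      ∑ s ∈ S N, ((F.val N (nn s) : ℂ) - g * (F.lam : ℂ)) * cc s) atTop (𝓝 0) := by
  intro F
  induction F with
  | nil =>
    intro _
    have h1 : ∀ (N : ℝ) (s : ι), ((Cmb.val [] N (nn s) : ℂ) - g * (Cmb.lam [] : ℂ)) * cc s = 0 := by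
      intro N s
      simp [Cmb.val, Cmb.lam]
    simp only [h1, Finset.sum_const_zero, mul_zero]
    exact tendsto_const_nhds
  | cons t F ih =>
    intro hG
    have hG1 : GoodL t.2 := hG t (List.mem_cons_self)
    have hG2 : Cmb.Good F := fun t' ht' => hG t' (List.mem_cons_of_mem _ ht')
    have h1 := ((hF t.2 hG1).const_mul (t.1 : ℂ)).add (ih hG2)
    rw [mul_zero, add_zero] at h1
    refine h1.congr fun N => ?_
    rw [mul_left_comm, ← mul_add, Finset.mul_sum, ← Finset.sum_add_distrib]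
    congr 1
    refine Finset.sum_congr rfl fun s _ => ?_
    have h2 : (Cmb.val (t :: F) N (nn s) : ℂ) =
        (t.1 : ℂ) * (tW t.2 N (nn s) : ℂ) + (Cmb.val F N (nn s) : ℂ) := by
      simp [Cmb.val]
    have h3 : (Cmb.lam (t :: F) : ℂ) = (t.1 : ℂ) * (lam t.2 : ℂ) + (Cmb.lam F : ℂ) := by
      simp [Cmb.lam]
    rw [h2, h3]
    ring

/-- **the sums with the weight of an event** -/
theorem core (h : Dta S nn r1 r2 T) {E : Ev} {δ : ℝ} (hE : E.Ok) (hD : Dens E δ)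
    (cc : ι → ℂ) (hcc : ∀ N, ∀ s ∈ S N, ‖cc s‖ ≤ 1) (g : ℂ) (hg : ‖g‖ ≤ 1)
    (hF : ∀ X : List (ℝ × ℝ), GoodL X → Tendsto (fun N : ℝ => (1 / (N : ℂ)) *
      ∑ s ∈ S N, ((tW X N (nn s) : ℂ) - g * (lam X : ℂ)) * cc s) atTop (𝓝 0)) :
    Tendsto (fun N : ℝ => (1 / (N : ℂ)) *
      ∑ s ∈ S N, (ind E.Is (nn s) - g * (δ : ℂ)) * cc s) atTop (𝓝 0) := by
  classical
  rw [Metric.tendsto_nhds]
  intro ε hε
  set T' : ℝ := |T| with hT'
  have hT0 : 0 ≤ T' := abs_nonneg _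
  set e : ℝ := ε / (2 * (3 + 2 * T')) with he
  have he0 : 0 < e := by positivity
  obtain ⟨F, B, hFG, hBG, hBl, hFl, hx⟩ := hD.2.2.2 e he0
  obtain ⟨x0, hx0⟩ := hx (1 + r2) (by linarith [h.h1, h.h12])
  -- the moment weights
  have e1 : ∀ᶠ N : ℝ in atTop, ‖(1 / (N : ℂ)) *
      ∑ s ∈ S N, ((F.val N (nn s) : ℂ) - g * (F.lam : ℂ)) * cc s‖ < e := by
    have h1 := comb cc g hF F hFG
    rw [Metric.tendsto_nhds] at h1
    filter_upwards [h1 e he0] with N hN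
    rwa [dist_zero_right] at hN
  have hF1 : ∀ X : List (ℝ × ℝ), GoodL X → Tendsto (fun N : ℝ => (1 / (N : ℂ)) *
      ∑ s ∈ S N, ((tW X N (nn s) : ℂ) - 1 * (lam X : ℂ)) * (fun _ : ι => (1 : ℂ)) s)
      atTop (𝓝 0) := by
    intro X hX
    have h1 := (Complex.continuous_ofReal.tendsto 0).comp (h.mean X hX)
    rw [Complex.ofReal_zero] at h1
    refine h1.congr fun N => ?_
    simp only [Function.comp_apply]
    push_cast
    simp only [one_mul, mul_one]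
  have e2 : ∀ᶠ N : ℝ in atTop, (1 / N) * ∑ s ∈ S N, (B.val N (nn s) - B.lam) < e := by
    have h1 := comb (S := S) (nn := nn) (fun _ => 1) 1 hF1 B hBG
    rw [Metric.tendsto_nhds] at h1
    filter_upwards [h1 e he0] with N hN
    rw [dist_zero_right] at hN
    have h2 : (1 / (N : ℂ)) * ∑ s ∈ S N, ((B.val N (nn s) : ℂ) - 1 * (B.lam : ℂ)) * 1 =
        (((1 / N) * ∑ s ∈ S N, (B.val N (nn s) - B.lam) : ℝ) : ℂ) := by
      push_cast
      simp only [one_mul, mul_one]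
    rw [h2, Complex.norm_real, Real.norm_eq_abs] at hN
    exact (le_abs_self _).trans_lt hN
  filter_upwards [e1, e2, few h hE e he0, eventually_gt_atTop 0, eventually_ge_atTop x0]
    with N k1 k2 k3 hN hNx
  rw [dist_zero_right]
  have hN' : 0 ≤ 1 / N := by positivity
  have hc1 : ‖(1 / (N : ℂ))‖ = 1 / N := by
    rw [norm_div, norm_one, Complex.norm_real, Real.norm_of_nonneg hN.le]
  have hcard : (1 / N) * ((S N).card : ℝ) ≤ T' := by
    rw [one_div_mul_eq_div, div_le_iff₀ hN]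
    exact (h.card N hN).trans (mul_le_mul_of_nonneg_right (le_abs_self T) hN.le)
  have hcard0 : 0 ≤ (1 / N) * ((S N).card : ℝ) := by positivity
  -- the four parts
  have hsplit : (1 / (N : ℂ)) * ∑ s ∈ S N, (ind E.Is (nn s) - g * (δ : ℂ)) * cc s =
      (1 / (N : ℂ)) * ∑ s ∈ S N, (ind E.Is (nn s) - ind (E.At N) (nn s)) * cc s +
      (1 / (N : ℂ)) * ∑ s ∈ S N, (ind (E.At N) (nn s) - (F.val N (nn s) : ℂ)) * cc s +
      (1 / (N : ℂ)) * ∑ s ∈ S N, ((F.val N (nn s) : ℂ) - g * (F.lam : ℂ)) * cc s +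
      (1 / (N : ℂ)) * ∑ s ∈ S N, (g * ((F.lam - δ : ℝ) : ℂ)) * cc s := by
    rw [← mul_add, ← mul_add, ← mul_add, ← sum_add_distrib, ← sum_add_distrib,
      ← sum_add_distrib]
    congr 1
    refine sum_congr rfl fun s _ => ?_
    push_cast
    ring
  have p1 : ‖(1 / (N : ℂ)) * ∑ s ∈ S N, (ind E.Is (nn s) - ind (E.At N) (nn s)) * cc s‖ ≤ e := by
    rw [norm_mul, hc1]
    have h4 : ∀ s ∈ S N, ‖(ind E.Is (nn s) - ind (E.At N) (nn s)) * cc s‖ ≤
        if ¬ (E.Is (nn s) ↔ E.At N (nn s)) then 1 else 0 := by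
      intro s hs
      by_cases h5 : E.Is (nn s) ↔ E.At N (nn s)
      · have h6 : ind E.Is (nn s) = ind (E.At N) (nn s) := by
          unfold ind
          rw [if_congr h5 rfl rfl]
        rw [h6, sub_self, zero_mul, norm_zero, if_neg (not_not.2 h5)]
      · rw [if_pos h5, norm_mul]
        have h6 : ‖ind E.Is (nn s) - ind (E.At N) (nn s)‖ ≤ 1 := by
          unfold ind
          split_ifs <;> simp
        calc _ ≤ (1 : ℝ) * 1 := mul_le_mul h6 (hcc N s hs) (norm_nonneg _) (by norm_num)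
          _ = 1 := one_mul _
    have h6 := (norm_sum_le (S N) (fun s => (ind E.Is (nn s) - ind (E.At N) (nn s)) * cc s)).trans
      (sum_le_sum h4)
    rw [← sum_filter, sum_const, nsmul_eq_mul, mul_one] at h6
    have h7 := k3 ((S N).filter (fun s => ¬ (E.Is (nn s) ↔ E.At N (nn s)))) fun s hs => by
      rw [mem_filter] at hs
      exact hs
    calc 1 / N * _ ≤ 1 / N * (e * N) := mul_le_mul_of_nonneg_left (h6.trans h7) hN'
      _ = e := by field_simp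
  have p2 : ‖(1 / (N : ℂ)) * ∑ s ∈ S N, (ind (E.At N) (nn s) - (F.val N (nn s) : ℂ)) * cc s‖ ≤
      e + e * T' := by
    rw [norm_mul, hc1]
    have h4 : ∀ s ∈ S N, ‖(ind (E.At N) (nn s) - (F.val N (nn s) : ℂ)) * cc s‖ ≤
        (B.val N (nn s) - B.lam) + B.lam := by
      intro s hs
      obtain ⟨q1, q2, q3⟩ := h.rng N s hs
      rw [norm_mul, sub_add_cancel]
      have h5 := hx0 N hNx (nn s) q3 (by nlinarith)
      have h6 : ‖ind (E.At N) (nn s) - (F.val N (nn s) : ℂ)‖ =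
          |(if E.At N (nn s) then (1 : ℝ) else 0) - F.val N (nn s)| := by
        rw [← Real.norm_eq_abs, ← Complex.norm_real]
        congr 1
        unfold ind
        split_ifs <;> push_cast <;> rfl
      rw [← h6] at h5
      have h7 := hcc N s hs
      nlinarith [norm_nonneg (ind (E.At N) (nn s) - (F.val N (nn s) : ℂ)), norm_nonneg (cc s)]
    have h6 := (norm_sum_le (S N) (fun s => (ind (E.At N) (nn s) - (F.val N (nn s) : ℂ)) *
      cc s)).trans (sum_le_sum h4)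
    rw [sum_add_distrib, sum_const, nsmul_eq_mul] at h6
    have h8 := mul_le_mul_of_nonneg_left h6 hN'
    rw [mul_add] at h8
    have h9 : (1 / N) * (((S N).card : ℝ) * B.lam) ≤ e * T' := by
      calc (1 / N) * (((S N).card : ℝ) * B.lam) = ((1 / N) * ((S N).card : ℝ)) * B.lam := by ring
        _ ≤ ((1 / N) * ((S N).card : ℝ)) * e := mul_le_mul_of_nonneg_left hBl hcard0
        _ ≤ T' * e := mul_le_mul_of_nonneg_right hcard he0.le
        _ = e * T' := mul_comm _ _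
    linarith
  have p4 : ‖(1 / (N : ℂ)) * ∑ s ∈ S N, (g * ((F.lam - δ : ℝ) : ℂ)) * cc s‖ ≤ e * T' := by
    rw [norm_mul, hc1]
    have h4 : ∀ s ∈ S N, ‖(g * ((F.lam - δ : ℝ) : ℂ)) * cc s‖ ≤ e := by
      intro s hs
      rw [norm_mul, norm_mul, Complex.norm_real, Real.norm_eq_abs]
      have h5 : ‖g‖ * |F.lam - δ| ≤ 1 * e :=
        mul_le_mul hg hFl (abs_nonneg _) zero_le_one
      calc ‖g‖ * |F.lam - δ| * ‖cc s‖ ≤ 1 * e * 1 :=
            mul_le_mul h5 (hcc N s hs) (norm_nonneg _) (by linarith)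
        _ = e := by ring
    have h6 := (norm_sum_le (S N) (fun s => (g * ((F.lam - δ : ℝ) : ℂ)) * cc s)).trans
      (sum_le_sum h4)
    rw [sum_const, nsmul_eq_mul] at h6
    calc 1 / N * _ ≤ 1 / N * (((S N).card : ℝ) * e) := mul_le_mul_of_nonneg_left h6 hN'
      _ = ((1 / N) * ((S N).card : ℝ)) * e := by ring
      _ ≤ T' * e := mul_le_mul_of_nonneg_right hcard he0.le
      _ = e * T' := mul_comm _ _
  rw [hsplit]
  have htri := norm_add₃_le (a := (1 / (N : ℂ)) * ∑ s ∈ S N, (ind E.Is (nn s) -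
      ind (E.At N) (nn s)) * cc s + (1 / (N : ℂ)) * ∑ s ∈ S N, (ind (E.At N) (nn s) -
      (F.val N (nn s) : ℂ)) * cc s)
    (b := (1 / (N : ℂ)) * ∑ s ∈ S N, ((F.val N (nn s) : ℂ) - g * (F.lam : ℂ)) * cc s)
    (c := (1 / (N : ℂ)) * ∑ s ∈ S N, (g * ((F.lam - δ : ℝ) : ℂ)) * cc s)
  have htri2 := norm_add_le ((1 / (N : ℂ)) * ∑ s ∈ S N, (ind E.Is (nn s) -
      ind (E.At N) (nn s)) * cc s) ((1 / (N : ℂ)) * ∑ s ∈ S N, (ind (E.At N) (nn s) -
      (F.val N (nn s) : ℂ)) * cc s)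
  have hfin : e + (e + e * T') + e + e * T' = ε / 2 := by
    rw [he]
    field_simp
    ring
  linarith

end Fr42

end Pool.Agent.Lib.MP_a17b09_nt.AN
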