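import Pool.Agent.Lib.MP_a17b09_nt.PQ.F1_7
import Pool.Agent.Lib.MP_a17b09_nt.PQ.Win22
import Pool.Agent.Lib.MP_a17b09_nt.MRSG.SplG7

/-!
AN (MP_a17b09_nt): the sum of `2/p` over the split primes of a window of exponents, for every nonsquare
integer `D`.  helper12.
-/

set_option autoImplicit false

open Filter Topology Finset

namespace Pool.Agent.Lib.MP_a17b09_nt.AN.Mert12

open MRSG MRSG.NugA12 PQ

/-- the primes of a window in a residue class -/
noncomputable def Wc (q a : ℕ) (α β N : ℝ) : Finset ℕ :=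
  (Finset.range (⌊N ^ β⌋₊ + 1)).filter (fun p : ℕ => p.Prime ∧ p ≡ a [MOD q] ∧ N ^ α < p)

/-- the sum over a window, one class -/
theorem win_class (q : ℕ) (hq : 0 < q) (a : ℕ) (hcop : Nat.Coprime a q) {α β : ℝ} (hα0 : 0 < α)
    (hαβ' : α < β) : Tendsto (fun N : ℝ => ∑ p ∈ Wc q a α β N, 1 / (p : ℝ)) atTop
    (𝓝 (1 / (Nat.totient q : ℝ) * Real.log (β / α))) := by
  have hαβ : α ≤ β := hαβ'.le
  have h1 := Win22.win q hq a hcop hα0 hαβ
  have h2 : Tendsto (fun N : ℝ => 1 / N ^ α) atTop (𝓝 0) := by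
    have := (tendsto_rpow_atTop hα0).inv_tendsto_atTop
    refine this.congr fun N => ?_
    simp
  have h3 := h1.add h2
  have h4 := h1.sub h2
  rw [add_zero] at h3
  rw [sub_zero] at h4
  refine tendsto_of_tendsto_of_tendsto_of_le_of_le' h4 h3 ?_ ?_
  · filter_upwards [eventually_ge_atTop 1] with N hN
    have hNα : 1 ≤ N ^ α := Real.one_le_rpow hN hα0.le
    have := F7.sum_le_aux (A := Wc q a α β N) (B := PA7 q a (N ^ α) (N ^ β))
      (x := N ^ α) (e := 1 / N ^ α) (by positivity) (by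
        intro p hp hpn
        rw [mem_PA7] at hp
        obtain ⟨e1, e2, e3, e4⟩ := hp
        have e5 : ¬ N ^ α < p := by
          intro h
          apply hpn
          rw [Wc, Finset.mem_filter, Finset.mem_range]
          exact ⟨Nat.lt_succ_of_le (Nat.le_floor e4.le), e1, e2, h⟩
        have e6 : (p : ℝ) = N ^ α := le_antisymm (not_lt.1 e5) e3
        exact ⟨e6, by rw [e6]⟩)
    linarith
  · filter_upwards [eventually_ge_atTop 1] with N hN
    have hNα : 1 ≤ N ^ α := Real.one_le_rpow hN hα0.le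
    have hNβ : N ^ α ≤ N ^ β := Real.rpow_le_rpow_of_exponent_le hN hαβ
    apply F7.sum_le_aux (A := PA7 q a (N ^ α) (N ^ β)) (x := N ^ β) (e := 1 / N ^ α) (by positivity)
    intro p hp hpn
    rw [Wc, Finset.mem_filter, Finset.mem_range] at hp
    obtain ⟨e0, e1, e2, e3⟩ := hp
    have e4 : (p : ℝ) ≤ N ^ β := by
      have h5 : p ≤ ⌊N ^ β⌋₊ := Nat.lt_succ_iff.1 e0
      exact (Nat.le_floor_iff (by linarith)).1 h5
    have e5 : ¬ (p : ℝ) < N ^ β := by
      intro h
      apply hpn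
      rw [mem_PA7]
      exact ⟨e1, e2, e3.le, h⟩
    have e6 : (p : ℝ) = N ^ β := le_antisymm e4 (not_lt.1 e5)
    refine ⟨e6, ?_⟩
    rw [e6]
    exact one_div_le_one_div_of_le (by linarith) hNβ

/-- all primes of a window -/
theorem win_all {α β : ℝ} (hα0 : 0 < α) (hαβ : α < β) :
    Tendsto (fun N : ℝ => ∑ p ∈ (Finset.range (⌊N ^ β⌋₊ + 1)).filter
      (fun p : ℕ => p.Prime ∧ N ^ α < p), 1 / (p : ℝ)) atTop (𝓝 (Real.log (β / α))) := by
  have h := win_class 1 one_pos 0 (Nat.coprime_one_right 0) hα0 hαβ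
  rw [Nat.totient_one, Nat.cast_one, div_one, one_mul] at h
  refine h.congr fun N => ?_
  refine Finset.sum_congr ?_ fun _ _ => rfl
  unfold Wc
  refine Finset.filter_congr fun p _ => ?_
  simp [Nat.modEq_one]

open Classical in
/-- **the split primes of a window**: the sum of `2/p` over the primes `p` with `(D/p) = 1` and
`N ^ α < p ≤ N ^ β` tends to `log (β / α)` -/
theorem win_split (D : ℤ) (hD : ¬ IsSquare D) (m : ℕ) (hm0 : m ≠ 0)
    (hDm : ∀ p : ℕ, p.Prime → p ∣ 2 * D.natAbs → p ∣ m) (Sp : ℕ → Prop)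
    (hS1 : ∀ p : ℕ, p.Prime → ¬ p ∣ m → (Sp p ↔ jacobiSym D p = 1)) {α β : ℝ} (hα0 : 0 < α)
    (hαβ : α < β) :
    Tendsto (fun N : ℝ => ∑ p ∈ (Finset.range (⌊N ^ β⌋₊ + 1)).filter
      (fun p : ℕ => p.Prime ∧ Sp p ∧ N ^ α < p), 2 / (p : ℝ)) atTop (𝓝 (Real.log (β / α))) := by
  have hD0 : D ≠ 0 := by
    rintro rfl
    exact hD ⟨0, by ring⟩
  have : NeZero D := ⟨hD0⟩
  set q : ℕ := 4 * D.natAbs with hqdef
  have hq : 0 < q := by
    have := Int.natAbs_ne_zero.2 hD0
    omega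
  have : NeZero q := ⟨hq.ne'⟩
  set X : ZMod q → ℝ := fun c => (kro D c).re with hX
  set L : ℝ := Real.log (β / α) with hL
  -- the classes
  have hcl : ∀ c : ZMod q, Tendsto (fun N : ℝ => X c * ∑ p ∈ Wc q c.val α β N, 1 / (p : ℝ)) atTop
      (𝓝 (X c * (1 / (Nat.totient q : ℝ) * L))) := by
    intro c
    by_cases hc : IsUnit c
    · have hcop : Nat.Coprime c.val q := by
        rw [← ZMod.isUnit_iff_coprime, ZMod.natCast_zmod_val]
        exact hc
      exact (win_class q hq c.val hcop hα0 hαβ).const_mul _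
    · have hc0 : X c = 0 := by
        rw [hX]
        simp only
        rw [MulChar.map_nonunit _ hc, Complex.zero_re]
      rw [hc0]
      simp only [zero_mul]
      exact tendsto_const_nhds
  have hsum := tendsto_finsetSum Finset.univ fun c _ => hcl c
  have hX0 : ∑ c : ZMod q, X c = 0 := by
    have h1 : ∑ c : ZMod q, kro D c = 0 := MulChar.sum_eq_zero_of_ne_one (kro_ne_7 D hD)
    have h2 := congrArg Complex.re h1
    rw [Complex.re_sum, Complex.zero_re] at h2
    exact h2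
  rw [← Finset.sum_mul, hX0, zero_mul] at hsum
  have htot := (win_all hα0 hαβ).add hsum
  rw [add_zero] at htot
  refine htot.congr' ?_
  filter_upwards [(tendsto_rpow_atTop hα0).eventually_ge_atTop (m : ℝ)] with N hN
  have hW : ∀ c : ZMod q, Wc q c.val α β N = ((Finset.range (⌊N ^ β⌋₊ + 1)).filter
      (fun p : ℕ => p.Prime ∧ N ^ α < p)).filter (fun p : ℕ => ((p : ℕ) : ZMod q) = c) := by
    intro c
    unfold Wc
    rw [Finset.filter_filter]
    refine Finset.filter_congr fun p _ => ?_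
    have h1 : (p ≡ c.val [MOD q]) ↔ ((p : ℕ) : ZMod q) = c := by
      rw [← ZMod.natCast_eq_natCast_iff, ZMod.natCast_zmod_val]
    rw [h1]
    tauto
  have h1 : ∑ c : ZMod q, X c * ∑ p ∈ Wc q c.val α β N, 1 / (p : ℝ) =
      ∑ p ∈ (Finset.range (⌊N ^ β⌋₊ + 1)).filter (fun p : ℕ => p.Prime ∧ N ^ α < p),
        X ((p : ℕ) : ZMod q) * (1 / (p : ℝ)) := by
    rw [← Finset.sum_fiberwise ((Finset.range (⌊N ^ β⌋₊ + 1)).filter
      (fun p : ℕ => p.Prime ∧ N ^ α < p)) (fun p : ℕ => ((p : ℕ) : ZMod q))]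
    refine Finset.sum_congr rfl fun c _ => ?_
    rw [hW c, Finset.mul_sum]
    refine Finset.sum_congr rfl fun p hp => ?_
    rw [(Finset.mem_filter.1 hp).2]
  rw [h1, ← Finset.sum_add_distrib]
  have h2 : (Finset.range (⌊N ^ β⌋₊ + 1)).filter (fun p : ℕ => p.Prime ∧ Sp p ∧ N ^ α < p) =
      ((Finset.range (⌊N ^ β⌋₊ + 1)).filter (fun p : ℕ => p.Prime ∧ N ^ α < p)).filter Sp := by
    rw [Finset.filter_filter]
    refine Finset.filter_congr fun p _ => ?_
    tauto
  rw [h2]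
  conv_rhs => rw [Finset.sum_filter]
  refine Finset.sum_congr rfl fun p hp => ?_
  rw [Finset.mem_filter] at hp
  obtain ⟨-, hpp, hpN⟩ := hp
  have hpm : ¬ p ∣ m := by
    intro h
    have h3 := Nat.le_of_dvd (Nat.pos_of_ne_zero hm0) h
    have h4 : (p : ℝ) ≤ m := by exact_mod_cast h3
    linarith
  have hcop : Nat.Coprime p (4 * D.natAbs) := by
    rw [Nat.Prime.coprime_iff_not_dvd hpp]
    intro h8
    apply hpm
    apply hDm p hpp
    have h9 : p ∣ 2 * (2 * D.natAbs) := by rwa [show 2 * (2 * D.natAbs) = 4 * D.natAbs by ring]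
    rcases (Nat.Prime.dvd_mul hpp).1 h9 with h10 | h10
    · exact Dvd.dvd.mul_right h10 _
    · exact h10
  have h8 : X ((p : ℕ) : ZMod q) = ((jacobiSym D p : ℤ) : ℝ) := by
    rw [hX]
    simp only
    rw [kro_nat _ p hcop, Complex.intCast_re]
  have h9 : jacobiSym D p = 1 ∨ jacobiSym D p = -1 := by
    apply jacobiSym.eq_one_or_neg_one
    rw [Int.gcd_comm]
    exact Nat.Coprime.coprime_mul_left_right hcop
  rcases h9 with h9 | h9
  · rw [if_pos ((hS1 p hpp hpm).2 h9), h8, h9]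
    push_cast
    ring
  · have h10 : ¬ Sp p := by
      intro h11
      rw [hS1 p hpp hpm, h9] at h11
      norm_num at h11
    rw [if_neg h10, h8, h9]
    push_cast
    ring

end Pool.Agent.Lib.MP_a17b09_nt.AN.Mert12
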