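import Pool.Agent.Lib.MP_a17b09_nt.AN.PtS3

/-!
Project AN, row A6b (helper3): the bad integers, the choice of the grid, `StCell → StPt`.
-/

set_option autoImplicit false

open Filter Topology Finset

namespace Pool.Agent.Lib.MP_a17b09_nt.AN

namespace PtB3

theorem mem_PW {x : ℝ} (hx : 0 ≤ x) {I : ℝ × ℝ} {p : ℕ} : p ∈ PW x I ↔
    p.Prime ∧ x ^ I.1 < p ∧ (p : ℝ) ≤ x ^ I.2 := by
  unfold PW
  rw [Finset.mem_filter, Finset.mem_range, Nat.lt_succ_iff, Nat.le_floor_iff (Real.rpow_nonneg hx _)]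
  tauto

/-- the number of primes of a set dividing `n` -/
def nd (W : Finset ℕ) (n : ℕ) : ℕ := (W.filter (fun p => p ∣ n)).card

theorem tup_one (W : Finset ℕ) (n : ℕ) : tup [W] n = nd W n := by
  simp [tup, nd]

theorem tup_two {W : Finset ℕ} (hW : ∀ p ∈ W, p.Prime) {n : ℕ} :
    nd W n * (nd W n - 1) ≤ tup [W, W] n := by
  have h1 : tup [W, W] n = ∑ p ∈ W.filter (fun p => p ∣ n), nd W (n / p) := by
    show ∑ p ∈ W.filter (fun p => p ∣ n), tup [W] (n / p) = _
    exact Finset.sum_congr rfl fun p _ => tup_one W _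
  rw [h1]
  have h2 : ∀ p ∈ W.filter (fun p => p ∣ n), nd W n - 1 ≤ nd W (n / p) := by
    intro p hp
    rw [Finset.mem_filter] at hp
    unfold nd
    rw [← Finset.card_erase_of_mem (Finset.mem_filter.2 hp)]
    refine Finset.card_le_card fun q hq => ?_
    rw [Finset.mem_erase, Finset.mem_filter] at hq
    obtain ⟨hqp, hqW, hqn⟩ := hq
    rw [Finset.mem_filter]
    refine ⟨hqW, ?_⟩
    have hc : Nat.Coprime q p := (Nat.coprime_primes (hW q hqW) (hW p hp.1)).2 hqp
    have h3 : p * (n / p) = n := Nat.mul_div_cancel' hp.2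
    rw [← h3] at hqn
    exact hc.dvd_of_dvd_mul_left hqn
  calc nd W n * (nd W n - 1) = ∑ p ∈ W.filter (fun p => p ∣ n), (nd W n - 1) := by
        rw [Finset.sum_const, smul_eq_mul]; rfl
    _ ≤ _ := Finset.sum_le_sum h2

/-- the square is dominated by the moments -/
theorem cheb {W : Finset ℕ} (hW : ∀ p ∈ W, p.Prime) (n : ℕ) (l : ℝ) :
    ((nd W n : ℝ) - l) ^ 2 ≤ (tup [W, W] n : ℝ) + (1 - 2 * l) * (tup [W] n : ℝ) + l ^ 2 := by
  have h1 := tup_two hW (n := n)
  rw [tup_one]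
  have h2 : (nd W n : ℝ) * ((nd W n : ℝ) - 1) ≤ (tup [W, W] n : ℝ) := by
    rcases Nat.eq_zero_or_pos (nd W n) with h | h
    · rw [h]
      simp
    · have h3 : ((nd W n - 1 : ℕ) : ℝ) = (nd W n : ℝ) - 1 := by
        push_cast [Nat.cast_sub h]; ring
      rw [← h3]
      exact_mod_cast h1
  nlinarith

/-- a finite set of distinct primes dividing `n` -/
theorem prod_dvd {s : Finset ℕ} {n : ℕ} (hs : ∀ p ∈ s, p.Prime ∧ p ∣ n) : ∏ p ∈ s, p ∣ n :=
  Finset.prod_primes_dvd n (fun p hp => (hs p hp).1.prime) fun p hp => (hs p hp).2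

/-- few large primes -/
theorem few {s : Finset ℕ} {n : ℕ} (hn : 1 ≤ n) (hs : ∀ p ∈ s, p.Prime ∧ p ∣ n) {y : ℝ} (hy : 1 < y)
    (hsy : ∀ p ∈ s, y ≤ p) {M : ℕ} (hM : (n : ℝ) < y ^ M) : s.card < M := by
  by_contra hc
  push Not at hc
  have h1 : (∏ p ∈ s, (p : ℝ)) ≤ n := by
    rw [← Nat.cast_prod]
    exact_mod_cast Nat.le_of_dvd hn (prod_dvd hs)
  have h2 : y ^ s.card ≤ ∏ p ∈ s, (p : ℝ) := by
    rw [← Finset.prod_const]
    exact Finset.prod_le_prod (fun p _ => by linarith) fun p hp => hsy p hp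
  have h3 : y ^ M ≤ y ^ s.card := pow_le_pow_right₀ hy.le hc
  linarith

/-! ### the grid -/

theorem low_end (E : Ev) (hE : E.Ok) : ∃ c : ℝ, 0 < c ∧ c ≤ 1 / 3 ∧ ∀ i, c ≤ E.u i ∧ c ≤ E.v i := by
  classical
  have h : ∀ s : Finset (Fin E.m), ∃ c : ℝ, 0 < c ∧ c ≤ 1 / 3 ∧
      ∀ i ∈ s, c ≤ E.u i ∧ c ≤ E.v i := by
    intro s
    induction s using Finset.induction_on with
    | empty => exact ⟨1 / 3, by norm_num, le_refl _, fun i hi => absurd hi (Finset.notMem_empty _)⟩
    | insert i s _ ih =>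
      obtain ⟨c, hc, hc3, h⟩ := ih
      obtain ⟨h1, -, h2⟩ := hE i
      have hv : 0 < E.v i := by
        rcases h2 with h2 | h2
        · exact h2.1
        · rw [h2]; norm_num
      refine ⟨min c (min (E.u i) (E.v i)), lt_min hc (lt_min h1 hv), (min_le_left _ _).trans hc3,
        fun j hj => ?_⟩
      rcases Finset.mem_insert.1 hj with rfl | hj
      · exact ⟨(min_le_right _ _).trans (min_le_left _ _),
          (min_le_right _ _).trans (min_le_right _ _)⟩
      · exact ⟨(min_le_left _ _).trans (h j hj).1, (min_le_left _ _).trans (h j hj).2⟩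
  obtain ⟨c, h1, h2, h3⟩ := h Finset.univ
  exact ⟨c, h1, h2, fun i => h3 i (Finset.mem_univ _)⟩

/-- a finite set of reals as a grid -/
theorem enum (P : Finset ℝ) {a b : ℝ} (ha : a ∈ P) (hb : b ∈ P) (hab : ∀ p ∈ P, a ≤ p ∧ p ≤ b) :
    ∃ (g : ℕ → ℝ) (R : ℕ), StrictMono g ∧ g 0 = a ∧ g R = b ∧ (∀ p ∈ P, ∃ j ≤ R, g j = p) ∧
      ∀ j ≤ R, g j ∈ P := by
  classical
  obtain ⟨R, hR⟩ : ∃ R, P.card = R + 1 := ⟨P.card - 1, by
    have : 0 < P.card := Finset.card_pos.2 ⟨a, ha⟩
    omega⟩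
  set f := P.orderEmbOfFin hR with hf
  set g : ℕ → ℝ := fun j => if h : j < R + 1 then f ⟨j, h⟩ else b + (j - R) with hg
  have hgf : ∀ j (h : j < R + 1), g j = f ⟨j, h⟩ := fun j h => dif_pos h
  have hmem : ∀ j ≤ R, g j ∈ P := fun j hj => by
    rw [hgf j (by omega)]
    exact Finset.orderEmbOfFin_mem P hR _
  have hsurj : ∀ p ∈ P, ∃ j ≤ R, g j = p := by
    intro p hp
    have h1 : p ∈ Set.range f := by
      rw [hf, Finset.range_orderEmbOfFin]
      exact hp
    obtain ⟨⟨j, hj⟩, hjp⟩ := h1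
    exact ⟨j, by omega, by rw [hgf j hj, hjp]⟩
  have hmono : ∀ j, j < R → g j < g (j + 1) := by
    intro j hj
    rw [hgf j (by omega), hgf (j + 1) (by omega)]
    exact f.strictMono (by simp)
  have hstrict : StrictMono g := by
    refine strictMono_nat_of_lt_succ fun j => ?_
    rcases lt_trichotomy j R with h | h | h
    · exact hmono j h
    · have h1 : g (j + 1) = b + (((j + 1 : ℕ) : ℝ) - R) := dif_neg (by omega)
      have h2 := (hab _ (hmem j h.le)).2
      rw [h1, h]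
      rw [h] at h2
      push_cast
      linarith
    · have h1 : g (j + 1) = b + (((j + 1 : ℕ) : ℝ) - R) := dif_neg (by omega)
      have h2 : g j = b + ((j : ℝ) - R) := dif_neg (by omega)
      rw [h1, h2]
      push_cast
      linarith
  refine ⟨g, R, hstrict, ?_, ?_, hsurj, hmem⟩
  · obtain ⟨j, hj, hja⟩ := hsurj a ha
    have h1 := hstrict.monotone (Nat.zero_le j)
    rw [hja] at h1
    exact le_antisymm h1 (hab _ (hmem 0 (Nat.zero_le _))).1
  · obtain ⟨j, hj, hjb⟩ := hsurj b hb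
    have h1 := hstrict.monotone hj
    rw [hjb] at h1
    exact le_antisymm (hab _ (hmem R le_rfl)).2 h1

theorem grid (E : Ev) (hE : E.Ok) {c : ℝ} (hc : 0 < c) (hc3 : c ≤ 1 / 3)
    (hcu : ∀ i, c ≤ E.u i ∧ c ≤ E.v i) {η : ℝ} (hη : 0 < η) :
    ∃ (g : ℕ → ℝ) (R : ℕ), Grid E g R ∧ g 0 = c ∧ g R = 3 / 2 ∧
      ∀ j < R, g (j + 1) ≤ g j + η := by
  classical
  obtain ⟨K, hK⟩ := exists_nat_gt ((3 / 2 - c) / η)
  have hL : 0 < 3 / 2 - c := by linarith
  have hK0 : (0 : ℝ) < K := (div_pos hL hη).trans hK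
  set e : ℝ := (3 / 2 - c) / K with he
  have he0 : 0 < e := div_pos hL hK0
  have heη : e ≤ η := by
    rw [he, div_le_iff₀ hK0]
    rw [div_lt_iff₀ hη] at hK
    linarith
  have heK : e * K = 3 / 2 - c := div_mul_cancel₀ _ hK0.ne'
  set P : Finset ℝ := (Finset.range (K + 1)).image (fun k : ℕ => c + k * e) ∪
    (Finset.univ.image E.u ∪ (Finset.univ.filter (fun i => E.v i ≠ 2)).image E.v) with hP
  have hPm : ∀ p : ℝ, p ∈ P ↔ (∃ k : ℕ, k ≤ K ∧ c + k * e = p) ∨ (∃ i, E.u i = p) ∨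
      ∃ i, E.v i ≠ 2 ∧ E.v i = p := by
    intro p
    rw [hP]
    simp only [Finset.mem_union, Finset.mem_image, Finset.mem_range, Nat.lt_succ_iff,
      Finset.mem_univ, true_and, Finset.mem_filter]
  have hv1 : ∀ i, E.v i ≠ 2 → E.v i < 1 := fun i hi => by
    rcases (hE i).2.2 with h | h
    · exact h.2
    · exact absurd h hi
  have hrange : ∀ p ∈ P, c ≤ p ∧ p ≤ 3 / 2 := by
    intro p hp
    rcases (hPm p).1 hp with ⟨k, hk, rfl⟩ | ⟨i, rfl⟩ | ⟨i, hi, rfl⟩
    · have hk' : (k : ℝ) ≤ K := by exact_mod_cast hk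
      have h1 : (k : ℝ) * e ≤ e * K := by nlinarith
      have h2 : 0 ≤ (k : ℝ) * e := by positivity
      constructor <;> linarith
    · exact ⟨(hcu i).1, by linarith [(hE i).2.1]⟩
    · exact ⟨(hcu i).2, by linarith [hv1 i hi]⟩
  have hcP : c ∈ P := (hPm c).2 (Or.inl ⟨0, Nat.zero_le _, by simp⟩)
  have htP : (3 / 2 : ℝ) ∈ P := (hPm _).2 (Or.inl ⟨K, le_rfl, by linarith⟩)
  obtain ⟨g, R, hmono, h0, hR, hsurj, hmem⟩ := enum P hcP htP hrange
  refine ⟨g, R, ⟨hmono, by rw [h0]; exact hc, by rw [hR]; norm_num, by rw [hR]; norm_num, ?_, ?_⟩,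
    h0, hR, ?_⟩
  · intro i
    obtain ⟨j, hj, hji⟩ := hsurj (E.u i) ((hPm _).2 (Or.inr (Or.inl ⟨i, rfl⟩)))
    refine ⟨j, lt_of_le_of_ne hj fun h => ?_, hji⟩
    rw [h, hR] at hji
    linarith [(hE i).2.1]
  · intro i
    by_cases hi : E.v i = 2
    · exact Or.inl hi
    · obtain ⟨j, hj, hji⟩ := hsurj (E.v i) ((hPm _).2 (Or.inr (Or.inr ⟨i, hi, rfl⟩)))
      exact Or.inr ⟨j, hj, hji⟩
  · intro j hj
    have h1 := hrange _ (hmem j hj.le)
    have h2 : g j < 3 / 2 := by rw [← hR]; exact hmono hj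
    set k : ℕ := ⌊(g j - c) / e⌋₊ with hk
    have hq0 : 0 ≤ (g j - c) / e := div_nonneg (by linarith) he0.le
    have hk1 : (k : ℝ) ≤ (g j - c) / e := Nat.floor_le hq0
    have hk2 : (g j - c) / e < k + 1 := Nat.lt_floor_add_one _
    rw [le_div_iff₀ he0] at hk1
    rw [div_lt_iff₀ he0] at hk2
    have hkK : k + 1 ≤ K := by
      have h3 : (k : ℝ) * e < K * e := by nlinarith
      have h4 : (k : ℝ) < K := lt_of_mul_lt_mul_right h3 he0.le
      exact_mod_cast h4
    obtain ⟨l, hl, hlq⟩ := hsurj (c + ((k + 1 : ℕ) : ℝ) * e) ((hPm _).2 (Or.inl ⟨k + 1, hkK, rfl⟩))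
    have hjl : j < l := by
      rw [← hmono.lt_iff_lt, hlq]
      push_cast
      linarith
    have h5 : g (j + 1) ≤ g l := hmono.monotone hjl
    rw [hlq] at h5
    push_cast at h5
    linarith

/-! ### the bad integers -/

/-- a large product of large primes forbids the primes of `J` -/
theorem no_J {x C η' c D : ℝ} (hx : 1 < x) {n : ℕ} (hn : 1 ≤ n) (hnC : (n : ℝ) ≤ C * x)
    {s : Finset ℕ} (hs : ∀ p ∈ s, p.Prime ∧ p ∣ n ∧ x ^ c < p) (hD : x ^ D ≤ ∏ p ∈ s, (p : ℝ))
    (hlarge : C * x ≤ x ^ D * x ^ η') : nd (PW x (η', c)) n = 0 := by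
  unfold nd
  rw [Finset.card_eq_zero, Finset.filter_eq_empty_iff]
  intro q hq hqn
  rw [mem_PW (by linarith)] at hq
  obtain ⟨hqp, hq1, hq2⟩ := hq
  simp only at hq1 hq2
  have hqs : q ∉ s := fun h => absurd (hs q h).2.2 (not_lt.2 hq2)
  have h1 : ∏ p ∈ insert q s, p ∣ n := by
    refine prod_dvd fun p hp => ?_
    rcases Finset.mem_insert.1 hp with rfl | hp
    · exact ⟨hqp, hqn⟩
    · exact ⟨(hs p hp).1, (hs p hp).2.1⟩
  have h2 : ((∏ p ∈ insert q s, p : ℕ) : ℝ) ≤ n := by exact_mod_cast Nat.le_of_dvd hn h1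
  rw [Finset.prod_insert hqs] at h2
  push_cast at h2
  have h3 : 0 < x ^ D := Real.rpow_pos_of_pos (by linarith) _
  have h4 : x ^ D * x ^ η' < (q : ℝ) * ∏ p ∈ s, (p : ℝ) := by
    calc x ^ D * x ^ η' < x ^ D * q := mul_lt_mul_of_pos_left hq1 h3
      _ ≤ (∏ p ∈ s, (p : ℝ)) * q := mul_le_mul_of_nonneg_right hD (Nat.cast_nonneg _)
      _ = _ := mul_comm _ _
  linarith

/-- the combination `B` -/
noncomputable def Bc (K0 l : ℝ) (η' c : ℝ) (g : ℕ → ℝ) (R : ℕ) : Cmb := by
  classical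
  exact ((Finset.range R).filter (fun j => 2 * g (j + 1) < 1)).toList.map
      (fun j => (K0, [(g j, g (j + 1)), (g j, g (j + 1))])) ++
    [(K0 / l ^ 2, [(η', c), (η', c)]), (K0 * (1 - 2 * l) / l ^ 2, [(η', c)]), (K0, [])]

theorem Bc_good {K0 l η' c : ℝ} {g : ℕ → ℝ} {R : ℕ} (hη' : 0 < η') (hηc : η' < c) (hc3 : c ≤ 1 / 3)
    (hg : StrictMono g) (hg0 : 0 < g 0) : (Bc K0 l η' c g R).Good := by
  classical
  intro t ht
  unfold Bc at ht
  rw [List.mem_append] at ht
  rcases ht with ht | ht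
  · rw [List.mem_map] at ht
    obtain ⟨j, hj, rfl⟩ := ht
    rw [Finset.mem_toList, Finset.mem_filter] at hj
    have h1 : 0 < g j := hg0.trans_le (hg.monotone (Nat.zero_le j))
    have h2 : g j < g (j + 1) := hg (Nat.lt_succ_self j)
    refine ⟨fun I hI => ?_, ?_⟩
    · simp only [List.mem_cons, List.not_mem_nil, or_false, or_self] at hI
      rw [hI]
      exact ⟨h1, h2⟩
    · simp only [List.map_cons, List.map_nil, List.sum_cons, List.sum_nil]
      linarith [hj.2]
  · simp only [List.mem_cons, List.not_mem_nil, or_false] at ht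
    rcases ht with rfl | rfl | rfl
    · refine ⟨fun I hI => ?_, ?_⟩
      · simp only [List.mem_cons, List.not_mem_nil, or_false, or_self] at hI
        rw [hI]
        exact ⟨hη', hηc⟩
      · simp only [List.map_cons, List.map_nil, List.sum_cons, List.sum_nil]
        linarith
    · refine ⟨fun I hI => ?_, ?_⟩
      · simp only [List.mem_cons, List.not_mem_nil, or_false] at hI
        rw [hI]
        exact ⟨hη', hηc⟩
      · simp only [List.map_cons, List.map_nil, List.sum_cons, List.sum_nil]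
        linarith
    · refine ⟨fun I hI => absurd hI (by simp), ?_⟩
      simp

theorem Bc_lam {K0 l η' c : ℝ} {g : ℕ → ℝ} {R : ℕ} (hl : l ≠ 0) (hlog : Real.log (c / η') = l) :
    (Bc K0 l η' c g R).lam = K0 * ∑ j ∈ (Finset.range R).filter (fun j => 2 * g (j + 1) < 1),
      Real.log (g (j + 1) / g j) ^ 2 + K0 / l := by
  classical
  unfold Bc Cmb.lam
  rw [List.map_append, List.sum_append, List.map_map]
  congr 1
  · rw [Finset.sum_map_toList, Finset.mul_sum]
    refine Finset.sum_congr ?_ fun j _ => ?_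
    · ext j
      simp only [Finset.mem_filter]
    simp only [Function.comp, AN.lam, List.map_cons, List.map_nil, List.prod_cons, List.prod_nil]
    ring
  · simp only [List.map_cons, List.map_nil, List.sum_cons, List.sum_nil, AN.lam, List.prod_cons,
      List.prod_nil, hlog]
    field_simp
    ring

theorem Bc_val {K0 l η' c : ℝ} {g : ℕ → ℝ} {R : ℕ} (x : ℝ) (n : ℕ) :
    (Bc K0 l η' c g R).val x n = K0 * ∑ j ∈ (Finset.range R).filter (fun j => 2 * g (j + 1) < 1),
      (tup [PW x (g j, g (j + 1)), PW x (g j, g (j + 1))] n : ℝ) +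
      (K0 / l ^ 2 * (tup [PW x (η', c), PW x (η', c)] n : ℝ) +
        K0 * (1 - 2 * l) / l ^ 2 * (tup [PW x (η', c)] n : ℝ) + K0) := by
  classical
  unfold Bc Cmb.val
  rw [List.map_append, List.sum_append, List.map_map]
  congr 1
  · rw [Finset.sum_map_toList, Finset.mul_sum]
    refine Finset.sum_congr ?_ fun j _ => ?_
    · ext j
      simp only [Finset.mem_filter]
    simp only [Function.comp, tW, List.map_cons, List.map_nil]
  · simp only [List.map_cons, List.map_nil, List.sum_cons, List.sum_nil, tW, tup, Nat.cast_one]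
    ring

/-- the two parts of `B` -/
theorem Bc_ge {K0 l η' c : ℝ} {g : ℕ → ℝ} {R : ℕ} (hK0 : 0 ≤ K0) (hl : 0 < l) {x : ℝ} (hx : 0 ≤ x)
    (n : ℕ) : 0 ≤ (Bc K0 l η' c g R).val x n ∧
    (∀ j < R, 2 * g (j + 1) < 1 → 2 ≤ nd (PW x (g j, g (j + 1))) n →
      K0 ≤ (Bc K0 l η' c g R).val x n) ∧
    (nd (PW x (η', c)) n = 0 → K0 ≤ (Bc K0 l η' c g R).val x n) := by
  classical
  have hpr : ∀ I : ℝ × ℝ, ∀ p ∈ PW x I, p.Prime := fun I p hp => ((mem_PW hx).1 hp).1
  set S : ℝ := ∑ j ∈ (Finset.range R).filter (fun j => 2 * g (j + 1) < 1),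
      (tup [PW x (g j, g (j + 1)), PW x (g j, g (j + 1))] n : ℝ) with hS
  have hS0 : 0 ≤ S := Finset.sum_nonneg fun j _ => Nat.cast_nonneg _
  have h2 : K0 / l ^ 2 * ((nd (PW x (η', c)) n : ℝ) - l) ^ 2 ≤
      K0 / l ^ 2 * (tup [PW x (η', c), PW x (η', c)] n : ℝ) +
        K0 * (1 - 2 * l) / l ^ 2 * (tup [PW x (η', c)] n : ℝ) + K0 := by
    have h3 := mul_le_mul_of_nonneg_left (cheb (hpr (η', c)) n l)
      (show 0 ≤ K0 / l ^ 2 by positivity)
    refine h3.trans (le_of_eq ?_)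
    field_simp
  have h0 : 0 ≤ K0 / l ^ 2 * ((nd (PW x (η', c)) n : ℝ) - l) ^ 2 := by positivity
  rw [Bc_val, ← hS]
  have hKS : 0 ≤ K0 * S := mul_nonneg hK0 hS0
  refine ⟨by linarith, fun j hj hj1 hj2 => ?_, fun h => ?_⟩
  · have h4 : (1 : ℝ) ≤ S := by
      have h5 : (tup [PW x (g j, g (j + 1)), PW x (g j, g (j + 1))] n : ℝ) ≤ S :=
        Finset.single_le_sum (f := fun j => (tup [PW x (g j, g (j + 1)), PW x (g j, g (j + 1))] n : ℝ))
          (fun j _ => Nat.cast_nonneg _) (Finset.mem_filter.2 ⟨Finset.mem_range.2 hj, hj1⟩)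
      have h6 := tup_two (hpr (g j, g (j + 1))) (n := n)
      have h7 : 1 ≤ nd (PW x (g j, g (j + 1))) n * (nd (PW x (g j, g (j + 1))) n - 1) :=
        Nat.mul_pos (by omega) (by omega)
      have h8 : (1 : ℝ) ≤ (tup [PW x (g j, g (j + 1)), PW x (g j, g (j + 1))] n : ℝ) := by
        exact_mod_cast h7.trans h6
      exact h8.trans h5
    have h9 : K0 * 1 ≤ K0 * S := mul_le_mul_of_nonneg_left h4 hK0
    linarith
  · rw [h] at h2
    have h3 : K0 / l ^ 2 * (((0 : ℕ) : ℝ) - l) ^ 2 = K0 := by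
      push_cast
      field_simp
      ring
    rw [h3] at h2
    linarith

/-- the sum of the squares of the logarithms -/
theorem sum_log {g : ℕ → ℝ} {R : ℕ} {c η : ℝ} (hc : 0 < c) (hg : StrictMono g) (h0 : g 0 = c)
    (hR : g R = 3 / 2) (hη : ∀ j < R, g (j + 1) ≤ g j + η) (hη0 : 0 ≤ η) :
    ∑ j ∈ (Finset.range R).filter (fun j => 2 * g (j + 1) < 1), Real.log (g (j + 1) / g j) ^ 2 ≤
      2 * η / c ^ 2 := by
  have hgc : ∀ j, c ≤ g j := fun j => by rw [← h0]; exact hg.monotone (Nat.zero_le j)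
  have h1 : ∀ j ∈ Finset.range R, Real.log (g (j + 1) / g j) ^ 2 ≤ η / c ^ 2 * (g (j + 1) - g j) := by
    intro j hj
    rw [Finset.mem_range] at hj
    have hj0 : 0 < g j := hc.trans_le (hgc j)
    have hlt : g j < g (j + 1) := hg (Nat.lt_succ_self j)
    have e1 : 0 ≤ Real.log (g (j + 1) / g j) := Real.log_nonneg (by
      rw [le_div_iff₀ hj0]; linarith)
    have e2 : Real.log (g (j + 1) / g j) ≤ (g (j + 1) - g j) / c := by
      have h2 := Real.log_le_sub_one_of_pos (show 0 < g (j + 1) / g j by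
        have := hc.trans_le (hgc (j + 1)); positivity)
      have h3 : g (j + 1) / g j - 1 = (g (j + 1) - g j) / g j := by field_simp
      rw [h3] at h2
      refine h2.trans ?_
      exact div_le_div_of_nonneg_left (by linarith) hc (hgc j)
    calc Real.log (g (j + 1) / g j) ^ 2 ≤ ((g (j + 1) - g j) / c) ^ 2 :=
          pow_le_pow_left₀ e1 e2 2
      _ = (g (j + 1) - g j) * (g (j + 1) - g j) / c ^ 2 := by rw [div_pow, sq]
      _ ≤ η * (g (j + 1) - g j) / c ^ 2 := by
          refine div_le_div_of_nonneg_right ?_ (by positivity)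
          exact mul_le_mul_of_nonneg_right (by linarith [hη j hj]) (by linarith)
      _ = _ := by ring
  calc ∑ j ∈ (Finset.range R).filter (fun j => 2 * g (j + 1) < 1), Real.log (g (j + 1) / g j) ^ 2
      ≤ ∑ j ∈ Finset.range R, Real.log (g (j + 1) / g j) ^ 2 :=
        Finset.sum_le_sum_of_subset_of_nonneg (Finset.filter_subset _ _) fun j _ _ => sq_nonneg _
    _ ≤ ∑ j ∈ Finset.range R, η / c ^ 2 * (g (j + 1) - g j) := Finset.sum_le_sum h1
    _ = η / c ^ 2 * (g R - g 0) := by rw [← Finset.mul_sum, Finset.sum_range_sub]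
    _ ≤ η / c ^ 2 * 2 := mul_le_mul_of_nonneg_left (by rw [hR, h0]; linarith) (by positivity)
    _ = _ := by ring

end PtB3

open PtB3 in
/-- (A6b) -/
theorem stPt_3 (hC : StCell) : StPt := by
  classical
  intro E hE ε hε
  obtain ⟨c, hc, hc3, hcu⟩ := low_end E hE
  obtain ⟨M, hM⟩ := exists_nat_gt (1 / c)
  rw [div_lt_iff₀ hc] at hM
  have hM2 : (2 : ℝ) ≤ M := by
    have : (3 : ℝ) ≤ M := by nlinarith
    linarith
  have hM0 : (0 : ℝ) < M := by linarith
  set K0 : ℝ := 1 + 3 ^ M with hK0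
  have hK0p : 0 < K0 := by positivity
  set l : ℝ := 2 * K0 / ε with hl
  have hlp : 0 < l := by positivity
  set η' : ℝ := c * Real.exp (-l) with hη'
  have hη'p : 0 < η' := by positivity
  have hη'c : η' < c := by
    have : Real.exp (-l) < 1 := by rw [Real.exp_lt_one_iff]; linarith
    rw [hη']
    nlinarith
  have hlog : Real.log (c / η') = l := by
    rw [hη']
    have : c / (c * Real.exp (-l)) = Real.exp l := by
      rw [Real.exp_neg]
      field_simp
    rw [this, Real.log_exp]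
  set η : ℝ := min (η' / (2 * M)) (ε * c ^ 2 / (4 * K0)) with hη
  have hηp : 0 < η := lt_min (by positivity) (by positivity)
  have hη1 : M * η ≤ η' / 2 := by
    have h1 : η ≤ η' / (2 * M) := min_le_left _ _
    calc M * η ≤ M * (η' / (2 * M)) := mul_le_mul_of_nonneg_left h1 hM0.le
      _ = η' / 2 := by field_simp
  have hη2 : K0 * (2 * η / c ^ 2) ≤ ε / 2 := by
    have h1 : η ≤ ε * c ^ 2 / (4 * K0) := min_le_right _ _
    calc K0 * (2 * η / c ^ 2) = (2 * K0 / c ^ 2) * η := by ring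
      _ ≤ (2 * K0 / c ^ 2) * (ε * c ^ 2 / (4 * K0)) :=
          mul_le_mul_of_nonneg_left h1 (by positivity)
      _ = ε / 2 := by field_simp; ring
  obtain ⟨g, R, hG, h0, hR, hmesh⟩ := grid E hE hc hc3 hcu hηp
  have hg := hG.mono
  obtain ⟨hF, hFC⟩ := hC E g R hE hG
  refine ⟨Fc E g R, Bc K0 l η' c g R, hF, Bc_good hη'p hη'c hc3 hg hG.low, ?_, fun C hC1 => ?_⟩
  · rw [Bc_lam hlp.ne' hlog]
    have h1 := mul_le_mul_of_nonneg_left (sum_log hc hg h0 hR hmesh hηp.le) hK0p.le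
    have h2 : K0 / l = ε / 2 := by
      rw [hl]
      field_simp
    linarith
  obtain ⟨x1, hx1⟩ := hFC C hC1
  -- large `x`
  have L1 : ∀ᶠ x : ℝ in atTop, C * x < x ^ (c * M) := by
    have h1 : Tendsto (fun x : ℝ => x ^ (c * M - 1)) atTop atTop :=
      tendsto_rpow_atTop (by linarith)
    filter_upwards [h1.eventually (eventually_gt_atTop C), eventually_gt_atTop (0 : ℝ)] with x h2 h3
    calc C * x < x ^ (c * M - 1) * x := mul_lt_mul_of_pos_right h2 h3
      _ = x ^ (c * M) := by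
        rw [← Real.rpow_add_one h3.ne']
        congr 1
        ring
  have L2 : ∀ᶠ x : ℝ in atTop, C * x ≤ x ^ (1 - M * η) * x ^ η' := by
    have h1 : Tendsto (fun x : ℝ => x ^ (η' - M * η)) atTop atTop :=
      tendsto_rpow_atTop (by linarith)
    filter_upwards [h1.eventually (eventually_ge_atTop C), eventually_gt_atTop (0 : ℝ)] with x h2 h3
    calc C * x ≤ x ^ (η' - M * η) * x := mul_le_mul_of_nonneg_right h2 h3.le
      _ = x ^ (1 - M * η) * x ^ η' := by
        rw [← Real.rpow_add_one h3.ne', ← Real.rpow_add h3]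
        congr 1
        ring
  obtain ⟨x2, hx2⟩ := eventually_atTop.1 (L1.and L2)
  refine ⟨max (max x1 x2) 2, fun x hx n hn hnC => ?_⟩
  have hxa : x1 ≤ x := (le_max_left _ _).trans ((le_max_left _ _).trans hx)
  have hxb : x2 ≤ x := (le_max_right _ _).trans ((le_max_left _ _).trans hx)
  have hxc : (2 : ℝ) ≤ x := (le_max_right _ _).trans hx
  have hx0 : 0 < x := by linarith
  have hx1' : 1 < x := by linarith
  obtain ⟨l1, l2⟩ := hx2 x hxb
  obtain ⟨hgood, hall⟩ := hx1 x hxa n hn hnC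
  obtain ⟨b0, b1, b2⟩ := Bc_ge (η' := η') (c := c) (g := g) (R := R) hK0p.le hlp hx0.le n
  have hNc : ∀ j, Nc g x n j = nd (PW x (g j, g (j + 1))) n := fun j => rfl
  have hxgt : ∀ a b : ℝ, a ≤ b → x ^ a ≤ x ^ b := fun a b hab =>
    Real.rpow_le_rpow_of_exponent_le hx1'.le hab
  -- few primes in the cells
  have hgc : ∀ j, c ≤ g j := fun j => by rw [← h0]; exact hg.monotone (Nat.zero_le j)
  have hfew : ∀ s : Finset ℕ, (∀ p ∈ s, p.Prime ∧ p ∣ n) → (∀ p ∈ s, x ^ c ≤ p) → s.card < M := by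
    intro s hs hs2
    refine few hn hs (Real.one_lt_rpow hx1' hc) hs2 (lt_of_le_of_lt hnC ?_)
    rw [← Real.rpow_natCast, ← Real.rpow_mul hx0.le]
    exact l1
  have hdisj : ∀ i j, i < j → Disjoint ((PW x (g i, g (i + 1))).filter (fun p => p ∣ n))
      ((PW x (g j, g (j + 1))).filter (fun p => p ∣ n)) := by
    intro i j hij
    rw [Finset.disjoint_left]
    intro p hp hq
    have h1 := ((mem_PW hx0.le).1 (Finset.mem_filter.1 hp).1).2.2
    have h2 := ((mem_PW hx0.le).1 (Finset.mem_filter.1 hq).1).2.1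
    have h3 := hxgt _ _ (hg.monotone (Nat.succ_le_of_lt hij))
    simp only at h1 h2
    linarith [h3]
  have hsum : ∑ j ∈ Finset.range R, Nc g x n j < M := by
    have h1 : ∑ j ∈ Finset.range R, Nc g x n j = ((Finset.range R).biUnion
        (fun j => (PW x (g j, g (j + 1))).filter (fun p => p ∣ n))).card := by
      rw [Finset.card_biUnion]
      · rfl
      · intro i _ j _ hij
        rcases lt_or_gt_of_ne hij with h | h
        · exact hdisj i j h
        · exact (hdisj j i h).symm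
    rw [h1]
    refine hfew _ (fun p hp => ?_) fun p hp => ?_
    · obtain ⟨j, -, hj⟩ := Finset.mem_biUnion.1 hp
      rw [Finset.mem_filter, mem_PW hx0.le] at hj
      exact ⟨hj.1.1, hj.2⟩
    · obtain ⟨j, -, hj⟩ := Finset.mem_biUnion.1 hp
      rw [Finset.mem_filter, mem_PW hx0.le] at hj
      exact (hxgt _ _ (hgc j)).trans hj.1.2.1.le
  have hK : |(if E.At x n then (1 : ℝ) else 0) - (Fc E g R).val x n| ≤ K0 := by
    refine hall.trans ?_
    rw [hK0]
    have h1 : (3 : ℝ) ^ (∑ j ∈ Finset.range R, Nc g x n j) ≤ 3 ^ M :=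
      pow_le_pow_right₀ (by norm_num) hsum.le
    linarith
  by_cases hA : ∀ j < R, Nc g x n j ≤ 1
  · by_cases hB : ∑ j ∈ (Finset.range R).filter (fun j => Nc g x n j = 1), g (j + 1) < 1
    · rw [hgood hA hB, sub_self, abs_zero]
      exact b0
    · push Not at hB
      refine hK.trans (b2 ?_)
      set P := (Finset.range R).filter (fun j => Nc g x n j = 1) with hP
      have hch : ∀ j ∈ P, ∃ p : ℕ, p.Prime ∧ p ∣ n ∧ x ^ g j < p ∧ (p : ℝ) ≤ x ^ g (j + 1) := by
        intro j hj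
        have h1 : Nc g x n j = 1 := (Finset.mem_filter.1 hj).2
        unfold Nc at h1
        obtain ⟨p, hp⟩ := Finset.card_eq_one.1 h1
        have h2 : p ∈ (PW x (g j, g (j + 1))).filter (fun p => p ∣ n) := by
          rw [hp]; exact Finset.mem_singleton_self p
        rw [Finset.mem_filter, mem_PW hx0.le] at h2
        exact ⟨p, h2.1.1, h2.2, h2.1.2.1, h2.1.2.2⟩
      choose! f hf using hch
      have hinj : Set.InjOn f (P : Set ℕ) := by
        intro i hi j hj hij
        by_contra hne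
        rcases lt_or_gt_of_ne hne with h | h
        · have h1 := (hf i hi).2.2.2
          have h2 := (hf j hj).2.2.1
          have h3 := hxgt _ _ (hg.monotone (Nat.succ_le_of_lt h))
          rw [hij] at h1
          linarith [h3]
        · have h1 := (hf j hj).2.2.2
          have h2 := (hf i hi).2.2.1
          have h3 := hxgt _ _ (hg.monotone (Nat.succ_le_of_lt h))
          rw [← hij] at h1
          linarith [h3]
      have hcard : (P.card : ℝ) ≤ M := by
        have h1 : P.card ≤ ∑ j ∈ Finset.range R, Nc g x n j := by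
          calc P.card = ∑ j ∈ P, 1 := by simp
            _ = ∑ j ∈ P, Nc g x n j := Finset.sum_congr rfl fun j hj =>
                ((Finset.mem_filter.1 hj).2).symm
            _ ≤ _ := Finset.sum_le_sum_of_subset_of_nonneg (Finset.filter_subset _ _)
                fun j _ _ => Nat.zero_le _
        exact_mod_cast h1.trans hsum.le
      refine no_J (s := P.image f) (D := 1 - M * η) hx1' hn hnC (fun p hp => ?_) ?_ l2
      · obtain ⟨j, hj, rfl⟩ := Finset.mem_image.1 hp
        exact ⟨(hf j hj).1, (hf j hj).2.1, lt_of_le_of_lt (hxgt _ _ (hgc j)) (hf j hj).2.2.1⟩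
      · rw [Finset.prod_image hinj]
        calc x ^ (1 - M * η) ≤ x ^ (∑ j ∈ P, g j) := by
              apply hxgt
              have h1 : ∑ j ∈ P, g (j + 1) ≤ ∑ j ∈ P, (g j + η) := Finset.sum_le_sum fun j hj =>
                hmesh j (Finset.mem_range.1 (Finset.mem_filter.1 hj).1)
              rw [Finset.sum_add_distrib, Finset.sum_const, nsmul_eq_mul] at h1
              have h2 : (P.card : ℝ) * η ≤ M * η := mul_le_mul_of_nonneg_right hcard hηp.le
              linarith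
          _ = ∏ j ∈ P, x ^ g j := Real.rpow_sum_of_pos hx0 _ _
          _ ≤ ∏ j ∈ P, (f j : ℝ) := Finset.prod_le_prod
              (fun j _ => (Real.rpow_pos_of_pos hx0 _).le) fun j hj => (hf j hj).2.2.1.le
  · push Not at hA
    obtain ⟨j, hjR, hj⟩ := hA
    have hj2 : 2 ≤ nd (PW x (g j, g (j + 1))) n := hj
    by_cases h2 : 2 * g (j + 1) < 1
    · exact hK.trans (b1 j hjR h2 hj2)
    · push Not at h2
      refine hK.trans (b2 ?_)
      obtain ⟨p, hp, q, hq, hpq⟩ := Finset.one_lt_card.1 (show 1 <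
        ((PW x (g j, g (j + 1))).filter (fun p => p ∣ n)).card from hj2)
      rw [Finset.mem_filter, mem_PW hx0.le] at hp hq
      simp only at hp hq
      refine no_J (s := {p, q}) (D := 1 - M * η) hx1' hn hnC (fun r hr => ?_) ?_ l2
      · rcases Finset.mem_insert.1 hr with rfl | hr
        · exact ⟨hp.1.1, hp.2, lt_of_le_of_lt (hxgt _ _ (hgc j)) hp.1.2.1⟩
        · rw [Finset.mem_singleton] at hr
          subst hr
          exact ⟨hq.1.1, hq.2, lt_of_le_of_lt (hxgt _ _ (hgc j)) hq.1.2.1⟩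
      · rw [Finset.prod_pair hpq]
        calc x ^ (1 - M * η) ≤ x ^ (g j + g j) := by
              apply hxgt
              have h3 := hmesh j hjR
              nlinarith
          _ = x ^ g j * x ^ g j := Real.rpow_add hx0 _ _
          _ ≤ (p : ℝ) * q := mul_le_mul hp.1.2.1.le hq.1.2.1.le
              (Real.rpow_pos_of_pos hx0 _).le (Nat.cast_nonneg _)

end Pool.Agent.Lib.MP_a17b09_nt.AN
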