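import Pool.Agent.Lib.MP_a17b09_nt.AN.Stmts3

/-!
Project AN, row A6: the interface between A6a (cells) and A6b (bad integers, choice of the grid).
-/

set_option autoImplicit false

open Filter Topology Finset

namespace Pool.Agent.Lib.MP_a17b09_nt.AN

/-- the number of primes of the cell `j` dividing `n` -/
noncomputable def Nc (g : ℕ → ℝ) (x : ℝ) (n j : ℕ) : ℕ :=
  ((PW x (g j, g (j + 1))).filter (fun p => p ∣ n)).card

/-- a grid which refines the windows of the event -/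
structure Grid (E : Ev) (g : ℕ → ℝ) (R : ℕ) : Prop where
  mono : StrictMono g
  low : 0 < g 0
  top : 1 < g R
  two : g R ≤ 2
  u : ∀ i, ∃ j < R, g j = E.u i
  v : ∀ i, E.v i = 2 ∨ ∃ j ≤ R, g j = E.v i

open Classical in
/-- the value of the event on the sets of cells -/
noncomputable def phi (E : Ev) (g : ℕ → ℝ) (P : Finset ℕ) : ℝ :=
  if ∀ i, (P.filter (fun j => E.u i ≤ g j ∧ g (j + 1) ≤ E.v i)).card = E.c i then 1 else 0

/-- the coefficient -/
noncomputable def coef (E : Ev) (g : ℕ → ℝ) (T : Finset ℕ) : ℝ :=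
  ∑ S ∈ T.powerset, (-1 : ℝ) ^ (T \ S).card * phi E g S

open Classical in
/-- the combination -/
noncomputable def Fc (E : Ev) (g : ℕ → ℝ) (R : ℕ) : Cmb :=
  ((Finset.range R).powerset.filter (fun T => ∑ j ∈ T, g (j + 1) < 1)).toList.map
    (fun T => (coef E g T, T.toList.map (fun j => (g j, g (j + 1)))))

open Classical in
/-- (A6a) the cells: exact identity for the good integers, a bound for all -/
def StCell : Prop := ∀ (E : Ev) (g : ℕ → ℝ) (R : ℕ), E.Ok → Grid E g R → (Fc E g R).Good ∧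
  ∀ C : ℝ, 1 ≤ C → ∃ x0 : ℝ, ∀ x : ℝ, x0 ≤ x → ∀ n : ℕ, 1 ≤ n → (n : ℝ) ≤ C * x →
  ((∀ j < R, Nc g x n j ≤ 1) →
    ∑ j ∈ (Finset.range R).filter (fun j => Nc g x n j = 1), g (j + 1) < 1 →
    (if E.At x n then (1 : ℝ) else 0) = (Fc E g R).val x n) ∧
  |(if E.At x n then (1 : ℝ) else 0) - (Fc E g R).val x n| ≤
    1 + 3 ^ (∑ j ∈ Finset.range R, Nc g x n j)

end Pool.Agent.Lib.MP_a17b09_nt.AN
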