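import Pool.Agent.Lib.MP_a17b09_nt.AN.SInH_53

/-!
Project AS (MP_a17b09_nt), S4H (helper53): the twisted sums of two slots for all events, positive
discriminant.
-/

set_option autoImplicit false

open Filter Topology Finset

namespace Pool.Agent.Lib.MP_a17b09_nt.AS

open CH CH.PE HY SP
open AN (Ev ind wz wd Dens)
open ANH (GWtH)
open AN.W98

/-- (S4H) -/
theorem stEvSH_53 (hTw : StHTwPW) (hIn : StInHW) (hGA : ∀ d : ℕ, ¬ IsSquare d → ANH.StGAH d) :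
    StEvSH := by
  intro a b c ha d hdd hns h hh t0 α β hα hαβ E E' δ δ' hE hE' hd hd'
  have gE : ∀ m : ℕ, 0 < m → GWtH (d * m ^ 2) E.Is δ := fun m hm =>
    hGA _ (not_sq53 hns hm) E δ hE hd
  have gE' : ∀ m : ℕ, 0 < m → GWtH (d * m ^ 2) E'.Is δ' := fun m hm =>
    hGA _ (not_sq53 hns hm) E' δ' hE' hd'
  obtain ⟨i1, i2, i3⟩ := hIn d hns E.Is E'.Is δ δ' gE gE'
  obtain ⟨j1, j2, j3⟩ := hIn d hns E'.Is E.Is δ' δ gE' gE
  refine ⟨?_, ?_, ?_⟩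
  · intro z1 z2 k hk h1 h2 h12
    have hn1 : ‖z1‖ = 1 := Complex.norm_eq_one_of_pow_eq_one h1 hk.ne'
    have hn2 : ‖z2‖ = 1 := Complex.norm_eq_one_of_pow_eq_one h2 hk.ne'
    exact hTw a b c ha d hdd hns _ _ (b1_wz hn1 _) (b1_wz hn2 _) (i1 z1 z2 k hk h1 h2 h12)
      (j1 z2 z1 k hk h2 h1 h12.symm) h hh t0 α β hα hαβ
  · exact hTw a b c ha d hdd hns _ _ (b1_wd hd.1 hd.2.1) (b1_ind _) i2 j3 h hh t0 α β hα hαβ
  · exact hTw a b c ha d hdd hns _ _ (b1_ind _) (b1_wd hd'.1 hd'.2.1) i3 j2 h hh t0 α β hα hαβ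

end Pool.Agent.Lib.MP_a17b09_nt.AS
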