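import Pool.Agent.Lib.MP_a17b09_nt.AN.Stmts3
import Pool.Agent.Lib.MP_a17b09_nt.PQ.T2_20

/-!
Project AN (MP_a17b09_nt), basic facts for the weights `ind`, `wz`, `wd` (helper98).
-/

set_option autoImplicit false

open Filter Topology Finset

namespace Pool.Agent.Lib.MP_a17b09_nt.AN

open CH CH.PE
open PQ (B1 Wy TwW)

namespace W98

theorem b1_ind (b : ℕ → Prop) : B1 (ind b) := fun n => by
  unfold ind
  split_ifs
  · rw [norm_one]
  · rw [norm_zero]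
    exact zero_le_one

theorem b1_wz {z : ℂ} (hz : ‖z‖ = 1) (b : ℕ → Prop) : B1 (wz z b) := fun n => by
  unfold wz
  rw [norm_mul, norm_pow, hz, one_pow, one_mul]
  exact b1_ind b n

theorem b1_wd {b : ℕ → Prop} {δ : ℝ} (h0 : 0 ≤ δ) (h1 : δ ≤ 1) : B1 (wd δ b) := fun n => by
  unfold wd ind
  split_ifs
  · have e : (1 : ℂ) - (δ : ℂ) = ((1 - δ : ℝ) : ℂ) := by
      push_cast
      ring
    rw [e, Complex.norm_real, Real.norm_eq_abs, abs_le]
    constructor <;> linarith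
  · rw [zero_sub, norm_neg, Complex.norm_real, Real.norm_eq_abs, abs_of_nonneg h0]
    exact h1

theorem wz_one (b : ℕ → Prop) : wz 1 b = ind b := by
  funext n
  unfold wz
  rw [one_pow, one_mul]

theorem fin_wz {z : ℂ} {k : ℕ} (hk : 0 < k) (hz : z ^ k = 1) (b : ℕ → Prop) :
    (Set.range (wz z b)).Finite := by
  have hf : (insert (0 : ℂ) ((fun j : ℕ => z ^ j) '' Set.Iio k)).Finite :=
    ((Set.finite_Iio k).image _).insert 0
  refine hf.subset ?_
  rintro x ⟨n, rfl⟩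
  unfold wz ind
  split_ifs
  · refine Set.mem_insert_of_mem _ ⟨Omn n % k, Nat.mod_lt _ hk, ?_⟩
    have e : z ^ Omn n = z ^ (Omn n % k) := by
      conv_lhs => rw [← Nat.div_add_mod (Omn n) k]
      rw [pow_add, pow_mul, hz, one_pow, one_mul]
    show z ^ (Omn n % k) = z ^ Omn n * 1
    rw [mul_one, e]
  · rw [mul_zero]
    exact Set.mem_insert _ _

theorem fin_wd (δ : ℝ) (b : ℕ → Prop) : (Set.range (wd δ b)).Finite := by
  have hf : ({1 - (δ : ℂ), 0 - (δ : ℂ)} : Set ℂ).Finite := Set.toFinite _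
  refine hf.subset ?_
  rintro x ⟨n, rfl⟩
  unfold wd ind
  split_ifs
  · exact Or.inl rfl
  · exact Or.inr rfl

/-- `A ⊗ B - δ δ' = (A - δ) ⊗ B + δ (1 ⊗ (B - δ'))` -/
theorem split (a b c : ℤ) (α β : ℝ) (h t0 : ℕ) (A B : ℕ → Prop) (δ δ' : ℝ) (N : ℕ) :
    TwW a b c α β h t0 (ind A) (ind B) N - ((δ * δ' : ℝ) : ℂ) *
      TwW a b c α β h t0 (fun _ => 1) (fun _ => 1) N =
    TwW a b c α β h t0 (wd δ A) (ind B) N + (δ : ℂ) *
      TwW a b c α β h t0 (fun _ => 1) (wd δ' B) N := by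
  unfold TwW
  rw [Finset.mul_sum, Finset.mul_sum, ← Finset.sum_sub_distrib, ← Finset.sum_add_distrib]
  refine Finset.sum_congr rfl fun t _ => ?_
  rw [Finset.mul_sum, Finset.mul_sum, ← Finset.sum_sub_distrib, ← Finset.sum_add_distrib]
  refine Finset.sum_congr rfl fun d _ => ?_
  unfold wd
  push_cast
  ring

open PQ.T20 (TwW_le b1_one) in
/-- from the two twisted sums with `A - δ` and `B - δ'` to the product -/
theorem comb {a b c : ℤ} {h t0 : ℕ} {α β κ : ℝ}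
    (hlim : Tendsto (fun N : ℕ => (CST a b c α β h t0 1 0 0 N : ℝ) / N) atTop (𝓝 κ))
    {A B : ℕ → Prop} {δ δ' : ℝ} (hA0 : 0 ≤ δ) (hA1 : δ ≤ 1) (hB0 : 0 ≤ δ') (hB1 : δ' ≤ 1)
    (M : LMean)
    (e1 : M.E (fun N : ℕ => ‖TwW a b c α β h t0 (wd δ A) (ind B) N‖ / N) = 0)
    (e2 : M.E (fun N : ℕ => ‖TwW a b c α β h t0 (fun _ => 1) (wd δ' B) N‖ / N) = 0) :
    M.E (fun N : ℕ => ‖TwW a b c α β h t0 (ind A) (ind B) N - ((δ * δ' : ℝ) : ℂ) *
      TwW a b c α β h t0 (fun _ => 1) (fun _ => 1) N‖ / N) = 0 := by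
  obtain ⟨C, hC0, hC⟩ := PQ.T64.lin_of_lim hlim
  have b1 : Bdd (fun N : ℕ => ‖TwW a b c α β h t0 (wd δ A) (ind B) N‖ / N) :=
    PQ.T64.bdd_of_le hC0 (fun N => norm_nonneg _) fun N =>
      (TwW_le a b c α β h t0 (b1_wd hA0 hA1) (b1_ind B) N).trans (hC N)
  have b2 : Bdd (fun N : ℕ => ‖TwW a b c α β h t0 (fun _ => 1) (wd δ' B) N‖ / N) :=
    PQ.T64.bdd_of_le hC0 (fun N => norm_nonneg _) fun N =>
      (TwW_le a b c α β h t0 b1_one (b1_wd hB0 hB1) N).trans (hC N)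
  have hle : ∀ N : ℕ, ‖TwW a b c α β h t0 (ind A) (ind B) N - ((δ * δ' : ℝ) : ℂ) *
      TwW a b c α β h t0 (fun _ => 1) (fun _ => 1) N‖ / N ≤
      ‖TwW a b c α β h t0 (wd δ A) (ind B) N‖ / N + δ *
        (‖TwW a b c α β h t0 (fun _ => 1) (wd δ' B) N‖ / N) := by
    intro N
    rw [split, mul_div_assoc', ← add_div]
    refine div_le_div_of_nonneg_right ((norm_add_le _ _).trans ?_) (Nat.cast_nonneg N)
    rw [norm_mul, Complex.norm_real, Real.norm_eq_abs, abs_of_nonneg hA0]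
  have b3 : Bdd (fun N : ℕ => ‖TwW a b c α β h t0 (ind A) (ind B) N - ((δ * δ' : ℝ) : ℂ) *
      TwW a b c α β h t0 (fun _ => 1) (fun _ => 1) N‖ / N) := by
    obtain ⟨B', hB'⟩ := b1.add (b2.smul δ)
    refine ⟨B', fun N => ?_⟩
    rw [abs_of_nonneg (by positivity)]
    exact (hle N).trans ((le_abs_self _).trans (hB' N))
  apply le_antisymm
  · refine (LMean.mono M b3 (b1.add (b2.smul δ)) hle).trans ?_
    rw [M.add _ _ b1 (b2.smul δ), M.smul _ _ b2, e1, e2, mul_zero, add_zero]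
  · exact M.nonneg _ b3 fun N => by positivity

end W98

end Pool.Agent.Lib.MP_a17b09_nt.AN
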