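import Pool.Agent.Lib.MP_a17b09_nt.AN.SStmts3
import Pool.Agent.Lib.MP_a17b09_nt.AN.W98

/-!
Project AS (MP_a17b09_nt), S4 (helper53): the twisted sums of two slots for all events, negative
discriminant.
-/

set_option autoImplicit false

open Filter Topology Finset

namespace Pool.Agent.Lib.MP_a17b09_nt.AS

open CH CH.PE HY SP
open AN (Ev ind wz wd Dens GWt)
open AN.W98

/-- (S4) -/
theorem stEvS_53 (hTw : StTwPW) (hIn : StInW) (hGA : ∀ d : ℕ, 0 < d → AN.StGA d) : StEvS := by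
  intro a b c ha hD h hh t0 α β hα hαβ E E' δ δ' hE hE' hd hd'
  obtain ⟨d, hdd⟩ : ∃ d : ℕ, 4 * a * c - b ^ 2 = (d : ℤ) :=
    ⟨_, (Int.toNat_of_nonneg (by linarith)).symm⟩
  have hd0 : 0 < d := by
    have : (0 : ℤ) < d := by rw [← hdd]; linarith
    exact_mod_cast this
  have gE : ∀ m : ℕ, 0 < m → GWt (d * m ^ 2) E.Is δ := fun m hm =>
    hGA _ (Nat.mul_pos hd0 (pow_pos hm 2)) E δ hE hd
  have gE' : ∀ m : ℕ, 0 < m → GWt (d * m ^ 2) E'.Is δ' := fun m hm =>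
    hGA _ (Nat.mul_pos hd0 (pow_pos hm 2)) E' δ' hE' hd'
  obtain ⟨i1, i2, i3⟩ := hIn d hd0 E.Is E'.Is δ δ' gE gE'
  obtain ⟨j1, j2, j3⟩ := hIn d hd0 E'.Is E.Is δ' δ gE' gE
  refine ⟨?_, ?_, ?_⟩
  · intro z1 z2 k hk h1 h2 h12
    have hn1 : ‖z1‖ = 1 := Complex.norm_eq_one_of_pow_eq_one h1 hk.ne'
    have hn2 : ‖z2‖ = 1 := Complex.norm_eq_one_of_pow_eq_one h2 hk.ne'
    exact hTw a b c d ha hd0 hdd _ _ (b1_wz hn1 _) (b1_wz hn2 _) (i1 z1 z2 k hk h1 h2 h12)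
      (j1 z2 z1 k hk h2 h1 h12.symm) h hh t0 α β hα hαβ
  · exact hTw a b c d ha hd0 hdd _ _ (b1_wd hd.1 hd.2.1) (b1_ind _) i2 j3 h hh t0 α β hα hαβ
  · exact hTw a b c d ha hd0 hdd _ _ (b1_ind _) (b1_wd hd'.1 hd'.2.1) i3 j2 h hh t0 α β hα hαβ

end Pool.Agent.Lib.MP_a17b09_nt.AS
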