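import Pool.Agent.Lib.MP_a17b09_nt.AN.SStmts3
import Pool.Agent.Lib.MP_a17b09_nt.AN.W98

/-!
Project AS (MP_a17b09_nt), S1 (helper53): Theorem A for the weights of two sets of integers with
densities, all systems of discriminants `-d m ^ 2`.
-/

set_option autoImplicit false

open Filter Topology Finset

namespace Pool.Agent.Lib.MP_a17b09_nt.AS

open CH CH.PE HY SP
open PQ (B1 gw kerW Apx Fr0 DilW MrsQw StMrsW StEsW StAmW)
open AN (Ev ind wz wd Dens GWt)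
open AN.W98

/-- Theorem A for two weights, one of them with small mean squares -/
theorem core53 (hEs : StEsW) (hAm : StAmW) {ι : Type} [Fintype ι] (S : System ι) {z1 z2 : ℂ}
    (hz1 : ‖z1‖ = 1) (hz2 : ‖z2‖ = 1) {w1 w2 : ℕ → ℂ} (h1 : B1 w1) (h2 : B1 w2)
    (f1 : (Set.range w1).Finite) (f2 : (Set.range w2).Finite) (hd1 : DilW S z1 w1)
    (hd2 : DilW S z2 w2)
    (hM : (∀ Q : Form, Q.Pos → Q.D = S.d → ∀ K : ℕ, 0 < K → MrsQw Q w1 K) ∨
      (∀ Q : Form, Q.Pos → Q.D = S.d → ∀ K : ℕ, 0 < K → MrsQw Q w2 K))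
    {K : ℕ} (hK : 0 < K) {om : ι → V → V → ℂ} (hom : Wt S K om) (M : LMean) :
    NullM M S.Q (kerW S w1 w2 om) := by
  refine hAm ι S z1 z2 w1 w2 hz1 hz2 h1 h2 f1 f2 hd1 hd2 ?_ K hK om hom M
  refine hEs ι S w1 w2 h1 h2 ?_
  rcases hM with hM | hM
  · exact Or.inl fun i K hK => hM (S.Q i) (S.pos i) (S.disc i) K hK
  · exact Or.inr fun i K hK => hM (S.Q i) (S.pos i) (S.disc i) K hK

/-- (S1) -/
theorem stInW_53 (hMrs : ∀ d : ℕ, 0 < d → StMrsW d) (hEs : StEsW) (hAm : StAmW) : StInW := by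
  intro d hd A B δ δ' hA hB
  have hpos : ∀ m : ℕ, 0 < m → 0 < d * m ^ 2 := fun m hm => Nat.mul_pos hd (pow_pos hm 2)
  -- mean squares
  have hMz : ∀ (D : ℕ), 0 < D → ∀ (R : ℕ → Prop) (σ : ℝ), GWt D R σ → ∀ (z : ℂ) (k : ℕ), 0 < k →
      z ^ k = 1 → z ≠ 1 → ∀ Q : Form, Q.Pos → Q.D = D → ∀ K : ℕ, 0 < K →
      MrsQw Q (wz z R) K := by
    intro D hD R σ hR z k hk hz hz1 Q hQ hQD K hK
    have hzn : ‖z‖ = 1 := Complex.norm_eq_one_of_pow_eq_one hz hk.ne'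
    obtain ⟨c0, hc0, hA1, -⟩ := hR.apx
    exact hMrs D hD z hzn c0 hc0 (wz z R) (b1_wz hzn R) (hA1 z hzn)
      (hR.frz z k hk hz hz1) Q hQ hQD K hK
  have hMr : ∀ (D : ℕ), 0 < D → ∀ (R : ℕ → Prop) (σ : ℝ), GWt D R σ → ∀ Q : Form, Q.Pos →
      Q.D = D → ∀ K : ℕ, 0 < K → MrsQw Q (wd σ R) K := by
    intro D hD R σ hR Q hQ hQD K hK
    obtain ⟨c0, hc0, -, hA2⟩ := hR.apx
    exact hMrs D hD 1 norm_one c0 hc0 (wd σ R) (b1_wd hR.nonneg hR.le_one)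
      hA2 hR.fr Q hQ hQD K hK
  have hDb : ∀ {ι : Type} [Fintype ι] (S : System ι) (R : ℕ → Prop) (σ : ℝ), GWt S.d R σ →
      DilW S 1 (ind R) := by
    intro ι _ S R σ hR
    have h1 := (hR.dil ι S rfl).1 1 norm_one
    rwa [wz_one] at h1
  have hfb : ∀ R : ℕ → Prop, (Set.range (ind R)).Finite := fun R => by
    rw [← wz_one]
    exact fin_wz one_pos (one_pow 1) R
  refine ⟨?_, ?_, ?_⟩
  · intro z1 z2 k hk h1 h2 h12 ι _ S hS K hK om hom M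
    obtain ⟨m, hm, hSd⟩ := hS
    have hn1 : ‖z1‖ = 1 := Complex.norm_eq_one_of_pow_eq_one h1 hk.ne'
    have hn2 : ‖z2‖ = 1 := Complex.norm_eq_one_of_pow_eq_one h2 hk.ne'
    have gA := hA m hm
    have gB := hB m hm
    have hp := hpos m hm
    rw [← hSd] at gA gB hp
    refine core53 hEs hAm S hn1 hn2 (b1_wz hn1 A) (b1_wz hn2 B) (fin_wz hk h1 A)
      (fin_wz hk h2 B) ((gA.dil ι S rfl).1 z1 hn1) ((gB.dil ι S rfl).1 z2 hn2) ?_ hK hom M
    rcases h12 with h12 | h12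
    · exact Or.inl (hMz S.d hp A δ gA z1 k hk h1 h12)
    · exact Or.inr (hMz S.d hp B δ' gB z2 k hk h2 h12)
  · intro ι _ S hS K hK om hom M
    obtain ⟨m, hm, hSd⟩ := hS
    have gA := hA m hm
    have gB := hB m hm
    have hp := hpos m hm
    rw [← hSd] at gA gB hp
    exact core53 hEs hAm S norm_one norm_one (b1_wd gA.nonneg gA.le_one) (b1_ind B)
      (fin_wd δ A) (hfb B) (gA.dil ι S rfl).2 (hDb S B δ' gB) (Or.inl (hMr S.d hp A δ gA)) hK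
      hom M
  · intro ι _ S hS K hK om hom M
    obtain ⟨m, hm, hSd⟩ := hS
    have gA := hA m hm
    have gB := hB m hm
    have hp := hpos m hm
    rw [← hSd] at gA gB hp
    exact core53 hEs hAm S norm_one norm_one (b1_ind A) (b1_wd gB.nonneg gB.le_one)
      (hfb A) (fin_wd δ' B) (hDb S A δ gA) (gB.dil ι S rfl).2 (Or.inr (hMr S.d hp B δ' gB)) hK
      hom M

end Pool.Agent.Lib.MP_a17b09_nt.AS
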