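import Pool.Agent.Lib.MP_a17b09_nt.AN.SStmts3
import Pool.Agent.Lib.MP_a17b09_nt.SPH.FinA11
import Pool.Agent.Lib.MP_a17b09_nt.PQ.T3_64

/-!
Project AS (MP_a17b09_nt), S5 (helper11, fork of `SPH.FinA11` and `AN.FinG_98`): the law of two
slots for two events, in mean, from the twisted sums.
-/

set_option autoImplicit false

open Filter Topology Finset

namespace Pool.Agent.Lib.MP_a17b09_nt.AS

open CH CH.PE HY SP SPH CH.EndS
open AN (Ev ind wz wd Dens)
open SPH.FinA11 (count_eq OnP lim_card pair_null count_bdd)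

namespace L11

/-- the event without windows -/
def Ev0 : Ev := ⟨0, fun _ => 0, fun _ => 0, fun _ => 0⟩

theorem ev0_is (n : ℕ) : Ev0.Is n := fun i => i.elim0

theorem ev0_at (x : ℝ) (n : ℕ) : Ev0.At x n := fun i => i.elim0

theorem ev0_ok : Ev0.Ok := fun i => i.elim0

theorem ind_ev0 (n : ℕ) : ind Ev0.Is n = 1 := by
  unfold AN.ind
  rw [if_pos (ev0_is n)]

theorem ev0_dens : Dens Ev0 1 := by
  refine ⟨zero_le_one, le_rfl, ?_, ?_⟩
  · have h1 : ∀ N : ℕ, {n : ℕ | 1 ≤ n ∧ n ≤ N ∧ Ev0.Is n}.ncard = N := by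
      intro N
      have h : {n : ℕ | 1 ≤ n ∧ n ≤ N ∧ Ev0.Is n} = ((Finset.Icc 1 N : Finset ℕ) : Set ℕ) := by
        ext n
        simp [ev0_is]
      rw [h, Set.ncard_coe_finset, Nat.card_Icc, Nat.add_sub_cancel]
    refine tendsto_const_nhds.congr' ?_
    filter_upwards [eventually_ge_atTop 1] with N hN
    rw [h1, div_self]
    exact_mod_cast (show N ≠ 0 by omega)
  · intro ε hε
    refine ⟨[(1, [])], [], ?_, ?_, ?_, ?_, fun C _ => ⟨1, fun x _ n _ _ => ?_⟩⟩
    · intro t ht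
      rw [List.mem_singleton] at ht
      subst ht
      refine ⟨fun I hI => absurd hI List.not_mem_nil, ?_⟩
      simp
    · intro t ht
      exact absurd ht List.not_mem_nil
    · simp [AN.Cmb.lam]
      exact hε.le
    · simp [AN.Cmb.lam, AN.lam]
      exact hε.le
    · rw [if_pos (ev0_at x n)]
      simp [AN.Cmb.val, AN.tW, AN.tup]

theorem b1_ind (A : ℕ → Prop) (n : ℕ) : ‖ind A n‖ ≤ 1 := by
  unfold AN.ind
  split_ifs <;> simp

theorem b1_wd {δ : ℝ} (h0 : 0 ≤ δ) (h1 : δ ≤ 1) (A : ℕ → Prop) (n : ℕ) :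
    ‖AN.wd δ A n‖ ≤ 1 := by
  unfold AN.wd AN.ind
  split_ifs
  · rw [← Complex.ofReal_one, ← Complex.ofReal_sub, Complex.norm_real, Real.norm_eq_abs, abs_le]
    constructor <;> linarith
  · rw [zero_sub, norm_neg, Complex.norm_real, Real.norm_eq_abs, abs_le]
    constructor <;> linarith

variable {a b c : ℤ} {α β : ℝ} {h t0 : ℕ}

/-- the pairs are `O(N)`, so the twisted sums are bounded -/
theorem tw_bdd (hO : OnP a b c h t0 α β) {w1 w2 : ℕ → ℂ} (h1 : ∀ n, ‖w1 n‖ ≤ 1)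
    (h2 : ∀ n, ‖w2 n‖ ≤ 1) (o1 o2 : Option ℕ) :
    Bdd (fun N : ℕ => ‖TwPW a b c α β h t0 w1 w2 o1 o2 N‖ / N) := by
  obtain ⟨C, hC⟩ := hO
  refine ⟨|C|, fun N => ?_⟩
  rw [abs_of_nonneg (div_nonneg (norm_nonneg _) (Nat.cast_nonneg N))]
  rcases Nat.eq_zero_or_pos N with h0 | h0
  · subst h0
    simp
  · have hN : (0 : ℝ) < N := by exact_mod_cast h0
    rw [div_le_iff₀ hN]
    refine le_trans ?_ ((hC N).trans (mul_le_mul_of_nonneg_right (le_abs_self C) hN.le))
    unfold TwPW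
    refine (norm_sum_le _ _).trans ?_
    push_cast
    refine sum_le_sum fun t _ => ?_
    refine (norm_sum_le _ _).trans ?_
    rw [← nsmul_one, ← sum_const]
    refine sum_le_sum fun d _ => ?_
    rw [norm_mul]
    exact mul_le_one₀ (h1 _) (norm_nonneg _) (h2 _)

open Classical in
/-- the divisors with both events -/
noncomputable def NG (a b c : ℤ) (α β : ℝ) (A B : ℕ → Prop) (o1 o2 : Option ℕ) (t : ℕ) :
    Finset ℕ :=
  (nearG a b c α β t).filter (fun d => A (wslot a b c t d o1) ∧ B (wslot a b c t d o2))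

/-- `Ω a` for the cofactors -/
def cs (a : ℤ) : Option ℕ → ℕ
  | none => 0
  | some _ => Omn a.natAbs

theorem near_mem {t d : ℕ} (hd : d ∈ nearG a b c α β t) : d ∣ (fv a b c t).natAbs := by
  unfold nearG at hd
  exact Nat.dvd_of_mem_divisors (Finset.mem_filter.1 hd).1

theorem eslot_ne (hf : ∀ t : ℕ, fv a b c t ≠ 0) {t d : ℕ} (hd : d ∣ (fv a b c t).natAbs)
    (j : ℕ) : (fv a b c (t + j * d)).natAbs / d ≠ 0 := by
  have hpos : ∀ s : ℕ, (fv a b c s).natAbs ≠ 0 := fun s => Int.natAbs_ne_zero.2 (hf s)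
  have h1 : d ∣ (fv a b c (t + j * d)).natAbs := by
    rw [← Int.natCast_dvd] at hd ⊢
    have h2 : fv a b c (t + j * d) = fv a b c t +
        (d : ℤ) * (a * (2 * t * j + j ^ 2 * d) + b * j) := by
      rw [fv, fv]
      push_cast
      ring
    rw [h2]
    exact dvd_add hd (dvd_mul_right _ _)
  intro h0
  have h2 := Nat.mul_div_cancel' h1
  rw [h0, mul_zero] at h2
  exact hpos _ h2.symm

theorem om_w (ha : 0 < a) (hf : ∀ t : ℕ, fv a b c t ≠ 0) {t d : ℕ}
    (hd : d ∣ (fv a b c t).natAbs) (o : Option ℕ) :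
    Omn (wslot a b c t d o) = cs a o + Omn (eslot a b c t d o) := by
  cases o with
  | none =>
    show Omn d = 0 + Omn d
    rw [zero_add]
  | some j =>
    exact ArithmeticFunction.cardFactors_mul (Int.natAbs_ne_zero.2 ha.ne') (eslot_ne hf hd j)

/-- the twisted sum with the two events -/
theorem tw_eq (ha : 0 < a) (hf : ∀ t : ℕ, fv a b c t ≠ 0) (A B : ℕ → Prop) (z1 z2 : ℂ)
    (o1 o2 : Option ℕ) (N : ℕ) : TwPW a b c α β h t0 (wz z1 A) (wz z2 B) o1 o2 N =
      (z1 ^ cs a o1 * z2 ^ cs a o2) *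
      ∑ t ∈ (Finset.Icc 1 N).filter (fun t => t ≡ t0 [MOD h]),
        ∑ d ∈ NG a b c α β A B o1 o2 t, z1 ^ Omn (eslot a b c t d o1) *
          z2 ^ Omn (eslot a b c t d o2) := by
  classical
  unfold TwPW NG
  rw [Finset.mul_sum]
  refine Finset.sum_congr rfl fun t _ => ?_
  rw [Finset.sum_filter, Finset.mul_sum]
  refine Finset.sum_congr rfl fun d hd => ?_
  have hd' := near_mem hd
  unfold AN.wz AN.ind
  rw [om_w ha hf hd', om_w ha hf hd']
  by_cases h1 : A (wslot a b c t d o1)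
  · by_cases h2 : B (wslot a b c t d o2)
    · rw [if_pos h1, if_pos h2, if_pos ⟨h1, h2⟩, pow_add, pow_add]
      ring
    · simp [h2]
  · simp [h1]

theorem tw_bb (A B : ℕ → Prop) (o1 o2 : Option ℕ) (N : ℕ) :
    TwPW a b c α β h t0 (ind A) (ind B) o1 o2 N =
      (((∑ t ∈ (Finset.Icc 1 N).filter (fun t => t ≡ t0 [MOD h]),
        (NG a b c α β A B o1 o2 t).card : ℕ) : ℝ) : ℂ) := by
  classical
  unfold TwPW NG
  push_cast
  refine Finset.sum_congr rfl fun t _ => ?_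
  rw [Finset.card_filter]
  push_cast
  refine Finset.sum_congr rfl fun d _ => ?_
  unfold AN.ind
  by_cases h1 : A (wslot a b c t d o1)
  · by_cases h2 : B (wslot a b c t d o2)
    · rw [if_pos h1, if_pos h2, if_pos ⟨h1, h2⟩, mul_one]
    · simp [h2]
  · simp [h1]

/-- the product of the densities -/
theorem tw_split (A B : ℕ → Prop) (δ δ' : ℝ) (o1 o2 : Option ℕ) (N : ℕ) :
    TwPW a b c α β h t0 (ind A) (ind B) o1 o2 N -
      ((δ * δ' * ((∑ t ∈ (Finset.Icc 1 N).filter (fun t => t ≡ t0 [MOD h]),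
        (nearG a b c α β t).card : ℕ) : ℝ) : ℝ) : ℂ) =
      TwPW a b c α β h t0 (AN.wd δ A) (ind B) o1 o2 N +
        (δ : ℂ) * TwPW a b c α β h t0 (ind Ev0.Is) (AN.wd δ' B) o1 o2 N := by
  unfold TwPW
  push_cast
  rw [Finset.mul_sum, Finset.mul_sum, ← Finset.sum_sub_distrib, ← Finset.sum_add_distrib]
  refine Finset.sum_congr rfl fun t _ => ?_
  rw [← nsmul_one, ← Finset.sum_const, Finset.mul_sum, Finset.mul_sum, ← Finset.sum_sub_distrib,
    ← Finset.sum_add_distrib]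
  refine Finset.sum_congr rfl fun d _ => ?_
  rw [ind_ev0]
  unfold AN.wd
  ring

theorem NG_le (A B : ℕ → Prop) (o1 o2 : Option ℕ) (N : ℕ) :
    ∑ t ∈ (Finset.Icc 1 N).filter (fun t => t ≡ t0 [MOD h]), (NG a b c α β A B o1 o2 t).card ≤
      ∑ t ∈ (Finset.Icc 1 N).filter (fun t => t ≡ t0 [MOD h]), (nearG a b c α β t).card :=
  Finset.sum_le_sum fun t _ => Finset.card_le_card fun d hd => by
    classical
    unfold NG at hd
    exact (Finset.mem_filter.1 hd).1

/-- the count with both events and the classes -/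
noncomputable def CG (a b c : ℤ) (α β : ℝ) (h t0 : ℕ) (A B : ℕ → Prop) (o1 o2 : Option ℕ)
    (k r s N : ℕ) : ℕ :=
  ∑ t ∈ (Finset.Icc 1 N).filter (fun t => t ≡ t0 [MOD h]),
    ((NG a b c α β A B o1 o2 t).filter (fun d => Omn (eslot a b c t d o1) ≡ r [MOD k] ∧
      Omn (eslot a b c t d o2) ≡ s [MOD k])).card

theorem CG_sum (A B : ℕ → Prop) (o1 o2 : Option ℕ) {k : ℕ} (hk : 0 < k) (N : ℕ) :
    ∑ p ∈ range k ×ˢ range k, CG a b c α β h t0 A B o1 o2 k p.1 p.2 N =
      ∑ t ∈ (Finset.Icc 1 N).filter (fun t => t ≡ t0 [MOD h]),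
        (NG a b c α β A B o1 o2 t).card := by
  unfold CG
  rw [Finset.sum_comm]
  apply Finset.sum_congr rfl
  intro t _
  have h2 := Finset.card_eq_sum_card_fiberwise (s := NG a b c α β A B o1 o2 t)
    (t := range k ×ˢ range k)
    (f := fun d => (Omn (eslot a b c t d o1) % k, Omn (eslot a b c t d o2) % k)) (by
      intro d _
      simp only [Finset.coe_product, Set.mem_prod, Finset.mem_coe, Finset.mem_range]
      exact ⟨Nat.mod_lt _ hk, Nat.mod_lt _ hk⟩)
  rw [h2]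
  apply Finset.sum_congr rfl
  rintro ⟨r, s⟩ hp
  rw [Finset.mem_product, Finset.mem_range, Finset.mem_range] at hp
  congr 1
  apply Finset.filter_congr
  intro d _
  simp only [Prod.mk.injEq]
  unfold Nat.ModEq
  rw [Nat.mod_eq_of_lt hp.1, Nat.mod_eq_of_lt hp.2]

theorem CG_mod (A B : ℕ → Prop) (o1 o2 : Option ℕ) (k r s N : ℕ) :
    CG a b c α β h t0 A B o1 o2 k r s N = CG a b c α β h t0 A B o1 o2 k (r % k) (s % k) N := by
  unfold CG
  refine Finset.sum_congr rfl fun t _ => ?_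
  congr 1
  apply Finset.filter_congr
  intro d _
  unfold Nat.ModEq
  rw [Nat.mod_mod, Nat.mod_mod]

theorem CG_eq (hf : ∀ t : ℕ, fv a b c t ≠ 0) (A B : ℕ → Prop) (o1 o2 : Option ℕ)
    (k r s N : ℕ) : pairCount a b c h t0 α β (fun t d => A (wslot a b c t d o1) ∧
      B (wslot a b c t d o2) ∧ Omn (eslot a b c t d o1) ≡ r [MOD k] ∧
      Omn (eslot a b c t d o2) ≡ s [MOD k]) N = CG a b c α β h t0 A B o1 o2 k r s N := by
  classical
  rw [count_eq hf (fun t d => A (wslot a b c t d o1) ∧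
      B (wslot a b c t d o2) ∧ Omn (eslot a b c t d o1) ≡ r [MOD k] ∧
      Omn (eslot a b c t d o2) ≡ s [MOD k]) N]
  unfold CG NG
  refine Finset.sum_congr rfl fun t _ => ?_
  rw [Finset.filter_filter]
  congr 1
  ext d
  simp only [Finset.mem_filter]
  tauto

/-- the law of two slots, in mean -/
theorem law_mean (ha : 0 < a) (hf : ∀ t : ℕ, fv a b c t ≠ 0) (hO : OnP a b c h t0 α β) {κ : ℝ}
    (hκ : Tendsto (fun N : ℕ => (pairCount a b c h t0 α β (fun _ _ => True) N : ℝ) / N) atTop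
      (𝓝 κ)) (hT : TwEv a b c h t0 α β) {E E' : Ev} {δ δ' : ℝ} (hE : E.Ok) (hE' : E'.Ok)
    (hD : Dens E δ) (hD' : Dens E' δ') {k : ℕ} (hk : 0 < k) {o1 o2 : Option ℕ} (ho : o1 ≠ o2)
    (r s : ℕ) (M : LMean) :
    M.E (fun N : ℕ => |(pairCount a b c h t0 α β (fun t d => E.Is (wslot a b c t d o1) ∧
      E'.Is (wslot a b c t d o2) ∧ Omn (eslot a b c t d o1) ≡ r [MOD k] ∧
      Omn (eslot a b c t d o2) ≡ s [MOD k]) N : ℝ) / N - δ * δ' * κ / k ^ 2|) = 0 := by
  obtain ⟨hZ, hB1, -⟩ := hT E E' δ δ' hE hE' hD hD'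
  obtain ⟨-, -, hB2⟩ := hT Ev0 E' 1 δ' ev0_ok hE' ev0_dens hD'
  have hlim := lim_card hf hκ
  obtain ⟨C, hC⟩ := hO
  have hC0 : ∀ N : ℕ, ((∑ t ∈ (Finset.Icc 1 N).filter (fun t => t ≡ t0 [MOD h]),
      (nearG a b c α β t).card : ℕ) : ℝ) ≤ |C| * N := fun N =>
    (hC N).trans (mul_le_mul_of_nonneg_right (le_abs_self C) (Nat.cast_nonneg N))
  set T : ℕ → Finset ℕ := fun N => (Finset.Icc 1 N).filter (fun t => t ≡ t0 [MOD h]) with hTd
  set tot : ℕ → ℕ := fun N => ∑ t ∈ T N, (NG a b c α β E.Is E'.Is o1 o2 t).card with htot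
  set all : ℕ → ℕ := fun N => ∑ t ∈ T N, (nearG a b c α β t).card with hall
  have htotC : ∀ N : ℕ, (tot N : ℝ) ≤ |C| * N := fun N =>
    le_trans (by exact_mod_cast NG_le E.Is E'.Is o1 o2 N) (hC0 N)
  have hle : ∀ r s N : ℕ, CG a b c α β h t0 E.Is E'.Is o1 o2 k r s N ≤ tot N := by
    intro r s N
    exact Finset.sum_le_sum fun t _ => Finset.card_filter_le _ _
  have hbC : ∀ r s : ℕ, Bdd (fun N : ℕ => (CG a b c α β h t0 E.Is E'.Is o1 o2 k r s N : ℝ) / N) := by
    intro r s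
    refine PQ.T64.bdd_of_le (abs_nonneg C) (fun N => Nat.cast_nonneg _) fun N => ?_
    exact le_trans (by exact_mod_cast hle r s N) (htotC N)
  have hbT : Bdd (fun N : ℕ => (tot N : ℝ) / N) :=
    PQ.T64.bdd_of_le (abs_nonneg C) (fun N => Nat.cast_nonneg _) htotC
  have hbS : Bdd (fun N : ℕ => (all N : ℝ) / N) :=
    PQ.T64.bdd_of_le (abs_nonneg C) (fun N => Nat.cast_nonneg _) hC0
  have hOn : OnP a b c h t0 α β := ⟨C, hC⟩
  -- the total
  have hT0 : M.E (fun N : ℕ => |(tot N : ℝ) / N - δ * δ' * κ|) = 0 := by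
    have g1 := tw_bdd hOn (b1_wd hD.1 hD.2.1 E.Is) (b1_ind E'.Is) o1 o2
    have g2 := tw_bdd hOn (b1_ind Ev0.Is) (b1_wd hD'.1 hD'.2.1 E'.Is) o1 o2
    have b2 : Bdd (fun N : ℕ => |(all N : ℝ) / N - κ|) := (hbS.sub (Bdd.const κ)).abs
    have e3 : M.E (fun N : ℕ => |(all N : ℝ) / N - κ|) = 0 := by
      apply M.null _ b2
      have h1 := (hlim.sub_const κ).abs
      rw [sub_self, abs_zero] at h1
      exact h1
    refine le_antisymm ?_ (M.nonneg _ (hbT.sub (Bdd.const _)).abs fun N => abs_nonneg _)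
    calc M.E (fun N : ℕ => |(tot N : ℝ) / N - δ * δ' * κ|) ≤
        M.E (fun N : ℕ => ‖TwPW a b c α β h t0 (AN.wd δ E.Is) (ind E'.Is) o1 o2 N‖ / N +
          (|δ| * (‖TwPW a b c α β h t0 (ind Ev0.Is) (AN.wd δ' E'.Is) o1 o2 N‖ / N) +
          |δ * δ'| * |(all N : ℝ) / N - κ|)) := by
          refine M.mono (hbT.sub (Bdd.const _)).abs
            (g1.add ((g2.smul _).add (b2.smul _))) fun N => ?_
          have e4 : (tot N : ℝ) / N - δ * δ' * κ = ((tot N : ℝ) - δ * δ' * all N) / N +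
              δ * δ' * ((all N : ℝ) / N - κ) := by ring
          rw [e4]
          refine (abs_add_le _ _).trans ?_
          rw [← add_assoc, abs_mul (δ * δ')]
          refine add_le_add ?_ le_rfl
          have e5 : (((tot N : ℝ) - δ * δ' * all N : ℝ) : ℂ) =
              TwPW a b c α β h t0 (AN.wd δ E.Is) (ind E'.Is) o1 o2 N +
              (δ : ℂ) * TwPW a b c α β h t0 (ind Ev0.Is) (AN.wd δ' E'.Is) o1 o2 N := by
            rw [← tw_split, tw_bb, ← Complex.ofReal_sub]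
          rw [abs_div, Nat.abs_cast, ← Real.norm_eq_abs, ← Complex.norm_real, e5]
          have e6 := norm_add_le (TwPW a b c α β h t0 (AN.wd δ E.Is) (ind E'.Is) o1 o2 N)
            ((δ : ℂ) * TwPW a b c α β h t0 (ind Ev0.Is) (AN.wd δ' E'.Is) o1 o2 N)
          rw [norm_mul, Complex.norm_real, Real.norm_eq_abs] at e6
          calc _ ≤ (‖TwPW a b c α β h t0 (AN.wd δ E.Is) (ind E'.Is) o1 o2 N‖ + |δ| *
                ‖TwPW a b c α β h t0 (ind Ev0.Is) (AN.wd δ' E'.Is) o1 o2 N‖) / (N : ℝ) :=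
                div_le_div_of_nonneg_right e6 (Nat.cast_nonneg N)
            _ = _ := by ring
      _ = 0 := by
          rw [M.add _ _ g1 ((g2.smul _).add (b2.smul _)), M.add _ _ (g2.smul _) (b2.smul _),
            M.smul _ _ g2, M.smul _ _ b2, hB1 o1 o2 ho M, hB2 o1 o2 ho M, e3, mul_zero, mul_zero,
            add_zero, add_zero]
  -- the shares
  have hsh := PQ.T64.shareM M (range k ×ˢ range k)
    (fun p N => (CG a b c α β h t0 E.Is E'.Is o1 o2 k p.1 p.2 N : ℝ)) (fun p _ => hbC p.1 p.2)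
    (fun p _ p' _ => TopJ90.inv2 M k hk T (NG a b c α β E.Is E'.Is o1 o2)
        (fun t d => Omn (eslot a b c t d o1)) (fun t d => Omn (eslot a b c t d o2))
        ⟨|C|, htotC⟩ (fun z1 z2 h1 h2 h3 => by
          have hn1 : ‖z1‖ = 1 := Complex.norm_eq_one_of_pow_eq_one h1 hk.ne'
          have hn2 : ‖z2‖ = 1 := Complex.norm_eq_one_of_pow_eq_one h2 hk.ne'
          refine Eq.trans ?_ (hZ z1 z2 k hk h1 h2 h3 o1 o2 ho M)
          congr 1
          funext N
          rw [tw_eq ha hf, norm_mul, norm_mul, norm_pow, norm_pow, hn1, hn2, one_pow, one_pow,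
            one_mul, one_mul]) p.1 p.2 p'.1 p'.2)
    (κ := δ * δ' * κ) (by
      refine Eq.trans ?_ hT0
      congr 1
      funext N
      have h1 := CG_sum (a := a) (b := b) (c := c) (α := α) (β := β) (h := h) (t0 := t0) E.Is
        E'.Is o1 o2 hk N
      have h2 : (∑ p ∈ range k ×ˢ range k,
          (CG a b c α β h t0 E.Is E'.Is o1 o2 k p.1 p.2 N : ℝ)) = (tot N : ℝ) := by
        rw [htot]
        beta_reduce
        rw [← h1]
        push_cast
        rfl
      rw [h2]) (r % k, s % k) (by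
      rw [Finset.mem_product, Finset.mem_range, Finset.mem_range]
      exact ⟨Nat.mod_lt _ hk, Nat.mod_lt _ hk⟩)
  have hcard : ((range k ×ˢ range k).card : ℝ) = (k : ℝ) ^ 2 := by
    rw [Finset.card_product, Finset.card_range]
    push_cast
    ring
  rw [hcard] at hsh
  refine Eq.trans ?_ hsh
  congr 1
  funext N
  rw [CG_eq hf, CG_mod]

end L11

open L11 in
/-- row S5 -/
theorem stLawS_11 : StLawS := by
  intro a b c ha hf h hh t0 α β hα hαβ hO hT κ hκ hlim E E' δ δ' hE hE' hD hD' k hk r s ε hε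
  refine ⟨fun j => ?_, fun j l hjl => ?_⟩
  · exact pair_null hf hO _ _ (fun M => law_mean ha hf hO hlim hT hE hE' hD hD' hk (o1 := none)
      (o2 := some j) (by simp) r s M) hε
  · exact pair_null hf hO _ _ (fun M => law_mean ha hf hO hlim hT hE hE' hD hD' hk (o1 := some j)
      (o2 := some l) (fun h => hjl (Option.some.inj h)) r s M) hε

end Pool.Agent.Lib.MP_a17b09_nt.AS
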