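import Pool.Agent.Lib.MP_a17b09_nt.AN.SStmts3
import Pool.Agent.Lib.MP_a17b09_nt.SPH.NullL57

/-!
AS (MP_a17b09_nt), row S2H: Theorem A for the kernel with two weights at two vectors of the frame,
positive discriminant.  helper42.  Fork of `SPH/NullL57`.
-/

set_option autoImplicit false

open Filter Topology Finset

namespace Pool.Agent.Lib.MP_a17b09_nt.AS

open CH HY SP
open PQ (B1 gw)
open PQH (kerHW)
open SPH (StHSysL StHRegL StUnfA)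
open SPH.NH57 (lin_act hk_fin gH gH_act WT per_eq lift_sol)

namespace NH42

/-- the kernel is invariant -/
theorem kerHLW_ainv {ι : Type} {S : HSystem ι} {K : ℕ} {om : ι → V → V → ℂ} (hom : HWt S K om)
    (w1 w2 : ℕ → ℂ) (e1 e2 : ℕ × ℕ) (a : Pell.Solution₁ (S.d : ℤ)) (i : ι) :
    AInv (S.Q i) a (kerHLW S w1 w2 e1 e2 om i) := by
  intro v v'
  unfold kerHLW gw
  rw [hom.aut i a v v', lin_act, lin_act, q_act (S.hyp i), q_act (S.hyp i)]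

theorem norm3_le {a b e : ℂ} {c : ℝ} (hc : 0 ≤ c) (ha : ‖a‖ ≤ c) (hb : ‖b‖ ≤ 1) (he : ‖e‖ ≤ 1) :
    ‖a * b * e‖ ≤ c := by
  rw [norm_mul, norm_mul]
  calc ‖a‖ * ‖b‖ * ‖e‖ ≤ c * 1 * 1 :=
        mul_le_mul (mul_le_mul ha hb (norm_nonneg _) hc) he (norm_nonneg _) (by linarith)
    _ = c := by ring

/-- the sum over the frames of `S'` is a sum over the frames of `S` -/
theorem transfer (hUnf : StUnfA) {ι ι' : Type} [Fintype ι'] (S : HSystem ι) (S' : HSystem ι')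
    (w1 w2 : ℕ → ℂ) (e1 e2 : ℕ × ℕ) (om : ι → V → V → ℂ) (om' : ι' → V → V → ℂ)
    (P : Set (ι' × V × V)) (T : ι' × V × V → ι × V × V)
    (hP1 : ∀ t ∈ P, wd t.2.1 t.2.2 = 1)
    (hP2 : ∀ t, t ∉ P → wd t.2.1 t.2.2 = 1 → om' t.1 t.2.1 t.2.2 = 0)
    (hT : Set.BijOn T P {f : ι × V × V | wd f.2.1 f.2.2 = 1})
    (hPT : ∀ t ∈ P, om' t.1 t.2.1 t.2.2 = om (T t).1 (T t).2.1 (T t).2.2 ∧
      (S'.Q t.1).q t.2.1 = (S.Q (T t).1).q (lin e1 (T t).2.1 (T t).2.2) ∧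
      (S'.Q t.1).q t.2.2 = (S.Q (T t).1).q (lin e2 (T t).2.1 (T t).2.2) ∧
      (Cn (S'.Q t.1) t.2.1 ↔ Cn (S.Q (T t).1) (lin e1 (T t).2.1 (T t).2.2)) ∧
      (Cn (S'.Q t.1) t.2.2 ↔ Cn (S.Q (T t).1) (lin e2 (T t).2.1 (T t).2.2)))
    (a' : Pell.Solution₁ (S'.d : ℤ)) (b : Pell.Solution₁ (S.d : ℤ)) (ha' : PP a') (hb : PP b)
    (hper : per b = per a')
    (hτ : ∀ t ∈ P, (t.1, act (S'.Q t.1) a' t.2.1, act (S'.Q t.1) a' t.2.2) ∈ P ∧
      T (t.1, act (S'.Q t.1) a' t.2.1, act (S'.Q t.1) a' t.2.2) =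
        ((T t).1, act (S.Q (T t).1) b (T t).2.1, act (S.Q (T t).1) b (T t).2.2))
    (hτ' : ∀ t ∈ P, (t.1, act (S'.Q t.1) a'⁻¹ t.2.1, act (S'.Q t.1) a'⁻¹ t.2.2) ∈ P)
    (hinv : ∀ i, AInv (S.Q i) b (kerHLW S w1 w2 e1 e2 om i)) (hl : ℝ → ℝ → ℝ) (N : ℝ)
    (hfin' : ∀ i, (Function.support (hkk (S'.Q i) (per a') hl (kerHW S' w1 w2 om' i) 1 N)).Finite)
    (hcone : ∀ f : ι × V × V, wd f.2.1 f.2.2 = 1 →
      gH S e1 e2 hl (kerHLW S w1 w2 e1 e2 om) N f ≠ 0 →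
        Cn (S.Q f.1) f.2.1 ∧ Cn (S.Q f.1) f.2.2)
    (hfin2 : (WT S (per a') ∩
      Function.support (gH S e1 e2 hl (kerHLW S w1 w2 e1 e2 om) N)).Finite) :
    ∑ i, ∑' f : V × V, hkk (S'.Q i) (per a') hl (kerHW S' w1 w2 om' i) 1 N f =
      ∑ᶠ f ∈ WT S (per a'), gH S e1 e2 hl (kerHLW S w1 w2 e1 e2 om) N f := by
  classical
  obtain ⟨hfB, heB⟩ := hk_fin S'.Q (per a') hl (kerHW S' w1 w2 om') N hfin'
  have hT' : ∀ t ∈ P, wd (T t).2.1 (T t).2.2 = 1 := fun t ht => hT.mapsTo ht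
  -- the terms in `P`
  have hval : ∀ t ∈ P, hkk (S'.Q t.1) (per a') hl (kerHW S' w1 w2 om' t.1) 1 N t.2 =
      if 0 ≤ ps (S'.Q t.1) t.2.1 ∧ ps (S'.Q t.1) t.2.1 < per a' then
        gH S e1 e2 hl (kerHLW S w1 w2 e1 e2 om) N (T t) else 0 := by
    intro t ht
    obtain ⟨h1, h2, h3, h4, h5⟩ := hPT t ht
    have hw := hP1 t ht
    unfold hkk gH kerHW kerHLW gw Form.nr
    rw [h1, h2, h3]
    by_cases hs : 0 ≤ ps (S'.Q t.1) t.2.1 ∧ ps (S'.Q t.1) t.2.1 < per a'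
    · rw [if_pos hs]
      by_cases hc : Cn (S.Q (T t).1) (lin e1 (T t).2.1 (T t).2.2) ∧
          Cn (S.Q (T t).1) (lin e2 (T t).2.1 (T t).2.2)
      · rw [if_pos hc, if_pos]
        exact ⟨N57.prim_left hw, N57.prim_right hw, ⟨h4.2 hc.1, hs⟩, h5.2 hc.2, hw⟩
      · rw [if_neg hc, if_neg]
        rintro ⟨-, -, h6, h7, -⟩
        exact hc ⟨h4.1 h6.1, h5.1 h7⟩
    · rw [if_neg hs, if_neg]
      rintro ⟨-, -, h6, -, -⟩
      exact hs h6.2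
  have hzero : ∀ t, t ∉ P → hkk (S'.Q t.1) (per a') hl (kerHW S' w1 w2 om' t.1) 1 N t.2 = 0 := by
    intro t ht
    unfold hkk kerHW
    split_ifs with hc
    · rw [hP2 t ht hc.2.2.2.2]
      ring
    · rfl
  -- the bijection
  obtain ⟨τ, hτdef⟩ : ∃ τ : Equiv.Perm P, ∀ t : P, ((τ t : P) : ι' × V × V) =
      (t.1.1, act (S'.Q t.1.1) a' t.1.2.1, act (S'.Q t.1.1) a' t.1.2.2) := by
    refine ⟨⟨fun t => ⟨(t.1.1, act (S'.Q t.1.1) a' t.1.2.1, act (S'.Q t.1.1) a' t.1.2.2),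
      (hτ t.1 t.2).1⟩, fun t => ⟨(t.1.1, act (S'.Q t.1.1) a'⁻¹ t.1.2.1,
        act (S'.Q t.1.1) a'⁻¹ t.1.2.2), hτ' t.1 t.2⟩, ?_, ?_⟩, fun t => rfl⟩
    · intro t
      apply Subtype.ext
      simp only
      rw [P54.act_inv_act (S'.hyp t.1.1), P54.act_inv_act (S'.hyp t.1.1)]
    · intro t
      apply Subtype.ext
      simp only
      rw [P54.act_act_inv (S'.hyp t.1.1), P54.act_act_inv (S'.hyp t.1.1)]
  obtain ⟨F, hF⟩ : ∃ F : P → ℂ,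
      F = fun t => gH S e1 e2 hl (kerHLW S w1 w2 e1 e2 om) N (T t.1) := ⟨_, rfl⟩
  obtain ⟨θ1, hθ1⟩ : ∃ θ1 : P → ℝ, θ1 = fun t => ps (S'.Q t.1.1) t.1.2.1 := ⟨_, rfl⟩
  obtain ⟨θ2, hθ2⟩ : ∃ θ2 : P → ℝ, θ2 = fun t => ps (S.Q (T t.1).1) (T t.1).2.1 := ⟨_, rfl⟩
  have hTτ : ∀ t : P, T (τ t).1 = ((T t.1).1, act (S.Q (T t.1).1) b (T t.1).2.1,
      act (S.Q (T t.1).1) b (T t.1).2.2) := by
    intro t
    rw [hτdef t]
    exact (hτ t.1 t.2).2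
  have hFτ : ∀ t, F (τ t) = F t := by
    intro t
    rw [hF]
    simp only
    rw [hTτ t, gH_act S e1 e2 hl _ N hb hinv]
  have hcn : ∀ t : P, F t ≠ 0 → Cn (S'.Q t.1.1) t.1.2.1 ∧ Cn (S.Q (T t.1).1) (T t.1).2.1 := by
    intro t ht
    rw [hF] at ht
    simp only at ht
    refine ⟨?_, (hcone (T t.1) (hT' t.1 t.2) ht).1⟩
    unfold gH at ht
    split_ifs at ht with hc
    · exact (hPT t.1 t.2).2.2.2.1.2 hc.1
    · exact absurd rfl ht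
  have hθ : ∀ t, F t ≠ 0 → θ1 (τ t) = θ1 t + per a' ∧ θ2 (τ t) = θ2 t + per a' := by
    intro t ht
    obtain ⟨h1, h2⟩ := hcn t ht
    constructor
    · rw [hθ1]
      simp only
      rw [hτdef t]
      simp only
      exact ps_act (S'.hyp t.1.1) ha' h1
    · rw [hθ2]
      simp only
      rw [hTτ t]
      simp only
      rw [← hper]
      exact ps_act (S.hyp (T t.1).1) hb h2
  have hf1 : {t | F t ≠ 0 ∧ 0 ≤ θ1 t ∧ θ1 t < per a'}.Finite := by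
    refine (hfB.preimage (Subtype.val_injective.injOn)).subset ?_
    rintro t ⟨h1, h2⟩
    rw [Set.mem_preimage, Function.mem_support, hval t.1 t.2]
    rw [hθ1] at h2
    rw [if_pos h2]
    rw [hF] at h1
    exact h1
  have hinjT : Function.Injective (fun t : P => T t.1) := by
    intro s t hst
    exact Subtype.ext (hT.injOn s.2 t.2 hst)
  have hf2 : {t | F t ≠ 0 ∧ 0 ≤ θ2 t ∧ θ2 t < per a'}.Finite := by
    refine (hfin2.preimage (hinjT.injOn)).subset ?_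
    rintro t ⟨h1, h2⟩
    rw [hF] at h1
    rw [hθ2] at h2
    exact ⟨⟨hT' t.1 t.2, h2⟩, h1⟩
  have hmain := hUnf P τ (per a') (per_pos ha') θ1 θ2 F hFτ hθ hf1 hf2
  -- the left side
  have hL : ∑ᶠ t : ι' × V × V, hkk (S'.Q t.1) (per a') hl (kerHW S' w1 w2 om' t.1) 1 N t.2 =
      ∑ᶠ t ∈ {t | 0 ≤ θ1 t ∧ θ1 t < per a'}, F t := by
    have e1 : ∑ᶠ t : ι' × V × V, hkk (S'.Q t.1) (per a') hl (kerHW S' w1 w2 om' t.1) 1 N t.2 =
        ∑ᶠ t ∈ P, hkk (S'.Q t.1) (per a') hl (kerHW S' w1 w2 om' t.1) 1 N t.2 := by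
      rw [← finsum_mem_univ]
      apply finsum_mem_inter_support_eq'
      intro t ht
      constructor
      · intro _
        by_contra hc
        exact ht (hzero t hc)
      · intro _
        exact Set.mem_univ t
    rw [e1, ← finsum_set_coe_eq_finsum_mem, finsum_mem_def]
    refine finsum_congr fun t => ?_
    rw [hval t.1 t.2, Set.indicator_apply, hF, hθ1]
    rfl
  have hR : ∑ᶠ t ∈ {t | 0 ≤ θ2 t ∧ θ2 t < per a'}, F t =
      ∑ᶠ f ∈ WT S (per a'), gH S e1 e2 hl (kerHLW S w1 w2 e1 e2 om) N f := by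
    apply finsum_mem_eq_of_bijOn (fun t : P => T t.1)
    · refine ⟨?_, hinjT.injOn, ?_⟩
      · intro t ht
        rw [hθ2] at ht
        exact ⟨hT' t.1 t.2, ht⟩
      · rintro f ⟨hf1, hf2⟩
        obtain ⟨t, ht, rfl⟩ := hT.surjOn hf1
        refine ⟨⟨t, ht⟩, ?_, rfl⟩
        rw [hθ2]
        exact hf2
    · intro t _
      rw [hF]
  rw [heB, hL, hmain, hR]

end NH42

open NH42 in
/-- **(S2H)** -/
theorem stHNullLW_42 (hSys : StHSysL) (hTest : StTestL) (hReg : StHRegL) (hUnf : StUnfA)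
    (hC0 : StHC0) (hMd : StMd) (hPer : StHper) (hPow : StHpow) : StHNullLW := by
  intro d hd w1 w2 hw1 hw2 hA ι _ S hSd e1 e2 hadm K hK om hom a ha M δ h hδ hh
  classical
  obtain ⟨m, hm0, hm⟩ : ∃ m : ℕ, 0 < m ∧ m + e2.1 * e1.2 = e1.1 * e2.2 := by
    rcases hadm with ⟨h1, h2, h3⟩ | ⟨h1, h2⟩
    · refine ⟨e1.1 - e2.1, by omega, ?_⟩
      rw [h1, h2]
      omega
    · refine ⟨1, one_pos, ?_⟩
      rw [h1, h2]
      simp
  obtain ⟨ι', _, S', K', om', P, T, hd', hK', hom', hP1, hP2, hT, hPT, hEq⟩ :=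
    hSys ι S e1 e2 hadm m hm K hK om hom
  obtain ⟨hkp, δ', hδ', hh'⟩ := hTest e1 e2 m hm0 hm δ h hδ hh
  -- the solutions
  obtain ⟨m1, hm1, hPK⟩ := hPow S.d a m hm0
  obtain ⟨b, hbdef⟩ : ∃ b : Pell.Solution₁ (S.d : ℤ), b = a ^ m1 := ⟨_, rfl⟩
  have hb : PP b := by
    rw [hbdef]
    exact (P54.pp_pow ha hm1).1
  obtain ⟨a', hax, hay, ha'⟩ := lift_sol hd' hm0 b hb (by rw [hbdef]; exact hPK.2)
  have hper : per b = per a' := per_eq hd' a' b hax hay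
  have hτ : ∀ t ∈ P, (t.1, act (S'.Q t.1) a' t.2.1, act (S'.Q t.1) a' t.2.2) ∈ P ∧
      T (t.1, act (S'.Q t.1) a' t.2.1, act (S'.Q t.1) a' t.2.2) =
        ((T t).1, act (S.Q (T t).1) b (T t).2.1, act (S.Q (T t).1) b (T t).2.2) := by
    obtain ⟨b2, h1, h2, h3⟩ := hEq a'
    have h4 : b2 = b := Pell.Solution₁.ext (h1.trans hax.symm) (h2.trans hay.symm)
    rw [h4] at h3
    exact h3
  have hτ' : ∀ t ∈ P, (t.1, act (S'.Q t.1) a'⁻¹ t.2.1, act (S'.Q t.1) a'⁻¹ t.2.2) ∈ P := by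
    obtain ⟨b2, h1, h2, h3⟩ := hEq a'⁻¹
    exact fun t ht => (h3 t ht).1
  have hinv : ∀ i, AInv (S.Q i) b (kerHLW S w1 w2 e1 e2 om i) :=
    fun i => kerHLW_ainv hom w1 w2 e1 e2 b i
  have hNull := hA ι' S' ⟨m, hm0, by rw [hd', hSd]⟩ K' hK' om' hom' a' ha' M
    δ' _ hδ' hh'
  obtain ⟨hl, hhl⟩ : ∃ hl : ℝ → ℝ → ℝ, hl = hL e1 e2 m h := ⟨_, rfl⟩
  rw [← hhl] at hh' hNull
  obtain ⟨Tp, hTp⟩ : ∃ Tp : ℝ, Tp = per a' := ⟨_, rfl⟩
  have hTp0 : 0 < Tp := by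
    rw [hTp]
    exact per_pos ha'
  rw [← hTp] at hNull
  -- bounds of the kernels
  obtain ⟨c, hc0, hc⟩ := TopA60.hom_bdd hK hom
  obtain ⟨c', hc0', hc'⟩ := TopA60.hom_bdd hK' hom'
  have hU : ∀ i v v', ‖kerHLW S w1 w2 e1 e2 om i v v'‖ ≤ c := by
    intro i v v'
    unfold kerHLW
    exact norm3_le hc0 (hc i v v') (hw1 _) (hw2 _)
  have hU' : ∀ i v v', ‖kerHW S' w1 w2 om' i v v'‖ ≤ c' := by
    intro i v v'
    unfold kerHW
    exact norm3_le hc0' (hc' i v v') (hw1 _) (hw2 _)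
  -- the period
  have hchg : (fun n : ℕ => ‖∑ i, Hk (S.Q i) (per a) h (kerHLW S w1 w2 e1 e2 om i) 1 n‖) =
      fun n : ℕ => ‖∑ i, Hk (S.Q i) Tp h (kerHLW S w1 w2 e1 e2 om i) 1 n‖ := by
    funext n
    congr 1
    refine Finset.sum_congr rfl fun i _ => ?_
    have h1 := (hPer S.d (S.Q i) (S.hyp i) a ha m1 hm1).2.2 δ h hδ hh
      (kerHLW S w1 w2 e1 e2 om i) (kerHLW_ainv hom w1 w2 e1 e2 a i) 1 (n : ℝ)
    rw [← hbdef, hper, ← hTp] at h1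
    exact h1.symm
  rw [hchg]
  -- the two functions
  obtain ⟨D, hD⟩ : ∃ D : ℝ → ℂ,
      D = fun x => ∑ i, Hk (S.Q i) Tp h (kerHLW S w1 w2 e1 e2 om i) 1 x := ⟨_, rfl⟩
  obtain ⟨D', hD'⟩ : ∃ D' : ℝ → ℂ,
      D' = fun x => ∑ i, Hk (S'.Q i) Tp hl (kerHW S' w1 w2 om' i) 1 x := ⟨_, rfl⟩
  obtain ⟨CD, hCD⟩ : ∃ C, SVc C D := by
    rw [hD]
    exact TopM.svc_sum (fun i x => Hk (S.Q i) Tp h (kerHLW S w1 w2 e1 e2 om i) 1 x)
      (fun i => (hC0 S.d (S.Q i) (S.hyp i) Tp hTp0 δ h hδ hh).2.2 1 _ c (hU i))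
  obtain ⟨CD', hCD'⟩ : ∃ C, SVc C D' := by
    rw [hD']
    exact TopM.svc_sum (fun i x => Hk (S'.Q i) Tp hl (kerHW S' w1 w2 om' i) 1 x)
      (fun i => (hC0 S'.d (S'.Q i) (S'.hyp i) Tp hTp0 δ' hl hδ' hh').2.2 1 _ c' (hU' i))
  obtain ⟨κ, hκ⟩ : ∃ κ : ℝ, κ = ((kp e1 e2 : ℝ)) ^ 2 := ⟨_, rfl⟩
  have hκ1 : 1 ≤ κ := by
    rw [hκ]
    have h1 : (1 : ℝ) ≤ (kp e1 e2 : ℝ) := by exact_mod_cast hkp
    nlinarith
  have hκ0 : 0 < κ := by linarith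
  have hCD0 : 0 ≤ CD' := (norm_nonneg _).trans (hCD'.1 1)
  -- dilation
  have hFs : SVc CD' (fun x => D' (κ * x)) := by
    refine ⟨fun x => hCD'.1 _, fun x y hx hxy => ?_⟩
    have h1 := hCD'.2 (κ * x) (κ * y) (by nlinarith) (by nlinarith)
    refine h1.trans (le_of_eq ?_)
    have hx0 : x ≠ 0 := by linarith
    have hk0 : κ ≠ 0 := hκ0.ne'
    field_simp
  have hkp2 : 0 < kp e1 e2 ^ 2 := by positivity
  have hdil := (hMd M (fun x => D' (κ * x)) CD' hFs (kp e1 e2 ^ 2) hkp2).1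
  have hdil2 : M.E (fun n : ℕ => ‖D' (κ * (n : ℝ))‖) = 0 := by
    rw [← hdil]
    have h1 : (fun n : ℕ => ‖D' (κ * ((n : ℝ) / ((kp e1 e2 ^ 2 : ℕ) : ℝ)))‖) =
        fun n : ℕ => ‖D' n‖ := by
      funext n
      have h2 : κ * ((n : ℝ) / ((kp e1 e2 ^ 2 : ℕ) : ℝ)) = n := by
        rw [hκ]
        have h3 : (kp e1 e2 : ℝ) ≠ 0 := by exact_mod_cast hkp.ne'
        push_cast
        field_simp
      rw [h2]
    rw [h1, hD']
    exact hNull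
  -- the comparison
  have hcn := fun i => (hReg S.d (S.Q i) (S.hyp i) e1 e2 m hm0 hm Tp hTp0 δ h hδ hh).1
  have hreg := fun i => (hReg S.d (S.Q i) (S.hyp i) e1 e2 m hm0 hm Tp hTp0 δ h hδ hh).2
  choose CR nR hR using hreg
  rw [← hκ, ← hhl] at hR
  obtain ⟨n1, hn1⟩ : ∃ n1 : ℕ, n1 = ∑ i, nR i + 1 := ⟨_, rfl⟩
  have hnR : ∀ i, nR i ≤ n1 := by
    intro i
    have h1 := Finset.single_le_sum (f := nR) (fun j _ => Nat.zero_le _) (Finset.mem_univ i)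
    omega
  obtain ⟨C', hC'⟩ : ∃ C' : ℝ, C' = c * ∑ i, |CR i| := ⟨_, rfl⟩
  have hcmp : ∀ n : ℕ, n1 ≤ n → ‖D n‖ ≤ κ * ‖D' (κ * n)‖ + (C' / Tp) / n := by
    intro n hn
    have hn0 : 0 < n := by omega
    have hn0' : (0 : ℝ) < n := by exact_mod_cast hn0
    have hN0 : (0 : ℝ) < κ * n := by positivity
    obtain ⟨hfA, heA⟩ := hk_fin S.Q Tp h (kerHLW S w1 w2 e1 e2 om) n
      (fun i => (hC0 S.d (S.Q i) (S.hyp i) Tp hTp0 δ h hδ hh).1 _ 1 _)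
    have hgne : ∀ f : ι × V × V, gH S e1 e2 hl (kerHLW S w1 w2 e1 e2 om) (κ * n) f ≠ 0 →
        Cn (S.Q f.1) (lin e1 f.2.1 f.2.2) ∧ Cn (S.Q f.1) (lin e2 f.2.1 f.2.2) ∧
        hl ((S.Q f.1).nr (κ * n) (lin e1 f.2.1 f.2.2))
          ((S.Q f.1).nr (κ * n) (lin e2 f.2.1 f.2.2)) ≠ 0 := by
      intro f hf
      unfold gH at hf
      split_ifs at hf with hc1
      · refine ⟨hc1.1, hc1.2, fun h0 => hf ?_⟩
        rw [h0, Complex.ofReal_zero, zero_mul]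
      · exact absurd rfl hf
    have hcone : ∀ f : ι × V × V, wd f.2.1 f.2.2 = 1 →
        gH S e1 e2 hl (kerHLW S w1 w2 e1 e2 om) (κ * n) f ≠ 0 →
          Cn (S.Q f.1) f.2.1 ∧ Cn (S.Q f.1) f.2.2 := by
      intro f hf hg
      obtain ⟨h1, h2, h3⟩ := hgne f hg
      exact (hR f.1 n ((hnR f.1).trans hn)).1 f.2.1 f.2.2 hf h1 h2 h3
    have hfin2 : (WT S Tp ∩
        Function.support (gH S e1 e2 hl (kerHLW S w1 w2 e1 e2 om) (κ * n))).Finite := by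
      have h1 : ∀ i : ι, (Prod.mk i '' {f : V × V | wd f.1 f.2 = 1 ∧ Sec (S.Q i) Tp f.1 ∧
          Cn (S.Q i) f.2 ∧ (h ((S.Q i).nr n f.1) ((S.Q i).nr n f.2) ≠ 0 ∨
            hl ((S.Q i).nr (κ * n) (lin e1 f.1 f.2))
              ((S.Q i).nr (κ * n) (lin e2 f.1 f.2)) ≠ 0)}).Finite :=
        fun i => ((hR i n ((hnR i).trans hn)).2.1).image _
      refine (Set.finite_iUnion h1).subset ?_
      rintro ⟨i, f⟩ ⟨⟨h2, h3⟩, h4⟩
      rw [Set.mem_iUnion]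
      obtain ⟨h5, h6⟩ := hcone ⟨i, f⟩ h2 h4
      exact ⟨i, f, ⟨h2, ⟨h5, h3⟩, h6, Or.inr (hgne ⟨i, f⟩ h4).2.2⟩, rfl⟩
    have hB := transfer hUnf S S' w1 w2 e1 e2 om om' P T hP1 hP2 hT hPT a' b ha' hb hper hτ hτ'
      hinv hl (κ * n) (fun i => (hC0 S'.d (S'.Q i) (S'.hyp i) (per a') (per_pos ha') δ' hl hδ'
        hh').1 _ 1 _) hcone (by rw [← hTp]; exact hfin2)
    rw [← hTp] at hB
    obtain ⟨F, hF⟩ : ∃ F : Finset (ι × V × V), F = (hfA.union hfin2).toFinset := ⟨_, rfl⟩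
    have hFW : ∀ f ∈ F, wd f.2.1 f.2.2 = 1 ∧ Sec (S.Q f.1) Tp f.2.1 ∧ Cn (S.Q f.1) f.2.2 := by
      intro f hf
      rw [hF, Set.Finite.mem_toFinset] at hf
      rcases hf with hf | hf
      · rw [Function.mem_support] at hf
        unfold hkk at hf
        split_ifs at hf with h1
        · exact ⟨h1.2.2.2.2, h1.2.2.1, h1.2.2.2.1⟩
        · exact absurd rfl hf
      · obtain ⟨h5, h6⟩ := hcone f hf.1.1 hf.2
        exact ⟨hf.1.1, ⟨h5, hf.1.2⟩, h6⟩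
    have hs1 : ∑ᶠ t : ι × V × V, hkk (S.Q t.1) Tp h (kerHLW S w1 w2 e1 e2 om t.1) 1 n t.2 =
        ∑ f ∈ F, hkk (S.Q f.1) Tp h (kerHLW S w1 w2 e1 e2 om f.1) 1 n f.2 := by
      apply finsum_eq_sum_of_support_subset
      intro f hf
      rw [hF, Set.Finite.coe_toFinset]
      exact Or.inl hf
    have hs2 : ∑ᶠ f ∈ WT S Tp, gH S e1 e2 hl (kerHLW S w1 w2 e1 e2 om) (κ * n) f =
        ∑ f ∈ F, gH S e1 e2 hl (kerHLW S w1 w2 e1 e2 om) (κ * n) f := by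
      apply finsum_mem_eq_sum_of_inter_support_eq
      ext f
      constructor
      · rintro ⟨h1, h2⟩
        refine ⟨?_, h2⟩
        rw [hF, Set.Finite.coe_toFinset]
        exact Or.inr ⟨h1, h2⟩
      · rintro ⟨h1, h2⟩
        obtain ⟨h3, h4, h5⟩ := hFW f (Finset.mem_coe.1 h1)
        exact ⟨⟨h3, h4.2⟩, h2⟩
    have hb0 : ‖((n * Tp : ℝ) : ℂ) * D n - ((κ * n * Tp : ℝ) : ℂ) * D' (κ * n)‖ ≤ C' := by
      have hnz : ((n * Tp : ℝ) : ℂ) ≠ 0 := by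
        have : (n : ℝ) * Tp ≠ 0 := by positivity
        exact_mod_cast this
      have hnz' : ((κ * n * Tp : ℝ) : ℂ) ≠ 0 := by
        have : κ * n * Tp ≠ 0 := by positivity
        exact_mod_cast this
      have e1' : ((n * Tp : ℝ) : ℂ) * D n =
          ∑ f ∈ F, hkk (S.Q f.1) Tp h (kerHLW S w1 w2 e1 e2 om f.1) 1 n f.2 := by
        rw [← hs1, ← heA, hD]
        simp only
        unfold Hk
        rw [← Finset.mul_sum, ← mul_assoc, mul_one_div_cancel hnz, one_mul]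
      have e2' : ((κ * n * Tp : ℝ) : ℂ) * D' (κ * n) =
          ∑ f ∈ F, gH S e1 e2 hl (kerHLW S w1 w2 e1 e2 om) (κ * n) f := by
        rw [← hs2, ← hB, hD']
        simp only
        unfold Hk
        rw [← Finset.mul_sum, ← mul_assoc, mul_one_div_cancel hnz', one_mul]
      rw [e1', e2', ← Finset.sum_sub_distrib]
      refine (norm_sum_le _ _).trans ?_
      have h1 : ∀ f ∈ F, ‖hkk (S.Q f.1) Tp h (kerHLW S w1 w2 e1 e2 om f.1) 1 n f.2 -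
          gH S e1 e2 hl (kerHLW S w1 w2 e1 e2 om) (κ * n) f‖ ≤
          c * |h ((S.Q f.1).nr n f.2.1) ((S.Q f.1).nr n f.2.2) -
            hl ((S.Q f.1).nr (κ * n) (lin e1 f.2.1 f.2.2))
              ((S.Q f.1).nr (κ * n) (lin e2 f.2.1 f.2.2))| := by
        intro f hf
        obtain ⟨h3, h4, h5⟩ := hFW f hf
        have h6 := hcn f.1 f.2.1 f.2.2 h4.1 h5
        unfold hkk gH
        rw [if_pos h6, if_pos ⟨N57.prim_left h3, N57.prim_right h3, h4, h5, h3⟩, ← sub_mul,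
          norm_mul, ← Complex.ofReal_sub, Complex.norm_real, Real.norm_eq_abs, mul_comm]
        exact mul_le_mul_of_nonneg_right (hU _ _ _) (abs_nonneg _)
      refine (Finset.sum_le_sum h1).trans ?_
      rw [← Finset.mul_sum, hC']
      apply mul_le_mul_of_nonneg_left _ hc0
      rw [N57.sum_split F (fun f => |h ((S.Q f.1).nr n f.2.1) ((S.Q f.1).nr n f.2.2) -
            hl ((S.Q f.1).nr (κ * n) (lin e1 f.2.1 f.2.2))
              ((S.Q f.1).nr (κ * n) (lin e2 f.2.1 f.2.2))|)]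
      refine Finset.sum_le_sum fun i _ => ?_
      refine ((hR i n ((hnR i).trans hn)).2.2 _ ?_).trans (le_abs_self _)
      intro p hp
      rw [Finset.mem_image] at hp
      obtain ⟨f, hf, rfl⟩ := hp
      obtain ⟨h2, h3⟩ := Finset.mem_filter.1 hf
      have h4 := hFW f h2
      rw [h3] at h4
      exact h4
    have hb2 : (n : ℝ) * Tp * ‖D n‖ ≤ κ * n * Tp * ‖D' (κ * n)‖ + C' := by
      have h1 := norm_sub_norm_le (((n * Tp : ℝ) : ℂ) * D n) (((κ * n * Tp : ℝ) : ℂ) * D' (κ * n))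
      have h2 : (0 : ℝ) ≤ n * Tp := by positivity
      have h3 : (0 : ℝ) ≤ κ * n * Tp := by positivity
      rw [norm_mul, norm_mul, Complex.norm_real, Complex.norm_real, Real.norm_of_nonneg h2,
        Real.norm_of_nonneg h3] at h1
      linarith
    have hb3 : κ * ‖D' (κ * n)‖ + (C' / Tp) / n =
        (κ * n * Tp * ‖D' (κ * n)‖ + C') / (n * Tp) := by
      field_simp
    rw [hb3, le_div_iff₀ (by positivity), mul_comm]
    exact hb2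
  have hB1 : Bdd (fun n : ℕ => ‖D n‖) := ⟨CD, fun n => by
    rw [abs_of_nonneg (norm_nonneg _)]
    exact hCD.1 _⟩
  have hB2 : Bdd (fun n : ℕ => ‖D' (κ * n)‖) := ⟨CD', fun n => by
    rw [abs_of_nonneg (norm_nonneg _)]
    exact hCD'.1 _⟩
  have hgoal : M.E (fun n : ℕ => ‖D n‖) = 0 := by
    apply le_antisymm
    · refine (TopM.mono_ev M hB1 ((hB2.smul κ).add (N57.bdd_const_div (C' / Tp)))
        ((eventually_ge_atTop n1).mono hcmp)).trans ?_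
      rw [M.add _ _ (hB2.smul κ) (N57.bdd_const_div (C' / Tp)), M.smul _ _ hB2, hdil2,
        M.null _ (N57.bdd_const_div (C' / Tp)) (tendsto_const_div_atTop_nhds_zero_nat (C' / Tp)),
        mul_zero, add_zero]
    · exact M.nonneg _ hB1 fun n => norm_nonneg _
  rw [hD] at hgoal
  exact hgoal

end Pool.Agent.Lib.MP_a17b09_nt.AS
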