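import Pool.Agent.Lib.MP_a17b09_nt.AN.StmtsH3
import Pool.Agent.Lib.MP_a17b09_nt.SPH.StmtsH99

/-!
Project AS (MP_a17b09_nt): short progressions with anatomy.  For the pairs `(t, d)`, `d ∣ f t`,
`α t ≤ d ≤ β t`, any two of the numbers `d`, `a f (t + j d) / d` (`j ≥ 0`) behave like two
independent random integers (sizes of the large prime factors, `Ω` modulo `k`).  Statements: the
modules of SP and SPH with the weights of AN.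
-/

set_option autoImplicit false

open Filter Topology Finset

namespace Pool.Agent.Lib.MP_a17b09_nt.AS

open CH CH.PE HY SP
open PQ (B1 gw kerW)
open PQH (kerHW)
open AN (Ev ind wz wd Dens GWt)
open ANH (GWtH)
open SPH (vl)

/-! ### negative discriminant -/

/-- the input: Theorem A for the weights and all systems of discriminants `-d m ^ 2` -/
def InW (d : ℕ) (w1 w2 : ℕ → ℂ) : Prop := ∀ (ι : Type) [Fintype ι] (S : System ι),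
  (∃ m : ℕ, 0 < m ∧ S.d = d * m ^ 2) → ∀ (K : ℕ), 0 < K → ∀ om : ι → V → V → ℂ, Wt S K om →
  ∀ M : LMean, NullM M S.Q (kerW S w1 w2 om)

/-- (S1) the input from `GWt` for all discriminants `-d m ^ 2` (the first half of `T20.tw`: from
`StMrsW`, `StEsW`, `StAmW`) -/
def StInW : Prop := ∀ d : ℕ, 0 < d → ∀ (A B : ℕ → Prop) (δ δ' : ℝ),
  (∀ m : ℕ, 0 < m → GWt (d * m ^ 2) A δ) → (∀ m : ℕ, 0 < m → GWt (d * m ^ 2) B δ') →
  (∀ (z1 z2 : ℂ) (k : ℕ), 0 < k → z1 ^ k = 1 → z2 ^ k = 1 → (z1 ≠ 1 ∨ z2 ≠ 1) →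
    InW d (wz z1 A) (wz z2 B)) ∧ InW d (wd δ A) (ind B) ∧ InW d (ind A) (wd δ' B)

/-- the kernel with the values at two vectors `e1`, `e2` of the frame -/
noncomputable def kerLW {ι : Type} (S : System ι) (w1 w2 : ℕ → ℂ) (e1 e2 : ℕ × ℕ)
    (om : ι → V → V → ℂ) (i : ι) (w w' : V) : ℂ :=
  om i w w' * gw w1 (S.Q i) (lin e1 w w') * gw w2 (S.Q i) (lin e2 w w')

/-- (S2) Theorem A for the kernel `kerLW` (fork of `SP.NullL57`; from `StSysL`, `StTestL`, `StReg`,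
`StC0`, `StMd`) -/
def StNullLW : Prop := ∀ d : ℕ, 0 < d → ∀ w1 w2 : ℕ → ℂ, B1 w1 → B1 w2 → InW d w1 w2 →
  ∀ (ι : Type) [Fintype ι] (S : System ι), S.d = d → ∀ (e1 e2 : ℕ × ℕ), Adm e1 e2 →
  ∀ (K : ℕ), 0 < K → ∀ om : ι → V → V → ℂ, Wt S K om →
  ∀ M : LMean, NullM M S.Q (kerLW S w1 w2 e1 e2 om)

/-- the value of a slot: `d` (slot `none`) and `a |f (t + j d)| / d` (slot `some j`) -/
def wslot (a b c : ℤ) (t d : ℕ) : Option ℕ → ℕ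
  | none => d
  | some j => a.natAbs * ((fv a b c (t + j * d)).natAbs / d)

/-- the twisted sum up to `N` for two slots -/
noncomputable def TwPW (a b c : ℤ) (α β : ℝ) (h t0 : ℕ) (w1 w2 : ℕ → ℂ) (o1 o2 : Option ℕ)
    (N : ℕ) : ℂ :=
  ∑ t ∈ (Finset.Icc 1 N).filter (fun t => t ≡ t0 [MOD h]), ∑ d ∈ nearG a b c α β t,
    w1 (wslot a b c t d o1) * w2 (wslot a b c t d o2)

/-- the twisted sums of two different slots vanish in mean (both signs of the discriminant) -/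
def TwNullW (a b c : ℤ) (h t0 : ℕ) (α β : ℝ) (w1 w2 : ℕ → ℂ) : Prop := ∀ o1 o2 : Option ℕ,
  o1 ≠ o2 → ∀ M : LMean, M.E (fun N : ℕ => ‖TwPW a b c α β h t0 w1 w2 o1 o2 N‖ / N) = 0

/-- (S3) the twisted theorem (fork of `SP.TwP27`; from `StNullLW`, `StFm`, `StOn`) -/
def StTwPW : Prop := ∀ (a b c : ℤ) (d : ℕ), 0 < a → 0 < d → 4 * a * c - b ^ 2 = d →
  ∀ w1 w2 : ℕ → ℂ, B1 w1 → B1 w2 → InW d w1 w2 → InW d w2 w1 → ∀ (h : ℕ), 0 < h →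
  ∀ (t0 : ℕ) (α β : ℝ), 0 < α → α < β → TwNullW a b c h t0 α β w1 w2

/-! ### positive discriminant -/

/-- the input: Theorem A for the weights and all systems of discriminants `d m ^ 2` -/
def InHW (d : ℕ) (w1 w2 : ℕ → ℂ) : Prop := ∀ (ι : Type) [Fintype ι] (S : HSystem ι),
  (∃ m : ℕ, 0 < m ∧ S.d = d * m ^ 2) → ∀ (K : ℕ), 0 < K → ∀ om : ι → V → V → ℂ, HWt S K om →
  ∀ a : Pell.Solution₁ (S.d : ℤ), PP a → ∀ M : LMean, HNullM M S.Q (per a) (kerHW S w1 w2 om)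

/-- (S1H) the input from `GWtH` (from `StMrsHw`, `StEsHW`, `StAmHW`) -/
def StInHW : Prop := ∀ d : ℕ, ¬ IsSquare d → ∀ (A B : ℕ → Prop) (δ δ' : ℝ),
  (∀ m : ℕ, 0 < m → GWtH (d * m ^ 2) A δ) → (∀ m : ℕ, 0 < m → GWtH (d * m ^ 2) B δ') →
  (∀ (z1 z2 : ℂ) (k : ℕ), 0 < k → z1 ^ k = 1 → z2 ^ k = 1 → (z1 ≠ 1 ∨ z2 ≠ 1) →
    InHW d (wz z1 A) (wz z2 B)) ∧ InHW d (wd δ A) (ind B) ∧ InHW d (ind A) (wd δ' B)

/-- the kernel with the values at two vectors of the frame -/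
noncomputable def kerHLW {ι : Type} (S : HSystem ι) (w1 w2 : ℕ → ℂ) (e1 e2 : ℕ × ℕ)
    (om : ι → V → V → ℂ) (i : ι) (w w' : V) : ℂ :=
  om i w w' * gw w1 (S.Q i) (lin e1 w w') * gw w2 (S.Q i) (lin e2 w w')

/-- (S2H) Theorem A for the kernel `kerHLW` (fork of `SPH.NullL57`; from `StHSysL`, `StTestL`,
`StHRegL`, `StUnfA`, `StHC0`, `StMd`, `StHper`, `StHpow`) -/
def StHNullLW : Prop := ∀ d : ℕ, ¬ IsSquare d → ∀ w1 w2 : ℕ → ℂ, B1 w1 → B1 w2 → InHW d w1 w2 →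
  ∀ (ι : Type) [Fintype ι] (S : HSystem ι), S.d = d → ∀ (e1 e2 : ℕ × ℕ), Adm e1 e2 →
  ∀ (K : ℕ), 0 < K → ∀ om : ι → V → V → ℂ, HWt S K om →
  ∀ a : Pell.Solution₁ (S.d : ℤ), PP a → ∀ M : LMean,
    HNullM M S.Q (per a) (kerHLW S w1 w2 e1 e2 om)

/-- (S3H) the twisted theorem (fork of `SPH.TwP27`; from `StHNullLW`, `StHFm`, ...) -/
def StHTwPW : Prop := ∀ (a b c : ℤ), 0 < a → ∀ d : ℕ, b ^ 2 - 4 * a * c = d → ¬ IsSquare d →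
  ∀ w1 w2 : ℕ → ℂ, B1 w1 → B1 w2 → InHW d w1 w2 → InHW d w2 w1 → ∀ (h : ℕ), 0 < h →
  ∀ (t0 : ℕ) (α β : ℝ), 0 < α → α < β → TwNullW a b c h t0 α β w1 w2

/-! ### the final part, any sign -/

/-- the twisted sums for all events -/
def TwEv (a b c : ℤ) (h t0 : ℕ) (α β : ℝ) : Prop := ∀ (E E' : Ev) (δ δ' : ℝ), E.Ok → E'.Ok →
  Dens E δ → Dens E' δ' →
  (∀ (z1 z2 : ℂ) (k : ℕ), 0 < k → z1 ^ k = 1 → z2 ^ k = 1 → (z1 ≠ 1 ∨ z2 ≠ 1) →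
    TwNullW a b c h t0 α β (wz z1 E.Is) (wz z2 E'.Is)) ∧
  TwNullW a b c h t0 α β (wd δ E.Is) (ind E'.Is) ∧
  TwNullW a b c h t0 α β (ind E.Is) (wd δ' E'.Is)

/-- (S4) negative discriminant (from `StTwPW`, `StInW`, `AN.StGA`) -/
def StEvS : Prop := ∀ (a b c : ℤ), 0 < a → b ^ 2 - 4 * a * c < 0 → ∀ (h : ℕ), 0 < h →
  ∀ (t0 : ℕ) (α β : ℝ), 0 < α → α < β → TwEv a b c h t0 α β

/-- (S4H) positive discriminant (from `StHTwPW`, `StInHW`, `ANH.StGAH`) -/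
def StEvSH : Prop := ∀ (a b c : ℤ), 0 < a → ∀ d : ℕ, b ^ 2 - 4 * a * c = d → ¬ IsSquare d →
  ∀ (h : ℕ), 0 < h → ∀ (t0 : ℕ) (α β : ℝ), 0 < α → α < β → TwEv a b c h t0 α β

/-- the cofactor `|f (t + j d)| / d` -/
def cf (a b c : ℤ) (t d j : ℕ) : ℕ := vl a b c (t + j * d) / d

/-- the law of two slots for two events -/
def LawS (a b c : ℤ) (h t₀ : ℕ) (α β κ : ℝ) (E E' : Ev) (δ δ' : ℝ) : Prop :=
  ∀ k : ℕ, 0 < k → ∀ r s : ℕ, ∀ ε : ℝ, 0 < ε →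
  (∀ j : ℕ, LogNull {N : ℕ | ε * N < |(pairCount a b c h t₀ α β (fun t d => E.Is d ∧
    E'.Is (a.natAbs * cf a b c t d j) ∧ ArithmeticFunction.cardFactors d ≡ r [MOD k] ∧
    ArithmeticFunction.cardFactors (cf a b c t d j) ≡ s [MOD k]) N : ℝ) -
      δ * δ' * κ / k ^ 2 * N|}) ∧
  ∀ j l : ℕ, j ≠ l → LogNull {N : ℕ | ε * N < |(pairCount a b c h t₀ α β (fun t d =>
    E.Is (a.natAbs * cf a b c t d j) ∧ E'.Is (a.natAbs * cf a b c t d l) ∧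
    ArithmeticFunction.cardFactors (cf a b c t d j) ≡ r [MOD k] ∧
    ArithmeticFunction.cardFactors (cf a b c t d l) ≡ s [MOD k]) N : ℝ) -
      δ * δ' * κ / k ^ 2 * N|}

open Classical in
/-- the number of `j < J` with `E.Is (a |f (t + j d)| / d)` and `Ω (f (t + j d)) ≡ r mod k` -/
noncomputable def cntE (a b c : ℤ) (E : Ev) (J k r t d : ℕ) : ℕ :=
  ((Finset.range J).filter (fun j => E.Is (a.natAbs * cf a b c t d j) ∧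
    ArithmeticFunction.cardFactors (vl a b c (t + j * d)) ≡ r [MOD k])).card

/-- the law of the progressions for one event -/
def ProgS (a b c : ℤ) (h t₀ : ℕ) (α β κ : ℝ) (E : Ev) (δ : ℝ) : Prop :=
  ∀ k : ℕ, 0 < k → ∀ J : ℕ, 0 < J → ∀ η : ℝ, 0 < η →
    (∀ ε : ℝ, 0 < ε → LogNull {N : ℕ | (1 / (η ^ 2 * J) + ε) * κ * N <
      (pairCount a b c h t₀ α β (fun t d => ∃ r : ℕ,
        η * J < |(cntE a b c E J k r t d : ℝ) - J * δ / k|) N : ℝ)}) ∧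
    (1 < η ^ 2 * J → ∃ c' : ℝ, 0 < c' ∧ ∀ᶠ N : ℕ in atTop, c' * N ≤
      (pairCount a b c h t₀ α β (fun t d => ∀ r : ℕ,
        |(cntE a b c E J k r t d : ℝ) - J * δ / k| ≤ η * J) N : ℝ))

/-- the final statement -/
def ShortA (a b c : ℤ) (h t₀ : ℕ) (α β : ℝ) : Prop := ∃ κ : ℝ, 0 < κ ∧
  Tendsto (fun N : ℕ => (pairCount a b c h t₀ α β (fun _ _ => True) N : ℝ) / N) atTop (𝓝 κ) ∧
  ∀ (E E' : Ev) (δ δ' : ℝ), E.Ok → E'.Ok → Dens E δ → Dens E' δ' →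
    LawS a b c h t₀ α β κ E E' δ δ' ∧ ProgS a b c h t₀ α β κ E δ

/-- (S5) the law of two slots in mean, from the twisted sums (fork of `SPH.FinA11.pair_law`, `X8`) -/
def StLawS : Prop := ∀ (a b c : ℤ), 0 < a → (∀ t : ℕ, fv a b c t ≠ 0) → ∀ (h : ℕ), 0 < h →
  ∀ (t0 : ℕ) (α β : ℝ), 0 < α → α < β →
  (∃ C : ℝ, ∀ N : ℕ, ((∑ t ∈ (Finset.Icc 1 N).filter (fun t => t ≡ t0 [MOD h]),
    (nearG a b c α β t).card : ℕ) : ℝ) ≤ C * N) → TwEv a b c h t0 α β →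
  ∀ κ : ℝ, 0 < κ →
  Tendsto (fun N : ℕ => (pairCount a b c h t0 α β (fun _ _ => True) N : ℝ) / N) atTop (𝓝 κ) →
  ∀ (E E' : Ev) (δ δ' : ℝ), E.Ok → E'.Ok → Dens E δ → Dens E' δ' →
    LawS a b c h t0 α β κ E E' δ δ'

/-- (S6) the progressions, from the twisted sums (fork of `SP.SqP11` and of the last part of
`SPH.FinA11`): `∑_r (cnt_r - J δ / k)² = (1/k) (∑_(z ≠ 1) |∑_j 1_E z^Ω|² + (∑_j 1_E - J δ)²)` has
the mean `κ J δ (1 - δ / k) ≤ κ J` -/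
def StProgS : Prop := ∀ (a b c : ℤ), 0 < a → (∀ t : ℕ, fv a b c t ≠ 0) → ∀ (h : ℕ), 0 < h →
  ∀ (t0 : ℕ) (α β : ℝ), 0 < α → α < β →
  (∃ C : ℝ, ∀ N : ℕ, ((∑ t ∈ (Finset.Icc 1 N).filter (fun t => t ≡ t0 [MOD h]),
    (nearG a b c α β t).card : ℕ) : ℝ) ≤ C * N) → TwEv a b c h t0 α β →
  ∀ κ : ℝ, 0 < κ →
  Tendsto (fun N : ℕ => (pairCount a b c h t0 α β (fun _ _ => True) N : ℝ) / N) atTop (𝓝 κ) →
  ∀ (E : Ev) (δ : ℝ), E.Ok → Dens E δ → ProgS a b c h t0 α β κ E δ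

end Pool.Agent.Lib.MP_a17b09_nt.AS
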