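import Pool.Agent.Lib.MP_a17b09_nt.SP.TwP27
import Pool.Agent.Lib.MP_a17b09_nt.AN.SNull_64

/-!
# Project AS (MP_a17b09_nt): the twisted sums of two weights at two slots (helper64, fork of
`SP/TwP27`)
-/

set_option autoImplicit false

open Filter Topology Finset

namespace Pool.Agent.Lib.MP_a17b09_nt.AS

open Pool.Agent.Lib.MP_a17b09_nt.CH
open Pool.Agent.Lib.MP_a17b09_nt.CH.G68
open PQ (B1 gw kerW)
open SP (lin Adm vslot)

namespace T64

open SP.TwP27 (q_lin main_idX)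

theorem slot {a b c : ℤ} (ha : 0 < a) {Q : Form} (u : ℕ → ℂ)
    {t d : ℕ} (hd0 : d ≠ 0) (hdv : (d : ℤ) ∣ fv a b c t) {f : V × V}
    (hf : f ∈ prs Q d (2 * a * t + b) (a * (fv a b c t / d))) (o : Option ℕ) :
    gw u Q (lin (vslot a o) f.1 f.2) = u (wslot a b c t d o) := by
  obtain ⟨hw, h1, h2, h3⟩ := hf
  cases o with
  | none =>
    have e1 : Q.q (lin (vslot a none) f.1 f.2) = d := by
      rw [q_lin]
      show ((1 : ℕ) : ℤ) ^ 2 * Q.q f.1 + ((1 : ℕ) : ℤ) * ((0 : ℕ) : ℤ) * Q.B f.1 f.2 +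
        ((0 : ℕ) : ℤ) ^ 2 * Q.q f.2 = d
      rw [h1]
      push_cast
      ring
    unfold gw
    rw [e1, Int.natAbs_natCast]
    rfl
  | some j =>
    have hdc : (d : ℤ) ≠ 0 := by exact_mod_cast hd0
    obtain ⟨e, he⟩ := hdv
    have hE : fv a b c t / d = e := by
      rw [he]; exact Int.mul_ediv_cancel_left e hdc
    rw [hE] at h3
    have hA : ((a.natAbs : ℕ) : ℤ) = a := by
      rw [Int.natCast_natAbs]; exact abs_of_pos ha
    have hfj : fv a b c (t + j * d) = d * (e + j * (2 * a * t + b) + a * j ^ 2 * d) := by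
      have : fv a b c (t + j * d) = fv a b c t + d * (j * (2 * a * t + b) + a * j ^ 2 * d) := by
        unfold fv
        push_cast
        ring
      rw [this, he]
      ring
    have hfd : fv a b c (t + j * d) / d = e + j * (2 * a * t + b) + a * j ^ 2 * d := by
      rw [hfj]; exact Int.mul_ediv_cancel_left _ hdc
    have e1 : Q.q (lin (vslot a (some j)) f.1 f.2) = a * (fv a b c (t + j * d) / d) := by
      rw [q_lin, hfd]
      show ((j * a.natAbs : ℕ) : ℤ) ^ 2 * Q.q f.1 + ((j * a.natAbs : ℕ) : ℤ) * ((1 : ℕ) : ℤ) *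
        Q.B f.1 f.2 + ((1 : ℕ) : ℤ) ^ 2 * Q.q f.2 = _
      rw [h1, h2, h3]
      push_cast
      rw [← Int.natCast_natAbs, hA]
      ring
    have hdvj : (d : ℤ) ∣ fv a b c (t + j * d) := ⟨_, hfj⟩
    have hna : (a * (fv a b c (t + j * d) / d)).natAbs =
        a.natAbs * ((fv a b c (t + j * d)).natAbs / d) := by
      rw [Int.natAbs_mul, Int.natAbs_ediv_of_dvd hdvj]
      simp
    unfold gw
    rw [e1, hna]
    rfl

theorem core (hFm : StFm) (a b c : ℤ) (d : ℕ) (ha : 0 < a) (hd0 : 0 < d)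
    (hd : 4 * a * c - b ^ 2 = d) (w1 w2 : ℕ → ℂ) (hw1 : B1 w1) (hw2 : B1 w2) (o1 o2 : Option ℕ)
    (hN : ∀ (ι : Type) [Fintype ι] (S : System ι), S.d = d → ∀ (K : ℕ), 0 < K →
      ∀ om : ι → V → V → ℂ, Wt S K om → ∀ M : LMean,
      NullM M S.Q (kerLW S w1 w2 (vslot a o1) (vslot a o2) om))
    (h : ℕ) (hh : 0 < h) (t0 : ℕ) (α β : ℝ) (hα : 0 < α) (hβ : α < β)
    (M : LMean) : M.E (fun N : ℕ => ‖TwPW a b c α β h t0 w1 w2 o1 o2 N‖ / N) = 0 := by
  have hD : b ^ 2 - 4 * a * c < 0 := by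
    have : (0 : ℤ) < d := by exact_mod_cast hd0
    linarith
  obtain ⟨ι, hι, S, w, hSd, hw0, hws, hF⟩ := stSys_68 d hd0
  have hSd' : (S.d : ℤ) = 4 * a * c - b ^ 2 := by rw [hSd, hd]
  obtain ⟨K, hK⟩ : ∃ K : ℕ, 2 * a * h = (K : ℤ) :=
    ⟨_, (Int.toNat_of_nonneg (by positivity)).symm⟩
  have hK0 : 0 < K := by
    have hh' : (0 : ℤ) < h := by exact_mod_cast hh
    have : (0 : ℤ) < K := by rw [← hK]; positivity
    exact_mod_cast this
  have hWt : Wt S K (omW S w a b h t0) := by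
    apply stWt_68 ι S w
    · intro p hp h4 i
      rw [hSd] at h4
      exact hws p hp h4 i
    · exact hK0
    · intro x y z u v t
      rw [← hK]
      exact phi_per a b h t0 x y z u v t
  have hNull := hN ι S hSd K hK0 _ hWt M
  set U := kerLW S w1 w2 (vslot a o1) (vslot a o2) (omW S w a b h t0) with hUd
  have hbd : ∃ C : ℝ, ∀ i v v', ‖U i v v'‖ ≤ C := by
    refine ⟨1, fun i v v' => ?_⟩
    rw [hUd]
    unfold kerLW gw
    refine N64.le3 ?_ zero_le_one (hw1 _) (hw2 _)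
    unfold omW
    rw [norm_mul]
    have h1 : ‖(1 / (w i : ℂ))‖ ≤ 1 := by
      rw [norm_div, norm_one, Complex.norm_natCast]
      have : (1 : ℝ) ≤ w i := by exact_mod_cast hw0 i
      rw [div_le_one (by linarith)]
      exact this
    have h2 := norm_phi a b h t0 ((S.Q i).q v) ((S.Q i).B v v') ((S.Q i).q v')
    calc _ ≤ (1 : ℝ) * 1 := mul_le_mul h1 h2 (norm_nonneg _) zero_le_one
      _ = 1 := one_mul 1
  let T0 : ℕ := b.natAbs + 1
  have hT1 : 0 < T0 := Nat.succ_pos _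
  have hT0 : |b| ≤ T0 := by
    simp only [T0]
    push_cast
    rw [Int.abs_eq_natAbs]
    linarith
  obtain ⟨hB, hE⟩ := hFm M ι S.Q S.pos _ hbd hNull a b α β ha hα hβ T0 hT1
  have hid : ∀ N : ℕ, ∑ i, ∑ f ∈ FG (S.Q i) a b α β T0 N, U i f.1 f.2 =
      ∑ t ∈ (Finset.Icc T0 N).filter (fun t => t ≡ t0 [MOD h]),
        ∑ d ∈ nearG a b c α β t, w1 (wslot a b c t d o1) * w2 (wslot a b c t d o2) := by
    intro N
    refine main_idX ha hD S hSd' w (fun F hP hFD => (hF F hP (by rw [hFD, hSd])).2) U _ hα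
      hβ.le hT0 hT1 ?_ ?_
    · intro i f hn
      rw [hUd]
      unfold kerLW omW phi
      rw [if_neg hn]
      ring
    · intro i t ht hth d' hd' f hf
      have hb := backward ha hD (S.pos i) hα hβ.le hT0 ht hth hd' hf
      have hdv := ((mem_near ha hD).1 hd').1
      have hd'0 : d' ≠ 0 := by
        rintro rfl
        have h4 := (S.pos i).q_pos (F64.ne_zero_of_wd hf.1)
        rw [hf.2.1] at h4
        simp at h4
      have hphi : phi a b h t0 ((S.Q i).q f.1) ((S.Q i).B f.1 f.2) ((S.Q i).q f.2) = 1 := by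
        unfold phi
        rw [if_pos hb.2.1]
      rw [hUd]
      unfold kerLW omW
      rw [hphi, slot ha w1 hd'0 hdv hf, slot ha w2 hd'0 hdv hf]
      ring
  -- comparison
  let G : ℕ → ℂ := fun t => ∑ d ∈ nearG a b c α β t,
    w1 (wslot a b c t d o1) * w2 (wslot a b c t d o2)
  let C1 : ℝ := ∑ t ∈ Finset.Icc 1 (T0 - 1), ‖G t‖
  have hC1 : 0 ≤ C1 := Finset.sum_nonneg (fun _ _ => norm_nonneg _)
  have hcmp : ∀ N : ℕ, ‖TwPW a b c α β h t0 w1 w2 o1 o2 N‖ ≤ C1 +
      ‖∑ i, ∑ f ∈ FG (S.Q i) a b α β T0 N, U i f.1 f.2‖ := by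
    intro N
    have hid2 : ∑ i, ∑ f ∈ FG (S.Q i) a b α β T0 N, U i f.1 f.2 =
        ∑ t ∈ (Finset.Icc T0 N).filter (fun t => t ≡ t0 [MOD h]), G t := hid N
    rw [hid2]
    have hsub : (Finset.Icc 1 N).filter (fun t => t ≡ t0 [MOD h]) =
        ((Finset.Icc 1 N).filter (fun t => t ≡ t0 [MOD h])).filter (fun t => t < T0) ∪
        (Finset.Icc T0 N).filter (fun t => t ≡ t0 [MOD h]) := by
      ext t
      rw [Finset.mem_union, Finset.mem_filter, Finset.mem_filter, Finset.mem_filter,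
        Finset.mem_filter, Finset.mem_Icc, Finset.mem_Icc]
      constructor
      · rintro ⟨h1, h2⟩
        by_cases h3 : t < T0
        · exact Or.inl ⟨⟨h1, h2⟩, h3⟩
        · exact Or.inr ⟨⟨by omega, h1.2⟩, h2⟩
      · rintro (h1 | h1)
        · exact h1.1
        · exact ⟨⟨by omega, h1.1.2⟩, h1.2⟩
    have hdis : Disjoint
        (((Finset.Icc 1 N).filter (fun t => t ≡ t0 [MOD h])).filter (fun t => t < T0))
        ((Finset.Icc T0 N).filter (fun t => t ≡ t0 [MOD h])) := by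
      rw [Finset.disjoint_left]
      intro t h1 h2
      rw [Finset.mem_filter] at h1
      rw [Finset.mem_filter, Finset.mem_Icc] at h2
      omega
    have e1 : TwPW a b c α β h t0 w1 w2 o1 o2 N =
        ∑ t ∈ ((Finset.Icc 1 N).filter (fun t => t ≡ t0 [MOD h])).filter (fun t => t < T0), G t +
        ∑ t ∈ (Finset.Icc T0 N).filter (fun t => t ≡ t0 [MOD h]), G t := by
      rw [← Finset.sum_union hdis, ← hsub]
      rfl
    rw [e1]
    refine (norm_add_le _ _).trans (add_le_add ?_ le_rfl)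
    refine (norm_sum_le _ _).trans ?_
    apply Finset.sum_le_sum_of_subset_of_nonneg
    · intro t ht
      rw [Finset.mem_filter, Finset.mem_filter, Finset.mem_Icc] at ht
      rw [Finset.mem_Icc]
      omega
    · intro t _ _
      exact norm_nonneg _
  have hle : ∀ N : ℕ, ‖TwPW a b c α β h t0 w1 w2 o1 o2 N‖ / N ≤ C1 / N +
      ‖∑ i, ∑ f ∈ FG (S.Q i) a b α β T0 N, U i f.1 f.2‖ / N := by
    intro N
    rw [← add_div]
    exact div_le_div_of_nonneg_right (hcmp N) (Nat.cast_nonneg N)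
  have hr0 : Tendsto (fun N : ℕ => C1 / (N : ℝ)) atTop (𝓝 0) :=
    tendsto_const_div_atTop_nhds_zero_nat C1
  have hrB : Bdd (fun N : ℕ => C1 / (N : ℝ)) := by
    refine ⟨C1, fun N => ?_⟩
    rw [abs_of_nonneg (by positivity)]
    rcases Nat.eq_zero_or_pos N with h0 | h0
    · rw [h0]; simpa using hC1
    · apply div_le_self hC1
      exact_mod_cast h0
  have hfB : Bdd (fun N : ℕ => ‖TwPW a b c α β h t0 w1 w2 o1 o2 N‖ / N) := by
    obtain ⟨C, hC⟩ := hB
    obtain ⟨C', hC'⟩ := hrB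
    refine ⟨C' + C, fun N => ?_⟩
    rw [abs_of_nonneg (by positivity)]
    exact (hle N).trans (add_le_add ((le_abs_self _).trans (hC' N))
      ((le_abs_self _).trans (hC N)))
  apply le_antisymm
  · calc M.E (fun N : ℕ => ‖TwPW a b c α β h t0 w1 w2 o1 o2 N‖ / N)
        ≤ M.E (fun N : ℕ => C1 / (N : ℝ) +
          ‖∑ i, ∑ f ∈ FG (S.Q i) a b α β T0 N, U i f.1 f.2‖ / N) :=
          LMean.mono M hfB (Bdd.add hrB hB) hle
      _ = 0 := by
          rw [M.add _ _ hrB hB, M.null _ hrB hr0, hE, add_zero]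
  · exact M.nonneg _ hfB (fun N => by positivity)

theorem TwPW_swap (a b c : ℤ) (α β : ℝ) (h t0 : ℕ) (w1 w2 : ℕ → ℂ) (o1 o2 : Option ℕ)
    (N : ℕ) : TwPW a b c α β h t0 w1 w2 o1 o2 N = TwPW a b c α β h t0 w2 w1 o2 o1 N := by
  unfold TwPW
  exact Finset.sum_congr rfl fun t _ => Finset.sum_congr rfl fun d _ => mul_comm _ _

end T64

open T64 in
/-- (S3) the twisted sums of two weights at two different slots vanish in mean -/
theorem stTwPW_64 (hN : StNullLW) (hFm : StFm) : StTwPW := by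
  intro a b c d ha hd0 hd w1 w2 hw1 hw2 hA hB h hh t0 α β hα hβ o1 o2 ho M
  rcases SP.TwP27.adm ha ho with hAd | hAd
  · exact core hFm a b c d ha hd0 hd w1 w2 hw1 hw2 o1 o2
      (fun ι _ S hS K hK om hom M => hN d hd0 w1 w2 hw1 hw2 hA ι S hS
        _ _ hAd K hK om hom M) h hh t0 α β hα hβ M
  · have h1 := core hFm a b c d ha hd0 hd w2 w1 hw2 hw1 o2 o1
      (fun ι _ S hS K hK om hom M => hN d hd0 w2 w1 hw2 hw1 hB ι S hS
        _ _ hAd K hK om hom M) h hh t0 α β hα hβ M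
    have h2 : (fun N : ℕ => ‖TwPW a b c α β h t0 w1 w2 o1 o2 N‖ / N) =
        fun N : ℕ => ‖TwPW a b c α β h t0 w2 w1 o2 o1 N‖ / N := by
      funext N
      rw [TwPW_swap]
    rw [h2]
    exact h1

end Pool.Agent.Lib.MP_a17b09_nt.AS
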