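import Pool.Agent.Lib.MP_a17b09_nt.AN.TStmts3
import Pool.Agent.Lib.MP_a17b09_nt.AN.Da98

/-!
Project AS (MP_a17b09_nt), module U1 (helper3): `StLawTy`, the law of two slots for sets of count
vectors and for the cofactors without the factor `a`.
-/

set_option autoImplicit false

open Filter Topology Finset

namespace Pool.Agent.Lib.MP_a17b09_nt.AS

open CH CH.PE HY
open AN (Ev Dens Ty Nd StOk StDen cntN)
open AN.Ty98 (box mem_box is_iff ty_iff ind_ty nd_ty lognull_union pc_sum exists_ok exists_nd)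
open AN.Da98 (cnt_ne ty_win dens_w lognull_lt pc_le pc_bdd)
open SPH (vl)

namespace Ty3

/-- the law of two slots with a side condition -/
def LawX (a b c : ℤ) (h t₀ : ℕ) (α β : ℝ) (X Y : ℕ → ℕ → ℕ) (R : ℕ → ℕ → Prop) (q : ℝ) : Prop :=
  ∀ (m m' : ℕ) (u v : Fin m → ℝ) (u' v' : Fin m' → ℝ) (S : Set (Fin m → ℕ))
    (S' : Set (Fin m' → ℕ)) (δ δ' : ℝ), (∀ i, 0 < u i) → (∀ i, 0 < u' i) →
    Nd (Ty u v S) δ → Nd (Ty u' v' S') δ' → ∀ ε : ℝ, 0 < ε → LogNull {N : ℕ | ε * N <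
      |(pairCount a b c h t₀ α β (fun t d => Ty u v S (X t d) ∧ Ty u' v' S' (Y t d) ∧ R t d) N
        : ℝ) - δ * δ' * q * N|}

/-- the law for the events -/
def LawE (a b c : ℤ) (h t₀ : ℕ) (α β : ℝ) (X Y : ℕ → ℕ → ℕ) (R : ℕ → ℕ → Prop) (q : ℝ) : Prop :=
  ∀ (E E' : Ev) (δ δ' : ℝ), E.Ok → E'.Ok → Dens E δ → Dens E' δ' → ∀ ε : ℝ, 0 < ε →
    LogNull {N : ℕ | ε * N < |(pairCount a b c h t₀ α β (fun t d => E.Is (X t d) ∧
      E'.Is (Y t d) ∧ R t d) N : ℝ) - δ * δ' * q * N|}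

variable {a b c : ℤ} {h t₀ : ℕ} {α β : ℝ}

theorem LawX.swap {X Y : ℕ → ℕ → ℕ} {R R' : ℕ → ℕ → Prop} {q : ℝ}
    (hL : LawX a b c h t₀ α β X Y R q) (hR : ∀ t d, R t d ↔ R' t d) :
    LawX a b c h t₀ α β Y X R' q := by
  intro m m' u v u' v' S S' δ δ' hu hu' hδ hδ' ε hε
  refine EndS.LogNull.mono (hL m' m u' v' u v S' S δ' δ hu' hu hδ' hδ ε hε) fun N hN => ?_
  have e1 : (fun t d => Ty u v S (Y t d) ∧ Ty u' v' S' (X t d) ∧ R' t d) =
      fun t d => Ty u' v' S' (X t d) ∧ Ty u v S (Y t d) ∧ R t d := by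
    funext t d
    apply propext
    rw [hR t d]
    tauto
  simp only [Set.mem_ofPred_eq] at hN ⊢
  rw [e1] at hN
  rw [show δ' * δ * q * (N : ℝ) = δ * δ' * q * N by ring]
  exact hN

/-- from events to types -/
theorem ofE (hOk : StOk) (hDen : StDen) (hf : ∀ t : ℕ, fv a b c t ≠ 0) {X Y : ℕ → ℕ → ℕ}
    {R : ℕ → ℕ → Prop} {q : ℝ} (hX : ∀ t d, d ∈ nearG a b c α β t → 1 ≤ X t d)
    (hY : ∀ t d, d ∈ nearG a b c α β t → 1 ≤ Y t d) (hL : LawE a b c h t₀ α β X Y R q) :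
    LawX a b c h t₀ α β X Y R q := by
  classical
  intro m m' u v u' v' S S' δ δ' hu hu' hδ hδ' ε hε
  choose E D hE hD hi hN using fun c => exists_ok hOk hDen v hu c
  choose E' D' hE' hD' hi' hN' using fun c => exists_ok hOk hDen v' hu' c
  have eδ : δ = ∑ c ∈ (box u).filter (fun c => c ∈ S), D c :=
    tendsto_nhds_unique hδ (nd_ty hu S D hN)
  have eδ' : δ' = ∑ c ∈ (box u').filter (fun c => c ∈ S'), D' c :=
    tendsto_nhds_unique hδ' (nd_ty hu' S' D' hN')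
  set G := (box u).filter (fun c => c ∈ S) ×ˢ (box u').filter (fun c => c ∈ S') with hG
  have eG : δ * δ' = ∑ i ∈ G, D i.1 * D' i.2 := by
    rw [eδ, eδ', hG, Finset.sum_product, Finset.sum_mul]
    exact Finset.sum_congr rfl fun c _ => Finset.mul_sum _ _ _
  set P : (Fin m → ℕ) × (Fin m' → ℕ) → ℕ → ℕ → Prop := fun i t d => (E i.1).Is (X t d) ∧
    (E' i.2).Is (Y t d) ∧ R t d with hPdef
  set P0 : ℕ → ℕ → Prop := fun t d => Ty u v S (X t d) ∧ Ty u' v' S' (Y t d) ∧ R t d with hP0def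
  have hsum : ∀ N : ℕ, pairCount a b c h t₀ α β P0 N =
      ∑ i ∈ G, pairCount a b c h t₀ α β (P i) N := by
    refine pc_sum hf h t₀ α β G P P0 fun t d hd => ?_
    have hd1 := hX t d hd
    have he1 := hY t d hd
    by_cases hO : R t d
    · have e1 : (if P0 t d then 1 else 0 : ℕ) = (if Ty u v S (X t d) then 1 else 0) *
          (if Ty u' v' S' (Y t d) then 1 else 0) := by
        by_cases x1 : Ty u v S (X t d)
        · by_cases x2 : Ty u' v' S' (Y t d)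
          · rw [if_pos x1, if_pos x2, if_pos (show P0 t d from ⟨x1, x2, hO⟩)]
          · rw [if_neg x2, if_neg (show ¬ P0 t d from fun x => x2 x.2.1), mul_zero]
        · rw [if_neg x1, if_neg (show ¬ P0 t d from fun x => x1 x.1), zero_mul]
      have e2 : ∀ i : (Fin m → ℕ) × (Fin m' → ℕ), (if P i t d then 1 else 0 : ℕ) =
          (if (⟨m, u, v, i.1⟩ : Ev).Is (X t d) then 1 else 0) *
          (if (⟨m', u', v', i.2⟩ : Ev).Is (Y t d) then 1 else 0) := by
        intro i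
        by_cases x1 : (⟨m, u, v, i.1⟩ : Ev).Is (X t d)
        · by_cases x2 : (⟨m', u', v', i.2⟩ : Ev).Is (Y t d)
          · rw [if_pos x1, if_pos x2, if_pos (show P i t d from
              ⟨(hi i.1 _ hd1).1 x1, (hi' i.2 _ he1).1 x2, hO⟩)]
          · rw [if_neg x2, if_neg (show ¬ P i t d from fun x =>
              x2 ((hi' i.2 _ he1).2 x.2.1)), mul_zero]
        · rw [if_neg x1, if_neg (show ¬ P i t d from fun x =>
            x1 ((hi i.1 _ hd1).2 x.1)), zero_mul]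
      rw [e1, ind_ty (v := v) hu S hd1, ind_ty (v := v') hu' S' he1,
        Finset.sum_congr rfl fun i _ => e2 i, hG, Finset.sum_product, Finset.sum_mul]
      exact Finset.sum_congr rfl fun c _ => Finset.mul_sum _ _ _
    · rw [if_neg (show ¬ P0 t d from fun x => hO x.2.2)]
      exact (Finset.sum_eq_zero fun i _ => if_neg (show ¬ P i t d from fun x => hO x.2.2)).symm
  have hmem : ∀ i : (Fin m → ℕ) × (Fin m' → ℕ), _ := fun i =>
    hL (E i.1) (E' i.2) (D i.1) (D' i.2) (hE i.1) (hE' i.2) (hD i.1) (hD' i.2)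
  have hc : (0 : ℝ) < (G.card : ℝ) + 1 := by positivity
  refine EndS.LogNull.mono (lognull_union G (fun i => {N : ℕ | ε / ((G.card : ℝ) + 1) * N <
      |(pairCount a b c h t₀ α β (P i) N : ℝ) - D i.1 * D' i.2 * q * N|})
      fun i _ => hmem i _ (by positivity)) fun N hN => ?_
  simp only [Set.mem_ofPred_eq] at hN ⊢
  by_contra hno
  push Not at hno
  have e1 : (pairCount a b c h t₀ α β P0 N : ℝ) - δ * δ' * q * N =
      ∑ i ∈ G, ((pairCount a b c h t₀ α β (P i) N : ℝ) - D i.1 * D' i.2 * q * N) := by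
    rw [hsum, eG]
    push_cast
    rw [Finset.sum_sub_distrib, Finset.sum_mul, Finset.sum_mul]
  have e2 : |(pairCount a b c h t₀ α β P0 N : ℝ) - δ * δ' * q * N| ≤
      ∑ _i ∈ G, ε / ((G.card : ℝ) + 1) * N := by
    rw [e1]
    exact (Finset.abs_sum_le_sum_abs _ _).trans (Finset.sum_le_sum fun i hi => hno i hi)
  rw [Finset.sum_const, nsmul_eq_mul] at e2
  have e3 : (G.card : ℝ) * (ε / ((G.card : ℝ) + 1) * N) ≤ ε * N := by
    have h1 : (G.card : ℝ) * (ε / ((G.card : ℝ) + 1)) ≤ ε := by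
      rw [mul_div_assoc', div_le_iff₀ hc]
      nlinarith
    calc (G.card : ℝ) * (ε / ((G.card : ℝ) + 1) * N) =
          (G.card : ℝ) * (ε / ((G.card : ℝ) + 1)) * N := by ring
      _ ≤ ε * N := mul_le_mul_of_nonneg_right h1 (Nat.cast_nonneg _)
  linarith

/-- the factor `A` disappears in the first slot -/
theorem dil (hOk : StOk) (hDen : StDen) (hf : ∀ t : ℕ, fv a b c t ≠ 0) {A : ℕ} (hA1 : 1 ≤ A)
    {x Y : ℕ → ℕ → ℕ} {R : ℕ → ℕ → Prop} {q κ : ℝ} (hκ : 0 < κ)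
    (hx : ∀ n0 : ℕ, ∃ t1 : ℕ, ∀ t : ℕ, t1 ≤ t → ∀ d ∈ nearG a b c α β t, n0 ≤ x t d)
    (hN : ∀ (m : ℕ) (u v : Fin m → ℝ) (S : Set (Fin m → ℕ)) (δ : ℝ), (∀ i, 0 < u i) →
      Nd (Ty u v S) δ → ∀ ε : ℝ, 0 < ε → LogNull {N : ℕ | ε * N <
      |(pairCount a b c h t₀ α β (fun t d => Ty u v S (A * x t d)) N : ℝ) - δ * κ * N|})
    (hL : LawX a b c h t₀ α β (fun t d => A * x t d) Y R q) :
    LawX a b c h t₀ α β x Y R q := by
  classical
  intro m m' u' v' u v S' S δ' δ hu' hu hδ' hδ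
  have hmain := hL m m' u' v' u v S' S δ' δ hu' hu hδ' hδ
  set W : Finset ℝ := (Finset.univ.image u' ∪ Finset.univ.image v').filter
    (fun w => 0 < w ∧ w < 1) with hW
  have hWc : (0 : ℝ) < (W.card : ℝ) + 1 := by positivity
  set P1 : ℕ → ℕ → Prop := fun t d => Ty u' v' S' (x t d) ∧ Ty u v S (Y t d) ∧ R t d with hP1
  set P0 : ℕ → ℕ → Prop := fun t d => Ty u' v' S' (A * x t d) ∧ Ty u v S (Y t d) ∧ R t d
    with hP0
  intro ε hε
  have hw : ∀ w ∈ W, ∃ η : ℝ, 0 < η ∧ 0 < w - η ∧ ∃ σ : ℝ, σ ≤ ε / (4 * κ * (W.card + 1)) ∧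
      Nd (Ty (fun _ : Fin 1 => w - η) (fun _ => w + η) {c | c 0 ≠ 0}) σ := by
    intro w hw
    obtain ⟨η, hη, hη2, hη3⟩ := dens_w (Finset.mem_filter.1 hw).2.1
      (show 0 < ε / (4 * κ * (W.card + 1)) by positivity)
    obtain ⟨σ, hσ⟩ := exists_nd hOk hDen (fun _ : Fin 1 => w - η) (fun _ => w + η)
      (fun _ => hη2) {c | c 0 ≠ 0}
    exact ⟨η, hη, hη2, σ, hη3 σ hσ, hσ⟩
  choose! η hη hη2 σ hσ hNd using hw
  set Bw : ℝ → ℕ → ℕ → Prop := fun w t d =>
    Ty (fun _ : Fin 1 => w - η w) (fun _ => w + η w) {c | c 0 ≠ 0} (A * x t d) with hBw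
  have hBn : ∀ w ∈ W, LogNull {N : ℕ | ε / (4 * (W.card + 1)) * N <
      |(pairCount a b c h t₀ α β (Bw w) N : ℝ) - σ w * κ * N|} := fun w hw =>
    hN 1 (fun _ : Fin 1 => w - η w) (fun _ => w + η w) {c | c 0 ≠ 0} (σ w)
      (fun _ => hη2 w hw) (hNd w hw) (ε / (4 * (W.card + 1))) (by positivity)
  -- the counts differ only near the ends
  have hn0 : ∀ i : Fin m, ∃ n0 : ℕ, ∀ n : ℕ, n0 ≤ n →
      cntN n (u' i) (v' i) n ≠ cntN ((A * n : ℕ) : ℝ) (u' i) (v' i) (A * n) →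
      ∃ w ∈ W, ∃ p : ℕ, p.Prime ∧ p ∣ A * n ∧
      ((A * n : ℕ) : ℝ) ^ (w - η w) < p ∧ (p : ℝ) ≤ ((A * n : ℕ) : ℝ) ^ (w + η w) := by
    intro i
    have hpos : ∀ w ∈ W, 0 < η w := hη
    set η0 : ℝ := min (if u' i ∈ W then η (u' i) else 1) (if v' i ∈ W then η (v' i) else 1)
      with hη0
    have h1 : 0 < η0 := by
      rw [hη0]
      refine lt_min ?_ ?_
      · split_ifs with hh
        · exact hpos _ hh
        · exact one_pos
      · split_ifs with hh
        · exact hpos _ hh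
        · exact one_pos
    obtain ⟨n0, hn0⟩ := cnt_ne hA1 (v := v' i) (hu' i) h1
    refine ⟨max n0 1, fun n hn hne => ?_⟩
    obtain ⟨w, hw1, hw2, hw3, p, hp1, hp2, hp3, hp4⟩ := hn0 n ((le_max_left _ _).trans hn) hne
    have hwW : w ∈ W := by
      rw [hW, Finset.mem_filter, Finset.mem_union]
      refine ⟨?_, hw2, hw3⟩
      rcases hw1 with h | h
      · exact Or.inl (Finset.mem_image.2 ⟨i, Finset.mem_univ _, h.symm⟩)
      · exact Or.inr (Finset.mem_image.2 ⟨i, Finset.mem_univ _, h.symm⟩)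
    have hle : η0 ≤ η w := by
      rcases hw1 with h | h
      · subst h
        rw [hη0, if_pos hwW]
        exact min_le_left _ _
      · subst h
        rw [hη0, if_pos hwW]
        exact min_le_right _ _
    have hb : (1 : ℝ) ≤ ((A * n : ℕ) : ℝ) := by
      exact_mod_cast Nat.mul_pos hA1 ((le_max_right _ _).trans hn)
    exact ⟨w, hwW, p, hp1, hp2,
      lt_of_le_of_lt (Real.rpow_le_rpow_of_exponent_le hb (by linarith)) hp3,
      hp4.trans (Real.rpow_le_rpow_of_exponent_le hb (by linarith))⟩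
  choose n0 hn0' using hn0
  obtain ⟨t1, ht1⟩ := hx (max (Finset.univ.sup n0) 1)
  obtain ⟨C1, hC1⟩ := pc_bdd hf h t₀ α β t1
  have hdiff : ∀ t d : ℕ, d ∈ nearG a b c α β t → ¬ t < t1 →
      ¬ (Ty u' v' S' (x t d) ↔ Ty u' v' S' (A * x t d)) → ∃ w ∈ W, Bw w t d := by
    intro t d hd ht hne
    have hn := ht1 t (not_lt.1 ht) d hd
    set n := x t d with hndef
    have hn1 : 1 ≤ n := (le_max_right _ _).trans hn
    have hex : ∃ i : Fin m, cntN n (u' i) (v' i) n ≠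
        cntN ((A * n : ℕ) : ℝ) (u' i) (v' i) (A * n) := by
      by_contra hno
      push Not at hno
      apply hne
      unfold Ty
      rw [funext hno]
    obtain ⟨i, hi⟩ := hex
    have h1 : n0 i ≤ n := (Finset.le_sup (f := n0) (Finset.mem_univ i)).trans
      ((le_max_left _ _).trans hn)
    obtain ⟨w, hwW, hp⟩ := hn0' i n h1 hi
    exact ⟨w, hwW, (ty_win (Nat.mul_pos hA1 hn1)).2 hp⟩
  have hle1 := pc_le hf h t₀ α β W Bw P1 P0 (fun t _ => t < t1) (fun t d hd h1 => by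
    by_cases ht : t < t1
    · exact Or.inr (Or.inl ht)
    · by_cases h2 : Ty u' v' S' (x t d) ↔ Ty u' v' S' (A * x t d)
      · exact Or.inl ⟨h2.1 h1.1, h1.2⟩
      · exact Or.inr (Or.inr (hdiff t d hd ht h2)))
  have hle0 := pc_le hf h t₀ α β W Bw P0 P1 (fun t _ => t < t1) (fun t d hd h1 => by
    by_cases ht : t < t1
    · exact Or.inr (Or.inl ht)
    · by_cases h2 : Ty u' v' S' (x t d) ↔ Ty u' v' S' (A * x t d)
      · exact Or.inl ⟨h2.2 h1.1, h1.2⟩
      · exact Or.inr (Or.inr (hdiff t d hd ht h2)))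
  obtain ⟨N1, hN1⟩ := exists_nat_ge (4 * C1 / ε + 1)
  -- the exceptional set
  have hU : LogNull ({N : ℕ | N < N1} ∪ ({N : ℕ | ε / 4 * N <
      |(pairCount a b c h t₀ α β P0 N : ℝ) - δ' * δ * q * N|} ∪
      {N | ∃ w ∈ W, N ∈ {N : ℕ | ε / (4 * (W.card + 1)) * N <
      |(pairCount a b c h t₀ α β (Bw w) N : ℝ) - σ w * κ * N|}})) := by
    have g : ∀ E1 E2 : Set ℕ, LogNull E1 → LogNull E2 → LogNull (E1 ∪ E2) := by
      intro E1 E2 h1 h2
      refine EndS.LogNull.mono (lognull_union (Finset.univ : Finset Bool)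
        (fun i => if i then E1 else E2) fun i _ => by cases i <;> simpa) fun n hn => ?_
      rcases hn with hn | hn
      · exact ⟨true, Finset.mem_univ _, by simpa using hn⟩
      · exact ⟨false, Finset.mem_univ _, by simpa using hn⟩
    exact g _ _ (lognull_lt N1) (g _ _ (hmain (ε / 4) (by positivity))
      (lognull_union W _ hBn))
  refine EndS.LogNull.mono hU fun N hN => ?_
  by_contra hno
  rw [Set.mem_union, Set.mem_union, not_or, not_or] at hno
  obtain ⟨g1, g2, g3⟩ := hno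
  simp only [Set.mem_ofPred_eq, not_lt, not_exists, not_and] at g1 g2 g3 hN
  have hNp : (0 : ℝ) < N := by
    have h1 : (4 * C1 / ε + 1 : ℝ) ≤ N := hN1.trans (by exact_mod_cast g1)
    have h2 : (0 : ℝ) ≤ 4 * C1 / ε := by positivity
    linarith
  have hC1N : (C1 : ℝ) ≤ ε / 4 * N := by
    have h1 : (4 * C1 / ε + 1 : ℝ) ≤ N := hN1.trans (by exact_mod_cast g1)
    have h2 : (4 * C1 / ε : ℝ) ≤ N := by linarith
    rw [div_le_iff₀ hε] at h2
    linarith
  have hB : ∑ w ∈ W, (pairCount a b c h t₀ α β (Bw w) N : ℝ) ≤ ε / 2 * N := by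
    have h1 : ∀ w ∈ W, (pairCount a b c h t₀ α β (Bw w) N : ℝ) ≤
        ε / (2 * (W.card + 1)) * N := by
      intro w hw
      have h2 := (abs_le.1 (g3 w hw)).2
      have h3 : σ w * κ ≤ ε / (4 * (W.card + 1)) := by
        calc σ w * κ ≤ ε / (4 * κ * (W.card + 1)) * κ :=
              mul_le_mul_of_nonneg_right (hσ w hw) hκ.le
          _ = ε / (4 * (W.card + 1)) := by
              field_simp
      have h5 : ε / (2 * (W.card + 1)) * (N : ℝ) =
          ε / (4 * (W.card + 1)) * N + ε / (4 * (W.card + 1)) * N := by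
        field_simp
        ring
      have h6 : σ w * κ * N ≤ ε / (4 * (W.card + 1)) * N :=
        mul_le_mul_of_nonneg_right h3 hNp.le
      linarith
    refine (Finset.sum_le_sum h1).trans ?_
    rw [Finset.sum_const, nsmul_eq_mul]
    have h6 : (W.card : ℝ) * (ε / (2 * (W.card + 1)) * N) ≤
        ((W.card : ℝ) + 1) * (ε / (2 * (W.card + 1)) * N) :=
      mul_le_mul_of_nonneg_right (by linarith) (by positivity)
    refine h6.trans (le_of_eq ?_)
    field_simp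
  have hR : (pairCount a b c h t₀ α β (fun t _ => t < t1) N : ℝ) ≤ ε / 4 * N :=
    le_trans (by exact_mod_cast hC1 N) hC1N
  have k1 : (pairCount a b c h t₀ α β P1 N : ℝ) ≤ pairCount a b c h t₀ α β P0 N +
      pairCount a b c h t₀ α β (fun t _ => t < t1) N +
      ∑ w ∈ W, (pairCount a b c h t₀ α β (Bw w) N : ℝ) := by
    exact_mod_cast hle1 N
  have k0 : (pairCount a b c h t₀ α β P0 N : ℝ) ≤ pairCount a b c h t₀ α β P1 N +
      pairCount a b c h t₀ α β (fun t _ => t < t1) N +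
      ∑ w ∈ W, (pairCount a b c h t₀ α β (Bw w) N : ℝ) := by
    exact_mod_cast hle0 N
  have g2' := abs_le.1 g2
  have hfin : |(pairCount a b c h t₀ α β P1 N : ℝ) - δ' * δ * q * N| ≤ ε * N := by
    rw [abs_le]
    constructor <;> linarith [g2'.1, g2'.2]
  linarith

/-- the cofactors are large -/
theorem cf_large (ha : 0 < a) (hβ : 0 < β) (j n0 : ℕ) :
    ∃ t1 : ℕ, ∀ t : ℕ, t1 ≤ t → ∀ d ∈ nearG a b c α β t, n0 ≤ cf a b c t d j := by
  obtain ⟨t1, ht1⟩ := exists_nat_ge (2 * ((|b| : ℤ) + (|c| : ℤ) : ℝ) + 2 * β * n0 + 1)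
  refine ⟨t1, fun t ht d hd => ?_⟩
  obtain ⟨hd1, hd2, hd3⟩ := Finset.mem_filter.1 hd
  obtain ⟨hd4, hd5⟩ := Nat.mem_divisors.1 hd1
  have hd0 : 0 < d := Nat.pos_of_dvd_of_pos hd4 (Nat.pos_of_ne_zero hd5)
  have hb0 : (0 : ℝ) ≤ (|b| : ℤ) := by exact_mod_cast abs_nonneg b
  have hc0 : (0 : ℝ) ≤ (|c| : ℤ) := by exact_mod_cast abs_nonneg c
  have htR : 2 * ((|b| : ℤ) + (|c| : ℤ) : ℝ) + 2 * β * n0 + 1 ≤ t :=
    ht1.trans (by exact_mod_cast ht)
  have hn00 : (0 : ℝ) ≤ 2 * β * n0 := by positivity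
  set T : ℕ := t + j * d with hT
  have htT : (t : ℝ) ≤ T := by
    rw [hT]
    exact_mod_cast Nat.le_add_right _ _
  have ht1' : (1 : ℝ) ≤ T := by linarith
  have haR : (1 : ℝ) ≤ a := by exact_mod_cast ha
  have hbR : -((|b| : ℤ) : ℝ) ≤ b := by exact_mod_cast neg_abs_le b
  have hcR : -((|c| : ℤ) : ℝ) ≤ c := by exact_mod_cast neg_abs_le c
  have h1 : (T : ℝ) ^ 2 / 2 ≤ (fv a b c T : ℝ) := by
    unfold fv
    push_cast
    have h2 : -((|b| : ℤ) : ℝ) * T ≤ b * T := mul_le_mul_of_nonneg_right hbR (by linarith)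
    have h3 : (1 : ℝ) * (T : ℝ) ^ 2 ≤ a * (T : ℝ) ^ 2 :=
      mul_le_mul_of_nonneg_right haR (by positivity)
    have h4 : ((|c| : ℤ) : ℝ) ≤ (|c| : ℤ) * T := le_mul_of_one_le_right hc0 ht1'
    have h5 : (2 * ((|b| : ℤ) + (|c| : ℤ) : ℝ)) * T ≤ T * T :=
      mul_le_mul_of_nonneg_right (by linarith) (by linarith)
    nlinarith
  have h6 : (fv a b c T : ℝ) ≤ ((fv a b c T).natAbs : ℝ) := by
    rw [Nat.cast_natAbs, Int.cast_abs]
    exact le_abs_self _
  show n0 ≤ vl a b c T / d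
  rw [Nat.le_div_iff_mul_le hd0]
  have h7 : (n0 : ℝ) * d ≤ ((fv a b c T).natAbs : ℝ) := by
    calc (n0 : ℝ) * d ≤ n0 * (β * t) := mul_le_mul_of_nonneg_left hd3 (Nat.cast_nonneg _)
      _ ≤ n0 * (β * T) := mul_le_mul_of_nonneg_left
          (mul_le_mul_of_nonneg_left htT hβ.le) (Nat.cast_nonneg _)
      _ = (β * n0) * T := by ring
      _ ≤ (T / 2) * T := mul_le_mul_of_nonneg_right (by linarith) (by linarith)
      _ = (T : ℝ) ^ 2 / 2 := by ring
      _ ≤ _ := h1.trans h6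
  exact_mod_cast h7

theorem near_mem {t d : ℕ} (hd : d ∈ nearG a b c α β t) : d ∣ (fv a b c t).natAbs := by
  unfold nearG at hd
  exact Nat.dvd_of_mem_divisors (Finset.mem_filter.1 hd).1

theorem cf_pos (hf : ∀ t : ℕ, fv a b c t ≠ 0) {t d : ℕ} (hd : d ∣ (fv a b c t).natAbs)
    (j : ℕ) : 1 ≤ cf a b c t d j := by
  have hpos : ∀ s : ℕ, (fv a b c s).natAbs ≠ 0 := fun s => Int.natAbs_ne_zero.2 (hf s)
  have h1 : d ∣ (fv a b c (t + j * d)).natAbs := by
    rw [← Int.natCast_dvd] at hd ⊢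
    have h2 : fv a b c (t + j * d) = fv a b c t +
        (d : ℤ) * (a * (2 * t * j + j ^ 2 * d) + b * j) := by
      rw [fv, fv]
      push_cast
      ring
    rw [h2]
    exact dvd_add hd (dvd_mul_right _ _)
  refine Nat.one_le_iff_ne_zero.2 fun h0 => ?_
  have h2 := Nat.mul_div_cancel' h1
  have h3 : (fv a b c (t + j * d)).natAbs / d = 0 := h0
  rw [h3, mul_zero] at h2
  exact hpos _ h2.symm

/-- the trivial type -/
theorem nd_triv : Nd (Ty (fun i : Fin 0 => i.elim0) (fun i : Fin 0 => i.elim0) Set.univ) 1 := by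
  have e1 : ∀ᶠ N : ℕ in atTop, (1 : ℝ) = (Set.ncard {n : ℕ | 1 ≤ n ∧ n ≤ N ∧
      Ty (fun i : Fin 0 => i.elim0) (fun i : Fin 0 => i.elim0) Set.univ n} : ℝ) / N := by
    filter_upwards [eventually_ge_atTop 1] with N hN
    have e2 : {n : ℕ | 1 ≤ n ∧ n ≤ N ∧
        Ty (fun i : Fin 0 => i.elim0) (fun i : Fin 0 => i.elim0) Set.univ n} =
        ((Finset.Icc 1 N : Finset ℕ) : Set ℕ) := by
      ext n
      simp [Ty]
    rw [e2, Set.ncard_coe_finset, Nat.card_Icc, Nat.add_sub_cancel]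
    have : (N : ℝ) ≠ 0 := by
      have : (0 : ℝ) < N := by exact_mod_cast hN
      exact this.ne'
    field_simp
  exact Tendsto.congr' e1 tendsto_const_nhds

end Ty3

open Ty3 in
/-- **module U1** -/
theorem stLawTy_3 : StLawTy := by
  intro hOk hDen a b c ha hf h hh t₀ α β hα hαβ hO κ hκ hlim hL
  have hβ : 0 < β := hα.trans hαβ
  have hA1 : 1 ≤ a.natAbs := Int.natAbs_pos.2 ha.ne'
  have hd1 : ∀ t d, d ∈ nearG a b c α β t → 1 ≤ d := fun t d hd =>
    Nat.pos_of_dvd_of_pos (near_mem hd) (Int.natAbs_pos.2 (hf t))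
  have hc1 : ∀ j t d, d ∈ nearG a b c α β t → 1 ≤ a.natAbs * cf a b c t d j := fun j t d hd =>
    Nat.mul_pos hA1 (cf_pos hf (near_mem hd) j)
  -- the laws with the factor `a`
  have hJ : ∀ k : ℕ, 0 < k → ∀ r s j : ℕ, LawX a b c h t₀ α β (fun _ d => d)
      (fun t d => a.natAbs * cf a b c t d j) (fun t d =>
        ArithmeticFunction.cardFactors d ≡ r [MOD k] ∧
        ArithmeticFunction.cardFactors (cf a b c t d j) ≡ s [MOD k]) (κ / k ^ 2) := by
    intro k hk r s j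
    refine ofE hOk hDen hf hd1 (hc1 j) fun E E' δ δ' hE hE' hD hD' ε hε => ?_
    have h1 := ((hL E E' δ δ' hE hE' hD hD') k hk r s ε hε).1 j
    refine EndS.LogNull.mono h1 fun N hN => ?_
    simp only [Set.mem_ofPred_eq] at hN ⊢
    rw [show δ * δ' * (κ / (k : ℝ) ^ 2) * N = δ * δ' * κ / k ^ 2 * N by ring] at hN
    exact hN
  have hJL : ∀ k : ℕ, 0 < k → ∀ r s j l : ℕ, j ≠ l → LawX a b c h t₀ α β
      (fun t d => a.natAbs * cf a b c t d j) (fun t d => a.natAbs * cf a b c t d l) (fun t d =>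
        ArithmeticFunction.cardFactors (cf a b c t d j) ≡ r [MOD k] ∧
        ArithmeticFunction.cardFactors (cf a b c t d l) ≡ s [MOD k]) (κ / k ^ 2) := by
    intro k hk r s j l hjl
    refine ofE hOk hDen hf (hc1 j) (hc1 l) fun E E' δ δ' hE hE' hD hD' ε hε => ?_
    have h1 := ((hL E E' δ δ' hE hE' hD hD') k hk r s ε hε).2 j l hjl
    refine EndS.LogNull.mono h1 fun N hN => ?_
    simp only [Set.mem_ofPred_eq] at hN ⊢
    rw [show δ * δ' * (κ / (k : ℝ) ^ 2) * N = δ * δ' * κ / k ^ 2 * N by ring] at hN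
    exact hN
  -- one slot
  have hN1 : ∀ j : ℕ, ∀ (m : ℕ) (u v : Fin m → ℝ) (S : Set (Fin m → ℕ)) (δ : ℝ),
      (∀ i, 0 < u i) → Nd (Ty u v S) δ → ∀ ε : ℝ, 0 < ε → LogNull {N : ℕ | ε * N <
      |(pairCount a b c h t₀ α β (fun t d => Ty u v S (a.natAbs * cf a b c t d j)) N : ℝ)
        - δ * κ * N|} := by
    intro j m u v S δ hu hδ ε hε
    have h1 := hJ 1 one_pos 0 0 j 0 m (fun i : Fin 0 => i.elim0) (fun i : Fin 0 => i.elim0) u v
      Set.univ S 1 δ (fun i => i.elim0) hu nd_triv hδ ε hε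
    refine EndS.LogNull.mono h1 fun N hN => ?_
    simp only [Set.mem_ofPred_eq] at hN ⊢
    have e1 : (fun t d => Ty (fun i : Fin 0 => i.elim0) (fun i : Fin 0 => i.elim0) Set.univ d ∧
        Ty u v S (a.natAbs * cf a b c t d j) ∧
        ArithmeticFunction.cardFactors d ≡ 0 [MOD 1] ∧
        ArithmeticFunction.cardFactors (cf a b c t d j) ≡ 0 [MOD 1]) =
        fun t d => Ty u v S (a.natAbs * cf a b c t d j) := by
      funext t d
      apply propext
      constructor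
      · exact fun h => h.2.1
      · exact fun h => ⟨by simp [Ty], h, Nat.modEq_one, Nat.modEq_one⟩
    rw [e1]
    have e2 : 1 * δ * (κ / ((1 : ℕ) : ℝ) ^ 2) * (N : ℝ) = δ * κ * N := by
      push_cast
      ring
    rw [e2]
    exact hN
  intro m m' u v u' v' S S' δ δ' hu hu' hδ hδ' k hk r s ε hε
  refine ⟨fun j => ?_, fun j l hjl => ?_⟩
  · have h1 := (hJ k hk r s j).swap (R' := fun t d =>
      ArithmeticFunction.cardFactors (cf a b c t d j) ≡ s [MOD k] ∧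
      ArithmeticFunction.cardFactors d ≡ r [MOD k]) (fun t d => and_comm)
    have h2 := dil hOk hDen hf hA1 hκ (cf_large ha hβ j) (hN1 j) h1
    have h3 := h2.swap (R' := fun t d =>
      ArithmeticFunction.cardFactors d ≡ r [MOD k] ∧
      ArithmeticFunction.cardFactors (cf a b c t d j) ≡ s [MOD k]) (fun t d => and_comm)
    refine EndS.LogNull.mono (h3 m m' u v u' v' S S' δ δ' hu hu' hδ hδ' ε hε) fun N hN => ?_
    simp only [Set.mem_ofPred_eq] at hN ⊢
    rw [show δ * δ' * (κ / (k : ℝ) ^ 2) * N = δ * δ' * κ / k ^ 2 * N by ring]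
    exact hN
  · have h2 := dil hOk hDen hf hA1 hκ (cf_large ha hβ j) (hN1 j) (hJL k hk r s j l hjl)
    have h3 := h2.swap (R' := fun t d =>
      ArithmeticFunction.cardFactors (cf a b c t d l) ≡ s [MOD k] ∧
      ArithmeticFunction.cardFactors (cf a b c t d j) ≡ r [MOD k]) (fun t d => and_comm)
    have h4 := dil hOk hDen hf hA1 hκ (cf_large ha hβ l) (hN1 l) h3
    have h5 := h4.swap (R' := fun t d =>
      ArithmeticFunction.cardFactors (cf a b c t d j) ≡ r [MOD k] ∧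
      ArithmeticFunction.cardFactors (cf a b c t d l) ≡ s [MOD k]) (fun t d => and_comm)
    refine EndS.LogNull.mono (h5 m m' u v u' v' S S' δ δ' hu hu' hδ hδ' ε hε) fun N hN => ?_
    simp only [Set.mem_ofPred_eq] at hN ⊢
    rw [show δ * δ' * (κ / (k : ℝ) ^ 2) * N = δ * δ' * κ / k ^ 2 * N by ring]
    exact hN

end Pool.Agent.Lib.MP_a17b09_nt.AS
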