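import Pool.Agent.Lib.MP_a17b09_nt.AN.SLaw_11

/-!
Project AS (MP_a17b09_nt), S6 (helper11, fork of `SP.SqP11` and `SPH.FinA11`): the progressions.
-/

set_option autoImplicit false

open Filter Topology Finset

namespace Pool.Agent.Lib.MP_a17b09_nt.AS

open CH CH.PE HY SP SPH CH.EndS
open AN (Ev Dens)
open SPH.FinA11 (count_eq OnP lim_card pair_null count_bdd count_split)
open SP.EndP27

namespace S11

open L11

/-- the sum of a function over the pairs -/
noncomputable def Sm (a b c : ℤ) (α β : ℝ) (h t0 : ℕ) (F : ℕ → ℕ → ℝ) (N : ℕ) : ℝ :=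
  ∑ t ∈ (Finset.Icc 1 N).filter (fun t => t ≡ t0 [MOD h]), ∑ d ∈ nearG a b c α β t, F t d

/-- a bounded function on the pairs with the mean `μ` -/
structure MB (a b c : ℤ) (α β : ℝ) (h t0 : ℕ) (M : LMean) (F : ℕ → ℕ → ℝ) (μ : ℝ) : Prop where
  bd : ∃ C : ℝ, ∀ t, ∀ d ∈ nearG a b c α β t, |F t d| ≤ C
  mean : M.E (fun N : ℕ => |Sm a b c α β h t0 F N / N - μ|) = 0

variable {a b c : ℤ} {α β : ℝ} {h t0 : ℕ} {M : LMean}

theorem sm_bdd (hO : OnP a b c h t0 α β) {F : ℕ → ℕ → ℝ}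
    (hF : ∃ C : ℝ, ∀ t, ∀ d ∈ nearG a b c α β t, |F t d| ≤ C) :
    Bdd (fun N : ℕ => Sm a b c α β h t0 F N / N) := by
  obtain ⟨B, hB⟩ := hO
  obtain ⟨C, hC⟩ := hF
  refine ⟨|C| * |B|, fun N => ?_⟩
  rw [abs_div, Nat.abs_cast]
  rcases Nat.eq_zero_or_pos N with h0 | h0
  · subst h0
    simp only [Nat.cast_zero, div_zero]
    positivity
  · have hN : (0 : ℝ) < N := by exact_mod_cast h0
    rw [div_le_iff₀ hN]
    have h1 : |Sm a b c α β h t0 F N| ≤ |C| *
        ((∑ t ∈ (Finset.Icc 1 N).filter (fun t => t ≡ t0 [MOD h]),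
          (nearG a b c α β t).card : ℕ) : ℝ) := by
      unfold Sm
      refine (Finset.abs_sum_le_sum_abs _ _).trans ?_
      push_cast
      rw [Finset.mul_sum]
      refine Finset.sum_le_sum fun t _ => ?_
      refine (Finset.abs_sum_le_sum_abs _ _).trans ?_
      refine (Finset.sum_le_sum fun d hd => (hC t d hd).trans (le_abs_self C)).trans ?_
      rw [Finset.sum_const, nsmul_eq_mul, mul_comm]
    have h2 : B * N ≤ |B| * N := mul_le_mul_of_nonneg_right (le_abs_self B) hN.le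
    calc |Sm a b c α β h t0 F N| ≤ _ := h1
      _ ≤ |C| * (|B| * N) := mul_le_mul_of_nonneg_left ((hB N).trans h2) (abs_nonneg C)
      _ = |C| * |B| * N := by ring

theorem sm_add (F G : ℕ → ℕ → ℝ) (N : ℕ) : Sm a b c α β h t0 (fun t d => F t d + G t d) N =
    Sm a b c α β h t0 F N + Sm a b c α β h t0 G N := by
  unfold Sm
  rw [← Finset.sum_add_distrib]
  exact Finset.sum_congr rfl fun t _ => Finset.sum_add_distrib

theorem sm_smul (x : ℝ) (F : ℕ → ℕ → ℝ) (N : ℕ) :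
    Sm a b c α β h t0 (fun t d => x * F t d) N = x * Sm a b c α β h t0 F N := by
  unfold Sm
  rw [Finset.mul_sum]
  exact Finset.sum_congr rfl fun t _ => (Finset.mul_sum _ _ _).symm

theorem MB.add (hO : OnP a b c h t0 α β) {F G : ℕ → ℕ → ℝ} {μ ν : ℝ}
    (hF : MB a b c α β h t0 M F μ) (hG : MB a b c α β h t0 M G ν) :
    MB a b c α β h t0 M (fun t d => F t d + G t d) (μ + ν) := by
  have hb : ∃ C : ℝ, ∀ t, ∀ d ∈ nearG a b c α β t, |F t d + G t d| ≤ C := by
    obtain ⟨C1, h1⟩ := hF.bd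
    obtain ⟨C2, h2⟩ := hG.bd
    exact ⟨C1 + C2, fun t d hd => (abs_add_le _ _).trans (add_le_add (h1 t d hd) (h2 t d hd))⟩
  refine ⟨hb, ?_⟩
  have b1 := ((sm_bdd hO hF.bd).sub (Bdd.const μ)).abs
  have b2 := ((sm_bdd hO hG.bd).sub (Bdd.const ν)).abs
  have b3 := ((sm_bdd hO hb).sub (Bdd.const (μ + ν))).abs
  refine le_antisymm ?_ (M.nonneg _ b3 fun _ => abs_nonneg _)
  have h1 := M.mono b3 (b1.add b2) (fun N => by
    rw [sm_add]
    have e : (Sm a b c α β h t0 F N + Sm a b c α β h t0 G N) / (N : ℝ) - (μ + ν) =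
      (Sm a b c α β h t0 F N / N - μ) + (Sm a b c α β h t0 G N / N - ν) := by ring
    rw [e]
    exact abs_add_le _ _)
  rwa [M.add _ _ b1 b2, hF.mean, hG.mean, add_zero] at h1

theorem MB.smul (hO : OnP a b c h t0 α β) (x : ℝ) {F : ℕ → ℕ → ℝ} {μ : ℝ}
    (hF : MB a b c α β h t0 M F μ) :
    MB a b c α β h t0 M (fun t d => x * F t d) (x * μ) := by
  have hb : ∃ C : ℝ, ∀ t, ∀ d ∈ nearG a b c α β t, |x * F t d| ≤ C := by
    obtain ⟨C1, h1⟩ := hF.bd
    refine ⟨|x| * C1, fun t d hd => ?_⟩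
    rw [abs_mul]
    exact mul_le_mul_of_nonneg_left (h1 t d hd) (abs_nonneg x)
  refine ⟨hb, ?_⟩
  have b1 := ((sm_bdd hO hF.bd).sub (Bdd.const μ)).abs
  have e : (fun N : ℕ => |Sm a b c α β h t0 (fun t d => x * F t d) N / N - x * μ|) =
      fun N : ℕ => |x| * |Sm a b c α β h t0 F N / N - μ| := by
    funext N
    rw [sm_smul, ← abs_mul]
    congr 1
    ring
  rw [e, M.smul _ _ b1, hF.mean, mul_zero]

theorem MB.zero : MB a b c α β h t0 M (fun _ _ => 0) 0 := by
  refine ⟨⟨0, fun t d _ => by simp⟩, ?_⟩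
  have e : (fun N : ℕ => |Sm a b c α β h t0 (fun _ _ => 0) N / N - 0|) = fun _ => (0 : ℝ) := by
    funext N
    simp [Sm]
  rw [e, M.const]

theorem MB.sum (hO : OnP a b c h t0 α β) {ι : Type} (s : Finset ι) (F : ι → ℕ → ℕ → ℝ)
    (μ : ι → ℝ) (hF : ∀ i ∈ s, MB a b c α β h t0 M (F i) (μ i)) :
    MB a b c α β h t0 M (fun t d => ∑ i ∈ s, F i t d) (∑ i ∈ s, μ i) := by
  classical
  induction s using Finset.induction_on with
  | empty =>
    simp only [Finset.sum_empty]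
    exact MB.zero
  | insert i s hi ih =>
    simp only [Finset.sum_insert hi]
    exact (hF i (Finset.mem_insert_self i s)).add hO
      (ih fun j hj => hF j (Finset.mem_insert_of_mem hj))

theorem MB.congr {F G : ℕ → ℕ → ℝ} {μ ν : ℝ} (hF : MB a b c α β h t0 M F μ)
    (hFG : ∀ t, ∀ d ∈ nearG a b c α β t, G t d = F t d) (hμ : ν = μ) :
    MB a b c α β h t0 M G ν := by
  obtain ⟨C, hC⟩ := hF.bd
  refine ⟨⟨C, fun t d hd => by rw [hFG t d hd]; exact hC t d hd⟩, ?_⟩
  have e : Sm a b c α β h t0 G = Sm a b c α β h t0 F := by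
    funext N
    exact Finset.sum_congr rfl fun t _ => Finset.sum_congr rfl (hFG t)
  rw [e, hμ]
  exact hF.mean

open Classical in
/-- the indicator of a set of pairs -/
noncomputable def iP (P : ℕ → ℕ → Prop) (t d : ℕ) : ℝ := if P t d then 1 else 0

theorem MB.ofCount (hf : ∀ t : ℕ, fv a b c t ≠ 0) (P : ℕ → ℕ → Prop) {μ : ℝ}
    (hM : M.E (fun N : ℕ => |(pairCount a b c h t0 α β P N : ℝ) / N - μ|) = 0) :
    MB a b c α β h t0 M (iP P) μ := by
  classical
  refine ⟨⟨1, fun t d _ => ?_⟩, ?_⟩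
  · unfold iP
    split_ifs <;> simp
  · refine Eq.trans ?_ hM
    congr 1
    funext N
    rw [count_eq hf P N]
    unfold Sm iP
    push_cast
    simp only [Finset.card_filter]
    push_cast
    rfl

open Classical in
/-- the sum of the squares of the deviations -/
theorem sq_idE (k : ℕ) (hk : 0 < k) (J : ℕ) (p : ℕ → Prop) (y : ℕ → ℕ) (δ : ℝ) :
    ∑ r ∈ range k, ((((range J).filter (fun j => p j ∧ y j ≡ r [MOD k])).card : ℝ) -
      J * δ / k) ^ 2 =
      ∑ q ∈ range J ×ˢ range J, (if p q.1 ∧ p q.2 ∧ y q.1 ≡ y q.2 [MOD k] then (1 : ℝ) else 0) -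
        2 * (J * δ / k) * ∑ j ∈ range J, (if p j then (1 : ℝ) else 0) + (J * δ) ^ 2 / k := by
  have hk0 : (k : ℝ) ≠ 0 := by exact_mod_cast hk.ne'
  have h1 : ∀ r, (((range J).filter (fun j => p j ∧ y j ≡ r [MOD k])).card : ℝ) =
      ∑ j ∈ range J, if p j ∧ y j ≡ r [MOD k] then (1 : ℝ) else 0 := by
    intro r
    rw [card_filter]
    push_cast
    rfl
  have h2 : ∑ r ∈ range k, (((range J).filter (fun j => p j ∧ y j ≡ r [MOD k])).card : ℝ) =
      ∑ j ∈ range J, (if p j then (1 : ℝ) else 0) := by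
    rw [sum_congr rfl fun r _ => h1 r, sum_comm]
    refine sum_congr rfl fun j _ => ?_
    by_cases hp : p j
    · rw [if_pos hp]
      have h4 := SqP11.sum_class k hk (y j) (y j)
      rw [if_pos (Nat.ModEq.refl _)] at h4
      refine Eq.trans ?_ h4
      refine sum_congr rfl fun r _ => ?_
      by_cases h5 : y j ≡ r [MOD k] <;> simp [hp, h5]
    · simp [hp]
  have h3 : ∑ r ∈ range k,
      (((range J).filter (fun j => p j ∧ y j ≡ r [MOD k])).card : ℝ) ^ 2 =
      ∑ q ∈ range J ×ˢ range J,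
        (if p q.1 ∧ p q.2 ∧ y q.1 ≡ y q.2 [MOD k] then (1 : ℝ) else 0) := by
    have h5 : ∀ q ∈ range J ×ˢ range J,
        (if p q.1 ∧ p q.2 ∧ y q.1 ≡ y q.2 [MOD k] then (1 : ℝ) else 0) =
        ∑ r ∈ range k, (if (p q.1 ∧ y q.1 ≡ r [MOD k]) ∧ (p q.2 ∧ y q.2 ≡ r [MOD k])
          then (1 : ℝ) else 0) := by
      intro q _
      by_cases hp1 : p q.1
      · by_cases hp2 : p q.2
        · have h6 := SqP11.sum_class k hk (y q.1) (y q.2)
          simp only [hp1, hp2, true_and]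
          exact h6.symm
        · simp [hp2]
      · simp [hp1]
    rw [sum_congr rfl h5, sum_comm]
    refine sum_congr rfl fun r _ => ?_
    rw [h1 r, sq, sum_mul_sum, sum_product]
    refine sum_congr rfl fun i _ => sum_congr rfl fun j _ => ?_
    by_cases h4 : p i ∧ y i ≡ r [MOD k] <;> by_cases h5 : p j ∧ y j ≡ r [MOD k] <;> simp [h4, h5]
  have h4 : ∀ r ∈ range k, ((((range J).filter (fun j => p j ∧ y j ≡ r [MOD k])).card : ℝ) -
      J * δ / k) ^ 2 = (((range J).filter (fun j => p j ∧ y j ≡ r [MOD k])).card : ℝ) ^ 2 -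
        2 * (J * δ / k) * (((range J).filter (fun j => p j ∧ y j ≡ r [MOD k])).card : ℝ) +
        (J * δ / k : ℝ) ^ 2 := fun r _ => by ring
  rw [sum_congr rfl h4, sum_add_distrib, sum_sub_distrib, ← mul_sum, h2, h3, sum_const,
    card_range, nsmul_eq_mul]
  congr 1
  field_simp

theorem om_y (hf : ∀ t : ℕ, fv a b c t ≠ 0) {t d : ℕ} (hd : d ∣ (fv a b c t).natAbs) (j : ℕ) :
    ArithmeticFunction.cardFactors (vl a b c (t + j * d)) =
      Omn d + Omn (eslot a b c t d (some j)) := FinA11.om_slot hf hd j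

/-- two events and the same class -/
def P2 (a b c : ℤ) (E : Ev) (k j l r : ℕ) (t d : ℕ) : Prop :=
  E.Is (wslot a b c t d (some j)) ∧ E.Is (wslot a b c t d (some l)) ∧
    Omn (eslot a b c t d (some j)) ≡ r [MOD k] ∧ Omn (eslot a b c t d (some l)) ≡ r [MOD k]

/-- one event -/
def P1 (a b c : ℤ) (E : Ev) (j : ℕ) (t d : ℕ) : Prop :=
  E.Is (wslot a b c t d (some j)) ∧ Ev0.Is (wslot a b c t d none) ∧
    Omn (eslot a b c t d (some j)) ≡ 0 [MOD 1] ∧ Omn (eslot a b c t d none) ≡ 0 [MOD 1]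

theorem p1_iff (a b c : ℤ) (E : Ev) (j t d : ℕ) :
    P1 a b c E j t d ↔ E.Is (wslot a b c t d (some j)) :=
  ⟨fun h => h.1, fun h => ⟨h, ev0_is _, Nat.modEq_one, Nat.modEq_one⟩⟩

/-- the sum of the squares of the deviations for a pair -/
noncomputable def W (a b c : ℤ) (E : Ev) (δ : ℝ) (J k : ℕ) (t d : ℕ) : ℝ :=
  ∑ r ∈ range k, ((cntE a b c E J k r t d : ℝ) - J * δ / k) ^ 2

theorem W_eq (hf : ∀ t : ℕ, fv a b c t ≠ 0) (E : Ev) (δ : ℝ) (J : ℕ) {k : ℕ} (hk : 0 < k)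
    {t d : ℕ} (hd : d ∈ nearG a b c α β t) : W a b c E δ J k t d =
      ∑ q ∈ (range J).offDiag ×ˢ range k, iP (P2 a b c E k q.1.1 q.1.2 q.2) t d +
      ((1 - 2 * (J * δ / k)) * ∑ j ∈ range J, iP (P1 a b c E j) t d +
        (J * δ) ^ 2 / k * iP (fun _ _ => True) t d) := by
  classical
  have hd' := near_mem hd
  have h1 := sq_idE k hk J (fun j => E.Is (wslot a b c t d (some j)))
    (fun j => ArithmeticFunction.cardFactors (vl a b c (t + j * d))) δ
  have h0 : W a b c E δ J k t d = ∑ r ∈ range k,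
      ((((range J).filter (fun j => E.Is (wslot a b c t d (some j)) ∧
        ArithmeticFunction.cardFactors (vl a b c (t + j * d)) ≡ r [MOD k])).card : ℝ) -
        J * δ / k) ^ 2 := by
    unfold W cntE
    refine sum_congr rfl fun r _ => ?_
    congr 2
  rw [h0, h1]
  have hP1 : ∀ j, (if E.Is (wslot a b c t d (some j)) then (1 : ℝ) else 0) =
      iP (P1 a b c E j) t d := by
    intro j
    unfold iP
    exact if_congr (p1_iff a b c E j t d).symm rfl rfl
  have hoff : ∀ q ∈ (range J).offDiag, (if E.Is (wslot a b c t d (some q.1)) ∧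
      E.Is (wslot a b c t d (some q.2)) ∧
      ArithmeticFunction.cardFactors (vl a b c (t + q.1 * d)) ≡
        ArithmeticFunction.cardFactors (vl a b c (t + q.2 * d)) [MOD k] then (1 : ℝ) else 0) =
      ∑ r ∈ range k, iP (P2 a b c E k q.1 q.2 r) t d := by
    intro q _
    rw [om_y hf hd', om_y hf hd']
    have h3 : (Omn d + Omn (eslot a b c t d (some q.1)) ≡
        Omn d + Omn (eslot a b c t d (some q.2)) [MOD k]) ↔
        (Omn (eslot a b c t d (some q.1)) ≡ Omn (eslot a b c t d (some q.2)) [MOD k]) :=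
      ⟨fun h => Nat.ModEq.add_left_cancel' _ h, fun h => h.add_left _⟩
    unfold iP P2
    by_cases hp1 : E.Is (wslot a b c t d (some q.1))
    · by_cases hp2 : E.Is (wslot a b c t d (some q.2))
      · simp only [hp1, hp2, true_and, h3]
        exact (SqP11.sum_class k hk _ _).symm
      · simp [hp2]
    · simp [hp1]
  rw [← diag_union_offDiag, sum_union (disjoint_diag_offDiag _), sum_congr rfl hoff,
    ← sum_product (range J).offDiag (range k) (fun q => iP (P2 a b c E k q.1.1 q.1.2 q.2) t d)]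
  have hdiag : ∑ q ∈ (range J).diag, (if E.Is (wslot a b c t d (some q.1)) ∧
      E.Is (wslot a b c t d (some q.2)) ∧
      ArithmeticFunction.cardFactors (vl a b c (t + q.1 * d)) ≡
        ArithmeticFunction.cardFactors (vl a b c (t + q.2 * d)) [MOD k] then (1 : ℝ) else 0) =
      ∑ j ∈ range J, iP (P1 a b c E j) t d := by
    rw [Finset.sum_diag]
    refine sum_congr rfl fun j _ => ?_
    rw [← hP1]
    refine if_congr ⟨fun h => h.1, fun h => ⟨h, h, Nat.ModEq.refl _⟩⟩ rfl rfl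
  rw [hdiag, sum_congr rfl fun j _ => hP1 j]
  have hT : iP (fun _ _ => True) t d = 1 := by
    unfold iP
    rw [if_pos trivial]
  rw [hT]
  ring

/-- the mean of the second moment -/
theorem W_mean (ha : 0 < a) (hf : ∀ t : ℕ, fv a b c t ≠ 0) (hO : OnP a b c h t0 α β) {κ : ℝ}
    (hκ : Tendsto (fun N : ℕ => (pairCount a b c h t0 α β (fun _ _ => True) N : ℝ) / N) atTop
      (𝓝 κ)) (hT : TwEv a b c h t0 α β) {E : Ev} {δ : ℝ} (hE : E.Ok)
    (hD : Dens E δ) {k : ℕ} (hk : 0 < k) (J : ℕ) (M : LMean) :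
    MB a b c α β h t0 M (W a b c E δ J k) (κ * (J * δ * (1 - δ / k))) := by
  have hk0 : (k : ℝ) ≠ 0 := by exact_mod_cast hk.ne'
  have m2 : ∀ q ∈ (range J).offDiag ×ˢ range k,
      MB a b c α β h t0 M (iP (P2 a b c E k q.1.1 q.1.2 q.2)) (δ * δ * κ / k ^ 2) := by
    intro q hq
    rw [mem_product, mem_offDiag] at hq
    exact MB.ofCount hf _ (law_mean ha hf hO hκ hT hE hE hD hD hk (o1 := some q.1.1)
      (o2 := some q.1.2) (fun h => hq.1.2.2 (Option.some.inj h)) q.2 q.2 M)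
  have m1 : ∀ j ∈ range J, MB a b c α β h t0 M (iP (P1 a b c E j)) (δ * 1 * κ / (1 : ℕ) ^ 2) := by
    intro j _
    exact MB.ofCount hf _ (law_mean ha hf hO hκ hT hE ev0_ok hD ev0_dens one_pos
      (o1 := some j) (o2 := none) (by simp) 0 0 M)
  have m0 : MB a b c α β h t0 M (iP (fun _ _ => True)) κ := by
    refine MB.ofCount hf _ ?_
    apply M.null _ ((count_bdd hf hO _).sub (Bdd.const κ)).abs
    have h1 := (hκ.sub_const κ).abs
    rw [sub_self, abs_zero] at h1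
    exact h1
  have hall := (MB.sum hO _ _ _ m2).add hO (((MB.sum hO _ _ _ m1).smul hO
    (1 - 2 * (J * δ / k))).add hO (m0.smul hO ((J * δ) ^ 2 / k)))
  refine hall.congr (fun t d hd => W_eq hf E δ J hk hd) ?_
  have hcard : (((range J).offDiag ×ˢ range k).card : ℝ) = ((J : ℝ) ^ 2 - J) * k := by
    rw [card_product, offDiag_card, card_range, card_range]
    have : J ≤ J * J := by
      rcases Nat.eq_zero_or_pos J with h0 | h0
      · rw [h0]
      · exact Nat.le_mul_of_pos_left J h0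
    push_cast [Nat.cast_sub this]
    ring
  rw [sum_const, nsmul_eq_mul, hcard, sum_const, nsmul_eq_mul, card_range]
  push_cast
  field_simp
  ring

theorem W_nonneg (a b c : ℤ) (E : Ev) (δ : ℝ) (J k t d : ℕ) : 0 ≤ W a b c E δ J k t d :=
  Finset.sum_nonneg fun _ _ => sq_nonneg _

theorem cntE_mod (a b c : ℤ) (E : Ev) (J k r t d : ℕ) :
    cntE a b c E J k (r % k) t d = cntE a b c E J k r t d := by
  classical
  unfold cntE
  congr 1
  ext j
  simp only [Finset.mem_filter]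
  unfold Nat.ModEq
  rw [Nat.mod_mod]

/-- the bad pairs -/
def Bad (a b c : ℤ) (E : Ev) (δ : ℝ) (J k : ℕ) (η : ℝ) (t d : ℕ) : Prop :=
  ∃ r : ℕ, η * J < |(cntE a b c E J k r t d : ℝ) - J * δ / k|

/-- Chebyshev -/
theorem cheb (hf : ∀ t : ℕ, fv a b c t ≠ 0) (E : Ev) (δ : ℝ) {J k : ℕ}
    (hk : 0 < k) {η : ℝ} (hη : 0 < η) (N : ℕ) :
    (η * J) ^ 2 * (pairCount a b c h t0 α β (Bad a b c E δ J k η) N : ℝ) ≤
      Sm a b c α β h t0 (W a b c E δ J k) N := by
  classical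
  rw [count_eq hf (Bad a b c E δ J k η) N]
  unfold Sm
  push_cast
  rw [Finset.mul_sum]
  refine Finset.sum_le_sum fun t _ => ?_
  calc (η * J) ^ 2 * (((nearG a b c α β t).filter (Bad a b c E δ J k η t)).card : ℝ)
      = ∑ d ∈ (nearG a b c α β t).filter (Bad a b c E δ J k η t), (η * J) ^ 2 := by
        rw [Finset.sum_const, nsmul_eq_mul, mul_comm]
    _ ≤ ∑ d ∈ (nearG a b c α β t).filter (Bad a b c E δ J k η t), W a b c E δ J k t d := by
        refine Finset.sum_le_sum fun d hd => ?_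
        obtain ⟨r, hr⟩ := (Finset.mem_filter.1 hd).2
        have h1 : (η * J) ^ 2 ≤ ((cntE a b c E J k (r % k) t d : ℝ) - J * δ / k) ^ 2 := by
          rw [cntE_mod, ← sq_abs ((cntE a b c E J k r t d : ℝ) - J * δ / k)]
          exact pow_le_pow_left₀ (by positivity) hr.le 2
        refine h1.trans ?_
        exact Finset.single_le_sum
          (f := fun r => ((cntE a b c E J k r t d : ℝ) - J * δ / k) ^ 2)
          (fun _ _ => sq_nonneg _) (Finset.mem_range.2 (Nat.mod_lt _ hk))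
    _ ≤ ∑ d ∈ nearG a b c α β t, W a b c E δ J k t d :=
        Finset.sum_le_sum_of_subset_of_nonneg (Finset.filter_subset _ _)
          fun d _ _ => W_nonneg a b c E δ J k t d

/-- rarely many bad progressions -/
theorem bad_null (hf : ∀ t : ℕ, fv a b c t ≠ 0) (hO : OnP a b c h t0 α β) {E : Ev} {δ : ℝ}
    (hδ0 : 0 ≤ δ) (hδ1 : δ ≤ 1)
    {J k : ℕ} (hJ : 0 < J) (hk : 0 < k) {η κ : ℝ} (hη : 0 < η) (hκ : 0 < κ)
    (hM : ∀ M : LMean, MB a b c α β h t0 M (W a b c E δ J k) (κ * (J * δ * (1 - δ / k))))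
    (hb : ∃ C : ℝ, ∀ t, ∀ d ∈ nearG a b c α β t, |W a b c E δ J k t d| ≤ C)
    {ε : ℝ} (hε : 0 < ε) :
    LogNull {N : ℕ | (1 / (η ^ 2 * J) + ε) * κ * N <
      (pairCount a b c h t0 α β (Bad a b c E δ J k η) N : ℝ)} := by
  have hJ0 : (0 : ℝ) < J := by exact_mod_cast hJ
  have hk0 : (0 : ℝ) < k := by exact_mod_cast hk
  have hk1 : (1 : ℝ) ≤ k := by exact_mod_cast hk
  have hεp : 0 < ε * κ * (η * J) ^ 2 := by positivity
  have h1 := logNull_of stMeanU_70 ((sm_bdd hO hb).sub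
    (Bdd.const (κ * (J * δ * (1 - δ / k))))).abs (fun N => abs_nonneg _)
    (fun M => (hM M).mean) hεp
  refine logNull_fin h1 1 fun N hN hN1 => ?_
  simp only [Set.mem_ofPred_eq] at hN ⊢
  have hN0 : (0 : ℝ) < N := by exact_mod_cast hN1
  have h2 := cheb (h := h) (t0 := t0) (α := α) (β := β) hf E δ hk hη (J := J) N
  set X : ℝ := (pairCount a b c h t0 α β (Bad a b c E δ J k η) N : ℝ) with hX
  set Y : ℝ := Sm a b c α β h t0 (W a b c E δ J k) N with hY
  refine lt_of_lt_of_le ?_ (le_abs_self _)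
  have h3 : (η * J) ^ 2 * ((1 / (η ^ 2 * J) + ε) * κ * N) < Y :=
    (mul_lt_mul_of_pos_left hN (by positivity)).trans_le h2
  have h4 : (η * J) ^ 2 * ((1 / (η ^ 2 * J) + ε) * κ * N) =
      (κ * J + ε * κ * (η * J) ^ 2) * N := by
    field_simp
  rw [h4] at h3
  have h5 : κ * J + ε * κ * (η * J) ^ 2 < Y / N := by
    rw [lt_div_iff₀ hN0]; exact h3
  have h6 : κ * (J * δ * (1 - δ / k)) ≤ κ * J := by
    refine mul_le_mul_of_nonneg_left ?_ hκ.le
    have e1 : 0 ≤ δ / k := by positivity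
    have e2 : δ / k ≤ 1 := by
      rw [div_le_one hk0]
      linarith
    have e3 : J * δ * (1 - δ / k) ≤ J * δ * 1 :=
      mul_le_mul_of_nonneg_left (by linarith) (by positivity)
    have e4 : (J : ℝ) * δ ≤ J * 1 := mul_le_mul_of_nonneg_left hδ1 hJ0.le
    linarith
  linarith

/-- many good pairs at all large scales -/
theorem good_lower (hf : ∀ t : ℕ, fv a b c t ≠ 0) (P : ℕ → ℕ → Prop)
    {J : ℕ} (hJ : 0 < J) {η κ : ℝ} (hη : 0 < η) (hκ : 0 < κ)
    (hlim : Tendsto (fun N : ℕ => (pairCount a b c h t0 α β (fun _ _ => True) N : ℝ) / N) atTop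
      (𝓝 κ))
    (hbad : ∀ ε : ℝ, 0 < ε → LogNull {N : ℕ | (1 / (η ^ 2 * J) + ε) * κ * N <
      (pairCount a b c h t0 α β P N : ℝ)}) (hη1 : 1 < η ^ 2 * J) :
    ∃ c' : ℝ, 0 < c' ∧ ∀ᶠ N : ℕ in atTop, c' * N ≤
      (pairCount a b c h t0 α β (fun t d => ¬ P t d) N : ℝ) := by
  have hJ0 : (0 : ℝ) < J := by exact_mod_cast hJ
  have hθ : 0 < 1 - 1 / (η ^ 2 * J) := by
    rw [sub_pos, div_lt_one (by positivity)]
    exact hη1
  set θ := 1 - 1 / (η ^ 2 * J) with hθd
  have hmono : Monotone (fun N : ℕ =>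
      (pairCount a b c h t0 α β (fun t d => ¬ P t d) N : ℝ)) := by
    intro m n hmn
    exact Nat.cast_le.2 (EndT.count_mono _ hmn)
  refine lower_all' hmono (κ := κ * θ / 2) (by positivity) ?_
  have h1 : ∀ᶠ N : ℕ in atTop, (1 - θ / 4) * κ <
      (pairCount a b c h t0 α β (fun _ _ => True) N : ℝ) / N := by
    apply hlim.eventually_const_lt
    nlinarith
  obtain ⟨N1, hN1⟩ := h1.exists_forall_of_atTop
  refine logNull_fin (hbad (θ / 4) (by positivity)) (max N1 1) fun N hN hN2 => ?_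
  simp only [Set.mem_ofPred_eq] at hN ⊢
  have hN0 : (0 : ℝ) < N := by
    have : 0 < N := (le_max_right N1 1).trans hN2
    exact_mod_cast this
  have h2 := hN1 N ((le_max_left _ _).trans hN2)
  rw [lt_div_iff₀ hN0] at h2
  have h3 := count_split (h := h) (t₀ := t0) (α := α) (β := β) hf P N
  have h4 : (pairCount a b c h t0 α β (fun _ _ => True) N : ℝ) =
      pairCount a b c h t0 α β P N +
      pairCount a b c h t0 α β (fun t d => ¬ P t d) N := by
    exact_mod_cast h3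
  rw [h4] at h2
  have h5 : 1 / (η ^ 2 * J) = 1 - θ := by rw [hθd]; ring
  rw [h5]
  have h6 : (1 - θ + θ / 4) * κ * N = (1 - θ / 4) * κ * N - κ * θ / 2 * N := by ring
  rw [h6]
  linarith

/-- the second moment is bounded -/
theorem W_bd (a b c : ℤ) (α β : ℝ) (E : Ev) {δ : ℝ} (hδ0 : 0 ≤ δ) (hδ1 : δ ≤ 1) (J : ℕ) {k : ℕ}
    (hk : 0 < k) : ∃ C : ℝ, ∀ t, ∀ d ∈ nearG a b c α β t, |W a b c E δ J k t d| ≤ C := by
  classical
  have hk0 : (0 : ℝ) < k := by exact_mod_cast hk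
  have hk1 : (1 : ℝ) ≤ k := by exact_mod_cast hk
  refine ⟨k * J ^ 2, fun t d _ => ?_⟩
  rw [abs_of_nonneg (W_nonneg a b c E δ J k t d)]
  have h4 : ∀ r ∈ Finset.range k, ((cntE a b c E J k r t d : ℝ) - J * δ / k) ^ 2 ≤ J ^ 2 := by
    intro r _
    have h5 : (cntE a b c E J k r t d : ℝ) ≤ J := by
      have : cntE a b c E J k r t d ≤ J := by
        unfold cntE
        exact (Finset.card_filter_le _ _).trans (by rw [Finset.card_range])
      exact_mod_cast this
    have h6 : (0 : ℝ) ≤ cntE a b c E J k r t d := Nat.cast_nonneg _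
    have h7 : (0 : ℝ) ≤ J * δ / k := by positivity
    have h8 : (J : ℝ) * δ / k ≤ J := by
      refine (div_le_self (by positivity) hk1).trans ?_
      exact mul_le_of_le_one_right (Nat.cast_nonneg _) hδ1
    exact sq_le_sq' (by linarith) (by linarith)
  refine (Finset.sum_le_sum h4).trans ?_
  rw [Finset.sum_const, Finset.card_range, nsmul_eq_mul]

end S11

open S11 L11 in
/-- row S6 -/
theorem stProgS_11 : StProgS := by
  intro a b c ha hf h hh t0 α β hα hαβ hO hT κ hκ hlim E δ hE hD k hk J hJ η hη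
  have hbad := fun (ε : ℝ) (hε : 0 < ε) => bad_null hf hO hD.1 hD.2.1 hJ hk hη hκ
    (fun M => W_mean ha hf hO hlim hT hE hD hk J M) (W_bd a b c α β E hD.1 hD.2.1 J hk) hε
  refine ⟨fun ε hε => hbad ε hε, fun hη1 => ?_⟩
  obtain ⟨c', hc', hev⟩ := good_lower hf _ hJ hη hκ hlim hbad hη1
  refine ⟨c', hc', hev.mono fun N hN => hN.trans (le_of_eq ?_)⟩
  have e1 : (fun t d => ¬ Bad a b c E δ J k η t d) = (fun (t d : ℕ) =>
      ∀ r : ℕ, |(cntE a b c E J k r t d : ℝ) - J * δ / k| ≤ η * J) := by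
    funext t d
    unfold Bad
    apply propext
    push Not
    rfl
  rw [e1]

end Pool.Agent.Lib.MP_a17b09_nt.AS
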