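import Pool.Agent.Lib.MP_a17b09_nt.AN.TStmts3
import Pool.Agent.Lib.MP_a17b09_nt.AN.SProg_11

/-!
Project AS (MP_a17b09_nt), U2 (helper11): the progressions for one property, from the law of two
slots.
-/

set_option autoImplicit false

open Filter Topology Finset

namespace Pool.Agent.Lib.MP_a17b09_nt.AS

open CH CH.PE HY SP SPH CH.EndS
open SPH.FinA11 (count_eq OnP count_split)
open SP.EndP27

namespace T11

open S11 L11

/-- the union of two rare sets -/
theorem null_union {E E' : Set ℕ} (h : LogNull E) (h' : LogNull E') : LogNull (E ∪ E') := by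
  intro ε hε
  obtain ⟨H0, hH0⟩ := h (ε / 2) (by positivity)
  obtain ⟨H1, hH1⟩ := h' (ε / 2) (by positivity)
  refine ⟨max H0 H1, fun H hH => ?_⟩
  obtain ⟨N0, hN0⟩ := hH0 H ((le_max_left _ _).trans hH)
  obtain ⟨N1, hN1⟩ := hH1 H ((le_max_right _ _).trans hH)
  refine ⟨max N0 N1, fun N hN => ?_⟩
  have h1 := hN0 N ((le_max_left _ _).trans hN)
  have h2 := hN1 N ((le_max_right _ _).trans hN)
  have h3 : ∑ n ∈ Finset.Ioc N (2 ^ H * N), (E ∪ E').indicator (fun n => (1 : ℝ) / n) n ≤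
      ∑ n ∈ Finset.Ioc N (2 ^ H * N), E.indicator (fun n => (1 : ℝ) / n) n +
      ∑ n ∈ Finset.Ioc N (2 ^ H * N), E'.indicator (fun n => (1 : ℝ) / n) n := by
    rw [← Finset.sum_add_distrib]
    refine Finset.sum_le_sum fun n _ => ?_
    have p1 : 0 ≤ E.indicator (fun n : ℕ => (1 : ℝ) / n) n :=
      Set.indicator_nonneg (fun x _ => by positivity) n
    have p2 : 0 ≤ E'.indicator (fun n : ℕ => (1 : ℝ) / n) n :=
      Set.indicator_nonneg (fun x _ => by positivity) n
    by_cases hn : n ∈ E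
    · have hu : n ∈ E ∪ E' := Or.inl hn
      rw [Set.indicator_of_mem hu, Set.indicator_of_mem hn]
      linarith
    · by_cases hn' : n ∈ E'
      · have hu : n ∈ E ∪ E' := Or.inr hn'
        rw [Set.indicator_of_mem hu, Set.indicator_of_mem hn']
        linarith
      · have hu : n ∉ E ∪ E' := fun h => h.elim hn hn'
        rw [Set.indicator_of_notMem hu]
        linarith
  linarith

theorem null_mono {E E' : Set ℕ} (h : LogNull E) (hs : ∀ N ∈ E', N ∈ E) : LogNull E' :=
  CH.EndS.LogNull.mono h hs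

/-- `F N` is about `μ N` off a rare set -/
def AL (F : ℕ → ℝ) (μ : ℝ) : Prop := ∀ ε : ℝ, 0 < ε → LogNull {N : ℕ | ε * N < |F N - μ * N|}

theorem AL.add {F G : ℕ → ℝ} {μ ν : ℝ} (hF : AL F μ) (hG : AL G ν) :
    AL (fun N => F N + G N) (μ + ν) := by
  intro ε hε
  refine null_mono (null_union (hF (ε / 2) (by positivity)) (hG (ε / 2) (by positivity)))
    fun N hN => ?_
  simp only [Set.mem_union, Set.mem_ofPred_eq] at hN ⊢
  by_contra hc
  push Not at hc
  have h1 : F N + G N - (μ + ν) * N = (F N - μ * N) + (G N - ν * N) := by ring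
  rw [h1] at hN
  have h2 := abs_add_le (F N - μ * N) (G N - ν * N)
  have h3 := hc.1
  have h4 := hc.2
  linarith

theorem AL.smul {F : ℕ → ℝ} {μ : ℝ} (hF : AL F μ) (x : ℝ) :
    AL (fun N => x * F N) (x * μ) := by
  intro ε hε
  have hx : 0 < |x| + 1 := by positivity
  refine null_mono (hF (ε / (|x| + 1)) (by positivity)) fun N hN => ?_
  simp only [Set.mem_ofPred_eq] at hN ⊢
  have h1 : x * F N - x * μ * N = x * (F N - μ * N) := by ring
  rw [h1, abs_mul] at hN
  rw [div_mul_eq_mul_div, div_lt_iff₀ hx]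
  have h2 := abs_nonneg (F N - μ * N)
  nlinarith

theorem AL.zero : AL (fun _ => 0) 0 := by
  intro ε hε η hη
  refine ⟨0, fun H _ => ⟨0, fun N _ => ?_⟩⟩
  have h1 : ∀ n ∈ Finset.Ioc N (2 ^ H * N),
      {N : ℕ | ε * N < |(0 : ℝ) - 0 * N|}.indicator (fun n => (1 : ℝ) / n) n = 0 := by
    intro n _
    rw [Set.indicator_of_notMem]
    simp only [Set.mem_ofPred_eq, zero_mul, sub_zero, abs_zero, not_lt]
    positivity
  rw [Finset.sum_congr rfl h1, Finset.sum_const_zero]
  positivity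

theorem AL.sum {ι : Type} (s : Finset ι) (F : ι → ℕ → ℝ) (μ : ι → ℝ)
    (hF : ∀ i ∈ s, AL (F i) (μ i)) : AL (fun N => ∑ i ∈ s, F i N) (∑ i ∈ s, μ i) := by
  classical
  induction s using Finset.induction_on with
  | empty =>
    simp only [Finset.sum_empty]
    exact AL.zero
  | insert i s hi ih =>
    simp only [Finset.sum_insert hi]
    exact (hF i (Finset.mem_insert_self i s)).add
      (ih fun j hj => hF j (Finset.mem_insert_of_mem hj))

theorem AL.of_lim {F : ℕ → ℝ} {μ : ℝ} (h : Tendsto (fun N : ℕ => F N / N) atTop (𝓝 μ)) :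
    AL F μ := by
  intro ε hε
  rw [Metric.tendsto_atTop] at h
  obtain ⟨N0, hN0⟩ := h ε hε
  have h0 : LogNull (∅ : Set ℕ) := by
    intro η hη
    refine ⟨0, fun H _ => ⟨0, fun N _ => ?_⟩⟩
    simp only [Set.indicator_empty, Finset.sum_const_zero]
    positivity
  refine logNull_fin h0 (max N0 1) fun N hN hN1 => ?_
  simp only [Set.mem_ofPred_eq] at hN
  have h1 := hN0 N ((le_max_left _ _).trans hN1)
  have h2 : (0 : ℝ) < N := by
    have : 0 < N := (le_max_right N0 1).trans hN1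
    exact_mod_cast this
  rw [Real.dist_eq] at h1
  have h3 : F N - μ * N = (F N / N - μ) * N := by
    field_simp
  rw [h3, abs_mul, Nat.abs_cast] at hN
  have h4 := lt_of_mul_lt_mul_right hN h2.le
  exact absurd h1 (not_lt.2 h4.le)

variable {a b c : ℤ} {α β : ℝ} {h t0 : ℕ}

theorem sm_count (hf : ∀ t : ℕ, fv a b c t ≠ 0) (P : ℕ → ℕ → Prop) (N : ℕ) :
    (pairCount a b c h t0 α β P N : ℝ) = Sm a b c α β h t0 (iP P) N := by
  classical
  rw [count_eq hf P N]
  unfold Sm iP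
  push_cast
  simp only [Finset.card_filter]
  push_cast
  rfl

theorem sm_sum {ι : Type} (s : Finset ι) (F : ι → ℕ → ℕ → ℝ) (N : ℕ) :
    Sm a b c α β h t0 (fun t d => ∑ i ∈ s, F i t d) N =
      ∑ i ∈ s, Sm a b c α β h t0 (F i) N := by
  classical
  induction s using Finset.induction_on with
  | empty =>
    simp only [Finset.sum_empty]
    unfold Sm
    simp
  | insert i s hi ih =>
    simp only [Finset.sum_insert hi]
    rw [sm_add (F i) (fun t d => ∑ j ∈ s, F j t d) N, ih]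

theorem om_cf (hf : ∀ t : ℕ, fv a b c t ≠ 0) {t d : ℕ} (hd : d ∣ (fv a b c t).natAbs) (j : ℕ) :
    ArithmeticFunction.cardFactors (vl a b c (t + j * d)) =
      Omn d + ArithmeticFunction.cardFactors (cf a b c t d j) := FinA11.om_slot hf hd j

/-- two properties and the same class -/
def P2 (a b c : ℤ) (T : ℕ → Prop) (k j l r : ℕ) (t d : ℕ) : Prop :=
  T (cf a b c t d j) ∧ T (cf a b c t d l) ∧
    ArithmeticFunction.cardFactors (cf a b c t d j) ≡ r [MOD k] ∧
    ArithmeticFunction.cardFactors (cf a b c t d l) ≡ r [MOD k]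

/-- one property -/
def P1 (a b c : ℤ) (T : ℕ → Prop) (j : ℕ) (t d : ℕ) : Prop :=
  True ∧ T (cf a b c t d j) ∧ ArithmeticFunction.cardFactors d ≡ 0 [MOD 1] ∧
    ArithmeticFunction.cardFactors (cf a b c t d j) ≡ 0 [MOD 1]

theorem p1_iff (a b c : ℤ) (T : ℕ → Prop) (j t d : ℕ) :
    P1 a b c T j t d ↔ T (cf a b c t d j) :=
  ⟨fun h => h.2.1, fun h => ⟨trivial, h, Nat.modEq_one, Nat.modEq_one⟩⟩

/-- the sum of the squares of the deviations for a pair -/
noncomputable def W (a b c : ℤ) (T : ℕ → Prop) (δ : ℝ) (J k : ℕ) (t d : ℕ) : ℝ :=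
  ∑ r ∈ range k, ((cntT a b c T J k r t d : ℝ) - J * δ / k) ^ 2

theorem W_eq (hf : ∀ t : ℕ, fv a b c t ≠ 0) (T : ℕ → Prop) (δ : ℝ) (J : ℕ) {k : ℕ} (hk : 0 < k)
    {t d : ℕ} (hd : d ∈ nearG a b c α β t) : W a b c T δ J k t d =
      ∑ q ∈ (range J).offDiag ×ˢ range k, iP (P2 a b c T k q.1.1 q.1.2 q.2) t d +
      ((1 - 2 * (J * δ / k)) * ∑ j ∈ range J, iP (P1 a b c T j) t d +
        (J * δ) ^ 2 / k * iP (fun _ _ => True) t d) := by
  classical
  have hd' := near_mem hd
  have h1 := sq_idE k hk J (fun j => T (cf a b c t d j))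
    (fun j => ArithmeticFunction.cardFactors (vl a b c (t + j * d))) δ
  have h0 : W a b c T δ J k t d = ∑ r ∈ range k,
      ((((range J).filter (fun j => T (cf a b c t d j) ∧
        ArithmeticFunction.cardFactors (vl a b c (t + j * d)) ≡ r [MOD k])).card : ℝ) -
        J * δ / k) ^ 2 := by
    unfold W cntT
    refine sum_congr rfl fun r _ => ?_
    congr 2
  rw [h0, h1]
  have hP1 : ∀ j, (if T (cf a b c t d j) then (1 : ℝ) else 0) =
      iP (P1 a b c T j) t d := by
    intro j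
    unfold iP
    exact if_congr (p1_iff a b c T j t d).symm rfl rfl
  have hoff : ∀ q ∈ (range J).offDiag, (if T (cf a b c t d q.1) ∧
      T (cf a b c t d q.2) ∧
      ArithmeticFunction.cardFactors (vl a b c (t + q.1 * d)) ≡
        ArithmeticFunction.cardFactors (vl a b c (t + q.2 * d)) [MOD k] then (1 : ℝ) else 0) =
      ∑ r ∈ range k, iP (P2 a b c T k q.1 q.2 r) t d := by
    intro q _
    rw [om_cf hf hd', om_cf hf hd']
    have h3 : (Omn d + ArithmeticFunction.cardFactors (cf a b c t d q.1) ≡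
        Omn d + ArithmeticFunction.cardFactors (cf a b c t d q.2) [MOD k]) ↔
        (ArithmeticFunction.cardFactors (cf a b c t d q.1) ≡
          ArithmeticFunction.cardFactors (cf a b c t d q.2) [MOD k]) :=
      ⟨fun h => Nat.ModEq.add_left_cancel' _ h, fun h => h.add_left _⟩
    unfold iP P2
    by_cases hp1 : T (cf a b c t d q.1)
    · by_cases hp2 : T (cf a b c t d q.2)
      · simp only [hp1, hp2, true_and, h3]
        exact (SqP11.sum_class k hk _ _).symm
      · simp [hp2]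
    · simp [hp1]
  rw [← diag_union_offDiag, sum_union (disjoint_diag_offDiag _), sum_congr rfl hoff,
    ← sum_product (range J).offDiag (range k) (fun q => iP (P2 a b c T k q.1.1 q.1.2 q.2) t d)]
  have hdiag : ∑ q ∈ (range J).diag, (if T (cf a b c t d q.1) ∧
      T (cf a b c t d q.2) ∧
      ArithmeticFunction.cardFactors (vl a b c (t + q.1 * d)) ≡
        ArithmeticFunction.cardFactors (vl a b c (t + q.2 * d)) [MOD k] then (1 : ℝ) else 0) =
      ∑ j ∈ range J, iP (P1 a b c T j) t d := by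
    rw [Finset.sum_diag]
    refine sum_congr rfl fun j _ => ?_
    rw [← hP1]
    refine if_congr ⟨fun h => h.1, fun h => ⟨h, h, Nat.ModEq.refl _⟩⟩ rfl rfl
  rw [hdiag, sum_congr rfl fun j _ => hP1 j]
  have hT : iP (fun _ _ => True) t d = 1 := by
    unfold iP
    rw [if_pos trivial]
  rw [hT]
  ring

/-- the mean of the second moment -/
theorem W_mean (hf : ∀ t : ℕ, fv a b c t ≠ 0) {κ : ℝ}
    (hκ : Tendsto (fun N : ℕ => (pairCount a b c h t0 α β (fun _ _ => True) N : ℝ) / N) atTop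
      (𝓝 κ)) {T : ℕ → Prop} {δ : ℝ} (h1 : LawT a b c h t0 α β κ (fun _ => True) T 1 δ)
    (h2 : LawT a b c h t0 α β κ T T δ δ) {k : ℕ} (hk : 0 < k) (J : ℕ) :
    AL (Sm a b c α β h t0 (W a b c T δ J k)) (κ * (J * δ * (1 - δ / k))) := by
  have hk0 : (k : ℝ) ≠ 0 := by exact_mod_cast hk.ne'
  have m2 : ∀ q ∈ (range J).offDiag ×ˢ range k,
      AL (Sm a b c α β h t0 (iP (P2 a b c T k q.1.1 q.1.2 q.2))) (δ * δ * κ / k ^ 2) := by
    intro q hq ε hε
    rw [mem_product, mem_offDiag] at hq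
    have e := (h2 k hk q.2 q.2 ε hε).2 q.1.1 q.1.2 hq.1.2.2
    refine null_mono e fun N hN => ?_
    simp only [Set.mem_ofPred_eq] at hN ⊢
    rw [← sm_count hf] at hN
    exact hN
  have m1 : ∀ j ∈ range J, AL (Sm a b c α β h t0 (iP (P1 a b c T j)))
      (1 * δ * κ / ((1 : ℕ) : ℝ) ^ 2) := by
    intro j _ ε hε
    have e := (h1 1 one_pos 0 0 ε hε).1 j
    refine null_mono e fun N hN => ?_
    simp only [Set.mem_ofPred_eq] at hN ⊢
    rw [← sm_count hf] at hN
    exact hN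
  have m0 : AL (Sm a b c α β h t0 (iP (fun _ _ => True))) κ := by
    have e := AL.of_lim (F := fun N => (pairCount a b c h t0 α β (fun _ _ => True) N : ℝ)) hκ
    intro ε hε
    refine null_mono (e ε hε) fun N hN => ?_
    simp only [Set.mem_ofPred_eq] at hN ⊢
    rw [← sm_count hf] at hN
    exact hN
  have hall := (AL.sum _ _ _ m2).add (((AL.sum _ _ _ m1).smul
    (1 - 2 * (J * δ / k))).add (m0.smul ((J * δ) ^ 2 / k)))
  have e1 : (fun N => ∑ q ∈ (range J).offDiag ×ˢ range k,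
      Sm a b c α β h t0 (iP (P2 a b c T k q.1.1 q.1.2 q.2)) N +
      ((1 - 2 * (J * δ / k)) * ∑ j ∈ range J, Sm a b c α β h t0 (iP (P1 a b c T j)) N +
        (J * δ) ^ 2 / k * Sm a b c α β h t0 (iP (fun _ _ => True)) N)) =
      Sm a b c α β h t0 (W a b c T δ J k) := by
    funext N
    rw [← sm_sum, ← sm_sum, ← sm_smul, ← sm_smul, ← sm_add, ← sm_add]
    unfold Sm
    refine sum_congr rfl fun t _ => sum_congr rfl fun d hd => ?_
    exact (W_eq hf T δ J hk hd).symm
  have hcard : (((range J).offDiag ×ˢ range k).card : ℝ) = ((J : ℝ) ^ 2 - J) * k := by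
    rw [card_product, offDiag_card, card_range, card_range]
    have : J ≤ J * J := by
      rcases Nat.eq_zero_or_pos J with h0 | h0
      · rw [h0]
      · exact Nat.le_mul_of_pos_left J h0
    push_cast [Nat.cast_sub this]
    ring
  have e2 : ∑ q ∈ (range J).offDiag ×ˢ range k, δ * δ * κ / (k : ℝ) ^ 2 +
      ((1 - 2 * (J * δ / k)) * ∑ j ∈ range J, 1 * δ * κ / ((1 : ℕ) : ℝ) ^ 2 +
        (J * δ) ^ 2 / k * κ) = κ * (J * δ * (1 - δ / k)) := by
    rw [sum_const, nsmul_eq_mul, hcard, sum_const, nsmul_eq_mul, card_range]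
    push_cast
    field_simp
    ring
  rw [e1, e2] at hall
  exact hall

theorem W_nonneg (a b c : ℤ) (T : ℕ → Prop) (δ : ℝ) (J k t d : ℕ) :
    0 ≤ W a b c T δ J k t d := Finset.sum_nonneg fun _ _ => sq_nonneg _

theorem cntT_mod (a b c : ℤ) (T : ℕ → Prop) (J k r t d : ℕ) :
    cntT a b c T J k (r % k) t d = cntT a b c T J k r t d := by
  classical
  unfold cntT
  congr 1
  ext j
  simp only [Finset.mem_filter]
  unfold Nat.ModEq
  rw [Nat.mod_mod]

/-- the bad pairs -/
def Bad (a b c : ℤ) (T : ℕ → Prop) (δ : ℝ) (J k : ℕ) (η : ℝ) (t d : ℕ) : Prop :=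
  ∃ r : ℕ, η * J < |(cntT a b c T J k r t d : ℝ) - J * δ / k|

/-- Chebyshev -/
theorem cheb (hf : ∀ t : ℕ, fv a b c t ≠ 0) (T : ℕ → Prop) (δ : ℝ) {J k : ℕ}
    (hk : 0 < k) {η : ℝ} (hη : 0 < η) (N : ℕ) :
    (η * J) ^ 2 * (pairCount a b c h t0 α β (Bad a b c T δ J k η) N : ℝ) ≤
      Sm a b c α β h t0 (W a b c T δ J k) N := by
  classical
  rw [count_eq hf (Bad a b c T δ J k η) N]
  unfold Sm
  push_cast
  rw [Finset.mul_sum]
  refine Finset.sum_le_sum fun t _ => ?_
  calc (η * J) ^ 2 * (((nearG a b c α β t).filter (Bad a b c T δ J k η t)).card : ℝ)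
      = ∑ d ∈ (nearG a b c α β t).filter (Bad a b c T δ J k η t), (η * J) ^ 2 := by
        rw [Finset.sum_const, nsmul_eq_mul, mul_comm]
    _ ≤ ∑ d ∈ (nearG a b c α β t).filter (Bad a b c T δ J k η t), W a b c T δ J k t d := by
        refine Finset.sum_le_sum fun d hd => ?_
        obtain ⟨r, hr⟩ := (Finset.mem_filter.1 hd).2
        have h1 : (η * J) ^ 2 ≤ ((cntT a b c T J k (r % k) t d : ℝ) - J * δ / k) ^ 2 := by
          rw [cntT_mod, ← sq_abs ((cntT a b c T J k r t d : ℝ) - J * δ / k)]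
          exact pow_le_pow_left₀ (by positivity) hr.le 2
        refine h1.trans ?_
        exact Finset.single_le_sum
          (f := fun r => ((cntT a b c T J k r t d : ℝ) - J * δ / k) ^ 2)
          (fun _ _ => sq_nonneg _) (Finset.mem_range.2 (Nat.mod_lt _ hk))
    _ ≤ ∑ d ∈ nearG a b c α β t, W a b c T δ J k t d :=
        Finset.sum_le_sum_of_subset_of_nonneg (Finset.filter_subset _ _)
          fun d _ _ => W_nonneg a b c T δ J k t d

/-- rarely many bad progressions -/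
theorem bad_null (hf : ∀ t : ℕ, fv a b c t ≠ 0) {T : ℕ → Prop} {δ : ℝ}
    (hδ0 : 0 ≤ δ) {J k : ℕ} (hJ : 0 < J) (hk : 0 < k) {η κ : ℝ} (hη : 0 < η) (hκ : 0 < κ)
    (hM : AL (Sm a b c α β h t0 (W a b c T δ J k)) (κ * (J * δ * (1 - δ / k))))
    {ε : ℝ} (hε : 0 < ε) :
    LogNull {N : ℕ | (δ / (η ^ 2 * J) + ε) * κ * N <
      (pairCount a b c h t0 α β (Bad a b c T δ J k η) N : ℝ)} := by
  have hJ0 : (0 : ℝ) < J := by exact_mod_cast hJ
  have hk0 : (0 : ℝ) < k := by exact_mod_cast hk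
  refine null_mono (hM (ε * κ * (η * J) ^ 2) (by positivity)) fun N hN => ?_
  simp only [Set.mem_ofPred_eq] at hN ⊢
  have h2 := cheb (h := h) (t0 := t0) (α := α) (β := β) hf T δ hk hη (J := J) N
  set X : ℝ := (pairCount a b c h t0 α β (Bad a b c T δ J k η) N : ℝ) with hX
  set Y : ℝ := Sm a b c α β h t0 (W a b c T δ J k) N with hY
  refine lt_of_lt_of_le ?_ (le_abs_self _)
  have h3 : (η * J) ^ 2 * ((δ / (η ^ 2 * J) + ε) * κ * N) < Y :=
    (mul_lt_mul_of_pos_left hN (by positivity)).trans_le h2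
  have h4 : (η * J) ^ 2 * ((δ / (η ^ 2 * J) + ε) * κ * N) =
      (κ * (J * δ) + ε * κ * (η * J) ^ 2) * N := by
    field_simp
  rw [h4] at h3
  have h6 : κ * (J * δ * (1 - δ / k)) * N ≤ κ * (J * δ) * N := by
    refine mul_le_mul_of_nonneg_right (mul_le_mul_of_nonneg_left ?_ hκ.le) (Nat.cast_nonneg N)
    have e1 : 0 ≤ δ / k := by positivity
    have e3 : J * δ * (1 - δ / k) ≤ J * δ * 1 :=
      mul_le_mul_of_nonneg_left (by linarith) (by positivity)
    linarith
  linarith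

/-- many good pairs at all large scales -/
theorem good_lower (hf : ∀ t : ℕ, fv a b c t ≠ 0) (P : ℕ → ℕ → Prop) {x κ : ℝ} (hκ : 0 < κ)
    (hx : x < 1)
    (hlim : Tendsto (fun N : ℕ => (pairCount a b c h t0 α β (fun _ _ => True) N : ℝ) / N) atTop
      (𝓝 κ))
    (hbad : ∀ ε : ℝ, 0 < ε → LogNull {N : ℕ | (x + ε) * κ * N <
      (pairCount a b c h t0 α β P N : ℝ)}) :
    ∃ c' : ℝ, 0 < c' ∧ ∀ᶠ N : ℕ in atTop, c' * N ≤
      (pairCount a b c h t0 α β (fun t d => ¬ P t d) N : ℝ) := by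
  have hθ : 0 < 1 - x := by linarith
  set θ := 1 - x with hθd
  have hmono : Monotone (fun N : ℕ =>
      (pairCount a b c h t0 α β (fun t d => ¬ P t d) N : ℝ)) := by
    intro m n hmn
    exact Nat.cast_le.2 (EndT.count_mono _ hmn)
  refine lower_all' hmono (κ := κ * θ / 2) (by positivity) ?_
  have h1 : ∀ᶠ N : ℕ in atTop, (1 - θ / 4) * κ <
      (pairCount a b c h t0 α β (fun _ _ => True) N : ℝ) / N := by
    apply hlim.eventually_const_lt
    nlinarith
  obtain ⟨N1, hN1⟩ := h1.exists_forall_of_atTop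
  refine logNull_fin (hbad (θ / 4) (by positivity)) (max N1 1) fun N hN hN2 => ?_
  simp only [Set.mem_ofPred_eq] at hN ⊢
  have hN0 : (0 : ℝ) < N := by
    have : 0 < N := (le_max_right N1 1).trans hN2
    exact_mod_cast this
  have h2 := hN1 N ((le_max_left _ _).trans hN2)
  rw [lt_div_iff₀ hN0] at h2
  have h3 := count_split (h := h) (t₀ := t0) (α := α) (β := β) hf P N
  have h4 : (pairCount a b c h t0 α β (fun _ _ => True) N : ℝ) =
      pairCount a b c h t0 α β P N +
      pairCount a b c h t0 α β (fun t d => ¬ P t d) N := by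
    exact_mod_cast h3
  rw [h4] at h2
  have h5 : x = 1 - θ := by rw [hθd]; ring
  rw [h5]
  have h6 : (1 - θ + θ / 4) * κ * N = (1 - θ / 4) * κ * N - κ * θ / 2 * N := by ring
  rw [h6]
  linarith

end T11

open T11 in
/-- row U2 -/
theorem stProgT_11 : StProgT := by
  intro a b c _ hf h _ t0 α β _ _ _ κ hκ hlim T δ hδ0 _ h1 h2 k hk J hJ η hη
  have hJ0 : (0 : ℝ) < J := by exact_mod_cast hJ
  have hM := W_mean hf hlim h1 h2 hk J
  have hbad := fun (ε : ℝ) (hε : 0 < ε) => bad_null hf hδ0 hJ hk hη hκ hM hε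
  refine ⟨fun ε hε => hbad ε hε, fun hη1 => ?_⟩
  have hx : δ / (η ^ 2 * J) < 1 := by
    rw [div_lt_one (by positivity)]
    exact hη1
  obtain ⟨c', hc', hev⟩ := good_lower hf _ hκ hx hlim hbad
  refine ⟨c', hc', hev.mono fun N hN => hN.trans (le_of_eq ?_)⟩
  have e1 : (fun t d => ¬ Bad a b c T δ J k η t d) = (fun (t d : ℕ) =>
      ∀ r : ℕ, |(cntT a b c T J k r t d : ℝ) - J * δ / k| ≤ η * J) := by
    funext t d
    unfold Bad
    apply propext
    push Not
    rfl
  rw [e1]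

end Pool.Agent.Lib.MP_a17b09_nt.AS
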