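import Pool.Agent.Lib.MP_a17b09_nt.AN.All98
import Pool.Agent.Lib.MP_a17b09_nt.AN.STy3
import Pool.Agent.Lib.MP_a17b09_nt.AN.SLaw_11
import Pool.Agent.Lib.MP_a17b09_nt.AN.SEv_53
import Pool.Agent.Lib.MP_a17b09_nt.AN.SEvH_53
import Pool.Agent.Lib.MP_a17b09_nt.AN.SIn_53
import Pool.Agent.Lib.MP_a17b09_nt.AN.SNull_64
import Pool.Agent.Lib.MP_a17b09_nt.AN.STw_64
import Pool.Agent.Lib.MP_a17b09_nt.AN.SNullH_42
import Pool.Agent.Lib.MP_a17b09_nt.AN.STwH_42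
import Pool.Agent.Lib.MP_a17b09_nt.AN.TProg_11
import Pool.Agent.Lib.MP_a17b09_nt.SPH.Fin99

/-!
Project AS (MP_a17b09_nt): short progressions with anatomy, every nonsquare discriminant
(helper3).
-/

set_option autoImplicit false

open Filter Topology Finset

namespace Pool.Agent.Lib.MP_a17b09_nt.AS

open CH CH.PE HY SP
open AN (Ev Dens Ty Nd)

theorem stNullLW_all3 : StNullLW :=
  stNullLW_64 stSysL_99 stTestL_72 stReg_19 F64.stC0_all stMd_18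

theorem stTwPW_all3 : StTwPW := stTwPW_64 stNullLW_all3 F64.stFm_all

theorem stInW_all3 : StInW :=
  stInW_53 (fun _ hd => PQ.stMrsW_all79 hd) PQ.stEsW_all20 (PQ.stAmW_98 PQ.stDilsW_all28)

/-- negative discriminant -/
theorem stEvS_all3 : StEvS := stEvS_53 stTwPW_all3 stInW_all3 fun d _ => AN.stGA_all98 d

theorem stHNullLW_all3 : StHNullLW :=
  stHNullLW_42 SPH.stHSysL_99 stTestL_72 SPH.stHRegL_99 SPH.unfA_22 TopH20.hC0 stMd_18
    (stHper_54 TopH20.hC0) stHpow_20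

theorem stHTwPW_all3 : StHTwPW := stHTwPW_42 stHNullLW_all3 TopH20.hFm

theorem stInHW_all3 : StInHW :=
  stInHW_53 (fun d _ => PQH.stMrsHw_99 d) PQH.stEsHW_99 PQH.stAmHW_all99

/-- positive nonsquare discriminant -/
theorem stEvSH_all3 : StEvSH := stEvSH_53 stHTwPW_all3 stInHW_all3 fun d _ => AN.stGAH_all98 d

theorem fv_ne {a b c : ℤ} (hns : ¬ IsSquare (b ^ 2 - 4 * a * c)) (t : ℕ) : fv a b c t ≠ 0 := by
  intro h0
  apply hns
  refine ⟨2 * a * t + b, ?_⟩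
  unfold fv at h0
  linear_combination (-4 * a) * h0

theorem lim3 {a b c : ℤ} (hns : ¬ IsSquare (b ^ 2 - 4 * a * c)) {h t₀ : ℕ} {α β : ℝ}
    (hM : ∃ κ : ℝ, 0 < κ ∧
      Tendsto (fun N : ℕ => (CST a b c α β h t₀ 1 0 0 N : ℝ) / N) atTop (𝓝 κ)) :
    ∃ κ : ℝ, 0 < κ ∧
      Tendsto (fun N : ℕ => (pairCount a b c h t₀ α β (fun _ _ => True) N : ℝ) / N) atTop
        (𝓝 κ) := by
  obtain ⟨κ, hκ, hlim⟩ := hM
  refine ⟨κ, hκ, hlim.congr fun N => ?_⟩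
  rw [EndH20.count_true (fv_ne hns)]

/-- the twisted sums, the number of pairs and the bound, every nonsquare discriminant -/
theorem ev_all3 (a b c : ℤ) (ha : 0 < a) (hns : ¬ IsSquare (b ^ 2 - 4 * a * c)) (h t₀ : ℕ)
    (hh : 0 < h) (α β : ℝ) (hα : 0 < α) (hαβ : α < β) :
    TwEv a b c h t₀ α β ∧
    (∃ C : ℝ, ∀ N : ℕ, ((∑ t ∈ (Finset.Icc 1 N).filter (fun t => t ≡ t₀ [MOD h]),
      (nearG a b c α β t).card : ℕ) : ℝ) ≤ C * N) ∧
    ∃ κ : ℝ, 0 < κ ∧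
      Tendsto (fun N : ℕ => (pairCount a b c h t₀ α β (fun _ _ => True) N : ℝ) / N) atTop
        (𝓝 κ) := by
  rcases lt_or_ge (b ^ 2 - 4 * a * c) 0 with hD | hD
  · exact ⟨stEvS_all3 a b c ha hD h hh t₀ α β hα hαβ, F64.stOn_all a b c ha hD h hh t₀ α β hα hαβ,
      lim3 hns (F64.stMainS_all a b c ha hD h hh t₀ α β hα hαβ)⟩
  · obtain ⟨d, hd⟩ : ∃ d : ℕ, b ^ 2 - 4 * a * c = d := ⟨_, (Int.toNat_of_nonneg hD).symm⟩
    have hnd : ¬ IsSquare d := by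
      rintro ⟨s, hs⟩
      apply hns
      refine ⟨s, ?_⟩
      rw [hd, hs]
      push_cast
      ring
    exact ⟨stEvSH_all3 a b c ha d hd hnd h hh t₀ α β hα hαβ,
      TopH20.hOn a b c ha d hd hnd h hh t₀ α β hα hαβ,
      lim3 hns (TopH20.hMainS a b c ha d hd hnd h hh t₀ α β hα hαβ)⟩

/-- types have densities between `0` and `1` -/
theorem nd_mem {A : ℕ → Prop} {δ : ℝ} (hδ : Nd A δ) : 0 ≤ δ ∧ δ ≤ 1 := by
  refine ⟨ge_of_tendsto' hδ fun N => by positivity, le_of_tendsto' hδ fun N => ?_⟩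
  rcases Nat.eq_zero_or_pos N with h0 | h0
  · rw [h0]
    simp
  · have hN : (0 : ℝ) < N := by exact_mod_cast h0
    rw [div_le_one hN]
    have h1 : Set.ncard {n : ℕ | 1 ≤ n ∧ n ≤ N ∧ A n} ≤ Set.ncard ((Finset.Icc 1 N : Finset ℕ) :
        Set ℕ) := by
      refine Set.ncard_le_ncard (fun n hn => ?_) (Finset.finite_toSet _)
      exact Finset.mem_coe.2 (Finset.mem_Icc.2 ⟨hn.1, hn.2.1⟩)
    rw [Set.ncard_coe_finset, Nat.card_Icc, Nat.add_sub_cancel] at h1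
    exact_mod_cast h1

/-- the final statement from the module U2 -/
theorem shortT_of (hU2 : StProgT) (a b c : ℤ) (ha : 0 < a)
    (hns : ¬ IsSquare (b ^ 2 - 4 * a * c)) (h t₀ : ℕ) (hh : 0 < h) (α β : ℝ) (hα : 0 < α)
    (hαβ : α < β) : ShortT a b c h t₀ α β := by
  obtain ⟨hEv, hO, κ, hκ, hlim⟩ := ev_all3 a b c ha hns h t₀ hh α β hα hαβ
  have hf := fv_ne hns
  have hTy : LawTy a b c h t₀ α β κ :=
    stLawTy_3 AN.stOk_18 AN.stDen_all98 a b c ha hf h hh t₀ α β hα hαβ hO κ hκ hlim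
      fun E E' δ δ' hE hE' hD hD' =>
        stLawS_11 a b c ha hf h hh t₀ α β hα hαβ hO hEv κ hκ hlim E E' δ δ' hE hE' hD hD'
  refine ⟨κ, hκ, hlim, hTy, fun m u v S δ hu hδ => ?_⟩
  obtain ⟨h0, h1⟩ := nd_mem hδ
  have hT1 : LawT a b c h t₀ α β κ (fun _ => True) (Ty u v S) 1 δ := by
    have h2 := hTy 0 m (fun i : Fin 0 => i.elim0) (fun i : Fin 0 => i.elim0) u v Set.univ S 1 δ
      (fun i => i.elim0) hu Ty3.nd_triv hδ
    have e1 : Ty (fun i : Fin 0 => i.elim0) (fun i : Fin 0 => i.elim0) Set.univ =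
        fun _ => True := by
      funext n
      simp [Ty]
    rw [e1] at h2
    exact h2
  exact hU2 a b c ha hf h hh t₀ α β hα hαβ hO κ hκ hlim (Ty u v S) δ h0 h1 hT1
    (hTy m m u v u v S S δ δ hu hu hδ hδ)

/-- **every nonsquare discriminant, no hypotheses** -/
theorem shortT_all3 (a b c : ℤ) (ha : 0 < a) (hns : ¬ IsSquare (b ^ 2 - 4 * a * c)) (h t₀ : ℕ)
    (hh : 0 < h) (α β : ℝ) (hα : 0 < α) (hαβ : α < β) : ShortT a b c h t₀ α β :=
  shortT_of stProgT_11 a b c ha hns h t₀ hh α β hα hαβ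

end Pool.Agent.Lib.MP_a17b09_nt.AS
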