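import Pool.Agent.Lib.MP_a17b09_nt.AN.SStmts3
import Pool.Agent.Lib.MP_a17b09_nt.AN.W98

/-!
Project AS (MP_a17b09_nt), S1H (helper53): Theorem A for the weights of two sets of integers with
densities, all systems of discriminants `d m ^ 2`.
-/

set_option autoImplicit false

open Filter Topology Finset

namespace Pool.Agent.Lib.MP_a17b09_nt.AS

open CH CH.PE HY SP HY.S68 MRH
open PQ (B1 gw)
open PQH (kerHW ApxH Fr0H DilHW HMrsQw StMrsHw StEsHW StAmHW)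
open AN (Ev ind wz wd Dens)
open ANH (GWtH)
open AN.W98

theorem not_sq53 {d : ℕ} (hd : ¬ IsSquare d) {m : ℕ} (hm : 0 < m) : ¬ IsSquare (d * m ^ 2) := by
  rintro ⟨r, hr⟩
  have h1 : m ^ 2 ∣ r ^ 2 := ⟨d, by rw [sq r, ← hr]; ring⟩
  obtain ⟨s, hs⟩ := (Nat.pow_dvd_pow_iff two_ne_zero).1 h1
  apply hd
  refine ⟨s, ?_⟩
  have h2 : d * m ^ 2 = s * s * m ^ 2 := by rw [hr, hs]; ring
  exact Nat.eq_of_mul_eq_mul_right (pow_pos hm 2) h2

/-- Theorem A for two weights, one of them with small mean squares -/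
theorem coreH53 (hEs : StEsHW) (hAm : StAmHW) {ι : Type} [Fintype ι] (S : HSystem ι) {z1 z2 : ℂ}
    (hz1 : ‖z1‖ = 1) (hz2 : ‖z2‖ = 1) {w1 w2 : ℕ → ℂ} (h1 : B1 w1) (h2 : B1 w2)
    (f1 : (Set.range w1).Finite) (f2 : (Set.range w2).Finite) (hd1 : DilHW S z1 w1)
    (hd2 : DilHW S z2 w2)
    (hM : (∀ Q : Form, Hyp S.d Q → ∀ K : ℕ, 0 < K → ∀ e : Pell.Solution₁ (S.d : ℤ), PP e →
        PK K e → HMrsQw Q (per e) w1 K) ∨
      (∀ Q : Form, Hyp S.d Q → ∀ K : ℕ, 0 < K → ∀ e : Pell.Solution₁ (S.d : ℤ), PP e →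
        PK K e → HMrsQw Q (per e) w2 K))
    {K : ℕ} (hK : 0 < K) {om : ι → V → V → ℂ} (hom : HWt S K om) (e : Pell.Solution₁ (S.d : ℤ))
    (he : PP e) (M : LMean) : HNullM M S.Q (per e) (kerHW S w1 w2 om) := by
  refine hAm ι S z1 z2 w1 w2 hz1 hz2 h1 h2 f1 f2 hd1 hd2 ?_ K hK om hom e he M
  refine hEs ι S w1 w2 h1 h2 ?_
  rcases hM with hM | hM
  · exact Or.inl fun i K hK e he hk => hM (S.Q i) (S.hyp i) K hK e he hk
  · exact Or.inr fun i K hK e he hk => hM (S.Q i) (S.hyp i) K hK e he hk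

/-- (S1H) -/
theorem stInHW_53 (hMrs : ∀ d : ℕ, ¬ IsSquare d → StMrsHw d) (hEs : StEsHW) (hAm : StAmHW) :
    StInHW := by
  intro d hd A B δ δ' hA hB
  have hpos : ∀ m : ℕ, 0 < m → ¬ IsSquare (d * m ^ 2) := fun m hm => not_sq53 hd hm
  -- mean squares
  have hMz : ∀ (D : ℕ), ¬ IsSquare D → ∀ (R : ℕ → Prop) (σ : ℝ), GWtH D R σ →
      ∀ (z : ℂ) (k : ℕ), 0 < k → z ^ k = 1 → z ≠ 1 → ∀ Q : Form, Hyp D Q → ∀ K : ℕ, 0 < K →
      ∀ e : Pell.Solution₁ (D : ℤ), PP e → PK K e → HMrsQw Q (per e) (wz z R) K := by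
    intro D hD R σ hR z k hk hz hz1 Q hQ K hK e he hke
    have hzn : ‖z‖ = 1 := Complex.norm_eq_one_of_pow_eq_one hz hk.ne'
    obtain ⟨c0, hc0, hA1, -⟩ := hR.apx
    exact hMrs D hD z hzn c0 hc0 (wz z R) (b1_wz hzn R) (hA1 z hzn)
      (hR.frz z k hk hz hz1) Q hQ K hK e he hke
  have hMr : ∀ (D : ℕ), ¬ IsSquare D → ∀ (R : ℕ → Prop) (σ : ℝ), GWtH D R σ →
      ∀ Q : Form, Hyp D Q → ∀ K : ℕ, 0 < K → ∀ e : Pell.Solution₁ (D : ℤ), PP e →
      PK K e → HMrsQw Q (per e) (wd σ R) K := by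
    intro D hD R σ hR Q hQ K hK e he hke
    obtain ⟨c0, hc0, -, hA2⟩ := hR.apx
    exact hMrs D hD 1 norm_one c0 hc0 (wd σ R) (b1_wd hR.nonneg hR.le_one) hA2 hR.fr Q hQ
      K hK e he hke
  have hDb : ∀ {ι : Type} [Fintype ι] (S : HSystem ι) (R : ℕ → Prop) (σ : ℝ), GWtH S.d R σ →
      DilHW S 1 (ind R) := by
    intro ι _ S R σ hR
    have h1 := (hR.dil ι S rfl).1 1 norm_one
    rwa [wz_one] at h1
  have hfb : ∀ R : ℕ → Prop, (Set.range (ind R)).Finite := fun R => by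
    rw [← wz_one]
    exact fin_wz one_pos (one_pow 1) R
  refine ⟨?_, ?_, ?_⟩
  · intro z1 z2 k hk h1 h2 h12 ι _ S hS K hK om hom e he M
    obtain ⟨m, hm, hSd⟩ := hS
    have hn1 : ‖z1‖ = 1 := Complex.norm_eq_one_of_pow_eq_one h1 hk.ne'
    have hn2 : ‖z2‖ = 1 := Complex.norm_eq_one_of_pow_eq_one h2 hk.ne'
    have gA := hA m hm
    have gB := hB m hm
    have hp := hpos m hm
    rw [← hSd] at gA gB hp
    refine coreH53 hEs hAm S hn1 hn2 (b1_wz hn1 A) (b1_wz hn2 B) (fin_wz hk h1 A)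
      (fin_wz hk h2 B) ((gA.dil ι S rfl).1 z1 hn1) ((gB.dil ι S rfl).1 z2 hn2) ?_ hK hom e he M
    rcases h12 with h12 | h12
    · exact Or.inl (hMz S.d hp A δ gA z1 k hk h1 h12)
    · exact Or.inr (hMz S.d hp B δ' gB z2 k hk h2 h12)
  · intro ι _ S hS K hK om hom e he M
    obtain ⟨m, hm, hSd⟩ := hS
    have gA := hA m hm
    have gB := hB m hm
    have hp := hpos m hm
    rw [← hSd] at gA gB hp
    exact coreH53 hEs hAm S norm_one norm_one (b1_wd gA.nonneg gA.le_one) (b1_ind B)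
      (fin_wd δ A) (hfb B) (gA.dil ι S rfl).2 (hDb S B δ' gB) (Or.inl (hMr S.d hp A δ gA)) hK
      hom e he M
  · intro ι _ S hS K hK om hom e he M
    obtain ⟨m, hm, hSd⟩ := hS
    have gA := hA m hm
    have gB := hB m hm
    have hp := hpos m hm
    rw [← hSd] at gA gB hp
    exact coreH53 hEs hAm S norm_one norm_one (b1_ind A) (b1_wd gB.nonneg gB.le_one)
      (hfb A) (fin_wd δ' B) (hDb S A δ gA) (gB.dil ι S rfl).2 (Or.inr (hMr S.d hp B δ' gB)) hK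
      hom e he M

end Pool.Agent.Lib.MP_a17b09_nt.AS
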