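import Pool.Agent.Lib.MP_a17b09_nt.AN.SNullH_42
import Pool.Agent.Lib.MP_a17b09_nt.SPH.TwP27

/-!
AS (MP_a17b09_nt), row S3H: the twisted theorem for two slots and two weights, positive
discriminant.  helper42.  Fork of `SPH/TwP27`.
-/

set_option autoImplicit false

open Filter Topology Finset

namespace Pool.Agent.Lib.MP_a17b09_nt.AS

open CH HY SP
open PQ (B1 gw)
open CH.G68 (cnd phi norm_phi phi_per fm fm_D)
open SP.TwP27 (q_lin adm)
open SPH.TwH27 (main_id)

namespace TwH42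

theorem swap (a b c : ℤ) (α β : ℝ) (h t0 : ℕ) (w1 w2 : ℕ → ℂ) (o1 o2 : Option ℕ) (N : ℕ) :
    TwPW a b c α β h t0 w1 w2 o1 o2 N = TwPW a b c α β h t0 w2 w1 o2 o1 N := by
  unfold TwPW
  exact Finset.sum_congr rfl fun t _ => Finset.sum_congr rfl fun d _ => mul_comm _ _

theorem slot {a b c : ℤ} (ha : 0 < a) {Q : Form} {T : ℝ} (w : ℕ → ℂ)
    {t d : ℕ} (ht : |b| + |c| < t) (hd0 : d ≠ 0) (hdv : (d : ℤ) ∣ fv a b c t) {f : V × V}
    (hf : f ∈ H68.PH Q T d (2 * a * t + b) (a * (fv a b c t / d))) (o : Option ℕ) :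
    gw w Q (lin (vslot a o) f.1 f.2) = w (wslot a b c t d o) := by
  obtain ⟨hw, -, -, h1, h2, h3⟩ := hf
  cases o with
  | none =>
    have e1 : Q.q (lin (vslot a none) f.1 f.2) = d := by
      rw [q_lin]
      show ((1 : ℕ) : ℤ) ^ 2 * Q.q f.1 + ((1 : ℕ) : ℤ) * ((0 : ℕ) : ℤ) * Q.B f.1 f.2 +
        ((0 : ℕ) : ℤ) ^ 2 * Q.q f.2 = d
      rw [h1]
      push_cast
      ring
    unfold gw
    rw [e1, Int.natAbs_natCast]
    rfl
  | some j =>
    have hdc : (d : ℤ) ≠ 0 := by exact_mod_cast hd0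
    obtain ⟨e, he⟩ := hdv
    have hE : fv a b c t / d = e := by
      rw [he]; exact Int.mul_ediv_cancel_left e hdc
    rw [hE] at h3
    have hA : ((a.natAbs : ℕ) : ℤ) = a := by
      rw [Int.natCast_natAbs]; exact abs_of_pos ha
    have hfj : fv a b c (t + j * d) = d * (e + j * (2 * a * t + b) + a * j ^ 2 * d) := by
      have : fv a b c (t + j * d) = fv a b c t + d * (j * (2 * a * t + b) + a * j ^ 2 * d) := by
        unfold fv
        push_cast
        ring
      rw [this, he]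
      ring
    have hfd : fv a b c (t + j * d) / d = e + j * (2 * a * t + b) + a * j ^ 2 * d := by
      rw [hfj]; exact Int.mul_ediv_cancel_left _ hdc
    have e1 : Q.q (lin (vslot a (some j)) f.1 f.2) = a * (fv a b c (t + j * d) / d) := by
      rw [q_lin, hfd]
      show ((j * a.natAbs : ℕ) : ℤ) ^ 2 * Q.q f.1 + ((j * a.natAbs : ℕ) : ℤ) * ((1 : ℕ) : ℤ) *
        Q.B f.1 f.2 + ((1 : ℕ) : ℤ) ^ 2 * Q.q f.2 = _
      rw [h1, h2, h3]
      push_cast
      rw [← Int.natCast_natAbs, hA]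
      ring
    have hdvj : (d : ℤ) ∣ fv a b c (t + j * d) := ⟨_, hfj⟩
    have htj : |b| + |c| < ((t + j * d : ℕ) : ℤ) := by
      refine ht.trans_le ?_
      push_cast
      have : (0 : ℤ) ≤ (j : ℤ) * d := by positivity
      linarith
    have hfv := (H68.fv_pos ha htj).1
    have hna : (a * (fv a b c (t + j * d) / d)).natAbs =
        a.natAbs * ((fv a b c (t + j * d)).natAbs / d) := by
      rw [Int.natAbs_mul, Int.natAbs_ediv_of_dvd hdvj]
      simp
    unfold gw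
    rw [e1, hna]
    rfl

theorem core (hN : StHNullLW) (hFm : StHFm) (a b c : ℤ) (ha : 0 < a) (d : ℕ)
    (hd : b ^ 2 - 4 * a * c = d) (hns : ¬ IsSquare d) (w1 w2 : ℕ → ℂ) (hw1 : B1 w1)
    (hw2 : B1 w2) (hIn : InHW d w1 w2) (h : ℕ) (hh : 0 < h) (t0 : ℕ)
    (α β : ℝ) (hα : 0 < α) (hβ : α < β) (o1 o2 : Option ℕ)
    (ho : Adm (vslot a o1) (vslot a o2)) (M : LMean) :
    M.E (fun N : ℕ => ‖TwPW a b c α β h t0 w1 w2 o1 o2 N‖ / N) = 0 := by
  obtain ⟨ι, hι, S, w, e, hSd, he, hw0, hws, hF⟩ := stHSys_68 d hns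
  have hSd' : (S.d : ℤ) = b ^ 2 - 4 * a * c := by rw [hSd, hd]
  -- the weight
  obtain ⟨K, hK⟩ : ∃ K : ℕ, 2 * a * h = (K : ℤ) :=
    ⟨_, (Int.toNat_of_nonneg (by positivity)).symm⟩
  have hK0 : 0 < K := by
    have hh' : (0 : ℤ) < h := by exact_mod_cast hh
    have : (0 : ℤ) < K := by rw [← hK]; positivity
    exact_mod_cast this
  have hWt : HWt S K (H68.omH S w a b h t0) := by
    apply stHWt_68 ι S w
    · intro p hp h4 i
      rw [hSd] at h4
      exact hws p hp h4 i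
    · exact hK0
    · intro x y z u v t
      rw [← hK]
      exact phi_per a b h t0 x y z u v t
  have hNull := hN d hns w1 w2 hw1 hw2 hIn ι S hSd _ _ ho K hK0 _ hWt e he M
  set U := kerHLW S w1 w2 (vslot a o1) (vslot a o2) (H68.omH S w a b h t0) with hUd
  have hbd : ∃ C : ℝ, ∀ i v v', ‖U i v v'‖ ≤ C := by
    refine ⟨1, fun i v v' => ?_⟩
    rw [hUd]
    unfold kerHLW H68.omH
    have h1 : ‖(1 / (w i : ℂ))‖ ≤ 1 := by
      rw [norm_div, norm_one, Complex.norm_natCast]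
      have : (1 : ℝ) ≤ w i := by exact_mod_cast hw0 i
      rw [div_le_one (by linarith)]
      exact this
    have h2 := norm_phi a b h t0 ((S.Q i).q v) ((S.Q i).B v v') ((S.Q i).q v')
    refine NH42.norm3_le zero_le_one ?_ (hw1 _) (hw2 _)
    rw [norm_mul]
    calc _ ≤ (1 : ℝ) * 1 := mul_le_mul h1 h2 (norm_nonneg _) zero_le_one
      _ = 1 := one_mul 1
  let T0 : ℕ := b.natAbs + c.natAbs + 1
  have hT1 : 0 < T0 := Nat.succ_pos _
  have hT0 : |b| + |c| < T0 := by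
    simp only [T0]
    push_cast
    linarith
  obtain ⟨hfin, hB, hE⟩ := hFm M ι S.d S.Q S.hyp (per e) (per_pos he) _ hbd hNull a b α β ha hα
    hβ T0 hT1
  have hid : ∀ N : ℕ, ∑ i, ∑ᶠ f ∈ HFG (S.Q i) (per e) a b α β T0 N, U i f.1 f.2 =
      ∑ t ∈ (Finset.Icc T0 N).filter (fun t => t ≡ t0 [MOD h]),
        ∑ d ∈ nearG a b c α β t, w1 (wslot a b c t d o1) * w2 (wslot a b c t d o2) := by
    intro N
    refine main_id ha S hSd' w (T := per e) (fun F h1 h2 h3 h4 => hF F h1 h2 h3 (by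
      rw [h4, hSd])) U _ hT0 (fun i => hfin i N) ?_ ?_
    · intro i f hn
      rw [hUd]
      unfold kerHLW H68.omH phi
      rw [if_neg hn]
      ring
    · intro i t ht hth d' hd' f hf
      have hb := H68.backward ha hT0 ht hth hd' hf
      have htZ : |b| + |c| < (t : ℤ) :=
        hT0.trans_le (by exact_mod_cast (Finset.mem_Icc.1 ht).1)
      have hfv := (H68.fv_pos ha htZ).1
      have hdv := ((H68.mem_near hfv).1 hd').1
      have hd'0 : d' ≠ 0 := by
        rintro rfl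
        have h4 := hf.2.1.1.q_pos (S.hyp i)
        rw [hf.2.2.2.1] at h4
        simp at h4
      have hphi : phi a b h t0 ((S.Q i).q f.1) ((S.Q i).B f.1 f.2) ((S.Q i).q f.2) = 1 := by
        unfold phi
        rw [if_pos hb.2]
      rw [hUd]
      unfold kerHLW H68.omH
      rw [hphi, slot ha w1 htZ hd'0 hdv hf, slot ha w2 htZ hd'0 hdv hf]
      ring
  -- comparison
  let G : ℕ → ℂ := fun t => ∑ d ∈ nearG a b c α β t,
    w1 (wslot a b c t d o1) * w2 (wslot a b c t d o2)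
  let C1 : ℝ := ∑ t ∈ Finset.Icc 1 (T0 - 1), ‖G t‖
  have hC1 : 0 ≤ C1 := Finset.sum_nonneg (fun _ _ => norm_nonneg _)
  have hcmp : ∀ N : ℕ, ‖TwPW a b c α β h t0 w1 w2 o1 o2 N‖ ≤ C1 +
      ‖∑ i, ∑ᶠ f ∈ HFG (S.Q i) (per e) a b α β T0 N, U i f.1 f.2‖ := by
    intro N
    rw [hid N]
    have hsub : (Finset.Icc 1 N).filter (fun t => t ≡ t0 [MOD h]) =
        ((Finset.Icc 1 N).filter (fun t => t ≡ t0 [MOD h])).filter (fun t => t < T0) ∪
        (Finset.Icc T0 N).filter (fun t => t ≡ t0 [MOD h]) := by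
      ext t
      rw [Finset.mem_union, Finset.mem_filter, Finset.mem_filter, Finset.mem_filter,
        Finset.mem_filter, Finset.mem_Icc, Finset.mem_Icc]
      constructor
      · rintro ⟨h1, h2⟩
        by_cases h3 : t < T0
        · exact Or.inl ⟨⟨h1, h2⟩, h3⟩
        · exact Or.inr ⟨⟨by omega, h1.2⟩, h2⟩
      · rintro (h1 | h1)
        · exact h1.1
        · exact ⟨⟨by omega, h1.1.2⟩, h1.2⟩
    have hdis : Disjoint
        (((Finset.Icc 1 N).filter (fun t => t ≡ t0 [MOD h])).filter (fun t => t < T0))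
        ((Finset.Icc T0 N).filter (fun t => t ≡ t0 [MOD h])) := by
      rw [Finset.disjoint_left]
      intro t h1 h2
      rw [Finset.mem_filter] at h1
      rw [Finset.mem_filter, Finset.mem_Icc] at h2
      omega
    have e1 : TwPW a b c α β h t0 w1 w2 o1 o2 N =
        ∑ t ∈ ((Finset.Icc 1 N).filter (fun t => t ≡ t0 [MOD h])).filter (fun t => t < T0), G t +
        ∑ t ∈ (Finset.Icc T0 N).filter (fun t => t ≡ t0 [MOD h]), G t := by
      rw [← Finset.sum_union hdis, ← hsub]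
      rfl
    rw [e1]
    refine (norm_add_le _ _).trans (add_le_add ?_ le_rfl)
    refine (norm_sum_le _ _).trans ?_
    apply Finset.sum_le_sum_of_subset_of_nonneg
    · intro t ht
      rw [Finset.mem_filter, Finset.mem_filter, Finset.mem_Icc] at ht
      rw [Finset.mem_Icc]
      omega
    · intro t _ _
      exact norm_nonneg _
  have hle : ∀ N : ℕ, ‖TwPW a b c α β h t0 w1 w2 o1 o2 N‖ / N ≤ C1 / N +
      ‖∑ i, ∑ᶠ f ∈ HFG (S.Q i) (per e) a b α β T0 N, U i f.1 f.2‖ / N := by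
    intro N
    rw [← add_div]
    exact div_le_div_of_nonneg_right (hcmp N) (Nat.cast_nonneg N)
  have hr0 : Tendsto (fun N : ℕ => C1 / (N : ℝ)) atTop (𝓝 0) :=
    tendsto_const_div_atTop_nhds_zero_nat C1
  have hrB : Bdd (fun N : ℕ => C1 / (N : ℝ)) := by
    refine ⟨C1, fun N => ?_⟩
    rw [abs_of_nonneg (by positivity)]
    rcases Nat.eq_zero_or_pos N with h0 | h0
    · rw [h0]; simpa using hC1
    · apply div_le_self hC1
      exact_mod_cast h0
  have hfB : Bdd (fun N : ℕ => ‖TwPW a b c α β h t0 w1 w2 o1 o2 N‖ / N) := by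
    obtain ⟨C, hC⟩ := hB
    obtain ⟨C', hC'⟩ := hrB
    refine ⟨C' + C, fun N => ?_⟩
    rw [abs_of_nonneg (by positivity)]
    exact (hle N).trans (add_le_add ((le_abs_self _).trans (hC' N))
      ((le_abs_self _).trans (hC N)))
  apply le_antisymm
  · calc M.E (fun N : ℕ => ‖TwPW a b c α β h t0 w1 w2 o1 o2 N‖ / N)
        ≤ M.E (fun N : ℕ => C1 / (N : ℝ) +
          ‖∑ i, ∑ᶠ f ∈ HFG (S.Q i) (per e) a b α β T0 N, U i f.1 f.2‖ / N) :=
          LMean.mono M hfB (Bdd.add hrB hB) hle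
      _ = 0 := by
          rw [M.add _ _ hrB hB, M.null _ hrB hr0, hE, add_zero]
  · exact M.nonneg _ hfB (fun N => by positivity)

end TwH42

/-- **(S3H)** -/
theorem stHTwPW_42 (hN : StHNullLW) (hFm : StHFm) : StHTwPW := by
  intro a b c ha d hd hns w1 w2 hw1 hw2 hIn hIn' h hh t0 α β hα hβ o1 o2 ho M
  rcases adm ha ho with hA | hA
  · exact TwH42.core hN hFm a b c ha d hd hns w1 w2 hw1 hw2 hIn h hh t0 α β hα hβ o1 o2 hA M
  · have h1 := TwH42.core hN hFm a b c ha d hd hns w2 w1 hw2 hw1 hIn' h hh t0 α β hα hβ o2 o1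
      hA M
    have h2 : (fun N : ℕ => ‖TwPW a b c α β h t0 w1 w2 o1 o2 N‖ / N) =
        fun N : ℕ => ‖TwPW a b c α β h t0 w2 w1 o2 o1 N‖ / N := by
      funext N
      rw [TwH42.swap]
    rw [h2]
    exact h1

end Pool.Agent.Lib.MP_a17b09_nt.AS
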