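import Pool.Agent.Lib.MP_a17b09_nt.AN.Stmts3
import Pool.Agent.Lib.MP_a17b09_nt.AN.Mert12

/-!
AN (MP_a17b09_nt), row A1: the sum of `2/p` over the split primes of a window of exponents.
-/

set_option autoImplicit false

open Filter Topology Finset

namespace Pool.Agent.Lib.MP_a17b09_nt.AN

namespace Split19

/-- split primes and the Jacobi symbol -/
theorem sp_iff (D : ℤ) {p : ℕ} (hp : p.Prime) (hpD : ¬ p ∣ 2 * D.natAbs) :
    (∃ r : ℤ, (p : ℤ) ∣ r ^ 2 - D) ↔ jacobiSym D p = 1 := by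
  have : Fact p.Prime := ⟨hp⟩
  have hD0 : ((D : ℤ) : ZMod p) ≠ 0 := by
    rw [Ne, ZMod.intCast_zmod_eq_zero_iff_dvd]
    intro h
    apply hpD
    exact Dvd.dvd.mul_left (Int.natCast_dvd.1 h) 2
  rw [← jacobiSym.legendreSym.to_jacobiSym, legendreSym.eq_one_iff p hD0]
  constructor
  · rintro ⟨r, hr⟩
    refine ⟨(r : ZMod p), ?_⟩
    have h1 : ((r ^ 2 - D : ℤ) : ZMod p) = 0 := by
      rw [ZMod.intCast_zmod_eq_zero_iff_dvd]
      exact hr
    push_cast at h1
    rw [← sub_eq_zero.1 h1, pow_two]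
  · rintro ⟨r, hr⟩
    refine ⟨(r.val : ℤ), ?_⟩
    rw [← ZMod.intCast_zmod_eq_zero_iff_dvd]
    push_cast
    rw [ZMod.natCast_zmod_val, hr]
    ring

end Split19

/-- (A1) -/
theorem stSplit_19 : StSplit := by
  intro D hD K hK a b ha hab
  have hD0 : D.natAbs ≠ 0 := by
    intro h
    rw [Int.natAbs_eq_zero] at h
    exact hD ⟨0, by rw [h]; ring⟩
  have hm0 : 2 * D.natAbs * K ≠ 0 := by positivity
  have h := Mert12.win_split D hD (2 * D.natAbs * K) hm0
    (fun p _ hp => Dvd.dvd.mul_right hp K) (Sp D K) (by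
      intro p hp hpm
      rw [← Split19.sp_iff D hp (fun h => hpm (Dvd.dvd.mul_right h K))]
      constructor
      · intro h; exact h.2.2
      · intro h; exact ⟨hp, hpm, h⟩) ha hab
  refine h.congr fun N => ?_
  refine Finset.sum_congr ?_ fun _ _ => rfl
  ext p
  simp only [PW, Finset.mem_filter]
  tauto

end Pool.Agent.Lib.MP_a17b09_nt.AN
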