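import Pool.Agent.Lib.MP_a17b09_nt.PQ.StmtsX79

/-!
Project AN = PD (MP_a17b09_nt): the anatomy of the pairs `(d, f t / d)`.  Over the pairs `(t, d)`,
`d ∣ f t`, `α t ≤ d ≤ β t`, the sizes of all large prime factors of `d` and of `a |f t| / d` are
distributed as those of two independent random integers, jointly with `Ω d`, `Ω (f t / d)` modulo
`k`.  Statements: common part and negative discriminant.  Paper: /team-store/AN3.md.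
-/

set_option autoImplicit false

open Filter Topology Finset

namespace Pool.Agent.Lib.MP_a17b09_nt.AN

open CH CH.PE MRSG MRS
open PQ (B1 Wy gw gcw Mpw Apx Fr0 DilW TwW)

/-! ### Events -/

/-- the number of primes `p ∣ n`, `x ^ u < p ≤ x ^ v` -/
noncomputable def cntN (x u v : ℝ) (n : ℕ) : ℕ :=
  Set.ncard {p : ℕ | p.Prime ∧ p ∣ n ∧ x ^ u < p ∧ (p : ℝ) ≤ x ^ v}

/-- an event: finitely many windows of exponents with the numbers of primes -/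
structure Ev where
  m : ℕ
  u : Fin m → ℝ
  v : Fin m → ℝ
  c : Fin m → ℕ

/-- `n` has `c i` prime factors in `(x ^ u i, x ^ v i]`, for every `i` -/
def Ev.At (E : Ev) (x : ℝ) (n : ℕ) : Prop := ∀ i, cntN x (E.u i) (E.v i) n = E.c i

/-- the event for the integer itself -/
def Ev.Is (E : Ev) (n : ℕ) : Prop := E.At n n

/-- lower ends in `(0, 1)`, upper ends in `(0, 1)` or equal to `2` -/
def Ev.Ok (E : Ev) : Prop :=
  ∀ i, 0 < E.u i ∧ E.u i < 1 ∧ (0 < E.v i ∧ E.v i < 1 ∨ E.v i = 2)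

/-- (A0) every event with positive lower ends is an event with `Ok` -/
def StOk : Prop := ∀ E : Ev, (∀ i, 0 < E.u i) → ∃ E' : Ev, E'.Ok ∧
  ∀ n : ℕ, 1 ≤ n → (E.Is n ↔ E'.Is n)

/-! ### Weights for a set of integers -/

open Classical in
/-- the indicator -/
noncomputable def ind (b : ℕ → Prop) (n : ℕ) : ℂ := if b n then 1 else 0

/-- the weight `z ^ Ω b` -/
noncomputable def wz (z : ℂ) (b : ℕ → Prop) (n : ℕ) : ℂ := z ^ Omn n * ind b n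

/-- the weight `b - δ` -/
noncomputable def wd (δ : ℝ) (b : ℕ → Prop) (n : ℕ) : ℂ := ind b n - (δ : ℂ)

/-- a set `b` of integers of density `δ` to which the machine of PQ applies, discriminant `-d` -/
structure GWt (d : ℕ) (b : ℕ → Prop) (δ : ℝ) : Prop where
  nonneg : 0 ≤ δ
  le_one : δ ≤ 1
  apx : ∃ c0 : ℝ, 0 < c0 ∧ (∀ z : ℂ, ‖z‖ = 1 → Apx d z c0 (wz z b)) ∧ Apx d 1 c0 (wd δ b)
  dil : ∀ (ι : Type) [Fintype ι] (S : System ι), S.d = d →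
    (∀ z : ℂ, ‖z‖ = 1 → DilW S z (wz z b)) ∧ DilW S 1 (wd δ b)
  fr : Fr0 d (wd δ b)
  frz : ∀ (z : ℂ) (k : ℕ), 0 < k → z ^ k = 1 → z ≠ 1 → Fr0 d (wz z b)

/-! ### Part T, generic (fork of X7 - X9) -/

/-- (G7) the twisted sums (fork of `stTwBX_64`) -/
def StTwG : Prop := ∀ a b c : ℤ, 0 < a → b ^ 2 - 4 * a * c < 0 → ∀ d : ℕ,
  (d : ℤ) = 4 * a * c - b ^ 2 → ∀ (A B : ℕ → Prop) (δ δ' : ℝ), GWt d A δ → GWt d B δ' →
  ∀ (h : ℕ), 0 < h → ∀ (t0 : ℕ) (α β : ℝ), 0 < α → α < β → ∀ M : LMean,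
  (∀ (z1 z2 : ℂ) (k : ℕ), 0 < k → z1 ^ k = 1 → z2 ^ k = 1 → (z1 ≠ 1 ∨ z2 ≠ 1) →
    M.E (fun N : ℕ => ‖TwW a b c α β h t0 (wz z1 A) (wz z2 B) N‖ / N) = 0) ∧
  M.E (fun N : ℕ => ‖TwW a b c α β h t0 (ind A) (ind B) N - ((δ * δ' : ℝ) : ℂ) *
    TwW a b c α β h t0 (fun _ => 1) (fun _ => 1) N‖ / N) = 0

/-- the number of pairs `(t, d)` with `t ≤ N`, `A d`, `B (a |f t| / d)`, `Ω d ≡ r`,
`Ω (f t / d) ≡ s mod k` -/
noncomputable def CWG (a b c : ℤ) (α β : ℝ) (h t0 : ℕ) (A B : ℕ → Prop) (k r s : ℕ)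
    (N : ℕ) : ℕ := by
  classical
  exact ∑ t ∈ (Finset.Icc 1 N).filter (fun t => t ≡ t0 [MOD h]),
    ((nearG a b c α β t).filter (fun d => A d ∧
      B (a.natAbs * ((fv a b c t).natAbs / d)) ∧ Omn d ≡ r [MOD k] ∧
      Omn ((fv a b c t).natAbs / d) ≡ s [MOD k])).card

/-- the conclusion of the twisted sums for one polynomial, any sign of the discriminant -/
def TwCon (a b c : ℤ) (α β : ℝ) (h t0 : ℕ) (A B : ℕ → Prop) (ρ : ℝ) : Prop := ∀ M : LMean,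
  (∀ (z1 z2 : ℂ) (k : ℕ), 0 < k → z1 ^ k = 1 → z2 ^ k = 1 → (z1 ≠ 1 ∨ z2 ≠ 1) →
    M.E (fun N : ℕ => ‖TwW a b c α β h t0 (wz z1 A) (wz z2 B) N‖ / N) = 0) ∧
  M.E (fun N : ℕ => ‖TwW a b c α β h t0 (ind A) (ind B) N - (ρ : ℂ) *
    TwW a b c α β h t0 (fun _ => 1) (fun _ => 1) N‖ / N) = 0

/-- (G8) the count from the twisted sums (fork of `X8_64`; any sign of the discriminant) -/
def StFinG : Prop := ∀ a b c : ℤ, 0 < a → (∀ t : ℕ, fv a b c t ≠ 0) → ∀ (h : ℕ), 0 < h →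
  ∀ (t0 : ℕ) (α β : ℝ), 0 < α → α < β → ∀ κ : ℝ, 0 < κ →
  Tendsto (fun N : ℕ => (CST a b c α β h t0 1 0 0 N : ℝ) / N) atTop (𝓝 κ) →
  ∀ (A B : ℕ → Prop) (ρ : ℝ), TwCon a b c α β h t0 A B ρ →
  ∀ k : ℕ, 0 < k → ∀ r s : ℕ, ∀ M : LMean,
  M.E (fun N : ℕ => |(CWG a b c α β h t0 A B k r s N : ℝ) / N - ρ * κ / k ^ 2|) = 0

/-- the conclusion for the pairs, for one polynomial of any sign of the discriminant -/
def PairsG (a b c : ℤ) (h t₀ : ℕ) (α β κ : ℝ) (A B : ℕ → Prop) (ρ : ℝ) : Prop :=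
  ∀ k : ℕ, 0 < k → ∀ r s : ℕ,
    (∀ ε : ℝ, 0 < ε → LogNull {N | ε < |(pairCount a b c h t₀ α β (fun t d => A d ∧
      B (a.natAbs * ((fv a b c t).natAbs / d)) ∧ Omn d ≡ r [MOD k] ∧
      Omn ((fv a b c t).natAbs / d) ≡ s [MOD k]) N : ℝ) / N - ρ * κ / k ^ 2|}) ∧
    (0 < ρ → ∃ η : ℝ, 0 < η ∧ ∀ᶠ N : ℕ in atTop, η * N ≤ pairCount a b c h t₀ α β (fun t d =>
      A d ∧ B (a.natAbs * ((fv a b c t).natAbs / d)) ∧ Omn d ≡ r [MOD k] ∧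
      Omn ((fv a b c t).natAbs / d) ≡ s [MOD k]) N)

/-- (G9) the pairs from the counts (fork of `pairsX_core`; any sign of the discriminant) -/
def StPrG : Prop := ∀ a b c : ℤ, 0 < a → (∀ t : ℕ, fv a b c t ≠ 0) → ∀ (h : ℕ), 0 < h →
  ∀ (t₀ : ℕ) (α β : ℝ), 0 < α → α < β → ∀ κ : ℝ, 0 < κ →
  Tendsto (fun N : ℕ => (CST a b c α β h t₀ 1 0 0 N : ℝ) / N) atTop (𝓝 κ) →
  ∀ (A B : ℕ → Prop) (ρ : ℝ), 0 ≤ ρ → (∀ k : ℕ, 0 < k → ∀ r s : ℕ, ∀ M : LMean,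
    M.E (fun N : ℕ => |(CWG a b c α β h t₀ A B k r s N : ℝ) / N - ρ * κ / k ^ 2|) = 0) →
  PairsG a b c h t₀ α β κ A B ρ

/-! ### Moment weights -/

/-- the primes of the window `(x ^ a, x ^ b]` -/
noncomputable def PW (x : ℝ) (I : ℝ × ℝ) : Finset ℕ :=
  (Finset.range (⌊x ^ I.2⌋₊ + 1)).filter (fun p => p.Prime ∧ x ^ I.1 < p)

/-- the number of tuples `p_i ∈ W_i` with `p_1 ⋯ p_m ∣ n` -/
def tup : List (Finset ℕ) → ℕ → ℕ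
  | [], _ => 1
  | W :: L, n => ∑ p ∈ W.filter (fun p => p ∣ n), tup L (n / p)

/-- the moment weight with the windows of `x` -/
noncomputable def tW (X : List (ℝ × ℝ)) (x : ℝ) (n : ℕ) : ℕ := tup (X.map (PW x)) n

/-- admissible lists of windows -/
def GoodL (X : List (ℝ × ℝ)) : Prop :=
  (∀ I ∈ X, 0 < I.1 ∧ I.1 < I.2) ∧ (X.map Prod.snd).sum < 1

/-- the mean of the moment weight -/
noncomputable def lam (X : List (ℝ × ℝ)) : ℝ := (X.map (fun I => Real.log (I.2 / I.1))).prod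

/-- finite linear combinations of moment weights -/
abbrev Cmb : Type := List (ℝ × List (ℝ × ℝ))

def Cmb.Good (F : Cmb) : Prop := ∀ t ∈ F, GoodL t.2

noncomputable def Cmb.val (F : Cmb) (x : ℝ) (n : ℕ) : ℝ :=
  (F.map (fun t => t.1 * (tW t.2 x n : ℝ))).sum

noncomputable def Cmb.lam (F : Cmb) : ℝ := (F.map (fun t => t.1 * AN.lam t.2)).sum

open Classical in
/-- (A6) the deterministic inequality -/
def StPt : Prop := ∀ E : Ev, E.Ok → ∀ ε : ℝ, 0 < ε → ∃ F B : Cmb, F.Good ∧ B.Good ∧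
  B.lam ≤ ε ∧ ∀ C : ℝ, 1 ≤ C → ∃ x0 : ℝ, ∀ x : ℝ, x0 ≤ x → ∀ n : ℕ, 1 ≤ n → (n : ℝ) ≤ C * x →
  |(if E.At x n then (1 : ℝ) else 0) - F.val x n| ≤ B.val x n

/-- (A7a) the means over the integers -/
def StInt : Prop := ∀ X : List (ℝ × ℝ), GoodL X → ∀ r : ℝ, 0 < r →
  Tendsto (fun x : ℝ => (∑ n ∈ Finset.Icc 1 ⌊r * x⌋₊, (tW X x n : ℝ)) / x) atTop
    (𝓝 (r * lam X))

/-- (A7b) few integers have a prime factor in a window of bounded ratio -/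
def StNullI : Prop := ∀ η C : ℝ, 0 < η → η < 1 → 1 < C → ∀ ε : ℝ, 0 < ε → ∃ N0 : ℕ, ∀ N : ℕ,
  N0 ≤ N → (Set.ncard {n : ℕ | 1 ≤ n ∧ n ≤ N ∧ ∃ p : ℕ, p.Prime ∧ p ∣ n ∧
    (N : ℝ) ^ η / C < p ∧ (p : ℝ) ≤ C * (N : ℝ) ^ η} : ℝ) ≤ ε * N

open Classical in
/-- the event has the density `δ`, also in the sense of the approximations -/
def Dens (E : Ev) (δ : ℝ) : Prop := 0 ≤ δ ∧ δ ≤ 1 ∧
  Tendsto (fun N : ℕ => (Set.ncard {n : ℕ | 1 ≤ n ∧ n ≤ N ∧ E.Is n} : ℝ) / N) atTop (𝓝 δ) ∧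
  ∀ ε : ℝ, 0 < ε → ∃ F B : Cmb, F.Good ∧ B.Good ∧ B.lam ≤ ε ∧ |F.lam - δ| ≤ ε ∧
  ∀ C : ℝ, 1 ≤ C → ∃ x0 : ℝ, ∀ x : ℝ, x0 ≤ x → ∀ n : ℕ, 1 ≤ n → (n : ℝ) ≤ C * x →
    |(if E.At x n then (1 : ℝ) else 0) - F.val x n| ≤ B.val x n

/-- (A7c) the densities (from `StPt`, `StInt`, `StNullI`) -/
def StDen : Prop := ∀ E : Ev, E.Ok → ∃ δ : ℝ, Dens E δ

/-- the split primes of the discriminant `D` prime to `2 D K` -/
def Sp (D : ℤ) (K p : ℕ) : Prop :=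
  p.Prime ∧ ¬ p ∣ 2 * D.natAbs * K ∧ ∃ r : ℤ, (p : ℤ) ∣ r ^ 2 - D

open Classical in
/-- (A1) the sum over the split primes of a window (from `Win22.win` in every class) -/
def StSplit : Prop := ∀ D : ℤ, ¬ IsSquare D → ∀ K : ℕ, 0 < K → ∀ a b : ℝ, 0 < a → a < b →
  Tendsto (fun N : ℝ => ∑ p ∈ (PW N (a, b)).filter (Sp D K), 2 / (p : ℝ)) atTop
    (𝓝 (Real.log (b / a)))

/-! ### The rows for the negative discriminants -/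

open Classical in
/-- (A2) few vectors have a prime factor in a window of bounded ratio (fork of `stNull_22`) -/
def StNullA (d : ℕ) : Prop := ∀ Q : Form, Q.Pos → Q.D = d → ∀ η C : ℝ, 0 < η → η < 1 → 1 < C →
  ∀ ε : ℝ, 0 < ε → ∃ N0 : ℕ, ∀ N : ℕ, N0 ≤ N →
  (((Q.ball N).filter (fun v => v ≠ 0 ∧ ∃ p : ℕ, p.Prime ∧
    p ∣ (Q.q v).natAbs ∧ (N : ℝ) ^ η / C < p ∧ (p : ℝ) ≤ C * (N : ℝ) ^ η)).card : ℝ) ≤ ε * N

/-- (A3) the weights are multiplicative up to small sets (from `StNullA`; fork of X3) -/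
def StApxA (d : ℕ) : Prop := ∀ E : Ev, E.Ok → ∃ c0 : ℝ, 0 < c0 ∧
  (∀ z : ℂ, ‖z‖ = 1 → Apx d z c0 (wz z E.Is)) ∧
  ∀ δ : ℝ, 0 ≤ δ → δ ≤ 1 → Apx d 1 c0 (wd δ E.Is)

/-- (A4) the weights satisfy `DilW` (from `StNullA`; fork of X4) -/
def StDilA : Prop := ∀ (ι : Type) [Fintype ι] (S : System ι) (E : Ev), E.Ok →
  (∀ z : ℂ, ‖z‖ = 1 → DilW S z (wz z E.Is)) ∧ ∀ δ : ℝ, 0 ≤ δ → δ ≤ 1 → DilW S 1 (wd δ E.Is)

/-- (A5z) frequency `0` of the moment weights, `z ≠ 1` (from `StSplit`; fork of `freqX_ne`) -/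
def StFqZ (d : ℕ) : Prop := ∀ (K : ℕ) [NeZero K] (X : List (ℝ × ℝ)), GoodL X →
  ∀ (z : ℂ) (k : ℕ), 0 < k → z ^ k = 1 → z ≠ 1 → ∀ r1 r2 : ℝ, 0 < r1 → r1 < r2 →
  ∀ e : Fin (mm d K 0), Tendsto (fun N : ℝ =>
    Mpw (fun n => z ^ Omn n * (tW X N n : ℂ)) r1 r2 N (⟨0, e⟩ : Fq d K)) atTop (𝓝 0)

/-- (A5r) frequency `0` of the moment weights, `z = 1` (from `StSplit`; fork of `freqX_one`) -/
def StFqR (d : ℕ) : Prop := ∀ (K : ℕ) [NeZero K] (X : List (ℝ × ℝ)), GoodL X →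
  ∀ r1 r2 : ℝ, 0 < r1 → r1 < r2 → ∀ e : Fin (mm d K 0), Tendsto (fun N : ℝ =>
    Mpw (fun n => (tW X N n : ℂ) - (lam X : ℂ)) r1 r2 N (⟨0, e⟩ : Fq d K)) atTop (𝓝 0)

/-- (A5c) the same without a character (from `StFqR`, `StParW d 1`) -/
def StFqC (d : ℕ) : Prop := ∀ X : List (ℝ × ℝ), GoodL X → ∀ r1 r2 : ℝ, 0 < r1 → r1 < r2 →
  Tendsto (fun N : ℝ => (1 / N) * ∑ i : Cl d, ∑ v ∈ (Shg i (r1 * N) (r2 * N)).filter Prim,
    ((tW X N ((rep i).q v).natAbs : ℝ) - lam X)) atTop (𝓝 0)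

/-- (A8) frequency `0` of the events (from `StNullA`, `StFqZ`, `StFqR`, `StFqC`) -/
def StFrA (d : ℕ) : Prop := ∀ (E : Ev) (δ : ℝ), E.Ok → Dens E δ → Fr0 d (wd δ E.Is) ∧
  ∀ (z : ℂ) (k : ℕ), 0 < k → z ^ k = 1 → z ≠ 1 → Fr0 d (wz z E.Is)

/-- (A9) the events have the structure `GWt` (from `StApxA`, `StDilA`, `StFrA`) -/
def StGA (d : ℕ) : Prop := ∀ (E : Ev) (δ : ℝ), E.Ok → Dens E δ → GWt d E.Is δ

/-- the pairs for all events, for one polynomial of any sign of the discriminant -/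
def PairsA (a b c : ℤ) (h t₀ : ℕ) (α β : ℝ) : Prop :=
  ∃ κ : ℝ, 0 < κ ∧ Tendsto (fun N : ℕ => (pairCount a b c h t₀ α β (fun _ _ => True) N : ℝ) / N)
    atTop (𝓝 κ) ∧ ∀ (E E' : Ev) (δ δ' : ℝ), E.Ok → E'.Ok → Dens E δ → Dens E' δ' →
    PairsG a b c h t₀ α β κ E.Is E'.Is (δ * δ')

/-- (A10) negative discriminant (from `StGA`, `StTwG`, `StFinG`, `StPrG`, `StMainS`) -/
def StEndA : Prop := ∀ a b c : ℤ, 0 < a → b ^ 2 - 4 * a * c < 0 → ∀ (h t₀ : ℕ), 0 < h →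
  ∀ (α β : ℝ), 0 < α → α < β → PairsA a b c h t₀ α β

end Pool.Agent.Lib.MP_a17b09_nt.AN
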