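import Pool.Agent.Lib.MP_a17b09_nt.AN.Stmts3
import Pool.Agent.Lib.MP_a17b09_nt.HY.EndH20

/-!
Project AN (MP_a17b09_nt), from exact counts to sets of count vectors (helper98): the vector of the
numbers of prime factors of `n` in finitely many windows lies in a set `S`.
-/

set_option autoImplicit false

open Filter Topology Finset

namespace Pool.Agent.Lib.MP_a17b09_nt.AN

open CH CH.PE HY

/-- the vector of the numbers of prime factors of `n` in the windows lies in `S` -/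
def Ty {m : ℕ} (u v : Fin m → ℝ) (S : Set (Fin m → ℕ)) (n : ℕ) : Prop :=
  (fun i => cntN n (u i) (v i) n) ∈ S

/-- natural density -/
def Nd (A : ℕ → Prop) (δ : ℝ) : Prop :=
  Tendsto (fun N : ℕ => (Set.ncard {n : ℕ | 1 ≤ n ∧ n ≤ N ∧ A n} : ℝ) / N) atTop (𝓝 δ)

/-- the pairs for all sets of count vectors, for one polynomial -/
def PairsT (a b c : ℤ) (h t₀ : ℕ) (α β : ℝ) : Prop :=
  ∃ κ : ℝ, 0 < κ ∧ Tendsto (fun N : ℕ => (pairCount a b c h t₀ α β (fun _ _ => True) N : ℝ) / N)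
    atTop (𝓝 κ) ∧ ∀ (m m' : ℕ) (u v : Fin m → ℝ) (u' v' : Fin m' → ℝ) (S : Set (Fin m → ℕ))
    (S' : Set (Fin m' → ℕ)) (δ δ' : ℝ), (∀ i, 0 < u i) → (∀ i, 0 < u' i) → Nd (Ty u v S) δ →
    Nd (Ty u' v' S') δ' → PairsG a b c h t₀ α β κ (Ty u v S) (Ty u' v' S') (δ * δ')

namespace Ty98

/-- few primes in a window -/
theorem cnt_le {u v : ℝ} (hu : 0 < u) {n : ℕ} (hn : 1 ≤ n) : cntN n u v n ≤ ⌊1 / u⌋₊ := by
  classical
  unfold cntN
  set A : Set ℕ := {p : ℕ | p.Prime ∧ p ∣ n ∧ (n : ℝ) ^ u < p ∧ (p : ℝ) ≤ (n : ℝ) ^ v} with hA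
  set s : Finset ℕ := n.primeFactors.filter (fun p => (n : ℝ) ^ u < p ∧ (p : ℝ) ≤ (n : ℝ) ^ v)
    with hs
  have e1 : A = (s : Set ℕ) := by
    ext p
    simp only [hA, hs, Set.mem_ofPred_eq, Finset.coe_filter, Nat.mem_primeFactors]
    exact ⟨fun h => ⟨⟨h.1, h.2.1, by omega⟩, h.2.2⟩, fun h => ⟨h.1.1, h.1.2.1, h.2⟩⟩
  rw [e1, Set.ncard_coe_finset]
  have hn0 : (0 : ℝ) < n := by exact_mod_cast hn
  have h1 : (∏ p ∈ s, p) ∣ n :=
    (Finset.prod_dvd_prod_of_subset _ _ _ (Finset.filter_subset _ _)).trans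
      (Nat.prod_primeFactors_dvd n)
  have h2 : ((∏ p ∈ s, p : ℕ) : ℝ) ≤ n := by exact_mod_cast Nat.le_of_dvd hn h1
  have h3 : ((n : ℝ) ^ u) ^ s.card ≤ ((∏ p ∈ s, p : ℕ) : ℝ) := by
    rw [← Finset.prod_const]
    push_cast
    exact Finset.prod_le_prod (fun p _ => Real.rpow_nonneg hn0.le _) fun p hp =>
      (Finset.mem_filter.1 hp).2.1.le
  rcases Nat.eq_or_lt_of_le hn with h4 | h4
  · subst h4
    have : s = ∅ := by
      rw [hs]
      simp
    rw [this]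
    simp
  · have h5 : (1 : ℝ) < n := by exact_mod_cast h4
    have h6 : (n : ℝ) ^ (u * s.card) ≤ (n : ℝ) ^ (1 : ℝ) := by
      rw [Real.rpow_mul hn0.le, Real.rpow_natCast, Real.rpow_one]
      exact h3.trans h2
    have h7 : u * s.card ≤ 1 := (Real.rpow_le_rpow_left_iff h5).1 h6
    apply Nat.le_floor
    rw [le_div_iff₀ hu]
    linarith

/-- the possible count vectors -/
noncomputable def box {m : ℕ} (u : Fin m → ℝ) : Finset (Fin m → ℕ) :=
  Fintype.piFinset fun i => Finset.range (⌊1 / u i⌋₊ + 1)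

theorem mem_box {m : ℕ} {u v : Fin m → ℝ} (hu : ∀ i, 0 < u i) {n : ℕ} (hn : 1 ≤ n) :
    (fun i => cntN n (u i) (v i) n) ∈ box u := by
  unfold box
  rw [Fintype.mem_piFinset]
  intro i
  rw [Finset.mem_range]
  exact Nat.lt_succ_of_le (cnt_le (hu i) hn)

theorem is_iff {m : ℕ} {u v : Fin m → ℝ} {c : Fin m → ℕ} {n : ℕ} :
    (⟨m, u, v, c⟩ : Ev).Is n ↔ (fun i => cntN n (u i) (v i) n) = c := by
  unfold Ev.Is Ev.At
  exact funext_iff.symm

open Classical in
theorem ty_iff {m : ℕ} {u v : Fin m → ℝ} (hu : ∀ i, 0 < u i) (S : Set (Fin m → ℕ)) {n : ℕ}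
    (hn : 1 ≤ n) : Ty u v S n ↔ ∃ c ∈ (box u).filter (fun c => c ∈ S), (⟨m, u, v, c⟩ : Ev).Is n := by
  constructor
  · intro h
    exact ⟨_, Finset.mem_filter.2 ⟨mem_box (v := v) hu hn, h⟩, is_iff.2 rfl⟩
  · rintro ⟨c, hc, h⟩
    rw [is_iff] at h
    unfold Ty
    rw [h]
    exact (Finset.mem_filter.1 hc).2

open Classical in
/-- indicator of a type -/
theorem ind_ty {m : ℕ} {u v : Fin m → ℝ} (hu : ∀ i, 0 < u i) (S : Set (Fin m → ℕ)) {n : ℕ}
    (hn : 1 ≤ n) : (if Ty u v S n then 1 else 0 : ℕ) =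
    ∑ c ∈ (box u).filter (fun c => c ∈ S), if (⟨m, u, v, c⟩ : Ev).Is n then 1 else 0 := by
  have e1 : ∀ c : Fin m → ℕ, (if (⟨m, u, v, c⟩ : Ev).Is n then 1 else 0 : ℕ) =
      if (fun i => cntN n (u i) (v i) n) = c then 1 else 0 := by
    intro c
    by_cases h : (⟨m, u, v, c⟩ : Ev).Is n
    · rw [if_pos h, if_pos (is_iff.1 h)]
    · rw [if_neg h, if_neg fun h1 => h (is_iff.2 h1)]
  rw [Finset.sum_congr rfl fun c _ => e1 c, Finset.sum_ite_eq]
  by_cases h : Ty u v S n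
  · rw [if_pos h, if_pos (Finset.mem_filter.2 ⟨mem_box (v := v) hu hn, h⟩)]
  · have h2 : (fun i => cntN n (u i) (v i) n) ∉ (box u).filter (fun c => c ∈ S) := fun h1 =>
      h (Finset.mem_filter.1 h1).2
    rw [if_neg h, if_neg h2]

theorem ncard_ind (A : ℕ → Prop) [DecidablePred A] (N : ℕ) :
    Set.ncard {n : ℕ | 1 ≤ n ∧ n ≤ N ∧ A n} = ∑ n ∈ Finset.Icc 1 N, if A n then 1 else 0 := by
  rw [Finset.sum_boole, Nat.cast_id, ← Set.ncard_coe_finset]
  congr 1
  ext n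
  simp only [Finset.coe_filter, Finset.mem_Icc, Set.mem_ofPred_eq, and_assoc]

/-- the density of a type from the densities of the exact counts -/
theorem nd_ty {m : ℕ} {u v : Fin m → ℝ} (hu : ∀ i, 0 < u i) (S : Set (Fin m → ℕ))
    (D : (Fin m → ℕ) → ℝ) (hD : ∀ c, Nd (⟨m, u, v, c⟩ : Ev).Is (D c)) [DecidablePred (· ∈ S)] :
    Nd (Ty u v S) (∑ c ∈ (box u).filter (fun c => c ∈ S), D c) := by
  classical
  have h1 := tendsto_finsetSum ((box u).filter (fun c => c ∈ S)) fun c _ => hD c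
  refine h1.congr fun N => ?_
  rw [← Finset.sum_div]
  congr 1
  rw [ncard_ind, Finset.sum_congr rfl fun n hn => ind_ty (v := v) hu S (Finset.mem_Icc.1 hn).1]
  push_cast
  rw [Finset.sum_comm]
  refine Finset.sum_congr (by congr) fun c _ => ?_
  rw [ncard_ind]
  push_cast
  rfl

theorem lognull_union {ι : Type*} (s : Finset ι) (E : ι → Set ℕ) (h : ∀ i ∈ s, LogNull (E i)) :
    LogNull {n | ∃ i ∈ s, n ∈ E i} := by
  classical
  intro ε hε
  rcases s.eq_empty_or_nonempty with hs | hs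
  · subst hs
    refine ⟨0, fun H _ => ⟨0, fun N _ => ?_⟩⟩
    have : {n : ℕ | ∃ i ∈ (∅ : Finset ι), n ∈ E i} = ∅ := by
      ext n
      simp
    rw [this]
    simp
    positivity
  · have hc : 0 < (s.card : ℝ) := by exact_mod_cast hs.card_pos
    choose! H0 hH0 using fun i hi => h i hi (ε / s.card) (by positivity)
    refine ⟨s.sup H0, fun H hH => ?_⟩
    choose! N0 hN0 using fun i (hi : i ∈ s) => hH0 i hi H ((Finset.le_sup hi).trans hH)
    refine ⟨s.sup N0, fun N hN => ?_⟩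
    have h1 : ∀ n : ℕ, {n | ∃ i ∈ s, n ∈ E i}.indicator (fun n : ℕ => (1 : ℝ) / n) n ≤
        ∑ i ∈ s, (E i).indicator (fun n : ℕ => (1 : ℝ) / n) n := by
      intro n
      by_cases hn : ∃ i ∈ s, n ∈ E i
      · rw [Set.indicator_of_mem (show n ∈ {n | ∃ i ∈ s, n ∈ E i} from hn)]
        obtain ⟨i, hi, hni⟩ := hn
        refine le_trans (le_of_eq ?_) (Finset.single_le_sum (f := fun i =>
          (E i).indicator (fun n : ℕ => (1 : ℝ) / n) n) (fun j _ => ?_) hi)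
        · show _ = (E i).indicator (fun n : ℕ => (1 : ℝ) / n) n
          rw [Set.indicator_of_mem hni]
        · exact Set.indicator_nonneg (fun m _ => by positivity) n
      · rw [Set.indicator_of_notMem (show n ∉ {n | ∃ i ∈ s, n ∈ E i} from hn)]
        exact Finset.sum_nonneg fun j _ => Set.indicator_nonneg (fun m _ => by positivity) n
    calc ∑ n ∈ Finset.Ioc N (2 ^ H * N),
          {n | ∃ i ∈ s, n ∈ E i}.indicator (fun n : ℕ => (1 : ℝ) / n) n
        ≤ ∑ n ∈ Finset.Ioc N (2 ^ H * N), ∑ i ∈ s, (E i).indicator (fun n : ℕ => (1 : ℝ) / n) n :=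
          Finset.sum_le_sum fun n _ => h1 n
      _ = ∑ i ∈ s, ∑ n ∈ Finset.Ioc N (2 ^ H * N), (E i).indicator (fun n : ℕ => (1 : ℝ) / n) n :=
          Finset.sum_comm
      _ ≤ ∑ _i ∈ s, ε / s.card * H := Finset.sum_le_sum fun i hi =>
          hN0 i hi N ((Finset.le_sup hi).trans hN)
      _ = ε * H := by
          rw [Finset.sum_const, nsmul_eq_mul]
          field_simp

/-- counts of pairs are additive -/
theorem pc_sum {a b c : ℤ} (hf : ∀ t : ℕ, fv a b c t ≠ 0) (h t₀ : ℕ) (α β : ℝ) {ι : Type*}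
    (G : Finset ι) (P : ι → ℕ → ℕ → Prop) (P0 : ℕ → ℕ → Prop)
    [∀ i t d, Decidable (P i t d)] [∀ t d, Decidable (P0 t d)]
    (hP : ∀ t d : ℕ, d ∈ nearG a b c α β t → (if P0 t d then 1 else 0 : ℕ) =
      ∑ i ∈ G, if P i t d then 1 else 0) (N : ℕ) :
    pairCount a b c h t₀ α β P0 N = ∑ i ∈ G, pairCount a b c h t₀ α β (P i) N := by
  unfold pairCount
  rw [Finset.sum_comm]
  refine Finset.sum_congr rfl fun t _ => ?_
  rw [EndH20.ncard_eq (hf t) α β (P0 t), Finset.card_filter,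
    Finset.sum_congr rfl fun d hd => hP t d hd, Finset.sum_comm]
  refine Finset.sum_congr rfl fun i _ => ?_
  rw [EndH20.ncard_eq (hf t) α β (P i t), Finset.card_filter]

/-- the exact counts with the Ok form and the density -/
theorem exists_ok (hOk : StOk) (hDen : StDen) {m : ℕ} {u : Fin m → ℝ} (v : Fin m → ℝ)
    (hu : ∀ i, 0 < u i) (c : Fin m → ℕ) : ∃ (E : Ev) (D : ℝ), E.Ok ∧ Dens E D ∧
    (∀ n : ℕ, 1 ≤ n → ((⟨m, u, v, c⟩ : Ev).Is n ↔ E.Is n)) ∧ Nd (⟨m, u, v, c⟩ : Ev).Is D := by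
  obtain ⟨E, hE, hEi⟩ := hOk ⟨m, u, v, c⟩ hu
  obtain ⟨D, hD⟩ := hDen E hE
  refine ⟨E, D, hE, hD, hEi, ?_⟩
  refine (hD.2.2.1).congr fun N => ?_
  have e1 : {n : ℕ | 1 ≤ n ∧ n ≤ N ∧ E.Is n} =
      {n : ℕ | 1 ≤ n ∧ n ≤ N ∧ (⟨m, u, v, c⟩ : Ev).Is n} := by
    ext n
    exact ⟨fun h => ⟨h.1, h.2.1, (hEi n h.1).2 h.2.2⟩, fun h => ⟨h.1, h.2.1, (hEi n h.1).1 h.2.2⟩⟩
  rw [e1]

/-- the natural density of a type exists -/
theorem exists_nd (hOk : StOk) (hDen : StDen) {m : ℕ} (u v : Fin m → ℝ) (hu : ∀ i, 0 < u i)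
    (S : Set (Fin m → ℕ)) : ∃ δ : ℝ, Nd (Ty u v S) δ := by
  classical
  choose E D hE hD hi hN using fun c => exists_ok hOk hDen v hu c
  exact ⟨_, nd_ty hu S D hN⟩

end Ty98

open Ty98 in
/-- from exact counts to sets of count vectors -/
theorem pairsT_98 (hOk : StOk) (hDen : StDen) {a b c : ℤ} (ha : 0 < a)
    (hf : ∀ t : ℕ, fv a b c t ≠ 0) {h t₀ : ℕ} {α β : ℝ} (hP : PairsA a b c h t₀ α β) :
    PairsT a b c h t₀ α β := by
  classical
  obtain ⟨κ, hκ, hlim, hA⟩ := hP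
  refine ⟨κ, hκ, hlim, fun m m' u v u' v' S S' δ δ' hu hu' hδ hδ' k hk r s => ?_⟩
  choose E D hE hD hi hN using fun c => exists_ok hOk hDen v hu c
  choose E' D' hE' hD' hi' hN' using fun c => exists_ok hOk hDen v' hu' c
  have eδ : δ = ∑ c ∈ (box u).filter (fun c => c ∈ S), D c :=
    tendsto_nhds_unique hδ (nd_ty hu S D hN)
  have eδ' : δ' = ∑ c ∈ (box u').filter (fun c => c ∈ S'), D' c :=
    tendsto_nhds_unique hδ' (nd_ty hu' S' D' hN')
  set G := (box u).filter (fun c => c ∈ S) ×ˢ (box u').filter (fun c => c ∈ S') with hG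
  have eG : δ * δ' = ∑ i ∈ G, D i.1 * D' i.2 := by
    rw [eδ, eδ', hG, Finset.sum_product, Finset.sum_mul]
    exact Finset.sum_congr rfl fun c _ => Finset.mul_sum _ _ _
  set P : (Fin m → ℕ) × (Fin m' → ℕ) → ℕ → ℕ → Prop := fun i t d => (E i.1).Is d ∧
    (E' i.2).Is (a.natAbs * ((fv a b c t).natAbs / d)) ∧ Omn d ≡ r [MOD k] ∧
    Omn ((fv a b c t).natAbs / d) ≡ s [MOD k] with hPdef
  set P0 : ℕ → ℕ → Prop := fun t d => Ty u v S d ∧
    Ty u' v' S' (a.natAbs * ((fv a b c t).natAbs / d)) ∧ Omn d ≡ r [MOD k] ∧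
    Omn ((fv a b c t).natAbs / d) ≡ s [MOD k] with hP0def
  have hsum : ∀ N : ℕ, pairCount a b c h t₀ α β P0 N =
      ∑ i ∈ G, pairCount a b c h t₀ α β (P i) N := by
    refine pc_sum hf h t₀ α β G P P0 fun t d hd => ?_
    have h1 := Nat.mem_divisors.1 (Finset.mem_filter.1 hd).1
    have hd1 : 1 ≤ d := Nat.pos_of_dvd_of_pos h1.1 (Nat.pos_of_ne_zero h1.2)
    have he1 : 1 ≤ a.natAbs * ((fv a b c t).natAbs / d) := by
      refine Nat.mul_pos (Int.natAbs_pos.2 ha.ne') ?_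
      exact Nat.div_pos (Nat.le_of_dvd (Nat.pos_of_ne_zero h1.2) h1.1) hd1
    by_cases hO : Omn d ≡ r [MOD k] ∧ Omn ((fv a b c t).natAbs / d) ≡ s [MOD k]
    · have e1 : (if P0 t d then 1 else 0 : ℕ) = (if Ty u v S d then 1 else 0) *
          (if Ty u' v' S' (a.natAbs * ((fv a b c t).natAbs / d)) then 1 else 0) := by
        by_cases x1 : Ty u v S d
        · by_cases x2 : Ty u' v' S' (a.natAbs * ((fv a b c t).natAbs / d))
          · rw [if_pos x1, if_pos x2, if_pos (show P0 t d from ⟨x1, x2, hO⟩)]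
          · rw [if_neg x2, if_neg (show ¬ P0 t d from fun x => x2 x.2.1), mul_zero]
        · rw [if_neg x1, if_neg (show ¬ P0 t d from fun x => x1 x.1), zero_mul]
      have e2 : ∀ i : (Fin m → ℕ) × (Fin m' → ℕ), (if P i t d then 1 else 0 : ℕ) =
          (if (⟨m, u, v, i.1⟩ : Ev).Is d then 1 else 0) *
          (if (⟨m', u', v', i.2⟩ : Ev).Is (a.natAbs * ((fv a b c t).natAbs / d)) then 1
            else 0) := by
        intro i
        by_cases x1 : (⟨m, u, v, i.1⟩ : Ev).Is d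
        · by_cases x2 : (⟨m', u', v', i.2⟩ : Ev).Is (a.natAbs * ((fv a b c t).natAbs / d))
          · rw [if_pos x1, if_pos x2, if_pos (show P i t d from
              ⟨(hi i.1 d hd1).1 x1, (hi' i.2 _ he1).1 x2, hO⟩)]
          · rw [if_neg x2, if_neg (show ¬ P i t d from fun x =>
              x2 ((hi' i.2 _ he1).2 x.2.1)), mul_zero]
        · rw [if_neg x1, if_neg (show ¬ P i t d from fun x =>
            x1 ((hi i.1 d hd1).2 x.1)), zero_mul]
      rw [e1, ind_ty (v := v) hu S hd1, ind_ty (v := v') hu' S' he1,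
        Finset.sum_congr rfl fun i _ => e2 i, hG, Finset.sum_product, Finset.sum_mul]
      exact Finset.sum_congr rfl fun c _ => Finset.mul_sum _ _ _
    · rw [if_neg (show ¬ P0 t d from fun x => hO x.2.2)]
      exact (Finset.sum_eq_zero fun i _ => if_neg (show ¬ P i t d from fun x => hO x.2.2)).symm
  have hmem : ∀ i : (Fin m → ℕ) × (Fin m' → ℕ), _ := fun i =>
    hA (E i.1) (E' i.2) (D i.1) (D' i.2) (hE i.1) (hE' i.2) (hD i.1) (hD' i.2) k hk r s
  refine ⟨fun ε hε => ?_, fun hpos => ?_⟩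
  · have hc : (0 : ℝ) < (G.card : ℝ) + 1 := by positivity
    refine EndS.LogNull.mono (lognull_union G (fun i => {N : ℕ | ε / ((G.card : ℝ) + 1) <
      |(pairCount a b c h t₀ α β (P i) N : ℝ) / N - D i.1 * D' i.2 * κ / k ^ 2|})
      fun i _ => (hmem i).1 _ (by positivity)) fun N hN => ?_
    simp only [Set.mem_ofPred_eq] at hN ⊢
    by_contra hno
    push Not at hno
    have e1 : (pairCount a b c h t₀ α β P0 N : ℝ) / N - δ * δ' * κ / k ^ 2 =
        ∑ i ∈ G, ((pairCount a b c h t₀ α β (P i) N : ℝ) / N - D i.1 * D' i.2 * κ / k ^ 2) := by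
      rw [hsum, eG]
      push_cast
      rw [Finset.sum_sub_distrib, Finset.sum_div, Finset.sum_mul, Finset.sum_div]
    have e2 : |(pairCount a b c h t₀ α β P0 N : ℝ) / N - δ * δ' * κ / k ^ 2| ≤
        ∑ _i ∈ G, ε / ((G.card : ℝ) + 1) := by
      rw [e1]
      exact (Finset.abs_sum_le_sum_abs _ _).trans (Finset.sum_le_sum fun i hi => hno i hi)
    rw [Finset.sum_const, nsmul_eq_mul] at e2
    have e3 : (G.card : ℝ) * (ε / ((G.card : ℝ) + 1)) < ε := by
      rw [mul_div_assoc', div_lt_iff₀ hc]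
      nlinarith
    linarith
  · rw [eG] at hpos
    obtain ⟨i, hiG, hi0⟩ : ∃ i ∈ G, 0 < D i.1 * D' i.2 := by
      by_contra hno
      push Not at hno
      have := Finset.sum_nonpos hno
      linarith
    obtain ⟨η, hη, hev⟩ := (hmem i).2 hi0
    refine ⟨η, hη, ?_⟩
    filter_upwards [hev] with N hN
    refine hN.trans ?_
    rw [hsum]
    exact_mod_cast Finset.single_le_sum (f := fun i => pairCount a b c h t₀ α β (P i) N)
      (fun j _ => Nat.zero_le _) hiG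

end Pool.Agent.Lib.MP_a17b09_nt.AN
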