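import Pool.Agent.Lib.MP_a17b09_nt.AN.SStmts3
import Pool.Agent.Lib.MP_a17b09_nt.AN.Ty98

/-!
Project AS (MP_a17b09_nt), upgrade: sets of count vectors (`Ty`) and the cofactors
`|f (t + j d)| / d` without the factor `a`.
-/

set_option autoImplicit false

open Filter Topology Finset

namespace Pool.Agent.Lib.MP_a17b09_nt.AS

open CH CH.PE HY
open AN (Ev Dens Ty Nd StOk StDen)
open SPH (vl)

/-- the law of two slots for two properties of integers -/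
def LawT (a b c : ℤ) (h t₀ : ℕ) (α β κ : ℝ) (T T' : ℕ → Prop) (δ δ' : ℝ) : Prop :=
  ∀ k : ℕ, 0 < k → ∀ r s : ℕ, ∀ ε : ℝ, 0 < ε →
  (∀ j : ℕ, LogNull {N : ℕ | ε * N < |(pairCount a b c h t₀ α β (fun t d => T d ∧
    T' (cf a b c t d j) ∧ ArithmeticFunction.cardFactors d ≡ r [MOD k] ∧
    ArithmeticFunction.cardFactors (cf a b c t d j) ≡ s [MOD k]) N : ℝ) -
      δ * δ' * κ / k ^ 2 * N|}) ∧
  ∀ j l : ℕ, j ≠ l → LogNull {N : ℕ | ε * N < |(pairCount a b c h t₀ α β (fun t d =>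
    T (cf a b c t d j) ∧ T' (cf a b c t d l) ∧
    ArithmeticFunction.cardFactors (cf a b c t d j) ≡ r [MOD k] ∧
    ArithmeticFunction.cardFactors (cf a b c t d l) ≡ s [MOD k]) N : ℝ) -
      δ * δ' * κ / k ^ 2 * N|}

/-- the law of two slots for all types -/
def LawTy (a b c : ℤ) (h t₀ : ℕ) (α β κ : ℝ) : Prop :=
  ∀ (m m' : ℕ) (u v : Fin m → ℝ) (u' v' : Fin m' → ℝ) (S : Set (Fin m → ℕ))
    (S' : Set (Fin m' → ℕ)) (δ δ' : ℝ), (∀ i, 0 < u i) → (∀ i, 0 < u' i) →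
    Nd (Ty u v S) δ → Nd (Ty u' v' S') δ' →
    LawT a b c h t₀ α β κ (Ty u v S) (Ty u' v' S') δ δ'

/-- (U1) sets of count vectors, and without the factor `a` -/
def StLawTy : Prop := StOk → StDen → ∀ (a b c : ℤ), 0 < a → (∀ t : ℕ, fv a b c t ≠ 0) →
  ∀ (h : ℕ), 0 < h → ∀ (t₀ : ℕ) (α β : ℝ), 0 < α → α < β →
  (∃ C : ℝ, ∀ N : ℕ, ((∑ t ∈ (Finset.Icc 1 N).filter (fun t => t ≡ t₀ [MOD h]),
    (nearG a b c α β t).card : ℕ) : ℝ) ≤ C * N) →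
  ∀ κ : ℝ, 0 < κ →
  Tendsto (fun N : ℕ => (pairCount a b c h t₀ α β (fun _ _ => True) N : ℝ) / N) atTop (𝓝 κ) →
  (∀ (E E' : Ev) (δ δ' : ℝ), E.Ok → E'.Ok → Dens E δ → Dens E' δ' →
    LawS a b c h t₀ α β κ E E' δ δ') → LawTy a b c h t₀ α β κ

open Classical in
/-- the number of `j < J` with `T (|f (t + j d)| / d)` and `Ω (f (t + j d)) ≡ r mod k` -/
noncomputable def cntT (a b c : ℤ) (T : ℕ → Prop) (J k r t d : ℕ) : ℕ :=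
  ((Finset.range J).filter (fun j => T (cf a b c t d j) ∧
    ArithmeticFunction.cardFactors (vl a b c (t + j * d)) ≡ r [MOD k])).card

/-- the law of the progressions for one property -/
def ProgT (a b c : ℤ) (h t₀ : ℕ) (α β κ : ℝ) (T : ℕ → Prop) (δ : ℝ) : Prop :=
  ∀ k : ℕ, 0 < k → ∀ J : ℕ, 0 < J → ∀ η : ℝ, 0 < η →
    (∀ ε : ℝ, 0 < ε → LogNull {N : ℕ | (δ / (η ^ 2 * J) + ε) * κ * N <
      (pairCount a b c h t₀ α β (fun t d => ∃ r : ℕ,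
        η * J < |(cntT a b c T J k r t d : ℝ) - J * δ / k|) N : ℝ)}) ∧
    (δ < η ^ 2 * J → ∃ c' : ℝ, 0 < c' ∧ ∀ᶠ N : ℕ in atTop, c' * N ≤
      (pairCount a b c h t₀ α β (fun t d => ∀ r : ℕ,
        |(cntT a b c T J k r t d : ℝ) - J * δ / k| ≤ η * J) N : ℝ))

/-- (U2) the progressions from the law of two slots: `∑_r (cnt_r - J δ / k)²` has the mean
`κ J δ (1 - δ / k) ≤ κ J δ` -/
def StProgT : Prop := ∀ (a b c : ℤ), 0 < a → (∀ t : ℕ, fv a b c t ≠ 0) → ∀ (h : ℕ), 0 < h →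
  ∀ (t₀ : ℕ) (α β : ℝ), 0 < α → α < β →
  (∃ C : ℝ, ∀ N : ℕ, ((∑ t ∈ (Finset.Icc 1 N).filter (fun t => t ≡ t₀ [MOD h]),
    (nearG a b c α β t).card : ℕ) : ℝ) ≤ C * N) →
  ∀ κ : ℝ, 0 < κ →
  Tendsto (fun N : ℕ => (pairCount a b c h t₀ α β (fun _ _ => True) N : ℝ) / N) atTop (𝓝 κ) →
  ∀ (T : ℕ → Prop) (δ : ℝ), 0 ≤ δ → δ ≤ 1 → LawT a b c h t₀ α β κ (fun _ => True) T 1 δ →
  LawT a b c h t₀ α β κ T T δ δ → ProgT a b c h t₀ α β κ T δ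

/-- the final statement -/
def ShortT (a b c : ℤ) (h t₀ : ℕ) (α β : ℝ) : Prop := ∃ κ : ℝ, 0 < κ ∧
  Tendsto (fun N : ℕ => (pairCount a b c h t₀ α β (fun _ _ => True) N : ℝ) / N) atTop (𝓝 κ) ∧
  LawTy a b c h t₀ α β κ ∧ ∀ (m : ℕ) (u v : Fin m → ℝ) (S : Set (Fin m → ℕ)) (δ : ℝ),
    (∀ i, 0 < u i) → Nd (Ty u v S) δ → ProgT a b c h t₀ α β κ (Ty u v S) δ

end Pool.Agent.Lib.MP_a17b09_nt.AS
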