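import Pool.Agent.Lib.MP_a17b09_nt.PQ.FreqX12
import Pool.Agent.Lib.MP_a17b09_nt.AN.Stmts3

/-!
AN (MP_a17b09_nt): the linear step identity for the number of tuples of split primes whose product
divides the value of a primitive vector.  helper12.
-/

set_option autoImplicit false

open Filter Topology Finset

namespace Pool.Agent.Lib.MP_a17b09_nt.AN.Tup12

open CH CH.PE MRSG MRSG.ExpG12 MRSG.ShiftG12 PQ PQ.Freq12

variable {d K : ℕ}

/-- number of vectors in a shell -/
theorem card_le (i : Cl d) {a b : ℝ} (ha : 0 ≤ a) (hb : 0 ≤ b) :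
    ((Shg i a b).card : ℝ) ≤ 88 * b := by
  by_cases hab : a ≤ b
  · by_cases hb1 : 1 ≤ b
    · have h1 := card_shell (rep_pos i) a b ha hab
      rw [← Shg_eq] at h1
      have hk := MRS.LatU84.kap_le (rep i) (rep_pos i)
      have hk0 := MRS.LatG84.kap_pos (rep_pos i)
      have hs : √b ≤ b := by
        rw [Real.sqrt_le_left (by linarith)]
        nlinarith
      have h2 := (abs_le.1 h1).2
      have h3 : MRS.LatG84.kap (rep i) * (b - a) ≤ 4 * b := by nlinarith
      linarith
    · have h2 : Shg i a b = ∅ := by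
        rw [Finset.eq_empty_iff_forall_notMem]
        intro v hv
        obtain ⟨h3, -, h4⟩ := mem_Shg.1 hv
        have h5 : 0 < (rep i).q v := (rep_pos i).q_pos h3
        have h6 : (1 : ℝ) ≤ (rep i).q v := by exact_mod_cast h5
        linarith
      rw [h2]
      simp [hb]
  · have h2 : Shg i a b = ∅ := by
      rw [Finset.eq_empty_iff_forall_notMem]
      intro v hv
      obtain ⟨-, h3, h4⟩ := mem_Shg.1 hv
      linarith
    rw [h2]
    simp [hb]

open Classical in
/-- a primitive vector is in exactly one of the two images if its value is divisible by `p` -/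
theorem one_split {p : ℕ} (hp : Spl d K p) (i : Cl d) {v : V} (hv : Prim v) :
    ∑ b : Bool, (if Im (Mg d (p, b) i) v then (1 : ℂ) else 0) =
      if (p : ℤ) ∣ (rep i).q v then 1 else 0 := by
  have h1 : Adm d K (p, true) := hp
  have h1' : Adm d K (p, false) := hp
  have e1 := im_iff h1 i v
  have e2 := im_iff h1' i v
  have hr : rg d (p, false) = -rg d (p, true) := rg_neg p true
  rw [hr] at e2
  simp only at e1 e2
  have hor := adm_dvd_iff h1 i (v := v)
  simp only at hor
  have hnb : ¬ (Eig (p : ℤ) (rg d (p, true)) (rep i) v ∧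
      Eig (p : ℤ) (-rg d (p, true)) (rep i) v) := by
    intro h
    obtain ⟨h2, h3⟩ := (eig_both (Nat.prime_iff_prime_int.1 hp.1) (rel_g h1 i).1).1 h
    have h4 : (p : ℤ) ∣ (Int.gcd v.1 v.2 : ℤ) := Int.dvd_coe_gcd h2 h3
    rw [show Int.gcd v.1 v.2 = 1 from hv] at h4
    have h5 : p ∣ 1 := by exact_mod_cast h4
    exact hp.1.one_lt.ne' (Nat.dvd_one.1 h5)
  rw [Fintype.sum_bool]
  by_cases hA : Eig (p : ℤ) (rg d (p, true)) (rep i) v
  · have hB : ¬ Eig (p : ℤ) (-rg d (p, true)) (rep i) v := fun h => hnb ⟨hA, h⟩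
    rw [if_pos (e1.2 hA), if_neg (fun h => hB (e2.1 h)), if_pos (hor.2 (Or.inl hA)), add_zero]
  · by_cases hB : Eig (p : ℤ) (-rg d (p, true)) (rep i) v
    · rw [if_neg (fun h => hA (e1.1 h)), if_pos (e2.2 hB), if_pos (hor.2 (Or.inr hB)), zero_add]
    · rw [if_neg (fun h => hA (e1.1 h)), if_neg (fun h => hB (e2.1 h)), if_neg, add_zero]
      intro h
      rcases hor.1 h with h | h
      · exact hA h
      · exact hB h

open Classical in
/-- the vectors in the image of the conjugate -/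
theorem card_conj {p : ℕ} {b : Bool} (hA : Adm d K (p, b)) (j : Cl d) {x y : ℝ} (hx : 0 ≤ x)
    (hy : 0 ≤ y) :
    (((Shg j x y).filter (fun u => Eig (p : ℤ) (-rg d (p, b)) (rep j) u)).card : ℝ) ≤
      88 * (y / p) := by
  have hA' : Adm d K (p, !b) := hA
  have hp0 : (0 : ℝ) < p := by exact_mod_cast hA.1.pos
  have h1 := sum_im hA' j x y (fun _ => (1 : ℂ))
  rw [sum_const, sum_const, nsmul_eq_mul, nsmul_eq_mul, mul_one, mul_one] at h1
  have h2 : ((Shg j x y).filter (fun v => Im (Mg d (p, !b) j) v)).card =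
      (Shg (sg d (p, !b) j) (x / p) (y / p)).card := by exact_mod_cast h1
  have h3 : (Shg j x y).filter (fun u => Eig (p : ℤ) (-rg d (p, b)) (rep j) u) =
      (Shg j x y).filter (fun v => Im (Mg d (p, !b) j) v) := by
    refine Finset.filter_congr fun v _ => ?_
    rw [im_iff hA' j v, rg_neg p b]
  rw [h3, h2]
  exact card_le _ (by positivity) (by positivity)

open Classical in
/-- **the linear step identity** -/
theorem step_lin [NeZero K] {W : Finset ℕ} (hW : ∀ p ∈ W, Spl d K p) {r1 r2 N : ℝ} (hr1 : 0 ≤ r1)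
    (hr12 : r1 < r2) (hN : 0 < N) (w : Fq d K) {z : ℂ} (hz : ‖z‖ = 1) (T T' : ℕ → ℂ) {M : ℝ}
    (hT : ∀ n : ℕ, 0 < n → (n : ℝ) ≤ r2 * N →
      T n = ∑ p ∈ W.filter (fun p => p ∣ n), T' (n / p))
    (hM0 : 0 ≤ M) (hM : ∀ n : ℕ, 0 < n → (n : ℝ) ≤ r2 * N → ‖T' n‖ ≤ M) :
    ‖Mpa (fun i v => gz z (rep i) v * T ((rep i).q v).natAbs) r1 r2 N w -
      ∑ P ∈ W ×ˢ (univ : Finset Bool), z * cw P w / (P.1 : ℂ) *
        Mpa (fun i v => gz z (rep i) v * T' ((rep i).q v).natAbs) r1 r2 (N / P.1) w‖ ≤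
      (Fintype.card (Cl d) * (176 * r2)) * M * ∑ p ∈ W, 1 / (p : ℝ) ^ 2 := by
  have hr2 : 0 < r2 := lt_of_le_of_lt hr1 hr12
  have hadm : ∀ P ∈ W ×ˢ (univ : Finset Bool), Adm d K P := fun P hP =>
    hW P.1 (mem_product.1 hP).1
  -- the error terms
  obtain ⟨E, hE⟩ : ∃ E : Cl d → ℕ × Bool → ℂ, E = fun i P =>
      ∑ u ∈ (Shg (sg d P i) (r1 * N / P.1) (r2 * N / P.1)),
        (if Prim u ∧ Eig (P.1 : ℤ) (-rg d P) (rep (sg d P i)) u then z * cw P w *
          (gz z (rep (sg d P i)) u * T' ((rep (sg d P i)).q u).natAbs * ch w (sg d P i) u)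
        else 0) := ⟨_, rfl⟩
  have hnq : ∀ (j : Cl d) (u : V), u ≠ 0 → ((rep j).q u : ℝ) ≤ r2 * N →
      ‖T' ((rep j).q u).natAbs‖ ≤ M := by
    intro j u hu h
    have h1 := (rep_pos j).q_pos hu
    apply hM
    · exact Int.natAbs_pos.2 h1.ne'
    · have h2 : (((rep j).q u).natAbs : ℝ) = ((rep j).q u : ℝ) := by
        rw [← Int.cast_natCast, Int.natCast_natAbs, abs_of_pos h1]
      rw [h2]
      exact h
  have hEb : ∀ i, ∀ P ∈ W ×ˢ (univ : Finset Bool), ‖E i P‖ ≤
      M * (88 * (r2 * N / P.1 / P.1)) := by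
    rintro i ⟨p, b⟩ hP
    have hA := hadm _ hP
    have hp0 : (0 : ℝ) < p := by exact_mod_cast hA.1.pos
    have hp1 : (1 : ℝ) ≤ p := by exact_mod_cast hA.1.one_lt.le
    rw [hE]
    simp only
    rw [← sum_filter]
    refine (norm_sum_le _ _).trans ?_
    have h1 : ∀ u ∈ (Shg (sg d (p, b) i) (r1 * N / p) (r2 * N / p)).filter (fun u =>
        Prim u ∧ Eig (p : ℤ) (-rg d (p, b)) (rep (sg d (p, b) i)) u),
        ‖z * cw (p, b) w * (gz z (rep (sg d (p, b) i)) u *
          T' ((rep (sg d (p, b) i)).q u).natAbs * ch w (sg d (p, b) i) u)‖ ≤ M := by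
      intro u hu
      obtain ⟨hu0, -, hu2⟩ := mem_Shg.1 (mem_filter.1 hu).1
      have h2 : ((rep (sg d (p, b) i)).q u : ℝ) ≤ r2 * N :=
        hu2.trans (div_le_self (by positivity) hp1)
      have h3 := hnq _ u hu0 h2
      have h4 := norm_ch_le w (sg d (p, b) i) hu0
      have h5 : ‖gz z (rep (sg d (p, b) i)) u‖ = 1 := by
        unfold gz
        rw [norm_pow, hz, one_pow]
      rw [norm_mul, norm_mul, norm_mul, norm_mul, hz, norm_cw hA, h5, one_mul, one_mul, one_mul]
      calc ‖T' ((rep (sg d (p, b) i)).q u).natAbs‖ * ‖ch w (sg d (p, b) i) u‖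
          ≤ M * 1 := mul_le_mul h3 h4 (norm_nonneg _) ((norm_nonneg _).trans h3)
        _ = M := mul_one M
    refine (sum_le_sum h1).trans ?_
    rw [sum_const, nsmul_eq_mul, mul_comm]
    refine mul_le_mul_of_nonneg_left ?_ hM0
    refine le_trans ?_ (card_conj hA (sg d (p, b) i) (x := r1 * N / p) (y := r2 * N / p)
      (by positivity) (by positivity))
    exact_mod_cast card_le_card (fun u hu => by
      rw [mem_filter] at hu ⊢
      exact ⟨hu.1, hu.2.2⟩)
  -- the sums for one form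
  have e1 : ∀ i : Cl d, ∑ v ∈ (Shg i (r1 * N) (r2 * N)).filter Prim,
      gz z (rep i) v * T ((rep i).q v).natAbs * ch w i v =
      ∑ P ∈ W ×ˢ (univ : Finset Bool), (∑ u ∈ (Shg (sg d P i) (r1 * N / P.1)
        (r2 * N / P.1)).filter Prim, z * cw P w * (gz z (rep (sg d P i)) u *
          T' ((rep (sg d P i)).q u).natAbs * ch w (sg d P i) u) - E i P) := by
    intro i
    have e2 : ∀ v ∈ (Shg i (r1 * N) (r2 * N)).filter Prim,
        gz z (rep i) v * T ((rep i).q v).natAbs * ch w i v =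
        ∑ P ∈ W ×ˢ (univ : Finset Bool), if Im (Mg d P i) v then
          gz z (rep i) v * T' (((rep i).q v).natAbs / P.1) * ch w i v else 0 := by
      intro v hv
      obtain ⟨hv1, hv2⟩ := mem_filter.1 hv
      obtain ⟨hv0, -, hv3⟩ := mem_Shg.1 hv1
      have hq := (rep_pos i).q_pos hv0
      have hqn : (((rep i).q v).natAbs : ℝ) = ((rep i).q v : ℝ) := by
        rw [← Int.cast_natCast, Int.natCast_natAbs, abs_of_pos hq]
      rw [hT _ (Int.natAbs_pos.2 hq.ne') (by rw [hqn]; exact hv3), sum_filter, sum_product]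
      rw [mul_sum, sum_mul]
      refine sum_congr rfl fun p hp => ?_
      have h1 := one_split (hW p hp) i hv2
      have h2 : ∑ b : Bool, (if Im (Mg d (p, b) i) v then
          gz z (rep i) v * T' (((rep i).q v).natAbs / p) * ch w i v else 0) =
          (∑ b : Bool, (if Im (Mg d (p, b) i) v then (1 : ℂ) else 0)) *
          (gz z (rep i) v * T' (((rep i).q v).natAbs / p) * ch w i v) := by
        rw [sum_mul]
        refine sum_congr rfl fun b _ => ?_
        split_ifs <;> simp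
      rw [h2, h1]
      by_cases hd : p ∣ ((rep i).q v).natAbs
      · rw [if_pos hd, if_pos (Int.natCast_dvd.2 hd), one_mul]
      · rw [if_neg hd, if_neg (fun h => hd (Int.natCast_dvd.1 h))]
        ring
    rw [sum_congr rfl e2, sum_comm]
    refine sum_congr rfl fun P hP => ?_
    have hA := hadm P hP
    have hp0 : (0 : ℝ) < P.1 := by exact_mod_cast hA.1.pos
    rw [sum_filter, sum_filter]
    have e3 : ∑ v ∈ Shg i (r1 * N) (r2 * N),
        (if Prim v then if Im (Mg d P i) v then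
          gz z (rep i) v * T' (((rep i).q v).natAbs / P.1) * ch w i v else 0 else 0) =
        ∑ v ∈ (Shg i (r1 * N) (r2 * N)).filter (fun v => Im (Mg d P i) v),
          (if Prim v then gz z (rep i) v * T' (((rep i).q v).natAbs / P.1) * ch w i v
            else 0) := by
      rw [sum_filter]
      refine sum_congr rfl fun v _ => ?_
      split_ifs <;> simp
    rw [e3, sum_im hA i, hE]
    simp only
    rw [← sum_sub_distrib]
    refine sum_congr rfl fun u hu => ?_
    obtain ⟨hu0, -, -⟩ := mem_Shg.1 hu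
    obtain ⟨-, R⟩ := rel_g hA i
    have hq : (((rep i).q ((Mg d P i).app u)).natAbs) / P.1 = ((rep (sg d P i)).q u).natAbs := by
      rw [R.sim, Int.natAbs_mul, Int.natAbs_natCast,
        Nat.mul_div_cancel_left _ hA.1.pos]
    rw [hq, gz_app hA z i hu0, ch_M hA w i hu0]
    have hpr := prim_app_iff hA i (w := u)
    by_cases hpu : Prim u
    · by_cases hei : Eig (P.1 : ℤ) (-rg d P) (rep (sg d P i)) u
      · rw [if_neg (fun h => (hpr.1 h).2 hei), if_pos hpu, if_pos ⟨hpu, hei⟩]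
        ring
      · rw [if_pos (hpr.2 ⟨hpu, hei⟩), if_pos hpu, if_neg (fun h => hei h.2)]
        ring
    · rw [if_neg (fun h => hpu (hpr.1 h).1), if_neg hpu, if_neg (fun h => hpu h.1)]
      ring
  have e5 : Mpa (fun i v => gz z (rep i) v * T ((rep i).q v).natAbs) r1 r2 N w -
      ∑ P ∈ W ×ˢ (univ : Finset Bool), z * cw P w / (P.1 : ℂ) *
        Mpa (fun i v => gz z (rep i) v * T' ((rep i).q v).natAbs) r1 r2 (N / P.1) w =
      -((1 / (N : ℂ)) * ∑ P ∈ W ×ˢ (univ : Finset Bool), ∑ i, E i P) := by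
    have hNC : (N : ℂ) ≠ 0 := by exact_mod_cast hN.ne'
    have e6 : ∀ P ∈ W ×ˢ (univ : Finset Bool), z * cw P w / (P.1 : ℂ) *
        Mpa (fun i v => gz z (rep i) v * T' ((rep i).q v).natAbs) r1 r2 (N / P.1) w =
        (1 / (N : ℂ)) * ∑ i, ∑ u ∈ (Shg (sg d P i) (r1 * N / P.1)
          (r2 * N / P.1)).filter Prim, z * cw P w * (gz z (rep (sg d P i)) u *
          T' ((rep (sg d P i)).q u).natAbs * ch w (sg d P i) u) := by
      intro P hP
      have hA := hadm P hP
      have hp0 : (P.1 : ℂ) ≠ 0 := by exact_mod_cast hA.1.ne_zero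
      have e4 : ∑ i, ∑ u ∈ (Shg (sg d P i) (r1 * N / P.1) (r2 * N / P.1)).filter Prim,
          z * cw P w * (gz z (rep (sg d P i)) u *
          T' ((rep (sg d P i)).q u).natAbs * ch w (sg d P i) u) = z * cw P w *
          ∑ i, ∑ u ∈ (Shg i (r1 * N / P.1) (r2 * N / P.1)).filter Prim,
          gz z (rep i) u * T' ((rep i).q u).natAbs * ch w i u := by
        rw [← Equiv.sum_comp (sg d P) (fun i => ∑ u ∈ (Shg i (r1 * N / P.1)
          (r2 * N / P.1)).filter Prim, gz z (rep i) u * T' ((rep i).q u).natAbs * ch w i u),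
          mul_sum]
        refine sum_congr rfl fun i _ => ?_
        rw [mul_sum]
      rw [e4]
      unfold Mpa
      rw [← mul_div_assoc, ← mul_div_assoc]
      push_cast
      field_simp
    rw [sum_congr rfl e6, ← mul_sum]
    unfold Mpa
    rw [← mul_sub, ← mul_neg]
    congr 1
    rw [sum_congr rfl fun i _ => e1 i, sum_comm, ← sum_sub_distrib, ← sum_neg_distrib]
    refine sum_congr rfl fun P _ => ?_
    rw [sum_sub_distrib]
    ring
  rw [e5, norm_neg, norm_mul, norm_div, norm_one, Complex.norm_real, Real.norm_of_nonneg hN.le]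
  have h6 : ‖∑ P ∈ W ×ˢ (univ : Finset Bool), ∑ i, E i P‖ ≤
      ∑ P ∈ W ×ˢ (univ : Finset Bool), ∑ _i : Cl d, M * (88 * (r2 * N / P.1 / P.1)) :=
    (norm_sum_le _ _).trans (sum_le_sum fun P hP => (norm_sum_le _ _).trans
      (sum_le_sum fun i _ => hEb i P hP))
  refine (mul_le_mul_of_nonneg_left h6 (by positivity)).trans (le_of_eq ?_)
  rw [sum_product, mul_sum, mul_sum]
  refine sum_congr rfl fun p hp => ?_
  have hp0 : (p : ℝ) ≠ 0 := by exact_mod_cast (hW p hp).1.ne_zero
  rw [Fintype.sum_bool]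
  simp only [sum_const, card_univ, nsmul_eq_mul]
  field_simp
  ring

/-- bound of the number of tuples -/
theorem tup_le {M : ℕ} {R : ℝ} : ∀ (L : List (Finset ℕ)), (∀ W ∈ L, ∀ n : ℕ, 0 < n →
    (n : ℝ) ≤ R → (W.filter (fun p => p ∣ n)).card ≤ M) → ∀ n : ℕ, 0 < n → (n : ℝ) ≤ R →
    tup L n ≤ M ^ L.length
  | [], _, n, _, _ => by simp [tup]
  | W :: L, h, n, hn, hnR => by
    rw [tup]
    have h1 : ∀ p ∈ W.filter (fun p => p ∣ n), tup L (n / p) ≤ M ^ L.length := by
      intro p hp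
      have hd := (mem_filter.1 hp).2
      refine tup_le L (fun W' hW' => h W' (List.mem_cons_of_mem _ hW')) (n / p)
        (Nat.div_pos (Nat.le_of_dvd hn hd) (Nat.pos_of_dvd_of_pos hd hn)) ?_
      refine le_trans ?_ hnR
      exact_mod_cast Nat.div_le_self n p
    refine (sum_le_sum h1).trans ?_
    rw [sum_const, smul_eq_mul, List.length_cons, pow_succ, mul_comm]
    exact Nat.mul_le_mul_left _ (h W List.mem_cons_self n hn hnR)

/-- the sum over a set of primes -/
noncomputable def sw2 (W : Finset ℕ × ℝ) : ℝ := ∑ p ∈ W.1, 2 / (p : ℝ)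

/-- the conditions on one set of primes -/
structure Cnd (d K : ℕ) (R : ℝ) (M : ℕ) (S δ : ℝ) (W : Finset ℕ × ℝ) : Prop where
  spl : ∀ p ∈ W.1, Spl d K p
  le : ∀ p ∈ W.1, (p : ℝ) ≤ W.2
  pos : 0 < W.2
  sum : sw2 W ≤ S
  sq : ∑ p ∈ W.1, 1 / (p : ℝ) ^ 2 ≤ δ
  card : ∀ n : ℕ, 0 < n → (n : ℝ) ≤ R → (W.1.filter (fun p => p ∣ n)).card ≤ M

/-- **the induction over the list** -/
theorem main_ind [NeZero K] {r1 r2 : ℝ} (hr1 : 0 ≤ r1) (hr12 : r1 < r2) (w : Fq d K) {z : ℂ}
    (hz : ‖z‖ = 1) {G : ℂ} (hG : ∀ P, Adm d K P → z * cw P w * G = G) {ε X0 R : ℝ}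
    (hX0 : 1 ≤ X0) (hε : 0 ≤ ε)
    (hbase : ∀ N, X0 ≤ N → r2 * N ≤ R → ‖Mpa (fun i v => gz z (rep i) v) r1 r2 N w - G‖ ≤ ε)
    {M : ℕ} {S δ : ℝ} (hM1 : 1 ≤ M) (hS : 1 ≤ S) (hδ : 0 ≤ δ) :
    ∀ (L : List (Finset ℕ × ℝ)), (∀ W ∈ L, Cnd d K R M S δ W) →
    ∀ N : ℝ, X0 * (L.map Prod.snd).prod ≤ N → r2 * N ≤ R →
    ‖Mpa (fun i v => gz z (rep i) v * (tup (L.map Prod.fst) ((rep i).q v).natAbs : ℂ)) r1 r2 N w -
      (((L.map sw2).prod : ℝ) : ℂ) * G‖ ≤
      S ^ L.length * (ε + L.length * (Fintype.card (Cl d) * (176 * r2) * M ^ L.length * δ)) := by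
  have hr2 : 0 < r2 := lt_of_le_of_lt hr1 hr12
  intro L
  induction L with
  | nil =>
    intro _ N hN hNR
    rw [List.map_nil, List.prod_nil, mul_one] at hN
    have h1 := hbase N hN hNR
    simp only [List.map_nil, tup, Nat.cast_one, mul_one, List.prod_nil, Complex.ofReal_one,
      one_mul, List.length_nil, pow_zero, Nat.cast_zero, zero_mul, add_zero]
    exact h1
  | cons W L ih =>
    intro hL N hN hNR
    obtain ⟨hspl, hle, hb, hsum, hsq, hcard⟩ := hL W List.mem_cons_self
    have hL' : ∀ W' ∈ L, Cnd d K R M S δ W' := fun W' hW' => hL W' (List.mem_cons_of_mem _ hW')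
    have hpr : 0 < (L.map Prod.snd).prod := by
      refine List.prod_pos fun x hx => ?_
      obtain ⟨W', hW', rfl⟩ := List.mem_map.1 hx
      exact (hL' W' hW').pos
    rw [List.map_cons, List.prod_cons] at hN
    have hN0 : 0 < N := lt_of_lt_of_le (by positivity) hN
    set m := L.length with hm
    set A : ℝ := Fintype.card (Cl d) * (176 * r2) * M ^ m * δ with hA
    have hM0 : (1 : ℝ) ≤ M := by exact_mod_cast hM1
    have hA0 : 0 ≤ A := by positivity
    set c : ℝ := (L.map sw2).prod with hc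
    have hstep := step_lin hspl hr1 hr12 hN0 w hz
      (fun n => (tup (W.1 :: L.map Prod.fst) n : ℂ)) (fun n => (tup (L.map Prod.fst) n : ℂ))
      (M := (M : ℝ) ^ m) (by
        intro n hn _
        rw [tup]
        push_cast
        rfl) (pow_nonneg (by linarith) _) (by
        intro n hn hnN
        rw [Complex.norm_natCast]
        have h1 := tup_le (M := M) (R := R) (L.map Prod.fst) (by
          intro W' hW' n' hn' hnR'
          obtain ⟨W'', hW'', rfl⟩ := List.mem_map.1 hW'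
          exact (hL' W'' hW'').card n' hn' hnR') n hn (hnN.trans hNR)
        rw [List.length_map] at h1
        exact_mod_cast h1)
    have e1 : Mpa (fun i v => gz z (rep i) v * (tup ((W :: L).map Prod.fst)
        ((rep i).q v).natAbs : ℂ)) r1 r2 N w - ((((W :: L).map sw2).prod : ℝ) : ℂ) * G =
        (Mpa (fun i v => gz z (rep i) v * (tup (W.1 :: L.map Prod.fst)
          ((rep i).q v).natAbs : ℂ)) r1 r2 N w - ∑ P ∈ W.1 ×ˢ (univ : Finset Bool),
          z * cw P w / (P.1 : ℂ) * Mpa (fun i v => gz z (rep i) v *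
            (tup (L.map Prod.fst) ((rep i).q v).natAbs : ℂ)) r1 r2 (N / P.1) w) +
        ∑ P ∈ W.1 ×ˢ (univ : Finset Bool), z * cw P w / (P.1 : ℂ) *
          (Mpa (fun i v => gz z (rep i) v *
            (tup (L.map Prod.fst) ((rep i).q v).natAbs : ℂ)) r1 r2 (N / P.1) w - (c : ℂ) * G) := by
      have e2 : ∑ P ∈ W.1 ×ˢ (univ : Finset Bool), z * cw P w / (P.1 : ℂ) * ((c : ℂ) * G) =
          ((((W :: L).map sw2).prod : ℝ) : ℂ) * G := by
        rw [List.map_cons, List.prod_cons, ← hc, sum_product]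
        unfold sw2
        push_cast
        rw [mul_assoc, sum_mul]
        refine sum_congr rfl fun p hp => ?_
        rw [Fintype.sum_bool]
        have h1 := hG (p, true) (hspl p hp)
        have h2 := hG (p, false) (hspl p hp)
        have h3 : z * cw (p, true) w / (p : ℂ) * ((c : ℂ) * G) = (c : ℂ) / p *
            (z * cw (p, true) w * G) := by ring
        have h4 : z * cw (p, false) w / (p : ℂ) * ((c : ℂ) * G) = (c : ℂ) / p *
            (z * cw (p, false) w * G) := by ring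
        rw [h3, h4, h1, h2]
        ring
      rw [← e2]
      simp only [mul_sub, sum_sub_distrib, List.map_cons]
      ring
    rw [e1]
    refine (norm_add_le _ _).trans ?_
    have h1 : (Fintype.card (Cl d) * (176 * r2)) * (M : ℝ) ^ m * ∑ p ∈ W.1, 1 / (p : ℝ) ^ 2 ≤
        A := by
      rw [hA]
      exact mul_le_mul_of_nonneg_left hsq (by positivity)
    have hIH : ∀ p ∈ W.1, ‖Mpa (fun i v => gz z (rep i) v *
        (tup (L.map Prod.fst) ((rep i).q v).natAbs : ℂ)) r1 r2 (N / p) w - (c : ℂ) * G‖ ≤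
        S ^ m * (ε + m * A) := by
      intro p hp
      have hp1 : (1 : ℝ) ≤ p := by exact_mod_cast (hspl p hp).1.one_lt.le
      have hp0 : (0 : ℝ) < p := by linarith
      refine ih hL' (N / p) ?_ ?_
      · rw [le_div_iff₀ hp0]
        calc X0 * (L.map Prod.snd).prod * p ≤ X0 * (L.map Prod.snd).prod * W.2 :=
              mul_le_mul_of_nonneg_left (hle p hp) (by positivity)
          _ = X0 * (W.2 * (L.map Prod.snd).prod) := by ring
          _ ≤ N := hN
      · exact (mul_le_mul_of_nonneg_left (div_le_self hN0.le hp1) hr2.le).trans hNR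
    have h2 : ‖∑ P ∈ W.1 ×ˢ (univ : Finset Bool), z * cw P w / (P.1 : ℂ) *
          (Mpa (fun i v => gz z (rep i) v *
            (tup (L.map Prod.fst) ((rep i).q v).natAbs : ℂ)) r1 r2 (N / P.1) w - (c : ℂ) * G)‖ ≤
        S * (S ^ m * (ε + m * A)) := by
      refine (norm_sum_le _ _).trans ?_
      rw [sum_product]
      have h3 : ∀ p ∈ W.1, ∑ b : Bool, ‖z * cw (p, b) w / (((p, b) : ℕ × Bool).1 : ℂ) *
          (Mpa (fun i v => gz z (rep i) v * (tup (L.map Prod.fst) ((rep i).q v).natAbs : ℂ)) r1 r2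
            (N / (((p, b) : ℕ × Bool).1 : ℝ)) w - (c : ℂ) * G)‖ ≤
          2 / (p : ℝ) * (S ^ m * (ε + m * A)) := by
        intro p hp
        have hp0 : (0 : ℝ) < p := by exact_mod_cast (hspl p hp).1.pos
        have key : ∀ b : Bool, ‖z * cw (p, b) w / (((p, b) : ℕ × Bool).1 : ℂ) *
            (Mpa (fun i v => gz z (rep i) v * (tup (L.map Prod.fst) ((rep i).q v).natAbs : ℂ)) r1
            r2 (N / (((p, b) : ℕ × Bool).1 : ℝ)) w - (c : ℂ) * G)‖ ≤
            1 / (p : ℝ) * (S ^ m * (ε + m * A)) := by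
          intro b
          simp only
          rw [norm_mul, norm_div, norm_mul, hz, norm_cw (show Adm d K (p, b) from hspl p hp),
            Complex.norm_natCast, one_mul]
          exact mul_le_mul_of_nonneg_left (hIH p hp) (by positivity)
        rw [Fintype.sum_bool]
        refine (add_le_add (key true) (key false)).trans (le_of_eq ?_)
        ring
      refine (sum_le_sum h3).trans ?_
      rw [← sum_mul]
      exact mul_le_mul_of_nonneg_right hsum (by positivity)
    refine (add_le_add (hstep.trans h1) h2).trans ?_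
    rw [List.length_cons, ← hm]
    have hSm : (1 : ℝ) ≤ S ^ (m + 1) := one_le_pow₀ hS
    have e3 : Fintype.card (Cl d) * (176 * r2) * (M : ℝ) ^ (m + 1) * δ = M * A := by
      rw [hA]; ring
    rw [e3]
    push_cast
    have h5 : A ≤ M * A := le_mul_of_one_le_left hA0 hM0
    have h6 : S * (S ^ m * (ε + m * A)) = S ^ (m + 1) * (ε + m * A) := by ring
    rw [h6]
    have h7 : (m : ℝ) * A ≤ m * (M * A) := mul_le_mul_of_nonneg_left h5 (by positivity)
    calc A + S ^ (m + 1) * (ε + m * A) ≤ S ^ (m + 1) * A + S ^ (m + 1) * (ε + m * A) :=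
          add_le_add (le_mul_of_one_le_left hA0 hSm) le_rfl
      _ = S ^ (m + 1) * (ε + (m * A + A)) := by ring
      _ ≤ S ^ (m + 1) * (ε + (m * (M * A) + M * A)) := by gcongr
      _ = S ^ (m + 1) * (ε + (m + 1) * (M * A)) := by ring

end Pool.Agent.Lib.MP_a17b09_nt.AN.Tup12
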