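import Pool.Agent.Lib.MP_a17b09_nt.AN.W98
import Pool.Agent.Lib.MP_a17b09_nt.PQ.X7_64

/-!
Project AN (MP_a17b09_nt), G7 (helper98, fork of `PQ/X7_64`): the twisted sums of two sets of
integers with densities, negative discriminant.
-/

set_option autoImplicit false

open Filter Topology Finset

namespace Pool.Agent.Lib.MP_a17b09_nt.AN

open CH CH.PE MRSG
open PQ (B1 Wy TwW Apx Fr0 DilW MrsQw StMrsW StEsW StAmW StTwW)

open PQ.T20 W98 in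
/-- (G7) -/
theorem stTwG_98 (hMrs : ∀ d : ℕ, 0 < d → StMrsW d) (hEs : StEsW) (hAm : StAmW)
    (hTw : StTwW) (hMain : StMainS) : StTwG := by
  intro a b c ha hD d hd A B δ δ' hA hB h hh t0 α β hα hαβ M
  have hd0 : 0 < d := by
    have : (0 : ℤ) < d := by rw [hd]; linarith
    exact_mod_cast this
  have hSd : ∀ (ι : Type) [Fintype ι] (S : System ι), (S.d : ℤ) = 4 * a * c - b ^ 2 →
      S.d = d := by
    intro ι _ S hS
    rw [← hd] at hS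
    exact_mod_cast hS
  -- mean squares
  have hMz : ∀ (R : ℕ → Prop) (σ : ℝ), GWt d R σ → ∀ (z : ℂ) (k : ℕ), 0 < k → z ^ k = 1 →
      z ≠ 1 → ∀ Q : Form, Q.Pos → Q.D = 4 * a * c - b ^ 2 → ∀ K : ℕ, 0 < K →
      MrsQw Q (wz z R) K := by
    intro R σ hR z k hk hz hz1 Q hQ hQD K hK
    have hzn : ‖z‖ = 1 := Complex.norm_eq_one_of_pow_eq_one hz hk.ne'
    obtain ⟨c0, hc0, hA1, -⟩ := hR.apx
    exact hMrs d hd0 z hzn c0 hc0 (wz z R) (b1_wz hzn R) (hA1 z hzn)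
      (hR.frz z k hk hz hz1) Q hQ (by rw [hQD, hd]) K hK
  have hMr : ∀ (R : ℕ → Prop) (σ : ℝ), GWt d R σ → ∀ Q : Form, Q.Pos →
      Q.D = 4 * a * c - b ^ 2 → ∀ K : ℕ, 0 < K → MrsQw Q (wd σ R) K := by
    intro R σ hR Q hQ hQD K hK
    obtain ⟨c0, hc0, -, hA2⟩ := hR.apx
    exact hMrs d hd0 1 norm_one c0 hc0 (wd σ R) (b1_wd hR.nonneg hR.le_one)
      hA2 hR.fr Q hQ (by rw [hQD, hd]) K hK
  -- dilations
  have hDz : ∀ (R : ℕ → Prop) (σ : ℝ), GWt d R σ → ∀ z : ℂ, ‖z‖ = 1 →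
      ∀ (ι : Type) [Fintype ι] (S : System ι),
      (S.d : ℤ) = 4 * a * c - b ^ 2 → DilW S z (wz z R) :=
    fun R σ hR z hz ι _ S hS => (hR.dil ι S (hSd ι S hS)).1 z hz
  have hDr : ∀ (R : ℕ → Prop) (σ : ℝ), GWt d R σ →
      ∀ (ι : Type) [Fintype ι] (S : System ι),
      (S.d : ℤ) = 4 * a * c - b ^ 2 → DilW S 1 (wd σ R) :=
    fun R σ hR ι _ S hS => (hR.dil ι S (hSd ι S hS)).2
  have hDb : ∀ (R : ℕ → Prop) (σ : ℝ), GWt d R σ →
      ∀ (ι : Type) [Fintype ι] (S : System ι),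
      (S.d : ℤ) = 4 * a * c - b ^ 2 → DilW S 1 (ind R) := by
    intro R σ hR ι _ S hS
    have h1 := hDz R σ hR 1 norm_one ι S hS
    rwa [wz_one] at h1
  refine ⟨?_, ?_⟩
  · intro z1 z2 k hk h1 h2 h12
    have hn1 : ‖z1‖ = 1 := Complex.norm_eq_one_of_pow_eq_one h1 hk.ne'
    have hn2 : ‖z2‖ = 1 := Complex.norm_eq_one_of_pow_eq_one h2 hk.ne'
    refine tw hEs hAm hTw ha hD hn1 hn2 (b1_wz hn1 A) (b1_wz hn2 B) (fin_wz hk h1 A)
      (fin_wz hk h2 B) (hDz A δ hA z1 hn1) (hDz B δ' hB z2 hn2) ?_ hh t0 hα hαβ M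
    rcases h12 with h12 | h12
    · exact Or.inl (hMz A δ hA z1 k hk h1 h12)
    · exact Or.inr (hMz B δ' hB z2 k hk h2 h12)
  · obtain ⟨κ, -, hlim⟩ := hMain a b c ha hD h hh t0 α β hα hαβ
    refine comb hlim hA.nonneg hA.le_one hB.nonneg hB.le_one M ?_ ?_
    · exact tw hEs hAm hTw ha hD norm_one norm_one (b1_wd hA.nonneg hA.le_one) (b1_ind B)
        (fin_wd δ A) (by rw [← wz_one]; exact fin_wz one_pos (one_pow 1) B) (hDr A δ hA)
        (hDb B δ' hB) (Or.inl (hMr A δ hA)) hh t0 hα hαβ M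
    · exact tw hEs hAm hTw ha hD norm_one norm_one b1_one (b1_wd hB.nonneg hB.le_one) fin_one
        (fin_wd δ' B) (fun ι _ S _ => PQ.dil_one64 S) (hDr B δ' hB)
        (Or.inr (hMr B δ' hB)) hh t0 hα hαβ M

end Pool.Agent.Lib.MP_a17b09_nt.AN
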